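import Pool.Agent.Lib.MP_cd509c_nt.JD.Defs

set_option autoImplicit false

namespace Pool.Agent.Lib.MP_cd509c_nt.JD

open Complex ComplexConjugate MeasureTheory Filter Topology
open Pool.Agent.Lib.MP_cd509c_nt.DN

/-! ### elementary estimates for the exponential function -/

theorem jd_BJ_inv {s : ℂ} (hs : ‖s‖ ≤ 1 / 4) : 1 + s ≠ 0 ∧ ‖(1 + s)⁻¹‖ ≤ 4 / 3 := by
  have h1 : 3 / 4 ≤ ‖1 + s‖ := by
    have h := norm_sub_norm_le (1 : ℂ) (-s)
    rw [norm_neg, norm_one, sub_neg_eq_add] at h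
    linarith
  have h2 : 1 + s ≠ 0 := by
    intro h
    rw [h, norm_zero] at h1
    linarith
  refine ⟨h2, ?_⟩
  rw [norm_inv, show (4 / 3 : ℝ) = (3 / 4)⁻¹ by norm_num]
  exact inv_anti₀ (by norm_num) h1

theorem jd_BJ_e1 {s z : ℂ} (hs : ‖s‖ ≤ 1) (hz : ‖z‖ ≤ 1 / 4) :
    ‖cexp s / (1 + z) - 1 - (s - z)‖ ≤ 2 * ‖s‖ ^ 2 + 2 * ‖z‖ * ‖s - z‖ := by
  obtain ⟨h1, h2⟩ := jd_BJ_inv hz
  have e : cexp s / (1 + z) - 1 - (s - z) =
      (cexp s - 1 - s) * (1 + z)⁻¹ - (s - z) * z * (1 + z)⁻¹ := by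
    field_simp
    ring
  rw [e]
  have h3 := norm_exp_sub_one_sub_id_le hs
  refine (norm_sub_le _ _).trans (add_le_add ?_ ?_)
  · rw [norm_mul]
    calc ‖cexp s - 1 - s‖ * ‖(1 + z)⁻¹‖ ≤ ‖s‖ ^ 2 * (4 / 3) :=
          mul_le_mul h3 h2 (norm_nonneg _) (by positivity)
      _ ≤ 2 * ‖s‖ ^ 2 := by nlinarith [sq_nonneg ‖s‖]
  · rw [norm_mul, norm_mul]
    have h4 : 0 ≤ ‖s - z‖ * ‖z‖ := by positivity
    calc ‖s - z‖ * ‖z‖ * ‖(1 + z)⁻¹‖ ≤ ‖s - z‖ * ‖z‖ * (4 / 3) :=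
          mul_le_mul_of_nonneg_left h2 h4
      _ ≤ 2 * ‖z‖ * ‖s - z‖ := by nlinarith

theorem jd_BJ_e2 {s : ℂ} (hs : ‖s‖ ≤ 1 / 4) :
    ‖cexp s / (1 + s) - 1 + log (1 + s) - s‖ ≤ 2 * ‖s‖ ^ 3 := by
  obtain ⟨h1, h2⟩ := jd_BJ_inv hs
  have h3 : ‖cexp s - (1 + s + s ^ 2 / 2)‖ ≤ 2 / 9 * ‖s‖ ^ 3 := by
    have h := exp_bound (x := s) (by linarith) (n := 3) (by norm_num)
    have e : ∑ m ∈ Finset.range 3, s ^ m / (m.factorial : ℂ) = 1 + s + s ^ 2 / 2 := by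
      simp [Finset.sum_range_succ, Nat.factorial]
    rw [e] at h
    refine h.trans (le_of_eq ?_)
    norm_num [Nat.factorial]
    ring
  have h4 : ‖log (1 + s) - (s - s ^ 2 / 2)‖ ≤ 4 / 9 * ‖s‖ ^ 3 := by
    have h := norm_log_sub_logTaylor_le 2 (z := s) (by linarith)
    have e : logTaylor (2 + 1) s = s - s ^ 2 / 2 := by
      simp [logTaylor, Finset.sum_range_succ]
      ring
    rw [e] at h
    refine h.trans ?_
    have h5 : (1 - ‖s‖)⁻¹ ≤ 4 / 3 := by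
      rw [show (4 / 3 : ℝ) = (3 / 4)⁻¹ by norm_num]
      exact inv_anti₀ (by norm_num) (by linarith)
    have h6 : ‖s‖ ^ (2 + 1) * (1 - ‖s‖)⁻¹ ≤ ‖s‖ ^ 3 * (4 / 3) :=
      mul_le_mul_of_nonneg_left h5 (by positivity)
    have : (((2 : ℕ) : ℝ) + 1) = 3 := by norm_num
    rw [this]
    linarith
  have e : cexp s / (1 + s) - 1 + log (1 + s) - s =
      (cexp s - (1 + s + s ^ 2 / 2)) * (1 + s)⁻¹ + (log (1 + s) - (s - s ^ 2 / 2)) -
        s ^ 3 / 2 * (1 + s)⁻¹ := by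
    field_simp
    ring
  rw [e]
  have h5 : ‖(cexp s - (1 + s + s ^ 2 / 2)) * (1 + s)⁻¹‖ ≤ 2 / 9 * ‖s‖ ^ 3 * (4 / 3) := by
    rw [norm_mul]
    exact mul_le_mul h3 h2 (norm_nonneg _) (by positivity)
  have h6 : ‖s ^ 3 / 2 * (1 + s)⁻¹‖ ≤ ‖s‖ ^ 3 / 2 * (4 / 3) := by
    rw [norm_mul, norm_div, norm_pow]
    refine mul_le_mul ?_ h2 (norm_nonneg _) (by positivity)
    simp
  have h7 := norm_sub_le ((cexp s - (1 + s + s ^ 2 / 2)) * (1 + s)⁻¹ +
    (log (1 + s) - (s - s ^ 2 / 2))) (s ^ 3 / 2 * (1 + s)⁻¹)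
  have h8 := norm_add_le ((cexp s - (1 + s + s ^ 2 / 2)) * (1 + s)⁻¹)
    (log (1 + s) - (s - s ^ 2 / 2))
  have h9 : 0 ≤ ‖s‖ ^ 3 := by positivity
  linarith

/-- log-derivative of a log-linear function -/
theorem jd_BJ_lip {h : ℂ → ℂ} {u : ℂ} {N ε : ℝ} (hd : DifferentiableAt ℂ h u) (h0 : h u ≠ 0)
    (hl : ∀ᶠ v in 𝓝 u, ‖h v‖ ≤ Real.exp (N * (v.re - u.re) + ε * ‖v - u‖) * ‖h u‖)
    (hε : 0 ≤ ε) : ‖deriv h u / h u - N‖ ≤ ε := by
  set L : ℂ := deriv h u / h u - N with hL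
  by_cases hL0 : L = 0
  · rw [hL0, norm_zero]
    exact hε
  set e : ℂ := conj L / ‖L‖ with he
  have hnL : (0 : ℝ) < ‖L‖ := norm_pos_iff.2 hL0
  have hnLc : ((‖L‖ : ℝ) : ℂ) ≠ 0 := by exact_mod_cast hnL.ne'
  have hne : ‖e‖ = 1 := by
    rw [he, norm_div, Complex.norm_conj, Complex.norm_real, Real.norm_of_nonneg hnL.le]
    exact div_self hnL.ne'
  have hLe : L * e = ‖L‖ := by
    rw [he, mul_div_assoc', mul_conj, normSq_eq_norm_sq]
    push_cast
    field_simp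
  -- the function along the ray
  have hray : HasDerivAt (fun t : ℝ => u + t * e) e 0 := by
    have h1 := ((hasDerivAt_id (0 : ℝ)).ofReal_comp.mul_const e).const_add u
    simpa using h1
  have hφd : HasDerivAt (fun t : ℝ => h (u + t * e) * cexp (-(N * (t * e))) / h u) ‖L‖ 0 := by
    have h1 : HasDerivAt (fun t : ℝ => h (u + t * e)) (deriv h u * e) 0 := by
      have h2 : HasDerivAt h (deriv h u) (u + ((0 : ℝ) : ℂ) * e) := by
        simpa using hd.hasDerivAt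
      exact h2.comp (0 : ℝ) hray
    have h3 : HasDerivAt (fun t : ℝ => cexp (-(N * (t * e)))) (-(N * e)) 0 := by
      have h4 : HasDerivAt (fun t : ℝ => -((N : ℂ) * (t * e))) (-(N * e)) 0 := by
        have h5 : HasDerivAt (fun t : ℝ => (N : ℂ) * (t * e)) (N * e) 0 := by
          have h6 := (((hasDerivAt_id (0 : ℝ)).ofReal_comp.mul_const e).const_mul (N : ℂ))
          simpa using h6
        exact h5.neg
      have h6 := h4.cexp
      simpa using h6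
    have h7 := (h1.mul h3).div_const (h u)
    refine h7.congr_deriv ?_
    rw [← hLe, hL]
    simp only [ofReal_zero, zero_mul, mul_zero, neg_zero, exp_zero, add_zero, mul_one]
    field_simp
    ring
  have hψ : HasDerivAt (fun t : ℝ => Real.exp (ε * t) -
      (h (u + t * e) * cexp (-(N * (t * e))) / h u).re) (ε - ‖L‖) 0 := by
    have h1 : HasDerivAt (fun t : ℝ => Real.exp (ε * t)) ε 0 := by
      have h2 := ((hasDerivAt_id (0 : ℝ)).const_mul ε).exp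
      simpa using h2
    have h3 := (Complex.reCLM.hasFDerivAt.comp_hasDerivAt (0 : ℝ) hφd)
    have h4 : HasDerivAt (fun t : ℝ => (h (u + t * e) * cexp (-(N * (t * e))) / h u).re)
        (‖L‖) 0 := h3.congr_deriv (by simp)
    exact h1.sub h4
  have hslope := hψ.tendsto_slope_zero_right
  have hev : ∀ᶠ t : ℝ in 𝓝[>] 0, 0 ≤ t⁻¹ • ((Real.exp (ε * (0 + t)) -
      (h (u + (0 + t : ℝ) * e) * cexp (-(N * ((0 + t : ℝ) * e))) / h u).re) -
      (Real.exp (ε * 0) - (h (u + (0 : ℝ) * e) * cexp (-(N * ((0 : ℝ) * e))) / h u).re)) := by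
    have hc : Tendsto (fun t : ℝ => u + t * e) (𝓝[>] 0) (𝓝 u) := by
      have h1 : Tendsto (fun t : ℝ => u + t * e) (𝓝 0) (𝓝 u) := by
        have := hray.continuousAt.tendsto
        simpa using this
      exact h1.mono_left nhdsWithin_le_nhds
    filter_upwards [hc.eventually hl, self_mem_nhdsWithin] with t ht ht0
    have ht1 : (0 : ℝ) < t := ht0
    have h1 : ‖h (u + t * e) * cexp (-(N * (t * e))) / h u‖ ≤ Real.exp (ε * t) := by
      rw [norm_div, norm_mul, div_le_iff₀ (norm_pos_iff.2 h0), norm_exp]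
      have h2 : (-(N * (t * e)) : ℂ).re = -(N * (t * e.re)) := by
        simp
      have h3 : (u + t * e).re - u.re = t * e.re := by simp
      have h4 : ‖u + t * e - u‖ = t := by
        rw [add_sub_cancel_left, norm_mul, hne, mul_one, norm_real, Real.norm_of_nonneg ht1.le]
      rw [h3, h4] at ht
      rw [h2]
      calc ‖h (u + t * e)‖ * Real.exp (-(N * (t * e.re))) ≤
          (Real.exp (N * (t * e.re) + ε * t) * ‖h u‖) * Real.exp (-(N * (t * e.re))) :=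
            mul_le_mul_of_nonneg_right ht (Real.exp_pos _).le
        _ = (Real.exp (N * (t * e.re) + ε * t) * Real.exp (-(N * (t * e.re)))) * ‖h u‖ := by ring
        _ = Real.exp (ε * t) * ‖h u‖ := by
          rw [← Real.exp_add]
          ring_nf
    have h5 := (re_le_norm (h (u + t * e) * cexp (-(N * (t * e))) / h u)).trans h1
    have h6 : (h (u + (0 : ℝ) * e) * cexp (-(N * ((0 : ℝ) * e))) / h u).re = 1 := by
      simp [h0]
    rw [h6, zero_add, mul_zero, Real.exp_zero, sub_self, sub_zero, smul_eq_mul]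
    exact mul_nonneg (inv_nonneg.2 ht1.le) (sub_nonneg.2 h5)
  have := ge_of_tendsto hslope hev
  linarith

/-! ### the kernel near the axis -/

/-- the exponential on the circle -/
noncomputable def jd_BJ_E (κ : ℝ) (p : ℂ) : ℂ := cexp (-(2 * κ * I * p))

/-- change of coordinate -/
noncomputable def jd_BJ_P (κ : ℝ) (p : ℂ) : ℂ := (1 - jd_BJ_E κ p) / (2 * κ * I)

/-- exponent of the kernel -/
noncomputable def jd_BJ_Th (D : ℕ) (κ : ℝ) (w p : ℂ) : ℂ :=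
  D * (jd_BJ_E κ p / (1 + -(2 * κ * I * w)) - 1 + 2 * κ * I * p)

/-- the kernel -/
noncomputable def jd_BJ_T (D : ℕ) (κ : ℝ) (w p : ℂ) : ℂ :=
  cexp (jd_BJ_Th D κ w p) * (1 + -(2 * κ * I * w)) ^ D

/-- parameters -/
structure jd_BJ_S (D : ℕ) (κ β ε N Y : ℝ) : Prop where
  κ0 : 0 < κ
  ε0 : 0 < ε
  ε1 : ε ≤ 1
  N0 : 0 < N
  Y0 : 160 ≤ Y
  κY : 1000 * κ * Y ^ 2 ≤ ε
  βN : 4 * κ ^ 2 * D * β = N
  β1 : 1 ≤ β
  β4 : β ≤ 4

theorem jd_BJ_small {D : ℕ} {κ β ε N Y : ℝ} (h : jd_BJ_S D κ β ε N Y) :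
    κ * Y ≤ ε / 160000 ∧ κ ≤ ε / 25600000 ∧ 4 * κ ^ 2 * D ≤ N ∧ 0 < (D : ℝ) := by
  have h1 := h.κ0
  have h2 := h.Y0
  have h3 := h.κY
  have h4 : κ * Y * 160 ≤ κ * Y ^ 2 := by nlinarith [mul_nonneg h1.le (by linarith : 0 ≤ Y)]
  have h5 : κ * Y ≤ ε / 160000 := by linarith
  have h6 : κ * 160 ≤ κ * Y := mul_le_mul_of_nonneg_left h2 h1.le
  refine ⟨h5, by linarith, ?_, ?_⟩
  · have h7 := h.βN
    have h8 : 0 ≤ 4 * κ ^ 2 * D := by positivity
    nlinarith [h.β1]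
  · by_contra hD
    have h9 : (D : ℝ) = 0 := le_antisymm (not_lt.1 hD) (Nat.cast_nonneg _)
    have h7 := h.βN
    rw [h9] at h7
    have := h.N0
    linarith

theorem jd_BJ_ns (κ : ℝ) (hκ : 0 < κ) (p : ℂ) : ‖-(2 * κ * I * p)‖ = 2 * κ * ‖p‖ := by
  rw [norm_neg, norm_mul, norm_mul, norm_mul, norm_I, norm_real, Real.norm_of_nonneg hκ.le]
  simp

theorem jd_BJ_Th_deriv (D : ℕ) (κ : ℝ) (w p : ℂ) :
    HasDerivAt (jd_BJ_Th D κ w)
      (D * (-(2 * κ * I)) * (jd_BJ_E κ p / (1 + -(2 * κ * I * w)) - 1)) p := by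
  have h1 : HasDerivAt (fun p : ℂ => -(2 * κ * I * p)) (-(2 * κ * I)) p := by
    have h2 := ((hasDerivAt_id p).const_mul (2 * κ * I)).neg
    refine h2.congr_deriv ?_
    simp
  have h3 : HasDerivAt (fun p : ℂ => jd_BJ_E κ p) (jd_BJ_E κ p * (-(2 * κ * I))) p := h1.cexp
  have h4 : HasDerivAt (fun p : ℂ => 2 * κ * I * p) (2 * κ * I) p := by
    have h2 := ((hasDerivAt_id p).const_mul (2 * κ * I))
    refine h2.congr_deriv ?_
    simp
  have h5 := (((h3.div_const (1 + -(2 * κ * I * w))).sub_const 1).add h4).const_mul (D : ℂ)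
  refine h5.congr_deriv ?_
  ring

theorem jd_BJ_Th_lin {D : ℕ} {κ β ε N Y : ℝ} (h : jd_BJ_S D κ β ε N Y) {w p : ℂ}
    (hw : ‖w‖ ≤ 5 / 8) (hp : ‖p‖ ≤ Y / 2 + 1) :
    ‖D * (-(2 * κ * I)) * (jd_BJ_E κ p / (1 + -(2 * κ * I * w)) - 1) + N / β * (p - w)‖ ≤
      N * ε / 500 := by
  obtain ⟨k1, k2, k3, k4⟩ := jd_BJ_small h
  have hκ := h.κ0
  have hε1 := h.ε1
  have hY := h.Y0
  have e1 : 2 * κ * ‖p‖ ≤ 1 := by
    have : κ * ‖p‖ ≤ κ * (Y / 2 + 1) := mul_le_mul_of_nonneg_left hp hκ.le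
    nlinarith
  have e2 : 2 * κ * ‖w‖ ≤ 1 / 4 := by
    have : κ * ‖w‖ ≤ κ * (5 / 8) := mul_le_mul_of_nonneg_left hw hκ.le
    nlinarith
  have h1 := jd_BJ_e1 (s := -(2 * κ * I * p)) (z := -(2 * κ * I * w))
    (by rw [jd_BJ_ns κ hκ]; exact e1) (by rw [jd_BJ_ns κ hκ]; exact e2)
  have e3 : -(2 * κ * I * p) - -(2 * κ * I * w) = -(2 * κ * I * (p - w)) := by ring
  rw [e3, jd_BJ_ns κ hκ, jd_BJ_ns κ hκ, jd_BJ_ns κ hκ] at h1
  have hβ : (β : ℂ) ≠ 0 := by
    have := h.β1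
    exact_mod_cast (by linarith : β ≠ 0)
  have e4 : (D : ℂ) * (-(2 * κ * I)) * (jd_BJ_E κ p / (1 + -(2 * κ * I * w)) - 1) +
      N / β * (p - w) = D * (-(2 * κ * I)) *
      (cexp (-(2 * κ * I * p)) / (1 + -(2 * κ * I * w)) - 1 - -(2 * κ * I * (p - w))) := by
    have e5 : (N : ℂ) / β = 4 * κ ^ 2 * D := by
      rw [← h.βN]
      push_cast
      field_simp
    rw [e5]
    have : (I : ℂ) ^ 2 = -1 := I_sq
    unfold jd_BJ_E
    linear_combination (4 * (κ : ℂ) ^ 2 * D * (p - w)) * this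
  rw [e4, norm_mul, norm_mul]
  have e6 : ‖(-(2 * κ * I) : ℂ)‖ = 2 * κ := by
    have := jd_BJ_ns κ hκ 1
    rwa [mul_one, norm_one, mul_one] at this
  rw [e6, norm_natCast]
  have e7 : ‖p - w‖ ≤ Y / 2 + 2 := (norm_sub_le _ _).trans (by linarith)
  have e8 : 2 * (2 * κ * ‖p‖) ^ 2 + 2 * (2 * κ * ‖w‖) * (2 * κ * ‖p - w‖) ≤
      8 * κ ^ 2 * (13 / 50 * Y ^ 2) := by
    have f1 : ‖p‖ ^ 2 ≤ (Y / 2 + 1) ^ 2 := pow_le_pow_left₀ (norm_nonneg _) hp 2
    have f2 : ‖w‖ * ‖p - w‖ ≤ 5 / 8 * (Y / 2 + 2) :=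
      mul_le_mul hw e7 (norm_nonneg _) (by norm_num)
    have f3 : ‖p‖ ^ 2 + ‖w‖ * ‖p - w‖ ≤ 13 / 50 * Y ^ 2 := by nlinarith
    have f4 : 2 * (2 * κ * ‖p‖) ^ 2 + 2 * (2 * κ * ‖w‖) * (2 * κ * ‖p - w‖) =
      8 * κ ^ 2 * (‖p‖ ^ 2 + ‖w‖ * ‖p - w‖) := by ring
    rw [f4]
    exact mul_le_mul_of_nonneg_left f3 (by positivity)
  calc (D : ℝ) * (2 * κ) * ‖cexp (-(2 * κ * I * p)) / (1 + -(2 * κ * I * w)) - 1 -
      -(2 * κ * I * (p - w))‖ ≤ (D : ℝ) * (2 * κ) * (8 * κ ^ 2 * (13 / 50 * Y ^ 2)) :=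
        mul_le_mul_of_nonneg_left (h1.trans e8) (by positivity)
    _ = (4 * κ ^ 2 * D) * (52 / 50 * (κ * Y ^ 2)) := by ring
    _ ≤ N * (52 / 50 * (ε / 1000)) := by
      refine mul_le_mul k3 ?_ (by positivity) h.N0.le
      have := h.κY
      linarith
    _ ≤ N * ε / 500 := by
      have := mul_pos h.N0 h.ε0
      linarith

theorem jd_BJ_Th_base {D : ℕ} {κ β ε N Y : ℝ} (h : jd_BJ_S D κ β ε N Y) {w : ℂ}
    (hw : ‖w‖ ≤ 5 / 8) :
    ‖jd_BJ_Th D κ w w + D * log (1 + -(2 * κ * I * w))‖ ≤ N * ε / 500 := by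
  obtain ⟨k1, k2, k3, k4⟩ := jd_BJ_small h
  have hκ := h.κ0
  have hε1 := h.ε1
  have hY := h.Y0
  have e2 : 2 * κ * ‖w‖ ≤ 1 / 4 := by
    have : κ * ‖w‖ ≤ κ * (5 / 8) := mul_le_mul_of_nonneg_left hw hκ.le
    nlinarith
  have h1 := jd_BJ_e2 (s := -(2 * κ * I * w)) (by rw [jd_BJ_ns κ hκ]; exact e2)
  rw [jd_BJ_ns κ hκ] at h1
  have e4 : jd_BJ_Th D κ w w + D * log (1 + -(2 * κ * I * w)) = D *
      (cexp (-(2 * κ * I * w)) / (1 + -(2 * κ * I * w)) - 1 + log (1 + -(2 * κ * I * w)) -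
        -(2 * κ * I * w)) := by
    unfold jd_BJ_Th jd_BJ_E
    ring
  rw [e4, norm_mul, norm_natCast]
  have f1 : ‖w‖ ^ 3 ≤ 1 := by
    have := pow_le_pow_left₀ (norm_nonneg _) (hw.trans (by norm_num : (5 : ℝ) / 8 ≤ 1)) 3
    simpa using this
  calc (D : ℝ) * ‖cexp (-(2 * κ * I * w)) / (1 + -(2 * κ * I * w)) - 1 +
      log (1 + -(2 * κ * I * w)) - -(2 * κ * I * w)‖ ≤ D * (2 * (2 * κ * ‖w‖) ^ 3) :=
        mul_le_mul_of_nonneg_left h1 (by positivity)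
    _ = (4 * κ ^ 2 * D) * (4 * κ * ‖w‖ ^ 3) := by ring
    _ ≤ N * (4 * κ * 1) := by
      refine mul_le_mul k3 ?_ (by positivity) h.N0.le
      exact mul_le_mul_of_nonneg_left f1 (by positivity)
    _ ≤ N * ε / 500 := by
      have : 4 * κ ≤ ε / 500 := by linarith [h.ε0]
      have := mul_le_mul_of_nonneg_left this h.N0.le
      linarith

theorem jd_BJ_Th_near {D : ℕ} {κ β ε N Y : ℝ} (h : jd_BJ_S D κ β ε N Y) {w p : ℂ}
    (hw : ‖w‖ ≤ 5 / 8) (hp : ‖p‖ ≤ Y / 2 + 1) :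
    ‖jd_BJ_Th D κ w p + D * log (1 + -(2 * κ * I * w)) + N / (2 * β) * (p - w) ^ 2‖ ≤
      N * ε / 500 * (1 + ‖p - w‖) := by
  have hY := h.Y0
  have hd : ∀ u ∈ Metric.closedBall (0 : ℂ) (Y / 2 + 1), HasDerivWithinAt
      (fun u => jd_BJ_Th D κ w u + N / (2 * β) * (u - w) ^ 2)
      (D * (-(2 * κ * I)) * (jd_BJ_E κ u / (1 + -(2 * κ * I * w)) - 1) + N / β * (u - w))
      (Metric.closedBall (0 : ℂ) (Y / 2 + 1)) u := by
    intro u _
    have h1 := jd_BJ_Th_deriv D κ w u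
    have h2 : HasDerivAt (fun u : ℂ => (N : ℂ) / (2 * β) * (u - w) ^ 2) (N / β * (u - w)) u := by
      have h3 := (((hasDerivAt_id u).sub_const w).pow 2).const_mul ((N : ℂ) / (2 * β))
      refine h3.congr_deriv ?_
      have hβ : (β : ℂ) ≠ 0 := by
        have := h.β1
        exact_mod_cast (by linarith : β ≠ 0)
      simp only [id_eq, Nat.cast_ofNat, Nat.add_one_sub_one, pow_one, mul_one]
      field_simp
    exact (h1.add h2).hasDerivWithinAt
  have hb : ∀ u ∈ Metric.closedBall (0 : ℂ) (Y / 2 + 1),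
      ‖D * (-(2 * κ * I)) * (jd_BJ_E κ u / (1 + -(2 * κ * I * w)) - 1) + N / β * (u - w)‖ ≤
        N * ε / 500 := by
    intro u hu
    exact jd_BJ_Th_lin h hw (by simpa using hu)
  have h1 := (convex_closedBall (0 : ℂ) (Y / 2 + 1)).norm_image_sub_le_of_norm_hasDerivWithin_le
    hd hb (x := w) (y := p) (by simpa using (by linarith : ‖w‖ ≤ Y / 2 + 1)) (by simpa using hp)
  have h2 := jd_BJ_Th_base h hw
  have e : jd_BJ_Th D κ w p + D * log (1 + -(2 * κ * I * w)) + N / (2 * β) * (p - w) ^ 2 =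
      (jd_BJ_Th D κ w p + N / (2 * β) * (p - w) ^ 2 -
        (jd_BJ_Th D κ w w + N / (2 * β) * (w - w) ^ 2)) +
      (jd_BJ_Th D κ w w + D * log (1 + -(2 * κ * I * w))) := by
    rw [sub_self w]
    ring
  rw [e]
  refine (norm_add_le _ _).trans ?_
  linarith

theorem jd_BJ_norm_T {D : ℕ} {κ β ε N Y : ℝ} (h : jd_BJ_S D κ β ε N Y) {w : ℂ} (p : ℂ)
    (hw : ‖w‖ ≤ 5 / 8) :
    ‖jd_BJ_T D κ w p‖ = Real.exp ((jd_BJ_Th D κ w p + D * log (1 + -(2 * κ * I * w))).re) := by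
  obtain ⟨k1, k2, k3, k4⟩ := jd_BJ_small h
  have hκ := h.κ0
  have hε1 := h.ε1
  have e2 : 2 * κ * ‖w‖ ≤ 1 / 4 := by
    have : κ * ‖w‖ ≤ κ * (5 / 8) := mul_le_mul_of_nonneg_left hw hκ.le
    nlinarith
  have h1 := (jd_BJ_inv (s := -(2 * κ * I * w)) (by rw [jd_BJ_ns κ hκ]; exact e2)).1
  rw [← norm_exp, exp_add, exp_nat_mul, exp_log h1]
  rfl

theorem jd_BJ_T_near {D : ℕ} {κ β ε N Y : ℝ} (h : jd_BJ_S D κ β ε N Y) {w p : ℂ}
    (hw : ‖w‖ ≤ 5 / 8) (hp : ‖p‖ ≤ Y / 2 + 1) :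
    ‖jd_BJ_T D κ w p‖ ≤ Real.exp (-(N / (2 * β) * ((p - w).re ^ 2 - (p - w).im ^ 2)) +
      N * ε / 500 * (1 + ‖p - w‖)) ∧
    Real.exp (-(N / (2 * β) * ((p - w).re ^ 2 - (p - w).im ^ 2)) -
      N * ε / 500 * (1 + ‖p - w‖)) ≤ ‖jd_BJ_T D κ w p‖ := by
  have h1 := jd_BJ_Th_near h hw hp
  have h2 := (abs_re_le_norm _).trans h1
  have e : (jd_BJ_Th D κ w p + D * log (1 + -(2 * κ * I * w)) + N / (2 * β) * (p - w) ^ 2).re =
      (jd_BJ_Th D κ w p + D * log (1 + -(2 * κ * I * w))).re +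
        N / (2 * β) * ((p - w).re ^ 2 - (p - w).im ^ 2) := by
    rw [add_re]
    congr 1
    have e1 : ((N : ℂ) / (2 * β) * (p - w) ^ 2) = ((N / (2 * β) : ℝ) : ℂ) * (p - w) ^ 2 := by
      push_cast
      ring
    rw [e1, re_ofReal_mul, sq, mul_re]
    ring
  rw [e, abs_le] at h2
  rw [jd_BJ_norm_T h p hw]
  constructor <;> refine Real.exp_le_exp.2 ?_ <;> linarith [h2.1, h2.2]

/-! ### the change of coordinate -/

theorem jd_BJ_P_sub {D : ℕ} {κ β ε N Y : ℝ} (h : jd_BJ_S D κ β ε N Y) {p : ℂ}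
    (hp : ‖p‖ ≤ Y / 2 + 1) : ‖jd_BJ_P κ p - p‖ ≤ ε / 1000 ∧ ‖jd_BJ_E κ p - 1‖ ≤ ε / 1000 := by
  obtain ⟨k1, k2, k3, k4⟩ := jd_BJ_small h
  have hκ := h.κ0
  have hε1 := h.ε1
  have hY := h.Y0
  have hε := h.ε0
  have e0 : κ * ‖p‖ ≤ κ * (Y / 2 + 1) := mul_le_mul_of_nonneg_left hp hκ.le
  have e1 : 2 * κ * ‖p‖ ≤ 1 := by nlinarith
  have h1 := norm_exp_sub_one_sub_id_le (x := -(2 * κ * I * p))
    (by rw [jd_BJ_ns κ hκ]; exact e1)
  have h2 := norm_exp_sub_one_le (x := -(2 * κ * I * p)) (by rw [jd_BJ_ns κ hκ]; exact e1)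
  rw [jd_BJ_ns κ hκ] at h1 h2
  constructor
  · have hκc : (κ : ℂ) ≠ 0 := by exact_mod_cast hκ.ne'
    have e2 : jd_BJ_P κ p - p = -((cexp (-(2 * κ * I * p)) - 1 - -(2 * κ * I * p)) /
        (2 * κ * I)) := by
      unfold jd_BJ_P jd_BJ_E
      field_simp
      ring
    have e6 : ‖(2 * κ * I : ℂ)‖ = 2 * κ := by
      have := jd_BJ_ns κ hκ 1
      rwa [mul_one, norm_one, mul_one, norm_neg] at this
    rw [e2, norm_neg, norm_div, e6, div_le_iff₀ (by positivity)]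
    refine h1.trans ?_
    have f1 : ‖p‖ ^ 2 ≤ (Y / 2 + 1) ^ 2 := pow_le_pow_left₀ (norm_nonneg _) hp 2
    have f2 : ‖p‖ ^ 2 ≤ 1 / 2 * Y ^ 2 := by nlinarith
    have f3 : κ * ‖p‖ ^ 2 ≤ κ * (1 / 2 * Y ^ 2) := mul_le_mul_of_nonneg_left f2 hκ.le
    have f4 : κ * ‖p‖ ^ 2 ≤ ε / 2000 := by
      have := h.κY
      linarith
    calc (2 * κ * ‖p‖) ^ 2 = 4 * κ * (κ * ‖p‖ ^ 2) := by ring
      _ ≤ 4 * κ * (ε / 2000) := mul_le_mul_of_nonneg_left f4 (by positivity)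
      _ = ε / 1000 * (2 * κ) := by ring
  · refine h2.trans ?_
    nlinarith

theorem jd_BJ_E_P (κ : ℝ) (hκ : 0 < κ) (p : ℂ) : jd_BJ_E κ p = 1 - 2 * κ * I * jd_BJ_P κ p := by
  have hκc : (κ : ℂ) ≠ 0 := by exact_mod_cast hκ.ne'
  unfold jd_BJ_P
  field_simp
  ring

theorem jd_BJ_om (x a : ℝ) (hx : 0 < x) (w : ℂ) :
    om x a w = (x : ℂ) ^ 2 * (1 - 2 * ((a / x : ℝ) : ℂ) * I * w) := by
  have hxc : (x : ℂ) ≠ 0 := by exact_mod_cast hx.ne'
  unfold om
  push_cast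
  field_simp

theorem jd_BJ_P_deriv (κ : ℝ) (hκ : 0 < κ) (p : ℂ) :
    HasDerivAt (jd_BJ_P κ) (jd_BJ_E κ p) p := by
  have hκc : (κ : ℂ) ≠ 0 := by exact_mod_cast hκ.ne'
  have h1 : HasDerivAt (fun p : ℂ => -(2 * κ * I * p)) (-(2 * κ * I)) p := by
    have h2 := ((hasDerivAt_id p).const_mul (2 * κ * I)).neg
    refine h2.congr_deriv ?_
    simp
  have h3 : HasDerivAt (fun p : ℂ => jd_BJ_E κ p) (jd_BJ_E κ p * (-(2 * κ * I))) p := h1.cexp
  refine ((h3.const_sub 1).div_const (2 * κ * I)).congr_deriv ?_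
  field_simp

theorem jd_BJ_P_re (κ : ℝ) (hκ : 0 < κ) (p : ℂ) (h0 : 0 ≤ p.re) (h1 : 2 * κ * p.re ≤ Real.pi) :
    0 ≤ (jd_BJ_P κ p).re := by
  have e1 : jd_BJ_E κ p = cexp (((2 * κ * p.im : ℝ) : ℂ) + ((-(2 * κ * p.re) : ℝ) : ℂ) * I) := by
    unfold jd_BJ_E
    congr 1
    apply Complex.ext
    · simp
    · simp
  have e2 : (jd_BJ_P κ p).re = Real.exp (2 * κ * p.im) * Real.sin (2 * κ * p.re) / (2 * κ) := by
    unfold jd_BJ_P
    have e3 : (2 * κ * I : ℂ) = ((2 * κ : ℝ) : ℂ) * I := by push_cast; ring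
    have e4 : ∀ z : ℂ, (z / (((2 * κ : ℝ) : ℂ) * I)).re = z.im / (2 * κ) := by
      intro z
      have : z / (((2 * κ : ℝ) : ℂ) * I) = (z / ((2 * κ : ℝ) : ℂ)) * (-I) := by
        rw [div_mul_eq_div_div, div_I]
        ring
      rw [this, mul_neg, neg_re, mul_I_re, neg_neg, div_ofReal_im]
    have e5 : (((2 * κ * p.im : ℝ) : ℂ) + ((-(2 * κ * p.re) : ℝ) : ℂ) * I).re =
        2 * κ * p.im := by
      rw [add_re, ofReal_re, re_ofReal_mul, I_re, mul_zero, add_zero]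
    have e6 : (((2 * κ * p.im : ℝ) : ℂ) + ((-(2 * κ * p.re) : ℝ) : ℂ) * I).im =
        -(2 * κ * p.re) := by
      rw [add_im, ofReal_im, im_ofReal_mul, I_im, mul_one, zero_add]
    rw [e3, e4, e1, sub_im, one_im, exp_im, e5, e6, Real.sin_neg]
    ring
  rw [e2]
  have h2 := Real.sin_nonneg_of_nonneg_of_le_pi (by positivity : 0 ≤ 2 * κ * p.re) h1
  positivity

/-! ### the function near the axis -/

theorem jd_BJ_om_P {x a : ℝ} (hx : 0 < x) (ha : 0 < a) (p : ℂ) :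
    (x : ℂ) ^ 2 * jd_BJ_E (a / x) p = om x a (jd_BJ_P (a / x) p) := by
  rw [jd_BJ_om x a hx, jd_BJ_E_P (a / x) (div_pos ha hx) p]

theorem jd_BJ_norm_le (p : ℂ) : ‖p‖ ≤ |p.re| + |p.im| := Complex.norm_le_abs_re_add_abs_im p

theorem jd_BJ_near_mem {D : ℕ} {κ β ε N Y : ℝ} (h : jd_BJ_S D κ β ε N Y) {p : ℂ}
    (h0 : 0 ≤ p.re) (h1 : p.re ≤ Y / 2) (h2 : |p.im| ≤ 1) :
    ‖p‖ ≤ Y / 2 + 1 ∧ 0 ≤ (jd_BJ_P κ p).re ∧ (jd_BJ_P κ p).re ≤ Y ∧ |(jd_BJ_P κ p).im| ≤ 24 ∧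
      p.re - ε / 1000 ≤ (jd_BJ_P κ p).re ∧ (jd_BJ_P κ p).re ≤ p.re + ε / 1000 ∧
      ‖jd_BJ_P κ p - β‖ ≤ ‖p‖ + 5 := by
  obtain ⟨k1, k2, k3, k4⟩ := jd_BJ_small h
  have hκ := h.κ0
  have hε1 := h.ε1
  have hY := h.Y0
  have hp : ‖p‖ ≤ Y / 2 + 1 := by
    have := jd_BJ_norm_le p
    rw [abs_of_nonneg h0] at this
    linarith
  obtain ⟨e1, -⟩ := jd_BJ_P_sub h hp
  have e2 := (abs_re_le_norm (jd_BJ_P κ p - p)).trans e1
  have e3 := (abs_im_le_norm (jd_BJ_P κ p - p)).trans e1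
  rw [sub_re, abs_le] at e2
  rw [sub_im, abs_le] at e3
  rw [abs_le] at h2
  have hpi : 2 * κ * p.re ≤ Real.pi := by
    have := Real.pi_gt_three
    have : κ * p.re ≤ κ * (Y / 2) := mul_le_mul_of_nonneg_left h1 hκ.le
    nlinarith
  refine ⟨hp, jd_BJ_P_re κ hκ p h0 hpi, by linarith [e2.2], ?_, by linarith [e2.1],
    by linarith [e2.2], ?_⟩
  · rw [abs_le]
    constructor <;> linarith [e3.1, e3.2, h2.1, h2.2]
  · have e4 : jd_BJ_P κ p - β = (jd_BJ_P κ p - p) + p - β := by ring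
    rw [e4]
    have e5 := norm_sub_le ((jd_BJ_P κ p - p) + p) (β : ℂ)
    have e6 := norm_add_le (jd_BJ_P κ p - p) p
    have e7 : ‖(β : ℂ)‖ = β := by
      rw [norm_real, Real.norm_of_nonneg (by linarith [h.β1])]
    rw [e7] at e5
    linarith [h.β4]

theorem jd_BJ_g_up {D : ℕ} {β ε N Y x a C₁ : ℝ} {g : ℂ → ℂ} (hx : 0 < x) (ha : 0 < a)
    (h : jd_BJ_S D (a / x) β ε N Y) (hg : NearReg C₁ ε N 1 Y x a g) {p : ℂ}
    (h0 : 0 ≤ p.re) (h1 : p.re ≤ Y / 2) (h2 : |p.im| ≤ 1) :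
    ‖g ((x : ℂ) ^ 2 * jd_BJ_E (a / x) p)‖ ≤
      Real.exp (N * (p.re - β) + ε * N * (‖p‖ + 6)) * ‖g (om x a β)‖ := by
  obtain ⟨m1, m2, m3, m4, m5, m6, m7⟩ := jd_BJ_near_mem h h0 h1 h2
  rw [jd_BJ_om_P hx ha]
  have hβ1 := h.β1
  have hβ4 := h.β4
  have hY := h.Y0
  have h3 := hg.lin (β : ℂ) (jd_BJ_P (a / x) p) (by rw [ofReal_re]; linarith)
    (by rw [ofReal_re]; linarith) (by rw [ofReal_im]; norm_num) m2 m3 (by rw [mul_one]; exact m4)
  refine h3.trans (mul_le_mul_of_nonneg_right (Real.exp_le_exp.2 ?_) (norm_nonneg _))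
  rw [ofReal_re]
  have hN := h.N0
  have hε := h.ε0
  have f1 : N * ((jd_BJ_P (a / x) p).re - β) ≤ N * (p.re + ε / 1000 - β) :=
    mul_le_mul_of_nonneg_left (by linarith) hN.le
  have f2 : ε * N * ‖jd_BJ_P (a / x) p - β‖ ≤ ε * N * (‖p‖ + 5) :=
    mul_le_mul_of_nonneg_left m7 (by positivity)
  have f3 : 0 < ε * N := by positivity
  linarith

theorem jd_BJ_g_low {D : ℕ} {β ε N Y x a C₁ : ℝ} {g : ℂ → ℂ} (hx : 0 < x) (ha : 0 < a)
    (h : jd_BJ_S D (a / x) β ε N Y) (hg : NearReg C₁ ε N 1 Y x a g) {p : ℂ}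
    (h0 : 8 / 100 ≤ p.re) (h1 : p.re ≤ Y / 2) (h2 : |p.im| ≤ 1) :
    g ((x : ℂ) ^ 2 * jd_BJ_E (a / x) p) ≠ 0 ∧
    ‖g (om x a β)‖ ≤ Real.exp (N * (β - p.re) + ε * N * (‖p‖ + 6)) *
      ‖g ((x : ℂ) ^ 2 * jd_BJ_E (a / x) p)‖ := by
  obtain ⟨m1, m2, m3, m4, m5, m6, m7⟩ := jd_BJ_near_mem h (by linarith) h1 h2
  rw [jd_BJ_om_P hx ha]
  have hβ1 := h.β1
  have hβ4 := h.β4
  have hY := h.Y0
  have hN := h.N0
  have hε := h.ε0
  have hε1 := h.ε1
  refine ⟨hg.ne _ (by linarith) m3 (by rw [mul_one]; exact m4), ?_⟩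
  have h3 := hg.lin (jd_BJ_P (a / x) p) (β : ℂ) (by linarith) m3 (by rw [mul_one]; exact m4)
    (by rw [ofReal_re]; linarith) (by rw [ofReal_re]; linarith) (by rw [ofReal_im]; norm_num)
  refine h3.trans (mul_le_mul_of_nonneg_right (Real.exp_le_exp.2 ?_) (norm_nonneg _))
  rw [ofReal_re, norm_sub_rev]
  have f1 : N * (β - (jd_BJ_P (a / x) p).re) ≤ N * (β - (p.re - ε / 1000)) :=
    mul_le_mul_of_nonneg_left (by linarith) hN.le
  have f2 : ε * N * ‖jd_BJ_P (a / x) p - β‖ ≤ ε * N * (‖p‖ + 5) :=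
    mul_le_mul_of_nonneg_left m7 (by positivity)
  have f3 : 0 < ε * N := by positivity
  linarith

theorem jd_BJ_g_der {D : ℕ} {β ε N Y x a C₁ : ℝ} {g : ℂ → ℂ} (hx : 0 < x) (ha : 0 < a)
    (h : jd_BJ_S D (a / x) β ε N Y) (hg : NearReg C₁ ε N 1 Y x a g) {p : ℂ}
    (h0 : 8 / 100 ≤ p.re) (h1 : p.re ≤ Y / 2) (h2 : |p.im| ≤ 1) :
    ∃ g' : ℂ, HasDerivAt (fun p => g ((x : ℂ) ^ 2 * jd_BJ_E (a / x) p)) g' p ∧
      ‖g' / g ((x : ℂ) ^ 2 * jd_BJ_E (a / x) p) - N‖ ≤ 11 / 10 * (ε * N) := by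
  obtain ⟨m1, m2, m3, m4, m5, m6, m7⟩ := jd_BJ_near_mem h (by linarith) h1 h2
  have hβ1 := h.β1
  have hβ4 := h.β4
  have hY := h.Y0
  have hN := h.N0
  have hε := h.ε0
  have hε1 := h.ε1
  set u : ℂ := jd_BJ_P (a / x) p with hu
  have hκ : 0 < a / x := div_pos ha hx
  obtain ⟨e1, e2⟩ := jd_BJ_P_sub h m1
  have hu1 : 1 / 16 < u.re := by linarith
  have hu2 : u.re < Y := by linarith
  have hu3 : |u.im| < 24 := by
    have e3 := (abs_im_le_norm (u - p)).trans e1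
    rw [sub_im, abs_le] at e3
    rw [abs_le] at h2
    rw [abs_lt]
    constructor <;> linarith [e3.1, e3.2, h2.1, h2.2]
  have hne : g (om x a u) ≠ 0 := hg.ne _ (by linarith) m3 (by rw [mul_one]; exact m4)
  have hod : Differentiable ℂ (om x a) := by
    unfold om
    fun_prop
  have hd : DifferentiableAt ℂ (fun v => g (om x a v)) u := (hg.diff.comp hod) u
  have hev : ∀ᶠ v in 𝓝 u, ‖g (om x a v)‖ ≤
      Real.exp (N * (v.re - u.re) + ε * N * ‖v - u‖) * ‖g (om x a u)‖ := by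
    have c1 : ∀ᶠ v : ℂ in 𝓝 u, 0 < v.re :=
      (continuous_re.tendsto u).eventually (lt_mem_nhds (by linarith))
    have c2 : ∀ᶠ v : ℂ in 𝓝 u, v.re < Y :=
      (continuous_re.tendsto u).eventually (gt_mem_nhds hu2)
    have c3 : ∀ᶠ v : ℂ in 𝓝 u, |v.im| < 24 :=
      (continuous_im.abs.tendsto u).eventually (gt_mem_nhds hu3)
    filter_upwards [c1, c2, c3] with v v1 v2 v3
    exact hg.lin u v (by linarith) m3 (by rw [mul_one]; exact m4) v1.le v2.le
      (by rw [mul_one]; exact v3.le)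
  have hL := jd_BJ_lip hd hne hev (by positivity)
  refine ⟨deriv (fun v => g (om x a v)) u * jd_BJ_E (a / x) p, ?_, ?_⟩
  · have h5 := (hd.hasDerivAt.comp p (jd_BJ_P_deriv (a / x) hκ p))
    refine h5.congr_of_eventuallyEq (Eventually.of_forall fun v => ?_)
    simp only [Function.comp_apply]
    rw [jd_BJ_om_P hx ha]
  · rw [jd_BJ_om_P hx ha]
    set L : ℂ := deriv (fun v => g (om x a v)) u / g (om x a u) with hLd
    have e4 : deriv (fun v => g (om x a v)) u * jd_BJ_E (a / x) p / g (om x a u) - N =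
        (L - N) * jd_BJ_E (a / x) p + N * (jd_BJ_E (a / x) p - 1) := by
      rw [hLd]
      ring
    rw [← hu, e4]
    have e5 : ‖jd_BJ_E (a / x) p‖ ≤ 1 + ε / 1000 := by
      have := norm_add_le (jd_BJ_E (a / x) p - 1) 1
      rw [sub_add_cancel, norm_one] at this
      linarith
    refine (norm_add_le _ _).trans ?_
    rw [norm_mul, norm_mul, norm_real, Real.norm_of_nonneg hN.le]
    have e6 : ‖L - N‖ * ‖jd_BJ_E (a / x) p‖ ≤ ε * N * (1 + ε / 1000) :=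
      mul_le_mul hL e5 (norm_nonneg _) (by positivity)
    have e7 : N * ‖jd_BJ_E (a / x) p - 1‖ ≤ N * (ε / 1000) :=
      mul_le_mul_of_nonneg_left e2 hN.le
    have e8 : 0 < ε * N := by positivity
    have e9 : ε * N * ε ≤ ε * N * 1 := mul_le_mul_of_nonneg_left hε1 e8.le
    nlinarith

/-- the integrand -/
noncomputable def jd_BJ_F (D : ℕ) (κ x : ℝ) (g : ℂ → ℂ) (w p : ℂ) : ℂ :=
  jd_BJ_T D κ w p * g ((x : ℂ) ^ 2 * jd_BJ_E κ p)

theorem jd_BJ_F_diff {D : ℕ} {κ x : ℝ} {g : ℂ → ℂ} (hg : Differentiable ℂ g) (w : ℂ) :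
    Differentiable ℂ (jd_BJ_F D κ x g w) := by
  unfold jd_BJ_F jd_BJ_T jd_BJ_Th jd_BJ_E
  have h1 : Differentiable ℂ (fun p : ℂ => (x : ℂ) ^ 2 * cexp (-(2 * κ * I * p))) := by fun_prop
  refine Differentiable.mul ?_ (hg.comp h1)
  fun_prop

/-- hypotheses of the kernel lemma -/
theorem jd_BJ_F_KL {D : ℕ} {β ε N Y x a C₁ : ℝ} {g : ℂ → ℂ} (hx : 0 < x) (ha : 0 < a)
    (h : jd_BJ_S D (a / x) β ε N Y) (hg : NearReg C₁ ε N 1 Y x a g) {w p : ℂ}
    (hw : ‖w‖ ≤ 5 / 8)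
    (h0 : 8 / 100 ≤ p.re) (h1 : p.re ≤ Y / 2) (h2 : |p.im| ≤ 1) :
    jd_BJ_F D (a / x) x g w p ≠ 0 ∧
      ‖deriv (jd_BJ_F D (a / x) x g w) p / jd_BJ_F D (a / x) x g w p - N * (1 - (p - w) / β)‖ ≤
        2 * ε * N := by
  obtain ⟨m1, m2, m3, m4, m5, m6, m7⟩ := jd_BJ_near_mem h (by linarith) h1 h2
  obtain ⟨g', hg1, hg2⟩ := jd_BJ_g_der hx ha h hg h0 h1 h2
  obtain ⟨n1, -⟩ := jd_BJ_g_low hx ha h hg h0 h1 h2
  have hN := h.N0
  have hε := h.ε0
  have hT0 : jd_BJ_T D (a / x) w p ≠ 0 := by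
    rw [← norm_pos_iff, jd_BJ_norm_T h p hw]
    exact Real.exp_pos _
  have hTd : HasDerivAt (jd_BJ_T D (a / x) w) (jd_BJ_T D (a / x) w p *
      (D * (-(2 * (a / x : ℝ) * I)) *
        (jd_BJ_E (a / x) p / (1 + -(2 * (a / x : ℝ) * I * w)) - 1))) p := by
    have h3 := (jd_BJ_Th_deriv D (a / x) w p).cexp.mul_const ((1 + -(2 * (a / x : ℝ) * I * w)) ^ D)
    refine h3.congr_deriv ?_
    unfold jd_BJ_T
    ring
  have hF := hTd.mul hg1
  have hF' : deriv (jd_BJ_F D (a / x) x g w) p = _ := hF.deriv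
  refine ⟨mul_ne_zero hT0 n1, ?_⟩
  rw [hF']
  have hlin := jd_BJ_Th_lin h hw m1
  have hβ : (β : ℂ) ≠ 0 := by
    have := h.β1
    exact_mod_cast (by linarith : β ≠ 0)
  set Q : ℂ := g ((x : ℂ) ^ 2 * jd_BJ_E (a / x) p) with hQ
  set T : ℂ := jd_BJ_T D (a / x) w p with hT
  set Z : ℂ := (D * (-(2 * (a / x : ℝ) * I)) *
        (jd_BJ_E (a / x) p / (1 + -(2 * (a / x : ℝ) * I * w)) - 1)) with hZ
  have e1 : (T * Z * Q + T * g') / jd_BJ_F D (a / x) x g w p - N * (1 - (p - w) / β) =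
      (Z + N / β * (p - w)) + (g' / Q - N) := by
    unfold jd_BJ_F
    rw [← hQ, ← hT]
    field_simp
    ring
  rw [e1]
  refine (norm_add_le _ _).trans ?_
  have : 0 < ε * N := by positivity
  linarith

theorem jd_BJ_alg1 (A B G : ℝ) : Real.exp A * (Real.exp B * G) = G * Real.exp (A + B) := by
  rw [Real.exp_add]
  ring

theorem jd_BJ_alg2 (G S R : ℝ) : G * Real.exp S * Real.exp R = G * Real.exp (S + R) := by
  rw [Real.exp_add]
  ring

theorem jd_BJ_F_up {D : ℕ} {β ε N Y x a C₁ : ℝ} {g : ℂ → ℂ} (hx : 0 < x) (ha : 0 < a)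
    (h : jd_BJ_S D (a / x) β ε N Y) (hg : NearReg C₁ ε N 1 Y x a g) {w p : ℂ}
    (hw : ‖w‖ ≤ 5 / 8)
    (h0 : 0 ≤ p.re) (h1 : p.re ≤ Y / 2) (h2 : |p.im| ≤ 1) :
    ‖jd_BJ_F D (a / x) x g w p‖ ≤ ‖g (om x a β)‖ * Real.exp (N * w.re - N * β / 2) *
      Real.exp (-(N / (2 * β) * ((p.re - w.re - β) ^ 2 - (p.im - w.im) ^ 2)) +
        ε * N * (2 * ‖p‖ + 8)) := by
  obtain ⟨m1, m2, m3, m4, m5, m6, m7⟩ := jd_BJ_near_mem h (by linarith) h1 h2
  have f1 := (jd_BJ_T_near h hw m1).1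
  have f2 := jd_BJ_g_up hx ha h hg h0 h1 h2
  have hN := h.N0
  have hε := h.ε0
  have hβ := h.β1
  unfold jd_BJ_F
  rw [norm_mul]
  refine (mul_le_mul f1 f2 (norm_nonneg _) (Real.exp_pos _).le).trans ?_
  rw [jd_BJ_alg1, jd_BJ_alg2]
  refine mul_le_mul_of_nonneg_left (Real.exp_le_exp.2 ?_) (norm_nonneg _)
  rw [sub_re, sub_im]
  have e1 : ‖p - w‖ ≤ ‖p‖ + 1 := (norm_sub_le _ _).trans (by linarith)
  have e2 : N * ε / 500 * (1 + ‖p - w‖) ≤ N * ε / 500 * (1 + (‖p‖ + 1)) :=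
    mul_le_mul_of_nonneg_left (by linarith) (by positivity)
  have e3 : N / (2 * β) * (p.re - w.re - β) ^ 2 =
      N / (2 * β) * (p.re - w.re) ^ 2 - N * (p.re - w.re) + N * β / 2 := by
    field_simp
    ring
  have e4 : 0 ≤ ε * N * ‖p‖ := by positivity
  have e5 : 0 ≤ ε * N := by positivity
  have e6 : -(N / (2 * β) * ((p.re - w.re) ^ 2 - (p.im - w.im) ^ 2)) + N * (p.re - β) =
      N * w.re - N * β / 2 + -(N / (2 * β) * ((p.re - w.re - β) ^ 2 - (p.im - w.im) ^ 2)) := by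
    rw [mul_sub (N / (2 * β)) ((p.re - w.re - β) ^ 2), e3]
    ring
  linarith

theorem jd_BJ_F_low {D : ℕ} {β ε N Y x a C₁ : ℝ} {g : ℂ → ℂ} (hx : 0 < x) (ha : 0 < a)
    (h : jd_BJ_S D (a / x) β ε N Y) (hg : NearReg C₁ ε N 1 Y x a g) {w : ℂ}
    (hw : ‖w‖ ≤ 5 / 8) :
    ‖g (om x a β)‖ * Real.exp (N * w.re - N * β / 2) * Real.exp (-(18 * (ε * N))) ≤
      ‖jd_BJ_F D (a / x) x g w (w + β)‖ ∧
    ‖jd_BJ_F D (a / x) x g w (w + β)‖ ≤
      ‖g (om x a β)‖ * Real.exp (N * w.re - N * β / 2) * Real.exp (18 * (ε * N)) := by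
  have hβ := h.β1
  have hβ4 := h.β4
  have hY := h.Y0
  have hN := h.N0
  have hε := h.ε0
  have w1 := (abs_re_le_norm w).trans hw
  have w2 := (abs_im_le_norm w).trans hw
  rw [abs_le] at w1 w2
  have p1 : (w + β).re = w.re + β := by simp
  have p2 : (w + β).im = w.im := by simp
  have q1 : ‖w + β‖ ≤ 5 := by
    refine (norm_add_le _ _).trans ?_
    rw [norm_real, Real.norm_of_nonneg (by linarith)]
    linarith
  have h0 : 8 / 100 ≤ (w + β).re := by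
    rw [p1]; linarith [w1.1]
  have h1 : (w + β).re ≤ Y / 2 := by
    rw [p1]; linarith [w1.2]
  have h2 : |(w + β).im| ≤ 1 := by
    rw [p2, abs_le]; constructor <;> linarith [w2.1, w2.2]
  have e5 : 0 < ε * N := by positivity
  have e4 : ε * N * ‖w + β‖ ≤ ε * N * 5 := mul_le_mul_of_nonneg_left q1 e5.le
  constructor
  · obtain ⟨m1, m2, m3, m4, m5, m6, m7⟩ := jd_BJ_near_mem h (by linarith) h1 h2
    have f1 := (jd_BJ_T_near h hw m1).2
    have f2 := (jd_BJ_g_low hx ha h hg h0 h1 h2).2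
    rw [add_sub_cancel_left, ofReal_re, ofReal_im, norm_real,
      Real.norm_of_nonneg (by linarith)] at f1
    unfold jd_BJ_F
    rw [norm_mul]
    have f3 : Real.exp (-(N * (β - (w + β).re) + ε * N * (‖w + β‖ + 6))) * ‖g (om x a β)‖ ≤
        ‖g ((x : ℂ) ^ 2 * jd_BJ_E (a / x) (w + β))‖ := by
      rw [Real.exp_neg, inv_mul_le_iff₀ (Real.exp_pos _)]
      exact f2
    refine le_trans ?_ (mul_le_mul f1 f3 (by positivity) (norm_nonneg _))
    rw [jd_BJ_alg1, jd_BJ_alg2]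
    refine mul_le_mul_of_nonneg_left (Real.exp_le_exp.2 ?_) (norm_nonneg _)
    rw [p1]
    have e6 : N / (2 * β) * (β ^ 2 - 0 ^ 2) = N * β / 2 := by
      field_simp
      ring
    rw [e6]
    have e7 : N * ε / 500 * (1 + β) ≤ N * ε / 500 * 5 :=
      mul_le_mul_of_nonneg_left (by linarith) (by positivity)
    linarith
  · have f1 := jd_BJ_F_up hx ha h hg hw (by linarith : 0 ≤ (w + β).re) h1 h2
    refine f1.trans (mul_le_mul_of_nonneg_left (Real.exp_le_exp.2 ?_) (by positivity))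
    rw [p1, p2]
    have e6 : N / (2 * β) * ((w.re + β - w.re - β) ^ 2 - (w.im - w.im) ^ 2) = 0 := by ring
    rw [e6]
    linarith

/-! ### the far part of the path -/

theorem jd_BJ_T_far {D : ℕ} {κ β ε N Y : ℝ} (h : jd_BJ_S D κ β ε N Y) {w : ℂ} {p : ℝ}
    (hw : ‖w‖ ≤ 5 / 8) (h0 : 0 ≤ p) (h1 : 2 * κ * p ≤ Real.pi) :
    ‖jd_BJ_T D κ w p‖ ≤ Real.exp (N * (3 - 3 / 80 * p ^ 2)) := by
  obtain ⟨k1, k2, k3, k4⟩ := jd_BJ_small h
  have hκ := h.κ0
  have hε1 := h.ε1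
  have hN := h.N0
  have e2 : 2 * κ * ‖w‖ ≤ 1 / 4 := by
    have : κ * ‖w‖ ≤ κ * (5 / 8) := mul_le_mul_of_nonneg_left hw hκ.le
    nlinarith
  rw [jd_BJ_norm_T h p hw]
  refine Real.exp_le_exp.2 ?_
  set z : ℂ := -(2 * κ * I * w) with hz
  have hzn : ‖z‖ ≤ 5 / 4 * κ := by
    rw [hz, jd_BJ_ns κ hκ]
    have : κ * ‖w‖ ≤ κ * (5 / 8) := mul_le_mul_of_nonneg_left hw hκ.le
    linarith
  obtain ⟨i1, i2⟩ := jd_BJ_inv (s := z) (by rw [hz, jd_BJ_ns κ hκ]; exact e2)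
  set δ : ℂ := (1 + z)⁻¹ - 1 with hδ
  have hδn : ‖δ‖ ≤ 5 / 3 * κ := by
    have : δ = -(z * (1 + z)⁻¹) := by
      rw [hδ]
      field_simp
      ring
    rw [this, norm_neg, norm_mul]
    calc ‖z‖ * ‖(1 + z)⁻¹‖ ≤ (5 / 4 * κ) * (4 / 3) :=
          mul_le_mul hzn i2 (norm_nonneg _) (by positivity)
      _ = 5 / 3 * κ := by ring
  -- the modulus of `E`
  set ψ : ℝ := 2 * κ * p with hψ
  have hE : jd_BJ_E κ p = cexp (((-ψ : ℝ) : ℂ) * I) := by
    unfold jd_BJ_E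
    congr 1
    rw [hψ]
    push_cast
    ring
  have hEre : (jd_BJ_E κ p).re = Real.cos ψ := by
    rw [hE, exp_ofReal_mul_I_re, Real.cos_neg]
  have hEim : (jd_BJ_E κ p).im = -Real.sin ψ := by
    rw [hE, exp_ofReal_mul_I_im, Real.sin_neg]
  have hE1 : ‖jd_BJ_E κ p - 1‖ ^ 2 = 2 * (1 - Real.cos ψ) := by
    rw [← normSq_eq_norm_sq, normSq_apply, sub_re, sub_im, one_re, one_im, hEre, hEim]
    have := Real.sin_sq_add_cos_sq ψ
    linear_combination this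
  -- the real part
  have e3 : (jd_BJ_Th D κ w p + D * log (1 + z)).re =
      D * ((jd_BJ_E κ p * (1 + z)⁻¹).re - 1 + Real.log ‖1 + z‖) := by
    unfold jd_BJ_Th
    rw [← hz, div_eq_mul_inv, ← mul_add]
    have : ((D : ℂ) * (jd_BJ_E κ p * (1 + z)⁻¹ - 1 + 2 * κ * I * p + log (1 + z))).re =
        D * (jd_BJ_E κ p * (1 + z)⁻¹ - 1 + 2 * κ * I * p + log (1 + z)).re := by
      rw [← ofReal_natCast, re_ofReal_mul]
    rw [this, add_re, add_re, sub_re, one_re, log_re]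
    have e4 : (2 * κ * I * p : ℂ).re = 0 := by
      have : (2 * κ * I * p : ℂ) = ((2 * κ * p : ℝ) : ℂ) * I := by push_cast; ring
      rw [this, re_ofReal_mul, I_re, mul_zero]
    rw [e4, add_zero]
  rw [e3]
  have e5 : (jd_BJ_E κ p * (1 + z)⁻¹).re ≤ Real.cos ψ + δ.re + ‖jd_BJ_E κ p - 1‖ * ‖δ‖ := by
    have : jd_BJ_E κ p * (1 + z)⁻¹ = jd_BJ_E κ p + δ + (jd_BJ_E κ p - 1) * δ := by
      rw [hδ]; ring
    rw [this, add_re, add_re, hEre]
    have h6 := re_le_norm ((jd_BJ_E κ p - 1) * δ)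
    rw [norm_mul] at h6
    linarith
  have e6 : Real.log ‖1 + z‖ ≤ -δ.re + 2 * ‖δ‖ ^ 2 := by
    have f1 : ‖1 + z‖ = ‖1 + δ‖⁻¹ := by
      have : 1 + δ = (1 + z)⁻¹ := by rw [hδ]; ring
      rw [this, norm_inv, inv_inv]
    rw [f1, Real.log_inv]
    have f2 : |δ.re| ≤ ‖δ‖ := abs_re_le_norm δ
    have f3 : ‖δ‖ ≤ 1 / 2 := by linarith
    rw [abs_le] at f2
    have f4 : 1 + δ.re ≤ ‖1 + δ‖ := by
      have := re_le_norm (1 + δ)
      rwa [add_re, one_re] at this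
    have f5 : 0 < 1 + δ.re := by linarith [f2.1]
    have f6 := Real.log_le_log f5 f4
    have f7 := Real.one_sub_inv_le_log_of_pos f5
    have f8 : δ.re - 2 * ‖δ‖ ^ 2 ≤ 1 - (1 + δ.re)⁻¹ := by
      have g1 : δ.re ^ 2 ≤ ‖δ‖ ^ 2 := by
        rw [← sq_abs δ.re]
        exact pow_le_pow_left₀ (abs_nonneg _) (abs_re_le_norm δ) 2
      have g2 : 1 - (1 + δ.re)⁻¹ = δ.re - δ.re ^ 2 * (1 + δ.re)⁻¹ := by
        field_simp
        ring
      have g3 : (1 + δ.re)⁻¹ ≤ 2 := by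
        rw [show (2 : ℝ) = (1 / 2)⁻¹ by norm_num]
        exact inv_anti₀ (by norm_num) (by linarith [f2.1])
      have g4 : δ.re ^ 2 * (1 + δ.re)⁻¹ ≤ ‖δ‖ ^ 2 * 2 :=
        mul_le_mul g1 g3 (inv_nonneg.2 f5.le) (by positivity)
      rw [g2]
      linarith
    linarith
  have e7 : ‖jd_BJ_E κ p - 1‖ * ‖δ‖ ≤ ‖jd_BJ_E κ p - 1‖ ^ 2 / 8 + 2 * ‖δ‖ ^ 2 := by
    nlinarith [sq_nonneg (‖jd_BJ_E κ p - 1‖ - 4 * ‖δ‖)]
  have e8 : Real.cos ψ ≤ 1 - 2 / Real.pi ^ 2 * ψ ^ 2 := by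
    refine Real.cos_le_one_sub_mul_cos_sq ?_
    rw [abs_of_nonneg (by positivity)]
    exact h1
  have e9 : 1 / 5 * ψ ^ 2 ≤ 2 / Real.pi ^ 2 * ψ ^ 2 := by
    refine mul_le_mul_of_nonneg_right ?_ (sq_nonneg _)
    rw [div_le_div_iff₀ (by norm_num) (by positivity)]
    nlinarith [Real.pi_lt_d2, Real.pi_pos]
  have e10 : ‖δ‖ ^ 2 ≤ 25 / 9 * κ ^ 2 := by
    refine (pow_le_pow_left₀ (norm_nonneg _) hδn 2).trans (le_of_eq ?_)
    ring
  have e16 : 0 ≤ κ ^ 2 := sq_nonneg κ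
  have e11 : (jd_BJ_E κ p * (1 + z)⁻¹).re - 1 + Real.log ‖1 + z‖ ≤
      -(3 / 20 * ψ ^ 2) + 12 * κ ^ 2 := by
    linarith
  have e12 : (D : ℝ) * ((jd_BJ_E κ p * (1 + z)⁻¹).re - 1 + Real.log ‖1 + z‖) ≤
      D * (-(3 / 20 * ψ ^ 2) + 12 * κ ^ 2) := mul_le_mul_of_nonneg_left e11 k4.le
  refine e12.trans ?_
  have e13 : (D : ℝ) * (-(3 / 20 * ψ ^ 2) + 12 * κ ^ 2) =
      (4 * κ ^ 2 * D) * (3 - 3 / 20 * p ^ 2) := by
    rw [hψ]; ring
  rw [e13]
  have e14 : N / 4 ≤ 4 * κ ^ 2 * D := by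
    have := h.βN
    have hX : 0 ≤ 4 * κ ^ 2 * (D : ℝ) := by positivity
    nlinarith [h.β4]
  have e15 : (4 * κ ^ 2 * D) * (3 / 20 * p ^ 2) ≥ N / 4 * (3 / 20 * p ^ 2) :=
    mul_le_mul_of_nonneg_right e14 (by positivity)
  linarith

theorem jd_BJ_F_far {D : ℕ} {β ε N Y x a C₁ : ℝ} {g : ℂ → ℂ} (hx : 0 < x) (ha : 0 < a)
    (h : jd_BJ_S D (a / x) β ε N Y) (hg : NearReg C₁ ε N 1 Y x a g) {w : ℂ} {p : ℝ}
    (hw : ‖w‖ ≤ 5 / 8) (h0 : Y / 2 ≤ p) (h1 : 2 * (a / x) * p ≤ Real.pi) (hC : 1 ≤ C₁)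
    (hY : 1000 * C₁ ≤ Y) :
    ‖jd_BJ_F D (a / x) x g w p‖ ≤ ‖g (om x a β)‖ * Real.exp (N * w.re - N * β / 2) *
      Real.exp (-(N * p)) := by
  obtain ⟨k1, k2, k3, k4⟩ := jd_BJ_small h
  have hκ := h.κ0
  have hN := h.N0
  have hβ1 := h.β1
  have hβ4 := h.β4
  have hY0 := h.Y0
  have hp0 : 0 ≤ p := by linarith
  have f1 := jd_BJ_T_far h hw hp0 h1
  have f2 : ‖g ((x : ℂ) ^ 2 * jd_BJ_E (a / x) p)‖ ≤
      Real.exp (C₁ * N * (4 * p)) * ‖g (om x a β)‖ := by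
    have hEn : ‖jd_BJ_E (a / x) p‖ = 1 := by
      have : jd_BJ_E (a / x) p = cexp (((-(2 * (a / x) * p) : ℝ) : ℂ) * I) := by
        unfold jd_BJ_E
        congr 1
        push_cast
        ring
      rw [this, norm_exp_ofReal_mul_I]
    have hPn : ‖jd_BJ_P (a / x) p‖ ≤ p := by
      unfold jd_BJ_P
      have e6 : ‖(2 * (a / x : ℝ) * I : ℂ)‖ = 2 * (a / x) := by
        have := jd_BJ_ns (a / x) hκ 1
        rwa [mul_one, norm_one, mul_one, norm_neg] at this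
      rw [norm_div, e6, div_le_iff₀ (by positivity), norm_sub_rev]
      have : jd_BJ_E (a / x) p = cexp (I * ((-(2 * (a / x) * p) : ℝ) : ℂ)) := by
        unfold jd_BJ_E
        congr 1
        push_cast
        ring
      rw [this]
      refine (Real.norm_exp_I_mul_ofReal_sub_one_le).trans ?_
      rw [Real.norm_eq_abs, abs_neg, abs_of_nonneg (by positivity)]
      linarith
    have h3 := hg.glob (β : ℂ) (jd_BJ_P (a / x) p) (by rw [ofReal_re]; linarith)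
      (by rw [ofReal_re]; linarith) (by rw [ofReal_im]; norm_num)
      (jd_BJ_P_re (a / x) hκ p (by rw [ofReal_re]; exact hp0) (by rw [ofReal_re]; exact h1))
      (by
        rw [← jd_BJ_om_P hx ha, norm_mul, hEn, norm_pow, norm_real, Real.norm_of_nonneg hx.le]
        nlinarith [sq_nonneg x])
    rw [jd_BJ_om_P hx ha]
    refine h3.trans (mul_le_mul_of_nonneg_right (Real.exp_le_exp.2 ?_) (norm_nonneg _))
    refine mul_le_mul_of_nonneg_left ?_ (by positivity)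
    have h4 := norm_sub_le (jd_BJ_P (a / x) p) (β : ℂ)
    rw [norm_real, Real.norm_of_nonneg (by linarith)] at h4
    linarith
  unfold jd_BJ_F
  rw [norm_mul]
  refine (mul_le_mul f1 f2 (norm_nonneg _) (Real.exp_pos _).le).trans ?_
  rw [jd_BJ_alg1, jd_BJ_alg2]
  refine mul_le_mul_of_nonneg_left (Real.exp_le_exp.2 ?_) (norm_nonneg _)
  have w1 := (abs_re_le_norm w).trans hw
  rw [abs_le] at w1
  have e1 : 500 * C₁ ≤ p := by linarith
  have e2 : p * (500 * C₁) ≤ p * p := mul_le_mul_of_nonneg_left e1 hp0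
  have e3 : p * 1 ≤ p * C₁ := mul_le_mul_of_nonneg_left hC hp0
  have e4 : 3 - 3 / 80 * p ^ 2 + C₁ * (4 * p) ≤ w.re - β / 2 - p := by
    nlinarith
  have e5 := mul_le_mul_of_nonneg_left e4 hN.le
  linarith

/-! ### the integral representation -/

theorem jd_BJ_rep {D : ℕ} {x a : ℝ} (g : ℂ → ℂ) (hx : 0 < x) (ha : 0 < a) (w : ℂ) :
    BJ D g (x ^ 2) (om x a w) = (cD D : ℂ) * ((2 * (a / x) : ℝ) *
      ∫ p in (0 : ℝ)..(Real.pi / (2 * (a / x))), jd_BJ_F D (a / x) x g w p) := by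
  have hκ : 0 < a / x := div_pos ha hx
  have hxc : (x : ℂ) ≠ 0 := by exact_mod_cast hx.ne'
  unfold BJ
  congr 1
  have h1 := intervalIntegral.smul_integral_comp_mul_left (a := 0)
    (b := Real.pi / (2 * (a / x))) (fun ψ : ℝ => cexp (D * (((x ^ 2 : ℝ) : ℂ) *
      cexp (-(ψ * I)) / om x a w - 1)) * (om x a w / ((x ^ 2 : ℝ) : ℂ)) ^ D *
      cexp (D * ψ * I) * g (((x ^ 2 : ℝ) : ℂ) * cexp (-(ψ * I)))) (2 * (a / x))
  rw [mul_zero, mul_div_cancel₀ _ (by positivity : (2 * (a / x)) ≠ 0)] at h1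
  rw [← h1, real_smul]
  congr 1
  refine intervalIntegral.integral_congr fun p _ => ?_
  have e1 : cexp (-(((2 * (a / x) * p : ℝ) : ℂ) * I)) = jd_BJ_E (a / x) p := by
    unfold jd_BJ_E
    congr 1
    push_cast
    ring
  have e2 : om x a w / ((x ^ 2 : ℝ) : ℂ) = 1 + -(2 * (a / x : ℝ) * I * w) := by
    rw [jd_BJ_om x a hx]
    push_cast
    field_simp
    ring
  have e3 : ((x ^ 2 : ℝ) : ℂ) * jd_BJ_E (a / x) p / om x a w =
      jd_BJ_E (a / x) p / (1 + -(2 * (a / x : ℝ) * I * w)) := by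
    rw [jd_BJ_om x a hx]
    push_cast
    rw [mul_div_mul_left _ _ (pow_ne_zero 2 hxc)]
    congr 1
  simp only [e1, e2, e3]
  unfold jd_BJ_F jd_BJ_T jd_BJ_Th
  have e4 : (D : ℂ) * (jd_BJ_E (a / x) p / (1 + -(2 * (a / x : ℝ) * I * w)) - 1 +
      2 * (a / x : ℝ) * I * p) = D * (jd_BJ_E (a / x) p / (1 + -(2 * (a / x : ℝ) * I * w)) - 1) +
      D * ((2 * (a / x) * p : ℝ) : ℂ) * I := by
    push_cast
    ring
  rw [e4, exp_add]
  push_cast
  ring

/-! ### the contour -/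

theorem jd_BJ_far_all {D : ℕ} {β ε N Y x a C₁ : ℝ} {g : ℂ → ℂ} (hx : 0 < x) (ha : 0 < a)
    (h : jd_BJ_S D (a / x) β ε N Y) (hg : NearReg C₁ ε N 1 Y x a g) {w : ℂ} {p : ℝ}
    (hw : ‖w‖ ≤ 5 / 8) (h0 : w.re + 32 ≤ p) (h1 : 2 * (a / x) * p ≤ Real.pi) (hC : 1 ≤ C₁)
    (hY : 1000 * C₁ ≤ Y) (hε : ε ≤ 1 / 10000) (hN2 : 2 ≤ N) :
    ‖jd_BJ_F D (a / x) x g w p‖ ≤ ‖g (om x a β)‖ * Real.exp (N * w.re - N * β / 2) *
      Real.exp (-N) * Real.exp (-p) := by
  have hN := h.N0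
  have hβ1 := h.β1
  have hβ4 := h.β4
  have hε0 := h.ε0
  have w1 := (abs_re_le_norm w).trans hw
  have w2 := (abs_im_le_norm w).trans hw
  rw [abs_le] at w1
  have w3 : w.im ^ 2 ≤ 1 := by
    rw [← sq_abs]
    nlinarith [abs_nonneg w.im]
  have hp31 : 31 ≤ p := by linarith [w1.1]
  have key : ‖jd_BJ_F D (a / x) x g w p‖ ≤ ‖g (om x a β)‖ * Real.exp (N * w.re - N * β / 2) *
      Real.exp (-(N * p)) := by
    by_cases hpY : p ≤ Y / 2
    · refine (jd_BJ_F_up hx ha h hg hw (p := p) (by rw [ofReal_re]; linarith)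
        (by rw [ofReal_re]; exact hpY) (by rw [ofReal_im, abs_zero]; norm_num)).trans ?_
      refine mul_le_mul_of_nonneg_left (Real.exp_le_exp.2 ?_) (by positivity)
      rw [ofReal_re, ofReal_im, norm_real, Real.norm_of_nonneg (by linarith)]
      have e1 : 21 * (p - 5) ≤ (p - w.re - β) ^ 2 := by
        have e2 : p - 5 ≤ p - w.re - β := by linarith [w1.2]
        have e3 : 26 ≤ p - 5 := by linarith
        nlinarith
      have e2 : 21 * (p - 5) - 1 ≤ (p - w.re - β) ^ 2 - (0 - w.im) ^ 2 := by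
        have : (0 - w.im) ^ 2 = w.im ^ 2 := by ring
        rw [this]
        linarith
      have e3 : N / 8 ≤ N / (2 * β) := by
        refine div_le_div_of_nonneg_left hN.le (by linarith) (by linarith)
      have e4 : N / 8 * (21 * (p - 5) - 1) ≤
          N / (2 * β) * ((p - w.re - β) ^ 2 - (0 - w.im) ^ 2) :=
        mul_le_mul e3 e2 (by linarith) (by positivity)
      have e5 : ε * N * (2 * p + 8) ≤ 1 / 10000 * N * (2 * p + 8) :=
        mul_le_mul_of_nonneg_right (mul_le_mul_of_nonneg_right hε hN.le) (by linarith)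
      have e6 : N * 31 ≤ N * p := mul_le_mul_of_nonneg_left hp31 hN.le
      nlinarith
    · exact jd_BJ_F_far hx ha h hg hw (not_le.1 hpY).le h1 hC hY
  refine key.trans ?_
  rw [mul_assoc (‖g (om x a β)‖ * Real.exp (N * w.re - N * β / 2)) (Real.exp (-N)),
    ← Real.exp_add]
  refine mul_le_mul_of_nonneg_left (Real.exp_le_exp.2 ?_) (by positivity)
  nlinarith

theorem jd_BJ_J {D : ℕ} {β ε N Y x a C₁ : ℝ} {g : ℂ → ℂ} (hx : 0 < x) (ha : 0 < a)
    (h : jd_BJ_S D (a / x) β ε N Y) (hg : NearReg C₁ ε N 1 Y x a g) {w : ℂ}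
    (hw : ‖w‖ ≤ 5 / 8) (hC : 1 ≤ C₁)
    (hY : 1000 * C₁ ≤ Y) (hε : ε ≤ 1 / 10000) (hN2 : 2 ≤ N) :
    ‖(∫ p in (0 : ℝ)..(Real.pi / (2 * (a / x))), jd_BJ_F D (a / x) x g w p) -
      ∫ v in (8 / 100 - w.re)..32, jd_BJ_F D (a / x) x g w (w + v)‖ ≤
      4 * (‖g (om x a β)‖ * Real.exp (N * w.re - N * β / 2) * Real.exp (-(N / 200))) := by
  obtain ⟨k1, k2, k3, k4⟩ := jd_BJ_small h
  have hκ := h.κ0
  have hN := h.N0
  have hβ1 := h.β1
  have hβ4 := h.β4
  have hε0 := h.ε0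
  have hY0 := h.Y0
  have w1 := (abs_re_le_norm w).trans hw
  have w2 := (abs_im_le_norm w).trans hw
  rw [abs_le] at w1
  have w3 : w.re ^ 2 + w.im ^ 2 ≤ 25 / 64 := by
    have := normSq_eq_norm_sq w
    rw [normSq_apply] at this
    have h5 : ‖w‖ ^ 2 ≤ (5 / 8) ^ 2 := pow_le_pow_left₀ (norm_nonneg _) hw 2
    nlinarith
  set f : ℂ → ℂ := jd_BJ_F D (a / x) x g w with hf
  set B : ℝ := ‖g (om x a β)‖ * Real.exp (N * w.re - N * β / 2) with hB
  have hB0 : 0 ≤ B := by positivity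
  have hfd : Differentiable ℂ f := jd_BJ_F_diff hg.diff w
  have hfc : Continuous f := hfd.continuous
  set R : ℝ := w.re + 32 with hR
  set M : ℝ := Real.pi / (2 * (a / x)) with hM
  have hRM : R ≤ M := by
    rw [hM, le_div_iff₀ (by positivity)]
    have := Real.pi_gt_three
    nlinarith [w1.2]
  -- the rectangle
  have hrect := integral_boundary_rect_eq_zero_of_differentiableOn f 0 ⟨R, w.im⟩
    hfd.differentiableOn
  simp only [zero_re, zero_im, ofReal_zero, zero_mul, add_zero, zero_add] at hrect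
  have hc1 : ∀ c : ℂ, Continuous fun t : ℝ => f (t + c) := fun c =>
    hfc.comp (by fun_prop)
  have hsplit1 : (∫ p in (0 : ℝ)..M, f p) = (∫ p in (0 : ℝ)..R, f p) + ∫ p in R..M, f p := by
    refine (intervalIntegral.integral_add_adjacent_intervals ?_ ?_).symm <;>
    exact (hfc.comp continuous_ofReal).intervalIntegrable _ _
  have hsplit2 : (∫ p in (0 : ℝ)..R, f (p + w.im * I)) =
      (∫ p in (0 : ℝ)..(8 / 100), f (p + w.im * I)) + ∫ p in (8 / 100)..R, f (p + w.im * I) := by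
    refine (intervalIntegral.integral_add_adjacent_intervals ?_ ?_).symm <;>
    exact (hc1 _).intervalIntegrable _ _
  have hshift : (∫ p in (8 / 100)..R, f (p + w.im * I)) =
      ∫ v in (8 / 100 - w.re)..32, f (w + v) := by
    have h5 := intervalIntegral.integral_comp_add_right (a := 8 / 100 - w.re) (b := 32)
      (fun t : ℝ => f (t + w.im * I)) w.re
    rw [sub_add_cancel, add_comm 32 w.re] at h5
    rw [hR, ← h5]
    refine intervalIntegral.integral_congr fun v _ => ?_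
    congr 1
    apply Complex.ext
    · simp [add_comm]
    · simp
  -- the four small parts
  have b1 : ‖∫ p in (0 : ℝ)..(8 / 100), f (p + w.im * I)‖ ≤ B * Real.exp (-(N / 200)) := by
    have h5 : ∀ t ∈ Set.uIoc (0 : ℝ) (8 / 100), ‖f (t + w.im * I)‖ ≤
        B * Real.exp (-(N / 200)) := by
      intro t ht
      rw [Set.uIoc_of_le (by norm_num)] at ht
      have p1 : ((t : ℂ) + w.im * I).re = t := by simp
      have p2 : ((t : ℂ) + w.im * I).im = w.im := by simp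
      refine (jd_BJ_F_up hx ha h hg hw (p := t + w.im * I) (by rw [p1]; exact ht.1.le)
        (by rw [p1]; linarith [ht.2]) (by rw [p2]; linarith)).trans ?_
      refine mul_le_mul_of_nonneg_left (Real.exp_le_exp.2 ?_) hB0
      have hn : ‖(t : ℂ) + w.im * I‖ ≤ 1 := by
        refine (jd_BJ_norm_le _).trans ?_
        rw [p1, p2, abs_of_pos ht.1]
        linarith [ht.2]
      rw [p1, p2, sub_self]
      have e1 : 87 / 1000 ≤ (t - w.re - β) ^ 2 - 0 ^ 2 := by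
        have e2 : 295 / 1000 ≤ β + w.re - t := by linarith [ht.2, w1.1]
        have e3 : (295 / 1000 : ℝ) ^ 2 ≤ (β + w.re - t) ^ 2 :=
          pow_le_pow_left₀ (by norm_num) e2 2
        have e4 : (t - w.re - β) ^ 2 - 0 ^ 2 = (β + w.re - t) ^ 2 := by ring
        rw [e4]
        refine le_trans ?_ e3
        norm_num
      have e3 : N / 8 ≤ N / (2 * β) :=
        div_le_div_of_nonneg_left hN.le (by linarith) (by linarith)
      have e4 : N / 8 * (87 / 1000) ≤ N / (2 * β) * ((t - w.re - β) ^ 2 - 0 ^ 2) :=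
        mul_le_mul e3 e1 (by norm_num) (by positivity)
      have e5 : ε * N * (2 * ‖(t : ℂ) + w.im * I‖ + 8) ≤ 1 / 10000 * N * 10 :=
        mul_le_mul (mul_le_mul_of_nonneg_right hε hN.le) (by linarith) (by positivity)
          (by positivity)
      linarith
    refine (intervalIntegral.norm_integral_le_of_norm_le_const h5).trans ?_
    have : |(8 / 100 : ℝ) - 0| ≤ 1 := by norm_num [abs_of_pos]
    calc B * Real.exp (-(N / 200)) * |(8 / 100 : ℝ) - 0| ≤ B * Real.exp (-(N / 200)) * 1 :=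
          mul_le_mul_of_nonneg_left this (by positivity)
      _ = _ := mul_one _
  have hIm : |w.im - 0| ≤ 1 := by rw [sub_zero]; linarith
  have hyb : ∀ y ∈ Set.uIoc (0 : ℝ) w.im, |y| ≤ 5 / 8 ∧ (y - w.im) ^ 2 ≤ w.im ^ 2 := by
    intro y hy
    rcases le_total 0 w.im with hi | hi
    · rw [Set.uIoc_of_le hi] at hy
      rw [abs_of_nonneg hi] at w2
      rw [abs_of_pos hy.1]
      refine ⟨by linarith [hy.2], ?_⟩
      rw [← neg_sq (y - w.im), neg_sub]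
      exact pow_le_pow_left₀ (by linarith [hy.2]) (by linarith [hy.1]) 2
    · rw [Set.uIoc_of_ge hi] at hy
      rw [abs_of_nonpos hi] at w2
      rw [abs_of_nonpos hy.2]
      refine ⟨by linarith [hy.1], ?_⟩
      rw [← neg_sq w.im]
      exact pow_le_pow_left₀ (by linarith [hy.1]) (by linarith [hy.2]) 2
  have b2 : ‖∫ y in (0 : ℝ)..w.im, f (R + y * I)‖ ≤ B * Real.exp (-(N / 200)) := by
    have h5 : ∀ y ∈ Set.uIoc (0 : ℝ) w.im, ‖f (R + y * I)‖ ≤
        B * Real.exp (-(N / 200)) := by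
      intro y hy
      obtain ⟨y1, y2⟩ := hyb y hy
      have p1 : ((R : ℂ) + y * I).re = R := by simp
      have p2 : ((R : ℂ) + y * I).im = y := by simp
      refine (jd_BJ_F_up hx ha h hg hw (p := R + y * I) (by rw [p1]; linarith [w1.1])
        (by rw [p1]; linarith [w1.2]) (by rw [p2]; linarith)).trans ?_
      refine mul_le_mul_of_nonneg_left (Real.exp_le_exp.2 ?_) hB0
      have hn : ‖(R : ℂ) + y * I‖ ≤ 34 := by
        refine (jd_BJ_norm_le _).trans ?_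
        rw [p1, p2, abs_of_pos (by linarith [w1.1])]
        linarith [w1.2]
      rw [p1, p2]
      have e1 : 700 ≤ (R - w.re - β) ^ 2 - (y - w.im) ^ 2 := by
        have e2 : 28 ≤ R - w.re - β := by linarith
        have e3 : (28 : ℝ) ^ 2 ≤ (R - w.re - β) ^ 2 := pow_le_pow_left₀ (by norm_num) e2 2
        have e4 := sq_nonneg w.re
        linarith
      have e3 : N / 8 ≤ N / (2 * β) :=
        div_le_div_of_nonneg_left hN.le (by linarith) (by linarith)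
      have e4 : N / 8 * 700 ≤ N / (2 * β) * ((R - w.re - β) ^ 2 - (y - w.im) ^ 2) :=
        mul_le_mul e3 e1 (by norm_num) (by positivity)
      have e5 : ε * N * (2 * ‖(R : ℂ) + y * I‖ + 8) ≤ 1 / 10000 * N * 76 :=
        mul_le_mul (mul_le_mul_of_nonneg_right hε hN.le) (by linarith) (by positivity)
          (by positivity)
      linarith
    refine (intervalIntegral.norm_integral_le_of_norm_le_const h5).trans ?_
    calc B * Real.exp (-(N / 200)) * |w.im - 0| ≤ B * Real.exp (-(N / 200)) * 1 :=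
          mul_le_mul_of_nonneg_left hIm (by positivity)
      _ = _ := mul_one _
  have b3 : ‖∫ y in (0 : ℝ)..w.im, f (y * I)‖ ≤ B * Real.exp (-(N / 200)) := by
    have h5 : ∀ y ∈ Set.uIoc (0 : ℝ) w.im, ‖f (y * I)‖ ≤
        B * Real.exp (-(N / 200)) := by
      intro y hy
      obtain ⟨y1, y2⟩ := hyb y hy
      have p1 : ((y : ℂ) * I).re = 0 := by simp
      have p2 : ((y : ℂ) * I).im = y := by simp
      refine (jd_BJ_F_up hx ha h hg hw (p := y * I) (by rw [p1])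
        (by rw [p1]; linarith) (by rw [p2]; linarith)).trans ?_
      refine mul_le_mul_of_nonneg_left (Real.exp_le_exp.2 ?_) hB0
      have hn : ‖(y : ℂ) * I‖ ≤ 1 := by
        refine (jd_BJ_norm_le _).trans ?_
        rw [p1, p2, abs_zero]
        linarith
      rw [p1, p2]
      have e1 : 7 / 64 ≤ (0 - w.re - β) ^ 2 - (y - w.im) ^ 2 := by
        have e2 : 0 < 1 + w.re := by linarith [w1.1]
        have e3 : (1 + w.re) ^ 2 ≤ (β + w.re) ^ 2 :=
          pow_le_pow_left₀ e2.le (by linarith) 2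
        have e4 : (0 - w.re - β) ^ 2 = (β + w.re) ^ 2 := by ring
        have e5 := sq_nonneg (w.re + 1 / 2)
        have e6 : (w.re + 1 / 2) ^ 2 = w.re ^ 2 + w.re + 1 / 4 := by ring
        have e7 : (1 + w.re) ^ 2 = 1 + 2 * w.re + w.re ^ 2 := by ring
        rw [e4]
        linarith
      have e3 : N / 8 ≤ N / (2 * β) :=
        div_le_div_of_nonneg_left hN.le (by linarith) (by linarith)
      have e4 : N / 8 * (7 / 64) ≤ N / (2 * β) * ((0 - w.re - β) ^ 2 - (y - w.im) ^ 2) :=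
        mul_le_mul e3 e1 (by norm_num) (by positivity)
      have e5 : ε * N * (2 * ‖(y : ℂ) * I‖ + 8) ≤ 1 / 10000 * N * 10 :=
        mul_le_mul (mul_le_mul_of_nonneg_right hε hN.le) (by linarith) (by positivity)
          (by positivity)
      linarith
    refine (intervalIntegral.norm_integral_le_of_norm_le_const h5).trans ?_
    calc B * Real.exp (-(N / 200)) * |w.im - 0| ≤ B * Real.exp (-(N / 200)) * 1 :=
          mul_le_mul_of_nonneg_left hIm (by positivity)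
      _ = _ := mul_one _
  have b4 : ‖∫ p in R..M, f p‖ ≤ B * Real.exp (-(N / 200)) := by
    have h5 : ∀ᵐ t : ℝ, t ∈ Set.Ioc R M → ‖f t‖ ≤ B * Real.exp (-N) * Real.exp (-t) := by
      refine Eventually.of_forall fun t ht => ?_
      refine jd_BJ_far_all hx ha h hg hw ht.1.le ?_ hC hY hε hN2
      have := ht.2
      rw [hM, le_div_iff₀ (by positivity)] at this
      linarith
    have h6 := intervalIntegral.norm_integral_le_of_norm_le hRM h5
      (by apply Continuous.intervalIntegrable; fun_prop)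
    refine h6.trans ?_
    have h7 : ∫ t in R..M, B * Real.exp (-N) * Real.exp (-t) =
        B * Real.exp (-N) * (Real.exp (-R) - Real.exp (-M)) := by
      rw [intervalIntegral.integral_const_mul]
      congr 1
      have := intervalIntegral.integral_eq_sub_of_hasDerivAt (a := R) (b := M)
        (f := fun t : ℝ => -Real.exp (-t)) (f' := fun t => Real.exp (-t)) (fun t _ => by
          have := ((hasDerivAt_id t).neg.exp).neg
          refine this.congr_deriv ?_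
          simp) (by apply Continuous.intervalIntegrable; fun_prop)
      rw [this]
      ring
    rw [h7, mul_assoc]
    refine mul_le_mul_of_nonneg_left ?_ hB0
    have h8 : Real.exp (-R) ≤ 1 := by
      rw [Real.exp_le_one_iff]
      linarith [w1.1]
    have h9 := Real.exp_pos (-M)
    calc Real.exp (-N) * (Real.exp (-R) - Real.exp (-M)) ≤ Real.exp (-N) * 1 :=
          mul_le_mul_of_nonneg_left (by linarith) (Real.exp_pos _).le
      _ = Real.exp (-N) := mul_one _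
      _ ≤ Real.exp (-(N / 200)) := Real.exp_le_exp.2 (by linarith)
  have e : (∫ p in (0 : ℝ)..M, f p) - ∫ v in (8 / 100 - w.re)..32, f (w + v) =
      (∫ p in (0 : ℝ)..(8 / 100), f (p + w.im * I)) - I * (∫ y in (0 : ℝ)..w.im, f (R + y * I)) +
        I * (∫ y in (0 : ℝ)..w.im, f (y * I)) + ∫ p in R..M, f p := by
    rw [hsplit1, ← hshift]
    rw [hsplit2] at hrect
    simp only [smul_eq_mul] at hrect
    linear_combination hrect
  rw [e]
  refine (norm_add_le _ _).trans ?_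
  have c1 := norm_add_le ((∫ p in (0 : ℝ)..(8 / 100), f (p + w.im * I)) -
    I * (∫ y in (0 : ℝ)..w.im, f (R + y * I))) (I * (∫ y in (0 : ℝ)..w.im, f (y * I)))
  have c2 := norm_sub_le (∫ p in (0 : ℝ)..(8 / 100), f (p + w.im * I))
    (I * (∫ y in (0 : ℝ)..w.im, f (R + y * I)))
  rw [norm_mul, norm_I, one_mul] at c1 c2
  linarith

/-! ### conclusion -/

theorem jd_BJ_exp {C N : ℝ} (hC : 1 ≤ C) (hN : 2560000 * C ≤ N) :
    8 * C * √N ≤ Real.exp (N / 400) := by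
  have hN1 : 1 ≤ N := by linarith
  have h1 := Real.quadratic_le_exp_of_nonneg (x := N / 400) (by positivity)
  have h2 : √N ≤ N := by
    rw [Real.sqrt_le_left (by linarith)]
    nlinarith
  have h3 : 8 * C * √N ≤ 8 * C * N := mul_le_mul_of_nonneg_left h2 (by positivity)
  have h4 : 8 * C * N ≤ N ^ 2 / 320000 := by
    have : 2560000 * C * N ≤ N * N := mul_le_mul_of_nonneg_right hN (by linarith)
    linarith
  have h5 : (N / 400) ^ 2 / 2 = N ^ 2 / 320000 := by ring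
  have h6 : 0 ≤ N / 400 := by positivity
  linarith

/-- the final estimate of the logarithm -/
theorem jd_BJ_log {G S K E Z : ℝ} (hG : 0 < G) (hK : 1 ≤ K)
    (h1 : G * Real.exp S * Real.exp (-E) / K ≤ Z) (h2 : Z ≤ K * (G * Real.exp S * Real.exp E)) :
    |Real.log Z - (Real.log G + S)| ≤ Real.log K + E := by
  have hKp : 0 < K := by linarith
  have hZ : 0 < Z := lt_of_lt_of_le (by positivity) h1
  have h3 := Real.log_le_log (by positivity) h1
  have h4 := Real.log_le_log hZ h2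
  rw [Real.log_div (by positivity) hKp.ne', Real.log_mul (by positivity) (by positivity),
    Real.log_mul hG.ne' (by positivity), Real.log_exp, Real.log_exp] at h3
  rw [Real.log_mul hKp.ne' (by positivity), Real.log_mul (by positivity) (by positivity),
    Real.log_mul hG.ne' (by positivity), Real.log_exp, Real.log_exp] at h4
  rw [abs_le]
  constructor <;> linarith

theorem p_BJ (h1 : S_KL) (h2 : S_cD) : S_BJ := by
  intro C₁ hC₁
  obtain ⟨ε₁, N₁, C, hε₁, hN₁, hC, hKL⟩ := h1 4 (by norm_num)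
  obtain ⟨C', hC', hcD⟩ := h2
  refine ⟨2 * C + 19, 1000 * C₁, min (ε₁ / 2) (1 / (10000 * C)), by linarith, by linarith,
    lt_min (by positivity) (by positivity), ?_⟩
  intro ε hε hε'
  have hε2 : 2 * ε ≤ ε₁ := by
    have := hε'.trans (min_le_left _ _)
    linarith
  have hε3 : ε * (10000 * C) ≤ 1 := by
    have := hε'.trans (min_le_right _ _)
    rwa [le_div_iff₀ (by positivity)] at this
  have hε4 : ε ≤ 1 / 10000 := by
    have : ε * 10000 ≤ ε * (10000 * C) := mul_le_mul_of_nonneg_left (by linarith) hε.le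
    linarith
  refine ⟨max N₁ (max (2560000 * C) (Real.log (2 * C * C') / ε)), hN₁.trans (le_max_left _ _), ?_⟩
  intro D N Y x a g hN hY hY0 ha hx hax hD1 hD2 hg
  have hNa : N₁ ≤ N := (le_max_left _ _).trans hN
  have hNb : 2560000 * C ≤ N := (le_max_left _ _).trans ((le_max_right _ _).trans hN)
  have hNc : Real.log (2 * C * C') ≤ ε * N := by
    have := (le_max_right _ _).trans ((le_max_right _ _).trans hN)
    rw [div_le_iff₀ hε] at this
    linarith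
  have hN0 : 0 < N := by linarith
  have hDp : 0 < (D : ℝ) := by
    by_contra hD
    have h9 : (D : ℝ) = 0 := le_antisymm (not_lt.1 hD) (Nat.cast_nonneg _)
    rw [h9] at hD2
    have : 0 < N * x ^ 2 := by positivity
    linarith
  have hD' : 1 ≤ D := by
    have : 0 < D := by exact_mod_cast hDp
    omega
  set β : ℝ := N * x ^ 2 / (4 * D * a ^ 2) with hβd
  have hS : jd_BJ_S D (a / x) β ε N Y := by
    refine ⟨div_pos ha hx, hε, by linarith, hN0, hY, ?_, ?_, ?_, ?_⟩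
    · have : 1000 * (a / x) * Y ^ 2 = 1000 * a * Y ^ 2 / x := by ring
      rw [this, div_le_iff₀ hx]
      exact hax
    · rw [hβd]
      field_simp
    · rw [hβd, le_div_iff₀ (by positivity)]
      linarith
    · rw [hβd, div_le_iff₀ (by positivity)]
      linarith
  have hβ1 := hS.β1
  have hβ4 := hS.β4
  have hκ := hS.κ0
  have hY1 : 1000 * C₁ ≤ Y := by
    have : ε * Y ≤ 1 * Y := mul_le_mul_of_nonneg_right (by linarith) (by linarith)
    linarith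
  have hG0 : 0 < ‖g (om x a β)‖ := by
    rw [norm_pos_iff]
    exact hg.ne _ (by rw [ofReal_re]; linarith) (by rw [ofReal_re]; linarith)
      (by rw [ofReal_im]; norm_num)
  refine ⟨Real.log ‖g (om x a β)‖ - N * β / 2, ?_⟩
  intro w hw
  have hw' : ‖w‖ ≤ 5 / 8 := by
    have := mem_ball_zero_iff.1 hw
    linarith
  have w1 := (abs_re_le_norm w).trans hw'
  have w2 := (abs_im_le_norm w).trans hw'
  rw [abs_le] at w1 w2
  -- the kernel lemma
  have hK := hKL N β (2 * ε) (8 / 100 - w.re) 32 (fun v => jd_BJ_F D (a / x) x g w (w + v))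
    hNa (by linarith) hβ4 (by linarith) hε2 (by linarith [w1.2]) (by linarith [w1.1])
    (by linarith) (by norm_num) (by
      intro v v1 v2 v3
      rw [abs_le] at v3
      have p1 : (w + v).re = w.re + v.re := add_re _ _
      have p2 : (w + v).im = w.im + v.im := add_im _ _
      obtain ⟨q1, q2⟩ := jd_BJ_F_KL hx ha hS hg (w := w) (p := w + v) hw'
        (by rw [p1]; linarith) (by rw [p1]; linarith [w1.2])
        (by rw [p2, abs_le]; constructor <;> linarith [w2.1, w2.2, v3.1, v3.2])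
      have hfd := jd_BJ_F_diff (D := D) (κ := a / x) (x := x) hg.diff w
      refine ⟨(hfd.comp (by fun_prop : Differentiable ℂ fun v => w + v)) v, q1, ?_⟩
      rw [deriv_comp_const_add]
      rw [add_sub_cancel_left] at q2
      refine q2.trans ?_
      have h5 : 0 ≤ ‖v‖ / β := by positivity
      have h6 : 0 ≤ 2 * ε * N := by positivity
      nlinarith)
  obtain ⟨hK1, hK2⟩ := hK
  obtain ⟨F1, F2⟩ := jd_BJ_F_low hx ha hS hg hw'
  have hJ := jd_BJ_J hx ha hS hg hw' hC₁ hY1 hε4 (by linarith)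
  set J : ℂ := ∫ p in (0 : ℝ)..(Real.pi / (2 * (a / x))), jd_BJ_F D (a / x) x g w p with hJd
  set Im : ℂ := ∫ v in (8 / 100 - w.re)..32, jd_BJ_F D (a / x) x g w (w + v) with hImd
  set B : ℝ := ‖g (om x a β)‖ * Real.exp (N * w.re - N * β / 2) with hB
  have hB0 : 0 < B := by positivity
  set sB : ℝ := √(β / N) with hsB
  have hsB0 : 0 < sB := Real.sqrt_pos.2 (by positivity)
  set E : ℝ := (2 * C + 18) * (ε * N) with hE
  -- the main part
  have I1 : sB / C * (B * Real.exp (-E)) ≤ ‖Im‖ := by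
    refine le_trans ?_ hK1
    have h5 : sB / C * Real.exp (-(C * (2 * ε) * N)) * (B * Real.exp (-(18 * (ε * N)))) ≤
        sB / C * Real.exp (-(C * (2 * ε) * N)) * ‖jd_BJ_F D (a / x) x g w (w + β)‖ :=
      mul_le_mul_of_nonneg_left F1 (by positivity)
    refine le_trans (le_of_eq ?_) h5
    have h6 : Real.exp (-E) =
        Real.exp (-(C * (2 * ε) * N)) * Real.exp (-(18 * (ε * N))) := by
      rw [← Real.exp_add, hE]
      ring_nf
    rw [h6]
    ring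
  have I2 : ‖Im‖ ≤ C * sB * (B * Real.exp E) := by
    have h4 : ‖Im‖ ≤ ∫ v in (8 / 100 - w.re)..32, ‖jd_BJ_F D (a / x) x g w (w + v)‖ :=
      intervalIntegral.norm_integral_le_integral_norm (by linarith [w1.1])
    refine h4.trans (hK2.trans ?_)
    have h5 : C * sB * Real.exp (C * (2 * ε) * N) * ‖jd_BJ_F D (a / x) x g w (w + β)‖ ≤
        C * sB * Real.exp (C * (2 * ε) * N) * (B * Real.exp (18 * (ε * N))) :=
      mul_le_mul_of_nonneg_left F2 (by positivity)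
    refine h5.trans (le_of_eq ?_)
    have h6 : Real.exp E = Real.exp (C * (2 * ε) * N) * Real.exp (18 * (ε * N)) := by
      rw [← Real.exp_add, hE]
      ring_nf
    rw [h6]
    ring
  -- the small part
  have hsm : 4 * (B * Real.exp (-(N / 200))) ≤ sB / (2 * C) * (B * Real.exp (-E)) := by
    have h5 := jd_BJ_exp hC hNb
    have h6 : E ≤ N / 400 := by
      have : (2 * C + 18) * ε ≤ 1 / 400 := by nlinarith
      calc E = (2 * C + 18) * ε * N := by rw [hE]; ring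
        _ ≤ 1 / 400 * N := mul_le_mul_of_nonneg_right this hN0.le
        _ = N / 400 := by ring
    have h7 : Real.exp (-(N / 400)) ≤ Real.exp (-E) := Real.exp_le_exp.2 (by linarith)
    have h8 : 1 / √N ≤ sB := by
      rw [hsB, ← Real.sqrt_one, ← Real.sqrt_div zero_le_one]
      exact Real.sqrt_le_sqrt (div_le_div_of_nonneg_right hβ1 hN0.le)
    have hsN : 0 < √N := Real.sqrt_pos.2 hN0
    have h9 : 4 * Real.exp (-(N / 200)) ≤ 1 / √N / (2 * C) * Real.exp (-(N / 400)) := by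
      have e1 : Real.exp (-(N / 200)) = Real.exp (-(N / 400)) * Real.exp (-(N / 400)) := by
        rw [← Real.exp_add]
        ring_nf
      have e2 : 4 * Real.exp (-(N / 400)) ≤ 1 / √N / (2 * C) := by
        rw [Real.exp_neg, div_div, le_div_iff₀ (by positivity)]
        have e3 : 4 * (Real.exp (N / 400))⁻¹ * (√N * (2 * C)) =
            (8 * C * √N) / Real.exp (N / 400) := by
          field_simp
          ring
        rw [e3, div_le_one (Real.exp_pos _)]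
        exact h5
      rw [e1]
      calc 4 * (Real.exp (-(N / 400)) * Real.exp (-(N / 400))) =
          (4 * Real.exp (-(N / 400))) * Real.exp (-(N / 400)) := by ring
        _ ≤ _ := mul_le_mul_of_nonneg_right e2 (Real.exp_pos _).le
    calc 4 * (B * Real.exp (-(N / 200))) = B * (4 * Real.exp (-(N / 200))) := by ring
      _ ≤ B * (1 / √N / (2 * C) * Real.exp (-(N / 400))) :=
        mul_le_mul_of_nonneg_left h9 hB0.le
      _ ≤ B * (sB / (2 * C) * Real.exp (-E)) := by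
        refine mul_le_mul_of_nonneg_left ?_ hB0.le
        refine mul_le_mul ?_ h7 (Real.exp_pos _).le (by positivity)
        exact div_le_div_of_nonneg_right h8 (by positivity)
      _ = _ := by ring
  have hJ' := hJ.trans hsm
  have J1 : sB / (2 * C) * (B * Real.exp (-E)) ≤ ‖J‖ := by
    have h5 := norm_sub_norm_le Im (Im - J)
    rw [sub_sub_cancel, norm_sub_rev Im J] at h5
    have h6 : sB / C * (B * Real.exp (-E)) = 2 * (sB / (2 * C) * (B * Real.exp (-E))) := by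
      field_simp
    linarith
  have J2 : ‖J‖ ≤ 2 * C * sB * (B * Real.exp E) := by
    have h5 := norm_add_le (J - Im) Im
    rw [sub_add_cancel] at h5
    have h6 : sB / (2 * C) * (B * Real.exp (-E)) ≤ C * sB * (B * Real.exp E) := by
      have e1 : Real.exp (-E) ≤ Real.exp E := Real.exp_le_exp.2 (by
        have : 0 ≤ E := by positivity
        linarith)
      have e2 : sB / (2 * C) ≤ C * sB := by
        rw [div_le_iff₀ (by positivity)]
        have e3 : 1 ≤ C * (2 * C) := by nlinarith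
        have e4 : sB * 1 ≤ sB * (C * (2 * C)) := mul_le_mul_of_nonneg_left e3 hsB0.le
        linarith
      refine mul_le_mul e2 (mul_le_mul_of_nonneg_left e1 hB0.le) (by positivity) (by positivity)
    linarith
  -- the constants
  have hrep := jd_BJ_rep (D := D) g hx ha w
  have hsq : 2 * (a / x) * √D * sB = 1 := by
    have e1 : √((2 * (a / x)) ^ 2 * D * (β / N)) = 2 * (a / x) * √D * sB := by
      rw [Real.sqrt_mul (by positivity), Real.sqrt_mul (by positivity),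
        Real.sqrt_sq (by positivity)]
    rw [← e1]
    have e2 : (2 * (a / x)) ^ 2 * D * (β / N) = (4 * (a / x) ^ 2 * D * β) / N := by ring
    rw [e2, hS.βN, div_self hN0.ne', Real.sqrt_one]
  obtain ⟨c1, c2⟩ := hcD D hD'
  have hsD : 0 < √(D : ℝ) := Real.sqrt_pos.2 hDp
  have hcpos : 0 < cD D := lt_of_lt_of_le (by positivity) c1
  have hnorm : ‖BJ D g (x ^ 2) (om x a w)‖ = cD D * (2 * (a / x) * ‖J‖) := by
    rw [hrep, norm_mul, norm_mul, norm_real, norm_real, Real.norm_of_nonneg hcpos.le,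
      Real.norm_of_nonneg (by positivity)]
  have L1 : B * Real.exp (-E) / (2 * C * C') ≤ ‖BJ D g (x ^ 2) (om x a w)‖ := by
    rw [hnorm]
    have h5 : √(D : ℝ) / C' * (2 * (a / x) * (sB / (2 * C) * (B * Real.exp (-E)))) ≤
        cD D * (2 * (a / x) * ‖J‖) :=
      mul_le_mul c1 (mul_le_mul_of_nonneg_left J1 (by positivity)) (by positivity) hcpos.le
    refine le_trans (le_of_eq ?_) h5
    have h6 : √(D : ℝ) / C' * (2 * (a / x) * (sB / (2 * C) * (B * Real.exp (-E)))) =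
        (2 * (a / x) * √D * sB) * (B * Real.exp (-E) / (2 * C * C')) := by
      ring
    rw [h6, hsq, one_mul]
  have L2 : ‖BJ D g (x ^ 2) (om x a w)‖ ≤ 2 * C * C' * (B * Real.exp E) := by
    rw [hnorm]
    have h5 : cD D * (2 * (a / x) * ‖J‖) ≤
        C' * √D * (2 * (a / x) * (2 * C * sB * (B * Real.exp E))) :=
      mul_le_mul c2 (mul_le_mul_of_nonneg_left J2 (by positivity)) (by positivity) (by positivity)
    refine h5.trans (le_of_eq ?_)
    have h6 : C' * √D * (2 * (a / x) * (2 * C * sB * (B * Real.exp E))) =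
        (2 * (a / x) * √D * sB) * (2 * C * C' * (B * Real.exp E)) := by
      ring
    rw [h6, hsq, one_mul]
  have hCC : 1 ≤ 2 * C * C' := by nlinarith
  have hlog := jd_BJ_log hG0 hCC L1 L2
  refine ⟨?_, ?_⟩
  · rw [← norm_pos_iff]
    exact lt_of_lt_of_le (by positivity) L1
  · have e1 : Real.log ‖BJ D g (x ^ 2) (om x a w)‖ - (Real.log ‖g (om x a β)‖ - N * β / 2) -
        N * w.re = Real.log ‖BJ D g (x ^ 2) (om x a w)‖ -
        (Real.log ‖g (om x a β)‖ + (N * w.re - N * β / 2)) := by ring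
    rw [e1]
    refine hlog.trans ?_
    rw [hE]
    linarith

end Pool.Agent.Lib.MP_cd509c_nt.JD
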