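import Pool.Agent.Lib.MP_cd509c_nt.JD.Defs
import Pool.Agent.Lib.MP_cd509c_nt.DN.P.reg1

/-!
# Derivatives of a log-linear function

With `q k` the logarithmic derivative of the `k`-th derivative one has
`q (k+1) = q k + (q k)' / q k`. On the disc of radius `3/4 - 64 k / N` the functions `q k` stay close
to `N` (an argument of Cauchy-Kovalevskaya type: the derivatives are controlled by the inverse
square root of the distance to the boundary).
-/

set_option autoImplicit false

namespace Pool.Agent.Lib.MP_cd509c_nt.JD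

open Complex ComplexConjugate MeasureTheory Metric
open Pool.Agent.Lib.MP_cd509c_nt.DN

/-- square roots -/
private lemma jd_DB_sqrt {δ δ' h : ℝ} (hδ' : 0 < δ') (hh : 0 < h) (hδ : δ = δ' + h) :
    0 < Real.sqrt δ' ∧ Real.sqrt δ' < Real.sqrt δ ∧
      h / Real.sqrt δ ≤ 2 * (Real.sqrt δ - Real.sqrt δ') ∧
      h / (δ * Real.sqrt δ) ≤ 2 * (1 / Real.sqrt δ' - 1 / Real.sqrt δ) := by
  have hδ0 : 0 < δ := by linarith
  obtain ⟨a, ha⟩ : ∃ a, a = Real.sqrt δ := ⟨_, rfl⟩
  obtain ⟨b, hb⟩ : ∃ b, b = Real.sqrt δ' := ⟨_, rfl⟩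
  have ha0 : 0 < a := by rw [ha]; exact Real.sqrt_pos.mpr hδ0
  have hb0 : 0 < b := by rw [hb]; exact Real.sqrt_pos.mpr hδ'
  have ha2 : a ^ 2 = δ := by rw [ha]; exact Real.sq_sqrt hδ0.le
  have hb2 : b ^ 2 = δ' := by rw [hb]; exact Real.sq_sqrt hδ'.le
  have hab : b < a := by
    rw [ha, hb]; exact Real.sqrt_lt_sqrt hδ'.le (by linarith)
  have hh2 : h = a ^ 2 - b ^ 2 := by rw [ha2, hb2]; linarith
  rw [← ha, ← hb, ← ha2]
  refine ⟨hb0, hab, ?_, ?_⟩
  · rw [div_le_iff₀ ha0, hh2]
    nlinarith [sq_nonneg (a - b)]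
  · rw [hh2, div_le_iff₀ (by positivity)]
    have h1 : 2 * (1 / b - 1 / a) * (a ^ 2 * a) = 2 * (a - b) * a ^ 2 / b := by
      field_simp
    rw [h1, le_div_iff₀ hb0]
    have h2 : 0 ≤ (a - b) ^ 2 * (2 * a + b) := by positivity
    nlinarith

/-- the initial estimates -/
private lemma jd_DB_init {N E c : ℝ} {B : ℂ → ℂ} (hE : 0 < E)
    (hB : DifferentiableOn ℂ B (ball 0 1))
    (h : ∀ w ∈ ball (0 : ℂ) 1, B w ≠ 0 ∧ |Real.log ‖B w‖ - c - N * w.re| ≤ E) :
    ∃ f : ℂ → ℂ, DifferentiableOn ℂ f (ball 0 1) ∧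
      (∀ w ∈ ball (0 : ℂ) 1, deriv B w / B w = deriv f w + N) ∧
      (∀ w : ℂ, ‖w‖ < 7 / 8 → ‖deriv f w‖ ≤ 64 * E) ∧
      ∀ w : ℂ, ‖w‖ < 3 / 4 → ‖deriv (deriv f) w‖ ≤ 512 * E := by
  obtain ⟨g, hg0, hg, hgz⟩ := dn_reg1_log (c := 0) one_pos hB (fun z hz => (h z hz).1)
  have h0 : (0 : ℂ) ∈ ball (0 : ℂ) 1 := mem_ball_self one_pos
  have hB0 := (h 0 h0).1
  have hfd : DifferentiableOn ℂ (fun z => g z - N * z) (ball 0 1) :=
    hg.sub (by fun_prop)
  have hfre : ∀ z ∈ ball (0 : ℂ) 1, (g z - N * z).re = Real.log ‖B z‖ - Real.log ‖B 0‖ - N * z.re := by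
    intro z hz
    have h1 : Real.log ‖B z‖ = Real.log ‖B 0‖ + (g z).re := by
      rw [hgz z hz, norm_mul, Complex.norm_exp,
        Real.log_mul (norm_pos_iff.mpr hB0).ne' (Real.exp_pos _).ne', Real.log_exp]
    have h2 : ((N : ℂ) * z).re = N * z.re := by
      rw [Complex.mul_re, Complex.ofReal_re, Complex.ofReal_im, zero_mul, sub_zero]
    rw [Complex.sub_re, h1, h2]
    ring
  have hdiff : ∀ z ∈ ball (0 : ℂ) 1, ∀ w ∈ ball (0 : ℂ) 1,
      ((g z - N * z) - (g w - N * w)).re ≤ 2 * E := by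
    intro z hz w hw
    rw [Complex.sub_re, hfre z hz, hfre w hw]
    have h1 := abs_le.mp (h z hz).2
    have h2 := abs_le.mp (h w hw).2
    linarith [h1.2, h2.1]
  have hd1 : ∀ w : ℂ, ‖w‖ < 7 / 8 → ‖deriv (fun z => g z - N * z) w‖ ≤ 64 * E := by
    intro w hw
    have hsub : ∀ z ∈ ball (0 : ℂ) (1 / 8), w + z ∈ ball (0 : ℂ) 1 := by
      intro z hz
      rw [mem_ball_zero_iff] at hz ⊢
      linarith [norm_add_le w z]
    have hw1 : w ∈ ball (0 : ℂ) 1 := by
      rw [mem_ball_zero_iff]; linarith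
    have hdd : DifferentiableOn ℂ (fun z => (fun z => g z - N * z) (w + z) -
        (fun z => g z - N * z) w) (ball 0 (1 / 8)) := by
      refine DifferentiableOn.sub_const ?_ _
      exact hfd.comp (by fun_prop) hsub
    have hbc : ∀ z : ℂ, ‖z‖ = 1 / 16 → ‖(g (w + z) - N * (w + z)) - (g w - N * w)‖ ≤ 4 * E := by
      intro z hz
      have key := Complex.borelCaratheodory_zero
        (f := fun z => (fun z => g z - N * z) (w + z) - (fun z => g z - N * z) w) (z := z)
        (R := 1 / 8) (M := 2 * E) (by positivity) hdd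
        (fun z hz => hdiff _ (hsub z hz) _ hw1) (by norm_num)
        (by rw [mem_ball_zero_iff, hz]; norm_num) (by simp)
      refine key.trans (le_of_eq ?_)
      rw [hz]
      ring
    have h2 := Complex.norm_deriv_le_of_forall_mem_sphere_norm_le (c := w) (R := 1 / 16) (C := 4 * E)
      (f := fun z => (g z - N * z) - (g w - N * w)) (by norm_num)
      (by
        refine DifferentiableOn.diffContOnCl ?_
        refine DifferentiableOn.sub_const ?_ _
        refine hfd.mono ?_
        refine closure_ball_subset_closedBall.trans ?_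
        intro z hz
        rw [mem_closedBall, dist_eq_norm] at hz
        rw [mem_ball_zero_iff]
        have : ‖z‖ ≤ ‖z - w‖ + ‖w‖ := by
          simpa using norm_add_le (z - w) w
        linarith)
      (by
        intro z hz
        rw [mem_sphere, dist_eq_norm] at hz
        have := hbc (z - w) hz
        rwa [add_sub_cancel] at this)
    rw [deriv_sub_const_fun] at h2
    linarith
  refine ⟨fun z => g z - N * z, hfd, ?_, hd1, ?_⟩
  · intro w hw
    have hgd : HasDerivAt g (deriv g w) w :=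
      (hg.differentiableAt (isOpen_ball.mem_nhds hw)).hasDerivAt
    have h1 : HasDerivAt (fun z => g z - N * z) (deriv g w - N) w := by
      have h2 := hgd.fun_sub ((hasDerivAt_id w).const_mul (N : ℂ))
      rw [mul_one] at h2
      exact h2
    rw [h1.deriv, sub_add_cancel]
    have h2 : HasDerivAt B (B 0 * (cexp (g w) * deriv g w)) w := by
      have h3 : HasDerivAt (fun z => B 0 * cexp (g z)) (B 0 * (cexp (g w) * deriv g w)) w :=
        (hgd.cexp).const_mul _
      refine h3.congr_of_eventuallyEq ?_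
      filter_upwards [isOpen_ball.mem_nhds hw] with z hz using hgz z hz
    rw [h2.deriv, hgz w hw]
    have h4 : cexp (g w) ≠ 0 := Complex.exp_ne_zero _
    field_simp
  · intro w hw
    have h2 := Complex.norm_deriv_le_of_forall_mem_sphere_norm_le (c := w) (R := 1 / 8)
      (C := 64 * E) (f := deriv (fun z => g z - N * z)) (by norm_num)
      (by
        refine DifferentiableOn.diffContOnCl ?_
        refine (hfd.deriv isOpen_ball).mono ?_
        refine closure_ball_subset_closedBall.trans ?_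
        intro z hz
        rw [mem_closedBall, dist_eq_norm] at hz
        rw [mem_ball_zero_iff]
        have : ‖z‖ ≤ ‖z - w‖ + ‖w‖ := by
          simpa using norm_add_le (z - w) w
        linarith)
      (by
        intro z hz
        rw [mem_sphere, dist_eq_norm] at hz
        apply hd1
        have : ‖z‖ ≤ ‖z - w‖ + ‖w‖ := by
          simpa using norm_add_le (z - w) w
        linarith)
    linarith

/-- the induction claim -/
private def jd_DB_P (N E : ℝ) (B : ℂ → ℂ) (k : ℕ) : Prop :=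
  ∀ w : ℂ, ‖w‖ + 64 * k / N < 3 / 4 → iteratedDeriv k B w ≠ 0 ∧
    ‖iteratedDeriv (k + 1) B w / iteratedDeriv k B w - N‖ ≤
      64 * E + 64 * E * (1 - Real.sqrt (3 / 4 - ‖w‖ - 64 * k / N)) ∧
    ‖deriv (fun z => iteratedDeriv (k + 1) B z / iteratedDeriv k B z) w‖ ≤
      512 * E + 512 * E * (1 / Real.sqrt (3 / 4 - ‖w‖ - 64 * k / N))

private lemma jd_DB_step {N E : ℝ} {B : ℂ → ℂ} (hN : 0 < N) (hE : 0 < E) (hEN : 256 * E ≤ N)
    (hB : ∀ k, DifferentiableOn ℂ (iteratedDeriv k B) (ball 0 1)) (k : ℕ)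
    (ih : jd_DB_P N E B k) : jd_DB_P N E B (k + 1) := by
  intro w hw
  push_cast at hw ⊢
  set q : ℂ → ℂ := fun z => iteratedDeriv (k + 1) B z / iteratedDeriv k B z with hq
  set δ' : ℝ := 3 / 4 - ‖w‖ - 64 * (k + 1) / N with hδ'd
  set δ : ℝ := 3 / 4 - ‖w‖ - 64 * k / N with hδd
  have hδ' : 0 < δ' := by rw [hδ'd]; linarith
  have hh : 0 < 64 / N := by positivity
  have hδ : δ = δ' + 64 / N := by rw [hδd, hδ'd]; ring
  have hk0 : 0 ≤ 64 * (k : ℝ) / N := by positivity
  have hδ0 : 0 < δ := by rw [hδ]; linarith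
  have hδ1 : δ ≤ 3 / 4 := by rw [hδd]; linarith [norm_nonneg w]
  obtain ⟨hb0, hab, hs1, hs2⟩ := jd_DB_sqrt hδ' hh hδ
  set a := Real.sqrt δ with ha
  set b := Real.sqrt δ' with hb
  have ha0 : 0 < a := by linarith
  have ha1 : a ≤ 1 := by
    rw [ha]; exact Real.sqrt_le_one.mpr (by linarith)
  have ha2 : a ^ 2 = δ := by rw [ha]; exact Real.sq_sqrt hδ0.le
  -- the domain
  set U : Set ℂ := ball (0 : ℂ) (3 / 4 - 64 * k / N) with hU
  have hUo : IsOpen U := isOpen_ball
  have hmemU : ∀ z : ℂ, z ∈ U ↔ ‖z‖ + 64 * k / N < 3 / 4 := by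
    intro z
    rw [hU, mem_ball_zero_iff]
    constructor <;> intro h <;> linarith
  have hU1 : U ⊆ ball (0 : ℂ) 1 := ball_subset_ball (by linarith)
  have hnz : ∀ z ∈ U, iteratedDeriv k B z ≠ 0 := fun z hz => (ih z ((hmemU z).mp hz)).1
  have hqd : DifferentiableOn ℂ q U :=
    ((hB (k + 1)).mono hU1).div ((hB k).mono hU1) hnz
  have hqN : ∀ z ∈ U, ‖q z - N‖ ≤ 128 * E := by
    intro z hz
    have h1 := (ih z ((hmemU z).mp hz)).2.1
    refine h1.trans ?_
    have h2 : 0 ≤ Real.sqrt (3 / 4 - ‖z‖ - 64 * k / N) := Real.sqrt_nonneg _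
    nlinarith
  have hqlow : ∀ z ∈ U, N / 2 ≤ ‖q z‖ := by
    intro z hz
    have h1 := hqN z hz
    have h2 : ‖(N : ℂ)‖ = N := by
      rw [Complex.norm_real, Real.norm_eq_abs, abs_of_pos hN]
    have h3 : ‖(N : ℂ)‖ ≤ ‖q z‖ + ‖q z - N‖ := by
      have : (N : ℂ) = q z - (q z - N) := by ring
      conv_lhs => rw [this]
      exact norm_sub_le _ _
    linarith
  have hq0 : ∀ z ∈ U, q z ≠ 0 := by
    intro z hz h
    have := hqlow z hz
    rw [h, norm_zero] at this
    linarith
  have hsucc : ∀ z ∈ U, iteratedDeriv (k + 1) B z = iteratedDeriv k B z * q z := by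
    intro z hz
    rw [hq]
    exact (mul_div_cancel₀ _ (hnz z hz)).symm
  have hnz1 : ∀ z ∈ U, iteratedDeriv (k + 1) B z ≠ 0 := by
    intro z hz
    rw [hsucc z hz]
    exact mul_ne_zero (hnz z hz) (hq0 z hz)
  -- the recursion
  have hrec : ∀ z ∈ U, iteratedDeriv (k + 1 + 1) B z / iteratedDeriv (k + 1) B z =
      q z + deriv q z / q z := by
    intro z hz
    have h1 : HasDerivAt (iteratedDeriv k B) (iteratedDeriv (k + 1) B z) z := by
      rw [iteratedDeriv_succ]
      exact ((hB k).differentiableAt (isOpen_ball.mem_nhds (hU1 hz))).hasDerivAt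
    have h2 : HasDerivAt q (deriv q z) z :=
      (hqd.differentiableAt (hUo.mem_nhds hz)).hasDerivAt
    have h3 : HasDerivAt (iteratedDeriv (k + 1) B)
        (iteratedDeriv (k + 1) B z * q z + iteratedDeriv k B z * deriv q z) z := by
      refine (h1.mul h2).congr_of_eventuallyEq ?_
      filter_upwards [hUo.mem_nhds hz] with y hy using hsucc y hy
    have h4 : iteratedDeriv (k + 1 + 1) B z =
        iteratedDeriv (k + 1) B z * q z + iteratedDeriv k B z * deriv q z := by
      rw [iteratedDeriv_succ (n := k + 1)]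
      exact h3.deriv
    rw [h4, hsucc z hz]
    have h5 := hnz z hz
    have h6 := hq0 z hz
    field_simp
  have hwU : w ∈ U := by
    rw [hmemU]
    have : 64 * ((k : ℝ) + 1) / N = 64 * k / N + 64 / N := by ring
    linarith
  have hgb : ∀ z ∈ U, ∀ s : ℝ, 0 < s → s ≤ Real.sqrt (3 / 4 - ‖z‖ - 64 * k / N) → s ≤ 1 →
      ‖deriv q z / q z‖ ≤ 2048 * E / (N * s) := by
    intro z hz s hs hs1 hs2
    have h1 := (ih z ((hmemU z).mp hz)).2.2
    have h2 : ‖deriv q z‖ ≤ 1024 * E / s := by
      refine h1.trans ?_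
      have h3 : 1 / Real.sqrt (3 / 4 - ‖z‖ - 64 * k / N) ≤ 1 / s := one_div_le_one_div_of_le hs hs1
      have h4 : 1 ≤ 1 / s := by rw [le_div_iff₀ hs]; linarith
      have h5 : 1024 * E / s = 512 * E * (1 / s) + 512 * E * (1 / s) := by ring
      rw [h5]
      have h6 : 512 * E * 1 ≤ 512 * E * (1 / s) := mul_le_mul_of_nonneg_left h4 (by positivity)
      have h7 := mul_le_mul_of_nonneg_left h3 (by positivity : (0 : ℝ) ≤ 512 * E)
      linarith
    rw [norm_div, div_le_div_iff₀ (lt_of_lt_of_le (by positivity) (hqlow z hz)) (by positivity)]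
    rw [le_div_iff₀ hs] at h2
    have h3 := hqlow z hz
    calc ‖deriv q z‖ * (N * s) = (‖deriv q z‖ * s) * N := by ring
      _ ≤ 1024 * E * N := mul_le_mul_of_nonneg_right h2 hN.le
      _ = 2048 * E * (N / 2) := by ring
      _ ≤ 2048 * E * ‖q z‖ := mul_le_mul_of_nonneg_left h3 (by positivity)
  refine ⟨hnz1 w hwU, ?_, ?_⟩
  · rw [hrec w hwU]
    have h1 := (ih w ((hmemU w).mp hwU)).2.1
    have h2 := hgb w hwU a ha0 (le_refl _) ha1
    have h3 : ‖q w + deriv q w / q w - N‖ ≤ ‖q w - N‖ + ‖deriv q w / q w‖ := by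
      have : q w + deriv q w / q w - N = (q w - N) + deriv q w / q w := by ring
      rw [this]; exact norm_add_le _ _
    have h4 : 2048 * E / (N * a) = 32 * E * (64 / N / a) := by field_simp; ring
    have h5 : 32 * E * (64 / N / a) ≤ 32 * E * (2 * (a - b)) :=
      mul_le_mul_of_nonneg_left hs1 (by positivity)
    have h6 : ‖q w - N‖ ≤ 64 * E + 64 * E * (1 - a) := h1
    linarith
  · -- the derivative
    have hev : (fun z => iteratedDeriv (k + 1 + 1) B z / iteratedDeriv (k + 1) B z) =ᶠ[nhds w]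
        fun z => q z + deriv q z / q z := by
      filter_upwards [hUo.mem_nhds hwU] with z hz using hrec z hz
    have hgd : DifferentiableOn ℂ (fun z => deriv q z / q z) U := (hqd.deriv hUo).div hqd hq0
    rw [hev.deriv_eq, deriv_fun_add (hqd.differentiableAt (hUo.mem_nhds hwU))
      (hgd.differentiableAt (hUo.mem_nhds hwU))]
    have h1 := (ih w ((hmemU w).mp hwU)).2.2
    have hsub : ∀ z : ℂ, ‖z - w‖ ≤ δ / 2 → δ / 2 ≤ 3 / 4 - ‖z‖ - 64 * k / N := by
      intro z hz
      have : ‖z‖ ≤ ‖z - w‖ + ‖w‖ := by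
        simpa using norm_add_le (z - w) w
      linarith
    have h2 := Complex.norm_deriv_le_of_forall_mem_sphere_norm_le (c := w) (R := δ / 2)
      (C := 2048 * E / (N * (a / 2))) (f := fun z => deriv q z / q z) (by positivity)
      (by
        refine DifferentiableOn.diffContOnCl ?_
        refine hgd.mono ?_
        refine closure_ball_subset_closedBall.trans ?_
        intro z hz
        rw [mem_closedBall, dist_eq_norm] at hz
        rw [hmemU]
        linarith [hsub z hz])
      (by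
        intro z hz
        rw [mem_sphere, dist_eq_norm] at hz
        have hz2 := hsub z hz.le
        have hzU : z ∈ U := by rw [hmemU]; linarith
        apply hgb z hzU (a / 2) (by positivity) _ (by linarith)
        apply Real.le_sqrt_of_sq_le
        have : (a / 2) ^ 2 = δ / 4 := by rw [div_pow, ha2]; norm_num
        rw [this]
        linarith)
    have h3 : 2048 * E / (N * (a / 2)) / (δ / 2) = 128 * E * (64 / N / (δ * a)) := by
      field_simp
      ring
    rw [h3] at h2
    have h4 : 128 * E * (64 / N / (δ * a)) ≤ 128 * E * (2 * (1 / b - 1 / a)) :=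
      mul_le_mul_of_nonneg_left hs2 (by positivity)
    have h5 : 1 / a ≤ 1 / b := one_div_le_one_div_of_le hb0 hab.le
    have h6 : 0 ≤ E * (1 / b - 1 / a) := mul_nonneg hE.le (by linarith)
    have h7 : ‖deriv q w‖ ≤ 512 * E + 512 * E * (1 / a) := h1
    refine (norm_add_le _ _).trans ?_
    linarith

private lemma jd_DB_log {N E : ℝ} {q : ℂ} (hN : 0 < N) (hE : 0 < E) (hEN : 256 * E ≤ N)
    (h : ‖q - N‖ ≤ 128 * E) : |Real.log ‖q‖ - Real.log N| ≤ 256 * E / N := by
  have h2 : ‖(N : ℂ)‖ = N := by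
    rw [Complex.norm_real, Real.norm_eq_abs, abs_of_pos hN]
  have h3 : |‖q‖ - N| ≤ 128 * E := by
    rw [← h2]
    exact (abs_norm_sub_norm_le _ _).trans h
  have h4 : N / 2 ≤ ‖q‖ := by linarith [(abs_le.mp h3).1]
  have hq : 0 < ‖q‖ := by linarith
  rw [abs_le] at h3 ⊢
  constructor
  · have h5 := Real.log_le_sub_one_of_pos (show 0 < N / ‖q‖ by positivity)
    rw [Real.log_div hN.ne' hq.ne'] at h5
    have h6 : N / ‖q‖ - 1 ≤ 256 * E / N := by
      rw [div_sub_one hq.ne', div_le_div_iff₀ hq hN]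
      nlinarith [h3.1, h3.2]
    linarith
  · have h5 := Real.log_le_sub_one_of_pos (show 0 < ‖q‖ / N by positivity)
    rw [Real.log_div hq.ne' hN.ne'] at h5
    have h6 : ‖q‖ / N - 1 ≤ 256 * E / N := by
      rw [div_sub_one hN.ne', div_le_div_iff₀ hN hN]
      have : (‖q‖ - N) * N ≤ 256 * E * N := by
        apply mul_le_mul_of_nonneg_right _ hN.le
        linarith [h3.2]
      exact this
    linarith

theorem p_DB (_h : S_lapD) : S_DB := by
  refine ⟨1 / 2000, 1000, 1, by norm_num, by norm_num, by norm_num, le_refl _, ?_⟩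
  intro N η c n B hN hη hη0 hn hB h w hw
  have hN0 : 0 < N := by linarith
  set E : ℝ := η * N + 1 / 4 with hE
  have hE0 : 0 < E := by positivity
  have hEN : 1000 * E ≤ N := by
    rw [hE]
    have : η * N ≤ 1 / 2000 * N := mul_le_mul_of_nonneg_right hη0 hN0.le
    linarith
  have hBk : ∀ k, DifferentiableOn ℂ (iteratedDeriv k B) (ball 0 1) := by
    intro k
    induction k with
    | zero => rw [iteratedDeriv_zero]; exact hB
    | succ k ih => rw [iteratedDeriv_succ]; exact ih.deriv isOpen_ball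
  obtain ⟨f, hf, hf0, hf1, hf2⟩ := jd_DB_init (N := N) (E := E) (c := c) hE0 hB
    (fun z hz => ⟨(h z hz).1, (h z hz).2.trans (by rw [hE]; linarith)⟩)
  have hP0 : jd_DB_P N E B 0 := by
    intro z hz
    simp only [Nat.cast_zero, mul_zero, zero_div, add_zero, zero_add, sub_zero] at hz ⊢
    rw [iteratedDeriv_zero, iteratedDeriv_one]
    have hz1 : z ∈ ball (0 : ℂ) 1 := by rw [mem_ball_zero_iff]; linarith
    have hs1 : Real.sqrt (3 / 4 - ‖z‖) ≤ 1 :=
      Real.sqrt_le_one.mpr (by linarith [norm_nonneg z])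
    refine ⟨(h z hz1).1, ?_, ?_⟩
    · rw [hf0 z hz1, add_sub_cancel_right]
      have := hf1 z (by linarith)
      have h2 : 0 ≤ 64 * E * (1 - Real.sqrt (3 / 4 - ‖z‖)) := by
        apply mul_nonneg (by positivity); linarith
      linarith
    · have hev : (fun y => deriv B y / B y) =ᶠ[nhds z] fun y => deriv f y + N := by
        filter_upwards [isOpen_ball.mem_nhds hz1] with y hy using hf0 y hy
      rw [hev.deriv_eq, deriv_add_const]
      have := hf2 z hz
      have h2 : 0 ≤ 512 * E * (1 / Real.sqrt (3 / 4 - ‖z‖)) := by positivity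
      linarith
  have hP : ∀ k, jd_DB_P N E B k := by
    intro k
    induction k with
    | zero => exact hP0
    | succ k ih => exact jd_DB_step hN0 hE0 (by linarith) hBk k ih
  have hwn : ‖w‖ < 1 / 2 := by rwa [mem_ball_zero_iff] at hw
  have hkb : ∀ k : ℕ, k ≤ n → ‖w‖ + 64 * k / N < 3 / 4 := by
    intro k hk
    have h1 : (k : ℝ) ≤ 1 / 2000 * N := le_trans (by exact_mod_cast hk) hn
    have h2 : 64 * (k : ℝ) / N ≤ 64 / 2000 := by
      rw [div_le_iff₀ hN0]; linarith
    linarith
  refine ⟨(hP n w (hkb n le_rfl)).1, ?_⟩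
  have hw1 : w ∈ ball (0 : ℂ) 1 := by rw [mem_ball_zero_iff]; linarith
  have key : ∀ k : ℕ, k ≤ n → |Real.log ‖iteratedDeriv k B w‖ - (c + k * Real.log N) - N * w.re| ≤
      η * N + k * (256 * E / N) := by
    intro k
    induction k with
    | zero =>
      intro _
      rw [iteratedDeriv_zero]
      have := (h w hw1).2
      simpa using this
    | succ k ih =>
      intro hk
      have h1 := ih (by omega)
      have h2 := hP k w (hkb k (by omega))
      have h3 : ‖iteratedDeriv (k + 1) B w / iteratedDeriv k B w - N‖ ≤ 128 * E := by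
        refine h2.2.1.trans ?_
        have : 0 ≤ Real.sqrt (3 / 4 - ‖w‖ - 64 * k / N) := Real.sqrt_nonneg _
        nlinarith
      have h4 := jd_DB_log hN0 hE0 (by linarith) h3
      have h5 : Real.log ‖iteratedDeriv (k + 1) B w‖ = Real.log ‖iteratedDeriv k B w‖ +
          Real.log ‖iteratedDeriv (k + 1) B w / iteratedDeriv k B w‖ := by
        rw [norm_div, Real.log_div (norm_pos_iff.mpr (hP (k + 1) w (hkb (k + 1) hk)).1).ne'
          (norm_pos_iff.mpr h2.1).ne']
        ring
      rw [abs_le] at h1 h4 ⊢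
      push_cast
      rw [h5]
      constructor <;> linarith [h1.1, h1.2, h4.1, h4.2]
  have h1 := key n le_rfl
  refine h1.trans ?_
  have h2 : (n : ℝ) * (256 * E / N) ≤ 256 / 2000 * E := by
    have h3 : (n : ℝ) * (256 * E / N) ≤ (1 / 2000 * N) * (256 * E / N) :=
      mul_le_mul_of_nonneg_right hn (by positivity)
    refine h3.trans (le_of_eq ?_)
    field_simp
  have h3 : 0 ≤ η * N := by positivity
  rw [hE] at h2
  linarith

end Pool.Agent.Lib.MP_cd509c_nt.JD
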