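import Pool.Agent.Lib.MP_cd509c_nt.JD.Defs
import Pool.Agent.Lib.MP_cd509c_nt.DN.P.reg1

/-!
# The Jensen transform at a point of regularity
-/

set_option autoImplicit false

namespace Pool.Agent.Lib.MP_cd509c_nt.JD

open Complex ComplexConjugate MeasureTheory Metric
open Pool.Agent.Lib.MP_cd509c_nt.DN

/-- the logarithm and its derivatives -/
private lemma jd_FJ_log {δ M : ℝ} {f : ℂ → ℂ} (hδ : 0 < δ) (hM : 0 < M) (hf : Differentiable ℂ f)
    (h : ∀ φ : ℂ, ‖φ‖ < δ → f φ ≠ 0 ∧ ‖f φ‖ ≤ Real.exp M * ‖f 0‖) :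
    ∃ g : ℂ → ℂ, DifferentiableOn ℂ g (ball 0 δ) ∧ (∀ φ ∈ ball (0 : ℂ) δ, f φ = f 0 * cexp (g φ)) ∧
      (∀ φ : ℂ, ‖φ‖ ≤ δ / 2 → ‖g φ‖ ≤ 4 * M * ‖φ‖ / δ) ∧
      (∀ φ : ℂ, ‖φ‖ ≤ δ / 4 → ‖deriv g φ‖ ≤ 8 * M / δ) ∧
      ∀ φ : ℂ, ‖φ‖ ≤ δ / 8 → ‖deriv (deriv g) φ‖ ≤ 64 * M / δ ^ 2 := by
  obtain ⟨g, hg0, hg, hgz⟩ := dn_reg1_log (c := 0) hδ hf.differentiableOn
    (fun z hz => (h z (by rwa [mem_ball_zero_iff] at hz)).1)
  have hf0 : f 0 ≠ 0 := (h 0 (by rw [norm_zero]; exact hδ)).1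
  have hre : ∀ z ∈ ball (0 : ℂ) δ, (g z).re ≤ M := by
    intro z hz
    have k := (h z (by rwa [mem_ball_zero_iff] at hz)).2
    rw [hgz z hz, norm_mul, Complex.norm_exp, mul_comm] at k
    exact Real.exp_le_exp.1 (le_of_mul_le_mul_right k (norm_pos_iff.2 hf0))
  have h1 : ∀ φ : ℂ, ‖φ‖ ≤ δ / 2 → ‖g φ‖ ≤ 4 * M * ‖φ‖ / δ := by
    intro φ hφ
    have key := Complex.borelCaratheodory_zero (f := g) (z := φ) (R := δ) hM hg hre hδ
      (by rw [mem_ball_zero_iff]; linarith) hg0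
    refine key.trans ?_
    rw [div_le_div_iff₀ (by linarith) hδ]
    have h0 : 0 ≤ M * ‖φ‖ := by positivity
    nlinarith
  have hcl : ∀ (w : ℂ) (r s : ℝ), ‖w‖ ≤ r → r + s < δ → closedBall w s ⊆ ball (0 : ℂ) δ := by
    intro w r s hw hrs z hz
    rw [mem_closedBall, dist_eq_norm] at hz
    rw [mem_ball_zero_iff]
    have : ‖z‖ ≤ ‖z - w‖ + ‖w‖ := by
      simpa using norm_add_le (z - w) w
    linarith
  have h2 : ∀ φ : ℂ, ‖φ‖ ≤ δ / 4 → ‖deriv g φ‖ ≤ 8 * M / δ := by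
    intro φ hφ
    have k := Complex.norm_deriv_le_of_forall_mem_sphere_norm_le (c := φ) (R := δ / 4)
      (C := 2 * M) (f := g) (by positivity)
      ((hg.mono (closure_ball_subset_closedBall.trans
        (hcl φ (δ / 4) (δ / 4) hφ (by linarith)))).diffContOnCl)
      (by
        intro z hz
        rw [mem_sphere, dist_eq_norm] at hz
        have hz2 : ‖z‖ ≤ δ / 2 := by
          have : ‖z‖ ≤ ‖z - φ‖ + ‖φ‖ := by
            simpa using norm_add_le (z - φ) φ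
          linarith
        refine (h1 z hz2).trans ?_
        rw [div_le_iff₀ hδ]
        nlinarith)
    refine k.trans (le_of_eq ?_)
    field_simp
    ring
  refine ⟨g, hg, hgz, h1, h2, ?_⟩
  intro φ hφ
  have k := Complex.norm_deriv_le_of_forall_mem_sphere_norm_le (c := φ) (R := δ / 8)
    (C := 8 * M / δ) (f := deriv g) (by positivity)
    (((hg.deriv isOpen_ball).mono (closure_ball_subset_closedBall.trans
      (hcl φ (δ / 8) (δ / 8) hφ (by linarith)))).diffContOnCl)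
    (by
      intro z hz
      rw [mem_sphere, dist_eq_norm] at hz
      apply h2
      have : ‖z‖ ≤ ‖z - φ‖ + ‖φ‖ := by
        simpa using norm_add_le (z - φ) φ
      linarith)
  refine k.trans (le_of_eq ?_)
  field_simp
  ring

/-- the saddle point -/
private lemma jd_FJ_sad {δ M D : ℝ} {g : ℂ → ℂ} (hδ : 0 < δ) (hδ4 : δ ≤ 1 / 4) (hM : 0 < M)
    (hD : 0 < D) (hMD : M ≤ 1 / 1000 * D * δ ^ 2) (hg : DifferentiableOn ℂ g (ball 0 δ))
    (h2 : ∀ φ : ℂ, ‖φ‖ ≤ δ / 4 → ‖deriv g φ‖ ≤ 8 * M / δ)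
    (h3 : ∀ φ : ℂ, ‖φ‖ ≤ δ / 8 → ‖deriv (deriv g) φ‖ ≤ 64 * M / δ ^ 2) :
    ∃ φ₀ : ℂ, ‖φ₀‖ ≤ 16 * M / (δ * D) ∧ I * D * (cexp (φ₀ * I) - 1) + deriv g φ₀ = 0 := by
  set ρ : ℝ := 16 * M / (δ * D) with hρ
  have hρ0 : 0 < ρ := by positivity
  have hρδ : ρ ≤ 16 / 1000 * δ := by
    rw [hρ, div_le_iff₀ (by positivity)]
    nlinarith
  have hD0 : (D : ℂ) ≠ 0 := by exact_mod_cast hD.ne'
  let s : Set ℂ := closedBall (0 : ℂ) ρ
  let T : ℂ → ℂ := fun φ => φ + I * (cexp (φ * I) - 1) + deriv g φ / D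
  have hmem : ∀ v : ℂ, v ∈ s ↔ ‖v‖ ≤ ρ := by
    intro v
    simp only [s, mem_closedBall_zero_iff]
  have hgd : ∀ v ∈ s, DifferentiableAt ℂ (deriv g) v := by
    intro v hv
    rw [hmem] at hv
    refine (hg.deriv isOpen_ball).differentiableAt (isOpen_ball.mem_nhds ?_)
    rw [mem_ball_zero_iff]; linarith
  have hTd : ∀ v ∈ s, HasDerivAt T (1 - cexp (v * I) + deriv (deriv g) v / D) v := by
    intro v hv
    have k1 : HasDerivAt (fun φ : ℂ => cexp (φ * I)) (cexp (v * I) * I) v := by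
      have := ((hasDerivAt_id v).mul_const I).cexp
      rwa [one_mul] at this
    have k2 := ((hasDerivAt_id v).fun_add ((k1.sub_const 1).const_mul I)).fun_add
      ((hgd v hv).hasDerivAt.div_const (D : ℂ))
    refine k2.congr_deriv ?_
    have : I * (cexp (v * I) * I) = - cexp (v * I) := by
      linear_combination cexp (v * I) * Complex.I_sq
    rw [this]
    ring
  have hTb : ∀ v ∈ s, ‖1 - cexp (v * I) + deriv (deriv g) v / D‖₊ ≤ (1 / 4 : NNReal) := by
    intro v hv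
    rw [← NNReal.coe_le_coe, coe_nnnorm]
    push_cast
    rw [hmem] at hv
    have hvI : ‖v * I‖ = ‖v‖ := by rw [norm_mul, Complex.norm_I, mul_one]
    have k1 : ‖1 - cexp (v * I)‖ ≤ 2 * ρ := by
      rw [norm_sub_rev]
      have := Complex.norm_exp_sub_one_le (x := v * I) (by rw [hvI]; linarith)
      rw [hvI] at this
      linarith
    have k2 : ‖deriv (deriv g) v / D‖ ≤ 64 / 1000 := by
      rw [norm_div, Complex.norm_real, Real.norm_of_nonneg hD.le, div_le_iff₀ hD]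
      refine (h3 v (by linarith)).trans ?_
      rw [div_le_iff₀ (by positivity)]
      linarith
    refine (norm_add_le _ _).trans ?_
    linarith
  have hlip : LipschitzOnWith (1 / 4) T s :=
    (convex_closedBall (0 : ℂ) ρ).lipschitzOnWith_of_nnnorm_hasDerivWithin_le
      (fun v hv => (hTd v hv).hasDerivWithinAt) hTb
  have h0s : (0 : ℂ) ∈ s := mem_closedBall_self hρ0.le
  have hT0 : ‖T 0‖ ≤ ρ / 2 := by
    have e : T 0 = deriv g 0 / D := by
      simp [T]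
    rw [e, norm_div, Complex.norm_real, Real.norm_of_nonneg hD.le, div_le_iff₀ hD]
    refine (h2 0 (by rw [norm_zero]; positivity)).trans (le_of_eq ?_)
    rw [hρ]
    field_simp
    ring
  have hmaps : Set.MapsTo T s s := by
    intro v hv
    have k1 := hlip.dist_le_mul v hv 0 h0s
    rw [dist_eq_norm, dist_zero_right] at k1
    rw [hmem] at hv ⊢
    push_cast at k1
    have k2 : ‖T v‖ ≤ ‖T v - T 0‖ + ‖T 0‖ := by
      simpa using norm_add_le (T v - T 0) (T 0)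
    linarith
  have hcontr : ContractingWith (1 / 4) (hmaps.restrict T s s) := by
    refine ⟨by
      rw [← NNReal.coe_lt_coe]
      norm_num, ?_⟩
    refine LipschitzWith.of_dist_le_mul ?_
    rintro ⟨v, hv⟩ ⟨u, hu⟩
    exact hlip.dist_le_mul v hv u hu
  obtain ⟨v, hv, hfix, -⟩ := hcontr.exists_fixedPoint' (isClosed_closedBall.isComplete) hmaps
    (x := 0) h0s (edist_ne_top _ _)
  refine ⟨v, (hmem v).1 hv, ?_⟩
  have hfix' : v + I * (cexp (v * I) - 1) + deriv g v / D = v := hfix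
  have h4 : I * (cexp (v * I) - 1) + deriv g v / D = 0 := by
    linear_combination hfix'
  have h5 : (I * (cexp (v * I) - 1) + deriv g v / D) * D = 0 := by rw [h4, zero_mul]
  rw [add_mul, div_mul_cancel₀ _ hD0] at h5
  linear_combination h5

/-- Taylor expansion at the saddle point -/
private lemma jd_FJ_tay {δ M D κ : ℝ} {g : ℂ → ℂ} {φ₀ : ℂ} (hδ : 0 < δ) (hδ4 : δ ≤ 1 / 4)
    (hD : 0 < D) (hκ : 0 < κ) (hκ16 : κ ≤ 1 / 16) (hMD : 64 * M ≤ κ * D * δ ^ 2)
    (hg : DifferentiableOn ℂ g (ball 0 δ))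
    (h3 : ∀ φ : ℂ, ‖φ‖ ≤ δ / 8 → ‖deriv (deriv g) φ‖ ≤ 64 * M / δ ^ 2)
    (hφ₀ : ‖φ₀‖ ≤ κ * δ / 2) (hsad : I * D * (cexp (φ₀ * I) - 1) + deriv g φ₀ = 0) (s : ℝ)
    (hs : |s| ≤ κ * δ) : ∃ E : ℂ, ‖E‖ ≤ 2 * κ * D * s ^ 2 ∧
      D * (cexp ((φ₀ + s) * I) - 1 - (φ₀ + s) * I) + g (φ₀ + s) =
        D * (cexp (φ₀ * I) - 1 - φ₀ * I) + g φ₀ - D * (s : ℂ) ^ 2 / 2 + E := by
  have hδ8 : 3 / 2 * κ * δ ≤ δ / 8 := by nlinarith
  -- the set
  set S : Set ℂ := closedBall (0 : ℂ) (3 / 2 * κ * δ) with hS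
  have hSm : ∀ z ∈ S, ‖z‖ ≤ 3 / 2 * κ * δ := fun z hz => by
    rwa [hS, mem_closedBall_zero_iff] at hz
  have hSb : ∀ z ∈ S, z ∈ ball (0 : ℂ) δ := by
    intro z hz
    have := hSm z hz
    rw [mem_ball_zero_iff]
    linarith
  have he : ∀ z : ℂ, HasDerivAt (fun φ : ℂ => cexp (φ * I)) (cexp (z * I) * I) z := by
    intro z
    have := ((hasDerivAt_id z).mul_const I).cexp
    rwa [one_mul] at this
  have hgd : ∀ z ∈ S, HasDerivAt g (deriv g z) z := fun z hz =>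
    (hg.differentiableAt (isOpen_ball.mem_nhds (hSb z hz))).hasDerivAt
  have hgd2 : ∀ z ∈ S, HasDerivAt (deriv g) (deriv (deriv g) z) z := fun z hz =>
    ((hg.deriv isOpen_ball).differentiableAt (isOpen_ball.mem_nhds (hSb z hz))).hasDerivAt
  -- first step
  have hu : ∀ z ∈ S, HasDerivWithinAt
      (fun z : ℂ => I * D * (cexp (z * I) - 1) + deriv g z + D * (z - φ₀))
      (D * (1 - cexp (z * I)) + deriv (deriv g) z) S z := by
    intro z hz
    have k1 := (((he z).sub_const 1).const_mul (I * (D : ℂ))).fun_add (hgd2 z hz)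
    have k2 := k1.fun_add (((hasDerivAt_id z).sub_const φ₀).const_mul (D : ℂ))
    refine (k2.congr_deriv ?_).hasDerivWithinAt
    linear_combination (D : ℂ) * cexp (z * I) * Complex.I_sq
  have hub : ∀ z ∈ S, ‖D * (1 - cexp (z * I)) + deriv (deriv g) z‖ ≤ 2 * κ * D := by
    intro z hz
    have hz1 := hSm z hz
    have hzI : ‖z * I‖ = ‖z‖ := by rw [norm_mul, Complex.norm_I, mul_one]
    have k1 : ‖1 - cexp (z * I)‖ ≤ κ := by
      rw [norm_sub_rev]
      have := Complex.norm_exp_sub_one_le (x := z * I) (by rw [hzI]; nlinarith)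
      rw [hzI] at this
      nlinarith
    have k2 : ‖deriv (deriv g) z‖ ≤ κ * D := by
      refine (h3 z (by linarith)).trans ?_
      rw [div_le_iff₀ (by positivity)]
      exact hMD
    refine (norm_add_le _ _).trans ?_
    rw [norm_mul, Complex.norm_real, Real.norm_of_nonneg hD.le]
    nlinarith
  have hφS : φ₀ ∈ S := by
    rw [hS, mem_closedBall_zero_iff]
    have : 0 < κ * δ := by positivity
    linarith
  have hu2 : ∀ z ∈ S, ‖I * D * (cexp (z * I) - 1) + deriv g z + D * (z - φ₀)‖ ≤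
      2 * κ * D * ‖z - φ₀‖ := by
    intro z hz
    have k := (convex_closedBall (0 : ℂ) (3 / 2 * κ * δ)).norm_image_sub_le_of_norm_hasDerivWithin_le
      hu hub hφS hz
    rw [hsad, sub_self, mul_zero, add_zero, sub_zero] at k
    exact k
  -- second step
  have hsn : ‖(s : ℂ)‖ = |s| := by rw [Complex.norm_real, Real.norm_eq_abs]
  have hsS : φ₀ + s ∈ S := by
    rw [hS, mem_closedBall_zero_iff]
    refine (norm_add_le _ _).trans ?_
    rw [hsn]
    linarith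
  set S' : Set ℂ := S ∩ closedBall φ₀ |s| with hS'
  have hconv : Convex ℝ S' := (convex_closedBall _ _).inter (convex_closedBall _ _)
  have hv : ∀ z ∈ S', HasDerivWithinAt
      (fun z : ℂ => D * (cexp (z * I) - 1 - z * I) + g z + D * (z - φ₀) ^ 2 / 2)
      (I * D * (cexp (z * I) - 1) + deriv g z + D * (z - φ₀)) S' z := by
    intro z hz
    have k0 : HasDerivAt (fun z : ℂ => z * I) I z := by
      have := (hasDerivAt_id z).mul_const I
      rwa [one_mul] at this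
    have k1 := ((((he z).sub_const 1).fun_sub k0).const_mul (D : ℂ)).fun_add (hgd z hz.1)
    have k2 : HasDerivAt (fun z : ℂ => (D : ℂ) * (z - φ₀) ^ 2 / 2) (D * (z - φ₀)) z := by
      have := ((((hasDerivAt_id z).sub_const φ₀).fun_pow 2).const_mul (D : ℂ)).div_const 2
      refine this.congr_deriv ?_
      simp only [id]
      ring
    refine ((k1.fun_add k2).congr_deriv ?_).hasDerivWithinAt
    ring
  have hvb : ∀ z ∈ S', ‖I * D * (cexp (z * I) - 1) + deriv g z + D * (z - φ₀)‖ ≤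
      2 * κ * D * |s| := by
    intro z hz
    refine (hu2 z hz.1).trans ?_
    have := hz.2
    rw [mem_closedBall, dist_eq_norm] at this
    exact mul_le_mul_of_nonneg_left this (by positivity)
  have hφS' : φ₀ ∈ S' := ⟨hφS, mem_closedBall_self (abs_nonneg s)⟩
  have hsS' : φ₀ + s ∈ S' := by
    refine ⟨hsS, ?_⟩
    rw [mem_closedBall, dist_eq_norm, add_sub_cancel_left, hsn]
  have k := hconv.norm_image_sub_le_of_norm_hasDerivWithin_le hv hvb hφS' hsS'
  rw [add_sub_cancel_left, sub_self, hsn] at k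
  refine ⟨_, ?_, (sub_eq_iff_eq_add'.mp rfl)⟩
  refine le_trans (le_of_eq ?_) (k.trans (le_of_eq ?_))
  · congr 1
    ring
  · rw [mul_assoc, ← sq, sq_abs]

/-- shift of the contour -/
private lemma jd_FJ_shift {K : ℂ → ℂ} (hK : Differentiable ℂ K)
    (hper : ∀ z, K (z + 2 * Real.pi) = K z) (q : ℝ) :
    ∫ θ in (-Real.pi)..Real.pi, K θ = ∫ θ in (-Real.pi)..Real.pi, K (θ + q * I) := by
  obtain ⟨P, hP⟩ := hK.isExactOn_univ
  have h1 : ∀ c : ℂ, ∫ θ in (-Real.pi)..Real.pi, K (θ + c) = P (Real.pi + c) - P (-Real.pi + c) := by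
    intro c
    have h2 : ∀ θ ∈ Set.uIcc (-Real.pi) Real.pi,
        HasDerivAt (fun t : ℝ => P (t + c)) (K (θ + c)) θ := by
      intro θ _
      have h3 : HasDerivAt (fun z : ℂ => P (z + c)) (K ((θ : ℂ) + c)) (θ : ℂ) :=
        HasDerivAt.comp_add_const (θ : ℂ) c (hP _ (Set.mem_univ _))
      exact h3.comp_ofReal
    rw [intervalIntegral.integral_eq_sub_of_hasDerivAt h2]
    · push_cast; rfl
    · exact (hK.continuous.comp (by fun_prop)).intervalIntegrable _ _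
  have h2 : ∀ c : ℂ, HasDerivAt (fun c : ℂ => P (Real.pi + c) - P (-Real.pi + c)) 0 c := by
    intro c
    have k1 : HasDerivAt (fun c : ℂ => P (Real.pi + c)) (K (Real.pi + c)) c :=
      HasDerivAt.comp_const_add (Real.pi : ℂ) c (hP _ (Set.mem_univ _))
    have k2 : HasDerivAt (fun c : ℂ => P (-Real.pi + c)) (K (-Real.pi + c)) c :=
      HasDerivAt.comp_const_add (-(Real.pi : ℂ)) c (hP _ (Set.mem_univ _))
    refine (k1.fun_sub k2).congr_deriv ?_
    have := hper (-Real.pi + c)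
    rw [← this]
    have e : (-(Real.pi : ℂ) + c + 2 * Real.pi) = Real.pi + c := by ring
    rw [e, sub_self]
  have h3 := is_const_of_deriv_eq_zero (fun c => (h2 c).differentiableAt) (fun c => (h2 c).deriv)
    0 (q * I)
  have h4 := h1 0
  simp only [add_zero] at h4 h3
  rw [h4, h1 (q * I)]
  exact h3

/-- the kernel off the real axis -/
private lemma jd_FJ_ker (D : ℕ) {θ q : ℝ} (hθ : |θ| ≤ Real.pi) (hq : |q| ≤ 1 / 2) :
    ‖kD D (θ + q * I)‖ ≤ Real.exp (D * (q ^ 2 - θ ^ 2 / Real.pi ^ 2)) := by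
  have e1 : ((θ : ℂ) + q * I) * I = ((-q : ℝ) : ℂ) + θ * I := by
    push_cast
    linear_combination (q : ℂ) * Complex.I_sq
  have e2 : (cexp (((θ : ℂ) + q * I) * I) - 1 - ((θ : ℂ) + q * I) * I).re =
      Real.exp (-q) * Real.cos θ - 1 + q := by
    rw [e1, Complex.exp_add, ← Complex.ofReal_exp, Complex.sub_re, Complex.sub_re,
      Complex.re_ofReal_mul, Complex.exp_ofReal_mul_I_re, Complex.one_re, Complex.add_re,
      Complex.ofReal_re, Complex.re_ofReal_mul, Complex.I_re]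
    ring
  have h1 := Real.cos_le_one_sub_mul_cos_sq hθ
  obtain ⟨hq1, hq2⟩ := abs_le.mp hq
  have h2 : 1 / 2 ≤ Real.exp (-q) := by
    have := Real.add_one_le_exp (-q)
    linarith
  have h3 : Real.exp (-q) - 1 + q ≤ q ^ 2 := by
    have := Real.abs_exp_sub_one_sub_id_le (x := -q) (by rw [abs_neg]; linarith)
    have := (abs_le.mp this).2
    nlinarith
  have hpi : 0 < Real.pi ^ 2 := by positivity
  have h4 : Real.exp (-q) * Real.cos θ - 1 + q ≤ q ^ 2 - θ ^ 2 / Real.pi ^ 2 := by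
    have h5 : 2 / Real.pi ^ 2 * θ ^ 2 ≤ 1 - Real.cos θ := by linarith
    have h6 : 0 ≤ 2 / Real.pi ^ 2 * θ ^ 2 := by positivity
    have h7 : 1 / 2 * (2 / Real.pi ^ 2 * θ ^ 2) ≤ Real.exp (-q) * (1 - Real.cos θ) :=
      mul_le_mul h2 h5 h6 (by positivity)
    have h8 : 1 / 2 * (2 / Real.pi ^ 2 * θ ^ 2) = θ ^ 2 / Real.pi ^ 2 := by
      field_simp
    linarith
  unfold kD
  rw [Complex.norm_exp]
  apply Real.exp_le_exp.mpr
  have e3 : ((D : ℂ) * (cexp (((θ : ℂ) + q * I) * I) - 1 - ((θ : ℂ) + q * I) * I)).re =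
      D * (Real.exp (-q) * Real.cos θ - 1 + q) := by
    rw [← e2, ← Complex.ofReal_natCast, Complex.re_ofReal_mul]
  rw [e3]
  exact mul_le_mul_of_nonneg_left h4 (Nat.cast_nonneg D)

private lemma jd_FJ_gauss {c a b : ℝ} (hc : 0 < c) (hab : a ≤ b) :
    ∫ x in a..b, Real.exp (-c * x ^ 2) ≤ Real.sqrt (Real.pi / c) := by
  rw [intervalIntegral.integral_of_le hab, ← integral_gaussian c]
  exact setIntegral_le_integral (integrable_exp_neg_mul_sq hc)
    (Filter.Eventually.of_forall fun x => (Real.exp_pos _).le)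

/-- the argument of `F` on the shifted contour -/
private lemma jd_FJ_pt {δ θ q : ℝ} (hδ : 0 < δ) (hδ4 : δ ≤ 1 / 4) (hq : |q| ≤ δ / 2) :
    1 - δ ≤ ‖cexp ((θ + q * I) * I)‖ ∧ ‖cexp ((θ + q * I) * I)‖ ≤ 1 + δ ∧
      ‖cexp ((θ + q * I) * I) - 1‖ ≤ 2 * |q| + |θ| := by
  have e1 : ((θ : ℂ) + q * I) * I = ((-q : ℝ) : ℂ) + θ * I := by
    push_cast
    linear_combination (q : ℂ) * Complex.I_sq
  have e2 : ‖cexp ((θ + q * I) * I)‖ = Real.exp (-q) := by
    rw [e1, Complex.norm_exp, Complex.add_re, Complex.ofReal_re, Complex.re_ofReal_mul,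
      Complex.I_re, mul_zero, add_zero]
  obtain ⟨hq1, hq2⟩ := abs_le.mp hq
  have h1 := Real.add_one_le_exp (-q)
  have hq3 : |-q| ≤ 1 := by rw [abs_neg]; linarith
  have h2 := (abs_le.mp (Real.abs_exp_sub_one_sub_id_le hq3)).2
  refine ⟨?_, ?_, ?_⟩
  · rw [e2]; linarith
  · rw [e2]
    have : q ^ 2 ≤ (δ / 2) ^ 2 := sq_le_sq' hq1 hq2
    nlinarith
  · have e3 : cexp ((θ + q * I) * I) - 1 = (cexp ((-q : ℝ) : ℂ) - 1) * cexp (θ * I) +
        (cexp (θ * I) - 1) := by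
      rw [e1, Complex.exp_add]; ring
    rw [e3]
    refine (norm_add_le _ _).trans ?_
    have h3 : ‖cexp ((-q : ℝ) : ℂ) - 1‖ ≤ 2 * |q| := by
      have hn : ‖((-q : ℝ) : ℂ)‖ = |q| := by
        rw [Complex.norm_real, Real.norm_eq_abs, abs_neg]
      have := Complex.norm_exp_sub_one_le (x := ((-q : ℝ) : ℂ)) (by rw [hn]; linarith)
      rwa [hn] at this
    have h4 : ‖cexp (θ * I)‖ = 1 := Complex.norm_exp_ofReal_mul_I θ
    have h5 : ‖cexp (θ * I) - 1‖ ≤ |θ| := by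
      have := Real.norm_exp_I_mul_ofReal_sub_one_le (x := θ)
      rw [mul_comm] at this
      rwa [Real.norm_eq_abs] at this
    rw [norm_mul, h4, mul_one]
    linarith

theorem p_FJ (h1 : S_lapH) (h2 : S_rep) (h3 : S_cD) : S_FJ := by
  obtain ⟨η, Nl, hη, hNl, hlap⟩ := h1
  obtain ⟨CD, hCD1, hcD⟩ := h3
  have hCD0 : 0 < CD := by linarith
  set κ : ℝ := min (1 / 16) (η / 2) with hκ
  have hκ0 : 0 < κ := lt_min (by norm_num) (by positivity)
  have hκ16 : κ ≤ 1 / 16 := min_le_left _ _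
  have hκη : 2 * κ ≤ η := by
    have : κ ≤ η / 2 := min_le_right _ _
    linarith
  set c₀ : ℝ := κ ^ 2 / (10 ^ 6 * Nl) with hc₀
  have hc0 : 0 < c₀ := by positivity
  have hc1 : c₀ ≤ κ ^ 2 / 10 ^ 6 := by
    rw [hc₀]
    apply div_le_div_of_nonneg_left (by positivity) (by positivity)
    linarith
  have hκ2 : κ ^ 2 ≤ κ / 16 := by nlinarith
  refine ⟨c₀, 320 + Real.log (10 * CD), 1, hc0, ?_, le_refl _, ?_⟩
  · have : 0 ≤ Real.log (10 * CD) := Real.log_nonneg (by linarith)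
    linarith
  intro D δ M F ω₀ hD hδ hδ4 hM1 hMc hF hω₀ hnear hann
  have hM0 : 0 < M := by linarith
  have hD0 : (0 : ℝ) < D := by linarith
  have hD1 : 1 ≤ D := by exact_mod_cast hD
  set f : ℂ → ℂ := fun φ => F (ω₀ * cexp (φ * I)) with hf
  have hfd : Differentiable ℂ f := by
    rw [hf]
    exact hF.comp (by fun_prop)
  have hf0e : f 0 = F ω₀ := by simp [hf]
  have hωn : 0 < ‖ω₀‖ := norm_pos_iff.mpr hω₀
  have hfl : ∀ φ : ℂ, ‖φ‖ < δ → f φ ≠ 0 ∧ ‖f φ‖ ≤ Real.exp M * ‖f 0‖ := by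
    intro φ hφ
    rw [hf0e]
    apply hnear
    have e : ω₀ * cexp (φ * I) - ω₀ = ω₀ * (cexp (φ * I) - 1) := by ring
    have hn : ‖φ * I‖ = ‖φ‖ := by rw [norm_mul, Complex.norm_I, mul_one]
    have := Complex.norm_exp_sub_one_le (x := φ * I) (by rw [hn]; linarith)
    rw [hn] at this
    rw [e, norm_mul, mul_comm]
    apply mul_le_mul_of_nonneg_right _ hωn.le
    linarith
  have hfne : f 0 ≠ 0 := (hfl 0 (by rw [norm_zero]; exact hδ)).1
  have hfn : 0 < ‖f 0‖ := norm_pos_iff.mpr hfne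
  obtain ⟨g, hg, hgz, hg1, hg2, hg3⟩ := jd_FJ_log hδ hM0 hfd hfl
  have hDδ : 0 < (D : ℝ) * δ ^ 2 := by positivity
  have hMD1 : M ≤ 1 / 1000 * D * δ ^ 2 := by
    refine hMc.trans ?_
    rw [mul_assoc, mul_assoc]
    apply mul_le_mul_of_nonneg_right _ hDδ.le
    nlinarith
  obtain ⟨φ₀, hφ₀, hsad⟩ := jd_FJ_sad hδ hδ4 hM0 hD0 hMD1 hg hg2 hg3
  -- size of `φ₀`
  have hφκ : 16 * M / (δ * D) ≤ κ * δ / 1000 := by
    rw [div_le_iff₀ (by positivity)]
    have h5 : 16 * M ≤ 16 * (κ ^ 2 / 10 ^ 6 * D * δ ^ 2) := by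
      have h6 : c₀ * D * δ ^ 2 ≤ κ ^ 2 / 10 ^ 6 * D * δ ^ 2 := by
        rw [mul_assoc, mul_assoc]
        exact mul_le_mul_of_nonneg_right hc1 hDδ.le
      linarith
    have h7 : 16 * (κ ^ 2 / 10 ^ 6 * D * δ ^ 2) ≤ κ * δ / 1000 * (δ * D) := by
      have h8 : κ ^ 2 / 10 ^ 6 * 16 ≤ κ / 1000 := by linarith
      have h9 := mul_le_mul_of_nonneg_right h8 hDδ.le
      linarith
    linarith
  have hφκ2 : ‖φ₀‖ ≤ κ * δ / 1000 := hφ₀.trans hφκ
  set p : ℝ := φ₀.re with hp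
  set q : ℝ := φ₀.im with hq
  have hpb : |p| ≤ κ * δ / 1000 := (Complex.abs_re_le_norm φ₀).trans hφκ2
  have hqb : |q| ≤ κ * δ / 1000 := (Complex.abs_im_le_norm φ₀).trans hφκ2
  have hκδ : 0 < κ * δ := by positivity
  have hκδ16 : κ * δ ≤ δ / 16 := by nlinarith
  have hpq : φ₀ = (p : ℂ) + q * I := (Complex.re_add_im φ₀).symm
  set h0 : ℂ := D * (cexp (φ₀ * I) - 1 - φ₀ * I) + g φ₀ with hh0
  have hh0b : ‖h0‖ ≤ 320 * (M ^ 2 / (D * δ ^ 2)) := by
    have hn : ‖φ₀ * I‖ = ‖φ₀‖ := by rw [norm_mul, Complex.norm_I, mul_one]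
    have k1 : ‖cexp (φ₀ * I) - 1 - φ₀ * I‖ ≤ ‖φ₀‖ ^ 2 := by
      have := Complex.norm_exp_sub_one_sub_id_le (x := φ₀ * I) (by rw [hn]; linarith)
      rwa [hn] at this
    have k2 := hg1 φ₀ (by linarith)
    have k3 : ‖φ₀‖ ^ 2 ≤ (16 * M / (δ * D)) ^ 2 := pow_le_pow_left₀ (norm_nonneg _) hφ₀ 2
    rw [hh0]
    refine (norm_add_le _ _).trans ?_
    rw [norm_mul, Complex.norm_natCast]
    have k4 : (D : ℝ) * ‖cexp (φ₀ * I) - 1 - φ₀ * I‖ ≤ D * (16 * M / (δ * D)) ^ 2 :=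
      mul_le_mul_of_nonneg_left (k1.trans k3) hD0.le
    have k5 : 4 * M * ‖φ₀‖ / δ ≤ 4 * M * (16 * M / (δ * D)) / δ := by
      apply div_le_div_of_nonneg_right _ hδ.le
      exact mul_le_mul_of_nonneg_left hφ₀ (by positivity)
    have k6 : (D : ℝ) * (16 * M / (δ * D)) ^ 2 + 4 * M * (16 * M / (δ * D)) / δ =
        320 * (M ^ 2 / (D * δ ^ 2)) := by
      field_simp
      ring
    linarith
  have hMx : M ^ 2 / (D * δ ^ 2) ≤ c₀ ^ 2 * (D * δ ^ 2) := by
    rw [div_le_iff₀ hDδ]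
    have : M ^ 2 ≤ (c₀ * D * δ ^ 2) ^ 2 := pow_le_pow_left₀ hM0.le hMc 2
    refine this.trans (le_of_eq ?_)
    ring
  -- `D δ²` is large
  have hx1 : 1 ≤ c₀ * (D * δ ^ 2) := by
    rw [← mul_assoc]; linarith
  have hx2 : 10 ^ 6 * Nl ≤ κ ^ 2 * (D * δ ^ 2) := by
    rw [hc₀, div_mul_eq_mul_div, le_div_iff₀ (by positivity), one_mul] at hx1
    exact hx1
  set K : ℂ → ℂ := fun φ => kD D φ * f φ with hK
  have hkd : Differentiable ℂ (kD D) := by
    unfold kD
    fun_prop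
  have hKd : Differentiable ℂ K := hkd.mul hfd
  have hKper : ∀ z, K (z + 2 * Real.pi) = K z := by
    intro z
    have e1 : cexp ((z + 2 * Real.pi) * I) = cexp (z * I) := by
      rw [add_mul, Complex.exp_add, Complex.exp_two_pi_mul_I, mul_one]
    have e2 : kD D (z + 2 * Real.pi) = kD D z := by
      unfold kD
      rw [e1]
      have e3 : (D : ℂ) * (cexp (z * I) - 1 - (z + 2 * Real.pi) * I) =
          D * (cexp (z * I) - 1 - z * I) - D * (2 * Real.pi * I) := by ring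
      rw [e3, Complex.exp_sub, Complex.exp_nat_mul_two_pi_mul_I, div_one]
    have e4 : f (z + 2 * Real.pi) = f z := by
      simp only [hf]
      rw [e1]
    rw [hK]
    show kD D (z + 2 * Real.pi) * f (z + 2 * Real.pi) = kD D z * f z
    rw [e2, e4]
  have hshift := jd_FJ_shift hKd hKper q
  have hcont : Continuous fun θ : ℝ => K (θ + q * I) := hKd.continuous.comp (by fun_prop)
  have hpi := Real.pi_gt_three
  have hint : ∀ a b : ℝ, IntervalIntegrable (fun θ : ℝ => K (θ + q * I)) volume a b :=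
    fun a b => hcont.intervalIntegrable a b
  -- the near part
  set near : ℂ := ∫ θ in (p - κ * δ)..(p + κ * δ), K (θ + q * I) with hnr
  have hKs : ∀ s : ℝ, |s| ≤ κ * δ → ∃ E : ℂ, ‖E‖ ≤ 2 * κ * D * s ^ 2 ∧
      K (φ₀ + s) = f 0 * cexp h0 * cexp (-(D * (s : ℂ) ^ 2 / 2) + E) := by
    intro s hs
    obtain ⟨E, hE, hE2⟩ := jd_FJ_tay (D := D) hδ hδ4 hD0 hκ0 hκ16 (by
        have h6 : c₀ * D * δ ^ 2 ≤ κ ^ 2 / 10 ^ 6 * D * δ ^ 2 := by
          rw [mul_assoc, mul_assoc]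
          exact mul_le_mul_of_nonneg_right hc1 hDδ.le
        have h7 : 64 * (κ ^ 2 / 10 ^ 6) ≤ κ := by linarith
        have h8 := mul_le_mul_of_nonneg_right h7 hDδ.le
        linarith) hg hg3 (by linarith) hsad s hs
    refine ⟨E, hE, ?_⟩
    have hmem : φ₀ + s ∈ ball (0 : ℂ) δ := by
      rw [mem_ball_zero_iff]
      refine lt_of_le_of_lt (norm_add_le _ _) ?_
      rw [Complex.norm_real, Real.norm_eq_abs]
      linarith
    rw [hK]
    show kD D (φ₀ + s) * f (φ₀ + s) = _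
    rw [hgz _ hmem]
    unfold kD
    have e1 : cexp ((D : ℂ) * (cexp ((φ₀ + s) * I) - 1 - (φ₀ + s) * I)) * (f 0 * cexp (g (φ₀ + s))) =
        f 0 * cexp ((D : ℂ) * (cexp ((φ₀ + s) * I) - 1 - (φ₀ + s) * I) + g (φ₀ + s)) := by
      rw [Complex.exp_add]; ring
    rw [e1]
    push_cast at hE2
    rw [hE2, mul_assoc, ← Complex.exp_add]
    congr 2
    rw [hh0]
    ring
  have hnear1 : near = ∫ s in (-(κ * δ))..(κ * δ), K (φ₀ + s) := by
    rw [hnr]
    have e1 : ∀ s : ℝ, K (φ₀ + s) = (fun θ : ℝ => K (θ + q * I)) (p + s) := by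
      intro s
      show K (φ₀ + s) = K (((p + s : ℝ) : ℂ) + q * I)
      have e2 : φ₀ + (s : ℂ) = ((p + s : ℝ) : ℂ) + q * I := by
        have e3 : φ₀ + (s : ℂ) = (p + q * I) + (s : ℂ) := congrArg (fun z : ℂ => z + (s : ℂ)) hpq
        rw [e3, Complex.ofReal_add]
        ring
      exact congrArg K e2
    simp only [e1]
    rw [intervalIntegral.integral_comp_add_left (fun θ : ℝ => K (θ + q * I)) p]
    congr 1
  have hsD : 0 < Real.sqrt D := Real.sqrt_pos.mpr hD0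
  have hexp0 : ‖cexp h0‖ = Real.exp h0.re := Complex.norm_exp h0
  have hnlow : ‖f 0‖ * Real.exp h0.re / Real.sqrt D ≤ ‖near‖ := by
    set N' : ℝ := 16 * (κ * δ) ^ 2 * D with hN'
    have hN'l : Nl ≤ N' := by
      have e : N' = 16 * (κ ^ 2 * (D * δ ^ 2)) := by rw [hN']; ring
      rw [e]
      linarith
    have hN'0 : 0 < N' := by linarith
    set Q : ℝ → ℂ := fun u => K (φ₀ + (4 * (κ * δ) * u : ℝ)) / (f 0 * cexp h0) with hQ
    have hfe : f 0 * cexp h0 ≠ 0 := mul_ne_zero hfne (Complex.exp_ne_zero _)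
    have hQc : Continuous Q := by
      rw [hQ]
      exact (hKd.continuous.comp (by fun_prop)).div_const _
    have h5 := hlap N' hN'l Q (hQc.intervalIntegrable _ _) (by
      intro u hu
      have hs : |4 * (κ * δ) * u| ≤ κ * δ := by
        rw [abs_mul, abs_of_pos (by positivity : 0 < 4 * (κ * δ))]
        nlinarith
      obtain ⟨E, hE, hE2⟩ := hKs _ hs
      refine ⟨E, ?_, ?_⟩
      · refine hE.trans ?_
        have e1 : 2 * κ * D * (4 * (κ * δ) * u) ^ 2 = 2 * κ * N' * u ^ 2 := by rw [hN']; ring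
        rw [e1]
        have : 0 ≤ N' * u ^ 2 := by positivity
        nlinarith
      · rw [hQ]
        show K (φ₀ + (4 * (κ * δ) * u : ℝ)) / (f 0 * cexp h0) = _
        rw [hE2, mul_div_cancel_left₀ _ hfe]
        congr 2
        rw [hN']
        push_cast
        ring)
    have h6 : near = (4 * (κ * δ) : ℝ) * (f 0 * cexp h0) * ∫ u in (-(1 / 4) : ℝ)..(1 / 4), Q u := by
      rw [hnear1, hQ]
      have h7 := intervalIntegral.integral_comp_mul_left (fun s : ℝ => K (φ₀ + s))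
        (a := -(1 / 4)) (b := 1 / 4) (c := 4 * (κ * δ)) (by positivity)
      simp only at h7 ⊢
      rw [intervalIntegral.integral_div]
      have e1 : 4 * (κ * δ) * (-(1 / 4)) = -(κ * δ) := by ring
      have e2 : 4 * (κ * δ) * (1 / 4) = κ * δ := by ring
      rw [e1, e2] at h7
      rw [h7, Complex.real_smul]
      have h8 : ((4 * (κ * δ) : ℝ) : ℂ) ≠ 0 := by
        have : (4 * (κ * δ) : ℝ) ≠ 0 := by positivity
        exact_mod_cast this
      rw [Complex.ofReal_inv, mul_assoc, mul_div_cancel₀ _ hfe, mul_inv_cancel_left₀ h8]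
    rw [h6, norm_mul, norm_mul, Complex.norm_real, Real.norm_of_nonneg (by positivity), norm_mul,
      hexp0]
    have h9 : Real.sqrt N' = 4 * (κ * δ) * Real.sqrt D := by
      rw [hN', Real.sqrt_mul (by positivity)]
      congr 1
      have : (16 : ℝ) * (κ * δ) ^ 2 = (4 * (κ * δ)) ^ 2 := by ring
      rw [this, Real.sqrt_sq (by positivity)]
    rw [h9] at h5
    have h10 : 4 * (κ * δ) * (‖f 0‖ * Real.exp h0.re) * (1 / (4 * (κ * δ) * Real.sqrt D)) ≤
        4 * (κ * δ) * (‖f 0‖ * Real.exp h0.re) * ‖∫ u in (-(1 / 4) : ℝ)..(1 / 4), Q u‖ :=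
      mul_le_mul_of_nonneg_left h5 (by positivity)
    refine le_trans (le_of_eq ?_) h10
    field_simp
  have hnup : ‖near‖ ≤ 4 * (‖f 0‖ * Real.exp h0.re / Real.sqrt D) := by
    rw [hnear1]
    have hb : ∀ s ∈ Set.Ioc (-(κ * δ)) (κ * δ), ‖K (φ₀ + s)‖ ≤
        ‖f 0‖ * Real.exp h0.re * Real.exp (-(D / 4) * s ^ 2) := by
      intro s hs
      obtain ⟨E, hE, hE2⟩ := hKs s (abs_le.mpr ⟨hs.1.le, hs.2⟩)
      rw [hE2, norm_mul, norm_mul, hexp0, Complex.norm_exp]
      apply mul_le_mul_of_nonneg_left _ (by positivity)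
      apply Real.exp_le_exp.mpr
      have e1 : (-((D : ℂ) * (s : ℂ) ^ 2 / 2) + E).re = -(D * s ^ 2 / 2) + E.re := by
        have : -((D : ℂ) * (s : ℂ) ^ 2 / 2) = ((-(D * s ^ 2 / 2) : ℝ) : ℂ) := by push_cast; ring
        rw [Complex.add_re, this, Complex.ofReal_re]
      rw [e1]
      have h5 := (Complex.re_le_norm E).trans hE
      have h6 : 0 ≤ (D : ℝ) * s ^ 2 := by positivity
      nlinarith
    have hgi : IntervalIntegrable
        (fun s : ℝ => ‖f 0‖ * Real.exp h0.re * Real.exp (-(D / 4) * s ^ 2)) volume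
        (-(κ * δ)) (κ * δ) := Continuous.intervalIntegrable (by fun_prop) _ _
    have h5 := intervalIntegral.norm_integral_le_of_norm_le (by linarith : -(κ * δ) ≤ κ * δ)
      (Filter.Eventually.of_forall hb) hgi
    refine h5.trans ?_
    rw [intervalIntegral.integral_const_mul]
    have h6 := jd_FJ_gauss (c := D / 4) (by positivity) (by linarith : -(κ * δ) ≤ κ * δ)
    have h7 : Real.sqrt (Real.pi / (D / 4)) ≤ 4 / Real.sqrt D := by
      rw [Real.sqrt_le_left (by positivity), div_pow, Real.sq_sqrt hD0.le, div_le_div_iff₀ (by positivity) hD0]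
      have := Real.pi_lt_four
      nlinarith
    calc ‖f 0‖ * Real.exp h0.re * ∫ x in (-(κ * δ))..(κ * δ), Real.exp (-(D / 4) * x ^ 2)
        ≤ ‖f 0‖ * Real.exp h0.re * (4 / Real.sqrt D) :=
          mul_le_mul_of_nonneg_left (h6.trans h7) (by positivity)
      _ = _ := by ring
  -- the tails
  have htail : ∀ θ : ℝ, |θ| ≤ Real.pi → κ * δ / 2 ≤ |θ| → ‖K (θ + q * I)‖ ≤
      ‖f 0‖ * Real.exp (-(D * (κ * δ) ^ 2 / 160)) * Real.exp (-(D / 40) * θ ^ 2) := by
    intro θ hθ1 hθ2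
    have hq3 : |q| ≤ δ / 2 := by linarith
    obtain ⟨a1, a2, a3⟩ := jd_FJ_pt (θ := θ) hδ hδ4 hq3
    have k1 := jd_FJ_ker D hθ1 (by linarith : |q| ≤ 1 / 2)
    have k2 := hann (ω₀ * cexp ((θ + q * I) * I))
      (by rw [norm_mul, mul_comm]; exact mul_le_mul_of_nonneg_left a1 hωn.le)
      (by rw [norm_mul, mul_comm (1 + δ)]; exact mul_le_mul_of_nonneg_left a2 hωn.le)
    rw [mul_div_cancel_left₀ _ hω₀] at k2
    have k3 : ‖f (θ + q * I)‖ ≤ Real.exp (M * (1 + (2 * |q| + |θ|) / δ)) * ‖f 0‖ := by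
      rw [hf0e]
      refine k2.trans ?_
      apply mul_le_mul_of_nonneg_right _ (norm_nonneg _)
      apply Real.exp_le_exp.mpr
      apply mul_le_mul_of_nonneg_left _ hM0.le
      have := div_le_div_of_nonneg_right a3 hδ.le
      linarith
    rw [hK]
    show ‖kD D (θ + q * I) * f (θ + q * I)‖ ≤ _
    rw [norm_mul]
    have k4 := mul_le_mul k1 k3 (norm_nonneg _) (Real.exp_pos _).le
    refine k4.trans ?_
    have k5 : Real.exp (D * (q ^ 2 - θ ^ 2 / Real.pi ^ 2)) *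
        (Real.exp (M * (1 + (2 * |q| + |θ|) / δ)) * ‖f 0‖) = ‖f 0‖ *
        Real.exp (D * (q ^ 2 - θ ^ 2 / Real.pi ^ 2) + M * (1 + (2 * |q| + |θ|) / δ)) := by
      rw [Real.exp_add]; ring
    rw [k5, mul_assoc, ← Real.exp_add]
    apply mul_le_mul_of_nonneg_left _ (norm_nonneg _)
    apply Real.exp_le_exp.mpr
    -- the exponent
    have hθ0 : 0 < |θ| := by linarith
    have hqθ : |q| ≤ |θ| / 500 := by linarith
    have m1 : q ^ 2 ≤ θ ^ 2 / 250000 := by
      rw [← sq_abs q, ← sq_abs θ]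
      have := pow_le_pow_left₀ (abs_nonneg q) hqθ 2
      refine this.trans (le_of_eq ?_)
      ring
    have m2 : (κ * δ) ^ 2 ≤ 4 * θ ^ 2 := by
      rw [← sq_abs θ]
      have := pow_le_pow_left₀ (by positivity) hθ2 2
      nlinarith
    have m3 : θ ^ 2 / 10 ≤ θ ^ 2 / Real.pi ^ 2 := by
      apply div_le_div_of_nonneg_left (by positivity) (by positivity)
      have := Real.pi_lt_d2
      nlinarith
    have hMκ : M ≤ D * (κ * δ) ^ 2 / 10 ^ 6 := by
      have h6 : c₀ * D * δ ^ 2 ≤ κ ^ 2 / 10 ^ 6 * D * δ ^ 2 := by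
        rw [mul_assoc, mul_assoc]
        exact mul_le_mul_of_nonneg_right hc1 hDδ.le
      have h7 : κ ^ 2 / 10 ^ 6 * D * δ ^ 2 = D * (κ * δ) ^ 2 / 10 ^ 6 := by ring
      linarith
    have m4 : M ≤ D * θ ^ 2 / 250000 := by
      have := mul_le_mul_of_nonneg_left m2 hD0.le
      linarith
    have m5 : M * ((2 * |q| + |θ|) / δ) ≤ D * θ ^ 2 / 1000 := by
      have n1 : (2 * |q| + |θ|) / δ ≤ 2 * |θ| / δ := by
        apply div_le_div_of_nonneg_right _ hδ.le
        linarith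
      have n2 : M * ((2 * |q| + |θ|) / δ) ≤ (D * (κ * δ) ^ 2 / 10 ^ 6) * (2 * |θ| / δ) :=
        mul_le_mul hMκ n1 (by positivity) (by positivity)
      have n3 : (D * (κ * δ) ^ 2 / 10 ^ 6) * (2 * |θ| / δ) =
          D * |θ| * (κ * (κ * δ)) / 500000 := by
        field_simp
        ring
      have n4 : κ * (κ * δ) ≤ 2 * |θ| := by
        have : κ * (κ * δ) ≤ 1 * (κ * δ) := mul_le_mul_of_nonneg_right (by linarith) hκδ.le
        linarith
      have n5 : D * |θ| * (κ * (κ * δ)) ≤ D * |θ| * (2 * |θ|) :=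
        mul_le_mul_of_nonneg_left n4 (by positivity)
      have n6 : D * |θ| * (2 * |θ|) = 2 * (D * θ ^ 2) := by
        rw [← sq_abs θ]; ring
      have n7 : 0 ≤ (D : ℝ) * θ ^ 2 := by positivity
      linarith
    have m6 := mul_le_mul_of_nonneg_left m1 hD0.le
    have m7 := mul_le_mul_of_nonneg_left m3 hD0.le
    have m8 := mul_le_mul_of_nonneg_left m2 hD0.le
    have m9 : 0 ≤ (D : ℝ) * θ ^ 2 := by positivity
    have m10 : D * (q ^ 2 - θ ^ 2 / Real.pi ^ 2) + M * (1 + (2 * |q| + |θ|) / δ) =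
        D * q ^ 2 - D * (θ ^ 2 / Real.pi ^ 2) + M + M * ((2 * |q| + |θ|) / δ) := by ring
    rw [m10]
    linarith
  have htail2 : ∀ a b : ℝ, a ≤ b → (∀ θ ∈ Set.Ioc a b, |θ| ≤ Real.pi ∧ κ * δ / 2 ≤ |θ|) →
      ‖∫ θ in a..b, K (θ + q * I)‖ ≤
        12 * (‖f 0‖ * Real.exp (-(D * (κ * δ) ^ 2 / 160)) / Real.sqrt D) := by
    intro a b hab hθ
    have hgi : IntervalIntegrable
        (fun θ : ℝ => ‖f 0‖ * Real.exp (-(D * (κ * δ) ^ 2 / 160)) * Real.exp (-(D / 40) * θ ^ 2))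
        volume a b := Continuous.intervalIntegrable (by fun_prop) _ _
    have h5 := intervalIntegral.norm_integral_le_of_norm_le hab
      (f := fun θ : ℝ => K (θ + q * I))
      (Filter.Eventually.of_forall fun θ hθm => htail θ (hθ θ hθm).1 (hθ θ hθm).2) hgi
    refine h5.trans ?_
    rw [intervalIntegral.integral_const_mul]
    have h6 := jd_FJ_gauss (c := D / 40) (by positivity) hab
    have h7 : Real.sqrt (Real.pi / (D / 40)) ≤ 12 / Real.sqrt D := by
      rw [Real.sqrt_le_left (by positivity), div_pow, Real.sq_sqrt hD0.le,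
        div_le_div_iff₀ (by positivity) hD0]
      have := Real.pi_lt_d2
      nlinarith
    calc ‖f 0‖ * Real.exp (-(D * (κ * δ) ^ 2 / 160)) * ∫ x in a..b, Real.exp (-(D / 40) * x ^ 2)
        ≤ ‖f 0‖ * Real.exp (-(D * (κ * δ) ^ 2 / 160)) * (12 / Real.sqrt D) :=
          mul_le_mul_of_nonneg_left (h6.trans h7) (by positivity)
      _ = _ := by ring
  obtain ⟨hp1, hp2⟩ := abs_le.mp hpb
  have ht1 := htail2 (-Real.pi) (p - κ * δ) (by linarith) (by
    intro θ hθ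
    have h5 : θ ≤ -(κ * δ / 2) := by linarith [hθ.2]
    have h6 : |θ| = -θ := abs_of_neg (by linarith)
    rw [h6]
    exact ⟨by linarith [hθ.1], by linarith⟩)
  have ht2 := htail2 (p + κ * δ) Real.pi (by linarith) (by
    intro θ hθ
    have h5 : κ * δ / 2 ≤ θ := by linarith [hθ.1]
    have h6 : |θ| = θ := abs_of_pos (by linarith)
    rw [h6]
    exact ⟨hθ.2, h5⟩)
  set I₁ : ℂ := ∫ θ in (-Real.pi)..Real.pi, K θ with hI₁
  have hsplit : I₁ = (∫ θ in (-Real.pi)..(p - κ * δ), K (θ + q * I)) + near +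
      ∫ θ in (p + κ * δ)..Real.pi, K (θ + q * I) := by
    have e1 := intervalIntegral.integral_add_adjacent_intervals
      (hint (-Real.pi) (p - κ * δ)) (hint (p - κ * δ) (p + κ * δ))
    have e2 := intervalIntegral.integral_add_adjacent_intervals
      (hint (-Real.pi) (p + κ * δ)) (hint (p + κ * δ) Real.pi)
    rw [hnr, e1, e2]
    exact hshift
  -- the tails are small
  have hsmall : 48 * Real.exp (-(D * (κ * δ) ^ 2 / 160)) ≤ Real.exp h0.re := by
    have k1 : -(κ ^ 2 * (D * δ ^ 2) / 1000) ≤ h0.re := by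
      have k2 : -‖h0‖ ≤ h0.re := (abs_le.mp (Complex.abs_re_le_norm h0)).1
      have k3 : ‖h0‖ ≤ κ ^ 2 * (D * δ ^ 2) / 1000 := by
        refine hh0b.trans ?_
        have k4 : c₀ ^ 2 ≤ κ ^ 2 / 10 ^ 6 := by
          have : c₀ ≤ 1 := by nlinarith
          nlinarith
        have k5 := mul_le_mul_of_nonneg_right k4 hDδ.le
        linarith
      linarith
    have k6 : (48 : ℝ) ≤ Real.exp (h0.re + D * (κ * δ) ^ 2 / 160) := by
      have k7 := Real.add_one_le_exp (h0.re + D * (κ * δ) ^ 2 / 160)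
      have k8 : D * (κ * δ) ^ 2 / 160 = κ ^ 2 * (D * δ ^ 2) / 160 := by ring
      rw [k8] at k7 ⊢
      linarith
    calc 48 * Real.exp (-(D * (κ * δ) ^ 2 / 160))
        ≤ Real.exp (h0.re + D * (κ * δ) ^ 2 / 160) * Real.exp (-(D * (κ * δ) ^ 2 / 160)) :=
          mul_le_mul_of_nonneg_right k6 (Real.exp_pos _).le
      _ = Real.exp h0.re := by
          rw [← Real.exp_add]; congr 1; ring
  set A : ℝ := ‖f 0‖ * Real.exp h0.re / Real.sqrt D with hA
  have hA0 : 0 < A := by positivity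
  have htA : 24 * (‖f 0‖ * Real.exp (-(D * (κ * δ) ^ 2 / 160)) / Real.sqrt D) ≤ A / 2 := by
    rw [hA]
    have := mul_le_mul_of_nonneg_left hsmall (by positivity : 0 ≤ ‖f 0‖ / (2 * Real.sqrt D))
    refine le_trans (le_of_eq ?_) (this.trans (le_of_eq ?_))
    · field_simp
      ring
    · field_simp
  have hIlow : A / 2 ≤ ‖I₁‖ := by
    have k1 : ‖near‖ ≤ ‖I₁‖ + ‖∫ θ in (-Real.pi)..(p - κ * δ), K (θ + q * I)‖ +
        ‖∫ θ in (p + κ * δ)..Real.pi, K (θ + q * I)‖ := by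
      have e : near = I₁ - (∫ θ in (-Real.pi)..(p - κ * δ), K (θ + q * I)) -
          ∫ θ in (p + κ * δ)..Real.pi, K (θ + q * I) := by rw [hsplit]; ring
      conv_lhs => rw [e]
      refine (norm_sub_le _ _).trans ?_
      have := norm_sub_le I₁ (∫ θ in (-Real.pi)..(p - κ * δ), K (θ + q * I))
      linarith
    linarith
  have hIup : ‖I₁‖ ≤ 5 * A := by
    rw [hsplit]
    refine (norm_add_le _ _).trans ?_
    have := norm_add_le (∫ θ in (-Real.pi)..(p - κ * δ), K (θ + q * I)) near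
    linarith
  -- conclusion
  have hrep : Hd D F ω₀ = cD D * I₁ := by
    rw [h2 D F ω₀ hD1 hF, hI₁]
  obtain ⟨hcl, hcu⟩ := hcD D hD1
  have hcD0 : 0 < cD D := lt_of_lt_of_le (by positivity) hcl
  have hI0 : 0 < ‖I₁‖ := lt_of_lt_of_le (by positivity) hIlow
  have hHn : ‖Hd D F ω₀‖ = cD D * ‖I₁‖ := by
    rw [hrep, norm_mul, Complex.norm_real, Real.norm_of_nonneg hcD0.le]
  refine ⟨?_, ?_⟩
  · rw [← norm_pos_iff, hHn]
    positivity
  have hre : |h0.re| ≤ 320 * (M ^ 2 / (D * δ ^ 2)) := (Complex.abs_re_le_norm h0).trans hh0b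
  have hlogA : Real.log A = Real.log ‖f 0‖ + h0.re - Real.log (Real.sqrt D) := by
    rw [hA, Real.log_div (by positivity) hsD.ne', Real.log_mul hfn.ne' (Real.exp_pos _).ne',
      Real.log_exp]
  have hlogI1 : Real.log A - Real.log 2 ≤ Real.log ‖I₁‖ := by
    rw [← Real.log_div hA0.ne' (by norm_num)]
    exact Real.log_le_log (by positivity) hIlow
  have hlogI2 : Real.log ‖I₁‖ ≤ Real.log 5 + Real.log A := by
    rw [← Real.log_mul (by norm_num) hA0.ne']
    exact Real.log_le_log hI0 hIup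
  have hlogc1 : Real.log (Real.sqrt D) - Real.log CD ≤ Real.log (cD D) := by
    rw [← Real.log_div hsD.ne' hCD0.ne']
    exact Real.log_le_log (by positivity) hcl
  have hlogc2 : Real.log (cD D) ≤ Real.log CD + Real.log (Real.sqrt D) := by
    rw [← Real.log_mul hCD0.ne' hsD.ne']
    exact Real.log_le_log hcD0 hcu
  have hlog10 : Real.log (10 * CD) = Real.log 2 + Real.log 5 + Real.log CD := by
    have e : Real.log (10 : ℝ) = Real.log 2 + Real.log 5 := by
      rw [← Real.log_mul (by norm_num : (2 : ℝ) ≠ 0) (by norm_num : (5 : ℝ) ≠ 0)]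
      norm_num
    rw [Real.log_mul (by norm_num : (10 : ℝ) ≠ 0) hCD0.ne', e]
  have hlog2 : 0 ≤ Real.log 2 := Real.log_nonneg (by norm_num)
  have hlog5 : 0 ≤ Real.log 5 := Real.log_nonneg (by norm_num)
  have hlogCD : 0 ≤ Real.log CD := Real.log_nonneg hCD1
  rw [hHn, Real.log_mul hcD0.ne' hI0.ne', ← hf0e]
  have hx0 : 0 ≤ M ^ 2 / (D * δ ^ 2) := by positivity
  obtain ⟨r1, r2⟩ := abs_le.mp hre
  have hfin : 320 * (M ^ 2 / (D * δ ^ 2)) + Real.log (10 * CD) ≤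
      (320 + Real.log (10 * CD)) * (M ^ 2 / (D * δ ^ 2) + 1) := by
    have : 0 ≤ Real.log (10 * CD) * (M ^ 2 / (D * δ ^ 2)) := by
      rw [hlog10]; positivity
    nlinarith
  rw [abs_le]
  constructor <;> linarith

end Pool.Agent.Lib.MP_cd509c_nt.JD
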