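import Pool.Agent.Lib.MP_cd509c_nt.JD.StmK

set_option autoImplicit false

/-!
Project JD, piece FR: regularity of `ff` far from the axis (helper22).
-/

namespace Pool.Agent.Lib.MP_cd509c_nt.JD

open Complex ComplexConjugate MeasureTheory
open Pool.Agent.Lib.MP_cd509c_nt.DN

theorem FR_norm6 {u : ℂ} (hu : 0 ≤ u.re) : ‖u‖ ≤ ‖6 + u‖ := by
  rw [← sq_le_sq₀ (norm_nonneg _) (norm_nonneg _), ← Complex.normSq_eq_norm_sq,
    ← Complex.normSq_eq_norm_sq, Complex.normSq_apply, Complex.normSq_apply]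
  simp only [Complex.add_re, Complex.add_im]
  norm_num
  nlinarith

theorem FR_rc {s : ℂ} (hs : 0 ≤ s.re) (h10 : Real.exp 10 ≤ ‖s‖) :
    ‖rc (6 + s)‖ ≤ 2 * Real.log ‖s‖ := by
  have h11 : (11 : ℝ) ≤ Real.exp 10 := by
    have := Real.add_one_le_exp (10 : ℝ)
    linarith
  have hs0 : 0 < ‖s‖ := by linarith
  have hL : 10 ≤ Real.log ‖s‖ := by
    rw [Real.le_log_iff_exp_le hs0]
    exact h10
  have h6 := FR_norm6 hs
  have h6' : ‖6 + s‖ ≤ 2 * ‖s‖ := by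
    calc ‖6 + s‖ ≤ ‖(6 : ℂ)‖ + ‖s‖ := norm_add_le _ _
      _ = 6 + ‖s‖ := by norm_num
      _ ≤ _ := by linarith
  have e1 : Real.log ‖6 + s‖ ≤ Real.log ‖s‖ + Real.log 2 := by
    rw [← Real.log_mul hs0.ne' (by norm_num)]
    exact Real.log_le_log (by linarith) (by linarith)
  have e2 : 0 ≤ Real.log ‖6 + s‖ := Real.log_nonneg (by linarith)
  have hlog2 : Real.log 2 ≤ 0.7 := by
    have := Real.log_two_lt_d9; linarith
  have hpi1 := Real.pi_gt_three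
  have hpi2 := Real.pi_lt_d2
  have e3 : 0 ≤ Real.log (2 * Real.pi) := Real.log_nonneg (by linarith)
  have e4 : Real.log (2 * Real.pi) ≤ 2 := by
    rw [Real.log_le_iff_le_exp (by positivity)]
    have h1 : (2.7182818283 : ℝ) < Real.exp 1 := Real.exp_one_gt_d9
    have h2 : Real.exp 2 = Real.exp 1 * Real.exp 1 := by rw [← Real.exp_add]; norm_num
    rw [h2]
    nlinarith
  have e5 : ‖Complex.log (6 + s)‖ ≤ Real.log ‖6 + s‖ + Real.pi := by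
    calc ‖Complex.log (6 + s)‖ ≤ |(Complex.log (6 + s)).re| + |(Complex.log (6 + s)).im| :=
          Complex.norm_le_abs_re_add_abs_im _
      _ ≤ Real.log ‖6 + s‖ + Real.pi := by
          rw [Complex.log_re, Complex.log_im, abs_of_nonneg e2]
          have := Complex.abs_arg_le_pi (6 + s)
          linarith
  unfold rc
  calc ‖Complex.log (6 + s) - ((Real.log (2 * Real.pi) : ℝ) : ℂ)‖
      ≤ ‖Complex.log (6 + s)‖ + ‖((Real.log (2 * Real.pi) : ℝ) : ℂ)‖ := norm_sub_le _ _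
    _ = ‖Complex.log (6 + s)‖ + Real.log (2 * Real.pi) := by
        rw [Complex.norm_real, Real.norm_of_nonneg e3]
    _ ≤ _ := by linarith

theorem FR_key (h3 : S_LLf) : ∃ K V₀ : ℝ, 1 ≤ K ∧ 1 ≤ V₀ ∧ ∀ s s' : ℂ, Real.exp 10 ≤ ‖s‖ →
    V₀ ≤ s.re → 0 ≤ s'.re → ‖s‖ ≤ 2 * ‖s'‖ → ‖s'‖ ≤ 2 * ‖s‖ →
    ‖Lam (6 + s')‖ ≤ Real.exp (K * Real.log ‖s‖ * (‖s' - s‖ + 1)) * ‖Lam (6 + s)‖ := by
  obtain ⟨V₀, hV₀, hLL⟩ := h3 1 one_pos
  obtain ⟨C, hC, hLf⟩ := Lf_bound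
  refine ⟨81 * C + 44, V₀, by linarith, hV₀, ?_⟩
  intro s s' h10 hs hs' h12 h21
  have h11 : (11 : ℝ) ≤ Real.exp 10 := by
    have := Real.add_one_le_exp (10 : ℝ)
    linarith
  have h11' : (12 : ℝ) ≤ Real.exp 10 := by
    have h := Real.quadratic_le_exp_of_nonneg (show (0 : ℝ) ≤ 10 by norm_num)
    linarith
  have hs0 : 0 < ‖s‖ := by linarith
  have hL : 10 ≤ Real.log ‖s‖ := by
    rw [Real.le_log_iff_exp_le hs0]
    exact h10
  have hsre : 0 ≤ s.re := by linarith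
  have hrc := FR_rc hsre h10
  have hn1 := FR_norm6 hsre
  have hn2 := FR_norm6 hs'
  set t := s' - s with ht
  have hst : 6 + s + t = 6 + s' := by rw [ht]; ring
  have h4 : ‖6 + s‖ ≤ 4 * ‖6 + s + t‖ := by
    rw [hst]
    calc ‖6 + s‖ ≤ ‖(6 : ℂ)‖ + ‖s‖ := norm_add_le _ _
      _ = 6 + ‖s‖ := by norm_num
      _ ≤ _ := by linarith
  have hre1 : 1 ≤ (6 + s).re := by
    simp only [Complex.add_re]
    norm_num
    linarith
  have hre2 : 0 < (6 + s + t).re := by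
    rw [hst]
    simp only [Complex.add_re]
    norm_num
    linarith
  obtain ⟨g, hg, hq⟩ := Lam_quot hre1 hre2 h4
  have ht3 : ‖t‖ ≤ 3 * ‖6 + s‖ := by
    calc ‖t‖ ≤ ‖s'‖ + ‖s‖ := norm_sub_le _ _
      _ ≤ _ := by linarith
  have hg2 : ‖g‖ ≤ 364 * ‖t‖ := by
    refine hg.trans ?_
    have h6s : 0 < ‖6 + s‖ := by linarith
    rw [div_le_iff₀ h6s]
    have h0 := norm_nonneg t
    have h1 : ‖t‖ ^ 2 ≤ ‖t‖ * (3 * ‖6 + s‖) := by
      rw [sq]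
      exact mul_le_mul_of_nonneg_left ht3 h0
    have h2 : ‖t‖ * 1 ≤ ‖t‖ * ‖6 + s‖ := mul_le_mul_of_nonneg_left (by linarith) h0
    nlinarith
  have hexp : ‖cexp (rc (6 + s) * t + g)‖ ≤ Real.exp (39 * Real.log ‖s‖ * ‖t‖) := by
    rw [Complex.norm_exp, Real.exp_le_exp]
    have h0 := norm_nonneg t
    have h1 : ‖rc (6 + s)‖ * ‖t‖ ≤ 2 * Real.log ‖s‖ * ‖t‖ := mul_le_mul_of_nonneg_right hrc h0
    have h2 : 10 * ‖t‖ ≤ Real.log ‖s‖ * ‖t‖ := mul_le_mul_of_nonneg_right hL h0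
    calc (rc (6 + s) * t + g).re ≤ ‖rc (6 + s) * t + g‖ := Complex.re_le_norm _
      _ ≤ ‖rc (6 + s)‖ * ‖t‖ + ‖g‖ := by
          rw [← norm_mul]
          exact norm_add_le _ _
      _ ≤ _ := by linarith
  have hLfb : ‖Lf (6 + s')‖ ≤ Real.exp ((81 * C + 4) * Real.log ‖s‖) := by
    have h1 : 4 ≤ (6 + s').re := by
      simp only [Complex.add_re]
      norm_num
      linarith
    have h2 : |(6 + s').im| ≤ 2 * ‖s‖ := by
      have h3 : (6 + s').im = s'.im := by simp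
      rw [h3]
      exact (Complex.abs_im_le_norm _).trans h21
    have h5 : (‖s‖ : ℝ) ^ 4 = Real.exp (4 * Real.log ‖s‖) := by
      rw [show 4 * Real.log ‖s‖ = ((4 : ℕ) : ℝ) * Real.log ‖s‖ by norm_num, Real.exp_nat_mul,
        Real.exp_log hs0]
    calc ‖Lf (6 + s')‖ ≤ C * (9 + |(6 + s').im|) ^ 4 := hLf _ h1
      _ ≤ C * (3 * ‖s‖) ^ 4 := by
          gcongr
          linarith
      _ = (81 * C) * ‖s‖ ^ 4 := by ring
      _ ≤ Real.exp (81 * C * Real.log ‖s‖) * Real.exp (4 * Real.log ‖s‖) := by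
          rw [h5]
          gcongr
          have h6 := Real.add_one_le_exp (81 * C * Real.log ‖s‖)
          have h7 : 81 * C * 10 ≤ 81 * C * Real.log ‖s‖ := by gcongr
          linarith
      _ = _ := by
          rw [← Real.exp_add]
          congr 1
          ring
  have hlow : 1 ≤ Real.exp (Real.log ‖s‖) * ‖Lf (6 + s)‖ := by
    have h1 := (hLL s s hs hs).1
    unfold LL at h1
    rw [Real.exp_log hs0]
    nlinarith
  have hLam : ‖Lam (6 + s)‖ = ‖G0 (6 + s)‖ * ‖Lf (6 + s)‖ := by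
    rw [Lam_eq_Lf (by linarith : 0 < (6 + s).re), norm_mul]
    rfl
  have hLam' : ‖Lam (6 + s')‖ = ‖G0 (6 + s)‖ * ‖cexp (rc (6 + s) * t + g)‖ *
      ‖Lf (6 + s')‖ := by
    rw [← hst, hq, norm_mul, norm_mul]
  rw [hLam', hLam]
  calc ‖G0 (6 + s)‖ * ‖cexp (rc (6 + s) * t + g)‖ * ‖Lf (6 + s')‖
      ≤ ‖G0 (6 + s)‖ * Real.exp (39 * Real.log ‖s‖ * ‖t‖) *
          Real.exp ((81 * C + 4) * Real.log ‖s‖) := by gcongr
    _ = ‖G0 (6 + s)‖ * Real.exp (39 * Real.log ‖s‖ * ‖t‖) *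
          Real.exp ((81 * C + 4) * Real.log ‖s‖) * 1 := by ring
    _ ≤ ‖G0 (6 + s)‖ * Real.exp (39 * Real.log ‖s‖ * ‖t‖) *
          Real.exp ((81 * C + 4) * Real.log ‖s‖) *
          (Real.exp (Real.log ‖s‖) * ‖Lf (6 + s)‖) := by gcongr
    _ = Real.exp (39 * Real.log ‖s‖ * ‖t‖ + (81 * C + 4) * Real.log ‖s‖ + Real.log ‖s‖) *
          (‖G0 (6 + s)‖ * ‖Lf (6 + s)‖) := by
        rw [Real.exp_add, Real.exp_add]
        ring
    _ ≤ _ := by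
        gcongr
        have h0 := norm_nonneg t
        have h1 : 0 ≤ Real.log ‖s‖ * ‖t‖ := by positivity
        have h2 : 0 ≤ C * (Real.log ‖s‖ * ‖t‖) := by positivity
        nlinarith

/-- reflection to the lower half plane -/
theorem FR_dn (ω : ℂ) : ∃ W : ℂ, W.im = -|ω.im| ∧ W.re = ω.re ∧ ‖W‖ = ‖ω‖ ∧
    ‖ff W‖ = ‖ff ω‖ := by
  rcases le_total ω.im 0 with h | h
  · exact ⟨ω, by rw [abs_of_nonpos h]; ring, rfl, rfl, rfl⟩
  · refine ⟨conj ω, by rw [abs_of_nonneg h]; simp, by simp, by simp, ?_⟩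
    rw [ff_conj]
    simp

theorem FR_dist {ω ζ W Z : ℂ} (h1 : W.im = -|ω.im|) (h2 : W.re = ω.re) (h3 : Z.im = -|ζ.im|)
    (h4 : Z.re = ζ.re) : ‖W - Z‖ ≤ ‖ω - ζ‖ := by
  rw [← sq_le_sq₀ (norm_nonneg _) (norm_nonneg _), ← Complex.normSq_eq_norm_sq,
    ← Complex.normSq_eq_norm_sq, Complex.normSq_apply, Complex.normSq_apply]
  simp only [Complex.sub_re, Complex.sub_im, h1, h2, h3, h4]
  have h5 : |(|ω.im| - |ζ.im|)| ≤ |ω.im - ζ.im| := abs_abs_sub_abs_le_abs_sub _ _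
  have h6 := sq_le_sq' (by linarith [neg_abs_le (|ω.im| - |ζ.im|)])
    ((le_abs_self _).trans h5)
  rw [sq_abs] at h6
  nlinarith

theorem FR_ne {z ω : ℂ} (h1 : S_rt2) (hz : 1 ≤ |z.im|) (h : ‖ω - z ^ 2‖ ≤ ‖z‖ * |z.im| / 4) :
    ff ω ≠ 0 := by
  have hz1 : |z.im| ≤ ‖z‖ := Complex.abs_im_le_norm _
  have hz0 : 0 < ‖z‖ := by linarith
  have hz2 : z ≠ 0 := norm_pos_iff.mp hz0
  obtain ⟨z', hz', hd, -⟩ := h1 z ω hz2 (by nlinarith)
  have hd2 : ‖z' - z‖ ≤ |z.im| / 7 := by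
    have h3 : ‖ω - z ^ 2‖ / ‖z‖ ≤ |z.im| / 4 := by
      rw [div_le_iff₀ hz0]
      linarith
    linarith
  have him : 1 / 2 < |z'.im| := by
    have h3 : |(z' - z).im| ≤ ‖z' - z‖ := Complex.abs_im_le_norm _
    rw [Complex.sub_im] at h3
    have h4 : |z.im| - |z'.im| ≤ |z.im - z'.im| := abs_sub_abs_le_abs_sub _ _
    rw [abs_sub_comm] at h4
    linarith
  rw [← hz']
  rcases lt_abs.mp him with h5 | h5
  · rw [← neg_sq, ff_sq]
    apply Lam_ne_zero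
    simp
    linarith
  · rw [ff_sq]
    apply Lam_ne_zero
    simp
    linarith

theorem p_FR (h1 : S_rt2) (h2 : S_sg) (h3 : S_LLf) : S_FR := by
  obtain ⟨K, V₀, hK, hV₀, hkey⟩ := FR_key h3
  obtain ⟨sg, sg1, sg2, sg3, sg4⟩ := h2
  have h11 : (11 : ℝ) ≤ Real.exp 10 := by
    have := Real.add_one_le_exp (10 : ℝ)
    linarith
  refine ⟨2 * K, V₀, Real.exp 10, by linarith, hV₀, by linarith, ?_⟩
  intro z hT hV
  have hz0 : 0 < ‖z‖ := by linarith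
  have hL : 10 ≤ Real.log ‖z‖ := by
    rw [Real.le_log_iff_exp_le hz0]
    exact hT
  have him : 1 ≤ |z.im| := hV₀.trans hV
  have hglob : ∀ ω : ℂ, ‖z‖ ^ 2 / 2 ≤ ‖ω‖ → ‖ω‖ ≤ 2 * ‖z‖ ^ 2 →
      ‖ff ω‖ ≤ Real.exp (K * Real.log ‖z‖ * (|z.im| + ‖ω - z ^ 2‖ / ‖z‖)) * ‖ff (z ^ 2)‖ := by
    intro ω hω1 hω2
    obtain ⟨W, W1, W2, W3, W4⟩ := FR_dn ω
    obtain ⟨Z, Z1, Z2, Z3, Z4⟩ := FR_dn (z ^ 2)
    have hWZ := FR_dist W1 W2 Z1 Z2
    have hWim : W.im ≤ 0 := by rw [W1]; linarith [abs_nonneg ω.im]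
    have hZim : Z.im ≤ 0 := by rw [Z1]; linarith [abs_nonneg (z ^ 2).im]
    have hsZ : ‖sg Z‖ = ‖z‖ := by
      have h5 : ‖sg Z‖ ^ 2 = ‖z‖ ^ 2 := by
        rw [← norm_pow, sg1, norm_neg, Z3, norm_pow]
      exact (sq_eq_sq₀ (norm_nonneg _) (norm_nonneg _)).mp h5
    have hsW : ‖sg W‖ ^ 2 = ‖ω‖ := by
      rw [← norm_pow, sg1, norm_neg, W3]
    have hre : V₀ ≤ (sg Z).re := by
      have h5 := (sg3 Z hZim).1
      have h6 : (sg Z).re ^ 2 = |z.im| ^ 2 := by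
        have h7 := congrArg Complex.re (sg1 Z)
        have h8 : ‖sg Z‖ ^ 2 = ‖z‖ ^ 2 := by rw [hsZ]
        rw [← Complex.normSq_eq_norm_sq, ← Complex.normSq_eq_norm_sq, Complex.normSq_apply,
          Complex.normSq_apply] at h8
        rw [sq, Complex.mul_re, Complex.neg_re, Z2, sq, Complex.mul_re] at h7
        rw [sq_abs]
        nlinarith
      have h9 := (sq_eq_sq₀ h5 (abs_nonneg _)).mp h6
      rw [h9]
      exact hV
    have hd1 : ‖sg W - sg Z‖ ≤ ‖ω - z ^ 2‖ / ‖z‖ := by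
      rw [le_div_iff₀ hz0]
      have h5 := sg4 W Z hWim hZim
      have h6 : ‖z‖ ≤ Real.sqrt (‖W‖ + ‖Z‖) := by
        apply Real.le_sqrt_of_sq_le
        rw [Z3, norm_pow]
        linarith [norm_nonneg W]
      calc ‖sg W - sg Z‖ * ‖z‖ ≤ ‖sg W - sg Z‖ * Real.sqrt (‖W‖ + ‖Z‖) := by gcongr
        _ ≤ ‖W - Z‖ := h5
        _ ≤ _ := hWZ
    have h5 : ‖sg Z‖ ≤ 2 * ‖sg W‖ := by
      rw [hsZ]
      rw [← sq_le_sq₀ (norm_nonneg _) (by positivity), mul_pow, hsW]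
      nlinarith
    have h6 : ‖sg W‖ ≤ 2 * ‖sg Z‖ := by
      rw [hsZ]
      rw [← sq_le_sq₀ (norm_nonneg _) (by positivity), mul_pow, hsW]
      nlinarith
    have h7 := hkey (sg Z) (sg W) (by rw [hsZ]; exact hT) hre (sg3 W hWim).1 h5 h6
    rw [← sg2, ← sg2, W4, Z4, hsZ] at h7
    refine h7.trans ?_
    apply mul_le_mul_of_nonneg_right _ (norm_nonneg _)
    rw [Real.exp_le_exp]
    apply mul_le_mul_of_nonneg_left _ (by positivity)
    linarith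
  refine ⟨ff_differentiable, ?_, ?_⟩
  · intro ω hω
    refine ⟨FR_ne h1 him hω, ?_⟩
    have hz1 : |z.im| ≤ ‖z‖ := Complex.abs_im_le_norm _
    have h4 : ‖ω - z ^ 2‖ ≤ ‖z‖ ^ 2 / 4 := by nlinarith
    have h5 : ‖z ^ 2‖ ≤ ‖ω‖ + ‖ω - z ^ 2‖ := by
      calc ‖z ^ 2‖ = ‖ω - (ω - z ^ 2)‖ := by ring_nf
        _ ≤ _ := norm_sub_le _ _
    have h6 : ‖ω‖ ≤ ‖z ^ 2‖ + ‖ω - z ^ 2‖ := by
      calc ‖ω‖ = ‖z ^ 2 + (ω - z ^ 2)‖ := by ring_nf
        _ ≤ _ := norm_add_le _ _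
    rw [norm_pow] at h5 h6
    refine (hglob ω (by linarith) (by linarith)).trans ?_
    apply mul_le_mul_of_nonneg_right _ (norm_nonneg _)
    rw [Real.exp_le_exp]
    have h7 : ‖ω - z ^ 2‖ / ‖z‖ ≤ |z.im| / 4 := by
      rw [div_le_iff₀ hz0]
      linarith
    have h8 : |z.im| + ‖ω - z ^ 2‖ / ‖z‖ ≤ 2 * |z.im| := by linarith
    calc K * Real.log ‖z‖ * (|z.im| + ‖ω - z ^ 2‖ / ‖z‖)
        ≤ K * Real.log ‖z‖ * (2 * |z.im|) := by gcongr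
      _ = _ := by ring
  · intro ω hω1 hω2
    refine (hglob ω hω1 hω2).trans ?_
    apply mul_le_mul_of_nonneg_right _ (norm_nonneg _)
    rw [Real.exp_le_exp]
    apply mul_le_mul_of_nonneg_right _ (by positivity)
    apply mul_le_mul_of_nonneg_right _ (by linarith)
    linarith

end Pool.Agent.Lib.MP_cd509c_nt.JD
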