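import Pool.Agent.Lib.MP_cd509c_nt.JD.Defs

/-!
# Jensen density, piece FRF: members of the family far from the axis, in the annulus
-/

set_option autoImplicit false

namespace Pool.Agent.Lib.MP_cd509c_nt.JD

open Complex ComplexConjugate MeasureTheory

theorem jd_FRF_fac (ζ ω y : ℂ) (r : ℝ) (hr : 0 < r) (h : r ≤ ‖ω - ζ‖) :
    ‖y - ζ‖ ≤ ‖ω - ζ‖ * Real.exp (‖ω - y‖ / r) := by
  have h1 : ‖y - ζ‖ ≤ ‖ω - ζ‖ + ‖ω - y‖ := by
    have h2 : y - ζ = (ω - ζ) - (ω - y) := by ring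
    rw [h2]
    exact norm_sub_le _ _
  have h2 : ‖ω - y‖ / r + 1 ≤ Real.exp (‖ω - y‖ / r) := Real.add_one_le_exp _
  have h3 : ‖ω - y‖ ≤ ‖ω - ζ‖ * (‖ω - y‖ / r) := by
    rw [← mul_div_assoc, le_div_iff₀ hr, mul_comm]
    exact mul_le_mul_of_nonneg_right h (norm_nonneg _)
  have h4 := mul_le_mul_of_nonneg_left h2 (norm_nonneg (ω - ζ))
  linarith

theorem jd_FRF_split (p : ℝ × ℝ) (w : ℂ) : (w - p.1) ^ 2 + (p.2 : ℂ) ^ 2 =
    (w - (p.1 + p.2 * I)) * (w - (p.1 - p.2 * I)) := by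
  have h : (I : ℂ) ^ 2 = -1 := Complex.I_sq
  linear_combination ((p.2 : ℂ) ^ 2) * h

theorem jd_FRF_qp (ω y : ℂ) (r : ℝ) (hr : 0 < r) (s : List (ℝ × ℝ))
    (h : ∀ p ∈ s, r ≤ ‖ω - (p.1 + p.2 * I)‖ ∧ r ≤ ‖ω - (p.1 - p.2 * I)‖) :
    ‖qp s y‖ ≤ ‖qp s ω‖ * Real.exp (2 * s.length * (‖ω - y‖ / r)) ∧ qp s ω ≠ 0 := by
  induction s with
  | nil => simp [qp]
  | cons p s ih =>
    obtain ⟨ih1, ih2⟩ := ih fun q hq => h q (List.mem_cons_of_mem _ hq)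
    obtain ⟨h1, h2⟩ := h p List.mem_cons_self
    have hc : ∀ w, qp (p :: s) w = ((w - (p.1 + p.2 * I)) * (w - (p.1 - p.2 * I))) * qp s w := by
      intro w
      rw [← jd_FRF_split]
      simp [qp]
    constructor
    · rw [hc, hc, norm_mul, norm_mul, norm_mul, norm_mul]
      have h3 := jd_FRF_fac _ ω y r hr h1
      have h4 := jd_FRF_fac _ ω y r hr h2
      have h5 : Real.exp (2 * (p :: s).length * (‖ω - y‖ / r)) =
          Real.exp (‖ω - y‖ / r) * Real.exp (‖ω - y‖ / r) *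
            Real.exp (2 * s.length * (‖ω - y‖ / r)) := by
        rw [← Real.exp_add, ← Real.exp_add]
        congr 1
        rw [List.length_cons]
        push_cast
        ring
      rw [h5]
      calc ‖y - (p.1 + p.2 * I)‖ * ‖y - (p.1 - p.2 * I)‖ * ‖qp s y‖
          ≤ (‖ω - (p.1 + p.2 * I)‖ * Real.exp (‖ω - y‖ / r)) *
            (‖ω - (p.1 - p.2 * I)‖ * Real.exp (‖ω - y‖ / r)) *
            (‖qp s ω‖ * Real.exp (2 * s.length * (‖ω - y‖ / r))) :=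
            mul_le_mul (mul_le_mul h3 h4 (norm_nonneg _) (by positivity)) ih1
              (norm_nonneg _) (by positivity)
        _ = _ := by ring
    · rw [hc]
      refine mul_ne_zero (mul_ne_zero ?_ ?_) ih2
      · exact norm_pos_iff.1 (lt_of_lt_of_le hr h1)
      · exact norm_pos_iff.1 (lt_of_lt_of_le hr h2)

/-- the removed zeros are small -/
theorem jd_FRF_zero (D : ℕ) (hD : 2 ≤ D) (p : ℝ × ℝ) (hp : 0 < p.2 ∧ p.2 ^ 2 ≤ p.1 + 1 / 4 ∧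
    p.1 ^ 2 + p.2 ^ 2 < D * p.2 ^ 2) :
    ‖(p.1 + p.2 * I : ℂ)‖ ≤ 2 * D ∧ ‖(p.1 - p.2 * I : ℂ)‖ ≤ 2 * D := by
  obtain ⟨h1, h2, h3⟩ := hp
  have hD' : (2 : ℝ) ≤ D := by exact_mod_cast hD
  have h4 : p.1 ^ 2 + p.2 ^ 2 ≤ (2 * (D : ℝ)) ^ 2 := by
    have h5 : p.1 ^ 2 + p.2 ^ 2 < D * (p.1 + 1 / 4) :=
      lt_of_lt_of_le h3 (mul_le_mul_of_nonneg_left h2 (by linarith))
    have h6 : p.1 ≤ 2 * D := by
      by_contra hcon
      push Not at hcon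
      nlinarith [sq_nonneg p.2]
    nlinarith [sq_nonneg p.2]
  have h7 : ∀ q : ℝ, q ^ 2 = p.2 ^ 2 → ‖(p.1 + q * I : ℂ)‖ ≤ 2 * D := by
    intro q hq
    rw [Complex.norm_add_mul_I, hq]
    exact Real.sqrt_le_iff.2 ⟨by linarith, h4⟩
  refine ⟨h7 p.2 rfl, ?_⟩
  have h8 := h7 (-p.2) (by ring)
  have h9 : (p.1 + ((-p.2 : ℝ) : ℂ) * I : ℂ) = p.1 - p.2 * I := by
    push_cast
    ring
  rwa [h9] at h8

theorem p_FRF (h1 : S_fam) (h2 : S_FR) : S_FRF := by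
  obtain ⟨C, hC, hfam⟩ := h1
  obtain ⟨C₁, V, T₀, hC₁, hV, hT₀, hFR⟩ := h2
  refine ⟨C₁ + 1, V, max 64 ((100 * C) ^ 2), by linarith, hV, (by norm_num : (16 : ℝ) ≤ 64).trans
    (le_max_left _ _), fun K hK => ⟨max 2 (T₀ ^ 2), fun D s g z hD hg hz1 hz2 hzV => ?_⟩⟩
  have hK1 : 64 ≤ K := (le_max_left _ _).trans hK
  have hK2 : (100 * C) ^ 2 ≤ K := (le_max_right _ _).trans hK
  have hD1 : (2 : ℝ) ≤ D := (le_max_left _ _).trans hD
  have hD2 : T₀ ^ 2 ≤ D := (le_max_right _ _).trans hD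
  have hDn : 2 ≤ D := by exact_mod_cast hD1
  have hz16 : 16 * (D : ℝ) ≤ ‖z‖ ^ 2 := by nlinarith
  have hz0 : 0 < ‖z‖ := by
    by_contra hcon
    have : ‖z‖ = 0 := le_antisymm (not_lt.1 hcon) (norm_nonneg _)
    rw [this] at hz16
    nlinarith
  have hzT : T₀ ≤ ‖z‖ :=
    (sq_le_sq₀ (by linarith) hz0.le).1 (by nlinarith [hD2, hz16, sq_nonneg T₀])
  have hreg := hFR z hzT hzV
  have hm := (hfam D s g hDn hg).1
  -- the main inequality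
  have hsq : 50 * C * Real.sqrt D ≤ ‖z‖ := by
    have h3 : (50 * C * Real.sqrt D) ^ 2 ≤ ‖z‖ ^ 2 := by
      have h4 : Real.sqrt D ^ 2 = D := Real.sq_sqrt (by linarith)
      have h5 : (50 * C * Real.sqrt D) ^ 2 = (100 * C) ^ 2 * D / 4 := by
        rw [mul_pow, h4]
        ring
      rw [h5]
      have h6 : (100 * C) ^ 2 * D ≤ K * D := mul_le_mul_of_nonneg_right hK2 (by linarith)
      linarith
    exact (sq_le_sq₀ (by positivity) (norm_nonneg _)).1 h3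
  have hlz : Real.log D / 2 ≤ Real.log ‖z‖ := by
    have h3 : Real.log D ≤ Real.log (‖z‖ ^ 2) := Real.log_le_log (by linarith) (by linarith)
    rw [Real.log_pow] at h3
    push_cast at h3
    linarith
  have hlD : 0 ≤ Real.log D := Real.log_nonneg (by linarith)
  have hlog : 8 * (s.length : ℝ) ≤ ‖z‖ * Real.log ‖z‖ := by
    have h3 : (50 * C * Real.sqrt D) * (Real.log D / 2) ≤ ‖z‖ * Real.log ‖z‖ :=
      mul_le_mul hsq hlz (by linarith) (norm_nonneg _)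
    have h4 : 0 ≤ C * Real.sqrt D * Real.log D := by positivity
    nlinarith
  have hlog0 : 0 ≤ Real.log ‖z‖ := Real.log_nonneg (by linarith)
  have hzz : ‖z ^ 2‖ = ‖z‖ ^ 2 := norm_pow _ _
  have hkey : ∀ ω : ℂ, ‖z‖ ^ 2 / 2 ≤ ‖ω‖ → qp s ω ≠ 0 ∧
      ‖qp s (z ^ 2)‖ ≤ ‖qp s ω‖ * Real.exp (Real.log ‖z‖ * (‖ω - z ^ 2‖ / ‖z‖)) := by
    intro ω hω
    have hr : 0 < ‖z‖ ^ 2 / 4 := by positivity
    obtain ⟨h3, h4⟩ := jd_FRF_qp ω (z ^ 2) (‖z‖ ^ 2 / 4) hr s fun p hp => by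
      obtain ⟨h5, h6⟩ := jd_FRF_zero D hDn p (hg.2.1 p hp)
      constructor
      · have := norm_sub_norm_le ω (p.1 + p.2 * I : ℂ)
        linarith
      · have := norm_sub_norm_le ω (p.1 - p.2 * I : ℂ)
        linarith
    refine ⟨h4, h3.trans ?_⟩
    refine mul_le_mul_of_nonneg_left (Real.exp_le_exp.2 ?_) (norm_nonneg _)
    have h7 : 2 * (s.length : ℝ) * (‖ω - z ^ 2‖ / (‖z‖ ^ 2 / 4)) =
        (8 * (s.length : ℝ)) * (‖ω - z ^ 2‖ / ‖z‖ ^ 2) := by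
      field_simp
      ring
    rw [h7]
    calc (8 * (s.length : ℝ)) * (‖ω - z ^ 2‖ / ‖z‖ ^ 2)
        ≤ (‖z‖ * Real.log ‖z‖) * (‖ω - z ^ 2‖ / ‖z‖ ^ 2) :=
          mul_le_mul_of_nonneg_right hlog (by positivity)
      _ = Real.log ‖z‖ * (‖ω - z ^ 2‖ / ‖z‖) := by
          field_simp
  have hquot : ∀ (ω : ℂ) (E : ℝ), ‖z‖ ^ 2 / 2 ≤ ‖ω‖ → ‖ff ω‖ ≤ Real.exp E * ‖ff (z ^ 2)‖ →
      ‖g ω‖ ≤ Real.exp (E + Real.log ‖z‖ * (‖ω - z ^ 2‖ / ‖z‖)) * ‖g (z ^ 2)‖ := by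
    intro ω E hω hE
    obtain ⟨h3, h4⟩ := hkey ω hω
    rw [hg.2.2 ω, hg.2.2 (z ^ 2), norm_mul, norm_mul] at hE
    have h5 : 0 < ‖qp s ω‖ := norm_pos_iff.2 h3
    rw [← mul_le_mul_iff_right₀ h5, Real.exp_add]
    refine hE.trans ?_
    calc Real.exp E * (‖qp s (z ^ 2)‖ * ‖g (z ^ 2)‖)
        ≤ Real.exp E * ((‖qp s ω‖ * Real.exp (Real.log ‖z‖ * (‖ω - z ^ 2‖ / ‖z‖))) *
          ‖g (z ^ 2)‖) := by gcongr
      _ = _ := by ring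
  refine ⟨hg.1.diff, ?_, ?_⟩
  · intro ω hω
    have him : |z.im| ≤ ‖z‖ := Complex.abs_im_le_norm z
    have h3 : ‖z‖ ^ 2 / 2 ≤ ‖ω‖ := by
      have h4 := norm_sub_norm_le (z ^ 2) ω
      rw [hzz, norm_sub_rev] at h4
      nlinarith
    obtain ⟨h5, h6⟩ := hreg.ne ω hω
    refine ⟨fun h7 => h5 (by rw [hg.2.2 ω, h7, mul_zero]), (hquot ω _ h3 h6).trans ?_⟩
    refine mul_le_mul_of_nonneg_right (Real.exp_le_exp.2 ?_) (norm_nonneg _)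
    have h8 : ‖ω - z ^ 2‖ / ‖z‖ ≤ |z.im| := by
      rw [div_le_iff₀ hz0]
      nlinarith [abs_nonneg z.im]
    have h9 := mul_le_mul_of_nonneg_left h8 hlog0
    linarith
  · intro ω h3 h4
    refine (hquot ω _ h3 (hreg.glob ω h3 h4)).trans ?_
    refine mul_le_mul_of_nonneg_right (Real.exp_le_exp.2 ?_) (norm_nonneg _)
    have h5 : 0 ≤ Real.log ‖z‖ * |z.im| := by positivity
    have h6 : 0 ≤ ‖ω - z ^ 2‖ / ‖z‖ := by positivity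
    nlinarith

end Pool.Agent.Lib.MP_cd509c_nt.JD
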