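import Pool.Agent.Lib.MP_cd509c_nt.JD.StmK

/-!
# Jensen density, piece FRl: `ff` is log-linear far from the axis
-/

set_option autoImplicit false

namespace Pool.Agent.Lib.MP_cd509c_nt.JD

open Complex ComplexConjugate MeasureTheory
open Pool.Agent.Lib.MP_cd509c_nt.DN

/-- size of `rc` -/
theorem FRl_rc {S z : ℂ} (h0 : 0 ≤ S.re) (hz : 1920 ≤ ‖z‖) (h1 : ‖z‖ - 6 ≤ ‖S‖)
    (h2 : ‖S‖ ≤ ‖z‖ + 6) (hl : 6 ≤ Real.log ‖z‖) :
    Real.log ‖z‖ / 2 ≤ ‖rc S‖ ∧ ‖rc S‖ ≤ 2 * Real.log ‖z‖ := by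
  have hz0 : 0 < ‖z‖ := by linarith
  have hS0 : 0 < ‖S‖ := by linarith
  have hpi := Real.pi_gt_three
  have hpi4 := Real.pi_le_four
  have h2pi0 : 0 ≤ Real.log (2 * Real.pi) := Real.log_nonneg (by linarith)
  have h2pi1 : Real.log (2 * Real.pi) ≤ 21 / 10 := by
    have h3 : Real.log (2 * Real.pi) ≤ Real.log (2 ^ 3) :=
      Real.log_le_log (by positivity) (by linarith)
    rw [Real.log_pow] at h3
    have := Real.log_two_lt_d9
    push_cast at h3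
    linarith
  have hup : Real.log ‖S‖ ≤ Real.log ‖z‖ + 7 / 10 := by
    have h3 : Real.log ‖S‖ ≤ Real.log (2 * ‖z‖) := Real.log_le_log hS0 (by linarith)
    rw [Real.log_mul two_ne_zero hz0.ne'] at h3
    have := Real.log_two_lt_d9
    linarith
  have hlo : Real.log ‖z‖ - 7 / 10 ≤ Real.log ‖S‖ := by
    have h3 : Real.log ‖z‖ ≤ Real.log (2 * ‖S‖) := Real.log_le_log hz0 (by linarith)
    rw [Real.log_mul two_ne_zero hS0.ne'] at h3
    have := Real.log_two_lt_d9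
    linarith
  have hre : (rc S).re = Real.log ‖S‖ - Real.log (2 * Real.pi) := by
    rw [rc, Complex.sub_re, Complex.log_re, Complex.ofReal_re]
  have him : (rc S).im = arg S := by
    rw [rc, Complex.sub_im, Complex.log_im, Complex.ofReal_im]
    ring
  have harg : |arg S| ≤ 2 := by
    have := Complex.abs_arg_le_pi_div_two_iff.2 h0
    linarith
  constructor
  · have h3 : (rc S).re ≤ ‖rc S‖ := Complex.re_le_norm _
    rw [hre] at h3
    linarith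
  · have h3 := Complex.norm_le_abs_re_add_abs_im (rc S)
    rw [hre, him, abs_of_nonneg (by linarith)] at h3
    linarith

/-- the case `Im z < 0` -/
theorem FRl_main (h1 : S_rt2) {κ V₀ : ℝ} (hκ : 0 < κ) (hκ1 : κ ≤ 1 / 8) (hV₀ : 1 ≤ V₀)
    (hL : ∀ w : ℂ, V₀ ≤ w.re → 1 / 2 ≤ ‖LL w‖ ∧ ‖LL w‖ ≤ 2) {z : ℂ}
    (hz : 30 / κ ^ 2 ≤ Real.log ‖z‖) (hz0 : 0 < ‖z‖) (hV : 2 * V₀ ≤ -z.im) :
    ∃ lam : ℂ, Real.log ‖z‖ / 4 ≤ ‖lam‖ ∧ ‖lam‖ ≤ Real.log ‖z‖ ∧
    ∀ ω : ℂ, ‖ω - z ^ 2‖ ≤ κ * ‖z‖ * (-z.im) →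
      |Real.log ‖ff ω‖ - Real.log ‖ff (z ^ 2)‖ - (lam * ((ω - z ^ 2) / ‖z‖)).re| ≤
        κ ^ 2 * (-z.im) * Real.log ‖z‖ := by
  set y : ℝ := -z.im with hy
  have hy0 : 2 ≤ y := by linarith
  have hlog : 1920 ≤ Real.log ‖z‖ := by
    refine le_trans ?_ hz
    rw [le_div_iff₀ (by positivity)]
    nlinarith
  have hzbig : 1920 ≤ ‖z‖ := by
    have h2 := Real.log_le_sub_one_of_pos hz0
    linarith
  have hzne : z ≠ 0 := norm_pos_iff.1 hz0
  have hyz : y ≤ ‖z‖ := by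
    have := Complex.abs_im_le_norm z
    have := neg_le_abs z.im
    linarith
  set s : ℂ := I * z with hs
  have hsre : s.re = y := by simp [hs, hy]
  set S : ℂ := 6 + s with hS
  have hSre : S.re = 6 + y := by
    rw [hS, Complex.add_re, hsre]
    norm_num
  have hsn : ‖s‖ = ‖z‖ := by rw [hs, norm_mul, Complex.norm_I, one_mul]
  have hSup : ‖S‖ ≤ ‖z‖ + 6 := by
    have := norm_add_le (6 : ℂ) s
    rw [← hS, hsn] at this
    have h6 : ‖(6 : ℂ)‖ = 6 := by norm_num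
    linarith
  have hSlo : ‖z‖ - 6 ≤ ‖S‖ := by
    have h3 : s = S - 6 := by rw [hS]; ring
    have h4 := norm_sub_le S (6 : ℂ)
    rw [← h3, hsn] at h4
    have h6 : ‖(6 : ℂ)‖ = 6 := by norm_num
    linarith
  have hSy : y ≤ ‖S‖ := by
    have := Complex.re_le_norm S
    linarith
  have hSpos : 0 < ‖S‖ := by linarith
  obtain ⟨hrc1, hrc2⟩ := FRl_rc (S := S) (by linarith) hzbig hSlo hSup (by linarith)
  have hff0 : ff (z ^ 2) = G0 S * Lf S := by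
    obtain ⟨g, hg, hq⟩ := Lam_quot (s := S) (v := 0) (by linarith) (by rw [add_zero]; linarith)
      (by rw [add_zero]; linarith)
    have hg0 : g = 0 := by
      rw [norm_zero] at hg
      have : ‖g‖ ≤ 0 := by simpa using hg
      exact norm_le_zero_iff.1 this
    rw [ff_sq, ← hs, ← hS]
    rw [add_zero, hg0, mul_zero, add_zero, Complex.exp_zero, mul_one] at hq
    exact hq
  have hG0 : G0 S ≠ 0 := G0_ne_zero (by linarith)
  refine ⟨rc S * (I * ‖z‖ / (2 * z)), ?_, ?_, ?_⟩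
  · have : ‖I * (‖z‖ : ℂ) / (2 * z)‖ = 1 / 2 := by
      rw [norm_div, norm_mul, norm_mul, Complex.norm_I, Complex.norm_real, norm_norm]
      have h2 : ‖(2 : ℂ)‖ = 2 := by norm_num
      rw [h2]
      field_simp
    rw [norm_mul, this]
    linarith
  · have : ‖I * (‖z‖ : ℂ) / (2 * z)‖ = 1 / 2 := by
      rw [norm_div, norm_mul, norm_mul, Complex.norm_I, Complex.norm_real, norm_norm]
      have h2 : ‖(2 : ℂ)‖ = 2 := by norm_num
      rw [h2]
      field_simp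
    rw [norm_mul, this]
    linarith
  intro ω hω
  have hω2 : ‖ω - z ^ 2‖ ≤ ‖z‖ ^ 2 / 4 := by
    refine hω.trans ?_
    have h3 : κ * ‖z‖ * y ≤ 1 / 8 * ‖z‖ * ‖z‖ :=
      mul_le_mul (mul_le_mul_of_nonneg_right hκ1 hz0.le) hyz (by linarith) (by positivity)
    nlinarith [sq_nonneg ‖z‖]
  obtain ⟨z', hz', ha, hb⟩ := h1 z ω hzne hω2
  set t : ℂ := I * (z' - z) with ht
  have htn : ‖t‖ ≤ y / 14 := by
    rw [ht, norm_mul, Complex.norm_I, one_mul]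
    refine ha.trans ?_
    have h3 : ‖ω - z ^ 2‖ / ‖z‖ ≤ κ * y := by
      rw [div_le_iff₀ hz0]
      linarith
    nlinarith
  have hSt : S + t = 6 + I * z' := by rw [hS, hs, ht]; ring
  have htre : |t.re| ≤ y / 14 := (Complex.abs_re_le_norm t).trans htn
  have htre' := abs_le.1 htre
  have hStre : (S + t).re = 6 + y + t.re := by rw [Complex.add_re, hSre]
  obtain ⟨g, hg, hq⟩ := Lam_quot (s := S) (v := t) (by linarith) (by rw [hStre]; linarith) (by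
    have h4 : ‖S‖ ≤ ‖S + t‖ + ‖t‖ := by
      have := norm_sub_le (S + t) t
      rwa [add_sub_cancel_right] at this
    linarith)
  have hffω : ff ω = G0 S * cexp (rc S * t + g) * Lf (S + t) := by
    rw [← hq, hSt, ← ff_sq, hz']
  have hgn : ‖g‖ ≤ 14 * y := by
    refine hg.trans ?_
    rw [div_le_iff₀ hSpos]
    have h5 : ‖t‖ ^ 2 ≤ (y / 14) * ‖t‖ := by
      rw [sq]
      exact mul_le_mul_of_nonneg_right htn (norm_nonneg _)
    nlinarith [norm_nonneg t]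
  have hL1 : 1 / 2 ≤ ‖Lf S‖ ∧ ‖Lf S‖ ≤ 2 := by
    have := hL s (by linarith)
    exact this
  have hL2 : 1 / 2 ≤ ‖Lf (S + t)‖ ∧ ‖Lf (S + t)‖ ≤ 2 := by
    have h3 := hL (s + t) (by
      rw [Complex.add_re, hsre]
      linarith)
    have h4 : LL (s + t) = Lf (S + t) := by
      rw [LL, hS]
      congr 1
      ring
    rwa [h4] at h3
  have hlogb : ∀ r : ℝ, 1 / 2 ≤ r → r ≤ 2 → |Real.log r| ≤ 7 / 10 := by
    intro r hr1 hr2
    have h3 : Real.log r ≤ Real.log 2 := Real.log_le_log (by linarith) hr2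
    have h4 : Real.log (1 / 2) ≤ Real.log r := Real.log_le_log (by norm_num) hr1
    rw [one_div, Real.log_inv] at h4
    have := Real.log_two_lt_d9
    rw [abs_le]
    constructor <;> linarith
  have hlA := hlogb _ hL1.1 hL1.2
  have hlB := hlogb _ hL2.1 hL2.2
  have e1 : Real.log ‖ff ω‖ = Real.log ‖G0 S‖ + (rc S * t + g).re + Real.log ‖Lf (S + t)‖ := by
    rw [hffω, norm_mul, norm_mul, Complex.norm_exp, Real.log_mul, Real.log_mul, Real.log_exp]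
    · exact norm_ne_zero_iff.2 hG0
    · exact (Real.exp_pos _).ne'
    · exact mul_ne_zero (norm_ne_zero_iff.2 hG0) (Real.exp_pos _).ne'
    · linarith [hL2.1]
  have e2 : Real.log ‖ff (z ^ 2)‖ = Real.log ‖G0 S‖ + Real.log ‖Lf S‖ := by
    rw [hff0, norm_mul, Real.log_mul]
    · exact norm_ne_zero_iff.2 hG0
    · linarith [hL1.1]
  have hzc : (‖z‖ : ℂ) ≠ 0 := by exact_mod_cast hz0.ne'
  have e3 : rc S * (I * ‖z‖ / (2 * z)) * ((ω - z ^ 2) / ‖z‖) =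
      rc S * t - rc S * (I * (z' - z - (ω - z ^ 2) / (2 * z))) := by
    rw [ht]
    field_simp
    ring
  have e4 : ‖rc S * (I * (z' - z - (ω - z ^ 2) / (2 * z)))‖ ≤
      κ ^ 2 * y * Real.log ‖z‖ / 2 := by
    rw [norm_mul, norm_mul, Complex.norm_I, one_mul]
    have h3 : ‖z' - z - (ω - z ^ 2) / (2 * z)‖ ≤ κ ^ 2 * y / 4 := by
      refine hb.trans ?_
      rw [div_le_iff₀ (by positivity)]
      have h4 : ‖ω - z ^ 2‖ ^ 2 ≤ (κ * ‖z‖ * y) ^ 2 :=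
        pow_le_pow_left₀ (norm_nonneg _) hω 2
      have h5 : (κ * ‖z‖ * y) ^ 2 ≤ κ ^ 2 * y / 4 * (4 * ‖z‖ ^ 3) := by
        have h6 : (κ * ‖z‖ * y) ^ 2 = κ ^ 2 * y * ‖z‖ ^ 2 * y := by ring
        have h7 : κ ^ 2 * y / 4 * (4 * ‖z‖ ^ 3) = κ ^ 2 * y * ‖z‖ ^ 2 * ‖z‖ := by ring
        rw [h6, h7]
        exact mul_le_mul_of_nonneg_left hyz (by positivity)
      linarith
    calc ‖rc S‖ * ‖z' - z - (ω - z ^ 2) / (2 * z)‖ ≤ (2 * Real.log ‖z‖) * (κ ^ 2 * y / 4) :=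
          mul_le_mul hrc2 h3 (norm_nonneg _) (by linarith)
      _ = _ := by ring
  have e5 := (Complex.abs_re_le_norm _).trans e4
  have e6 := (Complex.abs_re_le_norm _).trans hgn
  have e7 : 30 * y ≤ κ ^ 2 * y * Real.log ‖z‖ := by
    rw [div_le_iff₀ (by positivity)] at hz
    nlinarith
  have e8 : Real.log ‖ff ω‖ - Real.log ‖ff (z ^ 2)‖ -
      (rc S * (I * ‖z‖ / (2 * z)) * ((ω - z ^ 2) / ‖z‖)).re =
      g.re + (rc S * (I * (z' - z - (ω - z ^ 2) / (2 * z)))).re + Real.log ‖Lf (S + t)‖ -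
        Real.log ‖Lf S‖ := by
    rw [e1, e2, e3, Complex.add_re, Complex.sub_re]
    ring
  rw [e8]
  rw [abs_le] at hlA hlB e5 e6 ⊢
  constructor <;> linarith [hlA.1, hlA.2, hlB.1, hlB.2, e5.1, e5.2, e6.1, e6.2]

theorem p_FRl (h1 : S_rt2) (h2 : S_LLf) : S_FRl := by
  intro κ hκ hκ1
  obtain ⟨V₀, hV₀, hL⟩ := h2 1 one_pos
  refine ⟨2 * V₀, max 2 (Real.exp (30 / κ ^ 2)), by linarith, le_max_left _ _, fun z hz hV => ?_⟩
  have hz2 : 2 ≤ ‖z‖ := (le_max_left _ _).trans hz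
  have hz0 : 0 < ‖z‖ := by linarith
  have hzl : 30 / κ ^ 2 ≤ Real.log ‖z‖ := by
    rw [Real.le_log_iff_exp_le hz0]
    exact (le_max_right _ _).trans hz
  have hL' : ∀ w : ℂ, V₀ ≤ w.re → 1 / 2 ≤ ‖LL w‖ ∧ ‖LL w‖ ≤ 2 := fun w hw =>
    ⟨(hL w w hw hw).1, (hL w w hw hw).2.1⟩
  rcases le_total z.im 0 with hi | hi
  · rw [abs_of_nonpos hi] at hV ⊢
    exact FRl_main h1 hκ hκ1 hV₀ hL' hzl hz0 hV
  · rw [abs_of_nonneg hi] at hV ⊢
    have h3 := FRl_main h1 hκ hκ1 hV₀ hL' (z := -z) (by rwa [norm_neg]) (by rwa [norm_neg])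
      (by rw [Complex.neg_im, neg_neg]; exact hV)
    rw [norm_neg, Complex.neg_im, neg_neg, neg_sq] at h3
    exact h3

end Pool.Agent.Lib.MP_cd509c_nt.JD
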