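import Pool.Agent.Lib.MP_cd509c_nt.JD.Defs

set_option autoImplicit false

/-!
# No zeros far from the axis
-/

namespace Pool.Agent.Lib.MP_cd509c_nt.JD

open Complex ComplexConjugate MeasureTheory
open Pool.Agent.Lib.MP_cd509c_nt.DN

/-- square roots near `z` -/
theorem jd_FZ_sqrt (z ω : ℂ) (y : ℝ) (hy0 : 0 ≤ y) (hy : y ≤ ‖z‖) (hz : 0 < ‖z‖)
    (h : ‖ω - z ^ 2‖ ≤ ‖z‖ * y / 32) : ∃ z' : ℂ, z' ^ 2 = ω ∧ ‖z' - z‖ ≤ y / 60 := by
  obtain ⟨s, hs⟩ : ∃ s : ℂ, s ^ 2 = ω := IsAlgClosed.exists_pow_nat_eq ω (by norm_num)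
  -- choose the sign
  obtain ⟨s, hs, hsz⟩ : ∃ s : ℂ, s ^ 2 = ω ∧ ‖s - z‖ ≤ ‖s + z‖ := by
    rcases le_total ‖s - z‖ ‖s + z‖ with h1 | h1
    · exact ⟨s, hs, h1⟩
    · refine ⟨-s, by rw [neg_sq]; exact hs, ?_⟩
      have e1 : ‖-s - z‖ = ‖s + z‖ := by rw [← norm_neg]; congr 1; ring
      have e2 : ‖-s + z‖ = ‖s - z‖ := by rw [← norm_neg]; congr 1; ring
      rw [e1, e2]
      exact h1
  refine ⟨s, hs, ?_⟩
  have h1 : ‖s - z‖ * ‖s + z‖ ≤ ‖z‖ * y / 32 := by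
    rw [← norm_mul]
    have : (s - z) * (s + z) = ω - z ^ 2 := by rw [← hs]; ring
    rw [this]
    exact h
  have h2 : 2 * ‖z‖ ≤ ‖s + z‖ + ‖s - z‖ := by
    have : (2 : ℂ) * z = (s + z) - (s - z) := by ring
    calc 2 * ‖z‖ = ‖(2 : ℂ) * z‖ := by rw [norm_mul]; norm_num
      _ = ‖(s + z) - (s - z)‖ := by rw [this]
      _ ≤ ‖s + z‖ + ‖s - z‖ := norm_sub_le _ _
  have h3 : ‖z‖ ≤ ‖s + z‖ := by linarith
  have h0 : 0 ≤ ‖s - z‖ := norm_nonneg _
  have h4 : ‖s - z‖ ≤ y / 32 := by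
    have : ‖s - z‖ * ‖z‖ ≤ ‖z‖ * y / 32 := (mul_le_mul_of_nonneg_left h3 h0).trans h1
    by_contra hc
    push Not at hc
    nlinarith
  have h5 : ‖z‖ * (63 / 32) ≤ ‖s + z‖ := by linarith
  have h6 : ‖s - z‖ * (‖z‖ * (63 / 32)) ≤ ‖z‖ * y / 32 :=
    (mul_le_mul_of_nonneg_left h5 h0).trans h1
  by_contra hc
  push Not at hc
  nlinarith

theorem jd_FZ_diff (D : ℕ) (g : ℂ → ℂ) : ContDiff ℂ ⊤ (Hd D g) := by
  have : Hd D g = fun ω => ∑ k ∈ Finset.range (D + 1),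
      (D.choose k : ℂ) * iteratedDeriv k g 0 * (ω / D) ^ k := rfl
  rw [this]
  refine ContDiff.sum fun k _ => ?_
  exact contDiff_const.mul ((contDiff_id.div_const _).pow k)

/-- one point -/
theorem jd_FZ_pt (C₁ c₀ CJ D₀ : ℝ) (hC₁ : 1 ≤ C₁) (hc₀ : 0 < c₀) (hCJ : 1 ≤ CJ)
    (hFJ : ∀ (D : ℕ) (δ M : ℝ) (F : ℂ → ℂ) (ω₀ : ℂ), D₀ ≤ D → 0 < δ → δ ≤ 1 / 4 → 1 ≤ M →
      M ≤ c₀ * D * δ ^ 2 → Differentiable ℂ F → ω₀ ≠ 0 →
      (∀ ω : ℂ, ‖ω - ω₀‖ ≤ 2 * δ * ‖ω₀‖ → F ω ≠ 0 ∧ ‖F ω‖ ≤ Real.exp M * ‖F ω₀‖) →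
      (∀ ω : ℂ, (1 - δ) * ‖ω₀‖ ≤ ‖ω‖ → ‖ω‖ ≤ (1 + δ) * ‖ω₀‖ →
        ‖F ω‖ ≤ Real.exp (M * (1 + ‖ω / ω₀ - 1‖ / δ)) * ‖F ω₀‖) →
      Hd D F ω₀ ≠ 0 ∧ |Real.log ‖Hd D F ω₀‖ - Real.log ‖F ω₀‖| ≤ CJ * (M ^ 2 / (D * δ ^ 2) + 1))
    (D : ℕ) (z : ℂ) (hD : D₀ ≤ D) (hD0 : (0 : ℝ) < D) (hR : 2 ≤ ‖z‖) (hy : 1 ≤ |z.im|)
    (hM : 512 * C₁ * (‖z‖ ^ 2 * Real.log ‖z‖) ≤ c₀ * (D * |z.im|)) (hreg : FarReg C₁ ff z) :
    Hd D ff (z ^ 2) ≠ 0 ∧ |Real.log ‖Hd D ff (z ^ 2)‖ - Real.log ‖ff (z ^ 2)‖| ≤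
      CJ * (4096 * C₁ ^ 2 * (‖z‖ ^ 2 * Real.log ‖z‖) * Real.log ‖z‖ / D + 1) := by
  set R := ‖z‖ with hRdef
  set y := |z.im| with hydef
  set l := Real.log R with hl
  have hR0 : 0 < R := by linarith
  have hy0 : 0 < y := by linarith
  have hyR : y ≤ R := Complex.abs_im_le_norm z
  have hl0 : 1 / 2 ≤ l := by
    have h1 : Real.log 2 ≤ l := Real.log_le_log (by norm_num) hR
    have h2 := Real.log_two_gt_d9
    linarith
  have hz0 : z ≠ 0 := by
    intro h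
    rw [h, norm_zero] at hRdef
    linarith
  have hω0 : z ^ 2 ≠ 0 := pow_ne_zero 2 hz0
  have hnω : ‖z ^ 2‖ = R ^ 2 := by rw [norm_pow]
  have hδ : 0 < y / (8 * R) := by positivity
  have hδ2 : y / (8 * R) ≤ 1 / 8 := by
    rw [div_le_div_iff₀ (by positivity) (by norm_num)]
    linarith
  have hM1 : 1 ≤ 8 * C₁ * y * l := by
    have h1 : (1 : ℝ) ≤ C₁ * y := by nlinarith
    nlinarith
  have key := hFJ D (y / (8 * R)) (8 * C₁ * y * l) ff (z ^ 2) hD hδ (by linarith) hM1 ?_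
    hreg.diff hω0 ?_ ?_
  · refine ⟨key.1, key.2.trans (le_of_eq ?_)⟩
    have e1 : (8 * C₁ * y * l) ^ 2 / (D * (y / (8 * R)) ^ 2) =
        4096 * C₁ ^ 2 * (R ^ 2 * l) * l / D := by
      field_simp
      ring
    rw [e1]
  · -- the size of M
    have e1 : c₀ * D * (y / (8 * R)) ^ 2 = c₀ * (D * y) * y / (64 * R ^ 2) := by
      field_simp
      ring
    rw [e1, le_div_iff₀ (by positivity)]
    calc 8 * C₁ * y * l * (64 * R ^ 2) = (512 * C₁ * (R ^ 2 * l)) * y := by ring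
      _ ≤ (c₀ * (D * y)) * y := mul_le_mul_of_nonneg_right hM hy0.le
      _ = _ := by ring
  · intro ω hω
    have h1 : ‖ω - z ^ 2‖ ≤ R * y / 4 := by
      refine hω.trans (le_of_eq ?_)
      rw [hnω]
      field_simp
      ring
    obtain ⟨h2, h3⟩ := hreg.ne ω h1
    refine ⟨h2, h3.trans ?_⟩
    refine mul_le_mul_of_nonneg_right (Real.exp_le_exp.2 ?_) (norm_nonneg _)
    have : 0 ≤ C₁ * y * l := by positivity
    nlinarith
  · intro ω h1 h2
    rw [hnω] at h1 h2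
    have h3 : R ^ 2 / 2 ≤ ‖ω‖ := by nlinarith [sq_nonneg R]
    have h4 : ‖ω‖ ≤ 2 * R ^ 2 := by nlinarith [sq_nonneg R]
    refine (hreg.glob ω h3 h4).trans ?_
    refine mul_le_mul_of_nonneg_right (Real.exp_le_exp.2 ?_) (norm_nonneg _)
    have h5 : ‖ω - z ^ 2‖ = R ^ 2 * ‖ω / z ^ 2 - 1‖ := by
      rw [← hnω, ← norm_mul]
      congr 1
      field_simp
    change C₁ * l * (y + ‖ω - z ^ 2‖ / R) ≤ _
    rw [h5]
    set E := ‖ω / z ^ 2 - 1‖
    have hE : 0 ≤ E := norm_nonneg _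
    have e1 : C₁ * l * (y + R ^ 2 * E / R) = C₁ * l * y + C₁ * l * R * E := by
      field_simp
    have e2 : 8 * C₁ * y * l * (1 + E / (y / (8 * R))) = 8 * (C₁ * l * y) + 64 * (C₁ * l * R * E) := by
      field_simp
      ring
    rw [e1, e2]
    have h6 : 0 ≤ C₁ * l * y := by positivity
    have h7 : 0 ≤ C₁ * l * R * E := by positivity
    linarith

theorem p_FZ (h1 : S_FR) (h2 : S_FRl) (h3 : S_FJ) (h4 : S_DB) : S_FZ := by
  intro A hA
  obtain ⟨C₁, V₁, T₁, hC₁, hV₁, hT₁, hFR⟩ := h1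
  obtain ⟨c₀, CJ, DJ, hc₀, hCJ, hDJ, hFJ⟩ := h3
  obtain ⟨η₀, ND, CD, hη₀, hη₀', hND, hCD, hDB⟩ := h4
  set κ : ℝ := η₀ / 32 with hκ
  have hκ0 : 0 < κ := by positivity
  have hκ1 : κ ≤ 1 / 32 := by linarith
  obtain ⟨V₂, T₂, hV₂, hT₂, hFRl⟩ := h2 κ hκ0 (by linarith)
  set η : ℝ := κ ^ 2 / 2 with hη
  have hη0 : 0 < η := by positivity
  have hND0 : 0 < ND := by linarith
  refine ⟨2 * V₁ + V₂ + 4096 * C₁ / c₀ + 20000 * C₁ ^ 2 * CJ / η + 2 * CJ / η +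
    4 * A / (η₀ * κ) + 8 * ND / κ, 2 * T₁ + T₂ + DJ, ?_, ?_, ?_⟩
  · have : 0 ≤ 4096 * C₁ / c₀ + 20000 * C₁ ^ 2 * CJ / η + 2 * CJ / η + 4 * A / (η₀ * κ) +
        8 * ND / κ := by positivity
    linarith
  · linarith
  set V : ℝ := 2 * V₁ + V₂ + 4096 * C₁ / c₀ + 20000 * C₁ ^ 2 * CJ / η + 2 * CJ / η +
    4 * A / (η₀ * κ) + 8 * ND / κ with hV
  have p1 : 0 < 4096 * C₁ / c₀ := by positivity
  have p2 : 0 < 20000 * C₁ ^ 2 * CJ / η := by positivity
  have p3 : 0 < 2 * CJ / η := by positivity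
  have p4 : 0 < 4 * A / (η₀ * κ) := by positivity
  have p5 : 0 < 8 * ND / κ := by positivity
  have q1 : 2 * V₁ ≤ V := by linarith
  have q2 : V₂ ≤ V := by linarith
  have q3 : 4096 * C₁ ≤ V * c₀ := by
    have h : 4096 * C₁ / c₀ ≤ V := by linarith
    rwa [div_le_iff₀ hc₀] at h
  have q4 : 20000 * C₁ ^ 2 * CJ ≤ V * η := by
    have h : 20000 * C₁ ^ 2 * CJ / η ≤ V := by linarith
    rwa [div_le_iff₀ hη0] at h
  have q5 : 2 * CJ ≤ V * η := by
    have h : 2 * CJ / η ≤ V := by linarith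
    rwa [div_le_iff₀ hη0] at h
  have q6 : 4 * A ≤ V * (η₀ * κ) := by
    have h : 4 * A / (η₀ * κ) ≤ V := by linarith
    rwa [div_le_iff₀ (by positivity)] at h
  have q7 : 8 * ND ≤ V * κ := by
    have h : 8 * ND / κ ≤ V := by linarith
    rwa [div_le_iff₀ hκ0] at h
  have hV1 : 1 ≤ V := by linarith
  intro D n z hz hn hzD hy
  set R := ‖z‖ with hR
  set y := |z.im| with hydef
  set l := Real.log R with hl
  have hR2 : 4 ≤ R := by linarith
  have hR0 : 0 < R := by linarith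
  have hl0 : 1 / 2 ≤ l := by
    have h1 : Real.log 2 ≤ l := Real.log_le_log (by norm_num) (by linarith)
    have h2 := Real.log_two_gt_d9
    linarith
  have hD0 : (0 : ℝ) < D := by linarith
  have hyR : y ≤ R := Complex.abs_im_le_norm z
  have hRl : 0 ≤ R ^ 2 * l := by positivity
  have hyV : V ≤ y := by
    have : 0 ≤ V * (R ^ 2 * l / D) := by positivity
    linarith
  have hy0 : 0 < y := by linarith
  have hyD : V * (R ^ 2 * l) ≤ D * y := by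
    have h5 : V * (R ^ 2 * l / D) ≤ y := by linarith
    have h6 := mul_le_mul_of_nonneg_left h5 hD0.le
    calc V * (R ^ 2 * l) = D * (V * (R ^ 2 * l / D)) := by field_simp
      _ ≤ D * y := h6
  obtain ⟨lam, hlam1, hlam2, hlin⟩ := hFRl z (by linarith) (by linarith)
  -- the comparison on the disc
  have hdisc : ∀ ω : ℂ, ‖ω - z ^ 2‖ ≤ κ * R * y → Hd D ff ω ≠ 0 ∧
      |Real.log ‖Hd D ff ω‖ - Real.log ‖ff ω‖| ≤ 2 * η * y * l := by
    intro ω hω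
    have hω' : ‖ω - z ^ 2‖ ≤ R * y / 32 := by
      refine hω.trans ?_
      have hRy : 0 ≤ R * y := by positivity
      calc κ * R * y = κ * (R * y) := by ring
        _ ≤ 1 / 32 * (R * y) := mul_le_mul_of_nonneg_right hκ1 hRy
        _ = _ := by ring
    obtain ⟨z', hz', hzz'⟩ := jd_FZ_sqrt z ω y hy0.le hyR hR0 hω'
    have hR' : ‖z'‖ ≤ 61 / 60 * R := by
      have : ‖z'‖ ≤ ‖z' - z‖ + ‖z‖ := by
        calc ‖z'‖ = ‖(z' - z) + z‖ := by rw [sub_add_cancel]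
          _ ≤ _ := norm_add_le _ _
      change ‖z'‖ ≤ ‖z' - z‖ + R at this
      linarith
    have hR'' : 59 / 60 * R ≤ ‖z'‖ := by
      have : ‖z‖ ≤ ‖z' - z‖ + ‖z'‖ := by
        calc ‖z‖ = ‖z' - (z' - z)‖ := by rw [sub_sub_cancel]
          _ ≤ ‖z'‖ + ‖z' - z‖ := norm_sub_le _ _
          _ = _ := add_comm _ _
      change R ≤ ‖z' - z‖ + ‖z'‖ at this
      linarith
    have hy' : 59 / 60 * y ≤ |z'.im| := by
      have h5 : |(z' - z).im| ≤ ‖z' - z‖ := Complex.abs_im_le_norm _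
      rw [Complex.sub_im] at h5
      have h6 : |z.im| ≤ |z'.im| + |z'.im - z.im| := by
        have := abs_sub_abs_le_abs_sub z.im z'.im
        rw [abs_sub_comm z.im z'.im] at this
        linarith
      change y ≤ |z'.im| + |z'.im - z.im| at h6
      linarith
    have hz'1 : T₁ ≤ ‖z'‖ := by linarith
    have hy'1 : V₁ ≤ |z'.im| := by linarith
    have hlog : Real.log ‖z'‖ ≤ l + 1 / 60 := by
      have h5 : Real.log ‖z'‖ ≤ Real.log (61 / 60 * R) :=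
        Real.log_le_log (by linarith) hR'
      rw [Real.log_mul (by norm_num) hR0.ne'] at h5
      have h6 := Real.log_le_sub_one_of_pos (show (0 : ℝ) < 61 / 60 by norm_num)
      linarith
    have hlog0 : 0 ≤ Real.log ‖z'‖ := Real.log_nonneg (by linarith)
    have hlog' : Real.log ‖z'‖ ≤ 2 * l := by linarith
    have hsq : ‖z'‖ ^ 2 * Real.log ‖z'‖ ≤ 2 * (R ^ 2 * l) := by
      have h5 : ‖z'‖ ^ 2 ≤ 1.05 * R ^ 2 := by
        have h6 : ‖z'‖ ^ 2 ≤ (61 / 60 * R) ^ 2 := pow_le_pow_left₀ (norm_nonneg _) hR' 2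
        refine h6.trans ?_
        rw [mul_pow]
        exact mul_le_mul_of_nonneg_right (by norm_num) (sq_nonneg R)
      have h6 : Real.log ‖z'‖ ≤ 1.05 * l := by linarith
      calc ‖z'‖ ^ 2 * Real.log ‖z'‖ ≤ (1.05 * R ^ 2) * (1.05 * l) :=
            mul_le_mul h5 h6 hlog0 (by positivity)
        _ = 1.1025 * (R ^ 2 * l) := by ring
        _ ≤ 2 * (R ^ 2 * l) := mul_le_mul_of_nonneg_right (by norm_num) hRl
    have hM : 512 * C₁ * (‖z'‖ ^ 2 * Real.log ‖z'‖) ≤ c₀ * (D * |z'.im|) := by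
      calc 512 * C₁ * (‖z'‖ ^ 2 * Real.log ‖z'‖) ≤ 512 * C₁ * (2 * (R ^ 2 * l)) :=
            mul_le_mul_of_nonneg_left hsq (by positivity)
        _ = (1024 * C₁) * (R ^ 2 * l) := by ring
        _ ≤ (V * c₀ / 2) * (R ^ 2 * l) := mul_le_mul_of_nonneg_right (by linarith) hRl
        _ = c₀ / 2 * (V * (R ^ 2 * l)) := by ring
        _ ≤ c₀ / 2 * (D * y) := mul_le_mul_of_nonneg_left hyD (by positivity)
        _ = c₀ * (D * (y / 2)) := by ring
        _ ≤ c₀ * (D * |z'.im|) := by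
          refine mul_le_mul_of_nonneg_left (mul_le_mul_of_nonneg_left ?_ hD0.le) hc₀.le
          linarith
    have hreg := hFR z' hz'1 hy'1
    obtain ⟨h5, h6⟩ := jd_FZ_pt C₁ c₀ CJ DJ hC₁ hc₀ hCJ hFJ D z' (by linarith) hD0 (by linarith)
      (by linarith) hM hreg
    rw [hz'] at h5 h6
    refine ⟨h5, h6.trans ?_⟩
    -- the error
    have h7 : 4096 * C₁ ^ 2 * (‖z'‖ ^ 2 * Real.log ‖z'‖) * Real.log ‖z'‖ / D ≤
        16384 * C₁ ^ 2 * (y / V) * l := by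
      rw [div_le_iff₀ hD0]
      calc 4096 * C₁ ^ 2 * (‖z'‖ ^ 2 * Real.log ‖z'‖) * Real.log ‖z'‖
          ≤ 4096 * C₁ ^ 2 * (2 * (R ^ 2 * l)) * (2 * l) := by
            refine mul_le_mul (mul_le_mul_of_nonneg_left hsq (by positivity)) hlog' hlog0
              (by positivity)
        _ = 16384 * C₁ ^ 2 * l / V * (V * (R ^ 2 * l)) := by
            field_simp
            ring
        _ ≤ 16384 * C₁ ^ 2 * l / V * (D * y) := mul_le_mul_of_nonneg_left hyD (by positivity)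
        _ = _ := by ring
    have h8 : CJ * (16384 * C₁ ^ 2 * (y / V) * l) ≤ η * y * l := by
      have h9 : CJ * 16384 * C₁ ^ 2 ≤ V * η := by
        have h91 : 0 ≤ C₁ ^ 2 * CJ := by positivity
        calc CJ * 16384 * C₁ ^ 2 = 16384 * (C₁ ^ 2 * CJ) := by ring
          _ ≤ 20000 * (C₁ ^ 2 * CJ) := mul_le_mul_of_nonneg_right (by norm_num) h91
          _ = 20000 * C₁ ^ 2 * CJ := by ring
          _ ≤ V * η := q4
      calc CJ * (16384 * C₁ ^ 2 * (y / V) * l) = (CJ * 16384 * C₁ ^ 2) * (y / V * l) := by ring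
        _ ≤ (V * η) * (y / V * l) := mul_le_mul_of_nonneg_right h9 (by positivity)
        _ = η * y * l := by field_simp
    have h10 : CJ ≤ η * y * l := by
      have h11 : CJ ≤ V * η * (1 / 2) := by linarith
      have h12 : V * η ≤ η * y := by
        rw [mul_comm V η]
        exact mul_le_mul_of_nonneg_left hyV hη0.le
      calc CJ ≤ (V * η) * (1 / 2) := h11
        _ ≤ (η * y) * l := mul_le_mul h12 hl0 (by norm_num) (by positivity)
    calc CJ * (4096 * C₁ ^ 2 * (‖z'‖ ^ 2 * Real.log ‖z'‖) * Real.log ‖z'‖ / D + 1)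
        ≤ CJ * (16384 * C₁ ^ 2 * (y / V) * l + 1) :=
          mul_le_mul_of_nonneg_left (by linarith) (by linarith)
      _ = CJ * (16384 * C₁ ^ 2 * (y / V) * l) + CJ := by ring
      _ ≤ η * y * l + η * y * l := add_le_add h8 h10
      _ = 2 * η * y * l := by ring
  -- the local coordinate
  have hlam0 : 0 < ‖lam‖ := by
    have : 0 < l / 4 := by linarith
    linarith
  have hlamne : lam ≠ 0 := norm_pos_iff.1 hlam0
  set r : ℝ := κ * R * y with hr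
  have hr0 : 0 < r := by positivity
  set u : ℂ := conj lam / (‖lam‖ : ℂ) with hu
  have hun : ‖u‖ = 1 := by
    rw [hu, norm_div, Complex.norm_real, Complex.norm_conj, norm_norm, div_self hlam0.ne']
  set N : ℝ := ‖lam‖ * y * κ with hN
  have hNl : l * y * κ / 4 ≤ N := by
    have h5 : (l / 4) * y ≤ ‖lam‖ * y := mul_le_mul_of_nonneg_right hlam1 hy0.le
    have h6 : (l / 4) * y * κ ≤ ‖lam‖ * y * κ := mul_le_mul_of_nonneg_right h5 hκ0.le
    rw [hN]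
    linarith
  have hly : V / 2 ≤ l * y := by
    calc V / 2 = 1 / 2 * V := by ring
      _ ≤ l * y := mul_le_mul hl0 hyV (by linarith) (by linarith)
  have hNpos : 0 < N := by
    have : 0 < l * y * κ / 4 := by positivity
    linarith
  have hB : ∀ w ∈ Metric.ball (0 : ℂ) 1, Hd D ff (z ^ 2 + (r * u) * w) ≠ 0 ∧
      |Real.log ‖Hd D ff (z ^ 2 + (r * u) * w)‖ - Real.log ‖ff (z ^ 2)‖ - N * w.re| ≤ η₀ * N := by
    intro w hw
    have hw1 : ‖w‖ < 1 := by simpa using hw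
    have e0 : z ^ 2 + (r * u) * w - z ^ 2 = (r * u) * w := by ring
    have hdist : ‖z ^ 2 + (r * u) * w - z ^ 2‖ ≤ κ * R * y := by
      rw [e0, norm_mul, norm_mul, hun, Complex.norm_real, Real.norm_of_nonneg hr0.le, mul_one]
      calc r * ‖w‖ ≤ r * 1 := mul_le_mul_of_nonneg_left hw1.le hr0.le
        _ = _ := by rw [mul_one]
    obtain ⟨h5, h6⟩ := hdisc _ hdist
    refine ⟨h5, ?_⟩
    have h7 := hlin (z ^ 2 + (r * u) * w) hdist
    have e1 : (lam * ((z ^ 2 + (r * u) * w - z ^ 2) / (‖z‖ : ℂ))).re = N * w.re := by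
      rw [e0]
      have e2 : lam * ((r * u) * w / (‖z‖ : ℂ)) = ((N : ℝ) : ℂ) * w := by
        have e3 : lam * conj lam = ((‖lam‖ ^ 2 : ℝ) : ℂ) := by
          rw [Complex.mul_conj, Complex.normSq_eq_norm_sq]
        have e4 : (‖lam‖ : ℂ) ≠ 0 := by exact_mod_cast hlam0.ne'
        have e5 : (R : ℂ) ≠ 0 := by exact_mod_cast hR0.ne'
        change lam * ((r * u) * w / (R : ℂ)) = ((N : ℝ) : ℂ) * w
        rw [hu, hr, hN]
        push_cast at e3 ⊢
        have e6 : lam * ((κ : ℂ) * R * y * (conj lam / (‖lam‖ : ℂ)) * w / R) =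
            (κ : ℂ) * y * w / (‖lam‖ : ℂ) * (lam * conj lam) := by
          field_simp
        rw [e6, e3]
        field_simp
      rw [e2, Complex.re_ofReal_mul]
    rw [e1] at h7
    have h8 : |Real.log ‖Hd D ff (z ^ 2 + (r * u) * w)‖ - Real.log ‖ff (z ^ 2)‖ - N * w.re| ≤
        2 * η * y * l + κ ^ 2 * y * l := by
      have e3 : Real.log ‖Hd D ff (z ^ 2 + (r * u) * w)‖ - Real.log ‖ff (z ^ 2)‖ - N * w.re =
          (Real.log ‖Hd D ff (z ^ 2 + (r * u) * w)‖ - Real.log ‖ff (z ^ 2 + (r * u) * w)‖) +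
          (Real.log ‖ff (z ^ 2 + (r * u) * w)‖ - Real.log ‖ff (z ^ 2)‖ - N * w.re) := by ring
      rw [e3]
      exact (abs_add_le _ _).trans (add_le_add h6 h7)
    refine h8.trans ?_
    have h9 : l * y * κ ≤ 4 * N := by linarith
    calc 2 * η * y * l + κ ^ 2 * y * l = 2 * κ * (l * y * κ) := by rw [hη]; ring
      _ ≤ 2 * κ * (4 * N) := mul_le_mul_of_nonneg_left h9 (by positivity)
      _ = 1 / 4 * (η₀ * N) := by rw [hκ]; ring
      _ ≤ η₀ * N := by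
        have : 0 < η₀ * N := by positivity
        linarith
  have hnN : (n : ℝ) ≤ η₀ * N := by
    have h5 : η₀ * (l * y * κ / 4) ≤ η₀ * N := mul_le_mul_of_nonneg_left hNl hη₀.le
    have h6 : A * l ≤ η₀ * (l * y * κ / 4) := by
      have h7 : 4 * A ≤ y * (η₀ * κ) :=
        q6.trans (mul_le_mul_of_nonneg_right hyV (by positivity))
      have h8 : 4 * A * l ≤ y * (η₀ * κ) * l := mul_le_mul_of_nonneg_right h7 (by linarith)
      have e8 : η₀ * (l * y * κ / 4) = y * (η₀ * κ) * l / 4 := by ring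
      rw [e8]
      linarith
    linarith
  have hNN : ND ≤ N := by
    have h5 : V / 2 * κ ≤ l * y * κ := mul_le_mul_of_nonneg_right hly hκ0.le
    linarith
  have hcd := jd_FZ_diff D ff
  have hfin := hDB N η₀ (Real.log ‖ff (z ^ 2)‖) n (fun w => Hd D ff (z ^ 2 + (r * u) * w)) hNN hη₀.le
    le_rfl hnN (by
      apply Differentiable.differentiableOn
      exact (hcd.differentiable (by simp)).comp
        ((differentiable_const _).add ((differentiable_const _).mul differentiable_id))) hB 0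
      (by simp)
  intro h0
  apply hfin.1
  have e1 : iteratedDeriv n (fun w => Hd D ff (z ^ 2 + (r * u) * w)) = fun x =>
      ((r : ℂ) * u) ^ n * iteratedDeriv n (fun w => Hd D ff (z ^ 2 + w)) ((r * u) * x) := by
    have hcd2 : ContDiff ℂ n (fun w => Hd D ff (z ^ 2 + w)) :=
      (hcd.comp (contDiff_const.add contDiff_id)).of_le (by simp)
    exact iteratedDeriv_comp_const_mul hcd2 ((r : ℂ) * u)
  rw [e1]
  simp only [mul_zero]
  rw [iteratedDeriv_comp_const_add]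
  simp [h0]

end Pool.Agent.Lib.MP_cd509c_nt.JD
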