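import Pool.Agent.Lib.MP_cd509c_nt.JD.StmK

/-!
# JD, piece Fd: derivative of the integrand (helper25)
-/

set_option autoImplicit false

namespace Pool.Agent.Lib.MP_cd509c_nt.JD

open Complex ComplexConjugate MeasureTheory
open Pool.Agent.Lib.MP_cd509c_nt.DN

/-- the rotation in the local coordinate, for all `v` -/
theorem Fd_om {x a : ℝ} (hx : x ≠ 0) (ha : a ≠ 0) (w v : ℂ) :
    om x a w * cexp (-(2 * a * v / x * I)) = om x a (Wp x a w v) := by
  have ha' : (a : ℂ) ≠ 0 := Complex.ofReal_ne_zero.2 ha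
  unfold om Wp
  generalize cexp (-(2 * a * v / x * I)) = E
  field_simp
  linear_combination ((x : ℂ) ^ 2 * (E - 1)) * I_sq

theorem Fd_FF {x a : ℝ} (hx : x ≠ 0) (ha : a ≠ 0) (D : ℕ) (g : ℂ → ℂ) (w : ℂ) :
    FF D x a g w = fun v => kD D (-(2 * a * v / x)) * (fun u => g (om x a u)) (Wp x a w v) := by
  funext v
  unfold FF
  rw [Fd_om hx ha]

theorem p_Fd (h1 : S_wp) (h2 : S_kr) (h3 : S_ld) : S_Fd := by
  intro B hB
  refine ⟨9 * B + 1, by linarith, ?_⟩
  intro C₁ ε D N b Y x a g hc w hw v hv1 hv2 hv3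
  obtain ⟨e0, e1, N1, b1, Yb, Y0, a0, x0, ax, D1, bB, reg⟩ := hc
  obtain ⟨hw1, hw2, hw3⟩ := hw
  have hY : 160 ≤ Y := by linarith
  have hεY : ε * Y ≤ Y / 100 := by nlinarith
  have hvn : ‖v‖ ≤ Y / 100 := by
    have h4 := Complex.norm_le_abs_re_add_abs_im v
    have h5 : |v.re| ≤ 8 * B := abs_le.2 ⟨by linarith, hv2⟩
    linarith
  have hwn : ‖w‖ ≤ Y / 2 := by
    have h4 := Complex.norm_le_abs_re_add_abs_im w
    have h5 : |w.re| ≤ Y / 4 + b := abs_le.2 ⟨by linarith, hw2⟩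
    linarith
  have hv0 := norm_nonneg v
  have hw0 := norm_nonneg w
  have hD0 : (0 : ℝ) < D := by exact_mod_cast D1
  have hβ : 0 < bet D N x a := by
    unfold bet
    positivity
  have haY : a * Y ≤ a * Y ^ 2 := by
    have : 0 ≤ a * Y * (Y - 1) := by
      have h4 : 0 ≤ Y - 1 := by linarith
      positivity
    nlinarith
  have h8 : 8 * a * ‖v‖ ≤ x := by
    have h4 : a * ‖v‖ ≤ a * Y := by
      apply mul_le_mul_of_nonneg_left _ a0.le
      linarith
    have h5 : ε * x ≤ x := by nlinarith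
    nlinarith
  have hb1 : 4 * a * ‖v‖ * (‖v‖ + ‖w‖) / x ≤ ε / 250 := by
    rw [div_le_iff₀ x0]
    have h4 : ‖v‖ * (‖v‖ + ‖w‖) ≤ Y * Y := by
      apply mul_le_mul (by linarith) (by linarith) (by positivity) (by linarith)
    have h5 : a * (‖v‖ * (‖v‖ + ‖w‖)) ≤ a * (Y * Y) := mul_le_mul_of_nonneg_left h4 a0.le
    nlinarith
  have hb2 : 4 * a * (‖v‖ + ‖w‖) / x ≤ ε / 250 := by
    rw [div_le_iff₀ x0]
    have h5 : a * (‖v‖ + ‖w‖) ≤ a * Y := mul_le_mul_of_nonneg_left (by linarith) a0.le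
    nlinarith
  obtain ⟨-, q2, q3, q4⟩ := h1 x a w v a0 x0 h8
  obtain ⟨-, κ', hκ, hK⟩ := (h2 D N x a D1 (by linarith) a0 x0).1 v h8
  obtain ⟨w', hw'⟩ : ∃ w', w' = Wp x a w v := ⟨_, rfl⟩
  obtain ⟨E', hE'⟩ : ∃ E', E' = cexp (-(2 * a * v / x * I)) * (1 - 2 * I * a * w / x) := ⟨_, rfl⟩
  rw [← hE'] at q3 q4
  rw [← hw'] at q2
  have q2' : ‖w' - (w + v)‖ ≤ ε / 250 := q2.trans hb1
  have q4' : ‖E' - 1‖ ≤ ε / 250 := q4.trans hb2
  have hre : |w'.re - (w.re + v.re)| ≤ ε / 250 := by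
    have h4 := (Complex.abs_re_le_norm (w' - (w + v))).trans q2'
    simpa using h4
  have him : |w'.im - (w.im + v.im)| ≤ ε / 250 := by
    have h4 := (Complex.abs_im_le_norm (w' - (w + v))).trans q2'
    simpa using h4
  rw [abs_le] at hre him hw3 hv3
  have r1 : b / 16 < w'.re := by linarith
  have r2 : w'.re < Y := by linarith
  have r3 : |w'.im| < 24 * b := by
    rw [abs_lt]
    constructor <;> linarith
  have hld := h3 C₁ ε N b Y x a g e0 (by linarith) (by linarith) reg w' r1 r2 r3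
  have hG0 : g (om x a w') ≠ 0 := reg.ne w' r1.le r2.le r3.le
  obtain ⟨G, hG⟩ : ∃ G : ℂ → ℂ, G = fun u => g (om x a u) := ⟨_, rfl⟩
  have hGd : HasDerivAt G (deriv G w') w' := by
    have h4 : DifferentiableAt ℂ G w' := by
      rw [hG]
      have h5 : DifferentiableAt ℂ (fun u : ℂ => om x a u) w' := by
        unfold om
        fun_prop
      exact (reg.diff (om x a w')).comp w' h5
    exact h4.hasDerivAt
  rw [← hG] at hld
  have hGw : G w' = g (om x a w') := by rw [hG]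
  rw [← hGw] at hld hG0
  obtain ⟨K, hKdef⟩ : ∃ K : ℂ → ℂ, K = fun v => kD D (-(2 * a * v / x)) := ⟨_, rfl⟩
  have hK' : HasDerivAt K (K v * (-(N * v / bet D N x a) + κ')) v := by
    rw [hKdef]
    exact hK
  have hK0 : K v ≠ 0 := by
    rw [hKdef]
    unfold kD
    exact Complex.exp_ne_zero _
  have hFF : FF D x a g w = fun v => K v * G (Wp x a w v) := by
    rw [Fd_FF x0.ne' a0.ne', hKdef, hG]
  have hcomp : HasDerivAt (fun v => G (Wp x a w v)) (deriv G w' * E') v := by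
    rw [hw'] at hGd ⊢
    exact hGd.comp v q3
  have hder := hK'.mul hcomp
  have hder' : HasDerivAt (FF D x a g w) (K v * (-(N * v / bet D N x a) + κ') *
      G (Wp x a w v) + K v * (deriv G w' * E')) v := by
    rw [hFF]
    exact hder
  have hFv : FF D x a g w v = K v * G w' := by
    rw [hFF, hw']
  refine ⟨hder'.differentiableAt, ?_, ?_⟩
  · rw [hFv]
    exact mul_ne_zero hK0 hG0
  · rw [hder'.deriv, hFv, ← hw']
    obtain ⟨e, he⟩ : ∃ e, e = deriv G w' / G w' - N := ⟨_, rfl⟩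
    rw [← he] at hld
    have hq : (K v * (-(N * v / bet D N x a) + κ') * G w' + K v * (deriv G w' * E')) /
        (K v * G w') - N * (1 - v / bet D N x a) = κ' + N * (E' - 1) + e + e * (E' - 1) := by
      have h4 : deriv G w' = (N + e) * G w' := by
        rw [he]
        field_simp
        ring
      rw [h4]
      have h5 : (bet D N x a : ℂ) ≠ 0 := Complex.ofReal_ne_zero.2 hβ.ne'
      field_simp
      ring
    rw [hq]
    have hN0 : (0 : ℝ) < N := by linarith
    have t1 : ‖κ'‖ ≤ ε * N * (‖v‖ / bet D N x a) := by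
      refine hκ.trans ?_
      have h4 : a * ‖v‖ / x ≤ ε / 2 := by
        rw [div_le_iff₀ x0]
        have h5 : a * ‖v‖ ≤ a * Y := mul_le_mul_of_nonneg_left (by linarith) a0.le
        nlinarith [mul_pos e0 x0]
      have h6 : 2 * (N / bet D N x a) * (a / x) * ‖v‖ ^ 2 =
          2 * N * (‖v‖ / bet D N x a) * (a * ‖v‖ / x) := by ring
      rw [h6]
      have h7 : 0 ≤ 2 * N * (‖v‖ / bet D N x a) := by positivity
      calc 2 * N * (‖v‖ / bet D N x a) * (a * ‖v‖ / x)
          ≤ 2 * N * (‖v‖ / bet D N x a) * (ε / 2) := mul_le_mul_of_nonneg_left h4 h7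
        _ = ε * N * (‖v‖ / bet D N x a) := by ring
    have t2 : ‖(N : ℂ) * (E' - 1)‖ ≤ N * (ε / 250) := by
      rw [norm_mul, Complex.norm_real, Real.norm_of_nonneg hN0.le]
      exact mul_le_mul_of_nonneg_left q4' hN0.le
    have t3 : ‖e * (E' - 1)‖ ≤ ε * N * (ε / 250) := by
      rw [norm_mul]
      exact mul_le_mul hld q4' (norm_nonneg _) (by positivity)
    have t4 : ‖κ' + N * (E' - 1) + e + e * (E' - 1)‖ ≤
        ε * N * (‖v‖ / bet D N x a) + N * (ε / 250) + ε * N + ε * N * (ε / 250) := by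
      refine (norm_add_le _ _).trans (add_le_add ?_ t3)
      refine (norm_add_le _ _).trans (add_le_add ?_ hld)
      exact (norm_add_le _ _).trans (add_le_add t1 t2)
    refine t4.trans ?_
    have t5 : 0 ≤ ε * N := by positivity
    have t6 : 0 ≤ ‖v‖ / bet D N x a := by positivity
    nlinarith [mul_nonneg t5 t6]

end Pool.Agent.Lib.MP_cd509c_nt.JD
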