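import Pool.Agent.Lib.MP_cd509c_nt.JD.Defs

/-!
# Piece J: dyadic summation
-/

set_option autoImplicit false

namespace Pool.Agent.Lib.MP_cd509c_nt.JD

open Complex ComplexConjugate MeasureTheory Filter
open Pool.Agent.Lib.MP_cd509c_nt.DN

theorem J_one (c : ℝ) (hc : 0 < c) (y : ℝ) (hy : 0 < y) :
    y * Real.exp (-(c * y ^ 2)) ≤ (4 + 3 / c) * (y / (1 + y) - (y / 2) / (1 + y / 2)) := by
  have h1 : y / (1 + y) - (y / 2) / (1 + y / 2) = y / ((1 + y) * (2 + y)) := by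
    field_simp
    ring
  rw [h1, mul_div_assoc', le_div_iff₀ (by positivity)]
  have h2 : Real.exp (-(c * y ^ 2)) ≤ 1 / (1 + c * y ^ 2) := by
    rw [Real.exp_neg, ← one_div]
    apply one_div_le_one_div_of_le (by positivity)
    linarith [Real.add_one_le_exp (c * y ^ 2)]
  have h3 : (1 + y) * (2 + y) ≤ (4 + 3 / c) * (1 + c * y ^ 2) := by
    have h4 : (4 + 3 / c) * (1 + c * y ^ 2) = 4 + 3 / c + 4 * c * y ^ 2 + 3 * y ^ 2 := by
      field_simp
      ring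
    rw [h4]
    have h5 : 0 < 3 / c := by positivity
    have h6 : 0 < 4 * c * y ^ 2 := by positivity
    nlinarith [sq_nonneg (y - 1)]
  have h7 : 0 < 1 + c * y ^ 2 := by positivity
  calc y * Real.exp (-(c * y ^ 2)) * ((1 + y) * (2 + y))
      ≤ y * (1 / (1 + c * y ^ 2)) * ((4 + 3 / c) * (1 + c * y ^ 2)) := by
        apply mul_le_mul _ h3 (by positivity) (by positivity)
        exact mul_le_mul_of_nonneg_left h2 hy.le
    _ = (4 + 3 / c) * y := by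
        field_simp

theorem J_sum (c : ℝ) (hc : 0 < c) (y : ℕ → ℝ) (hy : ∀ k, 0 < y k)
    (hd : ∀ k, 2 * y k ≤ y (k + 1)) (M : ℕ) :
    ∑ k ∈ Finset.range M, y k * Real.exp (-(c * y k ^ 2)) ≤ 4 + 3 / c := by
  have hC : 0 < 4 + 3 / c := by positivity
  have mono : ∀ a b : ℝ, 0 < a → a ≤ b → a / (1 + a) ≤ b / (1 + b) := by
    intro a b ha hab
    rw [div_le_div_iff₀ (by linarith) (by linarith)]
    nlinarith
  have key : ∀ M : ℕ, ∑ k ∈ Finset.range (M + 1), y k * Real.exp (-(c * y k ^ 2)) ≤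
      (4 + 3 / c) * (y M / (1 + y M)) := by
    intro M
    induction M with
    | zero =>
      rw [Finset.sum_range_one]
      refine (J_one c hc (y 0) (hy 0)).trans ?_
      apply mul_le_mul_of_nonneg_left _ hC.le
      have h0 := hy 0
      have h1 : 0 < (y 0 / 2) / (1 + y 0 / 2) := by positivity
      linarith
    | succ M ih =>
      rw [Finset.sum_range_succ]
      have h1 := J_one c hc (y (M + 1)) (hy (M + 1))
      have h2 := mono (y M) (y (M + 1) / 2) (hy M) (by linarith [hd M])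
      have h3 := mul_le_mul_of_nonneg_left h2 hC.le
      rw [mul_sub] at h1
      linarith
  cases M with
  | zero => simpa using hC.le
  | succ M =>
    refine (key M).trans ?_
    have h0 := hy M
    have h1 : y M / (1 + y M) ≤ 1 := by
      rw [div_le_one (by linarith)]
      linarith
    nlinarith

/-- the bound for one block, from the three available bounds -/
theorem J_block {B C1 c1 C2 c2 C0 c3 C3 o T l x n : ℝ} (hB : 1 ≤ B) (hC1 : 0 < C1)
    (hc1 : 0 < c1) (hC2 : 0 < C2) (hc2 : 0 < c2) (hC0 : 1 ≤ C0) (hx : 0 < x) (hn : 0 ≤ n)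
    (hn1 : n = 0 ∨ 1 ≤ n) (hTl : 0 ≤ T * l) (hc3 : 0 < c3) (h31 : c3 ≤ c2 / 2)
    (h32 : c3 ≤ c1 / (1 + B)) (hC31 : C1 ≤ C3) (hC32 : C2 ≤ C3)
    (hC33 : 10 * C0 * Real.exp (c3 * ((1 + B) * (C1 + 1))) ≤ C3)
    (hI : C1 ≤ n → T ^ 2 * l ^ 2 ≤ B * n * x → o ≤ C1 * T * l * Real.exp (-(c1 * n)))
    (hII : B * n * x ≤ T ^ 2 * l ^ 2 → B * x ≤ T ^ 2 * l ^ 2 →
      o ≤ C2 * T * l * Real.exp (-(c2 * T ^ 2 * l ^ 2 / x)))
    (hL : o ≤ 10 * C0 * (T * l)) :
    o ≤ C3 * (T * l) * Real.exp (-(c3 * (n + T ^ 2 * l ^ 2 / x))) := by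
  set v : ℝ := T ^ 2 * l ^ 2 / x with hv
  have hv0 : 0 ≤ v := by
    rw [hv]
    positivity
  have hvx : v * x = T ^ 2 * l ^ 2 := by
    rw [hv]
    field_simp
  have hC3 : 0 < C3 := lt_of_lt_of_le hC1 hC31
  by_cases h1 : B * n ≤ v ∧ B ≤ v
  · -- region II
    obtain ⟨h1a, h1b⟩ := h1
    have h2 := hII (by rw [← hvx]; exact mul_le_mul_of_nonneg_right h1a hx.le)
      (by rw [← hvx]; exact mul_le_mul_of_nonneg_right h1b hx.le)
    have h3 : c2 * T ^ 2 * l ^ 2 / x = c2 * v := by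
      rw [hv]
      ring
    rw [h3] at h2
    refine h2.trans ?_
    have h4 : Real.exp (-(c2 * v)) ≤ Real.exp (-(c3 * (n + v))) := by
      apply Real.exp_le_exp.mpr
      have h5 : n ≤ v := by nlinarith
      have h6 : c3 * (n + v) ≤ c2 / 2 * (v + v) := by
        apply mul_le_mul h31 (by linarith) (by linarith) (by linarith)
      linarith
    calc C2 * T * l * Real.exp (-(c2 * v)) = C2 * (T * l) * Real.exp (-(c2 * v)) := by ring
      _ ≤ C3 * (T * l) * Real.exp (-(c3 * (n + v))) := by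
        apply mul_le_mul _ h4 (Real.exp_pos _).le (by positivity)
        exact mul_le_mul_of_nonneg_right hC32 hTl
  · by_cases h2 : v ≤ B * n ∧ C1 ≤ n
    · -- region I
      obtain ⟨h2a, h2b⟩ := h2
      have h3 := hI h2b (by rw [← hvx]; exact mul_le_mul_of_nonneg_right h2a hx.le)
      refine h3.trans ?_
      have h4 : Real.exp (-(c1 * n)) ≤ Real.exp (-(c3 * (n + v))) := by
        apply Real.exp_le_exp.mpr
        have h6 : c3 * (n + v) ≤ c1 / (1 + B) * ((1 + B) * n) := by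
          apply mul_le_mul h32 (by linarith) (by linarith) (by positivity)
        have h7 : c1 / (1 + B) * ((1 + B) * n) = c1 * n := by
          field_simp
        linarith
      calc C1 * T * l * Real.exp (-(c1 * n)) = C1 * (T * l) * Real.exp (-(c1 * n)) := by ring
        _ ≤ C3 * (T * l) * Real.exp (-(c3 * (n + v))) := by
          apply mul_le_mul _ h4 (Real.exp_pos _).le (by positivity)
          exact mul_le_mul_of_nonneg_right hC31 hTl
    · -- bounded `n` and `v`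
      have h3 : n + v ≤ (1 + B) * (C1 + 1) := by
        by_cases h4 : v ≤ B * n
        · have h5 : n < C1 := by
            by_contra h
            exact h2 ⟨h4, not_lt.mp h⟩
          nlinarith
        · have h5 : B * n ≤ v := (not_le.mp h4).le
          have h6 : v < B := by
            by_contra h
            exact h1 ⟨h5, not_lt.mp h⟩
          rcases hn1 with h7 | h7
          · rw [h7]
            nlinarith
          · exfalso
            nlinarith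
      refine hL.trans ?_
      have h4 : 10 * C0 ≤ C3 * Real.exp (-(c3 * (n + v))) := by
        rw [Real.exp_neg, ← div_eq_mul_inv, le_div_iff₀ (Real.exp_pos _)]
        refine le_trans ?_ hC33
        apply mul_le_mul_of_nonneg_left _ (by positivity)
        apply Real.exp_le_exp.mpr
        exact mul_le_mul_of_nonneg_left h3 hc3.le
      calc 10 * C0 * (T * l) ≤ C3 * Real.exp (-(c3 * (n + v))) * (T * l) :=
            mul_le_mul_of_nonneg_right h4 hTl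
        _ = C3 * (T * l) * Real.exp (-(c3 * (n + v))) := by ring

theorem J_ordS_nonneg (f : ℂ → ℂ) (S : Finset ℂ) : 0 ≤ ordS f S :=
  Finset.sum_nonneg fun _ _ => Nat.cast_nonneg _

/-- covering by blocks -/
theorem J_cover (f : ℂ → ℂ) (S : Finset ℂ) (P : ℕ → ℂ → Prop) [∀ k, DecidablePred (P k)]
    (h : ∀ ω ∈ S, ∃ k, P k ω) :
    ∃ M : ℕ, ordS f S ≤ ∑ k ∈ Finset.range M, ordS f (S.filter (P k)) := by
  classical
  choose! κ hκ using h
  refine ⟨S.sup κ + 1, ?_⟩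
  unfold ordS
  have h1 : ∀ k : ℕ, ∑ ω ∈ S.filter (P k), (analyticOrderNatAt f ω : ℝ) =
      ∑ ω ∈ S, if P k ω then (analyticOrderNatAt f ω : ℝ) else 0 := by
    intro k
    rw [Finset.sum_filter]
  simp only [h1]
  rw [Finset.sum_comm]
  apply Finset.sum_le_sum
  intro ω hω
  have h2 : κ ω ∈ Finset.range (S.sup κ + 1) := by
    rw [Finset.mem_range]
    have := Finset.le_sup (f := κ) hω
    omega
  have h3 := Finset.single_le_sum (f := fun k => if P k ω then (analyticOrderNatAt f ω : ℝ) else 0)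
    (s := Finset.range (S.sup κ + 1)) (fun k _ => by
      split_ifs <;> positivity) h2
  simp only [if_pos (hκ ω hω)] at h3
  exact h3

/-- largeness -/
theorem J_large (Q : ℝ) : ∀ᶠ x : ℝ in atTop, 1 ≤ x ∧ Q ≤ Real.log x ∧
    Q * Real.log x ^ 8 ≤ x ^ (1 / 10 : ℝ) := by
  have h1 : ∀ᶠ x : ℝ in atTop, Q ≤ Real.log x := Real.tendsto_log_atTop.eventually_ge_atTop Q
  have h2 : ∀ᶠ x : ℝ in atTop, ‖Real.log x ^ (8 : ℝ)‖ ≤ (1 / (|Q| + 1)) * ‖x ^ (1 / 10 : ℝ)‖ :=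
    (isLittleO_log_rpow_rpow_atTop (8 : ℝ) (by norm_num : (0 : ℝ) < 1 / 10)).bound
      (by positivity)
  filter_upwards [h1, h2, eventually_ge_atTop (1 : ℝ)] with x hx1 hx2 hx3
  refine ⟨hx3, hx1, ?_⟩
  have h3 : 0 ≤ Real.log x := Real.log_nonneg hx3
  have h4 : 0 ≤ x ^ (1 / 10 : ℝ) := by positivity
  have h5 : Real.log x ^ (8 : ℝ) = Real.log x ^ 8 := by
    rw [← Real.rpow_natCast]
    norm_num
  rw [h5, Real.norm_of_nonneg (by positivity), Real.norm_of_nonneg h4, div_mul_eq_mul_div,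
    one_mul, le_div_iff₀ (by positivity)] at hx2
  have h6 : Q ≤ |Q| + 1 := by linarith [le_abs_self Q]
  have h7 : 0 ≤ Real.log x ^ 8 := by positivity
  nlinarith

theorem J_root {ω z : ℂ} (h : z ^ 2 = ω) :
    ‖z‖ ^ 2 = ‖ω‖ ∧ 2 * z.im ^ 2 = ‖ω‖ - ω.re := by
  have h1 : ‖z‖ ^ 2 = ‖ω‖ := by rw [← norm_pow, h]
  refine ⟨h1, ?_⟩
  have h2 : ω.re = z.re ^ 2 - z.im ^ 2 := by
    rw [← h, sq]
    simp only [Complex.mul_re]
    ring
  have h3 : ‖z‖ ^ 2 = z.re ^ 2 + z.im ^ 2 := by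
    rw [← Complex.normSq_eq_norm_sq, Complex.normSq_apply]
    ring
  rw [← h1, h2, h3]
  ring

theorem J_aL {a Q L w : ℝ} {j : ℕ} (ha0 : 0 ≤ a) (ha : a ≤ Q) (hL : 1 ≤ L) (hj : j ≤ 8)
    (hQ : Q * L ^ 8 ≤ w) : a * L ^ j ≤ w :=
  (mul_le_mul ha (pow_le_pow_right₀ hL hj) (by positivity) (ha0.trans ha)).trans hQ

theorem J_big {Q x : ℝ} (hx1 : 1 ≤ x) (hQ : 100 ≤ Q) (hQL : Q ≤ Real.log x)
    (hQw : Q * Real.log x ^ 8 ≤ x ^ (1 / 10 : ℝ)) :
    ∃ w q : ℝ, 1 ≤ w ∧ 1 ≤ q ∧ w ^ 2 ≤ q ∧ q ^ 4 = x ∧ Real.sqrt x = q ^ 2 ∧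
      Real.log q = Real.log x / 4 ∧ w = Real.exp (Real.log x / 10) ∧
      Q * Real.log x ^ 8 ≤ w := by
  have hx0 : 0 < x := by linarith
  have hq4 : (x ^ (1 / 4 : ℝ)) ^ 4 = x := by
    rw [← Real.rpow_natCast, ← Real.rpow_mul hx0.le]
    norm_num
  refine ⟨x ^ (1 / 10 : ℝ), x ^ (1 / 4 : ℝ), Real.one_le_rpow hx1 (by norm_num),
    Real.one_le_rpow hx1 (by norm_num), ?_, hq4, ?_, ?_, ?_, hQw⟩
  · rw [← Real.rpow_natCast, ← Real.rpow_mul hx0.le]
    exact Real.rpow_le_rpow_of_exponent_le hx1 (by norm_num)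
  · have h : Real.sqrt x = Real.sqrt (((x ^ (1 / 4 : ℝ)) ^ 2) ^ 2) := by
      congr 1
      rw [← pow_mul]
      exact hq4.symm
    rw [h, Real.sqrt_sq (by positivity)]
  · rw [Real.log_rpow hx0]
    ring
  · rw [Real.rpow_def_of_pos hx0]
    congr 1
    ring

theorem J_step1 {C0 q w L : ℝ} (hC0 : 1 ≤ C0) (hq1 : 1 ≤ q) (hw1 : 1 ≤ w) (hwq : w ^ 2 ≤ q)
    (hL : 100 ≤ L) (h : 10 * C0 * L ^ 2 ≤ w) :
    C0 * (q * (2 * (L / 4)) + L ^ 2) ≤ q ^ 2 * (1 / w) := by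
  have e3 : q * w ≤ q ^ 2 * (1 / w) := by
    rw [mul_one_div, le_div_iff₀ (by linarith)]
    nlinarith
  refine le_trans ?_ e3
  have e6 : 2 * (L / 4) ≤ L ^ 2 := by nlinarith
  have e7 : q * (2 * (L / 4)) ≤ q * L ^ 2 := mul_le_mul_of_nonneg_left e6 (by linarith)
  have e8 : 1 * L ^ 2 ≤ q * L ^ 2 := mul_le_mul_of_nonneg_right hq1 (sq_nonneg L)
  have e5 : C0 * (q * (2 * (L / 4)) + L ^ 2) ≤ C0 * (q * L ^ 2 + q * L ^ 2) :=
    mul_le_mul_of_nonneg_left (by linarith) (by linarith)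
  refine e5.trans ?_
  have e9 : C0 * (q * L ^ 2 + q * L ^ 2) = q * (2 * C0 * L ^ 2) := by ring
  rw [e9]
  apply mul_le_mul_of_nonneg_left _ (by linarith)
  have e10 : 0 ≤ C0 * L ^ 2 := by positivity
  linarith

theorem J_step2 {ω z : ℂ} {q x : ℝ} (hz : z ^ 2 = ω) (hq1 : 1 ≤ q) (hq4 : q ^ 4 = x)
    (hbig : q ^ 2 < ‖ω‖) (hb : ‖ω‖ ≤ x * Real.log x ^ 2) (hcon : ω.re ≤ ‖ω‖ / 2)
    (hlq : Real.log q = Real.log x / 4) (hLx : Real.log x ^ 2 ≤ x) (hL : 1 ≤ Real.log x) :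
    q < ‖z‖ ∧ ‖z‖ ≤ x ∧ Real.log x / 4 ≤ Real.log ‖z‖ ∧ q / 2 ≤ |z.im| ∧
      ‖z‖ ^ 2 * Real.log ‖z‖ / x ≤ Real.log x ^ 3 := by
  obtain ⟨e1, e2⟩ := J_root hz
  have hx0 : 0 < x := by
    rw [← hq4]
    positivity
  have hn := norm_nonneg z
  have hzq : q < ‖z‖ := by
    have : q ^ 2 < ‖z‖ ^ 2 := by rw [e1]; exact hbig
    exact lt_of_pow_lt_pow_left₀ 2 hn this
  have hzx : ‖z‖ ≤ x := by
    have e4 : ‖z‖ ^ 2 ≤ x ^ 2 := by
      rw [e1, sq x]
      exact hb.trans (mul_le_mul_of_nonneg_left hLx hx0.le)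
    exact (sq_le_sq₀ hn hx0.le).mp e4
  have hz0 : 0 < ‖z‖ := by linarith
  have hlz1 : Real.log x / 4 ≤ Real.log ‖z‖ := by
    rw [← hlq]
    exact Real.log_le_log (by linarith) hzq.le
  have hlz2 : Real.log ‖z‖ ≤ Real.log x := Real.log_le_log hz0 hzx
  refine ⟨hzq, hzx, hlz1, ?_, ?_⟩
  · have e5 : (q / 2) ^ 2 ≤ |z.im| ^ 2 := by
      rw [sq_abs]
      have : (q / 2) ^ 2 = q ^ 2 / 4 := by ring
      rw [this]
      linarith
    exact (sq_le_sq₀ (by linarith) (abs_nonneg _)).mp e5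
  · rw [div_le_iff₀ hx0, e1]
    calc ‖ω‖ * Real.log ‖z‖ ≤ (x * Real.log x ^ 2) * Real.log x :=
          mul_le_mul hb hlz2 (by linarith) (by positivity)
      _ = Real.log x ^ 3 * x := by ring

theorem J_V {V L q : ℝ} (hV : 1 ≤ V) (hL : 1 ≤ L) (h : 4 * V * L ^ 3 ≤ q) {t : ℝ}
    (ht : t ≤ L ^ 3) : V * (1 + t) ≤ q / 2 := by
  have h1 : (1 : ℝ) ≤ L ^ 3 := one_le_pow₀ hL
  have h2 : V * (1 + t) ≤ V * (L ^ 3 + L ^ 3) := mul_le_mul_of_nonneg_left (by linarith) (by linarith)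
  have h3 : V * (L ^ 3 + L ^ 3) = (4 * V * L ^ 3) / 2 := by ring
  linarith

/-- the facts on one block -/
theorem J_step3 {C0 T q x L : ℝ} (hC0 : 1 ≤ C0) (hq1 : 1 ≤ q) (hq4 : q ^ 4 = x)
    (hL : L = Real.log x) (hL100 : 100 ≤ L) (hTq : q / 2 ≤ T) (hl : L / 5 ≤ Real.log T)
    (hT2 : T ^ 2 ≤ x * L ^ 2) (hqL : L ^ 7 ≤ q ^ 2) (hqL1 : L ≤ q ^ 2) (hq10 : 10 * L ≤ q) :
    Real.log T ≤ L ∧ T * Real.log T ^ 6 ≤ x ∧
      C0 * (Real.sqrt (8 * T ^ 2) * Real.log (8 * T ^ 2) + L ^ 2) ≤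
        10 * C0 * (T * Real.log T) := by
  have hT0 : 0 < T := by linarith
  have hTup : T ≤ q ^ 2 * L := by
    have e3 : T ^ 2 ≤ (q ^ 2 * L) ^ 2 := by
      have : (q ^ 2 * L) ^ 2 = x * L ^ 2 := by rw [← hq4]; ring
      rw [this]
      exact hT2
    exact (sq_le_sq₀ hT0.le (by positivity)).mp e3
  have hTx : T ≤ x := by
    calc T ≤ q ^ 2 * L := hTup
      _ ≤ q ^ 2 * q ^ 2 := mul_le_mul_of_nonneg_left hqL1 (by positivity)
      _ = x := by rw [← hq4]; ring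
  have hlL : Real.log T ≤ L := by
    rw [hL]
    exact Real.log_le_log hT0 hTx
  have hl0 : 0 ≤ Real.log T := by linarith
  refine ⟨hlL, ?_, ?_⟩
  · have e1 : Real.log T ^ 6 ≤ L ^ 6 := pow_le_pow_left₀ hl0 hlL 6
    calc T * Real.log T ^ 6 ≤ (q ^ 2 * L) * L ^ 6 :=
          mul_le_mul hTup e1 (by positivity) (by positivity)
      _ = q ^ 2 * L ^ 7 := by ring
      _ ≤ q ^ 2 * q ^ 2 := mul_le_mul_of_nonneg_left hqL (by positivity)
      _ = x := by rw [← hq4]; ring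
  · have e2 : Real.sqrt (8 * T ^ 2) ≤ 3 * T := by
      rw [Real.sqrt_le_iff]
      constructor
      · linarith
      · have := sq_nonneg T
        have e : (3 * T) ^ 2 = 9 * T ^ 2 := by ring
        rw [e]
        linarith
    have e3 : Real.log (8 * T ^ 2) ≤ 3 * Real.log T := by
      rw [Real.log_mul (by norm_num) (by positivity), Real.log_pow]
      have e4 := Real.log_le_sub_one_of_pos (show (0 : ℝ) < 8 by norm_num)
      push_cast
      linarith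
    have e5 : 0 ≤ Real.log (8 * T ^ 2) := by
      apply Real.log_nonneg
      have h1 : (1 : ℝ) ≤ T := by linarith
      have h2 : (1 : ℝ) ≤ T ^ 2 := one_le_pow₀ h1
      linarith
    have e6 : Real.sqrt (8 * T ^ 2) * Real.log (8 * T ^ 2) ≤ (3 * T) * (3 * Real.log T) :=
      mul_le_mul e2 e3 e5 (by linarith)
    have e7 : L ^ 2 ≤ T * Real.log T := by
      calc L ^ 2 ≤ (q / 2) * (L / 5) := by nlinarith
        _ ≤ T * Real.log T := mul_le_mul hTq hl (by linarith) hT0.le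
    calc C0 * (Real.sqrt (8 * T ^ 2) * Real.log (8 * T ^ 2) + L ^ 2)
        ≤ C0 * ((3 * T) * (3 * Real.log T) + T * Real.log T) :=
          mul_le_mul_of_nonneg_left (by linarith) (by linarith)
      _ = 10 * C0 * (T * Real.log T) := by ring

theorem J_sqrt_nat {n : ℕ} {a : ℝ} (h : (n : ℝ) ≤ a) : Real.sqrt n ≤ a := by
  refine le_trans ?_ h
  rw [Real.sqrt_le_iff]
  refine ⟨Nat.cast_nonneg n, ?_⟩
  rcases Nat.eq_zero_or_pos n with h | h
  · rw [h]; simp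
  · have : (1 : ℝ) ≤ n := by exact_mod_cast h
    nlinarith

theorem J_KL {K A L s : ℝ} (hK : 1 ≤ K) (hA : 1 ≤ A) (hL : 1 ≤ L) (hs : s ≤ A * L)
    (hKA : K * (A + 1) ≤ L) : K * (s + 1) ≤ L ^ 2 := by
  have e1 : K * (s + 1) ≤ K * ((A + 1) * L) := by
    apply mul_le_mul_of_nonneg_left _ (by linarith)
    linarith
  have e2 : K * ((A + 1) * L) = (K * (A + 1)) * L := by ring
  have e3 : (K * (A + 1)) * L ≤ L * L := mul_le_mul_of_nonneg_right hKA (by linarith)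
  rw [sq]
  linarith

/-- the blocks cover -/
theorem J_dyadic {q r : ℝ} (hq : 0 < q) (h : q ^ 2 / 2 < r) :
    ∃ k : ℕ, (2 ^ k * (q / 2)) ^ 2 ≤ r ∧ r < 4 * (2 ^ k * (q / 2)) ^ 2 := by
  have hT : ∀ k : ℕ, (2 ^ k * (q / 2)) ^ 2 = 4 ^ k * (q ^ 2 / 4) := by
    intro k
    rw [mul_pow, ← pow_mul, mul_comm k 2, pow_mul]
    norm_num
    ring
  have hq2 : 0 < q ^ 2 := by positivity
  have e2 : 1 ≤ r / (q ^ 2 / 4) := by
    rw [le_div_iff₀ (by positivity)]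
    linarith
  obtain ⟨k, hk1, hk2⟩ := exists_nat_pow_near e2 (show (1 : ℝ) < 4 by norm_num)
  rw [le_div_iff₀ (by positivity)] at hk1
  rw [div_lt_iff₀ (by positivity)] at hk2
  refine ⟨k, ?_, ?_⟩
  · rw [hT]
    exact hk1
  · rw [hT, ← mul_assoc, ← pow_succ']
    exact hk2

/-- the sum over the blocks -/
theorem J_total {q L C3 c3 n x : ℝ} (hq1 : 1 ≤ q) (hq4 : q ^ 4 = x) (hL : 100 ≤ L)
    (hlogq : Real.log q = L / 4) (hC3 : 0 < C3) (hc3 : 0 < c3) (M : ℕ) (o : ℕ → ℝ)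
    (ho : ∀ k, o k ≤ C3 * ((2 ^ k * (q / 2)) * Real.log (2 ^ k * (q / 2))) *
        Real.exp (-(c3 * (n + (2 ^ k * (q / 2)) ^ 2 * Real.log (2 ^ k * (q / 2)) ^ 2 / x)))) :
    ∑ k ∈ Finset.range M, o k ≤ C3 * q ^ 2 * Real.exp (-(c3 * n)) * (4 + 3 / c3) := by
  set T : ℕ → ℝ := fun k => 2 ^ k * (q / 2) with hTdef
  have hTq : ∀ k, q / 2 ≤ T k := by
    intro k
    have h1 : (1 : ℝ) ≤ 2 ^ k := one_le_pow₀ (by norm_num)
    have h2 : 1 * (q / 2) ≤ 2 ^ k * (q / 2) := mul_le_mul_of_nonneg_right h1 (by linarith)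
    simp only [hTdef]
    linarith
  have hT0 : ∀ k, 0 < T k := fun k => by
    have := hTq k
    linarith
  have hl : ∀ k, 0 < Real.log (T k) := by
    intro k
    have e1 : Real.log (q / 2) ≤ Real.log (T k) := Real.log_le_log (by linarith) (hTq k)
    rw [Real.log_div (by linarith) (by norm_num), hlogq] at e1
    have e2 := Real.log_le_sub_one_of_pos (show (0 : ℝ) < 2 by norm_num)
    linarith
  set y : ℕ → ℝ := fun k => T k * Real.log (T k) / q ^ 2 with hy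
  have hy0 : ∀ k, 0 < y k := by
    intro k
    have e1 := hl k
    have e2 := hT0 k
    simp only [hy]
    positivity
  have hyd : ∀ k, 2 * y k ≤ y (k + 1) := by
    intro k
    have e1 : T (k + 1) = 2 * T k := by
      simp only [hTdef]
      rw [pow_succ]
      ring
    have e3 := hT0 k
    have e2 : Real.log (T k) ≤ Real.log (T (k + 1)) := by
      apply Real.log_le_log e3
      rw [e1]
      linarith
    simp only [hy]
    rw [mul_div_assoc', div_le_div_iff_of_pos_right (by positivity)]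
    have e4 : T k * Real.log (T k) ≤ T k * Real.log (T (k + 1)) :=
      mul_le_mul_of_nonneg_left e2 e3.le
    calc 2 * (T k * Real.log (T k)) ≤ 2 * (T k * Real.log (T (k + 1))) := by linarith
      _ = T (k + 1) * Real.log (T (k + 1)) := by rw [e1]; ring
  have e1 := J_sum c3 hc3 y hy0 hyd M
  calc ∑ k ∈ Finset.range M, o k
      ≤ ∑ k ∈ Finset.range M, C3 * q ^ 2 * Real.exp (-(c3 * n)) *
          (y k * Real.exp (-(c3 * y k ^ 2))) := by
        apply Finset.sum_le_sum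
        intro k _
        refine (ho k).trans (le_of_eq ?_)
        have hq0 : q ≠ 0 := by linarith
        have e2 : T k ^ 2 * Real.log (T k) ^ 2 / x = y k ^ 2 := by
          simp only [hy]
          rw [← hq4, div_pow]
          ring
        have e3 : T k * Real.log (T k) = q ^ 2 * y k := by
          simp only [hy]
          field_simp
        have e4 : C3 * (T k * Real.log (T k)) *
            Real.exp (-(c3 * (n + T k ^ 2 * Real.log (T k) ^ 2 / x))) =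
            C3 * q ^ 2 * Real.exp (-(c3 * n)) * (y k * Real.exp (-(c3 * y k ^ 2))) := by
          rw [e2, e3, mul_add, neg_add, Real.exp_add]
          ring
        exact e4
    _ = C3 * q ^ 2 * Real.exp (-(c3 * n)) *
          ∑ k ∈ Finset.range M, y k * Real.exp (-(c3 * y k ^ 2)) := by
        rw [Finset.mul_sum]
    _ ≤ C3 * q ^ 2 * Real.exp (-(c3 * n)) * (4 + 3 / c3) :=
        mul_le_mul_of_nonneg_left e1 (by positivity)

theorem J_Q (A C0 V D₁ D₂ D₃ TF T1 T2 K : ℝ) (hA : 1 ≤ A) (hC0 : 1 ≤ C0) (hV : 1 ≤ V)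
    (hTF : 2 ≤ TF) (hT1 : 2 ≤ T1) (hT2 : 2 ≤ T2) (hK : 1 ≤ K) :
    ∃ Q : ℝ, 100 ≤ Q ∧ D₁ ≤ Q ∧ D₂ ≤ Q ∧ D₃ ≤ Q ∧ K * (A + 1) ≤ Q ∧ 10 * C0 ≤ Q ∧ 4 * V ≤ Q ∧
      TF ≤ Q ∧ 2 * T1 ≤ Q ∧ 2 * T2 ≤ Q ∧ 2 * A ≤ Q := by
  have a1 := le_abs_self D₁
  have a2 := le_abs_self D₂
  have a3 := le_abs_self D₃
  have b1 := abs_nonneg D₁
  have b2 := abs_nonneg D₂
  have b3 := abs_nonneg D₃
  have hKA : 0 ≤ K * (A + 1) := by positivity
  refine ⟨100 + |D₁| + |D₂| + |D₃| + K * (A + 1) + 10 * C0 + 4 * V + TF + 2 * T1 +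
    2 * T2 + 2 * A, ?_, ?_, ?_, ?_, ?_, ?_, ?_, ?_, ?_, ?_, ?_⟩ <;> linarith

theorem p_J (h1 : S_blkI) (h2 : S_blkII) (h3 : S_low) (h4 : S_out) (h5 : S_outs) (h6 : S_FZ) :
    S_J := by
  classical
  intro A hA
  obtain ⟨K₁, D₁, hK₁, hout⟩ := h4
  obtain ⟨K₂, D₂, hK₂, houts⟩ := h5 A hA
  obtain ⟨C0, D₃, hC0, hlow⟩ := h3 A hA
  obtain ⟨V, TF, hV, hTF, hFZ⟩ := h6 (4 * A) (by linarith)
  obtain ⟨B, C2, c2, T2, hB, hC2, hc2, hT2, hblkII⟩ := h2 (5 * A) (by linarith)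
  obtain ⟨C1, c1, T1, hC1, hc1, hT1, hblkI⟩ := h1 (5 * A) B (by linarith) hB
  obtain ⟨c3, hc3, h31, h32⟩ : ∃ c3 : ℝ, 0 < c3 ∧ c3 ≤ c2 / 2 ∧ c3 ≤ c1 / (1 + B) :=
    ⟨min (c2 / 2) (c1 / (1 + B)), lt_min (by positivity) (by positivity), min_le_left _ _,
      min_le_right _ _⟩
  obtain ⟨C3, hC3, hC31, hC32, hC33⟩ : ∃ C3 : ℝ, 0 < C3 ∧ C1 ≤ C3 ∧ C2 ≤ C3 ∧
      10 * C0 * Real.exp (c3 * ((1 + B) * (C1 + 1))) ≤ C3 :=
    ⟨max C1 (max C2 (10 * C0 * Real.exp (c3 * ((1 + B) * (C1 + 1))))),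
      lt_of_lt_of_le hC1 (le_max_left _ _), le_max_left _ _,
      (le_max_left _ _).trans (le_max_right _ _), (le_max_right _ _).trans (le_max_right _ _)⟩
  obtain ⟨c, hc, hcA, hcc3⟩ : ∃ c : ℝ, 0 < c ∧ c ≤ 1 / (10 * A) ∧ c ≤ c3 :=
    ⟨min (1 / (10 * A)) c3, lt_min (by positivity) hc3, min_le_left _ _, min_le_right _ _⟩
  obtain ⟨K, hK0, hK1, hK2⟩ : ∃ K : ℝ, 1 ≤ K ∧ K₁ ≤ K ∧ K₂ ≤ K :=
    ⟨max K₁ K₂, hK₁.trans (le_max_left _ _), le_max_left _ _, le_max_right _ _⟩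
  obtain ⟨Q, hQ100, hQD1, hQD2, hQD3, hQK, hQC0, hQV, hQTF, hQT1, hQT2, hQA⟩ :=
    J_Q A C0 V D₁ D₂ D₃ TF T1 T2 K hA hC0 hV hTF hT1 hT2 hK0
  obtain ⟨x₀, hx₀⟩ := eventually_atTop.mp (J_large Q)
  refine ⟨1 + C3 * (4 + 3 / c3), c, x₀, by positivity, hc, ?_⟩
  intro D n hD hn S hS
  obtain ⟨hx1, hQL, hQw0⟩ := hx₀ (D : ℝ) hD
  obtain ⟨w, q, hw1, hq1, hwq, hq4, hsx, hlogq, hwe, hQw⟩ := J_big hx1 hQ100 hQL hQw0
  obtain ⟨x, hx⟩ : ∃ x : ℝ, x = (D : ℝ) := ⟨_, rfl⟩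
  clear hQw0 hx₀ hD
  rw [← hx] at hx1 hQL hq4 hsx hlogq hwe hQw hn
  obtain ⟨L, hL⟩ : ∃ L : ℝ, L = Real.log x := ⟨_, rfl⟩
  rw [← hL] at hQL hlogq hwe hQw hn
  have hx0 : 0 < x := by linarith
  have hL100 : 100 ≤ L := hQ100.trans hQL
  have hLone : (1 : ℝ) ≤ L := by linarith
  have hw0 : 0 < w := by linarith
  have hwq1 : w ≤ q := le_trans (by nlinarith) hwq
  have hQ1 : Q ≤ w := by
    have := J_aL (j := 0) (show (0 : ℝ) ≤ Q by linarith) le_rfl hLone (by norm_num) hQw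
    simpa using this
  have hq2 : q ≤ q ^ 2 := by nlinarith
  have hq2x : q ^ 2 ≤ x := by
    have h : (q ^ 2) * 1 ≤ q ^ 2 * q ^ 2 :=
      mul_le_mul_of_nonneg_left (by linarith) (by positivity)
    calc q ^ 2 = q ^ 2 * 1 := (mul_one _).symm
      _ ≤ q ^ 2 * q ^ 2 := h
      _ = x := by rw [← hq4]; ring
  have hwx : w ≤ x := by linarith
  have hn0 : (0 : ℝ) ≤ n := Nat.cast_nonneg n
  have hsn : Real.sqrt n ≤ A * L := J_sqrt_nat hn
  have h2AL : 2 * A * L ≤ w := by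
    have := J_aL (j := 1) (show (0 : ℝ) ≤ 2 * A by linarith) hQA hLone (by norm_num) hQw
    simpa using this
  have hL2w : L ^ 2 ≤ w := by
    have := J_aL (j := 2) (show (0 : ℝ) ≤ 1 by norm_num) (by linarith) hLone (by norm_num) hQw
    simpa using this
  have hL7w : L ^ 7 ≤ w := by
    have := J_aL (j := 7) (show (0 : ℝ) ≤ 1 by norm_num) (by linarith) hLone (by norm_num) hQw
    simpa using this
  have h10L : 10 * L ≤ w := by
    have := J_aL (j := 1) (show (0 : ℝ) ≤ 10 by norm_num) (by linarith) hLone (by norm_num) hQw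
    simpa using this
  have hC0L : 10 * C0 * L ^ 2 ≤ w :=
    J_aL (show (0 : ℝ) ≤ 10 * C0 by linarith) hQC0 hLone (by norm_num) hQw
  have hVL : 4 * V * L ^ 3 ≤ w :=
    J_aL (show (0 : ℝ) ≤ 4 * V by linarith) hQV hLone (by norm_num) hQw
  set f : ℂ → ℂ := iteratedDeriv n (Hd D ff) with hf
  -- (0) all bad zeros are in a disc
  have hKL : K * (Real.sqrt n + 1) ≤ L ^ 2 := J_KL hK0 hA hLone hsn (hQK.trans hQL)
  have hsq : 0 ≤ Real.sqrt n := Real.sqrt_nonneg _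
  have hK' : ∀ K' : ℝ, K' ≤ K → K' * x * (Real.sqrt n + 1) ≤ x * L ^ 2 := by
    intro K' hK'
    calc K' * x * (Real.sqrt n + 1) ≤ K * x * (Real.sqrt n + 1) := by
          apply mul_le_mul_of_nonneg_right _ (by linarith)
          exact mul_le_mul_of_nonneg_right hK' hx0.le
      _ = x * (K * (Real.sqrt n + 1)) := by ring
      _ ≤ x * L ^ 2 := mul_le_mul_of_nonneg_left hKL hx0.le
  have hD1 : D₁ ≤ (D : ℝ) := by rw [← hx]; linarith
  have hD2 : D₂ ≤ (D : ℝ) := by rw [← hx]; linarith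
  have hD3 : D₃ ≤ (D : ℝ) := by rw [← hx]; linarith
  have hnD : (n : ℝ) ≤ A * Real.log D := by rw [← hx, ← hL]; exact hn
  have hbound : ∀ ω ∈ S, ‖ω‖ ≤ x * L ^ 2 := by
    intro ω hω
    obtain ⟨hz, hor⟩ := hS ω hω
    rcases hor with him | hder
    · have e0 : 2 * n ≤ D := by
        have : (2 : ℝ) * n ≤ D := by
          rw [← hx]
          linarith
        exact_mod_cast this
      have e1 := hout D n hD1 e0 ω hz him
      rw [← hx] at e1
      exact e1.trans (hK' K₁ hK1)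
    · have e1 := houts D n hD2 hnD ω hz hder
      rw [← hx] at e1
      exact e1.trans (hK' K₂ hK2)
  -- (1) the small ones
  have hexpn : 1 / w ≤ Real.exp (-(c * n)) := by
    rw [hwe, one_div, ← Real.exp_neg]
    apply Real.exp_le_exp.mpr
    have e2 : c * n ≤ 1 / (10 * A) * (A * L) :=
      mul_le_mul hcA hn hn0 (by positivity)
    have e3 : 1 / (10 * A) * (A * L) = L / 10 := by
      field_simp
    linarith
  have hS1 : ordS f (S.filter fun ω => ‖ω‖ ≤ q ^ 2) ≤ q ^ 2 * Real.exp (-(c * n)) := by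
    have e1 := hlow D n (q ^ 2) hD3 hnD (by linarith)
      (S.filter fun ω => ‖ω‖ ≤ q ^ 2) (by
        intro ω hω
        rw [Finset.mem_filter] at hω
        exact ⟨(hS ω hω.1).1, hω.2⟩)
    refine e1.trans ?_
    rw [Real.sqrt_sq (by linarith), Real.log_pow, hlogq, ← hx, ← hL]
    have e2 : q ^ 2 * (1 / w) ≤ q ^ 2 * Real.exp (-(c * n)) :=
      mul_le_mul_of_nonneg_left hexpn (by positivity)
    refine le_trans ?_ e2
    exact_mod_cast J_step1 hC0 hq1 hw1 hwq hL100 hC0L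
  -- (2) the others are near the positive axis
  have hre : ∀ ω ∈ S, q ^ 2 < ‖ω‖ → ‖ω‖ / 2 < ω.re := by
    intro ω hω hbig
    by_contra hcon
    push Not at hcon
    obtain ⟨z, hz⟩ := IsAlgClosed.exists_pow_nat_eq ω (n := 2) (by norm_num)
    obtain ⟨z1, z2, z3, z4, z5⟩ := J_step2 hz hq1 hq4 hbig (by rw [← hL]; exact hbound ω hω)
      hcon (by rw [← hL]; exact hlogq) (by rw [← hL]; linarith) (by rw [← hL]; exact hLone)
    rw [← hL] at z3 z5
    refine hFZ D n z (by linarith) ?_ ?_ ?_ ?_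
    · have : 4 * A * (L / 4) ≤ 4 * A * Real.log ‖z‖ :=
        mul_le_mul_of_nonneg_left z3 (by linarith)
      linarith
    · rw [← hx]
      exact z2
    · rw [← hx]
      have := J_V hV hLone (hVL.trans hwq1) z5
      linarith
    · rw [hz]
      exact (hS ω hω).1
  -- (3) the blocks
  set S2 : Finset ℂ := S.filter fun ω => ¬ ‖ω‖ ≤ q ^ 2 with hS2
  have hmem2 : ∀ ω ∈ S2, ω ∈ S ∧ q ^ 2 < ‖ω‖ := by
    intro ω hω
    rw [hS2, Finset.mem_filter] at hω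
    exact ⟨hω.1, not_le.mp hω.2⟩
  obtain ⟨M, hM⟩ := J_cover f S2
    (fun k ω => (2 ^ k * (q / 2)) ^ 2 ≤ ω.re ∧ ω.re < 4 * (2 ^ k * (q / 2)) ^ 2) (by
    intro ω hω
    obtain ⟨hωS, hbig⟩ := hmem2 ω hω
    have e1 := hre ω hωS hbig
    exact J_dyadic (by linarith) (by linarith))
  have hblock : ∀ k : ℕ, ordS f (S2.filter fun ω => (2 ^ k * (q / 2)) ^ 2 ≤ ω.re ∧
      ω.re < 4 * (2 ^ k * (q / 2)) ^ 2) ≤
      C3 * ((2 ^ k * (q / 2)) * Real.log (2 ^ k * (q / 2))) *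
        Real.exp (-(c3 * (n + (2 ^ k * (q / 2)) ^ 2 * Real.log (2 ^ k * (q / 2)) ^ 2 / x))) := by
    intro k
    have hTq : q / 2 ≤ 2 ^ k * (q / 2) := by
      have e1 : (1 : ℝ) ≤ 2 ^ k := one_le_pow₀ (by norm_num)
      have e2 : 1 * (q / 2) ≤ 2 ^ k * (q / 2) := mul_le_mul_of_nonneg_right e1 (by linarith)
      linarith
    generalize (2 : ℝ) ^ k * (q / 2) = T at hTq
    have hT0 : 0 < T := by linarith
    have hlk : L / 5 ≤ Real.log T := by
      have e1 : Real.log (q / 2) ≤ Real.log T := Real.log_le_log (by linarith) hTq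
      rw [Real.log_div (by linarith) (by norm_num), hlogq] at e1
      have e2 := Real.log_le_sub_one_of_pos (show (0 : ℝ) < 2 by norm_num)
      linarith
    have hTl : 0 ≤ T * Real.log T := mul_nonneg hT0.le (by linarith)
    rcases (S2.filter fun ω => T ^ 2 ≤ ω.re ∧ ω.re < 4 * T ^ 2).eq_empty_or_nonempty with
      hemp | ⟨ω₀, hω₀⟩
    · rw [hemp]
      have : ordS f ∅ = 0 := by simp [ordS]
      rw [this]
      positivity
    · obtain ⟨S', hS'⟩ : ∃ S' : Finset ℂ, S' = S2.filter fun ω => T ^ 2 ≤ ω.re ∧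
        ω.re < 4 * T ^ 2 := ⟨_, rfl⟩
      rw [← hS'] at hω₀ ⊢
      have hmem : ∀ ω ∈ S', ω ∈ S ∧ q ^ 2 < ‖ω‖ ∧ T ^ 2 ≤ ω.re ∧ ω.re < 4 * T ^ 2 := by
        intro ω hω
        rw [hS', Finset.mem_filter] at hω
        exact ⟨(hmem2 ω hω.1).1, (hmem2 ω hω.1).2, hω.2⟩
      have hcond : ∀ ω ∈ S', iteratedDeriv n (Hd D ff) ω = 0 ∧
          (ω.im ≠ 0 ∨ deriv (iteratedDeriv n (Hd D ff)) ω = 0) ∧ T ^ 2 ≤ ω.re ∧
          ω.re ≤ 4 * T ^ 2 ∧ ‖ω‖ ≤ D * Real.log D ^ 2 := by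
        intro ω hω
        obtain ⟨m1, m2, m3, m4⟩ := hmem ω hω
        refine ⟨(hS ω m1).1, (hS ω m1).2, m3, m4.le, ?_⟩
        rw [← hx, ← hL]
        exact hbound ω m1
      have hT2x : T ^ 2 ≤ x * L ^ 2 := by
        obtain ⟨m1, m2, m3, m4⟩ := hmem ω₀ hω₀
        have e1 := hbound ω₀ m1
        have e2 := Complex.re_le_norm ω₀
        linarith
      obtain ⟨k1, k2, k3⟩ := J_step3 hC0 hq1 hq4 hL hL100 hTq hlk hT2x (by linarith)
        (by linarith) (by linarith)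
      have hn5 : (n : ℝ) ≤ 5 * A * Real.log T := by
        have : 5 * A * (L / 5) ≤ 5 * A * Real.log T :=
          mul_le_mul_of_nonneg_left hlk (by linarith)
        linarith
      refine J_block hB hC1 hc1 hC2 hc2 hC0 hx0 hn0 ?_ hTl hc3 h31 h32 hC31 hC32 hC33 ?_ ?_ ?_
      · rcases Nat.eq_zero_or_pos n with h | h
        · left; rw [h]; simp
        · right; exact_mod_cast h
      · intro hn1 hr
        rw [hx] at hr
        exact hblkI D n T (by linarith) hn1 hn5 hr S' hcond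
      · intro hr1 hr2
        rw [hx] at hr1 hr2 k2
        have := hblkII D n T (by linarith) hn5 hr1 hr2 k2 S' hcond
        rw [hx]
        exact this
      · have e1 := hlow D n (8 * T ^ 2) hD3 hnD (by nlinarith) S' (by
          intro ω hω
          obtain ⟨m1, m2, m3, m4⟩ := hmem ω hω
          refine ⟨(hS ω m1).1, ?_⟩
          have := hre ω m1 m2
          linarith)
        rw [← hx, ← hL] at e1
        exact e1.trans k3
  have hsum := J_total (n := (n : ℝ)) hq1 hq4 hL100 hlogq hC3 hc3 M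
    (fun k => ordS f (S2.filter fun ω => (2 ^ k * (q / 2)) ^ 2 ≤ ω.re ∧
      ω.re < 4 * (2 ^ k * (q / 2)) ^ 2)) hblock
  -- (5) total
  have htot : ordS f S = ordS f (S.filter fun ω => ‖ω‖ ≤ q ^ 2) + ordS f S2 := by
    unfold ordS
    rw [hS2, Finset.sum_filter_add_sum_filter_not]
  have hexp : Real.exp (-(c3 * n)) ≤ Real.exp (-(c * n)) := by
    apply Real.exp_le_exp.mpr
    have := mul_le_mul_of_nonneg_right hcc3 hn0
    linarith
  have hS2' : ordS f S2 ≤ C3 * (4 + 3 / c3) * q ^ 2 * Real.exp (-(c * n)) := by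
    refine (hM.trans hsum).trans ?_
    calc C3 * q ^ 2 * Real.exp (-(c3 * n)) * (4 + 3 / c3)
        = C3 * (4 + 3 / c3) * q ^ 2 * Real.exp (-(c3 * n)) := by ring
      _ ≤ C3 * (4 + 3 / c3) * q ^ 2 * Real.exp (-(c * n)) :=
        mul_le_mul_of_nonneg_left hexp (by positivity)
  rw [htot, ← hx, hsx]
  calc ordS f (S.filter fun ω => ‖ω‖ ≤ q ^ 2) + ordS f S2
      ≤ q ^ 2 * Real.exp (-(c * n)) +
        C3 * (4 + 3 / c3) * q ^ 2 * Real.exp (-(c * n)) := add_le_add hS1 hS2'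
    _ = (1 + C3 * (4 + 3 / c3)) * q ^ 2 * Real.exp (-(c * n)) := by ring

end Pool.Agent.Lib.MP_cd509c_nt.JD
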