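import Pool.Agent.Lib.MP_cd509c_nt.JD.Defs

set_option autoImplicit false

/-!
# Kernel lemma: saddle point on a line
-/

namespace Pool.Agent.Lib.MP_cd509c_nt.JD

open Complex ComplexConjugate MeasureTheory
open Pool.Agent.Lib.MP_cd509c_nt.DN

/-- local analysis near `β` -/
theorem jd_KL_loc (β N E₀ : ℝ) (F : ℂ → ℂ) (hβ : β ≠ 0)
    (hF : ∀ v ∈ Metric.ball (β : ℂ) (1 / 16), DifferentiableAt ℂ F v ∧ F v ≠ 0 ∧
      ‖deriv F v / F v - N * (1 - v / β)‖ ≤ E₀) :
    (∀ v ∈ Metric.ball (β : ℂ) (1 / 32), ∀ v' ∈ Metric.ball (β : ℂ) (1 / 32),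
      ‖(deriv F v / F v - N * (1 - v / β)) - (deriv F v' / F v' - N * (1 - v' / β))‖ ≤
        32 * E₀ * ‖v - v'‖) ∧
    (∀ v ∈ Metric.ball (β : ℂ) (1 / 32), ∀ v₀ ∈ Metric.ball (β : ℂ) (1 / 32),
      deriv F v₀ / F v₀ = 0 → ∃ E : ℂ, ‖E‖ ≤ 32 * E₀ * ‖v - v₀‖ ^ 2 ∧
        F v = F v₀ * cexp (-((N : ℂ) * (v - v₀) ^ 2 / (2 * β)) + E)) ∧
    (∀ v ∈ Metric.ball (β : ℂ) (1 / 32), ∀ K : ℝ,
      (∀ z ∈ segment ℝ (β : ℂ) v, ‖deriv F z / F z‖ ≤ K) →
      ∃ γ : ℂ, ‖γ‖ ≤ K * ‖v - β‖ ∧ F v = F β * cexp γ) := by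
  have hβc : (β : ℂ) ≠ 0 := by exact_mod_cast hβ
  have hdF : DifferentiableOn ℂ F (Metric.ball (β : ℂ) (1 / 16)) := fun v hv =>
    (hF v hv).1.differentiableWithinAt
  have hq : DifferentiableOn ℂ (fun v => deriv F v / F v) (Metric.ball (β : ℂ) (1 / 16)) :=
    (hdF.deriv Metric.isOpen_ball).div hdF (fun v hv => (hF v hv).2.1)
  obtain ⟨g, hg⟩ := hq.isExactOn_ball
  have hsub : Metric.ball (β : ℂ) (1 / 32) ⊆ Metric.ball (β : ℂ) (1 / 16) :=
    Metric.ball_subset_ball (by norm_num)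
  -- the logarithm
  have hlog : ∀ v ∈ Metric.ball (β : ℂ) (1 / 16), ∀ v' ∈ Metric.ball (β : ℂ) (1 / 16),
      F v = F v' * cexp (g v - g v') := by
    have hk : ∀ z ∈ Metric.ball (β : ℂ) (1 / 16), HasDerivAt (fun z => F z * cexp (-g z)) 0 z := by
      intro z hz
      have h1 : HasDerivAt (fun z => F z * cexp (-g z)) (deriv F z * cexp (-g z) +
          F z * (cexp (-g z) * -(deriv F z / F z))) z :=
        ((hF z hz).1.hasDerivAt).mul ((hg z hz).neg.cexp)
      have h2 : deriv F z * cexp (-g z) + F z * (cexp (-g z) * -(deriv F z / F z)) = 0 := by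
        have := (hF z hz).2.1
        field_simp
        ring
      rw [h2] at h1
      exact h1
    intro v hv v' hv'
    have h3 : F v * cexp (-g v) = F v' * cexp (-g v') :=
      Metric.isOpen_ball.is_const_of_deriv_eq_zero (f := fun z => F z * cexp (-g z))
      (convex_ball (β : ℂ) (1 / 16)).isPreconnected
      (fun z hz => (hk z hz).differentiableAt.differentiableWithinAt)
      (fun z hz => (hk z hz).deriv) hv hv'
    calc F v = (F v * cexp (-g v)) * cexp (g v) := by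
          rw [mul_assoc, ← Complex.exp_add, neg_add_cancel, Complex.exp_zero, mul_one]
      _ = (F v' * cexp (-g v')) * cexp (g v) := by rw [h3]
      _ = F v' * cexp (g v - g v') := by
          rw [mul_assoc, ← Complex.exp_add]
          congr 2
          ring
  -- the perturbation is Lipschitz
  have he : DifferentiableOn ℂ (fun v => deriv F v / F v - N * (1 - v / β))
      (Metric.ball (β : ℂ) (1 / 16)) := by
    refine hq.sub ?_
    apply Differentiable.differentiableOn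
    exact (differentiable_const _).mul ((differentiable_const _).sub
      (differentiable_id.div_const _))
  have hlip : ∀ v ∈ Metric.ball (β : ℂ) (1 / 32), ∀ v' ∈ Metric.ball (β : ℂ) (1 / 32),
      ‖(deriv F v / F v - N * (1 - v / β)) - (deriv F v' / F v' - N * (1 - v' / β))‖ ≤
        32 * E₀ * ‖v - v'‖ := by
    intro v hv v' hv'
    refine Convex.norm_image_sub_le_of_norm_deriv_le
      (f := fun v => deriv F v / F v - N * (1 - v / β)) (s := Metric.ball (β : ℂ) (1 / 32))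
      (fun z hz => (he z (hsub hz)).differentiableAt (Metric.isOpen_ball.mem_nhds (hsub hz)))
      ?_ (convex_ball _ _) hv' hv
    intro z hz
    have hcl : Metric.closedBall z (1 / 32) ⊆ Metric.ball (β : ℂ) (1 / 16) := by
      intro x hx
      rw [Metric.mem_closedBall] at hx
      rw [Metric.mem_ball] at hz ⊢
      calc dist x β ≤ dist x z + dist z β := dist_triangle _ _ _
        _ < 1 / 32 + 1 / 32 := by linarith
        _ = 1 / 16 := by norm_num
    have h1 : DiffContOnCl ℂ (fun v => deriv F v / F v - N * (1 - v / β))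
        (Metric.ball z (1 / 32)) := by
      refine DifferentiableOn.diffContOnCl ?_
      rw [closure_ball z (by norm_num)]
      exact he.mono hcl
    have h2 := Complex.norm_deriv_le_of_forall_mem_sphere_norm_le (by norm_num) h1 (C := E₀)
      (fun x hx => (hF x (hcl (Metric.sphere_subset_closedBall hx))).2.2)
    refine h2.trans (le_of_eq ?_)
    ring
  refine ⟨hlip, ?_, ?_⟩
  · intro v hv v₀ hv₀ h0
    refine ⟨(g v - g v₀) + N * (v - v₀) ^ 2 / (2 * β), ?_, ?_⟩
    · have hseg : segment ℝ v₀ v ⊆ Metric.ball (β : ℂ) (1 / 32) :=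
        (convex_ball (β : ℂ) (1 / 32)).segment_subset hv₀ hv
      have hder : ∀ z ∈ segment ℝ v₀ v, HasDerivWithinAt
          (fun z => g z + N * (z - v₀) ^ 2 / (2 * β))
          ((deriv F z / F z - N * (1 - z / β)) - (deriv F v₀ / F v₀ - N * (1 - v₀ / β)))
          (segment ℝ v₀ v) z := by
        intro z hz
        have h1 := hg z (hsub (hseg hz))
        have h2 : HasDerivAt (fun z : ℂ => (N : ℂ) * (z - v₀) ^ 2 / (2 * β))
            ((N : ℂ) * (((2 : ℕ) : ℂ) * (z - v₀) ^ (2 - 1) * 1) / (2 * β)) z :=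
          ((((hasDerivAt_id z).sub_const v₀).pow 2).const_mul (N : ℂ)).div_const (2 * β : ℂ)
        have h3 := h1.add h2
        have h4 : deriv F z / F z + (N : ℂ) * (((2 : ℕ) : ℂ) * (z - v₀) ^ (2 - 1) * 1) / (2 * β) =
            (deriv F z / F z - N * (1 - z / β)) - (deriv F v₀ / F v₀ - N * (1 - v₀ / β)) := by
          rw [h0]
          field_simp
          push_cast
          ring
        rw [h4] at h3
        exact h3.hasDerivWithinAt
      have h5 := Convex.norm_image_sub_le_of_norm_hasDerivWithin_le hder (C := 32 * E₀ * ‖v - v₀‖) (by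
          intro z hz
          refine (hlip z (hseg hz) v₀ hv₀).trans ?_
          have h6 : ‖z - v₀‖ ≤ ‖v - v₀‖ := norm_sub_le_of_mem_segment hz
          have hE₀ : 0 ≤ 32 * E₀ := by
            have := (norm_nonneg _).trans (hF v₀ (hsub hv₀)).2.2
            linarith
          exact mul_le_mul_of_nonneg_left h6 hE₀) (convex_segment _ _)
        (left_mem_segment ℝ v₀ v) (right_mem_segment ℝ v₀ v)
      have h7 : (g v + N * (v - v₀) ^ 2 / (2 * β)) - (g v₀ + N * (v₀ - v₀) ^ 2 / (2 * β)) =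
          (g v - g v₀) + N * (v - v₀) ^ 2 / (2 * β) := by
        rw [sub_self]
        ring
      rw [h7] at h5
      refine h5.trans (le_of_eq ?_)
      ring
    · rw [hlog v (hsub hv) v₀ (hsub hv₀)]
      congr 2
      ring
  · intro v hv K hK
    have hc : (β : ℂ) ∈ Metric.ball (β : ℂ) (1 / 32) := Metric.mem_ball_self (by norm_num)
    refine ⟨g v - g β, ?_, hlog v (hsub hv) β (hsub hc)⟩
    have hseg : segment ℝ (β : ℂ) v ⊆ Metric.ball (β : ℂ) (1 / 32) :=
      (convex_ball (β : ℂ) (1 / 32)).segment_subset hc hv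
    exact Convex.norm_image_sub_le_of_norm_hasDerivWithin_le
      (fun z hz => (hg z (hsub (hseg hz))).hasDerivWithinAt) hK (convex_segment _ _)
      (left_mem_segment ℝ _ v) (right_mem_segment ℝ _ v)

/-- the saddle point -/
theorem jd_KL_sad (β N ε L : ℝ) (e : ℂ → ℂ) (hβ : 0 < β) (hN : 0 < N) (hε : 0 < ε)
    (hε1 : ε ≤ 1 / 4) (hL : β / N * L ≤ 1 / 2)
    (hb : ∀ v : ℂ, ‖v - β‖ ≤ 4 * ε * β → ‖e v‖ ≤ ε * N * (1 + ‖v‖ / β))
    (hl : ∀ v v' : ℂ, ‖v - β‖ ≤ 4 * ε * β → ‖v' - β‖ ≤ 4 * ε * β → ‖e v - e v'‖ ≤ L * ‖v - v'‖) :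
    ∃ v : ℂ, ‖v - β‖ ≤ 4 * ε * β ∧ N * (1 - v / β) + e v = 0 := by
  let s : Set ℂ := Metric.closedBall (β : ℂ) (4 * ε * β)
  let f : ℂ → ℂ := fun v => β + ((β / N : ℝ) : ℂ) * e v
  have hβN : 0 < β / N := by positivity
  have hmem : ∀ v : ℂ, v ∈ s ↔ ‖v - β‖ ≤ 4 * ε * β := by
    intro v
    simp only [s, Metric.mem_closedBall, dist_eq_norm]
  have hmaps : Set.MapsTo f s s := by
    intro v hv
    rw [hmem] at hv ⊢
    have h1 := hb v hv
    have h2 : f v - β = ((β / N : ℝ) : ℂ) * e v := by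
      simp only [f]
      ring
    rw [h2, norm_mul, Complex.norm_real, Real.norm_of_nonneg hβN.le]
    have h3 : ‖v‖ ≤ 2 * β := by
      have h4 : ‖v‖ ≤ ‖v - β‖ + ‖(β : ℂ)‖ := by
        calc ‖v‖ = ‖(v - β) + β‖ := by rw [sub_add_cancel]
          _ ≤ _ := norm_add_le _ _
      rw [Complex.norm_real, Real.norm_of_nonneg hβ.le] at h4
      have h5 : 4 * ε * β ≤ β := by nlinarith
      linarith
    have h4 : ‖v‖ / β ≤ 2 := by rwa [div_le_iff₀ hβ]
    calc β / N * ‖e v‖ ≤ β / N * (ε * N * (1 + ‖v‖ / β)) := mul_le_mul_of_nonneg_left h1 hβN.le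
      _ ≤ β / N * (ε * N * 4) := by
        refine mul_le_mul_of_nonneg_left (mul_le_mul_of_nonneg_left ?_ (by positivity)) hβN.le
        linarith
      _ = 4 * ε * β := by field_simp
  have hcontr : ContractingWith (1 / 2) (hmaps.restrict f s s) := by
    refine ⟨by
      rw [← NNReal.coe_lt_coe]
      norm_num, ?_⟩
    refine LipschitzWith.of_dist_le_mul ?_
    rintro ⟨v, hv⟩ ⟨u, hu⟩
    rw [hmem] at hv hu
    rw [Subtype.dist_eq, Subtype.dist_eq, dist_eq_norm, dist_eq_norm]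
    change ‖(β + ((β / N : ℝ) : ℂ) * e v) - (β + ((β / N : ℝ) : ℂ) * e u)‖ ≤ _ * ‖v - u‖
    have e1 : (β + ((β / N : ℝ) : ℂ) * e v) - (β + ((β / N : ℝ) : ℂ) * e u) =
        ((β / N : ℝ) : ℂ) * (e v - e u) := by ring
    rw [e1, norm_mul, Complex.norm_real, Real.norm_of_nonneg hβN.le]
    calc β / N * ‖e v - e u‖ ≤ β / N * (L * ‖v - u‖) := mul_le_mul_of_nonneg_left (hl v u hv hu) hβN.le
      _ = (β / N * L) * ‖v - u‖ := by ring
      _ ≤ (1 / 2) * ‖v - u‖ := mul_le_mul_of_nonneg_right hL (norm_nonneg _)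
      _ = ((1 / 2 : NNReal) : ℝ) * ‖v - u‖ := by push_cast; ring
  obtain ⟨v, hv, hfix, -⟩ := hcontr.exists_fixedPoint' (Metric.isClosed_closedBall.isComplete) hmaps
    (x := (β : ℂ)) (Metric.mem_closedBall_self (by positivity)) (edist_ne_top _ _)
  refine ⟨v, (hmem v).1 hv, ?_⟩
  have h1 : (β : ℂ) + ((β / N : ℝ) : ℂ) * e v = v := hfix
  have hβc : (β : ℂ) ≠ 0 := by exact_mod_cast hβ.ne'
  have hNc : (N : ℂ) ≠ 0 := by exact_mod_cast hN.ne'
  push_cast at h1
  have h2 : e v = N / β * (v - β) := by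
    have h3 : v - β = β / N * e v := by linear_combination -h1
    rw [h3]
    field_simp
  rw [h2]
  field_simp
  ring

/-- upper bound on the real line, one side; `σ = 1` or `σ = -1` -/
theorem jd_KL_real (β N ε σ X : ℝ) (F : ℂ → ℂ) (hβ : 0 < β) (hN : 0 < N) (hε : 0 < ε)
    (hσ : σ = 1 ∨ σ = -1) (hX : 0 ≤ X)
    (hF : ∀ τ : ℝ, 0 ≤ τ → τ ≤ X → DifferentiableAt ℂ F ((β + σ * τ : ℝ) : ℂ) ∧
      F ((β + σ * τ : ℝ) : ℂ) ≠ 0 ∧
      ‖deriv F ((β + σ * τ : ℝ) : ℂ) / F ((β + σ * τ : ℝ) : ℂ) -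
        N * (1 - ((β + σ * τ : ℝ) : ℂ) / β)‖ ≤ ε * N * (2 + X / β)) :
    ‖F ((β + σ * X : ℝ) : ℂ)‖ ≤ Real.exp (-(N * X ^ 2 / (2 * β)) + ε * N * (2 + X / β) * X) *
      ‖F β‖ := by
  have hβc : (β : ℂ) ≠ 0 := by exact_mod_cast hβ.ne'
  have hσ2 : σ * σ = 1 := by rcases hσ with h | h <;> rw [h] <;> norm_num
  have hσn : |σ| = 1 := by rcases hσ with h | h <;> rw [h] <;> simp
  -- the function
  set K : ℝ := ε * N * (2 + X / β) with hK
  let G : ℝ → ℂ := fun τ => F ((β + σ * τ : ℝ) : ℂ) * cexp (((N * τ ^ 2 / (2 * β) : ℝ) : ℂ))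
  have hG : ∀ τ : ℝ, 0 ≤ τ → τ ≤ X → HasDerivAt G ((σ * (deriv F ((β + σ * τ : ℝ) : ℂ) /
      F ((β + σ * τ : ℝ) : ℂ) - N * (1 - ((β + σ * τ : ℝ) : ℂ) / β))) * G τ) τ := by
    intro τ h0 hτ
    obtain ⟨h1, h2, _⟩ := hF τ h0 hτ
    have h3 : HasDerivAt (fun τ : ℝ => ((β + σ * τ : ℝ) : ℂ)) (σ : ℂ) τ := by
      have h31 : HasDerivAt (fun τ : ℝ => β + σ * τ) σ τ := by
        simpa using ((hasDerivAt_id τ).const_mul σ).const_add β
      exact h31.ofReal_comp
    have h4 : HasDerivAt (fun τ : ℝ => F ((β + σ * τ : ℝ) : ℂ))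
        (deriv F ((β + σ * τ : ℝ) : ℂ) * σ) τ := h1.hasDerivAt.comp_of_eq τ h3 rfl
    have h5 : HasDerivAt (fun τ : ℝ => ((N * τ ^ 2 / (2 * β) : ℝ) : ℂ))
        (((N * τ / β : ℝ)) : ℂ) τ := by
      have h51 : HasDerivAt (fun τ : ℝ => N * τ ^ 2 / (2 * β)) (N * τ / β) τ := by
        have h52 := (((hasDerivAt_pow 2 τ)).const_mul N).div_const (2 * β)
        have h53 : N * (((2 : ℕ) : ℝ) * τ ^ (2 - 1)) / (2 * β) = N * τ / β := by
          field_simp
          push_cast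
          ring
        rw [h53] at h52
        exact h52
      exact h51.ofReal_comp
    have h6 : HasDerivAt (fun τ : ℝ => cexp (((N * τ ^ 2 / (2 * β) : ℝ) : ℂ)))
        (cexp (((N * τ ^ 2 / (2 * β) : ℝ) : ℂ)) * (((N * τ / β : ℝ)) : ℂ)) τ := h5.cexp
    have h7 := h4.mul h6
    have h8 : deriv F ((β + σ * τ : ℝ) : ℂ) * σ * cexp (((N * τ ^ 2 / (2 * β) : ℝ) : ℂ)) +
        F ((β + σ * τ : ℝ) : ℂ) * (cexp (((N * τ ^ 2 / (2 * β) : ℝ) : ℂ)) *
          (((N * τ / β : ℝ)) : ℂ)) = (σ * (deriv F ((β + σ * τ : ℝ) : ℂ) /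
      F ((β + σ * τ : ℝ) : ℂ) - N * (1 - ((β + σ * τ : ℝ) : ℂ) / β))) * G τ := by
      have h9 : (1 : ℂ) - ((β + σ * τ : ℝ) : ℂ) / β = -(σ * τ / β) := by
        push_cast
        field_simp
        ring
      have hσc : (σ : ℂ) * σ = 1 := by exact_mod_cast hσ2
      simp only [G]
      rw [h9]
      have h10 : (σ : ℂ) * (deriv F ((β + σ * τ : ℝ) : ℂ) / F ((β + σ * τ : ℝ) : ℂ) -
          N * -(σ * τ / β)) = σ * (deriv F ((β + σ * τ : ℝ) : ℂ) / F ((β + σ * τ : ℝ) : ℂ)) +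
            N * τ / β := by
        linear_combination (N * τ / β : ℂ) * hσc
      rw [h10]
      generalize F ((β + σ * τ : ℝ) : ℂ) = Fp at h2 ⊢
      generalize deriv F ((β + σ * τ : ℝ) : ℂ) = dF
      generalize cexp (((N * τ ^ 2 / (2 * β) : ℝ) : ℂ)) = ex
      push_cast
      field_simp
    rw [← h8]
    exact h7
  have hgr := norm_le_gronwallBound_of_norm_deriv_right_le (f := G)
    (f' := fun τ => (σ * (deriv F ((β + σ * τ : ℝ) : ℂ) /
      F ((β + σ * τ : ℝ) : ℂ) - N * (1 - ((β + σ * τ : ℝ) : ℂ) / β))) * G τ)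
    (δ := ‖F β‖) (K := K) (ε := 0) (a := 0) (b := X)
    (fun τ hτ => (hG τ hτ.1 hτ.2).continuousAt.continuousWithinAt)
    (fun τ hτ => (hG τ hτ.1 hτ.2.le).hasDerivWithinAt)
    (by simp [G])
    (fun τ hτ => by
      rw [add_zero, norm_mul, norm_mul, Complex.norm_real, Real.norm_eq_abs, hσn, one_mul]
      exact mul_le_mul_of_nonneg_right (hF τ hτ.1 hτ.2.le).2.2 (norm_nonneg _))
    X ⟨hX, le_rfl⟩
  rw [gronwallBound_ε0, sub_zero] at hgr
  have h11 : ‖G X‖ = ‖F ((β + σ * X : ℝ) : ℂ)‖ * Real.exp (N * X ^ 2 / (2 * β)) := by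
    simp only [G]
    rw [norm_mul, Complex.norm_exp, Complex.ofReal_re]
  rw [h11] at hgr
  calc ‖F ((β + σ * X : ℝ) : ℂ)‖ = (‖F ((β + σ * X : ℝ) : ℂ)‖ * Real.exp (N * X ^ 2 / (2 * β))) *
        Real.exp (-(N * X ^ 2 / (2 * β))) := by
        rw [mul_assoc, ← Real.exp_add, add_neg_cancel, Real.exp_zero, mul_one]
    _ ≤ (‖F β‖ * Real.exp (K * X)) * Real.exp (-(N * X ^ 2 / (2 * β))) :=
        mul_le_mul_of_nonneg_right hgr (Real.exp_pos _).le
    _ = _ := by
        rw [Real.exp_add]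
        ring

/-- the contour shift over a short rectangle -/
theorem jd_KL_rect (F : ℂ → ℂ) (a b q M : ℝ)
    (hF : DifferentiableOn ℂ F ((Set.uIcc a b) ×ℂ (Set.uIcc 0 q)))
    (hM : ∀ y ∈ Set.uIcc 0 q, ‖F ((a : ℂ) + y * I)‖ ≤ M ∧ ‖F ((b : ℂ) + y * I)‖ ≤ M) :
    ‖∫ x in a..b, F ((x : ℂ) + q * I)‖ ≤ ‖∫ x in a..b, F x‖ + 2 * |q| * M := by
  have h1 := Complex.integral_boundary_rect_eq_zero_of_differentiableOn F (a : ℂ)
    ((b : ℂ) + q * I) (by simpa using hF)
  simp only [ofReal_re, add_re, mul_re, I_re, mul_zero, ofReal_im, I_im, mul_one, sub_zero,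
    add_zero, add_im, mul_im, zero_add, ofReal_zero, zero_mul, smul_eq_mul] at h1
  have h2 : ‖∫ y in (0 : ℝ)..q, F ((b : ℂ) + y * I)‖ ≤ M * |q - 0| := by
    refine intervalIntegral.norm_integral_le_of_norm_le_const ?_
    intro y hy
    exact (hM y (Set.uIoc_subset_uIcc hy)).2
  have h3 : ‖∫ y in (0 : ℝ)..q, F ((a : ℂ) + y * I)‖ ≤ M * |q - 0| := by
    refine intervalIntegral.norm_integral_le_of_norm_le_const ?_
    intro y hy
    exact (hM y (Set.uIoc_subset_uIcc hy)).1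
  rw [sub_zero] at h2 h3
  have h4 : ∫ x in a..b, F ((x : ℂ) + q * I) = (∫ x in a..b, F x) +
      I * (∫ y in (0 : ℝ)..q, F ((b : ℂ) + y * I)) - I * ∫ y in (0 : ℝ)..q, F ((a : ℂ) + y * I) := by
    linear_combination -h1
  rw [h4]
  refine (norm_sub_le _ _).trans ?_
  refine (add_le_add (norm_add_le _ _) le_rfl).trans ?_
  rw [norm_mul, norm_mul, norm_I, one_mul, one_mul]
  linarith

private theorem jd_KL_n1 (ε β X T : ℝ) (hX : 0 < X) (hβ : 0 < β) (hε : 0 < ε) (hε1 : ε ≤ 1 / 8)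
    (h8 : 8 * ε * β ≤ 1) :
    -(X * T ^ 2 / 2) + ε * (β * X) * (2 + T / β) * T ≤ ε * (β * X) + -(X / 4) * T ^ 2 := by
  have e1 : ε * (β * X) * (2 + T / β) * T = X * (2 * ε * β * T + ε * T ^ 2) := by
    field_simp
  rw [e1]
  have h1 : 2 * ε * β * T ≤ T ^ 2 / 8 + 8 * (ε * β) ^ 2 := by nlinarith [sq_nonneg (T / 2 - 4 * ε * β)]
  have h2 : ε * T ^ 2 ≤ T ^ 2 / 8 := by nlinarith [sq_nonneg T]
  have h3 : 8 * (ε * β) ^ 2 ≤ ε * β := by
    have : 0 < ε * β := by positivity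
    nlinarith
  have h4 : 2 * ε * β * T + ε * T ^ 2 ≤ T ^ 2 / 4 + ε * β := by linarith
  have h5 := mul_le_mul_of_nonneg_left h4 hX.le
  calc -(X * T ^ 2 / 2) + X * (2 * ε * β * T + ε * T ^ 2)
      ≤ -(X * T ^ 2 / 2) + X * (T ^ 2 / 4 + ε * β) := by linarith
    _ = _ := by ring

private theorem jd_KL_n2 (B X : ℝ) (hB : 1 ≤ B) (hX : 4 * 51200 ^ 2 * (1 + 16 * B) ≤ X) :
    (1 + 16 * B) * Real.exp (-(X / 51200)) ≤ 1 / (2 * Real.sqrt X) := by
  have hX1 : 1 ≤ X := by nlinarith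
  have hX0 : 0 < X := by linarith
  have h1 : (X / 51200) ^ 2 / 2 ≤ Real.exp (X / 51200) := by
    have := Real.quadratic_le_exp_of_nonneg (x := X / 51200) (by positivity)
    have h2 : 0 ≤ X / 51200 := by positivity
    linarith
  have h2 : Real.sqrt X ≤ X := by
    rw [Real.sqrt_le_left hX0.le]
    nlinarith
  have hs : 0 < Real.sqrt X := Real.sqrt_pos.2 hX0
  rw [Real.exp_neg, ← div_eq_mul_inv, div_le_div_iff₀ (Real.exp_pos _) (by positivity), one_mul]
  refine le_trans ?_ h1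
  have h3 : (1 + 16 * B) * (2 * Real.sqrt X) ≤ (1 + 16 * B) * (2 * X) :=
    mul_le_mul_of_nonneg_left (by linarith) (by linarith)
  refine h3.trans ?_
  have h4 : (X / 51200) ^ 2 / 2 = X * (X / (2 * 51200 ^ 2)) := by ring
  have h5 : (1 + 16 * B) * (2 * X) = X * (2 * (1 + 16 * B)) := by ring
  rw [h4, h5]
  refine mul_le_mul_of_nonneg_left ?_ hX0.le
  rw [le_div_iff₀ (by norm_num)]
  linarith

private theorem jd_KL_n3 (X x y εB : ℝ) (E s : ℂ) (hX : 0 < X) (hεB : εB ≤ 1 / 102400)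
    (hεB0 : 0 ≤ εB)
    (hx : x ^ 2 = 1 / 4096) (hy : |y| ≤ 1 / 1000) (hs : s = x + y * I)
    (hE : ‖E‖ ≤ 96 * εB * X * ‖s‖ ^ 2) :
    (-((X : ℂ) * s ^ 2 / 2) + E).re ≤ -(X / 25600) := by
  have hy2 : y ^ 2 ≤ 1 / 1000000 := by
    rw [← sq_abs]
    nlinarith [abs_nonneg y]
  have h1 : (s ^ 2).re = 1 / 4096 - y ^ 2 := by
    rw [hs, ← hx, sq, mul_re]
    simp
    ring
  have h2 : ‖s‖ ^ 2 = 1 / 4096 + y ^ 2 := by
    rw [← Complex.normSq_eq_norm_sq, Complex.normSq_apply, hs, ← hx]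
    simp
    ring
  rw [h2] at hE
  have h3 : (-((X : ℂ) * s ^ 2 / 2) + E).re = -(X * (1 / 4096 - y ^ 2) / 2) + E.re := by
    have h4 : (X : ℂ) * s ^ 2 / 2 = ((X / 2 : ℝ) : ℂ) * s ^ 2 := by
      push_cast
      ring
    rw [h4, add_re, neg_re, re_ofReal_mul, h1]
    ring
  rw [h3]
  have h5 : E.re ≤ ‖E‖ := Complex.re_le_norm E
  have h6 : 96 * εB * X * (1 / 4096 + y ^ 2) ≤ X * (1 / 4096000) := by
    have h7 : 96 * εB * (1 / 4096 + y ^ 2) ≤ 1 / 4096000 := by nlinarith [sq_nonneg y]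
    calc 96 * εB * X * (1 / 4096 + y ^ 2) = X * (96 * εB * (1 / 4096 + y ^ 2)) := by ring
      _ ≤ _ := mul_le_mul_of_nonneg_left h7 hX.le
  have h8 : X * y ^ 2 ≤ X * (1 / 1000000) := mul_le_mul_of_nonneg_left hy2 hX.le
  linarith

theorem p_KL (h : S_lapH) : S_KL := by
  intro B hB
  obtain ⟨η, Nl, hη, hNl, hlap⟩ := h
  have hB0 : 0 < B := by linarith
  refine ⟨min (η / (96 * B)) (1 / (102400 * B)),
    B * (256 * Nl + 4 * 51200 ^ 2 * (1 + 16 * B)), 4, ?_, ?_, by norm_num, ?_⟩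
  · exact lt_min (by positivity) (by positivity)
  · have h1 : 1 ≤ 256 * Nl + 4 * 51200 ^ 2 * (1 + 16 * B) := by nlinarith
    nlinarith
  intro N β ε v₁ L F hN hβ hβB hε hε0 hv₁ hv₁' hL hL' hF
  have hεη : 96 * (ε * B) ≤ η := by
    have h1 : ε ≤ η / (96 * B) := hε0.trans (min_le_left _ _)
    rw [le_div_iff₀ (by positivity)] at h1
    linarith
  have hεB : ε * B ≤ 1 / 102400 := by
    have h1 : ε ≤ 1 / (102400 * B) := hε0.trans (min_le_right _ _)
    rw [le_div_iff₀ (by positivity)] at h1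
    rw [le_div_iff₀ (by norm_num)]
    linarith
  have hεB0 : 0 < ε * B := by positivity
  have hε1 : ε ≤ 1 / 102400 := le_trans (by nlinarith) hεB
  have hεβ : ε * β ≤ 1 / 102400 := le_trans (mul_le_mul_of_nonneg_left hβB hε.le) hεB
  have hεβ0 : 0 < ε * β := by positivity
  have hN0 : 0 < N := by
    have h1 : 0 < B * (256 * Nl + 4 * 51200 ^ 2 * (1 + 16 * B)) := by positivity
    linarith
  -- `X = N / β`
  obtain ⟨X, hXdef⟩ : ∃ X : ℝ, X = N / β := ⟨_, rfl⟩
  have hNX : N = β * X := by rw [hXdef]; field_simp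
  have hXB : 256 * Nl + 4 * 51200 ^ 2 * (1 + 16 * B) ≤ X := by
    have h1 : B * (256 * Nl + 4 * 51200 ^ 2 * (1 + 16 * B)) ≤ β * X := by rw [← hNX]; exact hN
    have hX0 : 0 < X := by rw [hXdef]; positivity
    have h2 : β * X ≤ B * X := mul_le_mul_of_nonneg_right hβB hX0.le
    exact le_of_mul_le_mul_left (h1.trans h2) hB0
  have hX0 : 0 < X := by rw [hXdef]; positivity
  have hXl : Nl ≤ X / 256 := by
    have : 0 < 4 * 51200 ^ 2 * (1 + 16 * B) := by positivity
    linarith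
  have hXB2 : 4 * 51200 ^ 2 * (1 + 16 * B) ≤ X := by linarith
  have hsqrt : Real.sqrt (β / N) = 1 / Real.sqrt X := by
    rw [hXdef, one_div, ← Real.sqrt_inv, inv_div]
  have hsX : 0 < Real.sqrt X := Real.sqrt_pos.2 hX0
  have hβc : (β : ℂ) ≠ 0 := by exact_mod_cast hβ.ne'
  have hnβ : ‖(β : ℂ)‖ = β := by rw [Complex.norm_real, Real.norm_of_nonneg hβ.le]
  -- the ball of radius `1/16`
  have hball : ∀ v ∈ Metric.ball (β : ℂ) (1 / 16), v₁ ≤ v.re ∧ v.re ≤ L ∧ |v.im| ≤ 1 / 8 := by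
    intro v hv
    rw [Metric.mem_ball, dist_eq_norm] at hv
    have h1 := (Complex.abs_re_le_norm (v - β)).trans hv.le
    have h2 := (Complex.abs_im_le_norm (v - β)).trans hv.le
    rw [sub_re, ofReal_re, abs_le] at h1
    rw [sub_im, ofReal_im, sub_zero] at h2
    exact ⟨by linarith [h1.1], by linarith [h1.2], by linarith⟩
  have hnorm : ∀ v : ℂ, ‖v‖ ≤ β + ‖v - β‖ := by
    intro v
    calc ‖v‖ = ‖(β : ℂ) + (v - β)‖ := by rw [add_sub_cancel]
      _ ≤ ‖(β : ℂ)‖ + ‖v - β‖ := norm_add_le _ _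
      _ = _ := by rw [hnβ]
  have hebd : ∀ v ∈ Metric.ball (β : ℂ) (1 / 16), DifferentiableAt ℂ F v ∧ F v ≠ 0 ∧
      ‖deriv F v / F v - N * (1 - v / β)‖ ≤ 3 * (ε * B) * X := by
    intro v hv
    obtain ⟨h1, h2, h3⟩ := hball v hv
    obtain ⟨h4, h5, h6⟩ := hF v h1 h2 h3
    refine ⟨h4, h5, h6.trans ?_⟩
    have h7 : ‖v‖ ≤ β + 1 / 16 := by
      rw [Metric.mem_ball, dist_eq_norm] at hv
      linarith [hnorm v]
    have h8 : ε * N * (1 + ‖v‖ / β) = ε * X * (β + ‖v‖) := by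
      rw [hNX]
      field_simp
    rw [h8]
    have h9 : β + ‖v‖ ≤ 3 * B := by linarith
    calc ε * X * (β + ‖v‖) ≤ ε * X * (3 * B) := mul_le_mul_of_nonneg_left h9 (by positivity)
      _ = _ := by ring
  obtain ⟨hlip, hexp, hlog⟩ := jd_KL_loc β N (3 * (ε * B) * X) F hβ.ne' hebd
  have hsm : ∀ v : ℂ, ‖v - β‖ ≤ 4 * ε * β → v ∈ Metric.ball (β : ℂ) (1 / 32) := by
    intro v hv
    rw [Metric.mem_ball, dist_eq_norm]
    linarith
  have hsub : Metric.ball (β : ℂ) (1 / 32) ⊆ Metric.ball (β : ℂ) (1 / 16) :=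
    Metric.ball_subset_ball (by norm_num)
  -- the saddle
  obtain ⟨v₀, hv₀, hsad⟩ := jd_KL_sad β N ε (32 * (3 * (ε * B) * X))
    (fun v => deriv F v / F v - N * (1 - v / β)) hβ hN0 hε (by linarith) (by
      rw [hNX]
      have : β / (β * X) * (32 * (3 * (ε * B) * X)) = 96 * (ε * B) := by
        field_simp
        norm_num
      rw [this]
      linarith)
    (by
      intro v hv
      obtain ⟨h1, h2, h3⟩ := hball v (hsub (hsm v hv))
      exact (hF v h1 h2 h3).2.2)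
    (fun v v' hv hv' => hlip v (hsm v hv) v' (hsm v' hv'))
  have hq0 : deriv F v₀ / F v₀ = 0 := by
    have hsad' : (N : ℂ) * (1 - v₀ / β) + (deriv F v₀ / F v₀ - N * (1 - v₀ / β)) = 0 := hsad
    linear_combination hsad'
  have hv₀b := hsm v₀ hv₀
  -- the value at the saddle
  obtain ⟨γ, hγ, hFγ⟩ := hlog v₀ hv₀b (7 * (ε * N)) (by
    intro z hz
    have h1 : ‖z - β‖ ≤ 4 * ε * β := (norm_sub_le_of_mem_segment hz).trans hv₀
    obtain ⟨h2, h3, h4⟩ := hball z (hsub (hsm z h1))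
    have h5 := (hF z h2 h3 h4).2.2
    have h6 : ‖z‖ ≤ 2 * β := by
      have h61 : 4 * ε * β ≤ β := by
        have : 4 * ε ≤ 1 := by linarith
        calc 4 * ε * β ≤ 1 * β := mul_le_mul_of_nonneg_right this hβ.le
          _ = β := one_mul β
      linarith [hnorm z]
    have h7 : ‖z‖ / β ≤ 2 := by rwa [div_le_iff₀ hβ]
    have h8 : ‖(N : ℂ) * (1 - z / β)‖ ≤ 4 * (ε * N) := by
      have h81 : (1 : ℂ) - z / β = -(z - β) / β := by
        field_simp
        ring
      rw [h81, norm_mul, norm_div, norm_neg, hnβ, Complex.norm_real, Real.norm_of_nonneg hN0.le]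
      calc N * (‖z - β‖ / β) ≤ N * ((4 * ε * β) / β) :=
            mul_le_mul_of_nonneg_left (div_le_div_of_nonneg_right h1 hβ.le) hN0.le
        _ = 4 * (ε * N) := by field_simp
    calc ‖deriv F z / F z‖ = ‖(deriv F z / F z - N * (1 - z / β)) + N * (1 - z / β)‖ := by
          rw [sub_add_cancel]
      _ ≤ ‖deriv F z / F z - N * (1 - z / β)‖ + ‖(N : ℂ) * (1 - z / β)‖ := norm_add_le _ _
      _ ≤ ε * N * (1 + ‖z‖ / β) + 4 * (ε * N) := add_le_add h5 h8
      _ ≤ ε * N * 3 + 4 * (ε * N) := by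
          have : ε * N * (1 + ‖z‖ / β) ≤ ε * N * 3 :=
            mul_le_mul_of_nonneg_left (by linarith) (by positivity)
          linarith
      _ = _ := by ring)
  have hεN0 : 0 < ε * N := by positivity
  have hγ' : ‖γ‖ ≤ ε * N := by
    calc ‖γ‖ ≤ 7 * (ε * N) * ‖v₀ - β‖ := hγ
      _ ≤ 7 * (ε * N) * (4 * ε * β) := mul_le_mul_of_nonneg_left hv₀ (by positivity)
      _ = (ε * N) * (28 * (ε * β)) := by ring
      _ ≤ (ε * N) * 1 := mul_le_mul_of_nonneg_left (by linarith) hεN0.le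
      _ = ε * N := mul_one _
  have hγre := abs_le.1 ((Complex.abs_re_le_norm γ).trans hγ')
  have hFv₀ : ‖F v₀‖ = ‖F β‖ * Real.exp γ.re := by rw [hFγ, norm_mul, Complex.norm_exp]
  have hFβ0 : 0 ≤ ‖F β‖ := norm_nonneg _
  have hlo : ‖F β‖ * Real.exp (-(ε * N)) ≤ ‖F v₀‖ := by
    rw [hFv₀]
    exact mul_le_mul_of_nonneg_left (Real.exp_le_exp.2 hγre.1) hFβ0
  have hup : ‖F v₀‖ ≤ ‖F β‖ * Real.exp (ε * N) := by
    rw [hFv₀]
    exact mul_le_mul_of_nonneg_left (Real.exp_le_exp.2 hγre.2) hFβ0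
  have hFv₀0 : F v₀ ≠ 0 := (hebd v₀ (hsub hv₀b)).2.1
  have hre₀ := abs_le.1 ((Complex.abs_re_le_norm (v₀ - β)).trans hv₀)
  have him₀ := (Complex.abs_im_le_norm (v₀ - β)).trans hv₀
  rw [sub_re, ofReal_re] at hre₀
  rw [sub_im, ofReal_im, sub_zero] at him₀
  set p : ℝ := v₀.re with hp
  set q : ℝ := v₀.im with hq
  have hv₀pq : v₀ = (p : ℂ) + q * I := (Complex.re_add_im v₀).symm
  have hq1 : |q| ≤ 1 / 1000 := by linarith
  have hp1 : |p - β| ≤ 1 / 1000 := by
    rw [abs_le]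
    constructor <;> linarith [hre₀.1, hre₀.2]
  have hp2 := abs_le.1 hp1
  -- continuity on the real axis
  have hcont : ContinuousOn (fun t : ℝ => F (t : ℂ)) (Set.Icc v₁ L) := by
    intro t ht
    have h1 := (hF (t : ℂ) (by rw [ofReal_re]; exact ht.1) (by rw [ofReal_re]; exact ht.2)
      (by rw [ofReal_im, abs_zero]; norm_num)).1.continuousAt
    exact (h1.comp (Complex.continuous_ofReal.continuousAt)).continuousWithinAt
  -- upper bound on the real axis
  have hreal : ∀ t : ℝ, v₁ ≤ t → t ≤ L → ‖F (t : ℂ)‖ ≤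
      ‖F β‖ * Real.exp (ε * N) * Real.exp (-(X / 4) * (t - β) ^ 2) := by
    intro t ht1 ht2
    obtain ⟨σ, T, hσ, hT, htσ⟩ : ∃ σ T : ℝ, (σ = 1 ∨ σ = -1) ∧ 0 ≤ T ∧ t = β + σ * T := by
      rcases le_total β t with h1 | h1
      · exact ⟨1, t - β, Or.inl rfl, by linarith, by ring⟩
      · exact ⟨-1, β - t, Or.inr rfl, by linarith, by ring⟩
    have h2 := jd_KL_real β N ε σ T F hβ hN0 hε hσ hT (by
      intro τ h0 hτ
      have h3 : v₁ ≤ β + σ * τ ∧ β + σ * τ ≤ L := by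
        rcases hσ with h4 | h4
        · rw [h4] at htσ ⊢
          constructor <;> linarith
        · rw [h4] at htσ ⊢
          constructor <;> linarith
      obtain ⟨h5, h6, h7⟩ := hF ((β + σ * τ : ℝ) : ℂ) (by rw [ofReal_re]; exact h3.1)
        (by rw [ofReal_re]; exact h3.2) (by rw [ofReal_im, abs_zero]; norm_num)
      refine ⟨h5, h6, h7.trans ?_⟩
      refine mul_le_mul_of_nonneg_left ?_ hεN0.le
      have h8 : ‖((β + σ * τ : ℝ) : ℂ)‖ ≤ β + T := by
        rw [Complex.norm_real, Real.norm_eq_abs]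
        refine (abs_add_le _ _).trans ?_
        rw [abs_of_pos hβ, abs_mul, abs_of_nonneg h0]
        have : |σ| = 1 := by rcases hσ with h | h <;> rw [h] <;> simp
        rw [this, one_mul]
        linarith
      have h9 : ‖((β + σ * τ : ℝ) : ℂ)‖ / β ≤ (β + T) / β := div_le_div_of_nonneg_right h8 hβ.le
      rw [add_div, div_self hβ.ne'] at h9
      linarith)
    rw [← htσ] at h2
    refine h2.trans ?_
    have e1 : -(N * T ^ 2 / (2 * β)) + ε * N * (2 + T / β) * T =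
        -(X * T ^ 2 / 2) + ε * (β * X) * (2 + T / β) * T := by
      rw [hNX]
      field_simp
    have e2 : (t - β) ^ 2 = T ^ 2 := by
      rw [htσ]
      have : σ ^ 2 = 1 := by rcases hσ with h | h <;> rw [h] <;> norm_num
      calc (β + σ * T - β) ^ 2 = σ ^ 2 * T ^ 2 := by ring
        _ = T ^ 2 := by rw [this, one_mul]
    have h10 := jd_KL_n1 ε β X T hX0 hβ hε (by linarith) (by linarith)
    rw [← hNX] at h10
    rw [e1, e2, mul_comm _ ‖F β‖, mul_assoc ‖F β‖ (Real.exp (ε * N)), ← Real.exp_add]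
    refine mul_le_mul_of_nonneg_left (Real.exp_le_exp.2 ?_) hFβ0
    rw [← hNX]
    exact h10
  have hint : ∀ a b : ℝ, v₁ ≤ a → a ≤ b → b ≤ L →
      IntervalIntegrable (fun t : ℝ => F (t : ℂ)) volume a b := by
    intro a b h1 h2 h3
    refine ContinuousOn.intervalIntegrable ?_
    rw [Set.uIcc_of_le h2]
    exact hcont.mono (Set.Icc_subset_Icc h1 h3)
  -- the window
  set M : ℝ := ‖F β‖ * Real.exp (ε * N) * Real.exp (-(X / 25600)) with hM
  have hM0 : 0 ≤ M := by positivity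
  have hwin : ‖F v₀‖ / Real.sqrt X ≤ ‖∫ x in (p - 1 / 64)..(p + 1 / 64), F ((x : ℂ) + q * I)‖ := by
    have hballu : ∀ u : ℝ, |u| ≤ 1 / 4 → v₀ + (u / 16 : ℝ) ∈ Metric.ball (β : ℂ) (1 / 32) := by
      intro u hu
      rw [Metric.mem_ball, dist_eq_norm]
      calc ‖v₀ + (u / 16 : ℝ) - β‖ = ‖(v₀ - β) + ((u / 16 : ℝ) : ℂ)‖ := by congr 1; ring
        _ ≤ ‖v₀ - β‖ + ‖((u / 16 : ℝ) : ℂ)‖ := norm_add_le _ _
        _ ≤ 4 * ε * β + 1 / 64 := by
          rw [Complex.norm_real, Real.norm_eq_abs, abs_div]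
          have : |(16 : ℝ)| = 16 := abs_of_pos (by norm_num)
          rw [this]
          linarith
        _ < 1 / 32 := by linarith
    have hQ := hlap (X / 256) hXl (fun u => F (v₀ + (u / 16 : ℝ)) / F v₀) (by
        refine ContinuousOn.intervalIntegrable ?_
        rw [Set.uIcc_of_le (by norm_num)]
        intro u hu
        have h1 := (hebd _ (hsub (hballu u (abs_le.2 hu)))).1.continuousAt
        have h2 : ContinuousAt (fun u : ℝ => v₀ + ((u / 16 : ℝ) : ℂ)) u := by fun_prop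
        exact ((ContinuousAt.comp (f := fun u : ℝ => v₀ + ((u / 16 : ℝ) : ℂ)) h1 h2).div_const
          (F v₀)).continuousWithinAt)
      (by
        intro u hu
        obtain ⟨E, hE, hFE⟩ := hexp _ (hballu u hu) v₀ hv₀b hq0
        refine ⟨E, ?_, ?_⟩
        · refine hE.trans ?_
          rw [add_sub_cancel_left, Complex.norm_real, Real.norm_eq_abs, sq_abs]
          calc 32 * (3 * (ε * B) * X) * (u / 16) ^ 2 = 96 * (ε * B) * (X / 256 * u ^ 2) := by ring
            _ ≤ η * (X / 256 * u ^ 2) := mul_le_mul_of_nonneg_right hεη (by positivity)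
            _ = _ := by ring
        · rw [hFE, mul_div_cancel_left₀ _ hFv₀0]
          congr 2
          rw [add_sub_cancel_left, hNX]
          push_cast
          field_simp
          ring)
    have h1 : ∫ u in (-(1 / 4) : ℝ)..(1 / 4), F (v₀ + (u / 16 : ℝ)) / F v₀ =
        (16 : ℝ) • ((∫ x in (p - 1 / 64)..(p + 1 / 64), F ((x : ℂ) + q * I)) / F v₀) := by
      rw [intervalIntegral.integral_div]
      have h2 := intervalIntegral.integral_comp_div_add (fun x : ℝ => F ((x : ℂ) + q * I))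
        (a := -(1 / 4)) (b := 1 / 4) (c := 16) (by norm_num) p
      have h3 : ∀ u : ℝ, v₀ + ((u / 16 : ℝ) : ℂ) = ((u / 16 + p : ℝ) : ℂ) + q * I := by
        intro u
        rw [hv₀pq]
        push_cast
        ring
      simp only [h3]
      rw [h2]
      have e1 : (-(1 / 4) : ℝ) / 16 + p = p - 1 / 64 := by ring
      have e2 : (1 / 4 : ℝ) / 16 + p = p + 1 / 64 := by ring
      rw [e1, e2, smul_div_assoc]
    rw [h1, norm_smul, norm_div, Real.norm_of_nonneg (by norm_num)] at hQ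
    have h2 : Real.sqrt (X / 256) = Real.sqrt X / 16 := by
      rw [Real.sqrt_div' _ (by norm_num)]
      congr 1
      rw [show (256 : ℝ) = 16 ^ 2 by norm_num, Real.sqrt_sq (by norm_num)]
    rw [h2] at hQ
    have h3 : 0 < ‖F v₀‖ := norm_pos_iff.2 hFv₀0
    rw [← mul_div_assoc, le_div_iff₀ h3] at hQ
    have h4 : 1 / (Real.sqrt X / 16) * ‖F v₀‖ = 16 * (‖F v₀‖ / Real.sqrt X) := by
      field_simp
    rw [h4] at hQ
    linarith
  have hrect := jd_KL_rect F (p - 1 / 64) (p + 1 / 64) q M (by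
      intro z hz
      have h1 : z.re ∈ Set.uIcc (p - 1 / 64) (p + 1 / 64) := hz.1
      have h2 : z.im ∈ Set.uIcc 0 q := hz.2
      rw [Set.uIcc_of_le (by linarith)] at h1
      have h3 : |z.im| ≤ |q| := by
        rcases le_total 0 q with h0 | h0
        · rw [Set.uIcc_of_le h0] at h2
          rw [abs_of_nonneg h2.1, abs_of_nonneg h0]
          exact h2.2
        · rw [Set.uIcc_of_ge h0] at h2
          rw [abs_of_nonpos h2.2, abs_of_nonpos h0]
          linarith [h2.1]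
      exact (hF z (by linarith [h1.1]) (by linarith [h1.2]) (by linarith)).1.differentiableWithinAt)
    (by
      intro y hy
      have h3 : |y| ≤ |q| ∧ |y - q| ≤ |q| := by
        rcases le_total 0 q with h0 | h0
        · rw [Set.uIcc_of_le h0] at hy
          rw [abs_of_nonneg hy.1, abs_of_nonneg h0, abs_of_nonpos (by linarith [hy.2])]
          exact ⟨hy.2, by linarith [hy.1]⟩
        · rw [Set.uIcc_of_ge h0] at hy
          rw [abs_of_nonpos hy.2, abs_of_nonpos h0, abs_of_nonneg (by linarith [hy.1])]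
          exact ⟨by linarith [hy.1], by linarith [hy.2]⟩
      have key : ∀ x : ℝ, |x| = 1 / 64 → ‖F (((p + x : ℝ) : ℂ) + y * I)‖ ≤ M := by
        intro x hx
        have hs : (((p + x : ℝ) : ℂ) + y * I) - v₀ = (x : ℂ) + ((y - q : ℝ) : ℂ) * I := by
          rw [hv₀pq]
          push_cast
          ring
        have hb : (((p + x : ℝ) : ℂ) + y * I) ∈ Metric.ball (β : ℂ) (1 / 32) := by
          rw [Metric.mem_ball, dist_eq_norm]
          have h4 : (((p + x : ℝ) : ℂ) + y * I) - β = ((x : ℂ) + ((y - q : ℝ) : ℂ) * I) + (v₀ - β) := by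
            rw [← hs]
            ring
          rw [h4]
          refine lt_of_le_of_lt (norm_add_le _ _) ?_
          have h5 : ‖(x : ℂ) + ((y - q : ℝ) : ℂ) * I‖ ≤ |x| + |y - q| := by
            refine (norm_add_le _ _).trans ?_
            rw [norm_mul, norm_I, mul_one, Complex.norm_real, Complex.norm_real, Real.norm_eq_abs,
              Real.norm_eq_abs]
          linarith [h3.2]
        obtain ⟨E, hE, hFE⟩ := hexp _ hb v₀ hv₀b hq0
        rw [hFE, norm_mul, Complex.norm_exp]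
        have e1 : -((N : ℂ) * ((((p + x : ℝ) : ℂ) + y * I) - v₀) ^ 2 / (2 * β)) =
            -((X : ℂ) * ((((p + x : ℝ) : ℂ) + y * I) - v₀) ^ 2 / 2) := by
          rw [hNX]
          push_cast
          field_simp
        rw [e1]
        have h6 := jd_KL_n3 X x (y - q) (ε * B) E _ hX0 hεB hεB0.le (by
          rw [← sq_abs, hx]
          norm_num) (by linarith [h3.2]) hs (by
            refine hE.trans (le_of_eq ?_)
            ring)
        calc ‖F v₀‖ * Real.exp _ ≤ (‖F β‖ * Real.exp (ε * N)) * Real.exp (-(X / 25600)) :=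
              mul_le_mul hup (Real.exp_le_exp.2 h6) (Real.exp_pos _).le (by positivity)
          _ = M := rfl
      have k1 := key (-(1 / 64)) (by rw [abs_neg, abs_of_pos (by norm_num)])
      have k2 := key (1 / 64) (abs_of_pos (by norm_num))
      have e1 : (p + -(1 / 64) : ℝ) = p - 1 / 64 := by ring
      rw [e1] at k1
      exact ⟨k1, k2⟩)
  -- the far parts
  have hfar : ∀ a b : ℝ, v₁ ≤ a → a ≤ b → b ≤ L → (∀ t ∈ Set.Icc a b, 1 / 80 ≤ |t - β|) →
      ‖∫ t in a..b, F (t : ℂ)‖ ≤ M * (b - a) := by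
    intro a b h1 h2 h3 h4
    have h5 : ‖∫ t in a..b, F (t : ℂ)‖ ≤ M * |b - a| := by
      refine intervalIntegral.norm_integral_le_of_norm_le_const ?_
      intro t ht
      rw [Set.uIoc_of_le h2] at ht
      refine (hreal t (by linarith [ht.1]) (by linarith [ht.2])).trans ?_
      rw [hM]
      refine mul_le_mul_of_nonneg_left (Real.exp_le_exp.2 ?_) (by positivity)
      have h6 := h4 t ⟨ht.1.le, ht.2⟩
      have h7 : 1 / 6400 ≤ (t - β) ^ 2 := by
        have h71 := pow_le_pow_left₀ (by norm_num : (0 : ℝ) ≤ 1 / 80) h6 2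
        rw [sq_abs] at h71
        refine le_trans (by norm_num) h71
      have h8 := mul_le_mul_of_nonneg_left h7 hX0.le
      linarith
    rwa [abs_of_nonneg (by linarith)] at h5
  have hsplit : ∫ v in v₁..L, F v = (∫ t in v₁..(p - 1 / 64), F (t : ℂ)) +
      (∫ t in (p - 1 / 64)..(p + 1 / 64), F (t : ℂ)) + ∫ t in (p + 1 / 64)..L, F (t : ℂ) := by
    rw [intervalIntegral.integral_add_adjacent_intervals, intervalIntegral.integral_add_adjacent_intervals]
    · exact hint _ _ le_rfl (by linarith) (by linarith)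
    · exact hint _ _ (by linarith) (by linarith) le_rfl
    · exact hint _ _ le_rfl (by linarith) (by linarith)
    · exact hint _ _ (by linarith) (by linarith) (by linarith)
  have hf1 := hfar v₁ (p - 1 / 64) le_rfl (by linarith) (by linarith) (by
    intro t ht
    rw [abs_of_nonpos (by linarith [ht.2])]
    linarith [ht.2])
  have hf2 := hfar (p + 1 / 64) L (by linarith) (by linarith) le_rfl (by
    intro t ht
    rw [abs_of_nonneg (by linarith [ht.1])]
    linarith [ht.1])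
  constructor
  · -- lower bound
    have h1 : ‖∫ t in (p - 1 / 64)..(p + 1 / 64), F (t : ℂ)‖ ≤ ‖∫ v in v₁..L, F v‖ +
        M * (p - 1 / 64 - v₁) + M * (L - (p + 1 / 64)) := by
      have e1 : ∫ t in (p - 1 / 64)..(p + 1 / 64), F (t : ℂ) = (∫ v in v₁..L, F v) -
          (∫ t in v₁..(p - 1 / 64), F (t : ℂ)) - ∫ t in (p + 1 / 64)..L, F (t : ℂ) := by
        rw [hsplit]
        ring
      rw [e1]
      refine (norm_sub_le _ _).trans (add_le_add ((norm_sub_le _ _).trans (add_le_add le_rfl hf1)) hf2)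
    have h2 : ‖F v₀‖ / Real.sqrt X ≤ ‖∫ v in v₁..L, F v‖ + (1 + 16 * B) * M := by
      have h3 := hwin.trans hrect
      have e3 : ((p - 1 / 64 : ℝ) : ℂ) = ((p - 1 / 64 : ℝ) : ℂ) := rfl
      have h4 : M * (p - 1 / 64 - v₁) + M * (L - (p + 1 / 64)) ≤ M * (16 * B) := by
        rw [← mul_add]
        refine mul_le_mul_of_nonneg_left ?_ hM0
        linarith
      have h5 : 2 * |q| * M ≤ 1 * M := mul_le_mul_of_nonneg_right (by linarith) hM0
      linarith
    have h3 : (1 + 16 * B) * M ≤ ‖F β‖ * Real.exp (-(ε * N)) * (1 / (2 * Real.sqrt X)) := by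
      have h4 := jd_KL_n2 B X hB hXB2
      have h5 : Real.exp (ε * N) * Real.exp (-(X / 25600)) ≤
          Real.exp (-(ε * N)) * Real.exp (-(X / 51200)) := by
        rw [← Real.exp_add, ← Real.exp_add]
        refine Real.exp_le_exp.2 ?_
        have h6 : ε * N ≤ X / 102400 := by
          rw [hNX]
          calc ε * (β * X) = (ε * β) * X := by ring
            _ ≤ 1 / 102400 * X := mul_le_mul_of_nonneg_right hεβ hX0.le
            _ = _ := by ring
        linarith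
      calc (1 + 16 * B) * M = (1 + 16 * B) * ‖F β‖ * (Real.exp (ε * N) * Real.exp (-(X / 25600))) := by
            rw [hM]
            ring
        _ ≤ (1 + 16 * B) * ‖F β‖ * (Real.exp (-(ε * N)) * Real.exp (-(X / 51200))) :=
            mul_le_mul_of_nonneg_left h5 (by positivity)
        _ = ‖F β‖ * Real.exp (-(ε * N)) * ((1 + 16 * B) * Real.exp (-(X / 51200))) := by ring
        _ ≤ _ := mul_le_mul_of_nonneg_left h4 (by positivity)
    have h4 : ‖F β‖ * Real.exp (-(ε * N)) / Real.sqrt X ≤ ‖F v₀‖ / Real.sqrt X :=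
      div_le_div_of_nonneg_right hlo hsX.le
    have h5 : ‖F β‖ * Real.exp (-(ε * N)) * (1 / (2 * Real.sqrt X)) =
        (‖F β‖ * Real.exp (-(ε * N)) / Real.sqrt X) / 2 := by
      field_simp
    have h6 : (‖F β‖ * Real.exp (-(ε * N)) / Real.sqrt X) / 2 ≤ ‖∫ v in v₁..L, F v‖ := by
      linarith
    refine le_trans ?_ h6
    rw [hsqrt]
    have h7 : Real.exp (-(4 * ε * N)) ≤ Real.exp (-(ε * N)) := Real.exp_le_exp.2 (by linarith)
    calc 1 / Real.sqrt X / 4 * Real.exp (-(4 * ε * N)) * ‖F β‖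
        ≤ 1 / Real.sqrt X / 4 * Real.exp (-(ε * N)) * ‖F β‖ :=
          mul_le_mul_of_nonneg_right (mul_le_mul_of_nonneg_left h7 (by positivity)) hFβ0
      _ = (‖F β‖ * Real.exp (-(ε * N)) / Real.sqrt X) / 4 := by ring
      _ ≤ _ := by
        have : 0 ≤ ‖F β‖ * Real.exp (-(ε * N)) / Real.sqrt X := by positivity
        linarith
  · -- upper bound
    have hg : Integrable (fun t : ℝ => Real.exp (-(X / 4) * (t - β) ^ 2)) :=
      (integrable_exp_neg_mul_sq (by positivity : 0 < X / 4)).comp_sub_right β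
    have hgv : ∫ t : ℝ, Real.exp (-(X / 4) * (t - β) ^ 2) = Real.sqrt (Real.pi / (X / 4)) := by
      rw [integral_sub_right_eq_self (fun t : ℝ => Real.exp (-(X / 4) * t ^ 2)) β,
        integral_gaussian]
    have h1 : ∫ v in v₁..L, ‖F v‖ ≤ ∫ v in v₁..L, ‖F β‖ * Real.exp (ε * N) *
        Real.exp (-(X / 4) * (v - β) ^ 2) := by
      refine intervalIntegral.integral_mono_on (by linarith) (hint _ _ le_rfl (by linarith) le_rfl).norm
        ((hg.const_mul _).intervalIntegrable) ?_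
      intro t ht
      exact hreal t ht.1 ht.2
    refine h1.trans ?_
    rw [intervalIntegral.integral_const_mul, intervalIntegral.integral_of_le (by linarith)]
    have h2 : ∫ t in Set.Ioc v₁ L, Real.exp (-(X / 4) * (t - β) ^ 2) ≤
        Real.sqrt (Real.pi / (X / 4)) := by
      rw [← hgv]
      exact setIntegral_le_integral hg (Filter.Eventually.of_forall fun t => (Real.exp_pos _).le)
    have h3 : Real.sqrt (Real.pi / (X / 4)) ≤ 4 * (1 / Real.sqrt X) := by
      have h4 : Real.pi / (X / 4) = (4 * Real.pi) / X := by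
        field_simp
      rw [h4, Real.sqrt_div' _ hX0.le, mul_one_div]
      refine div_le_div_of_nonneg_right ?_ hsX.le
      rw [Real.sqrt_le_left (by norm_num)]
      have := Real.pi_lt_d2
      linarith
    rw [hsqrt]
    calc ‖F β‖ * Real.exp (ε * N) * ∫ t in Set.Ioc v₁ L, Real.exp (-(X / 4) * (t - β) ^ 2)
        ≤ ‖F β‖ * Real.exp (ε * N) * (4 * (1 / Real.sqrt X)) :=
          mul_le_mul_of_nonneg_left (h2.trans h3) (by positivity)
      _ ≤ ‖F β‖ * Real.exp (4 * ε * N) * (4 * (1 / Real.sqrt X)) := by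
          refine mul_le_mul_of_nonneg_right (mul_le_mul_of_nonneg_left (Real.exp_le_exp.2 ?_) hFβ0)
            (by positivity)
          linarith
      _ = _ := by ring

end Pool.Agent.Lib.MP_cd509c_nt.JD
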