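import Pool.Agent.Lib.MP_cd509c_nt.JD.StmK

set_option autoImplicit false

/-!
# Piece LLf: the L-function far to the right
-/

namespace Pool.Agent.Lib.MP_cd509c_nt.JD

open Complex ComplexConjugate MeasureTheory
open Pool.Agent.Lib.MP_cd509c_nt.DN

/-- the L-function far to the right, quantitative form -/
theorem LLf_Lf (δ : ℝ) (hδ : 0 < δ) : ∃ A : ℝ, 0 ≤ A ∧
    (∀ s : ℂ, A ≤ s.re → ‖Lf s - 1‖ ≤ δ) ∧
    (∀ s t : ℂ, A ≤ s.re → A ≤ t.re → ‖Lf t - Lf s‖ ≤ δ * ‖t - s‖) := by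
  obtain ⟨C, hC, hLf⟩ := Lf_sub_one
  have hCδ : 0 < 2 * C / δ := by positivity
  have h1 : ∀ s : ℂ, 2 * C / δ + 8 ≤ s.re → ‖Lf s - 1‖ ≤ δ := by
    intro s hs
    have hs0 : 0 < s.re := by linarith
    refine (hLf s (by linarith)).trans ?_
    have h1 : (2 : ℝ) ^ (-s.re) ≤ (s.re / 2)⁻¹ := by
      rw [Real.rpow_neg (by norm_num)]
      apply inv_anti₀ (by positivity)
      rw [Real.rpow_def_of_pos (by norm_num)]
      have h3 := Real.add_one_le_exp (Real.log 2 * s.re)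
      have h4 := Real.log_two_gt_d9
      nlinarith
    have h2 : 2 * C / δ ≤ s.re := by linarith
    rw [div_le_iff₀ hδ] at h2
    calc C * (2 : ℝ) ^ (-s.re) ≤ C * (s.re / 2)⁻¹ := mul_le_mul_of_nonneg_left h1 hC.le
      _ = (2 * C) / s.re := by field_simp
      _ ≤ δ := by
        rw [div_le_iff₀ hs0]; linarith
  have h2 : ∀ s : ℂ, 2 * C / δ + 9 ≤ s.re → ‖deriv Lf s‖ ≤ δ := by
    intro s hs
    have h3 : deriv (fun z => Lf z - 1) s = deriv Lf s := by rw [deriv_sub_const]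
    rw [← h3]
    have h4 := Complex.norm_deriv_le_of_forall_mem_sphere_norm_le (c := s) (R := 1) (C := δ)
      (f := fun z => Lf z - 1) one_pos
      ((Lf_differentiable.sub_const 1).diffContOnCl) (by
        intro z hz
        apply h1
        have h5 : ‖z - s‖ = 1 := by simpa using hz
        have h6 := Complex.abs_re_le_norm (z - s)
        rw [Complex.sub_re, h5] at h6
        linarith [(abs_le.1 h6).1])
    simpa using h4
  refine ⟨2 * C / δ + 9, by linarith, fun s hs => h1 s (by linarith), fun s t hs ht => ?_⟩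
  exact (convex_halfSpace_re_ge (2 * C / δ + 9)).norm_image_sub_le_of_norm_deriv_le
    (fun z _ => Lf_differentiable z) (fun z hz => h2 z hz) hs ht

theorem p_LLf : S_LLf := by
  intro ε hε
  obtain ⟨δ, hδ⟩ : ∃ δ : ℝ, δ = min (1 / 4) (ε / 2) := ⟨_, rfl⟩
  have hδ0 : 0 < δ := by
    rw [hδ]
    exact lt_min (by norm_num) (by linarith)
  have hδ1 : δ ≤ 1 / 4 := by
    rw [hδ]
    exact min_le_left _ _
  have hδ2 : δ ≤ ε / 2 := by
    rw [hδ]
    exact min_le_right _ _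
  obtain ⟨A, hA, h1, h2⟩ := LLf_Lf δ hδ0
  refine ⟨A + 1, by linarith, fun w v hw hv => ?_⟩
  have hw6 : A ≤ (6 + w).re := by
    rw [Complex.add_re]
    have : (6 : ℂ).re = 6 := by simp
    rw [this]
    linarith
  have hv6 : A ≤ (6 + v).re := by
    rw [Complex.add_re]
    have : (6 : ℂ).re = 6 := by simp
    rw [this]
    linarith
  have h3 : ‖LL w - 1‖ ≤ δ := h1 _ hw6
  have h4 : ‖LL v - LL w‖ ≤ δ * ‖v - w‖ := by
    have h5 := h2 _ _ hw6 hv6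
    have h6 : (6 + v) - (6 + w) = v - w := by ring
    rw [h6] at h5
    exact h5
  have h5 : 1 / 2 ≤ ‖LL w‖ := by
    have h6 : (1 : ℂ) = LL w - (LL w - 1) := by ring
    have h7 : (1 : ℝ) ≤ ‖LL w‖ + ‖LL w - 1‖ := by
      calc (1 : ℝ) = ‖(1 : ℂ)‖ := by rw [norm_one]
        _ = ‖LL w - (LL w - 1)‖ := by rw [← h6]
        _ ≤ ‖LL w‖ + ‖LL w - 1‖ := norm_sub_le _ _
    linarith
  have h6 : ‖LL w‖ ≤ 2 := by
    have h7 : LL w = 1 + (LL w - 1) := by ring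
    calc ‖LL w‖ = ‖1 + (LL w - 1)‖ := by rw [← h7]
      _ ≤ ‖(1 : ℂ)‖ + ‖LL w - 1‖ := norm_add_le _ _
      _ ≤ 2 := by rw [norm_one]; linarith
  refine ⟨h5, h6, ?_⟩
  have h7 : ‖LL v‖ ≤ ‖LL w‖ + δ * ‖v - w‖ := by
    have h8 : LL v = LL w + (LL v - LL w) := by ring
    calc ‖LL v‖ = ‖LL w + (LL v - LL w)‖ := by rw [← h8]
      _ ≤ ‖LL w‖ + ‖LL v - LL w‖ := norm_add_le _ _
      _ ≤ _ := by linarith
  have h9 : δ * ‖v - w‖ ≤ ε * ‖v - w‖ * ‖LL w‖ := by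
    have h10 : δ * ‖v - w‖ ≤ ε / 2 * ‖v - w‖ :=
      mul_le_mul_of_nonneg_right hδ2 (norm_nonneg _)
    have h11 : ε * ‖v - w‖ * (1 / 2) ≤ ε * ‖v - w‖ * ‖LL w‖ :=
      mul_le_mul_of_nonneg_left h5 (by positivity)
    linarith
  have h12 := Real.add_one_le_exp (ε * ‖v - w‖)
  calc ‖LL v‖ ≤ ‖LL w‖ + ε * ‖v - w‖ * ‖LL w‖ := h7.trans (by linarith)
    _ = (ε * ‖v - w‖ + 1) * ‖LL w‖ := by ring
    _ ≤ Real.exp (ε * ‖v - w‖) * ‖LL w‖ := mul_le_mul_of_nonneg_right h12 (norm_nonneg _)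

end Pool.Agent.Lib.MP_cd509c_nt.JD
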