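import Pool.Agent.Lib.MP_cd509c_nt.JD.StmK

/-!
# JD, piece LLw (helper48)
-/

set_option autoImplicit false

namespace Pool.Agent.Lib.MP_cd509c_nt.JD

open Complex ComplexConjugate MeasureTheory
open Pool.Agent.Lib.MP_cd509c_nt.DN

/-- the distance decreases when the real part moves towards the other point -/
theorem LLw_dist (w v : ℂ) (t : ℝ) (h : |v.re - t| ≤ |v.re - w.re|) :
    ‖v - (⟨t, w.im⟩ : ℂ)‖ ≤ ‖v - w‖ := by
  rw [Complex.norm_eq_sqrt_sq_add_sq, Complex.norm_eq_sqrt_sq_add_sq]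
  apply Real.sqrt_le_sqrt
  have := sq_le_sq.mpr h
  simp only [Complex.sub_re, Complex.sub_im]
  linarith

theorem LLw_four (ε l V d : ℝ) (hl : 1 ≤ ε * l) (hV : 1 ≤ V) (hd : 50 * V ≤ d) :
    4 ≤ Real.exp (100 * ε * l * d) := by
  have h1 : 3 ≤ 100 * ε * l * d := by
    have : (1 : ℝ) * 50 ≤ (ε * l) * d := by
      apply mul_le_mul hl (by linarith) (by norm_num) (by linarith)
    nlinarith
  have := Real.add_one_le_exp (100 * ε * l * d)
  linarith

theorem LLw_dist_ge (w v : ℂ) (c : ℝ) (h : c ≤ |v.re - w.re|) : c ≤ ‖v - w‖ := by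
  have := Complex.abs_re_le_norm (v - w)
  simp only [Complex.sub_re] at this
  linarith

/-- PIECE `LLw`. -/
theorem p_LLw (h1 : S_reg2w) (h2 : S_LLf) : S_LLw := by
  obtain ⟨V₀, hV₀, hf⟩ := h2 1 one_pos
  refine ⟨V₀, hV₀, ?_⟩
  intro ε V hε hV
  refine ⟨max 1 (1 / ε), le_max_left _ _, ?_⟩
  intro l a x i J hl ha hiJ hJ1 hJ2 hg w v hw1 hw2 hw3 hv1 hv2 hv3
  have hV1 : 1 ≤ V := hV₀.trans hV
  have hl1 : 1 ≤ l := (le_max_left _ _).trans hl
  have hl0 : 0 < l := by linarith
  have hel : 1 ≤ ε * l := by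
    have : 1 / ε ≤ l := (le_max_right _ _).trans hl
    rw [div_le_iff₀ hε] at this
    linarith [mul_comm l ε]
  have hel0 : 0 < ε * l := by linarith
  have hn : 0 ≤ ‖v - w‖ := norm_nonneg _
  have hmono : Real.exp (100 * ε * l * ‖v - w‖) ≤ Real.exp (200 * ε * l * ‖v - w‖) := by
    apply Real.exp_le_exp.mpr
    have : 0 ≤ ε * l * ‖v - w‖ := by positivity
    nlinarith
  have hmono1 : Real.exp (1 * ‖v - w‖) ≤ Real.exp (200 * ε * l * ‖v - w‖) := by
    apply Real.exp_le_exp.mpr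
    have : 1 * ‖v - w‖ ≤ ε * l * ‖v - w‖ := mul_le_mul_of_nonneg_right hel hn
    have h0 : 0 ≤ ε * l * ‖v - w‖ := by positivity
    nlinarith
  have hsplit : Real.exp (200 * ε * l * ‖v - w‖) =
      Real.exp (100 * ε * l * ‖v - w‖) * Real.exp (100 * ε * l * ‖v - w‖) := by
    rw [← Real.exp_add]; congr 1; ring
  have hiJ2 : (2 : ℝ) ^ i * a ≤ 2 ^ J * a := by
    apply mul_le_mul_of_nonneg_right _ ha.le
    exact pow_le_pow_right₀ (by norm_num) hiJ
  have hia : 0 < (2 : ℝ) ^ i * a := by positivity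
  have hreg := h1 ε a l x i J hε ha hl0 hiJ hg
  by_cases hwH : w.re ≤ 200 * (2 ^ J * a)
  · by_cases hvH : v.re ≤ 200 * (2 ^ J * a)
    · obtain ⟨hne, hb⟩ := hreg w v hw1 hwH hw3 hv1 hvH hv3
      exact ⟨hne, hb.trans (mul_le_mul_of_nonneg_right hmono (norm_nonneg _))⟩
    · push Not at hvH
      by_cases hw100 : 100 * V ≤ w.re
      · obtain ⟨hw12, hw2', hb⟩ := hf w v (by linarith) (by linarith)
        refine ⟨?_, hb.trans (mul_le_mul_of_nonneg_right hmono1 (norm_nonneg _))⟩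
        intro h0
        rw [h0, norm_zero] at hw12
        norm_num at hw12
      · push Not at hw100
        have hd : ‖(⟨150 * V, v.im⟩ : ℂ) - w‖ ≤ ‖v - w‖ := by
          have := LLw_dist v w (150 * V) (by
            rw [abs_sub_comm w.re (150 * V), abs_sub_comm w.re v.re, abs_of_nonneg (by linarith),
              abs_of_nonneg (by linarith)]
            linarith)
          rwa [norm_sub_rev, norm_sub_rev w v] at this
        obtain ⟨hne, hb⟩ := hreg w (⟨150 * V, v.im⟩ : ℂ) hw1 hwH hw3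
          (by show 0 ≤ 150 * V; linarith) (by show 150 * V ≤ _; linarith) hv3
        refine ⟨hne, ?_⟩
        obtain ⟨hv₁, -, -⟩ := hf (⟨150 * V, v.im⟩ : ℂ) v (by show V₀ ≤ 150 * V; linarith)
          (by linarith)
        obtain ⟨-, hv2', -⟩ := hf v v (by linarith) (by linarith)
        have h4 := LLw_four ε l V ‖v - w‖ hel hV1 (LLw_dist_ge w v _ (by
          rw [abs_of_nonneg (by linarith)]; linarith))
        have hb2 : ‖LL (⟨150 * V, v.im⟩ : ℂ)‖ ≤ Real.exp (100 * ε * l * ‖v - w‖) * ‖LL w‖ := by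
          refine hb.trans (mul_le_mul_of_nonneg_right (Real.exp_le_exp.mpr ?_) (norm_nonneg _))
          exact mul_le_mul_of_nonneg_left hd (by positivity)
        calc ‖LL v‖ ≤ 4 * ‖LL (⟨150 * V, v.im⟩ : ℂ)‖ := by linarith
          _ ≤ Real.exp (100 * ε * l * ‖v - w‖) * (Real.exp (100 * ε * l * ‖v - w‖) * ‖LL w‖) := by
              apply mul_le_mul h4 hb2 (norm_nonneg _) (Real.exp_pos _).le
          _ = _ := by rw [hsplit]; ring
  · push Not at hwH
    obtain ⟨hw12, hw2', -⟩ := hf w w (by linarith) (by linarith)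
    have hne : LL w ≠ 0 := by
      intro h0
      rw [h0, norm_zero] at hw12
      norm_num at hw12
    refine ⟨hne, ?_⟩
    by_cases hv100 : 100 * V ≤ v.re
    · obtain ⟨-, -, hb⟩ := hf w v (by linarith) (by linarith)
      exact hb.trans (mul_le_mul_of_nonneg_right hmono1 (norm_nonneg _))
    · push Not at hv100
      have hd : ‖v - (⟨150 * V, w.im⟩ : ℂ)‖ ≤ ‖v - w‖ := by
        apply LLw_dist
        rw [abs_sub_comm, abs_sub_comm v.re w.re, abs_of_nonneg (by linarith),
          abs_of_nonneg (by linarith)]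
        linarith
      obtain ⟨-, hb⟩ := hreg (⟨150 * V, w.im⟩ : ℂ) v
        (by show 2 ^ i * a / 6 ≤ 150 * V; linarith) (by show 150 * V ≤ _; linarith) hw3 hv1
        (by linarith) hv3
      obtain ⟨-, hw₁, -⟩ := hf (⟨150 * V, w.im⟩ : ℂ) w (by show V₀ ≤ 150 * V; linarith)
        (by linarith)
      have h4 := LLw_four ε l V ‖v - w‖ hel hV1 (LLw_dist_ge w v _ (by
        rw [abs_sub_comm, abs_of_nonneg (by linarith)]; linarith))
      have hE : Real.exp (100 * ε * l * ‖v - (⟨150 * V, w.im⟩ : ℂ)‖) ≤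
          Real.exp (100 * ε * l * ‖v - w‖) :=
        Real.exp_le_exp.mpr (mul_le_mul_of_nonneg_left hd (by positivity))
      calc ‖LL v‖ ≤ Real.exp (100 * ε * l * ‖v - w‖) * (4 * ‖LL w‖) := by
            refine hb.trans ?_
            apply mul_le_mul hE (by linarith) (norm_nonneg _) (Real.exp_pos _).le
        _ ≤ Real.exp (100 * ε * l * ‖v - w‖) * (Real.exp (100 * ε * l * ‖v - w‖) * ‖LL w‖) := by
            apply mul_le_mul_of_nonneg_left _ (Real.exp_pos _).le
            exact mul_le_mul_of_nonneg_right h4 (norm_nonneg _)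
        _ = _ := by rw [hsplit]; ring

end Pool.Agent.Lib.MP_cd509c_nt.JD
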