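import Pool.Agent.Lib.MP_cd509c_nt.JD.StmK

set_option autoImplicit false

/-!
Project JD, piece NI: near the axis, region I (helper22).
-/

namespace Pool.Agent.Lib.MP_cd509c_nt.JD

open Complex ComplexConjugate MeasureTheory
open Pool.Agent.Lib.MP_cd509c_nt.DN

theorem NI_aff (f : ℂ → ℂ) (a s : ℂ) (n : ℕ) :
    iteratedDeriv n (fun t : ℂ => f (a + s * t)) =
      fun t => s ^ n * iteratedDeriv n f (a + s * t) := by
  induction n with
  | zero => funext t; simp
  | succ n ih =>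
    rw [iteratedDeriv_succ, ih]
    funext t
    rw [deriv_const_mul_field]
    have h1 : deriv (fun t : ℂ => iteratedDeriv n f (a + s * t)) t =
        s * deriv (iteratedDeriv n f) (a + s * t) := by
      have h2 := deriv_comp_mul_left s (fun u => iteratedDeriv n f (a + u)) t
      rw [smul_eq_mul, deriv_comp_const_add] at h2
      exact h2
    rw [h1, iteratedDeriv_succ]
    ring

theorem NI_om (x a : ℝ) (w : ℂ) : om x a w = (x : ℂ) ^ 2 + (-(2 * I * a * x)) * w := by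
  unfold om
  ring

theorem NI_om_conj (x a : ℝ) (w : ℂ) : conj (om x a w) = om x a (-conj w) := by
  unfold om
  simp only [map_sub, map_mul, map_pow, Complex.conj_ofReal, Complex.conj_I, map_ofNat]
  ring

theorem NI_conj (D : ℕ) (g : ℂ → ℂ) (hreal : ∀ w, g (conj w) = conj (g w)) (ω : ℂ) :
    Hd D g (conj ω) = conj (Hd D g ω) := by
  unfold Hd
  rw [map_sum]
  apply Finset.sum_congr rfl
  intro k _
  have h := iteratedDeriv_conj' hreal k 0
  rw [map_zero] at h
  rw [map_mul, map_mul, map_pow, map_div₀, ← h]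
  simp

theorem NI_la (D n : ℕ) (x a : ℝ) (g : ℂ → ℂ) :
    la n (fun w => Hd D g (om x a w) * cexp (-((n : ℝ) * w))) =
      fun w => Hd D g ((x : ℂ) ^ 2 + (-(2 * I * a * x)) * w) := by
  funext w
  unfold la
  dsimp only
  rw [NI_om]
  have h : cexp (((n : ℝ) : ℂ) * w) * cexp (-(((n : ℝ) : ℂ) * w)) = 1 := by
    rw [← Complex.exp_add]; simp
  calc cexp (((n : ℝ) : ℂ) * w) * (Hd D g ((x : ℂ) ^ 2 + (-(2 * I * a * x)) * w) *
        cexp (-(((n : ℝ) : ℂ) * w)))
      = (cexp (((n : ℝ) : ℂ) * w) * cexp (-(((n : ℝ) : ℂ) * w))) *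
        Hd D g ((x : ℂ) ^ 2 + (-(2 * I * a * x)) * w) := by ring
    _ = _ := by rw [h, one_mul]

theorem p_NI (h1 : S_RT) (h2 : S_PD) (h3 : S_ZD) (h4 : S_PDs) : S_NI := by
  intro C₁ B hC₁ hB
  obtain ⟨C, Y₀, ε₀, hC, hY₀, hε₀, h1⟩ := h1 C₁ B hC₁ hB
  obtain ⟨e1, M1, he1, hM1, h2⟩ := h2
  obtain ⟨e2, M2, C2, he2, hM2, hC2, h3⟩ := h3
  obtain ⟨e3, M3, he3, hM3, h4⟩ := h4
  have hC0 : 0 < C := by linarith
  refine ⟨max C2 1, Y₀, min ε₀ (min (e1 / C) (min (e2 / C) (e3 / C))), le_max_right _ _, hY₀,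
    lt_min hε₀ (lt_min (div_pos he1 hC0) (lt_min (div_pos he2 hC0) (div_pos he3 hC0))), ?_⟩
  intro ε hε hεle
  have hε1 : ε ≤ ε₀ := hεle.trans (min_le_left _ _)
  have hε2 : C * ε ≤ e1 := by
    have := hεle.trans ((min_le_right _ _).trans (min_le_left _ _))
    rw [le_div_iff₀ hC0] at this
    linarith
  have hε3 : C * ε ≤ e2 := by
    have := hεle.trans ((min_le_right _ _).trans ((min_le_right _ _).trans (min_le_left _ _)))
    rw [le_div_iff₀ hC0] at this
    linarith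
  have hε4 : C * ε ≤ e3 := by
    have := hεle.trans ((min_le_right _ _).trans ((min_le_right _ _).trans (min_le_right _ _)))
    rw [le_div_iff₀ hC0] at this
    linarith
  obtain ⟨N₀, hN₀, h1⟩ := h1 ε hε hε1
  refine ⟨max N₀ (max M1 (max M2 M3)), hN₀.trans (le_max_left _ _), ?_⟩
  intro D n b Y x a g hn hb hbY hY hapos hxpos hax hnD hreg
  have hn0 : N₀ ≤ n := (le_max_left _ _).trans hn
  have hn1 : M1 ≤ n := ((le_max_left _ _).trans (le_max_right _ _)).trans hn
  have hn2 : M2 ≤ n :=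
    ((le_max_left _ _).trans ((le_max_right _ _).trans (le_max_right _ _))).trans hn
  have hn3 : M3 ≤ n :=
    ((le_max_right _ _).trans ((le_max_right _ _).trans (le_max_right _ _))).trans hn
  have hR := h1 D n b Y x a g hn0 hb hbY hY hapos hxpos hax hnD hreg
  have hCε : 0 < C * ε := mul_pos hC0 hε
  have hla := NI_la D n x a g
  have hsym : Sym (la n (fun w => Hd D g (om x a w) * cexp (-((n : ℝ) * w)))) := by
    refine ⟨1, by simp, ?_⟩
    intro z
    rw [hla]
    simp only [one_mul]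
    rw [← NI_conj D g hreg.real, ← NI_om, ← NI_om, NI_om_conj]
  have hit : ∀ w : ℂ, iteratedDeriv n (la n (fun w => Hd D g (om x a w) *
      cexp (-((n : ℝ) * w)))) w = (-(2 * I * a * x)) ^ n * iteratedDeriv n (Hd D g) (om x a w) := by
    intro w
    rw [hla, NI_aff, NI_om]
  have hs0 : (-(2 * I * a * x) : ℂ) ≠ 0 := by
    have ha' : (a : ℂ) ≠ 0 := by exact_mod_cast hapos.ne'
    have hx' : (x : ℂ) ≠ 0 := by exact_mod_cast hxpos.ne'
    simp [ha', hx', Complex.I_ne_zero]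
  have h40 : 40 * b ≤ Y / 4 := by linarith
  have hPD := h2 n (C * ε) b (Y / 4) _ hCε hε2 hn1 hb h40 hR hsym
  have hZD := h3 n (C * ε) b (Y / 4) _ hCε hε3 hn2 hb h40 hR hsym
  refine ⟨?_, ?_, ?_, ?_, ?_⟩
  · intro hb1 y hy hyY h0
    refine hPD.1 hb1 y hy (by subst hb1; linarith) ?_
    rw [hit, h0, mul_zero]
  · intro hb1 h0 h0'
    subst hb1
    have hx0 : om x a 0 = (x : ℂ) ^ 2 := by simp [om]
    refine h4 n (C * ε) (Y / 4) _ hCε hε4 hn3 (by linarith) hR hsym ?_ ?_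
    · rw [hit, hx0, h0, mul_zero]
    · rw [← iteratedDeriv_succ, hla, NI_aff, iteratedDeriv_succ]
      simp only [mul_zero, add_zero]
      rw [h0', mul_zero]
  · intro hb2 y hy hyY h0
    refine hPD.2 hb2 y hy (by linarith) ?_
    rw [hit, h0, mul_zero]
  · intro h0
    refine hZD.1 ?_
    rw [hit, h0, mul_zero]
  · intro w hw
    have h5 := hZD.2 w hw
    rw [hit, hit, norm_mul, norm_mul] at h5
    have hp : 0 < ‖(-(2 * I * a * x) : ℂ) ^ n‖ := norm_pos_iff.mpr (pow_ne_zero _ hs0)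
    have h6 : ‖iteratedDeriv n (Hd D g) (om x a w)‖ ≤ Real.exp (C2 * n * b) *
        ‖iteratedDeriv n (Hd D g) (om x a ((2 * b : ℝ) : ℂ))‖ := by
      have h7 : ‖(-(2 * I * a * x) : ℂ) ^ n‖ * ‖iteratedDeriv n (Hd D g) (om x a w)‖ ≤
          ‖(-(2 * I * a * x) : ℂ) ^ n‖ * (Real.exp (C2 * n * b) *
            ‖iteratedDeriv n (Hd D g) (om x a ((2 * b : ℝ) : ℂ))‖) := by
        calc _ ≤ _ := h5
          _ = _ := by ring
      exact le_of_mul_le_mul_left h7 hp
    refine h6.trans ?_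
    gcongr
    exact le_max_left _ _

end Pool.Agent.Lib.MP_cd509c_nt.JD
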