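import Pool.Agent.Lib.MP_cd509c_nt.JD.Defs

set_option autoImplicit false

/-!
Project JD, piece NII: near the axis, region II (helper40).
-/

namespace Pool.Agent.Lib.MP_cd509c_nt.JD

open Complex ComplexConjugate MeasureTheory
open Pool.Agent.Lib.MP_cd509c_nt.DN

theorem jd_NII_aff (f : ℂ → ℂ) (a s : ℂ) (n : ℕ) :
    iteratedDeriv n (fun t : ℂ => f (a + s * t)) =
      fun t => s ^ n * iteratedDeriv n f (a + s * t) := by
  induction n with
  | zero => funext t; simp
  | succ n ih =>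
    rw [iteratedDeriv_succ, ih]
    funext t
    rw [deriv_const_mul_field]
    have h1 : deriv (fun t : ℂ => iteratedDeriv n f (a + s * t)) t =
        s * deriv (iteratedDeriv n f) (a + s * t) := by
      have h2 := deriv_comp_mul_left s (fun u => iteratedDeriv n f (a + u)) t
      rw [smul_eq_mul, deriv_comp_const_add] at h2
      exact h2
    rw [h1, iteratedDeriv_succ]
    ring

theorem jd_NII_neg_conj (h : ℂ → ℂ) (n : ℕ) :
    iteratedDeriv n (fun w : ℂ => conj (h (-conj w))) =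
      fun w => (-1) ^ n * conj (iteratedDeriv n h (-conj w)) := by
  induction n with
  | zero => funext w; simp
  | succ n ih =>
    rw [iteratedDeriv_succ, ih]
    funext w
    rw [deriv_const_mul_field]
    have h1 := congrFun (deriv_conj_conj (f := fun v => iteratedDeriv n h (-v))) w
    have h2 : (conj ∘ (fun v => iteratedDeriv n h (-v)) ∘ conj : ℂ → ℂ) =
        fun w => conj (iteratedDeriv n h (-conj w)) := rfl
    rw [h2] at h1
    rw [h1]
    simp only [Function.comp]
    rw [deriv_comp_neg, iteratedDeriv_succ, map_neg]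
    ring

/-- the derivatives of a log-linear function at the centre of a disc -/
theorem jd_NII_pt {η₀ N₀ C : ℝ} (hDB : ∀ (N η c : ℝ) (n : ℕ) (B : ℂ → ℂ), N₀ ≤ N → 0 ≤ η →
    η ≤ η₀ → (n : ℝ) ≤ η₀ * N → DifferentiableOn ℂ B (Metric.ball 0 1) →
    (∀ w ∈ Metric.ball (0 : ℂ) 1, B w ≠ 0 ∧ |Real.log ‖B w‖ - c - N * w.re| ≤ η * N) →
    ∀ w ∈ Metric.ball (0 : ℂ) (1 / 2), iteratedDeriv n B w ≠ 0 ∧
      |Real.log ‖iteratedDeriv n B w‖ - (c + n * Real.log N) - N * w.re| ≤ 2 * η * N + C)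
    {F : ℂ → ℂ} {w0 : ℂ} {ρ N e c : ℝ} {n : ℕ} (hρ : 0 < ρ) (hN : 0 < N) (he : 0 ≤ e)
    (h1 : N₀ ≤ N * ρ) (h2 : e ≤ η₀ * (N * ρ)) (h3 : (n : ℝ) ≤ η₀ * (N * ρ))
    (hd : DifferentiableOn ℂ F (Metric.ball w0 ρ))
    (hF : ∀ w ∈ Metric.ball w0 ρ, F w ≠ 0 ∧ |Real.log ‖F w‖ - c - N * w.re| ≤ e) :
    iteratedDeriv n F w0 ≠ 0 ∧
      |Real.log ‖iteratedDeriv n F w0‖ - c - n * Real.log N - N * w0.re| ≤ 2 * e + C := by
  have hNρ : 0 < N * ρ := mul_pos hN hρ
  have hmem : ∀ t ∈ Metric.ball (0 : ℂ) 1, w0 + ρ * t ∈ Metric.ball w0 ρ := by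
    intro t ht
    rw [mem_ball_zero_iff] at ht
    rw [mem_ball_iff_norm, add_sub_cancel_left, norm_mul, Complex.norm_real,
      Real.norm_of_nonneg hρ.le]
    nlinarith
  obtain ⟨a1, a2⟩ := hDB (N * ρ) (e / (N * ρ)) (c + N * w0.re) n (fun t => F (w0 + ρ * t)) h1
    (by positivity) (by rw [div_le_iff₀ hNρ]; exact h2) h3 (by
      refine hd.comp (s := Metric.ball (0 : ℂ) 1) ?_ hmem
      fun_prop) (by
      intro t ht
      obtain ⟨b1, b2⟩ := hF _ (hmem t ht)
      refine ⟨b1, ?_⟩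
      rw [div_mul_cancel₀ _ hNρ.ne']
      have h4 : (w0 + (ρ : ℂ) * t).re = w0.re + ρ * t.re := by simp
      rw [h4] at b2
      have h5 : Real.log ‖F (w0 + ρ * t)‖ - (c + N * w0.re) - N * ρ * t.re =
          Real.log ‖F (w0 + ρ * t)‖ - c - N * (w0.re + ρ * t.re) := by ring
      rw [h5]
      exact b2) 0 (by simp)
  rw [jd_NII_aff F w0 ρ n] at a1 a2
  simp only [mul_zero, add_zero, Complex.zero_re, sub_zero] at a1 a2
  have hne : iteratedDeriv n F w0 ≠ 0 := right_ne_zero_of_mul a1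
  refine ⟨hne, ?_⟩
  have h6 : Real.log ‖(ρ : ℂ) ^ n * iteratedDeriv n F w0‖ =
      n * Real.log ρ + Real.log ‖iteratedDeriv n F w0‖ := by
    rw [norm_mul, norm_pow, Complex.norm_real, Real.norm_of_nonneg hρ.le,
      Real.log_mul (pow_ne_zero _ hρ.ne') (norm_ne_zero_iff.2 hne), Real.log_pow]
  have h7 : Real.log (N * ρ) = Real.log N + Real.log ρ := Real.log_mul hN.ne' hρ.ne'
  rw [h6, h7] at a2
  have h8 : 2 * (e / (N * ρ)) * (N * ρ) = 2 * e := by
    field_simp
  rw [h8] at a2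
  have h9 : (n : ℝ) * Real.log ρ + Real.log ‖iteratedDeriv n F w0‖ -
      (c + N * w0.re + n * (Real.log N + Real.log ρ)) =
      Real.log ‖iteratedDeriv n F w0‖ - c - n * Real.log N - N * w0.re := by ring
  rw [h9] at a2
  exact a2

/-- the two halves at the axis -/
theorem jd_NII_axis (hHB : S_HB) (hHB4 : S_HB4) {F B : ℂ → ℂ} {N η c : ℝ} {n : ℕ}
    (hF : Differentiable ℂ F) (hB : DifferentiableOn ℂ B (Metric.ball 0 (5 / 8)))
    (hFB : ∀ w ∈ Metric.ball (0 : ℂ) (5 / 8), F w = B w + conj (B (-conj w))) (hN : 0 < N)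
    (hη : 0 ≤ η) (hη' : η < 9 / 16 / 32)
    (hlog : ∀ w ∈ Metric.ball (0 : ℂ) (9 / 16), iteratedDeriv n B w ≠ 0 ∧
      |Real.log ‖iteratedDeriv n B w‖ - c - N * w.re| ≤ η * N) :
    (∀ y : ℝ, 0 < y → y ≤ 9 / 32 → iteratedDeriv n F y ≠ 0) ∧
      (iteratedDeriv n F 0 = 0 → iteratedDeriv (n + 1) F 0 ≠ 0) := by
  have han : AnalyticOnNhd ℂ B (Metric.ball 0 (5 / 8)) := hB.analyticOnNhd Metric.isOpen_ball
  have hank : ∀ k, AnalyticOnNhd ℂ (iteratedDeriv k B) (Metric.ball 0 (5 / 8)) := by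
    intro k
    induction k with
    | zero =>
      rw [iteratedDeriv_zero]
      exact han
    | succ k ih =>
      rw [iteratedDeriv_succ]
      exact ih.deriv
  have hsub : Metric.ball (0 : ℂ) (9 / 16) ⊆ Metric.ball 0 (5 / 8) :=
    Metric.ball_subset_ball (by norm_num)
  have hBn : DifferentiableOn ℂ (iteratedDeriv n B) (Metric.ball 0 (9 / 16)) :=
    (hank n).differentiableOn.mono hsub
  -- the derivatives of `F`
  have hFn : ∀ (k : ℕ) (w : ℂ), w ∈ Metric.ball (0 : ℂ) (5 / 8) → iteratedDeriv k F w =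
      iteratedDeriv k B w + (-1) ^ k * conj (iteratedDeriv k B (-conj w)) := by
    intro k w hw
    have hcF : ContDiffAt ℂ k F w := (hF.contDiff).contDiffAt
    have hcB : ContDiffAt ℂ k B w := (han w hw).contDiffAt
    have hev : (fun w : ℂ => conj (B (-conj w))) =ᶠ[nhds w] (F - B) := by
      filter_upwards [Metric.isOpen_ball.mem_nhds hw] with v hv
      rw [Pi.sub_apply, hFB v hv]
      ring
    have h1 := hev.iteratedDeriv_eq k
    rw [jd_NII_neg_conj, iteratedDeriv_sub hcF hcB] at h1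
    simp only at h1
    rw [h1]
    ring
  constructor
  · intro y hy hy'
    have hmem : (y : ℂ) ∈ Metric.ball (0 : ℂ) (5 / 8) := by
      rw [mem_ball_zero_iff, Complex.norm_real, Real.norm_of_nonneg hy.le]
      linarith
    rw [hFn n y hmem, Complex.conj_ofReal]
    have h2 := hHB (9 / 16) η N c (iteratedDeriv n B) (by norm_num) hN hη hη' hBn hlog y hy
      (by linarith)
    intro h3
    have h4 : iteratedDeriv n B y = -((-1) ^ n * conj (iteratedDeriv n B (-(y : ℂ)))) :=
      eq_neg_of_add_eq_zero_left h3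
    rw [h4, norm_neg, norm_mul, norm_pow, norm_neg, norm_one, one_pow, one_mul,
      Complex.norm_conj] at h2
    exact lt_irrefl _ h2
  · intro h0 h1
    have hmem : (0 : ℂ) ∈ Metric.ball (0 : ℂ) (5 / 8) := by simp
    have h2 := hHB4 (9 / 16) η N c (iteratedDeriv n B) (by norm_num) hN hη hη' hBn hlog
    rw [hFn n 0 hmem] at h0
    rw [hFn (n + 1) 0 hmem, iteratedDeriv_succ] at h1
    simp only [map_zero, neg_zero] at h0 h1
    obtain ⟨p, hp⟩ : ∃ p, p = iteratedDeriv n B 0 := ⟨_, rfl⟩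
    obtain ⟨q, hq⟩ : ∃ q, q = deriv (iteratedDeriv n B) 0 := ⟨_, rfl⟩
    rw [← hp] at h0
    rw [← hq] at h1
    rw [← hp, ← hq] at h2
    have hs : ((-1 : ℂ)) ^ n * (-1) ^ n = 1 := by
      rw [← mul_pow]
      norm_num
    have e0 : p = -((-1) ^ n * conj p) := eq_neg_of_add_eq_zero_left h0
    have e1 : q = (-1) ^ n * conj q := by
      have h5 : q = -((-1) ^ (n + 1) * conj q) := eq_neg_of_add_eq_zero_left h1
      refine h5.trans ?_
      rw [pow_succ]
      ring
    have e2 : conj p = -((-1) ^ n * p) := by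
      have h5 : (-1 : ℂ) ^ n * p = -conj p := by
        calc (-1 : ℂ) ^ n * p = (-1) ^ n * (-((-1) ^ n * conj p)) := by rw [← e0]
          _ = -(((-1) ^ n * (-1) ^ n) * conj p) := by ring
          _ = -conj p := by rw [hs, one_mul]
      rw [h5, neg_neg]
    have e3 : conj q = (-1) ^ n * q := by
      calc conj q = ((-1) ^ n * (-1) ^ n) * conj q := by rw [hs, one_mul]
        _ = (-1) ^ n * ((-1) ^ n * conj q) := by ring
        _ = (-1) ^ n * q := by rw [← e1]
    have hc : conj (q / p) = -(q / p) := by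
      have hs0 : ((-1 : ℂ)) ^ n ≠ 0 := pow_ne_zero _ (by norm_num)
      rw [map_div₀, e2, e3, div_neg, mul_div_mul_left _ _ hs0]
    have h6 : (q / p).re = -(q / p).re := by
      have := congrArg Complex.re hc
      rwa [Complex.conj_re, Complex.neg_re] at this
    linarith

theorem jd_NII_om (x a : ℝ) (w : ℂ) : om x a w = (x : ℂ) ^ 2 + (-(2 * I * a * x)) * w := by
  unfold om
  ring

theorem jd_NII_om_conj (x a : ℝ) (w : ℂ) : conj (om x a w) = om x a (-conj w) := by
  unfold om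
  simp only [map_sub, map_mul, map_pow, Complex.conj_ofReal, Complex.conj_I, map_ofNat]
  ring

theorem jd_NII_om_ne {x a : ℝ} {w : ℂ} (hx : 0 < x) (ha : 0 < a) (h : 2 * a * ‖w‖ < x) :
    om x a w ≠ 0 := by
  intro h0
  unfold om at h0
  rw [sub_eq_zero] at h0
  have h1 := congrArg norm h0
  rw [norm_pow, norm_mul, norm_mul, norm_mul, norm_mul, Complex.norm_real, Complex.norm_real,
    Complex.norm_I, Real.norm_of_nonneg hx.le, Real.norm_of_nonneg ha.le] at h1
  norm_num at h1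
  have h2 : 2 * a * ‖w‖ * x < x * x := mul_lt_mul_of_pos_right h hx
  nlinarith

theorem jd_NII_logle {u v A : ℝ} (hu : 0 < u) (hv : 0 < v) (h : v ≤ Real.exp A * u) :
    Real.log v ≤ A + Real.log u := by
  have h1 := Real.log_le_log hv h
  rwa [Real.log_mul (Real.exp_ne_zero _) hu.ne', Real.log_exp] at h1

theorem p_NII (h1 : S_RT) (h2 : S_BJ) (h3 : S_repB) (h4 : S_DB) (h5 : S_HB) (h6 : S_HB4) :
    S_NII := by
  intro C₁ hC₁
  obtain ⟨CR, YR, εR, hCR, hYR, hεR, hRT⟩ := h1 C₁ 4 hC₁ (by norm_num)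
  obtain ⟨CB, YB, εB, hCB, hYB, hεB, hBJ⟩ := h2 C₁ hC₁
  obtain ⟨η₀, ND, CD, hη0, hη1, hND, hCD, hDB⟩ := h4
  have hCR0 : 0 < CR := by linarith
  have hCB0 : 0 < CB := by linarith
  refine ⟨30, max YR YB, min (min εR εB) (η₀ / (100 * CR * CB)), 64 / η₀, by norm_num,
    le_trans hYR (le_max_left _ _), lt_min (lt_min hεR hεB) (by positivity), ?_, ?_⟩
  · rw [le_div_iff₀ hη0]
    linarith
  intro ε hε hεle
  have e1 : ε ≤ εR := hεle.trans ((min_le_left _ _).trans (min_le_left _ _))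
  have e2 : ε ≤ εB := hεle.trans ((min_le_left _ _).trans (min_le_right _ _))
  have e3 : ε * (100 * CR * CB) ≤ η₀ := by
    have := hεle.trans (min_le_right _ _)
    rwa [le_div_iff₀ (by positivity)] at this
  have e4 : CR * ε ≤ η₀ / 100 := by
    have : CR * ε * 1 ≤ CR * ε * CB := mul_le_mul_of_nonneg_left hCB (by positivity)
    linarith
  have e5 : CB * ε ≤ η₀ / 100 := by
    have : CB * ε * 1 ≤ CB * ε * CR := mul_le_mul_of_nonneg_left hCR (by positivity)
    linarith
  have e6 : ε ≤ 1 := by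
    have : 1 * ε ≤ CR * ε := mul_le_mul_of_nonneg_right hCR hε.le
    linarith
  obtain ⟨NR, hNR, hRT'⟩ := hRT ε hε e1
  obtain ⟨NB, hNB, hBJ'⟩ := hBJ ε hε e2
  have hq : 0 < CD / (CB * ε) := by positivity
  refine ⟨NR + NB + 64 * ND + CD / (CB * ε) + 2 * CD, by linarith, ?_⟩
  intro D n N b Y x a g hN hBn hb hY hYε ha hx hax hDl hDu hreg
  have n1 : NR ≤ N := by linarith
  have n2 : NB ≤ N := by linarith
  have n3 : 64 * ND ≤ N := by linarith
  have n4 : CD ≤ CB * ε * N := by
    have : CD / (CB * ε) ≤ N := by linarith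
    rw [div_le_iff₀ (by positivity)] at this
    linarith
  have n5 : 2 * CD ≤ N := by linarith
  have n6 : 1 ≤ N := by linarith
  have hN0 : 0 < N := by linarith
  have hn : (n : ℝ) ≤ η₀ * N / 64 := by
    have h7 : 64 / η₀ * n * η₀ ≤ N * η₀ := mul_le_mul_of_nonneg_right hBn hη0.le
    have h8 : 64 / η₀ * n * η₀ = 64 * n := by field_simp
    rw [h8] at h7
    linarith
  have hn0 : (0 : ℝ) ≤ n := Nat.cast_nonneg n
  have hb0 : 0 < b := by linarith
  have hY0 : 160 ≤ Y := by linarith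
  have hNb : N ≤ N * b := by nlinarith
  have hax' : a * Y < x := by
    have h7 : 1000 * a * Y ^ 2 ≤ x := hax.trans (by nlinarith)
    have h8 : a * Y * 1 ≤ a * Y * Y := mul_le_mul_of_nonneg_left (by linarith) (by positivity)
    nlinarith [mul_pos ha (show (0 : ℝ) < Y by linarith)]
  have hD : 1 ≤ D := by
    rcases Nat.eq_zero_or_pos D with h | h
    · rw [h] at hDu
      have : 0 < N * x ^ 2 := by positivity
      norm_num at hDu
      linarith
    · exact h
  have hR := hRT' D N b Y x a g n1 hb hY ((le_max_left _ _).trans hYε) ha hx hax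
    (by linarith) hreg
  obtain ⟨hrep, hdH, hdB⟩ := h3 D g (x ^ 2) hD hreg.diff (by positivity) hreg.real
  obtain ⟨F, hFdef⟩ : ∃ F : ℂ → ℂ, F = fun w => Hd D g (om x a w) := ⟨_, rfl⟩
  obtain ⟨m, hm⟩ : ∃ m : ℂ, m = -(2 * I * a * x) := ⟨_, rfl⟩
  have hm0 : m ≠ 0 := by
    rw [hm, neg_ne_zero]
    have hac : (a : ℂ) ≠ 0 := by exact_mod_cast ha.ne'
    have hxc : (x : ℂ) ≠ 0 := by exact_mod_cast hx.ne'
    exact mul_ne_zero (mul_ne_zero (mul_ne_zero two_ne_zero I_ne_zero) hac) hxc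
  have hFd : Differentiable ℂ F := by
    rw [hFdef]
    have h7 : Differentiable ℂ (fun w => om x a w) := by
      unfold om
      fun_prop
    exact hdH.comp h7
  have hFk : ∀ (k : ℕ) (w : ℂ), iteratedDeriv k F w =
      m ^ k * iteratedDeriv k (Hd D g) (om x a w) := by
    intro k w
    have h7 : F = fun w => Hd D g ((x : ℂ) ^ 2 + m * w) := by
      rw [hFdef, hm]
      funext w
      rw [jd_NII_om]
    rw [h7, jd_NII_aff]
    simp only
    rw [jd_NII_om, hm]
  have homne : ∀ w : ℂ, ‖w‖ ≤ Y / 2 → om x a w ≠ 0 := by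
    intro w hw
    refine jd_NII_om_ne hx ha ?_
    have : 2 * a * ‖w‖ ≤ 2 * a * (Y / 2) := mul_le_mul_of_nonneg_left hw (by positivity)
    linarith
  have hFB : ∀ w : ℂ, ‖w‖ ≤ Y / 2 → F w = BJ D g (x ^ 2) (om x a w) +
      conj (BJ D g (x ^ 2) (om x a (-conj w))) := by
    intro w hw
    rw [hFdef]
    simp only
    rw [hrep _ (homne w hw), jd_NII_om_conj]
  have hFc : ∀ w : ℂ, ‖w‖ ≤ Y / 2 → F (-conj w) = conj (F w) := by
    intro w hw
    rw [hFB w hw, hFB (-conj w) (by rwa [norm_neg, Complex.norm_conj])]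
    simp only [map_add, Complex.conj_conj, map_neg, neg_neg]
    ring
  -- comparison
  have hlin : ∀ w v : ℂ, b / 4 ≤ w.re → w.re ≤ Y / 4 → |w.im| ≤ 20 * b → 0 ≤ v.re →
      v.re ≤ Y / 4 → |v.im| ≤ 20 * b →
      F w ≠ 0 ∧ ‖F v‖ ≤ Real.exp (N * (v.re - w.re) + CR * ε * N * ‖v - w‖) * ‖F w‖ := by
    intro w v hw1 hw2 hw3 hv1 hv2 hv3
    have hne := hR.ne w hw1 hw2 hw3
    have hl := hR.lin w v hw1 hw2 hw3 hv1 hv2 hv3
    have hnorm : ∀ z : ℂ, ‖Hd D g (om x a z) * cexp (-((N : ℂ) * z))‖ =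
        ‖F z‖ * Real.exp (-(N * z.re)) := by
      intro z
      rw [norm_mul, Complex.norm_exp, hFdef]
      congr 2
      simp
    simp only [hnorm] at hl
    refine ⟨?_, ?_⟩
    · rw [hFdef]
      exact left_ne_zero_of_mul hne
    · have h7 := mul_le_mul_of_nonneg_right hl (Real.exp_pos (N * v.re)).le
      rw [mul_assoc, ← Real.exp_add, show -(N * v.re) + N * v.re = 0 by ring, Real.exp_zero,
        mul_one] at h7
      refine h7.trans (le_of_eq ?_)
      rw [show N * (v.re - w.re) + CR * ε * N * ‖v - w‖ =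
        CR * ε * N * ‖v - w‖ + (-(N * w.re) + N * v.re) by ring, Real.exp_add, Real.exp_add]
      ring
  -- derivatives at the points of regularity
  have hstar : ∀ w0 : ℂ, 9 * b / 32 ≤ w0.re → w0.re ≤ Y / 4 - b / 32 → |w0.im| ≤ 19 * b →
      F w0 ≠ 0 ∧ iteratedDeriv n F w0 ≠ 0 ∧
      |Real.log ‖iteratedDeriv n F w0‖ - Real.log ‖F w0‖ - n * Real.log N| ≤ N * b := by
    intro w0 hw1 hw2 hw3
    have hb32 : 0 < b / 32 := by positivity
    have hreg0 : ∀ w ∈ Metric.ball w0 (b / 32), b / 4 ≤ w.re ∧ w.re ≤ Y / 4 ∧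
        |w.im| ≤ 20 * b := by
      intro w hw
      rw [mem_ball_iff_norm] at hw
      have a1 := (abs_le.1 ((Complex.abs_re_le_norm (w - w0)).trans hw.le))
      have a2 := (abs_le.1 ((Complex.abs_im_le_norm (w - w0)).trans hw.le))
      rw [Complex.sub_re] at a1
      rw [Complex.sub_im] at a2
      have a3 := abs_le.1 hw3
      refine ⟨by linarith [a1.1], by linarith [a1.2], abs_le.2 ⟨?_, ?_⟩⟩
      · linarith [a2.1, a3.1]
      · linarith [a2.2, a3.2]
    have hw0 := hreg0 w0 (Metric.mem_ball_self hb32)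
    have hF0 : F w0 ≠ 0 := (hlin w0 w0 hw0.1 hw0.2.1 hw0.2.2 (by linarith [hw0.1]) hw0.2.1
      hw0.2.2).1
    have hpt := jd_NII_pt (n := n) hDB (F := F) (w0 := w0) (ρ := b / 32) (N := N)
      (e := CR * ε * N * (b / 32)) (c := Real.log ‖F w0‖ - N * w0.re) hb32 hN0 (by positivity)
      (by nlinarith) (by
        have : CR * ε * (N * (b / 32)) ≤ η₀ * (N * (b / 32)) :=
          mul_le_mul_of_nonneg_right (by linarith) (by positivity)
        linarith) (by
        have : η₀ * N * 1 ≤ η₀ * N * b := mul_le_mul_of_nonneg_left hb (by positivity)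
        linarith) hFd.differentiableOn (by
        intro w hw
        have hw' := hreg0 w hw
        have b1 := hlin w w0 hw'.1 hw'.2.1 hw'.2.2 (by linarith [hw0.1]) hw0.2.1 hw0.2.2
        have b2 := hlin w0 w hw0.1 hw0.2.1 hw0.2.2 (by linarith [hw'.1]) hw'.2.1 hw'.2.2
        refine ⟨b1.1, ?_⟩
        have c1 := jd_NII_logle (norm_pos_iff.2 b1.1) (norm_pos_iff.2 hF0) b1.2
        have c2 := jd_NII_logle (norm_pos_iff.2 hF0) (norm_pos_iff.2 b1.1) b2.2
        rw [mem_ball_iff_norm] at hw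
        have c3 : CR * ε * N * ‖w - w0‖ ≤ CR * ε * N * (b / 32) :=
          mul_le_mul_of_nonneg_left hw.le (by positivity)
        rw [norm_sub_rev] at c1
        rw [abs_le]
        constructor
        · linarith
        · linarith)
    refine ⟨hF0, hpt.1, ?_⟩
    have h7 : Real.log ‖iteratedDeriv n F w0‖ - (Real.log ‖F w0‖ - N * w0.re) -
        n * Real.log N - N * w0.re =
        Real.log ‖iteratedDeriv n F w0‖ - Real.log ‖F w0‖ - n * Real.log N := by ring
    rw [h7] at hpt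
    refine hpt.2.trans ?_
    have h8 : CR * ε * (N * b) ≤ 1 / 100 * (N * b) :=
      mul_le_mul_of_nonneg_right (by linarith) (by positivity)
    nlinarith
  have hreal : ∀ y : ℝ, 9 * b / 32 ≤ y → y ≤ Y / 10 →
      iteratedDeriv n (Hd D g) (om x a y) ≠ 0 := by
    intro y hy1 hy2
    have h7 := (hstar (y : ℂ) (by simpa using hy1) (by simp; linarith) (by simp; positivity)).2.1
    rw [hFk] at h7
    exact right_ne_zero_of_mul h7
  -- near the axis
  have haxis : b = 1 → (∀ y : ℝ, 0 < y → y ≤ 9 / 32 → iteratedDeriv n F y ≠ 0) ∧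
      (iteratedDeriv n F 0 = 0 → iteratedDeriv (n + 1) F 0 ≠ 0) := by
    intro hb1
    rw [hb1] at hreg
    obtain ⟨c, hc⟩ := hBJ' D N Y x a g n2 hY0 ((le_max_right _ _).trans hYε) ha hx hax hDl hDu
      hreg
    obtain ⟨B, hBdef⟩ : ∃ B : ℂ → ℂ, B = fun w => BJ D g (x ^ 2) (om x a w) := ⟨_, rfl⟩
    have hsmall : ∀ w ∈ Metric.ball (0 : ℂ) (5 / 8), ‖w‖ ≤ Y / 2 := by
      intro w hw
      rw [mem_ball_zero_iff] at hw
      linarith
    have hBd : DifferentiableOn ℂ B (Metric.ball 0 (5 / 8)) := by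
      rw [hBdef]
      refine hdB.comp (s := Metric.ball (0 : ℂ) (5 / 8)) ?_ ?_
      · unfold om
        fun_prop
      · intro w hw
        exact homne w (hsmall w hw)
    refine jd_NII_axis h5 h6 (B := B) (N := N) (η := 3 * (CB * ε)) (c := c + n * Real.log N)
      hFd hBd ?_ hN0 (by positivity) (by linarith) ?_
    · intro w hw
      rw [hFB w (hsmall w hw), hBdef]
    · intro w0 hw0
      rw [mem_ball_zero_iff] at hw0
      have hpt := jd_NII_pt (n := n) hDB (F := B) (w0 := w0) (ρ := 1 / 16) (N := N)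
        (e := CB * ε * N) (c := c) (by norm_num) hN0 (by positivity) (by linarith) (by
          have : CB * ε * N ≤ η₀ / 100 * N := mul_le_mul_of_nonneg_right e5 hN0.le
          nlinarith) (by nlinarith) (by
          refine hBd.mono ?_
          intro w hw
          rw [mem_ball_iff_norm] at hw
          rw [mem_ball_zero_iff]
          have : ‖w‖ ≤ ‖w - w0‖ + ‖w0‖ := by
            calc ‖w‖ = ‖(w - w0) + w0‖ := by rw [sub_add_cancel]
              _ ≤ _ := norm_add_le _ _
          linarith) (by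
          intro w hw
          have hw' : w ∈ Metric.ball (0 : ℂ) (5 / 8) := by
            rw [mem_ball_iff_norm] at hw
            rw [mem_ball_zero_iff]
            have : ‖w‖ ≤ ‖w - w0‖ + ‖w0‖ := by
              calc ‖w‖ = ‖(w - w0) + w0‖ := by rw [sub_add_cancel]
                _ ≤ _ := norm_add_le _ _
            linarith
          rw [hBdef]
          exact hc w hw')
      refine ⟨hpt.1, ?_⟩
      have h7 : Real.log ‖iteratedDeriv n B w0‖ - (c + n * Real.log N) - N * w0.re =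
          Real.log ‖iteratedDeriv n B w0‖ - c - n * Real.log N - N * w0.re := by ring
      rw [h7]
      refine hpt.2.trans ?_
      linarith
  have h2b := hstar ((2 * b : ℝ) : ℂ) (by rw [Complex.ofReal_re]; linarith)
    (by rw [Complex.ofReal_re]; linarith) (by rw [Complex.ofReal_im, abs_zero]; positivity)
  refine ⟨?_, ?_, ?_, ?_, ?_⟩
  · intro hb1 y hy1 hy2
    rcases le_or_gt y (9 / 32) with h | h
    · have h7 := (haxis hb1).1 y hy1 h
      rw [hFk] at h7
      exact right_ne_zero_of_mul h7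
    · exact hreal y (by rw [hb1]; linarith) hy2
  · intro hb1 h0 h1'
    have h7 := (haxis hb1).2
    have hom0 : om x a 0 = (x : ℂ) ^ 2 := by
      unfold om
      ring
    rw [hFk, hFk, hom0, h0, iteratedDeriv_succ, h1', mul_zero, mul_zero] at h7
    exact h7 rfl rfl
  · intro hb2 y hy1 hy2
    exact hreal y (by linarith) hy2
  · have h7 := h2b.2.1
    rw [hFk] at h7
    exact right_ne_zero_of_mul h7
  · intro w hw
    -- growth of `F`
    have hwre := abs_le.1 ((Complex.abs_re_le_norm _).trans hw)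
    have hwim := abs_le.1 ((Complex.abs_im_le_norm _).trans hw)
    rw [Complex.sub_re, Complex.ofReal_re] at hwre
    rw [Complex.sub_im, Complex.ofReal_im, sub_zero] at hwim
    have hnn : ∀ v : ℂ, 0 ≤ v.re → v.re ≤ 18.2 * b → |v.im| ≤ 17 * b →
        ‖F v‖ ≤ Real.exp (20 * (N * b)) * ‖F ((2 * b : ℝ) : ℂ)‖ := by
      intro v hv1 hv2 hv3
      have h7 := (hlin ((2 * b : ℝ) : ℂ) v (by rw [Complex.ofReal_re]; linarith)
        (by rw [Complex.ofReal_re]; linarith) (by rw [Complex.ofReal_im, abs_zero]; positivity)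
        hv1 (by linarith) (by linarith)).2
      refine h7.trans (mul_le_mul_of_nonneg_right (Real.exp_le_exp.2 ?_) (norm_nonneg _))
      rw [Complex.ofReal_re]
      have h8 : ‖v - ((2 * b : ℝ) : ℂ)‖ ≤ 40 * b := by
        refine (Complex.norm_le_abs_re_add_abs_im _).trans ?_
        rw [Complex.sub_re, Complex.sub_im, Complex.ofReal_re, Complex.ofReal_im, sub_zero]
        have : |v.re - 2 * b| ≤ 18 * b := abs_le.2 ⟨by linarith, by linarith⟩
        linarith
      have h9 : CR * ε * N * ‖v - ((2 * b : ℝ) : ℂ)‖ ≤ 1 / 100 * N * (40 * b) :=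
        mul_le_mul (mul_le_mul_of_nonneg_right (by linarith) hN0.le) h8 (norm_nonneg _)
          (by positivity)
      have h10 : N * (v.re - 2 * b) ≤ N * (18.2 * b - 2 * b) :=
        mul_le_mul_of_nonneg_left (by linarith) hN0.le
      nlinarith [mul_pos hN0 hb0]
    have hsph : ∀ ζ ∈ Metric.sphere w (b / 8), ‖F ζ‖ ≤
        Real.exp (20 * (N * b)) * ‖F ((2 * b : ℝ) : ℂ)‖ := by
      intro ζ hζ
      rw [mem_sphere_iff_norm] at hζ
      have c1 := abs_le.1 ((Complex.abs_re_le_norm (ζ - w)).trans hζ.le)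
      have c2 := abs_le.1 ((Complex.abs_im_le_norm (ζ - w)).trans hζ.le)
      rw [Complex.sub_re] at c1
      rw [Complex.sub_im] at c2
      have c3 : |ζ.im| ≤ 17 * b := abs_le.2 ⟨by linarith [c2.1, hwim.1], by linarith [c2.2, hwim.2]⟩
      rcases le_or_gt 0 ζ.re with h | h
      · exact hnn ζ h (by linarith [c1.2, hwre.2]) c3
      · have hζn : ‖ζ‖ ≤ Y / 2 := by
          refine (Complex.norm_le_abs_re_add_abs_im _).trans ?_
          have : |ζ.re| ≤ 15 * b := abs_le.2 ⟨by linarith [c1.1, hwre.1], by linarith⟩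
          linarith
        have h7 : ‖F ζ‖ = ‖F (-conj ζ)‖ := by
          rw [hFc ζ hζn, Complex.norm_conj]
        rw [h7]
        refine hnn _ ?_ ?_ ?_
        · rw [Complex.neg_re, Complex.conj_re]
          linarith
        · rw [Complex.neg_re, Complex.conj_re]
          linarith [c1.1, hwre.1]
        · rw [Complex.neg_im, Complex.conj_im, neg_neg]
          exact c3
    have hcau := Complex.norm_iteratedDeriv_le_of_forall_mem_sphere_norm_le n
      (show 0 < b / 8 by positivity) (hFd.diffContOnCl) hsph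
    -- `F (2 b)` against its derivative
    obtain ⟨hF2, hFn2, habs⟩ := h2b
    have hlow : ‖F ((2 * b : ℝ) : ℂ)‖ ≤
        Real.exp (N * b) * ‖iteratedDeriv n F ((2 * b : ℝ) : ℂ)‖ / N ^ n := by
      have h7 := (abs_le.1 habs).1
      have h8 : Real.log ‖F ((2 * b : ℝ) : ℂ)‖ ≤
          N * b + Real.log ‖iteratedDeriv n F ((2 * b : ℝ) : ℂ)‖ - n * Real.log N := by linarith
      have h9 := Real.exp_le_exp.2 h8
      rw [Real.exp_log (norm_pos_iff.2 hF2), Real.exp_sub, Real.exp_add,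
        Real.exp_log (norm_pos_iff.2 hFn2), Real.exp_nat_mul, Real.exp_log hN0] at h9
      exact h9
    have hfac : (n.factorial : ℝ) * 8 ^ n ≤ N ^ n * b ^ n := by
      have h7 : (n.factorial : ℝ) ≤ (n : ℝ) ^ n := by exact_mod_cast Nat.factorial_le_pow n
      calc (n.factorial : ℝ) * 8 ^ n ≤ (n : ℝ) ^ n * 8 ^ n :=
            mul_le_mul_of_nonneg_right h7 (by positivity)
        _ = (n * 8 : ℝ) ^ n := by rw [mul_pow]
        _ ≤ (N * b) ^ n := by
          refine pow_le_pow_left₀ (by positivity) ?_ n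
          have h8 : η₀ * N ≤ 1 / 100 * N := mul_le_mul_of_nonneg_right hη1 hN0.le
          linarith
        _ = N ^ n * b ^ n := by rw [mul_pow]
    have hFnw : ‖iteratedDeriv n F w‖ ≤
        Real.exp (30 * N * b) * ‖iteratedDeriv n F ((2 * b : ℝ) : ℂ)‖ := by
      obtain ⟨Q, hQ⟩ : ∃ Q, Q = ‖iteratedDeriv n F ((2 * b : ℝ) : ℂ)‖ := ⟨_, rfl⟩
      have hQ0 : 0 ≤ Q := by
        rw [hQ]
        exact norm_nonneg _
      rw [← hQ] at hlow ⊢
      refine hcau.trans ?_
      have h7 : (n.factorial : ℝ) * (Real.exp (20 * (N * b)) * ‖F ((2 * b : ℝ) : ℂ)‖) /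
          (b / 8) ^ n ≤ (n.factorial : ℝ) * (Real.exp (20 * (N * b)) *
            (Real.exp (N * b) * Q / N ^ n)) / (b / 8) ^ n := by
        gcongr
      refine h7.trans ?_
      have h8 : (n.factorial : ℝ) * (Real.exp (20 * (N * b)) *
            (Real.exp (N * b) * Q / N ^ n)) / (b / 8) ^ n =
          ((n.factorial : ℝ) * 8 ^ n / (N ^ n * b ^ n)) *
            (Real.exp (20 * (N * b)) * Real.exp (N * b) * Q) := by
        rw [div_pow]
        field_simp
      rw [h8]
      have h9 : (n.factorial : ℝ) * 8 ^ n / (N ^ n * b ^ n) ≤ 1 := by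
        rw [div_le_one (by positivity)]
        exact hfac
      have h10 : Real.exp (20 * (N * b)) * Real.exp (N * b) ≤ Real.exp (30 * N * b) := by
        rw [← Real.exp_add]
        exact Real.exp_le_exp.2 (by nlinarith [mul_pos hN0 hb0])
      calc ((n.factorial : ℝ) * 8 ^ n / (N ^ n * b ^ n)) *
            (Real.exp (20 * (N * b)) * Real.exp (N * b) * Q) ≤
            1 * (Real.exp (20 * (N * b)) * Real.exp (N * b) * Q) :=
              mul_le_mul_of_nonneg_right h9 (by positivity)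
        _ = Real.exp (20 * (N * b)) * Real.exp (N * b) * Q := one_mul _
        _ ≤ Real.exp (30 * N * b) * Q := mul_le_mul_of_nonneg_right h10 hQ0
    rw [hFk, hFk, norm_mul, norm_mul] at hFnw
    have hmn : 0 < ‖m ^ n‖ := norm_pos_iff.2 (pow_ne_zero _ hm0)
    refine le_of_mul_le_mul_left ?_ hmn
    calc ‖m ^ n‖ * ‖iteratedDeriv n (Hd D g) (om x a w)‖ ≤ _ := hFnw
      _ = _ := by ring

end Pool.Agent.Lib.MP_cd509c_nt.JD
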