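import Pool.Agent.Lib.MP_cd509c_nt.JD.Defs

/-!
Piece PH: relation between the two normalisations.
-/

set_option autoImplicit false

namespace Pool.Agent.Lib.MP_cd509c_nt.JD

open Complex ComplexConjugate Polynomial

theorem jd_PH_coeff (D : ℕ) (g : ℂ → ℂ) (j : ℕ) (hj : j ≤ D) :
    (PgP D g).coeff j = (D.choose (D - j) : ℂ) * iteratedDeriv (D - j) g 0 := by
  unfold PgP
  rw [finsetSum_coeff, Finset.sum_eq_single (D - j)]
  · rw [coeff_C_mul, coeff_X_pow, if_pos (by omega), mul_one]
  · intro k hk hk'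
    rw [Finset.mem_range] at hk
    rw [coeff_C_mul, coeff_X_pow, if_neg (by omega), mul_zero]
  · intro h
    exact absurd (Finset.mem_range.mpr (by omega)) h

theorem jd_PH_deg (D : ℕ) (g : ℂ → ℂ) : (PgP D g).natDegree ≤ D := by
  unfold PgP
  apply natDegree_sum_le_of_forall_le
  intro k _
  exact (natDegree_C_mul_X_pow_le _ _).trans (Nat.sub_le _ _)

theorem p_PH : S_PH := by
  intro D g hD hg0
  have h0 : (PgP D g).coeff D ≠ 0 := by
    rw [jd_PH_coeff D g D le_rfl, Nat.sub_self, Nat.choose_zero_right, iteratedDeriv_zero,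
      Nat.cast_one, one_mul]
    exact hg0
  have hne : PgP D g ≠ 0 := by
    intro h
    rw [h, coeff_zero] at h0
    exact h0 rfl
  refine ⟨le_antisymm (jd_PH_deg D g) (le_natDegree_of_ne_zero h0), hne, ?_, ?_⟩
  · intro u hu
    have hD' : (D : ℂ) ≠ 0 := by exact_mod_cast (by omega : D ≠ 0)
    unfold PgP Hd
    rw [eval_finsetSum, Finset.mul_sum]
    apply Finset.sum_congr rfl
    intro k hk
    rw [Finset.mem_range] at hk
    rw [eval_mul, eval_C, eval_pow, eval_X]
    have h1 : (D : ℂ) / u / D = u⁻¹ := by field_simp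
    have h2 : u ^ D = u ^ (D - k) * u ^ k := by
      rw [← pow_add]; congr 1; omega
    rw [h1, h2, inv_pow]
    field_simp
  · intro hreal hg k
    by_cases hk : k ≤ D
    · rw [jd_PH_coeff D g k hk]
      have h1 := iteratedDeriv_conj' hreal (D - k) 0
      rw [map_zero] at h1
      have h2 : (iteratedDeriv (D - k) g 0).im = 0 := by
        have := congrArg Complex.im h1
        rw [Complex.conj_im] at this
        linarith
      have h3 : ((D.choose (D - k) : ℂ)) = (((D.choose (D - k) : ℕ) : ℝ) : ℂ) := by push_cast; rfl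
      rw [h3, Complex.im_ofReal_mul, h2, mul_zero]
    · rw [coeff_eq_zero_of_natDegree_lt (lt_of_le_of_lt (jd_PH_deg D g) (by omega)),
        Complex.zero_im]

end Pool.Agent.Lib.MP_cd509c_nt.JD
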