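import Pool.Agent.Lib.MP_cd509c_nt.JD.StmK

set_option autoImplicit false

/-!
Project JD, piece RT: transfer of the regularity, assembly (helper22).
-/

namespace Pool.Agent.Lib.MP_cd509c_nt.JD

open Complex ComplexConjugate MeasureTheory
open Pool.Agent.Lib.MP_cd509c_nt.DN

theorem RT_norm (N : ℝ) (h : ℂ) (w : ℂ) :
    ‖h * cexp (-(N * w))‖ = ‖h‖ * Real.exp (-(N * w.re)) := by
  rw [norm_mul, Complex.norm_exp]
  simp

/-- from the two bounds to the normalised function -/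
theorem RT_core {hv hw gw : ℂ} {N A E Cl X : ℝ} {v w : ℂ} (hA : 0 ≤ A) (hCl : 0 < Cl)
    (hup : ‖hv‖ ≤ A * Real.exp E * ‖gw‖) (hlo : Real.exp X / Cl * ‖gw‖ ≤ ‖hw‖) :
    ‖hv * cexp (-(N * v))‖ ≤ Real.exp (A * Cl + E - X - N * v.re + N * w.re) *
      ‖hw * cexp (-(N * w))‖ := by
  rw [RT_norm, RT_norm]
  have h1 : ‖gw‖ ≤ Cl * Real.exp (-X) * ‖hw‖ := by
    have h2 : Cl * Real.exp (-X) * (Real.exp X / Cl * ‖gw‖) ≤ Cl * Real.exp (-X) * ‖hw‖ :=
      mul_le_mul_of_nonneg_left hlo (by positivity)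
    have h3 : Cl * Real.exp (-X) * (Real.exp X / Cl * ‖gw‖) = ‖gw‖ := by
      rw [Real.exp_neg]
      have := Real.exp_pos X
      field_simp
    linarith
  have h4 : ‖hv‖ ≤ A * Real.exp E * (Cl * Real.exp (-X) * ‖hw‖) :=
    hup.trans (mul_le_mul_of_nonneg_left h1 (by positivity))
  have h5 : A * Cl ≤ Real.exp (A * Cl) := by
    have := Real.add_one_le_exp (A * Cl)
    linarith
  calc ‖hv‖ * Real.exp (-(N * v.re))
      ≤ A * Real.exp E * (Cl * Real.exp (-X) * ‖hw‖) * Real.exp (-(N * v.re)) := by gcongr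
    _ = (A * Cl) * (Real.exp E * Real.exp (-X) * Real.exp (-(N * v.re)) * ‖hw‖) := by ring
    _ ≤ Real.exp (A * Cl) * (Real.exp E * Real.exp (-X) * Real.exp (-(N * v.re)) * ‖hw‖) := by
        gcongr
    _ = Real.exp (A * Cl + E - X - N * v.re + N * w.re) * (‖hw‖ * Real.exp (-(N * w.re))) := by
        have : Real.exp (A * Cl + E - X - N * v.re + N * w.re) = Real.exp (A * Cl) * Real.exp E *
            Real.exp (-X) * Real.exp (-(N * v.re)) * Real.exp (N * w.re) := by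
          rw [← Real.exp_add, ← Real.exp_add, ← Real.exp_add, ← Real.exp_add]
          congr 1
        rw [this]
        have h6 : Real.exp (N * w.re) * Real.exp (-(N * w.re)) = 1 := by
          rw [← Real.exp_add]; simp
        linear_combination (-(Real.exp (A * Cl) * Real.exp E *
            Real.exp (-X) * Real.exp (-(N * v.re)) * ‖hw‖)) * h6

/-- the numerical inequality behind the tail bound -/
theorem RT_num {N ε δ Y q a x Cu Cl Ct : ℝ} (hCu : 1 ≤ Cu) (hCl : 1 ≤ Cl) (hCt : 1 ≤ Ct)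
    (hε : 0 < ε) (hε1 : ε ≤ 1 / 100) (hN : 0 < N) (ha : 0 < a) (hx : 0 < x)
    (hax : 1000 * a * Y ^ 2 ≤ ε * x) (hY : 160 ≤ Y) (hδ : Y / 8 ≤ δ) (hYε : 1 ≤ ε * Y)
    (hq : 0 ≤ q) (hqδ : q ≤ 3 * δ) (hN2 : Ct * Cl ≤ ε * N) :
    Ct * Cl + Ct * N * (δ + Y + (a * q / x) ^ 2) + Cl * ε * N ≤
      200 * (Cu + Cl + Ct + 1) * ε * N * δ ^ 2 := by
  have hδpos : 0 < δ := by linarith
  have a1 : δ ≤ 8 * (ε * δ ^ 2) := by
    have h1 : 1 ≤ 8 * (ε * δ) := by
      have := mul_le_mul_of_nonneg_left hδ hε.le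
      linarith
    have h2 := mul_le_mul_of_nonneg_left h1 hδpos.le
    linarith
  have a2 : Y ≤ 64 * (ε * δ ^ 2) := by linarith
  have hax2 : a / x ≤ ε := by
    rw [div_le_iff₀ hx]
    have hY1 : 1 ≤ 1000 * Y ^ 2 := by nlinarith
    have h2 := mul_le_mul_of_nonneg_left hY1 ha.le
    linarith
  have a3 : (a * q / x) ^ 2 ≤ 9 * (ε * δ ^ 2) := by
    have h7 : a * q / x ≤ ε * (3 * δ) := by
      calc a * q / x = a / x * q := by ring
        _ ≤ ε * (3 * δ) := by gcongr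
    have h8 : 0 ≤ a * q / x := by positivity
    calc (a * q / x) ^ 2 ≤ (ε * (3 * δ)) ^ 2 := by gcongr
      _ = 9 * (ε * δ ^ 2) * ε := by ring
      _ ≤ 9 * (ε * δ ^ 2) * 1 := by gcongr; linarith
      _ = _ := by ring
  have a4 : (1 : ℝ) ≤ δ ^ 2 := by nlinarith
  have b1 : Ct * N * (δ + Y + (a * q / x) ^ 2) ≤ Ct * N * (81 * (ε * δ ^ 2)) := by
    gcongr
    linarith
  have hN1 : 0 ≤ ε * N := by positivity
  have b2 : Cl * (ε * N) * 1 ≤ Cl * (ε * N) * δ ^ 2 := by gcongr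
  have b3 : ε * N * 1 ≤ ε * N * δ ^ 2 := by gcongr
  have b6 : 0 ≤ ε * N * δ ^ 2 := by positivity
  have b7 : 0 ≤ Cu * (ε * N * δ ^ 2) := by positivity
  have b8 : 0 ≤ Cl * (ε * N * δ ^ 2) := by positivity
  have b9 : 0 ≤ Ct * (ε * N * δ ^ 2) := by positivity
  have e1 : Ct * N * (81 * (ε * δ ^ 2)) = 81 * (Ct * (ε * N * δ ^ 2)) := by ring
  have e2 : 200 * (Cu + Cl + Ct + 1) * ε * N * δ ^ 2 = 200 * (Cu * (ε * N * δ ^ 2)) +
    200 * (Cl * (ε * N * δ ^ 2)) + 200 * (Ct * (ε * N * δ ^ 2)) + 200 * (ε * N * δ ^ 2) := by ring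
  have e3 : Cl * (ε * N) * δ ^ 2 = Cl * (ε * N * δ ^ 2) := by ring
  rw [e2]
  linarith

theorem p_RT (h1 : S_RTupp) (h2 : S_RTlow) (h3 : S_RTtail) (h4 : S_up) : S_RT := by
  intro C₁ B hC₁ hB
  obtain ⟨Cu, Yu, hCu, hYu, h1⟩ := h1 C₁ B hC₁ hB
  obtain ⟨Cl, Yl, el, Nl, hCl, hYl, hel, hNl, h2⟩ := h2 C₁ B hC₁ hB
  obtain ⟨Ct, Yt, hCt, hYt, h3⟩ := h3 C₁ B hC₁ hB
  refine ⟨200 * (Cu + Cl + Ct + 1), max Yu (max Yl Yt), min (1 / 100) el, by linarith,
    hYu.trans (le_max_left _ _), lt_min (by norm_num) hel, ?_⟩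
  intro ε hε hεle
  have hε1 : ε ≤ 1 / 100 := hεle.trans (min_le_left _ _)
  have hε2 : ε ≤ el := hεle.trans (min_le_right _ _)
  refine ⟨max Nl (max (Cu * Cl / ε) (Ct * Cl / ε)), hNl.trans (le_max_left _ _), ?_⟩
  intro D N b Y x a g hN hb hbY hY hapos hxpos hax hND hreg
  have hN0 : Nl ≤ N := (le_max_left _ _).trans hN
  have hN1 : Cu * Cl ≤ ε * N := by
    have h := ((le_max_left _ _).trans (le_max_right _ _)).trans hN
    rw [div_le_iff₀ hε] at h
    linarith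
  have hN2 : Ct * Cl ≤ ε * N := by
    have h := ((le_max_right _ _).trans (le_max_right _ _)).trans hN
    rw [div_le_iff₀ hε] at h
    linarith
  have hN3 : 1 ≤ N := hNl.trans hN0
  have hNpos : 0 < N := by linarith
  have hD : 1 ≤ D := by
    rcases Nat.eq_zero_or_pos D with h | h
    · exfalso
      subst h
      simp only [Nat.cast_zero, mul_zero, zero_mul] at hND
      have : 0 < N * x ^ 2 := by positivity
      linarith
    · exact h
  have hYpos : 0 < Y := by linarith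
  have hctx : ∀ Y₁ : ℝ, Y₁ ≤ max Yu (max Yl Yt) → Ctx C₁ B Y₁ ε D N b Y x a g := fun Y₁ hY₁ =>
    ⟨hε, hε1, hN3, hb, hbY, hY₁.trans hY, hapos, hxpos, hax, hD, hND, hreg⟩
  have cu := hctx Yu (le_max_left _ _)
  have cl := hctx Yl ((le_max_left _ _).trans (le_max_right _ _))
  have ct := hctx Yt ((le_max_right _ _).trans (le_max_right _ _))
  have hβ : 0 ≤ bet D N x a := by unfold bet; positivity
  have hlow : ∀ w : ℂ, R1 b Y w → Real.exp (N * bet D N x a / 2 - Cl * ε * N) / Cl *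
      ‖g (om x a w)‖ ≤ ‖Hd D g (om x a w)‖ := fun w hw =>
    h2 ε D N b Y x a g hε2 hN0 cl w hw
  have hne : ∀ w : ℂ, R1 b Y w → Hd D g (om x a w) * cexp (-(N * w)) ≠ 0 := by
    intro w hw
    refine mul_ne_zero ?_ (Complex.exp_ne_zero _)
    have h5 : g (om x a w) ≠ 0 := by
      refine hreg.ne w ?_ ?_ ?_
      · have := hw.1; linarith
      · have := hw.2.1; linarith
      · have := hw.2.2; linarith
    have h6 := hlow w hw
    have h7 : 0 < ‖g (om x a w)‖ := norm_pos_iff.mpr h5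
    have h8 : 0 < Real.exp (N * bet D N x a / 2 - Cl * ε * N) / Cl * ‖g (om x a w)‖ := by
      positivity
    exact norm_pos_iff.mp (h8.trans_le h6)
  have hdiff : Differentiable ℂ (fun w : ℂ => Hd D g (om x a w) * cexp (-(N * w))) := by
    unfold Hd om
    fun_prop
  have hN1' : 0 ≤ ε * N := by positivity
  have hup : ∀ w v : ℂ, b / 4 ≤ w.re → w.re ≤ Y / 4 → |w.im| ≤ 20 * b → 0 ≤ v.re →
      v.re ≤ Y / 4 → |v.im| ≤ 20 * b → ‖Hd D g (om x a v) * cexp (-(N * v))‖ ≤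
        Real.exp (100 * ((Cu + Cl + 1) * ε) * N * ‖v - w‖) *
        ‖Hd D g (om x a w) * cexp (-(N * w))‖ := by
    refine h4 ((Cu + Cl + 1) * ε) N b (Y / 4) (fun w : ℂ => Hd D g (om x a w) * cexp (-(N * w)))
      (by positivity) hNpos hb (by linarith) hdiff ?_
    intro w v hw1 hw2 hw3 hv1 hv2 hv3
    have hw : R1 b Y w := ⟨hw1, hw2, hw3⟩
    refine ⟨hne w hw, ?_⟩
    have h5 := h1 ε D N b Y x a g cu w hw v ⟨hv1, hv2, hv3⟩
    refine (RT_core (N := N) (v := v) (w := w) (by linarith) (by linarith) h5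
      (hlow w hw)).trans ?_
    apply mul_le_mul_of_nonneg_right _ (norm_nonneg _)
    rw [Real.exp_le_exp]
    have hδ := norm_nonneg (v - w)
    have h6 : ε * N * (‖v - w‖ + 1) ≤ ε * N * (‖v - w‖ + b) := by gcongr
    have h7 : ε * N * 1 ≤ ε * N * (‖v - w‖ + b) := by
      apply mul_le_mul_of_nonneg_left _ hN1'
      linarith
    have h8 : Cu * (ε * N * (‖v - w‖ + 1)) ≤ Cu * (ε * N * (‖v - w‖ + b)) := by gcongr
    have h9 : Cl * (ε * N * 1) ≤ Cl * (ε * N * (‖v - w‖ + b)) := by gcongr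
    nlinarith
  refine ⟨hdiff, ?_, ?_, ?_⟩
  · intro w hw1 hw2 hw3
    exact hne w ⟨by linarith, by linarith, by linarith⟩
  · intro w v hw1 hw2 hw3 hv1 hv2 hv3
    refine (hup w v hw1 hw2 hw3 hv1 hv2 hv3).trans ?_
    apply mul_le_mul_of_nonneg_right _ (norm_nonneg _)
    rw [Real.exp_le_exp]
    have hδ := norm_nonneg (v - w)
    have h6 : 0 ≤ ε * N * ‖v - w‖ := by positivity
    nlinarith
  · intro w v hw1 hw2 hw3 hv1 hv2
    have hw : R1 b Y w := ⟨by linarith, by linarith, by linarith⟩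
    have h5 := h3 ε D N b Y x a g ct w hw v (by linarith) (by linarith)
    refine (RT_core (N := N) (v := v) (w := w) (by linarith) (by linarith) h5
      (hlow w hw)).trans ?_
    apply mul_le_mul_of_nonneg_right _ (norm_nonneg _)
    rw [Real.exp_le_exp]
    have hδ1 : Y / 8 ≤ ‖v - w‖ := by
      have h6 : (v - w).re ≤ ‖v - w‖ := Complex.re_le_norm _
      rw [Complex.sub_re] at h6
      linarith
    have hYε : 1 ≤ ε * Y := (hYu.trans (le_max_left _ _)).trans hY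
    have hw4 : ‖w‖ ≤ 2 * ‖v - w‖ := by
      have h6 := Complex.norm_le_abs_re_add_abs_im w
      rw [abs_of_nonneg (show (0 : ℝ) ≤ w.re by linarith)] at h6
      linarith
    have hv4 : ‖v‖ ≤ 3 * ‖v - w‖ := by
      have h6 : ‖v‖ ≤ ‖v - w‖ + ‖w‖ := by
        calc ‖v‖ = ‖(v - w) + w‖ := by ring_nf
          _ ≤ _ := norm_add_le _ _
      linarith
    have b4 : 0 ≤ N * (v.re - w.re) := mul_nonneg hNpos.le (by linarith)
    have b5 : 0 ≤ N * bet D N x a / 2 := by positivity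
    have := RT_num (N := N) (ε := ε) (δ := ‖v - w‖) (Y := Y) (q := ‖v‖) (a := a) (x := x)
      (Cu := Cu) hCu hCl hCt hε hε1 hNpos hapos hxpos hax (by linarith) hδ1 hYε (norm_nonneg _)
      hv4 hN2
    linarith

end Pool.Agent.Lib.MP_cd509c_nt.JD
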