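import Pool.Agent.Lib.MP_cd509c_nt.JD.StmK

/-!
# JD, piece RTlow: lower bound of the Jensen transform near the axis
-/

set_option autoImplicit false

namespace Pool.Agent.Lib.MP_cd509c_nt.JD

open Complex ComplexConjugate MeasureTheory
open Pool.Agent.Lib.MP_cd509c_nt.DN

/-! ## Gaussian integrals -/

theorem RTlow_gauss (c μ p q : ℝ) (hc : 0 < c) (hpq : p ≤ q) :
    ∫ v in p..q, Real.exp (-(c * (v - μ) ^ 2)) ≤ Real.sqrt (Real.pi / c) := by
  rw [← integral_gaussian c,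
    ← MeasureTheory.integral_sub_right_eq_self (fun v => Real.exp (-c * v ^ 2)) μ,
    intervalIntegral.integral_of_le hpq]
  have h : ∀ v : ℝ, Real.exp (-(c * (v - μ) ^ 2)) = Real.exp (-c * (v - μ) ^ 2) := by
    intro v; congr 1; ring
  simp only [h]
  apply MeasureTheory.setIntegral_le_integral
  · exact (integrable_exp_neg_mul_sq hc).comp_sub_right μ
  · exact Filter.Eventually.of_forall (fun v => (Real.exp_pos _).le)

theorem RTlow_piece (F : ℝ → ℂ) (c μ p q K : ℝ) (hc : 0 < c) (hpq : p ≤ q) (hK : 0 ≤ K)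
    (hF : ∀ v : ℝ, p ≤ v → v ≤ q → ‖F v‖ ≤ K * Real.exp (-(c * (v - μ) ^ 2))) :
    ‖∫ v in p..q, F v‖ ≤ K * Real.sqrt (Real.pi / c) := by
  have h1 : ‖∫ v in p..q, F v‖ ≤ ∫ v in p..q, K * Real.exp (-(c * (v - μ) ^ 2)) := by
    apply intervalIntegral.norm_integral_le_of_norm_le hpq
    · exact Filter.Eventually.of_forall (fun v hv => hF v hv.1.le hv.2)
    · apply Continuous.intervalIntegrable
      fun_prop
  rw [intervalIntegral.integral_const_mul] at h1
  exact h1.trans (mul_le_mul_of_nonneg_left (RTlow_gauss c μ p q hc hpq) hK)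

/-! ## The exponent -/

theorem RTlow_exp (β ε s : ℝ) (hβ : 0 < β) (he : 0 < ε) (he1 : ε ≤ 1 / 100) :
    (1 + 2 * ε) * s - (1 - ε) * s ^ 2 / (2 * β) ≤
      β / 2 + 3 * ε * β - (s - β) ^ 2 / (4 * β) := by
  have h : β / 2 + 3 * ε * β - (s - β) ^ 2 / (4 * β) -
      ((1 + 2 * ε) * s - (1 - ε) * s ^ 2 / (2 * β)) =
      ((1 / 4 - ε / 2) * (s - β) ^ 2 - 3 * ε * β * (s - β) + ε / 2 * β ^ 2) / β := by
    field_simp
    ring
  have h2 : 0 ≤ ((1 / 4 - ε / 2) * (s - β) ^ 2 - 3 * ε * β * (s - β) + ε / 2 * β ^ 2) / β := by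
    apply div_nonneg _ hβ.le
    nlinarith [sq_nonneg ((s - β) - 10 * ε * β), sq_nonneg (s - β), mul_pos he (mul_pos hβ hβ),
      mul_nonneg he.le (sub_nonneg.2 he1), sq_nonneg β,
      mul_nonneg (mul_nonneg he.le (sub_nonneg.2 he1)) (sq_nonneg β)]
  linarith

/-! ## The representation in the variable `v` -/

theorem RTlow_rep (h : S_rep) (D : ℕ) (x a : ℝ) (g : ℂ → ℂ) (w : ℂ) (hD : 1 ≤ D) (hx : 0 < x)
    (ha : 0 < a) (hg : Differentiable ℂ g) :
    Hd D g (om x a w) = cD D * ((2 * a / x : ℝ) : ℂ) *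
      ∫ v in (-(Real.pi * x / (2 * a)))..(Real.pi * x / (2 * a)), FF D x a g w (v : ℂ) := by
  rw [h D g (om x a w) hD hg, mul_assoc]
  congr 1
  have hc : (-(2 * a / x) : ℝ) ≠ 0 := by
    have : 0 < 2 * a / x := by positivity
    linarith
  have h1 := intervalIntegral.integral_comp_mul_left
    (a := -(Real.pi * x / (2 * a))) (b := Real.pi * x / (2 * a))
    (fun φ : ℝ => kD D φ * g (om x a w * cexp (φ * I))) hc
  have e1 : -(2 * a / x) * (-(Real.pi * x / (2 * a))) = Real.pi := by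
    field_simp
  have e2 : -(2 * a / x) * (Real.pi * x / (2 * a)) = -Real.pi := by
    field_simp
  rw [e1, e2, intervalIntegral.integral_symm (-Real.pi) Real.pi] at h1
  have h2 : ∀ v : ℝ, FF D x a g w (v : ℂ) =
      (fun φ : ℝ => kD D φ * g (om x a w * cexp (φ * I))) (-(2 * a / x) * v) := by
    intro v
    have e3 : (((-(2 * a / x) * v : ℝ)) : ℂ) = -(2 * a * v / x) := by
      push_cast
      ring
    simp only [FF, e3]
    congr 3
    ring_nf
  simp only [h2]
  rw [h1]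
  have hcc : ((2 * a / x : ℝ) : ℂ) * (-(2 * a / x))⁻¹ = -1 := by
    push_cast
    have : (x : ℂ) ≠ 0 := by exact_mod_cast hx.ne'
    have : (a : ℂ) ≠ 0 := by exact_mod_cast ha.ne'
    field_simp
  rw [Complex.real_smul]
  push_cast at hcc ⊢
  rw [← mul_assoc, hcc]
  ring

theorem RTlow_cont (D : ℕ) (x a : ℝ) (g : ℂ → ℂ) (w : ℂ) (hg : Differentiable ℂ g) :
    Continuous (fun v : ℝ => FF D x a g w (v : ℂ)) := by
  unfold FF kD
  have := hg.continuous
  fun_prop

/-! ## The main part -/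

/-- context facts -/
theorem RTlow_ctx (C₁ B Y₀ ε : ℝ) (D : ℕ) (N b Y x a : ℝ) (g : ℂ → ℂ) (hB : 1 ≤ B)
    (hY : 10 * B ≤ Y₀) (h : Ctx C₁ B Y₀ ε D N b Y x a g) :
    0 < bet D N x a ∧ bet D N x a ≤ B ∧ 1000 * B ≤ Y ∧ a / x ≤ ε / (1000 * Y ^ 2) ∧
      2 * a / x * Real.sqrt (bet D N x a / N) = 1 / Real.sqrt D := by
  have hx := h.x0
  have ha := h.a0
  have he := h.e0
  have hN : 0 < N := by linarith [h.N1]
  have hD : (0 : ℝ) < D := by exact_mod_cast h.D1
  have hY1 : 1000 * B ≤ Y := by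
    have h1 := h.Y0
    have h2 := h.e1
    have hYp : 0 < Y := by
      by_contra hc
      nlinarith [mul_nonneg he.le (sub_nonneg.2 (not_lt.1 hc))]
    nlinarith
  have hYp : 0 < Y := by linarith
  refine ⟨by unfold bet; positivity, ?_, hY1, ?_, ?_⟩
  · unfold bet
    rw [div_le_iff₀ (by positivity)]
    linarith [h.bB]
  · rw [div_le_div_iff₀ hx (by positivity)]
    linarith [h.ax]
  · have e1 : bet D N x a / N = (x / (2 * a)) ^ 2 / D := by
      unfold bet
      field_simp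
      ring
    rw [e1, Real.sqrt_div (by positivity), Real.sqrt_sq (by positivity)]
    have : Real.sqrt D ≠ 0 := (Real.sqrt_pos.2 hD).ne'
    field_simp

/-- lower bound of the integrand at the saddle -/
theorem RTlow_val (hwp : S_wp) (hkr : S_kr) (C₁ B Y₀ ε : ℝ) (D : ℕ) (N b Y x a : ℝ) (g : ℂ → ℂ)
    (hB : 1 ≤ B) (hY : 10 * B ≤ Y₀) (h : Ctx C₁ B Y₀ ε D N b Y x a g) (w : ℂ) (hw : R1 b Y w) :
    Real.exp (N * bet D N x a / 2 - (B + 3) * ε * N) * ‖g (om x a w)‖ ≤
      ‖FF D x a g w (bet D N x a : ℝ)‖ := by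
  obtain ⟨hβ, hβB, hY1, hax, -⟩ := RTlow_ctx C₁ B Y₀ ε D N b Y x a g hB hY h
  set β := bet D N x a with hβdef
  have hx := h.x0
  have ha := h.a0
  have he := h.e0
  have he1 := h.e1
  have hb1 := h.b1
  have hYb := h.Yb
  have hN : 0 < N := by linarith [h.N1]
  have hYp : 0 < Y := by linarith
  obtain ⟨hw1, hw2, hw3⟩ := hw
  have hwn : ‖w‖ ≤ 2 / 5 * Y := by
    have h1 := Complex.norm_le_abs_re_add_abs_im w
    have h2 : |w.re| ≤ Y / 4 + b := by
      rw [abs_le]; constructor <;> linarith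
    nlinarith
  have hnβ : ‖((β : ℝ) : ℂ)‖ = β := by
    rw [Complex.norm_real, Real.norm_of_nonneg hβ.le]
  have hax2 : a / x * Y ^ 2 ≤ ε / 1000 := by
    have h1 := mul_le_mul_of_nonneg_right hax (sq_nonneg Y)
    have h2 : ε / (1000 * Y ^ 2) * Y ^ 2 = ε / 1000 := by field_simp
    linarith
  have hax0 : 0 < a / x := by positivity
  have h8 : 8 * a * ‖((β : ℝ) : ℂ)‖ ≤ x := by
    rw [hnβ]
    have h1 : a / x * β ≤ 1 / 8 := by
      have : a / x * β ≤ a / x * Y ^ 2 := by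
        apply mul_le_mul_of_nonneg_left _ hax0.le
        nlinarith
      linarith
    have h2 : a * β = a / x * β * x := by field_simp
    nlinarith
  obtain ⟨hwp1, hwp2, -, -⟩ := hwp x a w (β : ℝ) ha hx h8
  set w' := Wp x a w (β : ℝ) with hw'
  have hd : ‖w' - (w + (β : ℝ))‖ ≤ ε / 100 := by
    refine hwp2.trans ?_
    rw [hnβ]
    have e1 : 4 * a * β * (β + ‖w‖) / x = 4 * (a / x) * (β * (β + ‖w‖)) := by ring
    rw [e1]
    have h1 : β * (β + ‖w‖) ≤ Y ^ 2 := by
      have : β + ‖w‖ ≤ Y := by linarith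
      have h2 : β ≤ Y := by linarith
      nlinarith [norm_nonneg w]
    have h3 := mul_le_mul_of_nonneg_left h1 (by positivity : (0 : ℝ) ≤ 4 * (a / x))
    nlinarith
  have hre : |w'.re - (w.re + β)| ≤ ε / 100 := by
    have h1 := Complex.abs_re_le_norm (w' - (w + (β : ℝ)))
    simp only [Complex.sub_re, Complex.add_re, Complex.ofReal_re] at h1
    exact h1.trans hd
  have him : |w'.im - w.im| ≤ ε / 100 := by
    have h1 := Complex.abs_im_le_norm (w' - (w + (β : ℝ)))
    simp only [Complex.sub_im, Complex.add_im, Complex.ofReal_im, add_zero] at h1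
    exact h1.trans hd
  rw [abs_le] at hre him hw3
  have hlin := h.reg.lin w' w (by linarith [hre.1]) (by linarith [hre.2])
    (by rw [abs_le]; constructor <;> linarith [him.1, him.2]) (by linarith) (by linarith)
    (by rw [abs_le]; constructor <;> linarith)
  have hww : ‖w - w'‖ ≤ B + 1 := by
    have e1 : w - w' = -(w' - (w + (β : ℝ))) - (β : ℝ) := by ring
    rw [e1]
    refine (norm_sub_le _ _).trans ?_
    rw [norm_neg, hnβ]
    linarith
  obtain ⟨hkr1, -⟩ := hkr D N x a h.D1 hN ha hx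
  obtain ⟨⟨κ, hκ, hkD⟩, -⟩ := hkr1 (β : ℝ) h8
  have hκ2 : ‖κ‖ ≤ ε * N := by
    refine hκ.trans ?_
    rw [hnβ]
    have e1 : N / β * (a / x) * β ^ 3 = N * (a / x * β ^ 2) := by
      field_simp
    rw [e1]
    have h2 : a / x * β ^ 2 ≤ a / x * Y ^ 2 := by
      apply mul_le_mul_of_nonneg_left _ hax0.le
      have : β ≤ Y := by linarith
      nlinarith
    nlinarith
  have hkn : ‖kD D (-(2 * a * ((β : ℝ) : ℂ) / x))‖ = Real.exp (-(N * β / 2) + κ.re) := by
    rw [hkD, Complex.norm_exp]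
    congr 1
    rw [Complex.add_re]
    congr 1
    have : (-(N * ((β : ℝ) : ℂ) ^ 2 / (2 * ((β : ℝ) : ℂ)))) = ((-(N * β / 2) : ℝ) : ℂ) := by
      push_cast
      have : ((β : ℝ) : ℂ) ≠ 0 := by exact_mod_cast hβ.ne'
      field_simp
    rw [← hβdef, this, Complex.ofReal_re]
  have hκ3 : -(ε * N) ≤ κ.re := by
    have := (abs_le.1 (Complex.abs_re_le_norm κ)).1
    linarith
  have hF : ‖FF D x a g w (β : ℝ)‖ = Real.exp (-(N * β / 2) + κ.re) * ‖g (om x a w')‖ := by
    unfold FF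
    rw [norm_mul, hkn, hwp1]
  rw [hF]
  have hg2 : ‖g (om x a w)‖ ≤ Real.exp (-(N * β) + (B + 2) * ε * N) * ‖g (om x a w')‖ := by
    refine hlin.trans ?_
    apply mul_le_mul_of_nonneg_right _ (norm_nonneg _)
    apply Real.exp_le_exp.2
    have h1 : N * (w.re - w'.re) ≤ N * (-β + ε / 100) := by
      apply mul_le_mul_of_nonneg_left _ hN.le
      linarith [hre.1]
    have h2 : ε * N * ‖w - w'‖ ≤ ε * N * (B + 1) :=
      mul_le_mul_of_nonneg_left hww (by positivity)
    nlinarith [mul_pos he hN]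
  calc Real.exp (N * β / 2 - (B + 3) * ε * N) * ‖g (om x a w)‖
      ≤ Real.exp (N * β / 2 - (B + 3) * ε * N) *
        (Real.exp (-(N * β) + (B + 2) * ε * N) * ‖g (om x a w')‖) :=
        mul_le_mul_of_nonneg_left hg2 (Real.exp_pos _).le
    _ = Real.exp (-(N * β / 2) - ε * N) * ‖g (om x a w')‖ := by
        rw [← mul_assoc, ← Real.exp_add]
        congr 2
        ring
    _ ≤ _ := by
        apply mul_le_mul_of_nonneg_right _ (norm_nonneg _)
        apply Real.exp_le_exp.2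
        linarith

/-! ## The other parts -/

theorem RTlow_mono (C₁ B Y₀ Y₁ ε : ℝ) (D : ℕ) (N b Y x a : ℝ) (g : ℂ → ℂ) (hY : Y₀ ≤ Y₁)
    (h : Ctx C₁ B Y₁ ε D N b Y x a g) : Ctx C₁ B Y₀ ε D N b Y x a g :=
  ⟨h.e0, h.e1, h.N1, h.b1, h.Yb, hY.trans h.Y0, h.a0, h.x0, h.ax, h.D1, h.bB, h.reg⟩

/-- the common bound of the other parts -/
theorem RTlow_rest (hU : S_ptU) (hL : S_ptL) (hF : S_ptF) (C₁ B : ℝ) (hC₁ : 1 ≤ C₁) (hB : 1 ≤ B) :
    ∃ Y₀ : ℝ, 10 * B ≤ Y₀ ∧ ∀ (ε : ℝ) (D : ℕ)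
      (N b Y x a : ℝ) (g : ℂ → ℂ), Ctx C₁ B Y₀ ε D N b Y x a g → ∀ w : ℂ, R1 b Y w →
      Real.sqrt (bet D N x a / N) * 0 ≤ 0 ∧
      ‖∫ v in (-(Real.pi * x / (2 * a)))..(-(1 / 10 : ℝ)), FF D x a g w (v : ℂ)‖ +
      ‖∫ v in (bet D N x a + 1)..(Real.pi * x / (2 * a)), FF D x a g w (v : ℂ)‖ ≤
      32 * Real.sqrt (bet D N x a / N) *
        (Real.exp (N * bet D N x a / 2 + (2 + 3 * B) * ε * N - N / (8 * B)) *
          ‖g (om x a w)‖) := by
  obtain ⟨YU, -, hU⟩ := hU C₁ B hC₁ hB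
  obtain ⟨YL, -, hL⟩ := hL C₁ B hC₁ hB
  obtain ⟨YF, -, hF⟩ := hF C₁ B hC₁ hB
  refine ⟨max (10 * B) (max YU (max YL YF)), le_max_left _ _, ?_⟩
  intro ε D N b Y x a g h w hw
  obtain ⟨hβ, hβB, hY1, hax, -⟩ := RTlow_ctx C₁ B _ ε D N b Y x a g hB (le_max_left _ _) h
  have hUh := hU ε D N b Y x a g (RTlow_mono _ _ _ _ _ _ _ _ _ _ _ _
    ((le_max_left _ _).trans (le_max_right _ _)) h) w hw w
  have hLh := hL ε D N b Y x a g (RTlow_mono _ _ _ _ _ _ _ _ _ _ _ _
    ((le_max_left _ _).trans ((le_max_right _ _).trans (le_max_right _ _))) h) w hw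
  have hFh := hF ε D N b Y x a g (RTlow_mono _ _ _ _ _ _ _ _ _ _ _ _
    ((le_max_right _ _).trans ((le_max_right _ _).trans (le_max_right _ _))) h) w hw w
  set β := bet D N x a with hβdef
  have hx := h.x0
  have ha := h.a0
  have he := h.e0
  have he1 := h.e1
  have hb1 := h.b1
  have hYb := h.Yb
  have hN1 := h.N1
  have hN : 0 < N := by linarith
  have hYp : 0 < Y := by linarith
  have hw0 : R0 b Y w := ⟨by have := hw.1; linarith, hw.2.1, hw.2.2⟩
  have hUh := hUh hw0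
  have hFh := hFh hw0
  have hcont := RTlow_cont D x a g w h.reg.diff
  set Z := Real.pi * x / (2 * a) with hZ
  have hZY : Y / 2 ≤ Z := by
    have h1 : 1000 * Y ^ 2 * a ≤ x := by
      have h2 := h.ax
      have h3 : ε * x ≤ x := by nlinarith
      nlinarith
    have h4 : Y * a ≤ x := by
      have : Y * a ≤ 1000 * Y ^ 2 * a := by
        apply mul_le_mul_of_nonneg_right _ ha.le
        nlinarith
      linarith
    rw [hZ, div_le_div_iff₀ (by norm_num) (by positivity)]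
    nlinarith [Real.pi_gt_three, mul_pos Real.pi_pos hx]
  have hav : ∀ v : ℝ, |v| ≤ Z → 2 * a * |v| ≤ Real.pi * x := by
    intro v hv
    rw [hZ, le_div_iff₀ (by positivity)] at hv
    linarith
  set c : ℝ := N / (20 * β) with hc
  have hc0 : 0 < c := by positivity
  set K : ℝ := Real.exp (N * β / 2 + (2 + 3 * B) * ε * N - N / (8 * B)) * ‖g (om x a w)‖ with hK
  have hK0 : 0 ≤ K := by positivity
  have hsq : Real.sqrt (Real.pi / c) ≤ 8 * Real.sqrt (β / N) := by
    have e1 : 8 * Real.sqrt (β / N) = Real.sqrt (64 * (β / N)) := by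
      rw [Real.sqrt_mul (by norm_num), show (64 : ℝ) = 8 ^ 2 by norm_num,
        Real.sqrt_sq (by norm_num)]
    rw [e1]
    apply Real.sqrt_le_sqrt
    rw [hc, div_div_eq_mul_div]
    have h1 : Real.pi ≤ 3.2 := by linarith [Real.pi_lt_d2]
    rw [← mul_div_assoc]
    apply div_le_div_of_nonneg_right _ hN.le
    nlinarith
  have h8B : N / (8 * B) ≤ N / (8 * β) := by
    apply div_le_div_of_nonneg_left hN.le (by positivity)
    linarith
  have h8B1 : N / (8 * B) ≤ N / 8 := by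
    apply div_le_div_of_nonneg_left hN.le (by norm_num)
    linarith
  have hεβ : 3 * ε * β * N ≤ 3 * B * ε * N := by
    have := mul_le_mul_of_nonneg_left hβB (by positivity : 0 ≤ 3 * ε * N)
    nlinarith
  -- far
  have hfar : ∀ v : ℝ, Y / 2 ≤ |v| → |v| ≤ Z →
      ‖FF D x a g w (v : ℂ)‖ ≤ K * Real.exp (-(c * (v - 0) ^ 2)) := by
    intro v hv1 hv2
    refine (hFh v hv1 (hav v hv2)).trans ?_
    rw [hK, mul_comm (Real.exp _) ‖g (om x a w)‖, mul_assoc ‖g (om x a w)‖, ← Real.exp_add]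
    apply mul_le_mul_of_nonneg_left _ (norm_nonneg _)
    apply Real.exp_le_exp.2
    have h1 : N * v ^ 2 / (10 * β) = c * v ^ 2 + N * v ^ 2 / (20 * β) := by
      rw [hc]; field_simp; ring
    have h2 : N / (8 * B) ≤ N * v ^ 2 / (20 * β) := by
      refine h8B.trans ?_
      rw [div_le_div_iff₀ (by positivity) (by positivity)]
      have h3 : 3 ≤ v ^ 2 := by
        rw [← sq_abs]
        nlinarith
      nlinarith [mul_pos hN hβ]
    have h4 : 0 ≤ (2 + 3 * B) * ε * N := by positivity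
    have h5 : 0 ≤ N * β / 2 := by positivity
    rw [h1, sub_zero]
    linarith
  -- right
  have hright : ∀ v : ℝ, β + 1 ≤ v → v ≤ Y / 2 →
      ‖FF D x a g w (v : ℂ)‖ ≤ K * Real.exp (-(c * (v - β) ^ 2)) := by
    intro v hv1 hv2
    have hvp : 0 < v := by linarith
    refine (hUh v (by rw [abs_of_pos hvp]; exact hv2)).trans ?_
    rw [hK, mul_comm (Real.exp _) ‖g (om x a w)‖, mul_assoc ‖g (om x a w)‖, ← Real.exp_add]
    apply mul_le_mul_of_nonneg_left _ (norm_nonneg _)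
    apply Real.exp_le_exp.2
    rw [abs_of_pos hvp, sub_self, sub_self, norm_zero]
    have h1 := mul_le_mul_of_nonneg_left (RTlow_exp β ε v hβ he he1) hN.le
    have h2 : N * ((v - β) ^ 2 / (4 * β)) = c * (v - β) ^ 2 + N / (5 * β) * (v - β) ^ 2 := by
      rw [hc]; field_simp; ring
    have h3 : N / (8 * β) ≤ N / (5 * β) * (v - β) ^ 2 := by
      have h4 : N / (8 * β) ≤ N / (5 * β) := by
        apply div_le_div_of_nonneg_left hN.le (by positivity)
        linarith
      have h5 : 1 ≤ (v - β) ^ 2 := by nlinarith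
      have h6 : 0 < N / (5 * β) := by positivity
      nlinarith
    nlinarith
  -- left
  have hleft : ∀ v : ℝ, -(Y / 2) ≤ v → v ≤ -(1 / 10) →
      ‖FF D x a g w (v : ℂ)‖ ≤ K * Real.exp (-(c * (v - (-β)) ^ 2)) := by
    intro v hv1 hv2
    have hvp : v < 0 := by linarith
    refine (hLh v hv1 hv2).trans ?_
    rw [hK, mul_comm (Real.exp _) ‖g (om x a w)‖, mul_assoc ‖g (om x a w)‖, ← Real.exp_add]
    apply mul_le_mul_of_nonneg_left _ (norm_nonneg _)
    apply Real.exp_le_exp.2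
    have h1 := mul_le_mul_of_nonneg_left (RTlow_exp β ε |v| hβ he he1) hN.le
    have h2 : N * ((|v| - β) ^ 2 / (4 * β)) = c * (v - (-β)) ^ 2 +
        N / (5 * β) * (v - (-β)) ^ 2 := by
      rw [hc, abs_of_neg hvp]; field_simp; ring
    have h3 : 0 ≤ N / (5 * β) * (v - (-β)) ^ 2 := by positivity
    have h4 : (1 - ε) * |v| ^ 2 / (2 * β) = (1 - ε) * v ^ 2 / (2 * β) := by rw [sq_abs]
    rw [h4] at h1
    nlinarith
  have hi : ∀ p q : ℝ, IntervalIntegrable (fun v : ℝ => FF D x a g w (v : ℂ)) volume p q :=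
    fun p q => hcont.intervalIntegrable p q
  have b1 := RTlow_piece (fun v : ℝ => FF D x a g w (v : ℂ)) c 0 (-Z) (-(Y / 2)) K hc0
    (by linarith) hK0 (fun v hv1 hv2 => hfar v
      (by rw [abs_of_neg (by linarith)]; linarith) (by rw [abs_of_neg (by linarith)]; linarith))
  have b2 := RTlow_piece (fun v : ℝ => FF D x a g w (v : ℂ)) c (-β) (-(Y / 2)) (-(1 / 10)) K hc0
    (by linarith) hK0 hleft
  have b4 := RTlow_piece (fun v : ℝ => FF D x a g w (v : ℂ)) c β (β + 1) (Y / 2) K hc0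
    (by linarith) hK0 hright
  have b5 := RTlow_piece (fun v : ℝ => FF D x a g w (v : ℂ)) c 0 (Y / 2) Z K hc0
    hZY hK0 (fun v hv1 hv2 => hfar v
      (by rw [abs_of_pos (by linarith)]; linarith) (by rw [abs_of_pos (by linarith)]; linarith))
  have s1 := intervalIntegral.integral_add_adjacent_intervals (hi (-Z) (-(Y / 2)))
    (hi (-(Y / 2)) (-(1 / 10)))
  have s2 := intervalIntegral.integral_add_adjacent_intervals (hi (β + 1) (Y / 2)) (hi (Y / 2) Z)
  have hKs : K * Real.sqrt (Real.pi / c) ≤ K * (8 * Real.sqrt (β / N)) :=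
    mul_le_mul_of_nonneg_left hsq hK0
  refine ⟨by simp, ?_⟩
  rw [← s1, ← s2]
  have n1 := norm_add_le (∫ v in (-Z)..(-(Y / 2)), FF D x a g w (v : ℂ))
    (∫ v in (-(Y / 2))..(-(1 / 10)), FF D x a g w (v : ℂ))
  have n2 := norm_add_le (∫ v in (β + 1)..(Y / 2), FF D x a g w (v : ℂ))
    (∫ v in (Y / 2)..Z, FF D x a g w (v : ℂ))
  have hfin : 32 * Real.sqrt (β / N) * K = 4 * (K * (8 * Real.sqrt (β / N))) := by ring
  rw [hfin]
  linarith

/-! ## The lower bound -/

theorem p_RTlow (h1 : S_KL) (h2 : S_rep) (h3 : S_cD) (h4 : S_Fd) (h5 : S_ptU) (h6 : S_ptL)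
    (h7 : S_ptF) (h8 : S_wp) (h9 : S_kr) : S_RTlow := by
  intro C₁ B hC₁ hB
  obtain ⟨εK, NK, CK, hεK, hNK, hCK, hKL⟩ := h1 B hB
  obtain ⟨Yd, -, hFd⟩ := h4 B hB
  obtain ⟨Cc, hCc, hcD⟩ := h3
  obtain ⟨Yr, hYr, hrest⟩ := RTlow_rest h5 h6 h7 C₁ B hC₁ hB
  set Q : ℝ := 2 * CK + 4 * B + 5 with hQ
  have hQ0 : 0 < Q := by positivity
  refine ⟨2 * Cc * CK + 2 * CK + B + 3, max Yr Yd, min (εK / 2) (1 / (16 * B * Q)),
    max NK (1024 * B * CK), by nlinarith, (by linarith : (1 : ℝ) ≤ Yr).trans (le_max_left _ _),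
    lt_min (by linarith) (by positivity), hNK.trans (le_max_left _ _), ?_⟩
  intro ε D N b Y x a g hε hN0 h w hw
  have hε1 : 2 * ε ≤ εK := by linarith [hε.trans (min_le_left _ _)]
  have hε2 : Q * ε ≤ 1 / (16 * B) := by
    have h1 := mul_le_mul_of_nonneg_left (hε.trans (min_le_right _ _)) hQ0.le
    have h2 : Q * (1 / (16 * B * Q)) = 1 / (16 * B) := by field_simp
    linarith
  have hN1 : NK ≤ N := (le_max_left _ _).trans hN0
  have hN2 : 1024 * B * CK ≤ N := (le_max_right _ _).trans hN0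
  have hr := RTlow_mono _ _ _ _ _ _ _ _ _ _ _ _ (le_max_left Yr Yd) h
  have hd := RTlow_mono _ _ _ _ _ _ _ _ _ _ _ _ (le_max_right Yr Yd) h
  obtain ⟨hβ, hβB, hY1, hax, hsc⟩ := RTlow_ctx C₁ B _ ε D N b Y x a g hB hYr hr
  have hval := RTlow_val h8 h9 C₁ B _ ε D N b Y x a g hB hYr hr w hw
  obtain ⟨-, hR⟩ := hrest ε D N b Y x a g hr w hw
  have hrepr := RTlow_rep h2 D x a g w h.D1 h.x0 h.a0 h.reg.diff
  have hcont := RTlow_cont D x a g w h.reg.diff
  have hx := h.x0
  have ha := h.a0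
  have he := h.e0
  have hNp : 0 < N := by linarith [h.N1]
  have hD0 : (0 : ℝ) < D := by exact_mod_cast h.D1
  have hmain := (hKL N (bet D N x a) (2 * ε) (-(1 / 10)) (bet D N x a + 1) (FF D x a g w) hN1 hβ
    hβB (by linarith) hε1 (by linarith) (by linarith) le_rfl (by linarith) (by
      intro v hv1 hv2 hv3
      exact hFd C₁ ε D N b Y x a g hd w hw v hv1 (by linarith) hv3)).1
  set β := bet D N x a with hβdef
  set Z := Real.pi * x / (2 * a) with hZ
  set G := ‖g (om x a w)‖ with hG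
  have hG0 : 0 ≤ G := norm_nonneg _
  set S := Real.sqrt (β / N) with hS
  have hS0 : 0 < S := Real.sqrt_pos.2 (by positivity)
  have hi : ∀ p q : ℝ, IntervalIntegrable (fun v : ℝ => FF D x a g w (v : ℂ)) volume p q :=
    fun p q => hcont.intervalIntegrable p q
  have s1 := intervalIntegral.integral_add_adjacent_intervals (hi (-Z) (-(1 / 10)))
    (hi (-(1 / 10)) (β + 1))
  have s2 := intervalIntegral.integral_add_adjacent_intervals (hi (-Z) (β + 1)) (hi (β + 1) Z)
  set I1 := ∫ v in (-Z)..(-(1 / 10 : ℝ)), FF D x a g w (v : ℂ) with hI1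
  set I2 := ∫ v in (-(1 / 10 : ℝ))..(β + 1), FF D x a g w (v : ℂ) with hI2
  set I3 := ∫ v in (β + 1)..Z, FF D x a g w (v : ℂ) with hI3
  set E := Real.exp (N * β / 2 - (2 * CK + B + 3) * ε * N) with hE
  have hE0 : 0 < E := Real.exp_pos _
  -- main part
  have hm : S / CK * E * G ≤ ‖I2‖ := by
    refine le_trans ?_ hmain
    have e1 : S / CK * E * G = S / CK * Real.exp (-(CK * (2 * ε) * N)) *
        (Real.exp (N * β / 2 - (B + 3) * ε * N) * G) := by
      have : E = Real.exp (-(CK * (2 * ε) * N)) * Real.exp (N * β / 2 - (B + 3) * ε * N) := by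
        rw [hE, ← Real.exp_add]
        congr 1
        ring
      rw [this]
      ring
    rw [e1]
    exact mul_le_mul_of_nonneg_left hval (by positivity)
  -- rest
  have hrest2 : 32 * S * (Real.exp (N * β / 2 + (2 + 3 * B) * ε * N - N / (8 * B)) * G) ≤
      S / (2 * CK) * E * G := by
    have e1 : Real.exp (N * β / 2 + (2 + 3 * B) * ε * N - N / (8 * B)) ≤ E / (64 * CK) := by
      rw [le_div_iff₀ (by positivity)]
      have h1 : 64 * CK ≤ Real.exp (N / (16 * B)) := by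
        have h2 := Real.add_one_le_exp (N / (16 * B))
        have h3 : 64 * CK ≤ N / (16 * B) := by
          rw [le_div_iff₀ (by positivity)]
          nlinarith
        linarith
      calc Real.exp (N * β / 2 + (2 + 3 * B) * ε * N - N / (8 * B)) * (64 * CK)
          ≤ Real.exp (N * β / 2 + (2 + 3 * B) * ε * N - N / (8 * B)) *
            Real.exp (N / (16 * B)) := mul_le_mul_of_nonneg_left h1 (Real.exp_pos _).le
        _ ≤ E := by
          rw [← Real.exp_add, hE]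
          apply Real.exp_le_exp.2
          have h4 : N * (Q * ε) ≤ N * (1 / (16 * B)) := mul_le_mul_of_nonneg_left hε2 hNp.le
          have h5 : N / (8 * B) = N * (1 / (16 * B)) + N / (16 * B) := by
            field_simp
            ring
          rw [h5, hQ] at *
          nlinarith
    have h6 : 32 * S * (Real.exp (N * β / 2 + (2 + 3 * B) * ε * N - N / (8 * B)) * G) ≤
        32 * S * (E / (64 * CK) * G) := by
      apply mul_le_mul_of_nonneg_left _ (by positivity)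
      exact mul_le_mul_of_nonneg_right e1 hG0
    have h7 : 32 * S * (E / (64 * CK) * G) = S / (2 * CK) * E * G := by
      field_simp
      ring
    linarith
  have htot : S / (2 * CK) * E * G ≤ ‖∫ v in (-Z)..Z, FF D x a g w (v : ℂ)‖ := by
    rw [← s2, ← s1]
    have n1 : ‖I2‖ ≤ ‖I1 + I2 + I3‖ + (‖I1‖ + ‖I3‖) := by
      have e2 : I2 = (I1 + I2 + I3) - (I1 + I3) := by ring
      calc ‖I2‖ = ‖(I1 + I2 + I3) - (I1 + I3)‖ := by rw [← e2]
        _ ≤ ‖I1 + I2 + I3‖ + ‖I1 + I3‖ := norm_sub_le _ _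
        _ ≤ _ := by linarith [norm_add_le I1 I3]
    have e3 : S / CK * E * G = S / (2 * CK) * E * G + S / (2 * CK) * E * G := by
      field_simp
      ring
    linarith
  -- conclusion
  rw [hrepr, norm_mul, norm_mul, Complex.norm_real, Complex.norm_real,
    Real.norm_of_nonneg (by positivity : 0 ≤ 2 * a / x)]
  have hcl := (hcD D h.D1).1
  have hsD : 0 < Real.sqrt D := Real.sqrt_pos.2 hD0
  have hcD0 : 0 ≤ cD D := le_trans (by positivity) hcl
  rw [Real.norm_of_nonneg hcD0]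
  have hlow : 1 / (2 * Cc * CK) * E * G ≤
      cD D * (2 * a / x) * ‖∫ v in (-Z)..Z, FF D x a g w (v : ℂ)‖ := by
    have e4 : 1 / (2 * Cc * CK) * E * G =
        Real.sqrt D / Cc * (2 * a / x) * (S / (2 * CK) * E * G) := by
      have e5 : Real.sqrt D / Cc * (2 * a / x) * (S / (2 * CK) * E * G) =
          Real.sqrt D / Cc * (2 * a / x * S) * (1 / (2 * CK) * E * G) := by ring
      rw [e5, hsc]
      field_simp
    rw [e4]
    have hm1 : Real.sqrt D / Cc * (2 * a / x) ≤ cD D * (2 * a / x) :=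
      mul_le_mul_of_nonneg_right hcl (by positivity)
    exact mul_le_mul hm1 htot (by positivity) (by positivity)
  refine le_trans ?_ hlow
  apply mul_le_mul_of_nonneg_right _ hG0
  have hCpos : 0 < 2 * Cc * CK := by positivity
  have h10 : Real.exp (N * β / 2 - (2 * Cc * CK + 2 * CK + B + 3) * ε * N) ≤ E := by
    rw [hE]
    apply Real.exp_le_exp.2
    have : 0 ≤ 2 * Cc * CK * (ε * N) := by positivity
    nlinarith
  calc Real.exp (N * β / 2 - (2 * Cc * CK + 2 * CK + B + 3) * ε * N) /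
        (2 * Cc * CK + 2 * CK + B + 3) ≤ E / (2 * Cc * CK) := by
        apply div_le_div₀ hE0.le h10 hCpos
        linarith
    _ = 1 / (2 * Cc * CK) * E := by ring

end Pool.Agent.Lib.MP_cd509c_nt.JD
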