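import Pool.Agent.Lib.MP_cd509c_nt.JD.StmK

/-!
# JD: the tail bound of the Jensen transform (piece RTtail)
-/

set_option autoImplicit false

namespace Pool.Agent.Lib.MP_cd509c_nt.JD

open Complex ComplexConjugate MeasureTheory
open Pool.Agent.Lib.MP_cd509c_nt.DN

theorem RTtail_gauss {κ : ℝ} (hκ : 0 < κ) (c : ℝ) :
    IntervalIntegrable (fun φ : ℝ => Real.exp (-(κ * (φ - c) ^ 2))) volume (-Real.pi) Real.pi ∧
    ∫ φ in (-Real.pi)..Real.pi, Real.exp (-(κ * (φ - c) ^ 2)) ≤ Real.sqrt (Real.pi / κ) := by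
  have hc : Continuous (fun φ : ℝ => Real.exp (-(κ * (φ - c) ^ 2))) := by fun_prop
  have h0 : Integrable (fun φ : ℝ => Real.exp (-κ * φ ^ 2)) := integrable_exp_neg_mul_sq hκ
  have h1 : Integrable (fun φ : ℝ => Real.exp (-(κ * (φ - c) ^ 2))) := by
    have := h0.comp_sub_right c
    refine this.congr (Filter.Eventually.of_forall fun φ => ?_)
    simp only
    congr 1
    ring
  refine ⟨hc.intervalIntegrable _ _, ?_⟩
  rw [intervalIntegral.integral_of_le (by linarith [Real.pi_pos])]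
  refine (setIntegral_le_integral h1 (Filter.Eventually.of_forall fun φ =>
    (Real.exp_pos _).le)).trans (le_of_eq ?_)
  have h2 : ∫ φ : ℝ, Real.exp (-(κ * (φ - c) ^ 2)) = ∫ φ : ℝ, Real.exp (-κ * φ ^ 2) := by
    rw [← integral_sub_right_eq_self (fun φ : ℝ => Real.exp (-κ * φ ^ 2)) c]
    refine integral_congr_ae (Filter.Eventually.of_forall fun φ => ?_)
    simp only
    congr 1
    ring
  rw [h2, integral_gaussian]

/-- the kernel -/
theorem RTtail_ker (h : S_kr) {D : ℕ} (hD : 1 ≤ D) {φ : ℝ} (hφ : |φ| ≤ Real.pi) :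
    ‖kD D φ‖ ≤ Real.exp (-((D : ℝ) / 5 * φ ^ 2)) := by
  have hD' : (0 : ℝ) < D := by exact_mod_cast hD
  have h1 := ((h D 1 1 (1 / 2) hD one_pos (by norm_num) one_pos).2 (-φ) (by
    rw [abs_neg]
    linarith)).1
  have e1 : (-(2 * ((1 / 2 : ℝ) : ℂ) * ((-φ : ℝ) : ℂ) / ((1 : ℝ) : ℂ)) : ℂ) = (φ : ℂ) := by
    push_cast
    ring
  rw [e1] at h1
  refine h1.trans (le_of_eq ?_)
  congr 1
  unfold bet
  field_simp
  ring

theorem RTtail_conj (x a : ℝ) (v : ℂ) : om x a (-conj v) = conj (om x a v) := by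
  unfold om
  simp only [map_sub, map_mul, map_pow, Complex.conj_ofReal, Complex.conj_I, map_ofNat]
  ring

/-- the point of the local coordinate -/
theorem RTtail_pt {x a : ℝ} (ha : 0 < a) (hx : 0 < x) (v₀ : ℂ) (φ : ℝ) : ∃ v : ℂ, 0 ≤ v.re ∧
    (om x a v = om x a v₀ * cexp (φ * I) ∨ om x a v = conj (om x a v₀ * cexp (φ * I))) ∧
    ‖v‖ ≤ ‖v₀‖ + x / (2 * a) * |φ| := by
  obtain ⟨v', hv'⟩ : ∃ v' : ℂ, v' = v₀ * cexp (φ * I) + I * x / (2 * a) * (cexp (φ * I) - 1) :=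
    ⟨_, rfl⟩
  have hac : (a : ℂ) ≠ 0 := by exact_mod_cast ha.ne'
  have h1 : om x a v' = om x a v₀ * cexp (φ * I) := by
    unfold om
    rw [hv']
    have e1 : 2 * I * (a : ℂ) * x * (v₀ * cexp (φ * I) + I * x / (2 * a) * (cexp (φ * I) - 1)) =
        2 * I * a * x * v₀ * cexp (φ * I) + I ^ 2 * x ^ 2 * (cexp (φ * I) - 1) := by
      field_simp
    rw [e1, Complex.I_sq]
    ring
  have h2 : ‖v'‖ ≤ ‖v₀‖ + x / (2 * a) * |φ| := by
    rw [hv']
    refine (norm_add_le _ _).trans ?_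
    rw [norm_mul, norm_mul, Complex.norm_exp_ofReal_mul_I, mul_one]
    have e2 : ‖(I * x / (2 * a) : ℂ)‖ = x / (2 * a) := by
      rw [norm_div, norm_mul, norm_mul, Complex.norm_I, one_mul, Complex.norm_real,
        Complex.norm_real, Real.norm_of_nonneg hx.le, Real.norm_of_nonneg ha.le]
      norm_num
    rw [e2]
    have e3 : ‖cexp (φ * I) - 1‖ ≤ |φ| := by
      have := Real.norm_exp_I_mul_ofReal_sub_one_le (x := φ)
      rw [mul_comm] at this
      simpa using this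
    have e4 : 0 ≤ x / (2 * a) := by positivity
    have := mul_le_mul_of_nonneg_left e3 e4
    linarith
  rcases le_or_gt 0 v'.re with h3 | h3
  · exact ⟨v', h3, Or.inl h1, h2⟩
  · refine ⟨-conj v', ?_, Or.inr ?_, ?_⟩
    · simp only [Complex.neg_re, Complex.conj_re]
      linarith
    · rw [RTtail_conj, h1]
    · rw [norm_neg, Complex.norm_conj]
      exact h2

theorem p_RTtail (h1 : S_rep) (h2 : S_cD) (h3 : S_kr) : S_RTtail := by
  obtain ⟨Cd, hCd1, hCd⟩ := h2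
  intro C₁ B hC₁ hB
  obtain ⟨C, hC⟩ : ∃ C : ℝ, C = Cd * Real.sqrt (10 * Real.pi) + (3 * C₁ + 5 / 2 * C₁ ^ 2 * B) :=
    ⟨_, rfl⟩
  have hs1 : 1 ≤ Real.sqrt (10 * Real.pi) := by
    rw [Real.one_le_sqrt]
    linarith [Real.pi_gt_three]
  have hCa : Cd * Real.sqrt (10 * Real.pi) ≤ C := by
    rw [hC]
    have : 0 ≤ 3 * C₁ + 5 / 2 * C₁ ^ 2 * B := by positivity
    linarith
  have hCb : 3 * C₁ + 5 / 2 * C₁ ^ 2 * B ≤ C := by
    rw [hC]
    have : 0 ≤ Cd * Real.sqrt (10 * Real.pi) := by positivity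
    linarith
  refine ⟨C, 1, ?_, le_rfl, ?_⟩
  · refine le_trans ?_ hCb
    have : 0 ≤ 5 / 2 * C₁ ^ 2 * B := by positivity
    linarith
  intro ε D N b Y x a g hctx w hw v₀ hv0 hv1
  obtain ⟨he0, he1, hN1, hb1, hYb, hY0, ha0, hx0, hax, hD1, hbB, hreg⟩ := hctx
  obtain ⟨hw1, hw2, hw3⟩ := hw
  have hD' : (0 : ℝ) < D := by exact_mod_cast hD1
  have hN0 : 0 < N := by linarith
  have hY1 : 160 ≤ Y := by linarith
  -- the norm of `w`
  have hwn : ‖w‖ ≤ Y := by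
    refine (Complex.norm_le_abs_re_add_abs_im w).trans ?_
    have : |w.re| ≤ Y / 4 + b := abs_le.2 ⟨by linarith, hw2⟩
    linarith
  -- the point `om v₀` is not small
  have hom : x ^ 2 / 2 ≤ ‖om x a v₀‖ := by
    have e1 : (om x a v₀).re = x ^ 2 + 2 * a * x * v₀.im := by
      unfold om
      simp only [Complex.sub_re, Complex.mul_re, Complex.mul_im, Complex.I_re, Complex.I_im,
        Complex.ofReal_re, Complex.ofReal_im, Complex.re_ofNat, Complex.im_ofNat, pow_two]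
      ring
    have e2 : 84 * (a * b) ≤ x := by
      have e3 : 84 * b ≤ Y ^ 2 := by nlinarith
      have e4 := mul_le_mul_of_nonneg_left e3 ha0.le
      have e5 : ε * x ≤ x := by nlinarith
      nlinarith [sq_nonneg Y]
    have e3 : -(21 * b) ≤ v₀.im := (abs_le.1 hv1).1
    have e4 : x ^ 2 / 2 ≤ (om x a v₀).re := by
      rw [e1]
      have e5 : 2 * a * x * (-(21 * b)) ≤ 2 * a * x * v₀.im :=
        mul_le_mul_of_nonneg_left e3 (by positivity)
      have e6 := mul_le_mul_of_nonneg_left e2 hx0.le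
      nlinarith
    exact e4.trans (Complex.re_le_norm _)
  obtain ⟨K, hK⟩ : ∃ K : ℝ, K = Real.exp (C₁ * N * (‖v₀ - w‖ + 3 * Y)) * ‖g (om x a w)‖ :=
    ⟨_, rfl⟩
  have hK0 : 0 ≤ K := by
    rw [hK]
    positivity
  -- values of `g`
  have hg : ∀ φ : ℝ, ‖g (om x a v₀ * cexp (φ * I))‖ ≤
      K * Real.exp (C₁ * N * (x / (2 * a) * |φ|)) := by
    intro φ
    obtain ⟨v, hvre, hvom, hvn⟩ := RTtail_pt ha0 hx0 v₀ φ
    have e1 : ‖g (om x a v)‖ = ‖g (om x a v₀ * cexp (φ * I))‖ := by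
      rcases hvom with h | h
      · rw [h]
      · rw [h, hreg.real, Complex.norm_conj]
    have e2 : ‖om x a v‖ = ‖om x a v₀‖ := by
      rcases hvom with h | h
      · rw [h, norm_mul, Complex.norm_exp_ofReal_mul_I, mul_one]
      · rw [h, Complex.norm_conj, norm_mul, Complex.norm_exp_ofReal_mul_I, mul_one]
    have e3 := hreg.glob w v (by linarith) (by linarith) (by linarith) hvre (by rw [e2]; exact hom)
    rw [e1] at e3
    refine e3.trans ?_
    have e0 : K * Real.exp (C₁ * N * (x / (2 * a) * |φ|)) =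
        Real.exp (C₁ * N * (‖v₀ - w‖ + 3 * Y) + C₁ * N * (x / (2 * a) * |φ|)) *
          ‖g (om x a w)‖ := by
      rw [hK, Real.exp_add]
      ring
    rw [e0]
    refine mul_le_mul_of_nonneg_right (Real.exp_le_exp.2 ?_) (norm_nonneg _)
    have e4 : ‖v - w‖ ≤ ‖v₀ - w‖ + 2 * ‖w‖ + x / (2 * a) * |φ| := by
      have e5 : ‖v - w‖ ≤ ‖v‖ + ‖w‖ := norm_sub_le _ _
      have e6 : ‖v₀‖ ≤ ‖v₀ - w‖ + ‖w‖ := by
        have := norm_add_le (v₀ - w) w
        rwa [sub_add_cancel] at this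
      linarith
    have e7 : ‖v - w‖ + Y ≤ (‖v₀ - w‖ + 3 * Y) + x / (2 * a) * |φ| := by linarith
    have e8 : 0 ≤ C₁ * N := by positivity
    rw [← mul_add]
    exact mul_le_mul_of_nonneg_left e7 e8
  -- completing the square
  have hsq : ∀ φ : ℝ, C₁ * N * (x / (2 * a) * |φ|) ≤
      (D : ℝ) / 10 * φ ^ 2 + 5 / 2 * C₁ ^ 2 * B * N := by
    intro φ
    obtain ⟨q, hq⟩ : ∃ q : ℝ, q = C₁ * N * (x / (2 * a)) := ⟨_, rfl⟩
    have e1 : q ^ 2 ≤ C₁ ^ 2 * (B * D * N) := by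
      have e2 : q ^ 2 = C₁ ^ 2 * (N * (N * x ^ 2) / (4 * a ^ 2)) := by
        rw [hq]
        field_simp
        ring
      rw [e2]
      refine mul_le_mul_of_nonneg_left ?_ (sq_nonneg _)
      rw [div_le_iff₀ (by positivity)]
      have := mul_le_mul_of_nonneg_left hbB hN0.le
      nlinarith
    have e3 : C₁ * N * (x / (2 * a) * |φ|) = q * |φ| := by
      rw [hq]
      ring
    rw [e3]
    have e4 : q * |φ| ≤ (D : ℝ) / 10 * |φ| ^ 2 + 5 / 2 * (q ^ 2 / D) := by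
      have e5 : 0 ≤ (D : ℝ) / 10 * (|φ| - 5 * q / D) ^ 2 := by positivity
      have e6 : (D : ℝ) / 10 * (|φ| - 5 * q / D) ^ 2 =
          (D : ℝ) / 10 * |φ| ^ 2 - q * |φ| + 5 / 2 * (q ^ 2 / D) := by
        field_simp
        ring
      linarith
    rw [sq_abs] at e4
    have e7 : q ^ 2 / D ≤ C₁ ^ 2 * B * N := by
      rw [div_le_iff₀ hD']
      nlinarith
    linarith
  -- the integrand
  obtain ⟨K', hK'⟩ : ∃ K' : ℝ, K' = K * Real.exp (5 / 2 * C₁ ^ 2 * B * N) := ⟨_, rfl⟩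
  have hK'0 : 0 ≤ K' := by
    rw [hK']
    positivity
  have hpt : ∀ φ : ℝ, |φ| ≤ Real.pi → ‖kD D φ * g (om x a v₀ * cexp (φ * I))‖ ≤
      K' * Real.exp (-((D : ℝ) / 10 * (φ - 0) ^ 2)) := by
    intro φ hφ
    rw [norm_mul]
    refine (mul_le_mul (RTtail_ker h3 hD1 hφ) (hg φ) (norm_nonneg _) (Real.exp_pos _).le).trans ?_
    rw [hK', sub_zero]
    have e1 : Real.exp (-((D : ℝ) / 5 * φ ^ 2)) * (K * Real.exp (C₁ * N * (x / (2 * a) * |φ|))) =
        K * Real.exp (-((D : ℝ) / 5 * φ ^ 2) + C₁ * N * (x / (2 * a) * |φ|)) := by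
      rw [Real.exp_add]
      ring
    have e2 : K * Real.exp (5 / 2 * C₁ ^ 2 * B * N) * Real.exp (-((D : ℝ) / 10 * φ ^ 2)) =
        K * Real.exp (5 / 2 * C₁ ^ 2 * B * N + -((D : ℝ) / 10 * φ ^ 2)) := by
      rw [Real.exp_add]
      ring
    rw [e1, e2]
    refine mul_le_mul_of_nonneg_left (Real.exp_le_exp.2 ?_) hK0
    have := hsq φ
    linarith
  obtain ⟨hint, hle⟩ := RTtail_gauss (show (0 : ℝ) < (D : ℝ) / 10 by positivity) 0
  have hbd : ‖∫ φ in (-Real.pi)..Real.pi, kD D φ * g (om x a v₀ * cexp (φ * I))‖ ≤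
      K' * Real.sqrt (Real.pi / ((D : ℝ) / 10)) := by
    refine (intervalIntegral.norm_integral_le_of_norm_le (g := fun φ : ℝ =>
      K' * Real.exp (-((D : ℝ) / 10 * (φ - 0) ^ 2))) (by linarith [Real.pi_pos])
      (Filter.Eventually.of_forall fun φ hφ => ?_) (hint.const_mul K')).trans ?_
    · exact hpt φ (abs_le.2 ⟨hφ.1.le, hφ.2⟩)
    · rw [intervalIntegral.integral_const_mul]
      exact mul_le_mul_of_nonneg_left hle hK'0
  have hcD := (hCd D hD1).2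
  have hcD0 : 0 ≤ cD D := by
    unfold cD
    positivity
  rw [h1 D g (om x a v₀) hD1 hreg.diff, norm_mul, Complex.norm_real, Real.norm_of_nonneg hcD0]
  refine (mul_le_mul hcD hbd (norm_nonneg _) (by positivity)).trans ?_
  have hsD : Real.sqrt D * Real.sqrt (Real.pi / ((D : ℝ) / 10)) = Real.sqrt (10 * Real.pi) := by
    rw [← Real.sqrt_mul hD'.le]
    congr 1
    field_simp
  have e1 : Cd * Real.sqrt D * (K' * Real.sqrt (Real.pi / ((D : ℝ) / 10))) =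
      Cd * Real.sqrt (10 * Real.pi) * K' := by
    rw [← hsD]
    ring
  rw [e1]
  have e2 : K' ≤ Real.exp (C * N * (‖v₀ - w‖ + Y + (a * ‖v₀‖ / x) ^ 2)) * ‖g (om x a w)‖ := by
    rw [hK', hK, mul_right_comm, ← Real.exp_add]
    refine mul_le_mul_of_nonneg_right (Real.exp_le_exp.2 ?_) (norm_nonneg _)
    have e3 : 0 ≤ ‖v₀ - w‖ := norm_nonneg _
    have e4 : 0 ≤ (a * ‖v₀‖ / x) ^ 2 := sq_nonneg _
    have e5 : C₁ * (‖v₀ - w‖ + 3 * Y) + 5 / 2 * C₁ ^ 2 * B ≤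
        C * (‖v₀ - w‖ + Y + (a * ‖v₀‖ / x) ^ 2) := by
      have e6 : (3 * C₁ + 5 / 2 * C₁ ^ 2 * B) * (‖v₀ - w‖ + Y + (a * ‖v₀‖ / x) ^ 2) ≤
          C * (‖v₀ - w‖ + Y + (a * ‖v₀‖ / x) ^ 2) :=
        mul_le_mul_of_nonneg_right hCb (by positivity)
      refine le_trans ?_ e6
      have e7 : 0 ≤ C₁ := by linarith
      have e8 : 0 ≤ 5 / 2 * C₁ ^ 2 * B := by positivity
      have e9 : 5 / 2 * C₁ ^ 2 * B * 1 ≤
          5 / 2 * C₁ ^ 2 * B * (‖v₀ - w‖ + Y + (a * ‖v₀‖ / x) ^ 2) :=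
        mul_le_mul_of_nonneg_left (by linarith) e8
      have e10 : C₁ * (‖v₀ - w‖ + 3 * Y) ≤ 3 * C₁ * (‖v₀ - w‖ + Y + (a * ‖v₀‖ / x) ^ 2) := by
        have : ‖v₀ - w‖ + 3 * Y ≤ 3 * (‖v₀ - w‖ + Y + (a * ‖v₀‖ / x) ^ 2) := by linarith
        nlinarith [mul_le_mul_of_nonneg_left this e7]
      nlinarith
    have e11 := mul_le_mul_of_nonneg_left e5 hN0.le
    nlinarith
  calc Cd * Real.sqrt (10 * Real.pi) * K' ≤ C * K' := mul_le_mul_of_nonneg_right hCa hK'0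
    _ ≤ C * (Real.exp (C * N * (‖v₀ - w‖ + Y + (a * ‖v₀‖ / x) ^ 2)) * ‖g (om x a w)‖) :=
        mul_le_mul_of_nonneg_left e2 (by
          have : 0 ≤ Cd * Real.sqrt (10 * Real.pi) := by positivity
          linarith)
    _ = _ := by ring

end Pool.Agent.Lib.MP_cd509c_nt.JD
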