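import Pool.Agent.Lib.MP_cd509c_nt.JD.StmK

/-!
# JD: the upper bound of the Jensen transform (piece RTupp)
-/

set_option autoImplicit false

namespace Pool.Agent.Lib.MP_cd509c_nt.JD

open Complex ComplexConjugate MeasureTheory
open Pool.Agent.Lib.MP_cd509c_nt.DN

theorem RTupp_gauss {κ : ℝ} (hκ : 0 < κ) (c : ℝ) :
    IntervalIntegrable (fun φ : ℝ => Real.exp (-(κ * (φ - c) ^ 2))) volume (-Real.pi) Real.pi ∧
    ∫ φ in (-Real.pi)..Real.pi, Real.exp (-(κ * (φ - c) ^ 2)) ≤ Real.sqrt (Real.pi / κ) := by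
  have hc : Continuous (fun φ : ℝ => Real.exp (-(κ * (φ - c) ^ 2))) := by fun_prop
  have h0 : Integrable (fun φ : ℝ => Real.exp (-κ * φ ^ 2)) := integrable_exp_neg_mul_sq hκ
  have h1 : Integrable (fun φ : ℝ => Real.exp (-(κ * (φ - c) ^ 2))) := by
    have := h0.comp_sub_right c
    refine this.congr (Filter.Eventually.of_forall fun φ => ?_)
    simp only
    congr 1
    ring
  refine ⟨hc.intervalIntegrable _ _, ?_⟩
  rw [intervalIntegral.integral_of_le (by linarith [Real.pi_pos])]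
  refine (setIntegral_le_integral h1 (Filter.Eventually.of_forall fun φ =>
    (Real.exp_pos _).le)).trans (le_of_eq ?_)
  have h2 : ∫ φ : ℝ, Real.exp (-(κ * (φ - c) ^ 2)) = ∫ φ : ℝ, Real.exp (-κ * φ ^ 2) := by
    rw [← integral_sub_right_eq_self (fun φ : ℝ => Real.exp (-κ * φ ^ 2)) c]
    refine integral_congr_ae (Filter.Eventually.of_forall fun φ => ?_)
    simp only
    congr 1
    ring
  rw [h2, integral_gaussian]

/-- completing the square -/
theorem RTupp_sq {ε D N β q t : ℝ} (hε : 0 < ε) (hε1 : ε ≤ 1 / 100) (hD : 0 < D) (hN : 0 < N)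
    (hβ : 0 < β) (hq : q ^ 2 = N * D * β) (ht : 0 ≤ t) :
    (1 + 2 * ε) * (q * t) - (1 - ε) * D * t ^ 2 / 2 ≤
      N * β / 2 + 3 * ε * N * β - (1 - ε) * D / 2 * (t - (1 + 2 * ε) * q / ((1 - ε) * D)) ^ 2 := by
  have h1 : 0 < 1 - ε := by linarith
  have e1 : (1 - ε) * D / 2 * (t - (1 + 2 * ε) * q / ((1 - ε) * D)) ^ 2 =
      (1 - ε) * D * t ^ 2 / 2 - (1 + 2 * ε) * (q * t) +
        (1 + 2 * ε) ^ 2 * q ^ 2 / (2 * ((1 - ε) * D)) := by
    field_simp
    ring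
  have e2 : (1 + 2 * ε) ^ 2 * q ^ 2 / (2 * ((1 - ε) * D)) ≤ N * β / 2 + 3 * ε * N * β := by
    rw [hq, div_le_iff₀ (by positivity)]
    have e3 : (1 + 2 * ε) ^ 2 ≤ (1 + 6 * ε) * (1 - ε) := by nlinarith
    have e4 : 0 ≤ N * D * β := by positivity
    have e5 := mul_le_mul_of_nonneg_right e3 e4
    have e6 : (N * β / 2 + 3 * ε * N * β) * (2 * ((1 - ε) * D)) =
        (1 + 6 * ε) * (1 - ε) * (N * D * β) := by ring
    rw [e6]
    exact e5
  rw [e1]
  linarith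

theorem p_RTupp (h1 : S_rep) (h2 : S_cD) (h3 : S_ptU) (h4 : S_ptF) : S_RTupp := by
  obtain ⟨Cd, hCd1, hCd⟩ := h2
  intro C₁ B hC₁ hB
  obtain ⟨Y₁, hY₁, hU⟩ := h3 C₁ B hC₁ hB
  obtain ⟨Y₂, hY₂, hF⟩ := h4 C₁ B hC₁ hB
  obtain ⟨C, hC⟩ : ∃ C : ℝ, C = Cd * 16 + (2 + 3 * B) := ⟨_, rfl⟩
  have hCa : Cd * 16 ≤ C := by
    rw [hC]
    linarith
  have hCb : 2 + 3 * B ≤ C := by
    rw [hC]
    linarith
  refine ⟨C, max Y₁ Y₂, by linarith, le_max_of_le_left hY₁, ?_⟩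
  intro ε D N b Y x a g hctx w hw v₀ hv₀
  have hctx1 : Ctx C₁ B Y₁ ε D N b Y x a g := by
    obtain ⟨he0, he1, hN1, hb1, hYb, hY0, ha0, hx0, hax, hD1, hbB, hreg⟩ := hctx
    exact ⟨he0, he1, hN1, hb1, hYb, (le_max_left _ _).trans hY0, ha0, hx0, hax, hD1, hbB, hreg⟩
  have hctx2 : Ctx C₁ B Y₂ ε D N b Y x a g := by
    obtain ⟨he0, he1, hN1, hb1, hYb, hY0, ha0, hx0, hax, hD1, hbB, hreg⟩ := hctx
    exact ⟨he0, he1, hN1, hb1, hYb, (le_max_right _ _).trans hY0, ha0, hx0, hax, hD1, hbB, hreg⟩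
  have hU' := hU ε D N b Y x a g hctx1 w hw v₀ hv₀
  have hF' := hF ε D N b Y x a g hctx2 w hw v₀ hv₀
  obtain ⟨he0, he1, hN1, hb1, hYb, hY0, ha0, hx0, hax, hD1, hbB, hreg⟩ := hctx
  have hD' : (0 : ℝ) < D := by exact_mod_cast hD1
  have hN0 : 0 < N := by linarith
  obtain ⟨β, hβ⟩ : ∃ β : ℝ, β = bet D N x a := ⟨_, rfl⟩
  have hβ' : β = N * x ^ 2 / (4 * D * a ^ 2) := hβ
  have hβ0 : 0 < β := by
    rw [hβ']
    positivity
  have hβB : β ≤ B := by
    rw [hβ', div_le_iff₀ (by positivity)]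
    linarith
  rw [← hβ] at hU' hF' ⊢
  obtain ⟨q, hq⟩ : ∃ q : ℝ, q = N * x / (2 * a) := ⟨_, rfl⟩
  have hq2 : q ^ 2 = N * D * β := by
    rw [hq, hβ']
    field_simp
    ring
  have hq0 : 0 < q := by
    rw [hq]
    positivity
  obtain ⟨G, hG⟩ : ∃ G : ℝ, G = ‖g (om x a w)‖ := ⟨_, rfl⟩
  have hG0 : 0 ≤ G := by
    rw [hG]
    exact norm_nonneg _
  obtain ⟨E, hE⟩ : ∃ E : ℝ, E = N * (v₀.re - w.re) + 2 * ε * N * (‖v₀ - w‖ + 1) +
    (N * β / 2 + 3 * ε * N * β) := ⟨_, rfl⟩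
  obtain ⟨κ, hκ⟩ : ∃ κ : ℝ, κ = (1 - ε) * D / 2 := ⟨_, rfl⟩
  have hκ0 : 0 < κ := by
    rw [hκ]
    have : 0 < 1 - ε := by linarith
    positivity
  obtain ⟨c, hc⟩ : ∃ c : ℝ, c = (1 + 2 * ε) * q / ((1 - ε) * D) := ⟨_, rfl⟩
  -- pointwise bound
  have hpt : ∀ φ : ℝ, |φ| ≤ Real.pi → ‖kD D φ * g (om x a v₀ * cexp (φ * I))‖ ≤
      G * Real.exp E * (Real.exp (-(κ * (φ - c) ^ 2)) + Real.exp (-(κ * (φ - (-c)) ^ 2)) +
        Real.exp (-((D : ℝ) / 10 * (φ - 0) ^ 2))) := by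
    intro φ hφ
    obtain ⟨v, hv⟩ : ∃ v : ℝ, v = -(x * φ / (2 * a)) := ⟨_, rfl⟩
    have hac : (a : ℂ) ≠ 0 := by exact_mod_cast ha0.ne'
    have hxc : (x : ℂ) ≠ 0 := by exact_mod_cast hx0.ne'
    have e1 : (-(2 * (a : ℂ) * (v : ℂ) / (x : ℂ))) = (φ : ℂ) := by
      rw [hv]
      push_cast
      field_simp
    have e2 : kD D φ * g (om x a v₀ * cexp (φ * I)) = FF D x a g v₀ v := by
      unfold FF
      have e3 : (-(2 * (a : ℂ) * (v : ℂ) / (x : ℂ) * I)) = (φ : ℂ) * I := by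
        rw [← e1]
        ring
      rw [e3, e1]
    have hva : |v| = x * |φ| / (2 * a) := by
      rw [hv, abs_neg, abs_div, abs_mul, abs_of_pos hx0, abs_of_pos (by positivity : 0 < 2 * a)]
    have hNv : N * |v| = q * |φ| := by
      rw [hva, hq]
      ring
    have hv2 : N * v ^ 2 / β = D * φ ^ 2 := by
      rw [hv, hβ']
      field_simp
      ring
    rw [e2]
    rcases le_or_gt |v| (Y / 2) with hvY | hvY
    · refine (hU' v hvY).trans ?_
      rw [← hG]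
      have e4 : N * (v₀.re - w.re) + 2 * ε * N * (‖v₀ - w‖ + 1) +
          N * ((1 + 2 * ε) * |v| - (1 - ε) * v ^ 2 / (2 * β)) ≤
          E + -(κ * (|φ| - c) ^ 2) := by
        have e5 : N * ((1 + 2 * ε) * |v| - (1 - ε) * v ^ 2 / (2 * β)) =
            (1 + 2 * ε) * (q * |φ|) - (1 - ε) * D * |φ| ^ 2 / 2 := by
          rw [← hNv, sq_abs]
          have e6 : (1 - ε) * D * φ ^ 2 / 2 = (1 - ε) * (N * v ^ 2 / β) / 2 := by
            rw [hv2]
            ring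
          rw [e6]
          field_simp
        rw [e5]
        have e7 := RTupp_sq he0 he1 hD' hN0 hβ0 hq2 (abs_nonneg φ)
        rw [← hc, ← hκ] at e7
        rw [hE]
        linarith
      refine (mul_le_mul_of_nonneg_left (Real.exp_le_exp.2 e4) hG0).trans ?_
      rw [Real.exp_add, ← mul_assoc]
      refine mul_le_mul_of_nonneg_left ?_ (by positivity)
      have p1 := Real.exp_pos (-(κ * (φ - c) ^ 2))
      have p2 := Real.exp_pos (-(κ * (φ - (-c)) ^ 2))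
      have p3 := Real.exp_pos (-((D : ℝ) / 10 * (φ - 0) ^ 2))
      rcases le_or_gt 0 φ with h0 | h0
      · rw [abs_of_nonneg h0]
        linarith
      · rw [abs_of_neg h0]
        have e8 : (-φ - c) ^ 2 = (φ - (-c)) ^ 2 := by ring
        rw [e8]
        linarith
    · have hvpi : 2 * a * |v| ≤ Real.pi * x := by
        rw [hva]
        have e9 : 2 * a * (x * |φ| / (2 * a)) = |φ| * x := by field_simp
        rw [e9]
        exact mul_le_mul_of_nonneg_right hφ hx0.le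
      refine (hF' v hvY.le hvpi).trans ?_
      rw [← hG]
      have e4 : N * (v₀.re - w.re) - N * v ^ 2 / (10 * β) ≤
          E + -((D : ℝ) / 10 * (φ - 0) ^ 2) := by
        have e5 : N * v ^ 2 / (10 * β) = (D : ℝ) / 10 * (φ - 0) ^ 2 := by
          have e6 : (D : ℝ) / 10 * (φ - 0) ^ 2 = (D * φ ^ 2) / 10 := by ring
          rw [e6, ← hv2]
          field_simp
        rw [e5, hE]
        have e7 : 0 ≤ 2 * ε * N * (‖v₀ - w‖ + 1) := by
          have := norm_nonneg (v₀ - w)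
          positivity
        have e8 : 0 ≤ N * β / 2 + 3 * ε * N * β := by positivity
        linarith
      refine (mul_le_mul_of_nonneg_left (Real.exp_le_exp.2 e4) hG0).trans ?_
      rw [Real.exp_add, ← mul_assoc]
      refine mul_le_mul_of_nonneg_left ?_ (by positivity)
      have p1 := Real.exp_pos (-(κ * (φ - c) ^ 2))
      have p2 := Real.exp_pos (-(κ * (φ - (-c)) ^ 2))
      linarith
  -- the integral
  obtain ⟨i1, l1⟩ := RTupp_gauss hκ0 c
  obtain ⟨i2, l2⟩ := RTupp_gauss hκ0 (-c)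
  obtain ⟨i3, l3⟩ := RTupp_gauss (show (0 : ℝ) < (D : ℝ) / 10 by positivity) 0
  have hGE : 0 ≤ G * Real.exp E := by positivity
  have hbd : ‖∫ φ in (-Real.pi)..Real.pi, kD D φ * g (om x a v₀ * cexp (φ * I))‖ ≤
      G * Real.exp E * (Real.sqrt (Real.pi / κ) + Real.sqrt (Real.pi / κ) +
        Real.sqrt (Real.pi / ((D : ℝ) / 10))) := by
    refine (intervalIntegral.norm_integral_le_of_norm_le (g := fun φ : ℝ =>
      G * Real.exp E * (Real.exp (-(κ * (φ - c) ^ 2)) + Real.exp (-(κ * (φ - (-c)) ^ 2)) +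
        Real.exp (-((D : ℝ) / 10 * (φ - 0) ^ 2)))) (by linarith [Real.pi_pos])
      (Filter.Eventually.of_forall fun φ hφ => ?_) (((i1.add i2).add i3).const_mul _)).trans ?_
    · exact hpt φ (abs_le.2 ⟨hφ.1.le, hφ.2⟩)
    · rw [intervalIntegral.integral_const_mul, intervalIntegral.integral_add (i1.add i2) i3,
        intervalIntegral.integral_add i1 i2]
      exact mul_le_mul_of_nonneg_left (add_le_add (add_le_add l1 l2) l3) hGE
  have hcD := (hCd D hD1).2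
  have hcD0 : 0 ≤ cD D := by
    unfold cD
    positivity
  rw [h1 D g (om x a v₀) hD1 hreg.diff, norm_mul, Complex.norm_real, Real.norm_of_nonneg hcD0]
  refine (mul_le_mul hcD hbd (norm_nonneg _) (by positivity)).trans ?_
  have hs1 : Real.sqrt D * Real.sqrt (Real.pi / κ) ≤ 3 := by
    rw [← Real.sqrt_mul hD'.le, Real.sqrt_le_left (by norm_num)]
    have e1 : (D : ℝ) * (Real.pi / κ) = 2 * Real.pi / (1 - ε) := by
      rw [hκ]
      have : (1 - ε) ≠ 0 := by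
        have : 0 < 1 - ε := by linarith
        exact this.ne'
      field_simp
    rw [e1, div_le_iff₀ (by linarith)]
    nlinarith [Real.pi_lt_d2]
  have hs2 : Real.sqrt D * Real.sqrt (Real.pi / ((D : ℝ) / 10)) ≤ 10 := by
    rw [← Real.sqrt_mul hD'.le, Real.sqrt_le_left (by norm_num)]
    have e1 : (D : ℝ) * (Real.pi / ((D : ℝ) / 10)) = 10 * Real.pi := by
      field_simp
    rw [e1]
    linarith [Real.pi_lt_d2]
  have e1 : Cd * Real.sqrt D * (G * Real.exp E * (Real.sqrt (Real.pi / κ) +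
      Real.sqrt (Real.pi / κ) + Real.sqrt (Real.pi / ((D : ℝ) / 10)))) =
      G * Real.exp E * (Cd * (Real.sqrt D * Real.sqrt (Real.pi / κ) +
        Real.sqrt D * Real.sqrt (Real.pi / κ) +
        Real.sqrt D * Real.sqrt (Real.pi / ((D : ℝ) / 10)))) := by ring
  rw [e1]
  have hCd0 : 0 ≤ Cd := by linarith
  have e2 : Cd * (Real.sqrt D * Real.sqrt (Real.pi / κ) + Real.sqrt D * Real.sqrt (Real.pi / κ) +
      Real.sqrt D * Real.sqrt (Real.pi / ((D : ℝ) / 10))) ≤ C := by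
    refine le_trans (mul_le_mul_of_nonneg_left ?_ hCd0) hCa
    linarith
  refine (mul_le_mul_of_nonneg_left e2 hGE).trans ?_
  have e3 : E ≤ N * β / 2 + N * (v₀.re - w.re) + C * ε * N * (‖v₀ - w‖ + 1) := by
    rw [hE]
    have e4 : 0 ≤ ‖v₀ - w‖ := norm_nonneg _
    have e5 : 0 ≤ ε * N := by positivity
    have e6 : 3 * β * 1 ≤ 3 * B * (‖v₀ - w‖ + 1) :=
      mul_le_mul (by linarith) (by linarith) (by norm_num) (by linarith)
    have e7 : 2 * (‖v₀ - w‖ + 1) + 3 * β ≤ C * (‖v₀ - w‖ + 1) := by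
      have e8 : (2 + 3 * B) * (‖v₀ - w‖ + 1) ≤ C * (‖v₀ - w‖ + 1) :=
        mul_le_mul_of_nonneg_right hCb (by linarith)
      linarith
    have e9 := mul_le_mul_of_nonneg_left e7 e5
    linarith
  have e4 := Real.exp_le_exp.2 e3
  have hC0 : 0 ≤ C := by linarith
  calc G * Real.exp E * C = C * Real.exp E * G := by ring
    _ ≤ C * Real.exp (N * β / 2 + N * (v₀.re - w.re) + C * ε * N * (‖v₀ - w‖ + 1)) * G :=
        mul_le_mul_of_nonneg_right (mul_le_mul_of_nonneg_left e4 hC0) hG0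
    _ = _ := by rw [hG]

end Pool.Agent.Lib.MP_cd509c_nt.JD
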