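import Pool.Agent.Lib.MP_cd509c_nt.JD.Defs
import Pool.Agent.Lib.MP_cd509c_nt.PolyOp

/-!
# The algebraic lemma of the outer part
-/

set_option autoImplicit false

namespace Pool.Agent.Lib.MP_cd509c_nt.JD

open Complex ComplexConjugate

/-- the inequality between real numbers -/
private lemma jd_alg_num {S Q2 Q3 A X ν κ R μ ρ ε y mx : ℝ} (hρ : 0 < ρ) (hμ : 0 ≤ μ) (hS : 0 < S)
    (hν : |ν| ≤ μ) (hR : |R| ≤ μ) (hκ : |κ| ≤ μ / ρ) (hrest : 2 * ε ^ 2 + 32 * μ < S - mx)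
    (hmx : 0 ≤ mx) (hQ2 : Q2 ≤ mx * S) (hQ2S : Q2 ≤ S ^ 2) (hQ3 : 0 ≤ Q3)
    (hA : A ^ 2 ≤ S * (Q2 - y ^ 2 * Q3))
    (hW : (S - mx) * S ^ 2 / 4 ≤ S ^ 3 - 2 * S * Q2 + Q3)
    (hρS : 0 < μ → 32 ≤ ρ ^ 2 * S)
    (hE1 : X * (S - ν) = A + κ) (hE2 : X ^ 2 - y ^ 2 * (S - ν) ^ 2 + ε ^ 2 = S - 2 * y ^ 2 * Q2 + R) :
    False := by
  obtain ⟨hν1, hν2⟩ := abs_le.mp hν
  obtain ⟨hR1, hR2⟩ := abs_le.mp hR
  have he : 0 ≤ ε ^ 2 := sq_nonneg _
  have hy : 0 ≤ y ^ 2 := sq_nonneg _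
  have hSμ : 32 * μ < S := by nlinarith
  set q := Q2 - y ^ 2 * Q3 with hq
  have hq0 : 0 ≤ q := by
    by_contra hcon
    have h1 : S * q < 0 := mul_neg_of_pos_of_neg hS (not_le.mp hcon)
    have h2 : 0 ≤ A ^ 2 := sq_nonneg _
    linarith
  have hqS : q ≤ S ^ 2 := by
    have : 0 ≤ y ^ 2 * Q3 := mul_nonneg hy hQ3
    linarith
  -- the bound of `X`
  have hX : S * X ^ 2 ≤ q + 3.3 * μ * S := by
    rcases hμ.eq_or_lt with h0 | h0
    · have hν0 : ν = 0 := by
        have h1 : ν ≤ 0 := by linarith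
        have h2 : 0 ≤ ν := by linarith
        linarith
      have hκ0 : κ = 0 := by
        rw [← h0, zero_div] at hκ
        exact abs_nonpos_iff.mp hκ
      rw [hν0, hκ0, sub_zero, add_zero] at hE1
      have h1 : S * (S * X ^ 2) ≤ S * q := by
        calc S * (S * X ^ 2) = (X * S) ^ 2 := by ring
          _ = A ^ 2 := by rw [hE1]
          _ ≤ S * q := hA
      have h2 := le_of_mul_le_mul_left h1 hS
      rw [← h0]
      linarith
    · have hρS' := hρS h0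
      have hρ2 : 0 < ρ ^ 2 := by positivity
      have hκ2 : κ ^ 2 ≤ μ ^ 2 / ρ ^ 2 := by
        rw [← div_pow, ← sq_abs κ]
        exact pow_le_pow_left₀ (abs_nonneg _) hκ 2
      have hκ3 : κ ^ 2 ≤ μ ^ 2 * S / 32 := by
        refine hκ2.trans ?_
        rw [div_le_div_iff₀ hρ2 (by norm_num)]
        have : 0 ≤ μ ^ 2 := sq_nonneg _
        nlinarith
      -- (A + κ)² ≤ (1 + μ/S) A² + (1 + S/μ) κ²
      have h1 : (A + κ) ^ 2 * (S * μ) ≤ (S + μ) * μ * A ^ 2 + (S + μ) * S * κ ^ 2 := by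
        nlinarith [sq_nonneg (μ * A - S * κ)]
      have h2 : (A + κ) ^ 2 ≤ (S + μ) * q + (S + μ) * S * μ / 32 := by
        have h3 : (S + μ) * μ * A ^ 2 ≤ (S + μ) * μ * (S * q) :=
          mul_le_mul_of_nonneg_left hA (by positivity)
        have h4 : (S + μ) * S * κ ^ 2 ≤ (S + μ) * S * (μ ^ 2 * S / 32) :=
          mul_le_mul_of_nonneg_left hκ3 (by positivity)
        have h5 : (A + κ) ^ 2 * (S * μ) ≤ ((S + μ) * q + (S + μ) * S * μ / 32) * (S * μ) := by
          calc _ ≤ _ := h1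
            _ ≤ (S + μ) * μ * (S * q) + (S + μ) * S * (μ ^ 2 * S / 32) := add_le_add h3 h4
            _ = _ := by ring
        exact le_of_mul_le_mul_right h5 (by positivity)
      have h6 : X ^ 2 * (S - μ) ^ 2 ≤ (A + κ) ^ 2 := by
        rw [← hE1, mul_pow]
        apply mul_le_mul_of_nonneg_left _ (sq_nonneg _)
        apply pow_le_pow_left₀ (by linarith)
        linarith
      have h7 : X ^ 2 * (S - μ) ^ 2 ≤ (S + μ) * q + (S + μ) * S * μ / 32 := h6.trans h2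
      -- compare
      have h8 : S * ((S + μ) * q + (S + μ) * S * μ / 32) ≤ (S - μ) ^ 2 * (q + 3.3 * μ * S) := by
        have h9 : (S - μ) ^ 2 * (q + 3.3 * μ * S) - S * ((S + μ) * q + (S + μ) * S * μ / 32) =
            μ * (S * (3.3 * (S - μ) ^ 2 - S * (S + μ) / 32) - q * (3 * S - μ)) := by ring
        have h10 : q * (3 * S - μ) ≤ S ^ 2 * (3 * S) := by
          apply mul_le_mul hqS (by linarith) (by linarith) (by positivity)
        have h11 : (31 / 32 * S) ^ 2 ≤ (S - μ) ^ 2 := by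
          apply pow_le_pow_left₀ (by positivity)
          linarith
        have h12 : S * (S + μ) ≤ S * (33 / 32 * S) := by
          apply mul_le_mul_of_nonneg_left _ hS.le
          linarith
        have h14 : S * (3.3 * (31 / 32 * S) ^ 2 - S * (33 / 32 * S) / 32) ≤
            S * (3.3 * (S - μ) ^ 2 - S * (S + μ) / 32) := by
          apply mul_le_mul_of_nonneg_left _ hS.le
          linarith
        have h15 : S ^ 2 * (3 * S) ≤
            S * (3.3 * (31 / 32 * S) ^ 2 - S * (33 / 32 * S) / 32) := by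
          have e1 : S * (3.3 * (31 / 32 * S) ^ 2 - S * (33 / 32 * S) / 32) =
              S ^ 2 * (3 * S) + (3.3 * (31 / 32) ^ 2 - 33 / 32 / 32 - 3) * S ^ 3 := by ring
          have e2 : 0 < S ^ 3 := by positivity
          have e3 : (0 : ℝ) ≤ 3.3 * (31 / 32) ^ 2 - 33 / 32 / 32 - 3 := by norm_num
          rw [e1]
          exact le_add_of_nonneg_right (mul_nonneg e3 e2.le)
        have h13 : 0 ≤ S * (3.3 * (S - μ) ^ 2 - S * (S + μ) / 32) - q * (3 * S - μ) :=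
          sub_nonneg.mpr ((h10.trans h15).trans h14)
        have h16 := mul_nonneg h0.le h13
        linarith
      have h17 : S * X ^ 2 * (S - μ) ^ 2 ≤ (q + 3.3 * μ * S) * (S - μ) ^ 2 := by
        calc S * X ^ 2 * (S - μ) ^ 2 = S * (X ^ 2 * (S - μ) ^ 2) := by ring
          _ ≤ S * ((S + μ) * q + (S + μ) * S * μ / 32) := mul_le_mul_of_nonneg_left h7 hS.le
          _ ≤ _ := h8
          _ = _ := by ring
      have h18 : 0 < (S - μ) ^ 2 := by
        have : 0 < S - μ := by linarith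
        positivity
      exact le_of_mul_le_mul_right h17 h18
  -- the conclusion
  have h1 : S ^ 2 - 2 * S * μ ≤ (S - ν) ^ 2 := by nlinarith [sq_nonneg ν]
  have h2 : y ^ 2 * S * (S ^ 2 - 2 * S * μ) ≤ y ^ 2 * S * (S - ν) ^ 2 :=
    mul_le_mul_of_nonneg_left h1 (by positivity)
  have h3 : S * ε ^ 2 = S ^ 2 - 2 * y ^ 2 * S * Q2 + S * R - S * X ^ 2 + y ^ 2 * S * (S - ν) ^ 2 := by
    have : ε ^ 2 = S - 2 * y ^ 2 * Q2 + R - X ^ 2 + y ^ 2 * (S - ν) ^ 2 := by linarith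
    rw [this]; ring
  have h4 : -(S * μ) ≤ S * R := by nlinarith
  have h5 : y ^ 2 * 0 ≤ y ^ 2 * (S ^ 3 - 2 * S * Q2 + Q3 - 2 * S ^ 2 * μ) := by
    apply mul_le_mul_of_nonneg_left _ hy
    have : 32 * μ * S ^ 2 ≤ (S - mx) * S ^ 2 := by
      apply mul_le_mul_of_nonneg_right _ (by positivity)
      linarith
    have h6 : 0 ≤ μ * S ^ 2 := by positivity
    linarith
  have h6 : S * (S - mx - 4.3 * μ) ≤ S * ε ^ 2 := by
    rw [h3]
    have h7 : y ^ 2 * (S ^ 3 - 2 * S * Q2 + Q3 - 2 * S ^ 2 * μ) =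
      y ^ 2 * S * (S ^ 2 - 2 * S * μ) - 2 * y ^ 2 * S * Q2 + y ^ 2 * Q3 := by ring
    have h8 : S * (S - mx - 4.3 * μ) = S ^ 2 - mx * S - 4.3 * μ * S := by ring
    rw [h8]
    rw [h7] at h5
    linarith
  have h7 := le_of_mul_le_mul_left h6 hS
  linarith

/-- the near roots -/
private lemma jd_alg_near {n : ℕ} (c : Fin n → ℝ) {y ρ : ℝ} (hy : y ≠ 0) (hρ : 0 < ρ) (hn : 1 ≤ n)
    (hc : ∀ i, c i ^ 2 + y ^ 2 ≤ 9 * ρ ^ 2) :
    ∃ mx : ℝ, 0 ≤ mx ∧ 0 < ∑ i, (c i ^ 2 + y ^ 2)⁻¹ ∧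
      (n - 1) / (9 * ρ ^ 2) ≤ ∑ i, (c i ^ 2 + y ^ 2)⁻¹ - mx ∧
      ∑ i, (c i ^ 2 + y ^ 2)⁻¹ ^ 2 ≤ mx * ∑ i, (c i ^ 2 + y ^ 2)⁻¹ ∧
      ∑ i, (c i ^ 2 + y ^ 2)⁻¹ ^ 2 ≤ (∑ i, (c i ^ 2 + y ^ 2)⁻¹) ^ 2 ∧
      0 ≤ ∑ i, (c i ^ 2 + y ^ 2)⁻¹ ^ 3 ∧
      (∑ i, c i * (c i ^ 2 + y ^ 2)⁻¹ ^ 2) ^ 2 ≤ (∑ i, (c i ^ 2 + y ^ 2)⁻¹) *
        (∑ i, (c i ^ 2 + y ^ 2)⁻¹ ^ 2 - y ^ 2 * ∑ i, (c i ^ 2 + y ^ 2)⁻¹ ^ 3) ∧
      (∑ i, (c i ^ 2 + y ^ 2)⁻¹ - mx) * (∑ i, (c i ^ 2 + y ^ 2)⁻¹) ^ 2 / 4 ≤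
        (∑ i, (c i ^ 2 + y ^ 2)⁻¹) ^ 3 - 2 * (∑ i, (c i ^ 2 + y ^ 2)⁻¹) *
          (∑ i, (c i ^ 2 + y ^ 2)⁻¹ ^ 2) + ∑ i, (c i ^ 2 + y ^ 2)⁻¹ ^ 3 := by
  classical
  have hy2 : 0 < y ^ 2 := by positivity
  set α : Fin n → ℝ := fun i => (c i ^ 2 + y ^ 2)⁻¹ with hα
  have hpos : ∀ i, 0 < α i := fun i => by
    have : 0 < c i ^ 2 + y ^ 2 := by positivity
    exact inv_pos.mpr this
  have hlow : ∀ i, 1 / (9 * ρ ^ 2) ≤ α i := fun i => by
    have : 0 < c i ^ 2 + y ^ 2 := by positivity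
    show 1 / (9 * ρ ^ 2) ≤ (c i ^ 2 + y ^ 2)⁻¹
    rw [← one_div]
    exact one_div_le_one_div_of_le this (hc i)
  have hne : (Finset.univ : Finset (Fin n)).Nonempty := ⟨⟨0, hn⟩, Finset.mem_univ _⟩
  obtain ⟨j, _, hj⟩ := Finset.exists_max_image Finset.univ α hne
  set S := ∑ i, α i with hS
  have hS0 : 0 < S := Finset.sum_pos (fun i _ => hpos i) hne
  have hsplit : S = α j + ∑ i ∈ Finset.univ.erase j, α i :=
    (Finset.add_sum_erase _ _ (Finset.mem_univ j)).symm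
  have hcard : (Finset.univ.erase j).card = n - 1 := by
    rw [Finset.card_erase_of_mem (Finset.mem_univ j), Finset.card_univ, Fintype.card_fin]
  refine ⟨α j, (hpos j).le, hS0, ?_, ?_, ?_, ?_, ?_, ?_⟩
  · have h1 : S - α j = ∑ i ∈ Finset.univ.erase j, α i := by rw [hsplit]; ring
    have h2 := Finset.card_nsmul_le_sum (Finset.univ.erase j) α (1 / (9 * ρ ^ 2))
      (fun i _ => hlow i)
    rw [hcard, nsmul_eq_mul] at h2
    show _ ≤ S - α j
    rw [h1]
    refine le_trans (le_of_eq ?_) h2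
    rw [Nat.cast_sub hn]
    push_cast
    ring
  · rw [Finset.mul_sum]
    apply Finset.sum_le_sum
    intro i _
    rw [sq]
    exact mul_le_mul_of_nonneg_right (hj i (Finset.mem_univ i)) (hpos i).le
  · show ∑ i, α i ^ 2 ≤ S ^ 2
    have h1 : S ^ 2 = ∑ i, S * α i := by rw [← Finset.mul_sum, ← hS, sq]
    rw [h1]
    apply Finset.sum_le_sum
    intro i _
    rw [sq]
    apply mul_le_mul_of_nonneg_right _ (hpos i).le
    exact Finset.single_le_sum (f := α) (fun i _ => (hpos i).le) (Finset.mem_univ i)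
  · exact Finset.sum_nonneg fun i _ => pow_nonneg (hpos i).le 3
  · have h1 := Finset.sum_mul_sq_le_sq_mul_sq Finset.univ (fun i => Real.sqrt (α i))
      (fun i => c i * (α i * Real.sqrt (α i)))
    have h2 : ∀ i, Real.sqrt (α i) * (c i * (α i * Real.sqrt (α i))) = c i * α i ^ 2 := by
      intro i
      have : Real.sqrt (α i) * Real.sqrt (α i) = α i := Real.mul_self_sqrt (hpos i).le
      calc _ = c i * α i * (Real.sqrt (α i) * Real.sqrt (α i)) := by ring
        _ = _ := by rw [this]; ring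
    have h3 : ∀ i, Real.sqrt (α i) ^ 2 = α i := fun i => Real.sq_sqrt (hpos i).le
    have h4 : ∀ i, (c i * (α i * Real.sqrt (α i))) ^ 2 = α i ^ 2 - y ^ 2 * α i ^ 3 := by
      intro i
      have h5 : c i ^ 2 * α i = 1 - y ^ 2 * α i := by
        have : (c i ^ 2 + y ^ 2) * α i = 1 := by
          have : c i ^ 2 + y ^ 2 ≠ 0 := by positivity
          exact mul_inv_cancel₀ this
        linarith
      calc _ = (c i ^ 2 * α i) * α i * (Real.sqrt (α i)) ^ 2 := by ring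
        _ = (1 - y ^ 2 * α i) * α i * α i := by rw [h5, h3]
        _ = _ := by ring
    simp only [h2, h3, h4] at h1
    rw [Finset.sum_sub_distrib, ← Finset.mul_sum] at h1
    exact h1
  · have h1 : S ^ 3 - 2 * S * (∑ i, α i ^ 2) + ∑ i, α i ^ 3 = ∑ i, α i * (S - α i) ^ 2 := by
      have : ∀ i, α i * (S - α i) ^ 2 = S ^ 2 * α i - 2 * S * α i ^ 2 + α i ^ 3 := by
        intro i; ring
      simp only [this]
      rw [Finset.sum_add_distrib, Finset.sum_sub_distrib, ← Finset.mul_sum, ← Finset.mul_sum]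
      ring
    show (S - α j) * S ^ 2 / 4 ≤ S ^ 3 - 2 * S * (∑ i, α i ^ 2) + ∑ i, α i ^ 3
    rw [h1]
    have h2 : ∑ i ∈ Finset.univ.erase j, α i * (S - α i) ^ 2 ≤ ∑ i, α i * (S - α i) ^ 2 := by
      apply Finset.sum_le_sum_of_subset_of_nonneg (Finset.erase_subset _ _)
      intro i _ _
      exact mul_nonneg (hpos i).le (sq_nonneg _)
    refine le_trans ?_ h2
    have h3 : S - α j = ∑ i ∈ Finset.univ.erase j, α i := by rw [hsplit]; ring
    rw [h3, Finset.sum_mul, Finset.sum_div]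
    apply Finset.sum_le_sum
    intro i hi
    have hij : i ≠ j := Finset.ne_of_mem_erase hi
    have h4 : α i ≤ S / 2 := by
      have h5 : α i ≤ ∑ i ∈ Finset.univ.erase j, α i :=
        Finset.single_le_sum (f := α) (fun i _ => (hpos i).le) hi
      have h6 := hj i (Finset.mem_univ i)
      linarith
    have h5 : (S / 2) ^ 2 ≤ (S - α i) ^ 2 := by
      apply pow_le_pow_left₀ (by linarith)
      linarith
    have h6 := mul_le_mul_of_nonneg_left h5 (hpos i).le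
    linarith

private lemma jd_alg_bound (s : Multiset ℂ) (f : ℂ → ℂ) (b : ℝ) (h : ∀ r ∈ s, ‖f r‖ ≤ b) :
    ‖(s.map f).sum‖ ≤ (s.card : ℝ) * b := by
  induction s using Multiset.induction_on with
  | empty => simp
  | cons r s ih =>
    rw [Multiset.map_cons, Multiset.sum_cons, Multiset.card_cons]
    have h1 := ih (fun t ht => h t (Multiset.mem_cons_of_mem ht))
    have h2 := h r (Multiset.mem_cons_self r s)
    refine (norm_add_le _ _).trans ?_
    push_cast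
    linarith

/-- imaginary part of a sum over a multiset symmetric under conjugation -/
private lemma jd_alg_im (s : Multiset ℂ) (hs : s.map (starRingEnd ℂ) = s) (f : ℂ → ℂ → ℂ)
    (hf : ∀ u v, conj (f u v) = f (conj u) (conj v)) (u : ℂ) (b : ℝ)
    (h : ∀ r ∈ s, ‖f u r - f (conj u) r‖ ≤ b) :
    |((s.map (f u)).sum).im| ≤ (s.card : ℝ) * b / 2 := by
  have h1 : conj ((s.map (f u)).sum) = (s.map (f (conj u))).sum := by
    rw [map_multiset_sum, Multiset.map_map]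
    have h2 : (starRingEnd ℂ) ∘ f u = (f (conj u)) ∘ (starRingEnd ℂ) := by
      funext v
      exact hf u v
    rw [h2, ← Multiset.map_map, hs]
  have h3 : (s.map (f u)).sum - conj ((s.map (f u)).sum) =
      (s.map fun r => f u r - f (conj u) r).sum := by
    rw [h1, Multiset.sum_map_sub]
  have h4 := jd_alg_bound s (fun r => f u r - f (conj u) r) b h
  rw [← h3, Complex.sub_conj] at h4
  rw [norm_mul, Complex.norm_I, mul_one, Complex.norm_real, Real.norm_eq_abs, abs_mul,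
    abs_of_pos (by norm_num : (0 : ℝ) < 2)] at h4
  linarith

private lemma jd_alg_roots (K : Polynomial ℂ) (hK : ∀ k, (K.coeff k).im = 0) :
    K.roots.map (starRingEnd ℂ) = K.roots := by
  have h1 : K.map (starRingEnd ℂ) = K := by
    ext k
    rw [Polynomial.coeff_map]
    exact Complex.conj_eq_iff_im.mpr (hK k)
  have h2 := (IsAlgClosed.splits K).roots_map (starRingEnd ℂ)
  rw [h1] at h2
  exact h2.symm

theorem p_alg : S_alg := by
  intro K a ε ρ hK0 hKre hρ hreal hcnt u hu huim hP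
  classical
  set near := K.roots.filter fun v => ‖v‖ ≤ 2 * ρ with hnear
  set far := K.roots.filter fun v => 2 * ρ < ‖v‖ with hfar
  set M : ℝ := (far.card : ℝ) with hM
  set N : ℝ := (near.card : ℝ) with hN
  have hM0 : 0 ≤ M := Nat.cast_nonneg _
  have hy2 : 0 < u.im ^ 2 := by positivity
  have hyabs : 0 < |u.im| := abs_pos.mpr huim
  have hyρ : |u.im| ≤ ρ := (Complex.abs_im_le_norm u).trans hu
  -- the sums
  have hsum : near + far = K.roots := by
    have h1 : far = K.roots.filter fun v => ¬ ‖v‖ ≤ 2 * ρ := by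
      rw [hfar]
      congr 1
      funext v
      rw [not_le]
    rw [h1]
    exact Multiset.filter_add_not _ _
  have hne : ∀ r ∈ K.roots, u ≠ r := by
    intro r hr h
    apply huim
    rw [h]
    apply hreal r hr
    rw [← h]
    linarith
  have hfac := (IsAlgClosed.splits K).eq_prod_roots
  obtain ⟨hd1, hd2⟩ := prod_derivs K.roots u hne
  have hlc : K.leadingCoeff ≠ 0 := Polynomial.leadingCoeff_ne_zero.mpr hK0
  set G := (K.roots.map fun r => Polynomial.X - Polynomial.C r).prod with hG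
  have hG0 : G.eval u ≠ 0 := by
    rw [hG, Polynomial.eval_multiset_prod, Multiset.map_map]
    intro h
    rw [Multiset.prod_eq_zero_iff] at h
    obtain ⟨r, hr, hr0⟩ := Multiset.mem_map.mp h
    simp only [Function.comp, Polynomial.eval_sub, Polynomial.eval_X, Polynomial.eval_C] at hr0
    exact hne r hr (sub_eq_zero.mp hr0)
  set L := (K.roots.map fun r => (u - r)⁻¹).sum with hL
  set Q := (K.roots.map fun r => ((u - r)⁻¹) ^ 2).sum with hQ
  have hE : (L - a) ^ 2 + (ε : ℂ) ^ 2 = Q := by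
    have h1 : (K.derivative.derivative - Polynomial.C (2 * a : ℂ) * K.derivative +
        Polynomial.C ((a : ℂ) ^ 2 + (ε : ℂ) ^ 2) * K).eval u =
        K.leadingCoeff * G.eval u * ((L - a) ^ 2 + (ε : ℂ) ^ 2 - Q) := by
      conv_lhs => rw [hfac]
      simp only [Polynomial.derivative_C_mul, Polynomial.eval_add, Polynomial.eval_sub,
        Polynomial.eval_mul, Polynomial.eval_C, hd1, hd2]
      ring
    rw [h1] at hP
    have h2 := (mul_eq_zero.mp hP).resolve_left (mul_ne_zero hlc hG0)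
    exact sub_eq_zero.mp h2
  -- index the near roots
  obtain ⟨l, hl⟩ : ∃ l : List ℂ, near = (l : Multiset ℂ) := ⟨near.toList, by simp⟩
  have hS : ∀ f : ℂ → ℂ, (near.map f).sum = ∑ i : Fin l.length, f l[i.1] := by
    intro f
    rw [hl, Multiset.map_coe, Multiset.sum_coe, Fin.sum_univ_fun_getElem]
  have hlen : (l.length : ℝ) = N := by
    rw [hN, hl, Multiset.coe_card]
  have hmem : ∀ i : Fin l.length, l[i.1] ∈ near := by
    intro i
    rw [hl]
    exact List.getElem_mem i.2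
  have hmreal : ∀ i : Fin l.length, (l[i.1]).im = 0 := by
    intro i
    have h1 := Multiset.mem_filter.mp (hmem i)
    exact hreal _ h1.1 h1.2
  set c : Fin l.length → ℝ := fun i => u.re - (l[i.1]).re with hc
  have hul : ∀ i : Fin l.length, u - l[i.1] = (c i : ℂ) + u.im * I := by
    intro i
    apply Complex.ext
    · simp [hc]
    · simp [hmreal i]
  have hcb : ∀ i, c i ^ 2 + u.im ^ 2 ≤ 9 * ρ ^ 2 := by
    intro i
    have h1 : ‖u - l[i.1]‖ ≤ 3 * ρ := by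
      have h2 := Multiset.mem_filter.mp (hmem i)
      refine (norm_sub_le _ _).trans ?_
      linarith [h2.2]
    have h3 : ‖u - l[i.1]‖ ^ 2 = c i ^ 2 + u.im ^ 2 := by
      rw [hul i, Complex.sq_norm, Complex.normSq_add_mul_I]
    rw [← h3]
    have h4 : ‖u - l[i.1]‖ ^ 2 ≤ (3 * ρ) ^ 2 := pow_le_pow_left₀ (norm_nonneg _) h1 2
    linarith
  have hN1 : 1 < N := by
    have h1 : 0 ≤ ρ ^ 2 * ε ^ 2 := by positivity
    have h2 : 18 * ρ ^ 2 * ε ^ 2 + 288 * M + 1 < N := hcnt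
    linarith
  have hn1 : 1 ≤ l.length := by
    have : (1 : ℝ) < l.length := by rw [hlen]; exact hN1
    exact_mod_cast this.le
  obtain ⟨mx, hmx, hS0, hrest, hQ2, hQ2S, hQ3, hA, hW⟩ := jd_alg_near c huim hρ hn1 hcb
  set SS := ∑ i, (c i ^ 2 + u.im ^ 2)⁻¹ with hSS
  set Q2 := ∑ i, (c i ^ 2 + u.im ^ 2)⁻¹ ^ 2 with hQ2d
  set Q3 := ∑ i, (c i ^ 2 + u.im ^ 2)⁻¹ ^ 3 with hQ3d
  set A := ∑ i, c i * (c i ^ 2 + u.im ^ 2)⁻¹ ^ 2 with hAd
  have hinv : ∀ i : Fin l.length, (u - l[i.1])⁻¹ =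
      ((c i * (c i ^ 2 + u.im ^ 2)⁻¹ : ℝ) : ℂ) - ((u.im * (c i ^ 2 + u.im ^ 2)⁻¹ : ℝ) : ℂ) * I := by
    intro i
    have h0 : c i ^ 2 + u.im ^ 2 ≠ 0 := by positivity
    rw [hul i]
    have h1 : (c i : ℂ) + u.im * I ≠ 0 := by
      intro h
      have := congrArg Complex.im h
      simp at this
      exact huim this
    rw [inv_eq_of_mul_eq_one_right]
    have h2 : ((c i ^ 2 + u.im ^ 2 : ℝ) : ℂ) ≠ 0 := by exact_mod_cast h0
    push_cast at h2 ⊢
    field_simp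
    have : I ^ 2 = -1 := Complex.I_sq
    linear_combination (-(u.im : ℂ) ^ 2) * this
  have hLn : (near.map fun r => (u - r)⁻¹).sum =
      ((∑ i, c i * (c i ^ 2 + u.im ^ 2)⁻¹ : ℝ) : ℂ) - ((u.im * SS : ℝ) : ℂ) * I := by
    rw [hS]
    simp only [hinv]
    rw [Finset.sum_sub_distrib, ← Finset.sum_mul, hSS, Finset.mul_sum]
    push_cast
    ring
  have hQn : (near.map fun r => ((u - r)⁻¹) ^ 2).sum =
      ((SS - 2 * u.im ^ 2 * Q2 : ℝ) : ℂ) - ((2 * u.im * A : ℝ) : ℂ) * I := by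
    rw [hS]
    have h1 : ∀ i : Fin l.length, ((u - l[i.1])⁻¹) ^ 2 =
        (((c i ^ 2 + u.im ^ 2)⁻¹ - 2 * u.im ^ 2 * (c i ^ 2 + u.im ^ 2)⁻¹ ^ 2 : ℝ) : ℂ) -
          ((2 * u.im * (c i * (c i ^ 2 + u.im ^ 2)⁻¹ ^ 2) : ℝ) : ℂ) * I := by
      intro i
      rw [hinv i]
      have h0 : c i ^ 2 + u.im ^ 2 ≠ 0 := by positivity
      have h2 : c i ^ 2 * (c i ^ 2 + u.im ^ 2)⁻¹ ^ 2 =
          (c i ^ 2 + u.im ^ 2)⁻¹ - u.im ^ 2 * (c i ^ 2 + u.im ^ 2)⁻¹ ^ 2 := by
        field_simp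
        ring
      have h3 : ((c i ^ 2 * (c i ^ 2 + u.im ^ 2)⁻¹ ^ 2 : ℝ) : ℂ) =
          (((c i ^ 2 + u.im ^ 2)⁻¹ - u.im ^ 2 * (c i ^ 2 + u.im ^ 2)⁻¹ ^ 2 : ℝ) : ℂ) := by
        rw [h2]
      push_cast at h3 ⊢
      have hI : I ^ 2 = -1 := Complex.I_sq
      linear_combination h3 + ((u.im : ℂ) * ((c i : ℂ) ^ 2 + (u.im : ℂ) ^ 2)⁻¹) ^ 2 * hI
    simp only [h1]
    rw [Finset.sum_sub_distrib, ← Finset.sum_mul, ← Complex.ofReal_sum, ← Complex.ofReal_sum,
      Finset.sum_sub_distrib, ← Finset.mul_sum, ← Finset.mul_sum]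
  -- the far roots
  have hfarsym : far.map (starRingEnd ℂ) = far := by
    have h1 := jd_alg_roots K hKre
    have h2 : (K.roots.map (starRingEnd ℂ)).filter (fun v => 2 * ρ < ‖v‖) =
        (K.roots.filter ((fun v => 2 * ρ < ‖v‖) ∘ (starRingEnd ℂ))).map (starRingEnd ℂ) :=
      Multiset.filter_map _ _ _
    rw [h1] at h2
    have h3 : ((fun v : ℂ => 2 * ρ < ‖v‖) ∘ (starRingEnd ℂ)) = fun v => 2 * ρ < ‖v‖ := by
      funext v
      simp
    rw [hfar]
    conv_rhs => rw [h2]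
    simp only [h3]
  have hfd : ∀ r ∈ far, ρ ≤ ‖u - r‖ ∧ ρ ≤ ‖conj u - r‖ := by
    intro r hr
    have h1 := (Multiset.mem_filter.mp hr).2
    constructor
    · have := norm_sub_norm_le r u
      rw [norm_sub_rev] at this
      linarith
    · have := norm_sub_norm_le r (conj u)
      rw [norm_sub_rev, Complex.norm_conj] at this
      linarith
  have hdiff : ∀ r ∈ far, ‖(u - r)⁻¹ - (conj u - r)⁻¹‖ ≤ 2 * |u.im| / ρ ^ 2 := by
    intro r hr
    obtain ⟨h1, h2⟩ := hfd r hr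
    have h3 : u - r ≠ 0 := norm_pos_iff.mp (lt_of_lt_of_le hρ h1)
    have h4 : conj u - r ≠ 0 := norm_pos_iff.mp (lt_of_lt_of_le hρ h2)
    have h5 : (u - r)⁻¹ - (conj u - r)⁻¹ = (conj u - u) * ((u - r)⁻¹ * (conj u - r)⁻¹) := by
      field_simp
      ring
    have h6 : ‖conj u - u‖ = 2 * |u.im| := by
      rw [norm_sub_rev, Complex.sub_conj, norm_mul, Complex.norm_I, mul_one, Complex.norm_real,
        Real.norm_eq_abs, abs_mul, abs_of_pos (by norm_num : (0 : ℝ) < 2)]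
    rw [h5, norm_mul, norm_mul, h6, norm_inv, norm_inv, div_eq_mul_inv]
    apply mul_le_mul_of_nonneg_left _ (by positivity)
    rw [sq, mul_inv]
    exact mul_le_mul (inv_anti₀ hρ h1) (inv_anti₀ hρ h2) (by positivity) (by positivity)
  set Lf := (far.map fun r => (u - r)⁻¹).sum with hLf
  set Qf := (far.map fun r => ((u - r)⁻¹) ^ 2).sum with hQf
  have hLfim : |Lf.im| ≤ M * (2 * |u.im| / ρ ^ 2) / 2 := by
    apply jd_alg_im far hfarsym (fun u v => (u - v)⁻¹) _ u _ hdiff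
    intro u v
    rw [map_inv₀, map_sub]
  have hQfim : |Qf.im| ≤ M * (2 * |u.im| / ρ ^ 2 * (2 / ρ)) / 2 := by
    apply jd_alg_im far hfarsym (fun u v => ((u - v)⁻¹) ^ 2) _ u _
    · intro r hr
      obtain ⟨h1, h2⟩ := hfd r hr
      have h3 : ((u - r)⁻¹) ^ 2 - ((conj u - r)⁻¹) ^ 2 =
          ((u - r)⁻¹ - (conj u - r)⁻¹) * ((u - r)⁻¹ + (conj u - r)⁻¹) := by ring
      show ‖((u - r)⁻¹) ^ 2 - ((conj u - r)⁻¹) ^ 2‖ ≤ _
      rw [h3, norm_mul]
      apply mul_le_mul (hdiff r hr) _ (norm_nonneg _) (by positivity)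
      refine (norm_add_le _ _).trans ?_
      rw [norm_inv, norm_inv]
      have h4 := inv_anti₀ hρ h1
      have h5 := inv_anti₀ hρ h2
      have h6 : 2 / ρ = ρ⁻¹ + ρ⁻¹ := by ring
      rw [h6]
      exact add_le_add h4 h5
    · intro u v
      rw [map_pow, map_inv₀, map_sub]
  have hQfre : |Qf.re| ≤ M * (ρ ^ 2)⁻¹ := by
    refine (Complex.abs_re_le_norm Qf).trans ?_
    apply jd_alg_bound far (fun r => ((u - r)⁻¹) ^ 2) _
    intro r hr
    obtain ⟨h1, _⟩ := hfd r hr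
    rw [norm_pow, norm_inv, ← inv_pow]
    exact pow_le_pow_left₀ (by positivity) (inv_anti₀ hρ h1) 2
  have hLsum : L = (near.map fun r => (u - r)⁻¹).sum + Lf := by
    rw [hL, ← hsum, Multiset.map_add, Multiset.sum_add]
  have hQsum : Q = (near.map fun r => ((u - r)⁻¹) ^ 2).sum + Qf := by
    rw [hQ, ← hsum, Multiset.map_add, Multiset.sum_add]
  set μ := M / ρ ^ 2 with hμ
  have hμ0 : 0 ≤ μ := by positivity
  set ν := Lf.im / u.im with hν
  set κ := -(Qf.im / (2 * u.im)) with hκ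
  have hνb : |ν| ≤ μ := by
    rw [hν, abs_div, div_le_iff₀ hyabs, hμ]
    refine hLfim.trans (le_of_eq ?_)
    ring
  have hκb : |κ| ≤ μ / ρ := by
    rw [hκ, abs_neg, abs_div, abs_mul, abs_of_pos (by norm_num : (0 : ℝ) < 2),
      div_le_iff₀ (by positivity), hμ]
    refine hQfim.trans (le_of_eq ?_)
    field_simp
  have hRb : |Qf.re| ≤ μ := by
    rw [hμ, div_eq_mul_inv]; exact hQfre
  -- real and imaginary parts
  set X := (L - a).re with hX
  have hLim : (L - a).im = -(u.im * (SS - ν)) := by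
    rw [hLsum, hLn]
    simp only [Complex.sub_im, Complex.add_im, Complex.ofReal_im, Complex.mul_im, Complex.ofReal_re,
      Complex.I_im, Complex.I_re, mul_one, mul_zero, add_zero, sub_zero, zero_sub]
    rw [hν]
    field_simp
    ring
  have hre := congrArg Complex.re hE
  have him := congrArg Complex.im hE
  rw [hQsum, hQn] at hre him
  have e1 : ((L - a) ^ 2 + (ε : ℂ) ^ 2).re = X ^ 2 - u.im ^ 2 * (SS - ν) ^ 2 + ε ^ 2 := by
    have : ((L - a) ^ 2).re = X ^ 2 - (L - a).im ^ 2 := by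
      rw [sq, Complex.mul_re, hX]; ring
    rw [Complex.add_re, this, hLim, ← Complex.ofReal_pow, Complex.ofReal_re]
    ring
  have e2 : ((L - a) ^ 2 + (ε : ℂ) ^ 2).im = -(2 * u.im * (X * (SS - ν))) := by
    have : ((L - a) ^ 2).im = 2 * X * (L - a).im := by
      rw [sq, Complex.mul_im, hX]; ring
    rw [Complex.add_im, this, hLim, ← Complex.ofReal_pow, Complex.ofReal_im]
    ring
  rw [e1] at hre
  rw [e2] at him
  simp only [Complex.add_re, Complex.sub_re, Complex.ofReal_re, Complex.mul_re, Complex.ofReal_im,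
    Complex.I_re, Complex.I_im, mul_zero, zero_mul, sub_zero] at hre
  simp only [Complex.add_im, Complex.sub_im, Complex.ofReal_re, Complex.mul_im, Complex.ofReal_im,
    Complex.I_re, Complex.I_im, mul_zero, mul_one, add_zero, zero_sub] at him
  have hE1 : X * (SS - ν) = A + κ := by
    have h1 : 2 * u.im ≠ 0 := by positivity
    have h2 : 2 * u.im * (X * (SS - ν)) = 2 * u.im * (A + κ) := by
      have : 2 * u.im * κ = -Qf.im := by
        rw [hκ]; field_simp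
      rw [mul_add, this]
      linarith
    exact mul_left_cancel₀ h1 h2
  have hρ2 : 0 < ρ ^ 2 := by positivity
  refine jd_alg_num (ε := ε) (y := u.im) hρ hμ0 hS0 hνb hRb hκb ?_ hmx hQ2 hQ2S hQ3 hA hW ?_ hE1 hre
  · refine lt_of_lt_of_le ?_ hrest
    rw [lt_div_iff₀ (by positivity), hlen, hμ]
    have h1 : (2 * ε ^ 2 + 32 * (M / ρ ^ 2)) * (9 * ρ ^ 2) = 18 * ρ ^ 2 * ε ^ 2 + 288 * M := by
      field_simp
      ring
    rw [h1]
    linarith
  · intro hμpos
    have hMpos : 0 < M := by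
      rw [hμ] at hμpos
      by_contra hcon
      have : M = 0 := le_antisymm (not_lt.mp hcon) hM0
      rw [this, zero_div] at hμpos
      exact lt_irrefl _ hμpos
    have hM1 : 1 ≤ M := by
      rw [hM] at hMpos ⊢
      exact_mod_cast hMpos
    have h1 : (N - 1) / (9 * ρ ^ 2) ≤ SS := by
      rw [hlen] at hrest
      linarith
    rw [div_le_iff₀ (by positivity)] at h1
    have h2 : 0 ≤ ρ ^ 2 * ε ^ 2 := by positivity
    have h3 : 18 * ρ ^ 2 * ε ^ 2 + 288 * M + 1 < N := hcnt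
    nlinarith

end Pool.Agent.Lib.MP_cd509c_nt.JD
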