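import Pool.Agent.Lib.MP_cd509c_nt.JD.Defs

/-!
# The annulus is clean
-/

set_option autoImplicit false

namespace Pool.Agent.Lib.MP_cd509c_nt.JD

open Complex ComplexConjugate MeasureTheory
open Pool.Agent.Lib.MP_cd509c_nt.DN

lemma jd_ann_thr (M L : ℝ) : ∃ R : ℝ, 3 ≤ R ∧ ∀ r : ℝ, R ≤ r → L ≤ Real.log r ∧
    M * (1 + Real.log r) ≤ r := by
  set A : ℝ := |M| + 1 with hA
  have hA0 : 0 < A := by positivity
  have h1 := Real.isLittleO_log_id_atTop.bound (show (0 : ℝ) < 1 / (2 * A) by positivity)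
  have h2 := Real.tendsto_log_atTop.eventually_ge_atTop L
  obtain ⟨R, hR⟩ := (h1.and h2).exists_forall_of_atTop
  refine ⟨max R (max 3 (2 * A)), (le_max_left _ _).trans (le_max_right _ _), fun r hr => ?_⟩
  have hr1 : R ≤ r := (le_max_left _ _).trans hr
  have hr2 : 3 ≤ r := (le_max_left _ _).trans ((le_max_right _ _).trans hr)
  have hr3 : 2 * A ≤ r := (le_max_right _ _).trans ((le_max_right _ _).trans hr)
  obtain ⟨h3, h4⟩ := hR r hr1
  refine ⟨h4, ?_⟩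
  have hlog : 0 ≤ Real.log r := Real.log_nonneg (by linarith)
  rw [id, Real.norm_of_nonneg hlog, Real.norm_of_nonneg (by linarith : (0 : ℝ) ≤ r)] at h3
  have h5 : A * Real.log r ≤ r / 2 := by
    have := mul_le_mul_of_nonneg_left h3 hA0.le
    have e : A * (1 / (2 * A) * r) = r / 2 := by field_simp
    linarith
  have h6 : M ≤ A := by rw [hA]; linarith [le_abs_self M]
  have h7 : M * (1 + Real.log r) ≤ A * (1 + Real.log r) := by gcongr
  nlinarith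

lemma jd_ann_conj (D : ℕ) (g : ℂ → ℂ) (hreal : ∀ w, g (conj w) = conj (g w)) (ω : ℂ) :
    Hd D g (conj ω) = conj (Hd D g ω) := by
  unfold Hd
  rw [map_sum]
  apply Finset.sum_congr rfl
  intro k _
  have h := iteratedDeriv_conj' hreal k 0
  rw [map_zero] at h
  rw [map_mul, map_mul, map_pow, map_div₀, ← h]
  simp

/-- far from the axis -/
lemma jd_ann_far {C₁ c₀ C D₀ : ℝ} (hC₁ : 1 ≤ C₁) (hc₀ : 0 < c₀)
    (hFJ : ∀ (D : ℕ) (δ M : ℝ) (F : ℂ → ℂ) (ω₀ : ℂ), D₀ ≤ D → 0 < δ → δ ≤ 1 / 4 → 1 ≤ M →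
      M ≤ c₀ * D * δ ^ 2 → Differentiable ℂ F → ω₀ ≠ 0 →
      (∀ ω : ℂ, ‖ω - ω₀‖ ≤ 2 * δ * ‖ω₀‖ → F ω ≠ 0 ∧ ‖F ω‖ ≤ Real.exp M * ‖F ω₀‖) →
      (∀ ω : ℂ, (1 - δ) * ‖ω₀‖ ≤ ‖ω‖ → ‖ω‖ ≤ (1 + δ) * ‖ω₀‖ →
        ‖F ω‖ ≤ Real.exp (M * (1 + ‖ω / ω₀ - 1‖ / δ)) * ‖F ω₀‖) →
      Hd D F ω₀ ≠ 0 ∧ |Real.log ‖Hd D F ω₀‖ - Real.log ‖F ω₀‖| ≤ C * (M ^ 2 / (D * δ ^ 2) + 1))
    (D : ℕ) (g : ℂ → ℂ) (z : ℂ) (hD₀ : D₀ ≤ D) (hD : 1 ≤ (D : ℝ)) (hz1 : 1 ≤ ‖z‖)
    (hlog : 1 ≤ Real.log ‖z‖) (him : 1 ≤ |z.im|)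
    (him2 : 512 * C₁ / c₀ * (‖z‖ ^ 2 * Real.log ‖z‖ / D) ≤ |z.im|) (hF : FarReg C₁ g z) :
    Hd D g (z ^ 2) ≠ 0 := by
  have hz0 : 0 < ‖z‖ := by linarith
  have hne : z ≠ 0 := norm_pos_iff.mp hz0
  have hy0 : 0 < |z.im| := by linarith
  have hyz : |z.im| ≤ ‖z‖ := abs_im_le_norm z
  have hD0 : (0 : ℝ) < D := by linarith
  set L := Real.log ‖z‖ with hL
  have hL0 : 0 < L := by linarith
  set δ : ℝ := |z.im| / (8 * ‖z‖) with hδ
  have hδ0 : 0 < δ := by positivity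
  have hδ1 : δ ≤ 1 / 8 := by
    rw [hδ, div_le_iff₀ (by positivity)]; linarith
  have hn2 : ‖z ^ 2‖ = ‖z‖ ^ 2 := norm_pow z 2
  refine (hFJ D δ (8 * C₁ * |z.im| * L) g (z ^ 2) hD₀ hδ0 (by linarith) ?_ ?_ hF.diff
    (pow_ne_zero 2 hne) ?_ ?_).1
  · have h1 : 1 ≤ |z.im| * L := one_le_mul_of_one_le_of_one_le him hlog
    have h2 : 1 ≤ C₁ * (|z.im| * L) := one_le_mul_of_one_le_of_one_le hC₁ h1
    linarith
  · have e : c₀ * D * δ ^ 2 = c₀ * D * |z.im| ^ 2 / (64 * ‖z‖ ^ 2) := by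
      rw [hδ]; field_simp; ring
    rw [e, le_div_iff₀ (by positivity)]
    have h1 : 512 * C₁ * (‖z‖ ^ 2 * L) ≤ c₀ * D * |z.im| := by
      have h2 := mul_le_mul_of_nonneg_left him2 (show 0 ≤ c₀ * D by positivity)
      have e2 : c₀ * D * (512 * C₁ / c₀ * (‖z‖ ^ 2 * L / D)) = 512 * C₁ * (‖z‖ ^ 2 * L) := by
        field_simp
      linarith
    have h3 := mul_le_mul_of_nonneg_right h1 hy0.le
    linarith
  · intro w hw
    rw [hn2] at hw
    have e : 2 * δ * ‖z‖ ^ 2 = ‖z‖ * |z.im| / 4 := by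
      rw [hδ]; field_simp; ring
    rw [e] at hw
    obtain ⟨h1, h2⟩ := hF.ne w hw
    refine ⟨h1, h2.trans ?_⟩
    have h3 : C₁ * |z.im| * L ≤ 8 * C₁ * |z.im| * L := by
      have : 0 ≤ C₁ * |z.im| * L := by positivity
      linarith
    gcongr
  · intro w hw1 hw2
    rw [hn2] at hw1 hw2
    have h0 : 0 < ‖z‖ ^ 2 := by positivity
    have hδ2 := mul_le_mul_of_nonneg_right hδ1 h0.le
    have h1 : ‖z‖ ^ 2 / 2 ≤ ‖w‖ := by linarith
    have h2 : ‖w‖ ≤ 2 * ‖z‖ ^ 2 := by linarith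
    refine (hF.glob w h1 h2).trans ?_
    have e1 : w / z ^ 2 - 1 = (w - z ^ 2) / z ^ 2 := by
      field_simp
    have e2 : ‖w / z ^ 2 - 1‖ = ‖w - z ^ 2‖ / ‖z‖ ^ 2 := by
      rw [e1, norm_div, hn2]
    have e3 : 8 * C₁ * |z.im| * L * (1 + ‖w / z ^ 2 - 1‖ / δ) =
        C₁ * L * (8 * |z.im| + 64 * (‖w - z ^ 2‖ / ‖z‖)) := by
      rw [e2, hδ]
      field_simp
      ring
    rw [e3]
    have h3 : 0 ≤ ‖w - z ^ 2‖ / ‖z‖ := by positivity
    have h4 : |z.im| + ‖w - z ^ 2‖ / ‖z‖ ≤ 8 * |z.im| + 64 * (‖w - z ^ 2‖ / ‖z‖) := by linarith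
    gcongr

/-- the numerical estimates near the axis -/
lemma jd_ann_num {K D V Y ε : ℝ} (hK : 16 ≤ K) (hD : 1 ≤ D) (hV : 1 ≤ V) (hY : 1 ≤ Y)
    (hε : 0 < ε) (z : ℂ) (hz : 3 ≤ ‖z‖) (hlo : K * D / 2 ≤ ‖z‖ ^ 2) (hhi : ‖z‖ ^ 2 ≤ K * D)
    (hL : 3 ≤ Real.log ‖z‖) (hM1 : 100 * V * K * (1 + Real.log ‖z‖) ≤ ‖z‖)
    (hM2 : 200 * K * Y ^ 2 / ε * (1 + Real.log ‖z‖) ≤ ‖z‖)
    (him : |z.im| < V * (1 + ‖z‖ ^ 2 * Real.log ‖z‖ / D)) (him0 : z.im ≠ 0) :
    ∃ x a l y : ℝ, 0 < x ∧ x ^ 2 = (z ^ 2).re ∧ l = Real.log x ∧ a = x ^ 2 * l / (8 * D) ∧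
      Real.log ‖z‖ - 1 ≤ l ∧ 1 ≤ a ∧ 2 ≤ l ∧ 0 < y ∧ y ≤ 10 * V ∧ 2 * a * x * y = |(z ^ 2).im| ∧
      K * D / 4 ≤ x ^ 2 ∧ x ^ 2 ≤ 4 * K * D ∧ 1000 * a * Y ^ 2 ≤ ε * x := by
  set r := ‖z‖ with hr
  set L := Real.log r with hLd
  have hr0 : 0 < r := by linarith
  have hD0 : 0 < D := by linarith
  have hK0 : 0 < K := by linarith
  have hsq : r ^ 2 = z.re ^ 2 + z.im ^ 2 := by
    rw [hr, Complex.sq_norm, Complex.normSq_apply]; ring
  have hre : (z ^ 2).re = r ^ 2 - 2 * z.im ^ 2 := by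
    rw [hsq, pow_two, mul_re]; ring
  have him' : (z ^ 2).im = 2 * z.re * z.im := by
    rw [pow_two, mul_im]; ring
  -- z.im is small
  have h1 : r ^ 2 * L / D ≤ K * L := by
    rw [div_le_iff₀ hD0]
    have := mul_le_mul_of_nonneg_right hhi (show 0 ≤ L by linarith)
    linarith
  have h2 : |z.im| ≤ r / 100 := by
    have h3 : V * (1 + r ^ 2 * L / D) ≤ V * K * (1 + L) := by
      have : V * (1 + r ^ 2 * L / D) ≤ V * (K * (1 + L)) := by
        apply mul_le_mul_of_nonneg_left _ (by linarith)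
        linarith
      linarith
    linarith
  have h3 : z.im ^ 2 ≤ r ^ 2 / 10000 := by
    have : |z.im| ^ 2 ≤ (r / 100) ^ 2 := by
      apply pow_le_pow_left₀ (abs_nonneg _) h2
    rw [sq_abs] at this
    linarith
  have hpos : 0.99 * r ^ 2 ≤ (z ^ 2).re := by
    rw [hre]; linarith [sq_nonneg r]
  have hr2 : 0 < r ^ 2 := by positivity
  have hxsq : Real.sqrt (z ^ 2).re ^ 2 = (z ^ 2).re := Real.sq_sqrt (by linarith)
  set x := Real.sqrt (z ^ 2).re with hx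
  have hx0 : 0 < x := Real.sqrt_pos.mpr (by linarith)
  have hxr : x ≤ r := by
    apply le_of_sq_le_sq _ hr0.le
    rw [hxsq, hre]; linarith [sq_nonneg z.im]
  have hxr' : 0.99 * r ≤ x := by
    apply le_of_sq_le_sq _ hx0.le
    have e : (0.99 * r) ^ 2 = 0.9801 * r ^ 2 := by ring
    rw [hxsq, e]; linarith
  -- logarithms
  have hlogx : L - 0.02 ≤ Real.log x := by
    have h4 : Real.log (0.99 * r) ≤ Real.log x := Real.log_le_log (by positivity) hxr'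
    rw [Real.log_mul (by norm_num) hr0.ne'] at h4
    have h5 : -0.02 ≤ Real.log 0.99 := by
      have := Real.one_sub_inv_le_log_of_pos (show (0 : ℝ) < 0.99 by norm_num)
      refine le_trans ?_ this
      norm_num
    linarith
  set l := Real.log x with hl
  have hl2 : 2 ≤ l := by linarith
  have hlL : l ≤ L := Real.log_le_log hx0 hxr
  set a := x ^ 2 * l / (8 * D) with ha
  have ha' : 8 * D * a = x ^ 2 * l := by rw [ha]; field_simp
  have hx2lo : 0.99 * (K * D / 2) ≤ x ^ 2 := by rw [hxsq]; linarith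
  have hx2hi : x ^ 2 ≤ K * D := by
    have : x ^ 2 ≤ r ^ 2 := by apply pow_le_pow_left₀ hx0.le hxr
    linarith
  have ha1 : 1 ≤ a := by
    have h4 : 8 * D * 1 ≤ 8 * D * a := by
      rw [ha']
      have h5 : 0.99 * (K * D / 2) * 2 ≤ x ^ 2 * l :=
        mul_le_mul hx2lo hl2 (by norm_num) (by positivity)
      have h6 : 16 * D ≤ K * D := by gcongr
      linarith
    exact le_of_mul_le_mul_left h4 (by positivity)
  have ha0 : 0 < a := by linarith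
  have haK : a ≤ K * L / 8 := by
    have h4 : 8 * D * a ≤ 8 * D * (K * L / 8) := by
      rw [ha']
      have h5 : x ^ 2 * l ≤ K * D * L := mul_le_mul hx2hi hlL (by linarith) (by positivity)
      linarith
    exact le_of_mul_le_mul_left h4 (by positivity)
  have hb : r ^ 2 * L / D ≤ 8.3 * a := by
    rw [div_le_iff₀ hD0]
    have h4 : 0.99 * r ^ 2 ≤ x ^ 2 := by rw [hxsq]; exact hpos
    have h5 : L ≤ 1.01 * l := by linarith
    have h6 : r ^ 2 * L ≤ (x ^ 2 / 0.99) * (1.01 * l) := by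
      apply mul_le_mul _ h5 (by linarith) (by positivity)
      rw [le_div_iff₀ (by norm_num)]; linarith
    have h7 : (x ^ 2 / 0.99) * (1.01 * l) = (1.01 / 0.99) * (x ^ 2 * l) := by ring
    rw [h7, ← ha'] at h6
    have h8 : 0 < D * a := by positivity
    linarith
  refine ⟨x, a, l, |(z ^ 2).im| / (2 * a * x), hx0, hxsq, rfl, ha, by linarith, ha1, hl2, ?_, ?_,
    ?_, ?_, ?_, ?_⟩
  · have hzre : z.re ≠ 0 := by
      intro h
      rw [h] at hsq
      linarith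
    have : 0 < |(z ^ 2).im| := by
      rw [abs_pos, him']
      exact mul_ne_zero (mul_ne_zero two_ne_zero hzre) him0
    positivity
  · rw [div_le_iff₀ (by positivity), him', abs_mul, abs_mul, abs_two]
    have h4 : |z.re| ≤ r := abs_re_le_norm z
    have h5 : |z.im| ≤ 9.3 * V * a := by
      have h6 : V * (1 + r ^ 2 * L / D) ≤ V * (a + 8.3 * a) := by
        apply mul_le_mul_of_nonneg_left _ (by linarith)
        linarith
      linarith
    have h6 : r ≤ x / 0.99 := by rw [le_div_iff₀ (by norm_num)]; linarith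
    have h7 : 2 * |z.re| * |z.im| ≤ 2 * (x / 0.99) * (9.3 * V * a) := by
      apply mul_le_mul _ h5 (abs_nonneg _) (by positivity)
      linarith
    have h8 : 0 < V * a * x := by positivity
    have h9 : 2 * (x / 0.99) * (9.3 * V * a) = (18.6 / 0.99) * (V * a * x) := by ring
    have h10 : 10 * V * (2 * a * x) = 20 * (V * a * x) := by ring
    rw [h10]
    rw [h9] at h7
    refine h7.trans ?_
    apply mul_le_mul_of_nonneg_right _ h8.le
    norm_num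
  · field_simp
  · linarith [mul_pos hK0 hD0]
  · linarith [mul_pos hK0 hD0]
  · have h4 : 200 * K * Y ^ 2 * (1 + L) ≤ ε * r := by
      have := mul_le_mul_of_nonneg_left hM2 hε.le
      have e : ε * (200 * K * Y ^ 2 / ε * (1 + L)) = 200 * K * Y ^ 2 * (1 + L) := by
        field_simp
      linarith
    have h5 : 1000 * a * Y ^ 2 ≤ 125 * K * Y ^ 2 * L := by
      have : 1000 * a * Y ^ 2 ≤ 1000 * (K * L / 8) * Y ^ 2 := by gcongr
      linarith
    have h6 : 0 < K * Y ^ 2 := by positivity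
    have h6' : 0 ≤ K * Y ^ 2 * L := mul_nonneg h6.le (by linarith)
    have h7 : 125 * K * Y ^ 2 * L ≤ 0.99 * (200 * K * Y ^ 2 * (1 + L)) := by
      linarith
    have h8 : ε * (0.99 * r) ≤ ε * x := by gcongr
    linarith

theorem p_ann (h1 : S_NII) (h2 : S_nrF) (h3 : S_FRF) (h4 : S_FJ) : S_ann := by
  obtain ⟨C₁, hC₁, hnr⟩ := h2
  obtain ⟨C, Y₀, ε₀, B, hC, hY₀, hε₀, hB, hNII⟩ := h1 C₁ hC₁
  obtain ⟨C₁', V', K₀', hC₁', hV', hK₀', hFR⟩ := h3
  obtain ⟨c₀, CJ, D₀J, hc₀, hCJ, hD₀J, hFJ⟩ := h4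
  set V : ℝ := max V' (512 * C₁' / c₀) with hV
  have hVV : V' ≤ V := le_max_left _ _
  have hVc : 512 * C₁' / c₀ ≤ V := le_max_right _ _
  have hV1 : 1 ≤ V := hV'.trans hVV
  set Y : ℝ := max (Y₀ / ε₀) (max 160 (100 * V)) with hY
  have hY1 : Y₀ / ε₀ ≤ Y := le_max_left _ _
  have hY2 : 160 ≤ Y := (le_max_left _ _).trans (le_max_right _ _)
  have hY3 : 100 * V ≤ Y := (le_max_right _ _).trans (le_max_right _ _)
  obtain ⟨K₁, hK₁, hnr⟩ := hnr ε₀ Y hε₀ (by linarith)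
  obtain ⟨N₀, hN₀, hNII⟩ := hNII ε₀ hε₀ le_rfl
  refine ⟨max K₁ K₀', hK₁.trans (le_max_left _ _), fun K hK => ?_⟩
  have hKn : K₁ ≤ K := (le_max_left _ _).trans hK
  have hKf : K₀' ≤ K := (le_max_right _ _).trans hK
  have hK16 : 16 ≤ K := hK₁.trans hKn
  obtain ⟨D₁, hnr⟩ := hnr K hKn
  obtain ⟨D₂, hFR⟩ := hFR K hKf
  obtain ⟨R₁, hR₁3, hR₁⟩ := jd_ann_thr (100 * V * K) (max 3 (N₀ + 1))
  obtain ⟨R₂, hR₂3, hR₂⟩ := jd_ann_thr (200 * K * Y ^ 2 / ε₀) 3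
  refine ⟨max (max D₁ D₂) (max D₀J (max (R₁ ^ 2) (R₂ ^ 2))), ?_⟩
  -- the case of the lower half plane
  have main : ∀ (D : ℕ) (s : List (ℝ × ℝ)) (g : ℂ → ℂ) (ω : ℂ),
      max (max D₁ D₂) (max D₀J (max (R₁ ^ 2) (R₂ ^ 2))) ≤ D → Fam D s g →
      K * D / 2 ≤ ‖ω‖ → ‖ω‖ ≤ K * D → ω.im < 0 → Hd D g ω ≠ 0 := by
    intro D s g ω hD hF hlo hhi him
    have hD1 : D₁ ≤ D := (le_max_left _ _).trans ((le_max_left _ _).trans hD)
    have hD2 : D₂ ≤ D := (le_max_right _ _).trans ((le_max_left _ _).trans hD)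
    have hD3 : D₀J ≤ D := (le_max_left _ _).trans ((le_max_right _ _).trans hD)
    have hD4 : R₁ ^ 2 ≤ D := (le_max_left _ _).trans ((le_max_right _ _).trans
      ((le_max_right _ _).trans hD))
    have hD5 : R₂ ^ 2 ≤ D := (le_max_right _ _).trans ((le_max_right _ _).trans
      ((le_max_right _ _).trans hD))
    have hD9 : (9 : ℝ) ≤ D := by
      have := pow_le_pow_left₀ (by norm_num) hR₁3 2
      linarith
    have hDp : (0 : ℝ) < D := by linarith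
    obtain ⟨z, hz⟩ := IsAlgClosed.exists_pow_nat_eq ω (n := 2) two_pos
    have hzn : ‖z‖ ^ 2 = ‖ω‖ := by rw [← hz, norm_pow]
    have hz0 : 0 ≤ ‖z‖ := norm_nonneg z
    have hKD : 16 * (D : ℝ) ≤ K * D := mul_le_mul_of_nonneg_right hK16 hDp.le
    have hzD : (D : ℝ) ≤ ‖z‖ ^ 2 := by rw [hzn]; linarith
    have hr1 : R₁ ≤ ‖z‖ := le_of_sq_le_sq (hD4.trans hzD) hz0
    have hr2 : R₂ ≤ ‖z‖ := le_of_sq_le_sq (hD5.trans hzD) hz0
    obtain ⟨hL1, hM1⟩ := hR₁ _ hr1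
    obtain ⟨-, hM2⟩ := hR₂ _ hr2
    have hL3 : 3 ≤ Real.log ‖z‖ := (le_max_left _ _).trans hL1
    have hLN : N₀ + 1 ≤ Real.log ‖z‖ := (le_max_right _ _).trans hL1
    have hz3 : 3 ≤ ‖z‖ := hR₁3.trans hr1
    have hzim : z.im ≠ 0 := by
      intro h
      have : ω.im = 0 := by rw [← hz, pow_two, mul_im, h]; ring
      linarith
    by_cases hcase : V * (1 + ‖z‖ ^ 2 * Real.log ‖z‖ / D) ≤ |z.im|
    · -- far from the axis
      have h5 : 0 ≤ ‖z‖ ^ 2 * Real.log ‖z‖ / D := by positivity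
      have hexp : V * (1 + ‖z‖ ^ 2 * Real.log ‖z‖ / D) = V + V * (‖z‖ ^ 2 * Real.log ‖z‖ / D) := by
        ring
      rw [hexp] at hcase
      have hVt : 0 ≤ V * (‖z‖ ^ 2 * Real.log ‖z‖ / D) := mul_nonneg (by linarith) h5
      have h6 : V ≤ |z.im| := by linarith
      rw [← hz]
      refine jd_ann_far hC₁' hc₀ hFJ D g z hD3 (by linarith) (by linarith) (by linarith)
        (by linarith) ?_ (hFR D s g z hD2 hF ?_ ?_ (hVV.trans h6))
      · have h7 := mul_le_mul_of_nonneg_right hVc h5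
        linarith
      · rw [hzn]; linarith
      · rw [hzn]; linarith
    · -- near the axis
      push Not at hcase
      obtain ⟨x, a, l, y, hx0, hx2, hl, ha, hlL, ha1, hl2, hy0, hyV, hy, hxlo, hxhi, hax⟩ :=
        jd_ann_num (D := D) hK16 (by linarith) hV1 (show 1 ≤ Y by linarith) hε₀ z hz3
          (by rw [hzn]; exact hlo) (by rw [hzn]; exact hhi) hL3 hM1 hM2 hcase hzim
      have ha0 : 0 < a := by linarith
      have hNR := hnr D s g x a l hD1 hF hx0 hxlo hxhi hl ha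
      have hDa : 8 * D * a = x ^ 2 * l := by rw [ha]; field_simp
      have hx2p : 0 < x ^ 2 := by positivity
      have hal : l ≤ a * l := le_mul_of_one_le_left (by linarith) ha1
      have hNC := hNII D 0 (a * l) 1 Y x a g (by linarith) (by
        have : 0 ≤ a * l := by positivity
        simpa using this) le_rfl (by linarith) (by
        rw [div_le_iff₀ hε₀] at hY1; linarith) ha0 hx0 hax (by
        have h5 : 4 * D * a ^ 2 = (x ^ 2 * l) * a / 2 := by rw [← hDa]; ring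
        have h6 : 0 < x ^ 2 * l * a := by positivity
        rw [h5]; linarith) (by
        have h5 : 16 * D * a ^ 2 = 2 * ((x ^ 2 * l) * a) := by rw [← hDa]; ring
        have h6 : 0 < x ^ 2 * l * a := by positivity
        rw [h5]; linarith) hNR
      have h5 := hNC.1 rfl y hy0 (by linarith)
      rw [iteratedDeriv_zero] at h5
      have h6 : om x a y = ω := by
        rw [← hz]
        apply Complex.ext
        · rw [← hx2, om]
          simp [pow_two]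
        · have h7 : (z ^ 2).im = -(2 * a * x * y) := by
            rw [hy, abs_of_neg (by rw [hz]; exact him), neg_neg]
          rw [h7, om]
          simp [pow_two]
      rw [h6] at h5
      exact h5
  intro D s g ω hD hF hlo hhi h0
  by_contra him
  rcases lt_or_gt_of_ne him with h | h
  · exact main D s g ω hD hF hlo hhi h h0
  · refine main D s g (conj ω) hD hF ?_ ?_ ?_ ?_
    · rw [norm_conj]; exact hlo
    · rw [norm_conj]; exact hhi
    · rw [conj_im]; linarith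
    · rw [jd_ann_conj D g hF.1.real ω, h0, map_zero]

end Pool.Agent.Lib.MP_cd509c_nt.JD
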