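import Pool.Agent.Lib.MP_cd509c_nt.JD.P.blk2

set_option autoImplicit false

/-!
Project JD (helper50): one block, region I (helper49).
-/

namespace Pool.Agent.Lib.MP_cd509c_nt.JD

open Complex ComplexConjugate Pool.Agent.Lib.MP_cd509c_nt.DN

theorem p_blkI (hnr : S_nrG) (hNI : S_NI) (hFZ : S_FZ) (htop : S_top)
    (hmb : S_mb (fun _ => 1)) : S_blkI := by
  intro A B hA hB
  obtain ⟨C₁, V₀, hC₁, hV₀, hnr'⟩ := hnr
  obtain ⟨C, Y₀, ε₀, hC, hY₀, hε₀, hNI'⟩ := hNI C₁ B hC₁ hB
  set ε : ℝ := min ε₀ 1 with hε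
  have hε0 : 0 < ε := lt_min hε₀ one_pos
  have hε1 : ε ≤ 1 := min_le_right _ _
  obtain ⟨N₀, hN₀, hNI''⟩ := hNI' ε hε0 (min_le_left _ _)
  obtain ⟨W, T₁, hW, hT₁, hfar⟩ := jd_far hFZ A hA
  obtain ⟨V, l₁, hV1, hV2, htop'⟩ := htop (ε / 800) (by positivity)
    (max V₀ (max A (max (A * Y₀ / ε) (W * (1 + A * B)))))
  have hVV₀ : V₀ ≤ V := (le_max_left _ _).trans hV1
  have hVA : A ≤ V := ((le_max_left _ _).trans (le_max_right _ _)).trans hV1
  have hVY : A * Y₀ / ε ≤ V :=
    (((le_max_left _ _).trans (le_max_right _ _)).trans (le_max_right _ _)).trans hV1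
  have hVW : W * (1 + A * B) ≤ V :=
    (((le_max_right _ _).trans (le_max_right _ _)).trans (le_max_right _ _)).trans hV1
  obtain ⟨l₂, hl₂, hnr''⟩ := hnr' ε A V hε0 hε1 hA hVV₀
  obtain ⟨C₃, c, T₂, hC₃, hc, hT₂, hcore⟩ := blk_core hmb (ε / 800) V C (by positivity) hV2
    (by linarith)
  obtain ⟨T₃, hT₃, hev⟩ := blk_ev (max (max l₁ l₂) (4 * 10 ^ 9 * V ^ 2 / ε))
  refine ⟨max C₃ (max N₀ 1), c, max T₁ (max T₂ T₃), lt_of_lt_of_le hC₃ (le_max_left _ _), hc,
    hT₁.trans (le_max_left _ _), ?_⟩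
  intro D n T hT hn hnA hBT S hS
  have hTT₁ : T₁ ≤ T := (le_max_left _ _).trans hT
  have hTT₂ : T₂ ≤ T := ((le_max_left _ _).trans (le_max_right _ _)).trans hT
  have hTT₃ : T₃ ≤ T := ((le_max_right _ _).trans (le_max_right _ _)).trans hT
  obtain ⟨hev1, hev2⟩ := hev T hTT₃
  have hT2 : 2 ≤ T := hT₁.trans hTT₁
  have hT0 : 0 < T := by linarith
  set l : ℝ := Real.log T with hl
  have hl₁l : l₁ ≤ l := ((le_max_left _ _).trans (le_max_left _ _)).trans hev2
  have hl₂l : l₂ ≤ l := ((le_max_right _ _).trans (le_max_left _ _)).trans hev2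
  have hl1 : 1 ≤ l := hl₂.trans hl₂l
  have hl0 : 0 < l := by linarith
  have hnC : C₃ ≤ n := (le_max_left _ _).trans hn
  have hnN₀ : N₀ ≤ n := ((le_max_left _ _).trans (le_max_right _ _)).trans hn
  have hn1 : (1 : ℝ) ≤ n := ((le_max_right _ _).trans (le_max_right _ _)).trans hn
  set a : ℝ := n / l with ha
  have ha0 : 0 < a := by positivity
  have haA : a ≤ A := by rw [ha, div_le_iff₀ hl0]; exact hnA
  have hnal : (n : ℝ) = a * l := by rw [ha]; field_simp
  obtain ⟨J, hJ1, hJ2, hJ3⟩ := dn_blockDs_J (a := a / 4) (V := V) (by positivity) (by linarith)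
  -- `D` is positive
  have hD0 : (0 : ℝ) ≤ D := Nat.cast_nonneg D
  have hDpos : 0 < (D : ℝ) := by
    rcases hD0.eq_or_lt with hd | hd
    · rw [← hd, mul_zero] at hBT
      have : 0 < T ^ 2 * l ^ 2 := by positivity
      linarith
    · exact hd
  have hm : T ^ 2 * l / D ≤ A * B := by
    rw [div_le_iff₀ hDpos]
    have h1 : T ^ 2 * l * l ≤ A * B * D * l := by
      calc T ^ 2 * l * l = T ^ 2 * l ^ 2 := by ring
        _ ≤ B * n * D := hBT
        _ ≤ B * (A * l) * D := by
            apply mul_le_mul_of_nonneg_right _ hD0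
            exact mul_le_mul_of_nonneg_left hnA (by linarith)
        _ = _ := by ring
    exact le_of_mul_le_mul_right h1 hl0
  have h2Ja : ∀ j ≤ J, (2 : ℝ) ^ j * a ≤ 8 * V := by
    intro j hj
    have h1 : (2 : ℝ) ^ j ≤ 2 ^ J := pow_le_pow_right₀ (by norm_num) hj
    have h2 : (2 : ℝ) ^ j * a ≤ 2 ^ J * a := mul_le_mul_of_nonneg_right h1 ha0.le
    linarith
  have hkey := hcore D n J T a n (2000 * V / a) hTT₂ ha0 hnal hn1 hJ1 hJ2 hJ3
    (by
      intro x hx1 hx2 i hi hg
      have hx0 : 0 < x := by linarith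
      have hNR := hnr'' l hl₂l x hx0 (dn_blockDs_log hT0 hx1 hx2) a ha0 haA
        (by rw [← hnal]; exact hn1) i J hi hJ1 hJ2 hg
      rw [← hnal] at hNR
      refine hNI'' D n (2 ^ i) (2000 * V / a) x a ff hnN₀ (one_le_pow₀ (by norm_num)) ?_ ?_ ha0
        hx0 ?_ ?_ hNR
      · rw [le_div_iff₀ ha0]
        have := h2Ja i hi
        linarith
      · rw [← mul_div_assoc, le_div_iff₀ ha0]
        rw [div_le_iff₀ hε0] at hVY
        nlinarith
      · -- `1000 a Y² ≤ ε x`
        have e1 : 1000 * a * (2000 * V / a) ^ 2 = 4 * 10 ^ 9 * V ^ 2 / a := by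
          field_simp
          norm_num
        rw [e1]
        have e2 : 1 / a ≤ l := by
          rw [ha, one_div_div, div_le_iff₀ (by linarith)]
          nlinarith
        have e3 : 4 * 10 ^ 9 * V ^ 2 / ε * l ≤ T := by
          calc 4 * 10 ^ 9 * V ^ 2 / ε * l
              ≤ max (max l₁ l₂) (4 * 10 ^ 9 * V ^ 2 / ε) * l ^ 6 := by
                apply mul_le_mul (le_max_right _ _) _ hl0.le
                  (le_trans (by positivity) (le_max_right _ _))
                exact le_self_pow₀ hl1 (by norm_num)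
            _ ≤ T := hev1
        calc 4 * 10 ^ 9 * V ^ 2 / a = ε * (4 * 10 ^ 9 * V ^ 2 / ε * (1 / a)) := by
              field_simp
          _ ≤ ε * (4 * 10 ^ 9 * V ^ 2 / ε * l) := by
              apply mul_le_mul_of_nonneg_left _ hε0.le
              exact mul_le_mul_of_nonneg_left e2 (by positivity)
          _ ≤ ε * x := mul_le_mul_of_nonneg_left (e3.trans hx1) hε0.le
      · -- `n x² ≤ 4 B D a²`
        have h1 : x ^ 2 ≤ 4 * T ^ 2 := by nlinarith
        have h2 : (n : ℝ) * (T ^ 2 * l ^ 2) ≤ B * n ^ 2 * D := by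
          calc (n : ℝ) * (T ^ 2 * l ^ 2) ≤ n * (B * n * D) :=
                mul_le_mul_of_nonneg_left hBT (by linarith)
            _ = _ := by ring
        have h3 : B * (n : ℝ) ^ 2 * D = B * D * a ^ 2 * l ^ 2 := by rw [hnal]; ring
        rw [h3] at h2
        have h4 : (n : ℝ) * T ^ 2 ≤ B * D * a ^ 2 := by
          have : (n : ℝ) * T ^ 2 * l ^ 2 ≤ B * D * a ^ 2 * l ^ 2 := by linarith
          exact le_of_mul_le_mul_right this (by positivity)
        calc (n : ℝ) * x ^ 2 ≤ n * (4 * T ^ 2) := mul_le_mul_of_nonneg_left h1 (by linarith)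
          _ = 4 * (n * T ^ 2) := by ring
          _ ≤ 4 * (B * D * a ^ 2) := by linarith
          _ = _ := by ring)
    (by
      intro z hz1 hz2 h0 hnorm
      have h1 : T ^ 2 ≤ (pz z).re := pow_le_pow_left₀ hT0.le hz1 2
      have h2 : (pz z).re ≤ 4 * T ^ 2 := by
        show z.re ^ 2 ≤ 4 * T ^ 2
        nlinarith
      have h3 := hfar D n T (pz z) hTT₁ hnA h1 h2 hnorm h0
      have h4 : |(pz z).im| = 2 * z.re * |z.im| := by
        show |2 * z.re * z.im| = 2 * z.re * |z.im|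
        rw [abs_mul, abs_of_pos (by linarith)]
      rw [h4] at h3
      have h5 : 2 * T * |z.im| ≤ W * T * (1 + A * B) := by
        calc 2 * T * |z.im| ≤ 2 * z.re * |z.im| :=
              mul_le_mul_of_nonneg_right (by linarith) (abs_nonneg _)
          _ ≤ W * T * (1 + T ^ 2 * l / D) := h3
          _ ≤ W * T * (1 + A * B) := by
              apply mul_le_mul_of_nonneg_left _ (by positivity)
              linarith
      have h6 : |z.im| ≤ 200 * V := by
        have h7 : 2 * T * |z.im| ≤ 2 * T * (200 * V) := by nlinarith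
        exact le_of_mul_le_mul_left h7 (by positivity)
      rw [div_le_iff₀ ha0]
      calc |z.im| ≤ 200 * V := h6
        _ = 2000 * V / a / 10 * a := by field_simp; norm_num)
    (by
      intro x hx1 hx2
      exact htop' l hl₁l x (by linarith) (dn_blockDs_log hT0 hx1 hx2) _ hJ1 hJ2)
    S hS
  refine hkey.trans ?_
  apply mul_le_mul_of_nonneg_right _ (Real.exp_pos _).le
  apply mul_le_mul_of_nonneg_right _ hl0.le
  exact mul_le_mul_of_nonneg_right (le_max_left _ _) hT0.le

end Pool.Agent.Lib.MP_cd509c_nt.JD
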