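import Pool.Agent.Lib.MP_cd509c_nt.JD.P.blk2

set_option autoImplicit false

/-!
Project JD (helper50): one block, region II (helper49).
-/

namespace Pool.Agent.Lib.MP_cd509c_nt.JD

open Complex ComplexConjugate Pool.Agent.Lib.MP_cd509c_nt.DN

/-- in region II the scale is not large -/
theorem blkII_a {T D : ℝ} (hT : Real.exp 1 ≤ T) (hD : 1 ≤ D)
    (h : T ^ 2 ≤ D * Real.log D ^ 2) :
    T ^ 2 * Real.log T / (4 * D) ≤ 9 / 4 * Real.log T ^ 3 := by
  have hT0 : 0 < T := lt_of_lt_of_le (Real.exp_pos 1) hT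
  have he := Real.exp_one_gt_d9
  have hl : 1 ≤ Real.log T := by rwa [Real.le_log_iff_exp_le hT0]
  have hlD : 0 ≤ Real.log D := Real.log_nonneg hD
  rw [div_le_iff₀ (by positivity)]
  rcases le_or_gt D (T ^ 3) with hc | hc
  · have h1 : Real.log D ≤ 3 * Real.log T := by
      have := Real.log_le_log (by linarith) hc
      rwa [Real.log_pow] at this
    have h2 : Real.log D ^ 2 ≤ 9 * Real.log T ^ 2 := by
      calc Real.log D ^ 2 ≤ (3 * Real.log T) ^ 2 := pow_le_pow_left₀ hlD h1 2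
        _ = _ := by ring
    calc T ^ 2 * Real.log T ≤ D * Real.log D ^ 2 * Real.log T :=
          mul_le_mul_of_nonneg_right h (by linarith)
      _ ≤ D * (9 * Real.log T ^ 2) * Real.log T := by
          apply mul_le_mul_of_nonneg_right _ (by linarith)
          exact mul_le_mul_of_nonneg_left h2 (by linarith)
      _ = _ := by ring
  · have h1 : T ^ 2 ≤ T ^ 3 := pow_le_pow_right₀ (by linarith) (by norm_num)
    have h2 : Real.log T ≤ Real.log T ^ 3 := le_self_pow₀ hl (by norm_num)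
    calc T ^ 2 * Real.log T ≤ D * Real.log T ^ 3 :=
          mul_le_mul (h1.trans hc.le) h2 (by linarith) (by linarith)
      _ ≤ 9 * (D * Real.log T ^ 3) := by
          have : 0 ≤ D * Real.log T ^ 3 := by positivity
          linarith
      _ = _ := by ring

theorem p_blkII (hnr : S_nrG) (hnrT : S_nrT) (hNII : S_NII) (hFZ : S_FZ) (htop : S_top)
    (hmb : S_mb (fun _ => 1)) : S_blkII := by
  intro A hA
  obtain ⟨W, T₁, hW, hT₁, hfar⟩ := jd_far hFZ A hA
  -- large scales
  obtain ⟨K₁, hK₁, hnrT'⟩ := hnrT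
  obtain ⟨Ct, Yt, εt₀, Bt, hCt, hYt, hεt₀, hBt, hNt⟩ := hNII K₁ hK₁
  obtain ⟨Nt, hNt1, hNt'⟩ := hNt εt₀ hεt₀ le_rfl
  set Ys : ℝ := max 160 (max (25 * W) (Yt / εt₀)) with hYs
  have hYs1 : 160 ≤ Ys := le_max_left _ _
  have hYs2 : 25 * W ≤ Ys := (le_max_left _ _).trans (le_max_right _ _)
  have hYs3 : Yt / εt₀ ≤ Ys := (le_max_right _ _).trans (le_max_right _ _)
  obtain ⟨A', hA', hnrT''⟩ := hnrT' εt₀ Ys hεt₀ (by linarith)
  -- bounded scales
  obtain ⟨C₁, V₀, hC₁, hV₀, hnr'⟩ := hnr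
  obtain ⟨C, Y₀, ε₀, Bg, hC, hY₀, hε₀, hBg, hNg⟩ := hNII C₁ hC₁
  set ε : ℝ := min ε₀ 1 with hε
  have hε0 : 0 < ε := lt_min hε₀ one_pos
  have hε1 : ε ≤ 1 := min_le_right _ _
  obtain ⟨N₀, hN₀, hNg'⟩ := hNg ε hε0 (min_le_left _ _)
  obtain ⟨V, l₁, hV1, hV2, htop'⟩ := htop (ε / 800) (by positivity)
    (max V₀ (max A' (max (A' * Y₀ / ε) (W * (1 + 4 * A')))))
  have hVV₀ : V₀ ≤ V := (le_max_left _ _).trans hV1
  have hVA : A' ≤ V := ((le_max_left _ _).trans (le_max_right _ _)).trans hV1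
  have hVY : A' * Y₀ / ε ≤ V :=
    (((le_max_left _ _).trans (le_max_right _ _)).trans (le_max_right _ _)).trans hV1
  have hVW : W * (1 + 4 * A') ≤ V :=
    (((le_max_right _ _).trans (le_max_right _ _)).trans (le_max_right _ _)).trans hV1
  obtain ⟨l₂, hl₂, hnr''⟩ := hnr' ε A' V hε0 hε1 hA' hVV₀
  obtain ⟨C₃, c, T₂, hC₃, hc, hT₂, hcore⟩ := blk_core hmb (ε / 800) V C (by positivity) hV2
    (by linarith)
  obtain ⟨T₃, hT₃, hev⟩ := blk_ev (max (max l₁ (max l₂ 1)) (max (4 * 10 ^ 9 * V ^ 2 / ε)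
    (max (9000 * Ys ^ 2 / εt₀) (6 * A'))))
  set B : ℝ := 4 * (Bg + Bt + N₀ + Nt) with hB
  refine ⟨B, C₃, c / 4, max T₁ (max T₂ (max T₃ (Real.exp 1))), by linarith, hC₃, by linarith,
    hT₁.trans (le_max_left _ _), ?_⟩
  intro D n T hT hnA hBn hBD _ S hS
  have hTT₁ : T₁ ≤ T := (le_max_left _ _).trans hT
  have hTT₂ : T₂ ≤ T := ((le_max_left _ _).trans (le_max_right _ _)).trans hT
  have hTT₃ : T₃ ≤ T :=
    (((le_max_left _ _).trans (le_max_right _ _)).trans (le_max_right _ _)).trans hT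
  have hTe : Real.exp 1 ≤ T :=
    (((le_max_right _ _).trans (le_max_right _ _)).trans (le_max_right _ _)).trans hT
  obtain ⟨hev1, hev2⟩ := hev T hTT₃
  have hT2 : 2 ≤ T := hT₁.trans hTT₁
  have hT0 : 0 < T := by linarith
  set l : ℝ := Real.log T with hl
  have hl₁l : l₁ ≤ l := ((le_max_left _ _).trans (le_max_left _ _)).trans hev2
  have hl₂l : l₂ ≤ l :=
    (((le_max_left _ _).trans (le_max_right _ _)).trans (le_max_left _ _)).trans hev2
  have hl1 : 1 ≤ l :=
    (((le_max_right _ _).trans (le_max_right _ _)).trans (le_max_left _ _)).trans hev2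
  have hl0 : 0 < l := by linarith
  set Mx : ℝ := max (max l₁ (max l₂ 1)) (max (4 * 10 ^ 9 * V ^ 2 / ε)
    (max (9000 * Ys ^ 2 / εt₀) (6 * A'))) with hMx
  have hM1 : 4 * 10 ^ 9 * V ^ 2 / ε ≤ Mx := (le_max_left _ _).trans (le_max_right _ _)
  have hM2 : 9000 * Ys ^ 2 / εt₀ ≤ Mx :=
    ((le_max_left _ _).trans (le_max_right _ _)).trans (le_max_right _ _)
  have hM3 : 6 * A' ≤ Mx :=
    ((le_max_right _ _).trans (le_max_right _ _)).trans (le_max_right _ _)
  have hM0 : 0 ≤ Mx := le_trans (by positivity) hM3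
  -- the empty case
  rcases S.eq_empty_or_nonempty with hSe | hSne
  · rw [hSe]
    unfold ordS
    rw [Finset.sum_empty]
    positivity
  -- `D` is positive
  obtain ⟨ω₀, hω₀⟩ := hSne
  have hωD : T ^ 2 ≤ D * Real.log D ^ 2 :=
    ((hS ω₀ hω₀).2.2.1.trans (Complex.re_le_norm ω₀)).trans (hS ω₀ hω₀).2.2.2.2
  have hD0 : (0 : ℝ) ≤ D := Nat.cast_nonneg D
  have hDpos : 0 < (D : ℝ) := by
    rcases hD0.eq_or_lt with hd | hd
    · rw [← hd] at hωD
      simp only [zero_mul] at hωD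
      have : 0 < T ^ 2 := by positivity
      linarith
    · exact hd
  have hD1 : (1 : ℝ) ≤ D := by
    have : 1 ≤ D := by exact_mod_cast (by exact_mod_cast hDpos : 0 < D)
    exact_mod_cast this
  set a : ℝ := T ^ 2 * l / (4 * D) with ha
  have ha0 : 0 < a := by positivity
  have hal3 : a ≤ 9 / 4 * l ^ 3 := blkII_a hTe hD1 hωD
  set N : ℝ := a * l with hN
  have hNT : N = T ^ 2 * l ^ 2 / (4 * D) := by rw [hN, ha]; ring
  have haD : 4 * D * a = T ^ 2 * l := by rw [ha]; field_simp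
  have hNB : Bg + Bt + N₀ + Nt ≤ N := by
    rw [hNT, le_div_iff₀ (by positivity)]
    calc (Bg + Bt + N₀ + Nt) * (4 * D) = B * D := by rw [hB]; ring
      _ ≤ _ := hBD
  have hNBn : (Bg + Bt + N₀ + Nt) * n ≤ N := by
    rw [hNT, le_div_iff₀ (by positivity)]
    calc (Bg + Bt + N₀ + Nt) * n * (4 * D) = B * n * D := by rw [hB]; ring
      _ ≤ _ := hBn
  have hn0 : (0 : ℝ) ≤ n := Nat.cast_nonneg n
  have hN1 : 1 ≤ N := by linarith
  have hBgn : Bg * n ≤ N := le_trans (mul_le_mul_of_nonneg_right (by linarith) hn0) hNBn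
  have hBtn : Bt * n ≤ N := le_trans (mul_le_mul_of_nonneg_right (by linarith) hn0) hNBn
  have hm : T ^ 2 * l / D = 4 * a := by rw [ha]; field_simp
  have hq1 : ∀ x : ℝ, T ≤ x → 4 * D * a ^ 2 ≤ N * x ^ 2 := by
    intro x hx
    have h1 : T ^ 2 ≤ x ^ 2 := pow_le_pow_left₀ hT0.le hx 2
    calc 4 * D * a ^ 2 = a * (4 * D * a) := by ring
      _ = a * l * T ^ 2 := by rw [haD]; ring
      _ ≤ a * l * x ^ 2 := mul_le_mul_of_nonneg_left h1 (by positivity)
  have hq2 : ∀ x : ℝ, T ≤ x → x ≤ 2 * T → N * x ^ 2 ≤ 16 * D * a ^ 2 := by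
    intro x hx hx2
    have h1 : x ^ 2 ≤ 4 * T ^ 2 := by
      calc x ^ 2 ≤ (2 * T) ^ 2 := pow_le_pow_left₀ (by linarith) hx2 2
        _ = _ := by ring
    calc N * x ^ 2 ≤ a * l * (4 * T ^ 2) := mul_le_mul_of_nonneg_left h1 (by positivity)
      _ = 4 * a * (T ^ 2 * l) := by ring
      _ = 4 * a * (4 * D * a) := by rw [haD]
      _ = _ := by ring
  have hfarz : ∀ z : ℂ, T ≤ z.re → z.re ≤ 2 * T → iteratedDeriv n (Hd D ff) (pz z) = 0 →
      ‖pz z‖ ≤ D * Real.log D ^ 2 → |z.im| ≤ W * (1 + 4 * a) / 2 := by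
    intro z hz1 hz2 h0 hnorm
    have h1 : T ^ 2 ≤ (pz z).re := pow_le_pow_left₀ hT0.le hz1 2
    have h2 : (pz z).re ≤ 4 * T ^ 2 := by
      show z.re ^ 2 ≤ 4 * T ^ 2
      calc z.re ^ 2 ≤ (2 * T) ^ 2 := pow_le_pow_left₀ (by linarith) hz2 2
        _ = _ := by ring
    have h3 := hfar D n T (pz z) hTT₁ hnA h1 h2 hnorm h0
    have h4 : |(pz z).im| = 2 * z.re * |z.im| := by
      show |2 * z.re * z.im| = 2 * z.re * |z.im|
      rw [abs_mul, abs_of_pos (by linarith)]
    rw [h4, hm] at h3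
    have h5 : 2 * T * |z.im| ≤ 2 * T * (W * (1 + 4 * a) / 2) := by
      calc 2 * T * |z.im| ≤ 2 * z.re * |z.im| :=
            mul_le_mul_of_nonneg_right (by linarith) (abs_nonneg _)
        _ ≤ W * T * (1 + 4 * a) := h3
        _ = _ := by ring
    exact le_of_mul_le_mul_left h5 (by positivity)
  have hl6 : ∀ K : ℝ, 0 ≤ K → K ≤ Mx → K * l ^ 6 ≤ T := by
    intro K hK0 hK
    exact (mul_le_mul_of_nonneg_right hK (by positivity)).trans hev1
  rcases le_or_gt a A' with haA | haA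
  · -- bounded scale
    obtain ⟨J, hJ1, hJ2, hJ3⟩ := dn_blockDs_J (a := a / 4) (V := V) (by positivity) (by linarith)
    have h2Ja : ∀ j ≤ J, (2 : ℝ) ^ j * a ≤ 8 * V := by
      intro j hj
      have h1 : (2 : ℝ) ^ j ≤ 2 ^ J := pow_le_pow_right₀ (by norm_num) hj
      have h2 : (2 : ℝ) ^ j * a ≤ 2 ^ J * a := mul_le_mul_of_nonneg_right h1 ha0.le
      linarith
    have hkey := hcore D n J T a N (2000 * V / a) hTT₂ ha0 hN hN1 hJ1 hJ2 hJ3
      (by
        intro x hx1 hx2 i hi hg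
        have hx0 : 0 < x := by linarith
        have hNR := hnr'' l hl₂l x hx0 (dn_blockDs_log hT0 hx1 hx2) a ha0 haA hN1 i J hi hJ1 hJ2 hg
        refine hNg' D n N (2 ^ i) (2000 * V / a) x a ff (by linarith) hBgn
          (one_le_pow₀ (by norm_num)) ?_ ?_ ha0 hx0 ?_ (hq1 x hx1) (hq2 x hx1 hx2) hNR
        · rw [le_div_iff₀ ha0]
          have := h2Ja i hi
          linarith
        · rw [← mul_div_assoc, le_div_iff₀ ha0]
          rw [div_le_iff₀ hε0] at hVY
          nlinarith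
        · have e1 : 1000 * a * (2000 * V / a) ^ 2 = 4 * 10 ^ 9 * V ^ 2 / a := by
            field_simp
            norm_num
          rw [e1]
          have e2 : 1 / a ≤ l := by
            rw [div_le_iff₀ ha0]
            linarith
          have e3 : 4 * 10 ^ 9 * V ^ 2 / ε * l ≤ T := by
            calc 4 * 10 ^ 9 * V ^ 2 / ε * l
                ≤ 4 * 10 ^ 9 * V ^ 2 / ε * l ^ 6 := by
                  apply mul_le_mul_of_nonneg_left _ (by positivity)
                  exact le_self_pow₀ hl1 (by norm_num)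
              _ ≤ T := hl6 _ (by positivity) hM1
          calc 4 * 10 ^ 9 * V ^ 2 / a = ε * (4 * 10 ^ 9 * V ^ 2 / ε * (1 / a)) := by
                field_simp
            _ ≤ ε * (4 * 10 ^ 9 * V ^ 2 / ε * l) := by
                apply mul_le_mul_of_nonneg_left _ hε0.le
                exact mul_le_mul_of_nonneg_left e2 (by positivity)
            _ ≤ ε * x := mul_le_mul_of_nonneg_left (e3.trans hx1) hε0.le)
      (by
        intro z hz1 hz2 h0 hnorm
        have h3 := hfarz z hz1 hz2 h0 hnorm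
        rw [div_le_iff₀ ha0]
        calc |z.im| ≤ W * (1 + 4 * a) / 2 := h3
          _ ≤ W * (1 + 4 * A') / 2 := by
              apply div_le_div_of_nonneg_right _ (by norm_num)
              apply mul_le_mul_of_nonneg_left _ (by linarith)
              linarith
          _ ≤ 200 * V := by linarith
          _ = 2000 * V / a / 10 * a := by field_simp; norm_num)
      (by
        intro x hx1 hx2
        exact htop' l hl₁l x (by linarith) (dn_blockDs_log hT0 hx1 hx2) _ hJ1 hJ2)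
      S hS
    refine hkey.trans (le_of_eq ?_)
    congr 2
    rw [hNT]
    field_simp
  · -- large scale: no exceptions
    exfalso
    obtain ⟨h0, hbad, hre1, hre2, hnorm⟩ := hS ω₀ hω₀
    have hre : 0 < ω₀.re := lt_of_lt_of_le (by positivity) hre1
    set x : ℝ := Real.sqrt ω₀.re with hx
    have hx1 : T ≤ x := Real.le_sqrt_of_sq_le hre1
    have hx2 : x ≤ 2 * T := by
      rw [hx, Real.sqrt_le_left (by linarith)]
      linarith
    have hx0 : 0 < x := by linarith
    have ha1 : 1 ≤ a := by linarith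
    have hl3 : l ^ 3 ≤ l ^ 6 := pow_le_pow_right₀ hl1 (by norm_num)
    have hax : A' * a ^ 2 ≤ x := by
      calc A' * a ^ 2 ≤ A' * (9 / 4 * l ^ 3) ^ 2 :=
            mul_le_mul_of_nonneg_left (pow_le_pow_left₀ ha0.le hal3 2) (by linarith)
        _ = 81 / 16 * (A' * l ^ 6) := by ring
        _ ≤ 6 * (A' * l ^ 6) := mul_le_mul_of_nonneg_right (by norm_num) (by positivity)
        _ = 6 * A' * l ^ 6 := by ring
        _ ≤ T := hl6 _ (by positivity) hM3
        _ ≤ x := hx1
    have hNR := hnrT'' x a l haA.le hax (dn_blockDs_log hT0 hx1 hx2)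
    obtain ⟨g1, g2, -⟩ := hNt' D n N 1 Ys x a ff (by linarith) hBtn le_rfl (by linarith)
      (by rw [div_le_iff₀ hεt₀] at hYs3; linarith) ha0 hx0
      (by
        have e : 1000 * a * Ys ^ 2 ≤ εt₀ * (9000 * Ys ^ 2 / εt₀ * l ^ 6) := by
          calc 1000 * a * Ys ^ 2 ≤ 1000 * (9 / 4 * l ^ 3) * Ys ^ 2 := by
                apply mul_le_mul_of_nonneg_right _ (by positivity)
                linarith
            _ = 2250 * Ys ^ 2 * l ^ 3 := by ring
            _ ≤ 9000 * Ys ^ 2 * l ^ 6 := by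
                apply mul_le_mul _ hl3 (by positivity) (by positivity)
                have : 0 ≤ Ys ^ 2 := by positivity
                linarith
            _ = _ := by field_simp
        refine e.trans (mul_le_mul_of_nonneg_left ?_ hεt₀.le)
        exact (hl6 _ (by positivity) hM2).trans hx1)
      (hq1 x hx1) (hq2 x hx1 hx2) hNR
    have hpz := pz_zq hre
    have hzre : (zq ω₀).re = x := rfl
    have hlev := hd_lev (D := D) (n := n) hx0 ha0 hzre (by rw [hpz]; exact h0)
    have hfz := hfarz (zq ω₀) (by rw [hzre]; exact hx1) (by rw [hzre]; exact hx2)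
      (by rw [hpz]; exact h0) (by rw [hpz]; exact hnorm)
    have hYz : |(zq ω₀).im| / a ≤ Ys / 10 := by
      rw [div_le_iff₀ ha0]
      calc |(zq ω₀).im| ≤ W * (1 + 4 * a) / 2 := hfz
        _ ≤ W * (5 * a) / 2 := by
            apply div_le_div_of_nonneg_right _ (by norm_num)
            apply mul_le_mul_of_nonneg_left _ (by linarith)
            linarith
        _ = 25 * W / 10 * a := by ring
        _ ≤ Ys / 10 * a := by
            apply mul_le_mul_of_nonneg_right _ ha0.le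
            linarith
    have him : (zq ω₀).im = 0 := by
      by_contra him
      exact g1 rfl (|(zq ω₀).im| / a) (div_pos (abs_pos.mpr him) ha0) hYz hlev
    have him' : ω₀.im = 0 := by
      have h1 : (pz (zq ω₀)).im = 0 := by
        show 2 * (zq ω₀).re * (zq ω₀).im = 0
        rw [him, mul_zero]
      rwa [hpz] at h1
    have hω₀x : ω₀ = (x : ℂ) ^ 2 := by
      rw [← Complex.ofReal_pow, hx, Real.sq_sqrt hre.le]
      exact Complex.ext (by simp) (by simp [him'])
    rcases hbad with h | h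
    · exact h him'
    · rw [hω₀x] at h h0
      exact g2 rfl h0 h

end Pool.Agent.Lib.MP_cd509c_nt.JD
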