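import Pool.Agent.Lib.MP_cd509c_nt.JD.Defs

/-!
# [JD cD] the size of the normalising constant
-/

set_option autoImplicit false

namespace Pool.Agent.Lib.MP_cd509c_nt.JD

theorem jd_cD_eq (D : ℕ) (hD : 1 ≤ D) :
    cD D = Stirling.stirlingSeq D * Real.sqrt (2 * D) / (2 * Real.pi) := by
  unfold cD Stirling.stirlingSeq
  have h1 : (0 : ℝ) < D := by exact_mod_cast hD
  have h2 : 0 < Real.sqrt (2 * (D : ℝ)) := Real.sqrt_pos.mpr (by positivity)
  have h3 : Real.exp (D : ℝ) = Real.exp 1 ^ D := by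
    rw [← Real.exp_nat_mul, mul_one]
  rw [h3, div_pow]
  have h4 : 0 < Real.exp 1 := Real.exp_pos 1
  have hpi := Real.pi_pos
  field_simp

theorem p_cD : S_cD := by
  refine ⟨10, by norm_num, fun D hD => ?_⟩
  have h1 : (1 : ℝ) ≤ D := by exact_mod_cast hD
  have hpi := Real.pi_pos
  have hpi4 : Real.pi ≤ 4 := Real.pi_le_four
  have hpi3 : 3 < Real.pi := Real.pi_gt_three
  have hs : 0 ≤ Real.sqrt D := Real.sqrt_nonneg _
  have hlow : Real.sqrt Real.pi ≤ Stirling.stirlingSeq D :=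
    Stirling.sqrt_pi_le_stirlingSeq (by omega)
  have hup : Stirling.stirlingSeq D ≤ Real.exp 1 / Real.sqrt 2 := by
    rw [← Stirling.stirlingSeq_one]
    obtain ⟨m, rfl⟩ : ∃ m, D = m + 1 := ⟨D - 1, by omega⟩
    exact Stirling.stirlingSeq'_antitone (Nat.zero_le m)
  have h2 : Real.sqrt (2 * (D : ℝ)) = Real.sqrt 2 * Real.sqrt D :=
    Real.sqrt_mul (by norm_num) _
  have hs2 : 0 < Real.sqrt 2 := Real.sqrt_pos.mpr (by norm_num)
  have hs21 : 1 ≤ Real.sqrt 2 := Real.one_le_sqrt.mpr (by norm_num)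
  have hsp : 1 ≤ Real.sqrt Real.pi := Real.one_le_sqrt.mpr (by linarith)
  rw [jd_cD_eq D hD, h2]
  constructor
  · rw [le_div_iff₀ (by positivity)]
    have h3 : 1 * (1 * Real.sqrt D) ≤ Stirling.stirlingSeq D * (Real.sqrt 2 * Real.sqrt D) :=
      mul_le_mul (hsp.trans hlow) (mul_le_mul_of_nonneg_right hs21 hs) (by positivity)
        (by linarith)
    have h4 : Real.sqrt D / 10 * (2 * Real.pi) ≤ Real.sqrt D := by
      have h5 : Real.sqrt D * Real.pi ≤ Real.sqrt D * 4 := mul_le_mul_of_nonneg_left hpi4 hs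
      linarith
    linarith
  · rw [div_le_iff₀ (by positivity)]
    have h3 : Stirling.stirlingSeq D * (Real.sqrt 2 * Real.sqrt D) ≤
        Real.exp 1 / Real.sqrt 2 * (Real.sqrt 2 * Real.sqrt D) :=
      mul_le_mul_of_nonneg_right hup (by positivity)
    have h4 : Real.exp 1 / Real.sqrt 2 * (Real.sqrt 2 * Real.sqrt D) = Real.exp 1 * Real.sqrt D := by
      field_simp
    have h5 : Real.exp 1 < 3 := Real.exp_one_lt_three
    have h6 : Real.exp 1 * Real.sqrt D ≤ 3 * Real.sqrt D := mul_le_mul_of_nonneg_right h5.le hs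
    have h7 : Real.sqrt D * 3 ≤ Real.sqrt D * Real.pi := mul_le_mul_of_nonneg_left hpi3.le hs
    linarith

end Pool.Agent.Lib.MP_cd509c_nt.JD
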