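import Pool.Agent.Lib.MP_cd509c_nt.JD.Defs

/-!
# Jensen density, piece cntM: number of the zeros which are not outer
-/

set_option autoImplicit false

namespace Pool.Agent.Lib.MP_cd509c_nt.JD

open Complex ComplexConjugate MeasureTheory
open Pool.Agent.Lib.MP_cd509c_nt.DN

theorem jd_cntM_diff (D : ℕ) (g : ℂ → ℂ) : Differentiable ℂ (Hd D g) := by
  unfold Hd
  fun_prop

theorem jd_cntM_zero (D : ℕ) (g : ℂ → ℂ) : Hd D g 0 = g 0 := by
  unfold Hd
  rw [Finset.sum_eq_single 0]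
  · simp
  · intro k _ hk
    simp [hk]
  · simp

/-- order of the Jensen transform at the image of a root -/
theorem jd_cntM_ord (D : ℕ) (g : ℂ → ℂ) (hD : 1 ≤ D) (P : Polynomial ℂ) (hP : P ≠ 0)
    (h : ∀ u : ℂ, u ≠ 0 → P.eval u = u ^ D * Hd D g (D / u)) (v : ℂ) (hv : v ≠ 0) :
    analyticOrderNatAt (Hd D g) (D / v) = P.rootMultiplicity v := by
  have hD0 : (D : ℂ) ≠ 0 := by exact_mod_cast (by omega : D ≠ 0)
  obtain ⟨R, hR, hRv⟩ := Polynomial.exists_eq_pow_rootMultiplicity_mul_and_not_dvd P hP v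
  have hRv' : R.eval v ≠ 0 := fun hcon => hRv (Polynomial.dvd_iff_isRoot.2 hcon)
  have hw0 : (D / v : ℂ) ≠ 0 := div_ne_zero hD0 hv
  have han : AnalyticAt ℂ (Hd D g) (D / v) := (jd_cntM_diff D g).analyticAt _
  have hid : AnalyticAt ℂ (fun ω : ℂ => ω) (D / v) := analyticAt_id
  have hconst : ∀ c : ℂ, AnalyticAt ℂ (fun _ : ℂ => c) (D / v) := fun c => analyticAt_const
  have key : analyticOrderAt (Hd D g) (D / v) = (P.rootMultiplicity v : ℕ) := by
    rw [han.analyticOrderAt_eq_natCast]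
    refine ⟨fun ω => (ω / D) ^ D * (-v / ω) ^ P.rootMultiplicity v * R.eval (D / ω), ?_, ?_, ?_⟩
    · have h1 : AnalyticAt ℂ (fun ω : ℂ => (ω / D) ^ D) (D / v) := (hid.div (hconst D) hD0).pow _
      have h2 : AnalyticAt ℂ (fun ω : ℂ => (-v / ω) ^ P.rootMultiplicity v) (D / v) :=
        ((hconst (-v)).div hid hw0).pow _
      have h3 : AnalyticAt ℂ (fun ω : ℂ => R.eval (D / ω)) (D / v) := by
        have h4 := ((hconst D).div hid hw0).aeval_polynomial R
        simpa [Polynomial.aeval_def, Polynomial.eval₂_eq_eval_map] using h4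
      exact (h1.mul h2).mul h3
    · have h1 : (D : ℂ) / (D / v) = v := by field_simp
      simp only [h1]
      refine mul_ne_zero (mul_ne_zero (pow_ne_zero _ (div_ne_zero hw0 hD0))
        (pow_ne_zero _ (div_ne_zero (neg_ne_zero.2 hv) hw0))) hRv'
    · filter_upwards [isOpen_ne.mem_nhds hw0] with ω hω
      have h1 := h (D / ω) (div_ne_zero hD0 hω)
      have h2 : (D : ℂ) / (D / ω) = ω := by field_simp
      rw [h2, hR] at h1
      simp only [Polynomial.eval_mul, Polynomial.eval_pow, Polynomial.eval_sub, Polynomial.eval_X,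
        Polynomial.eval_C] at h1
      have h3 : (ω / D) ^ D * (D / ω : ℂ) ^ D = 1 := by
        rw [← mul_pow, div_mul_div_cancel₀ hD0, div_self hω, one_pow]
      have h4 : (D / ω - v : ℂ) = (ω - D / v) * (-v / ω) := by
        field_simp
        ring
      calc Hd D g ω = ((ω / D) ^ D * (D / ω : ℂ) ^ D) * Hd D g ω := by rw [h3, one_mul]
        _ = (ω / D) ^ D * ((D / ω : ℂ) ^ D * Hd D g ω) := by ring
        _ = (ω / D) ^ D * ((D / ω - v : ℂ) ^ P.rootMultiplicity v * R.eval (D / ω : ℂ)) := by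
            rw [← h1]
        _ = _ := by
            rw [h4, mul_pow, smul_eq_mul]
            ring
  rw [analyticOrderNatAt, key]
  rfl

theorem jd_cntM_kD (D : ℕ) (φ : ℝ) : ‖kD D φ‖ ≤ 1 := by
  unfold kD
  rw [Complex.norm_exp]
  have h1 : ((D : ℂ) * (cexp (φ * I) - 1 - φ * I)).re = D * (Real.cos φ - 1) := by
    simp [Complex.exp_ofReal_mul_I_re]
  rw [h1]
  refine Real.exp_le_one_iff.2 ?_
  have h2 : Real.cos φ - 1 ≤ 0 := by linarith [Real.cos_le_one φ]
  exact mul_nonpos_of_nonneg_of_nonpos (Nat.cast_nonneg D) h2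

theorem jd_cntM_bd (h3 : S_rep) (D : ℕ) (g : ℂ → ℂ) (hD : 1 ≤ D) (hg : Differentiable ℂ g)
    (hc : 0 ≤ cD D) (r B : ℝ) (hB : ∀ w : ℂ, ‖w‖ ≤ r → ‖g w‖ ≤ B) (w : ℂ) (hw : ‖w‖ ≤ r) :
    ‖Hd D g w‖ ≤ cD D * (2 * Real.pi * B) := by
  rw [h3 D g w hD hg, norm_mul, Complex.norm_real, Real.norm_of_nonneg hc]
  refine mul_le_mul_of_nonneg_left ?_ hc
  have hB0 : 0 ≤ B := (norm_nonneg _).trans (hB w hw)
  have h4 : ‖∫ φ in (-Real.pi)..Real.pi, kD D φ * g (w * cexp (φ * I))‖ ≤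
      B * |Real.pi - -Real.pi| := by
    refine intervalIntegral.norm_integral_le_of_norm_le_const fun φ _ => ?_
    rw [norm_mul]
    have h5 : ‖g (w * cexp (φ * I))‖ ≤ B := hB _ (by
      rw [norm_mul, Complex.norm_exp_ofReal_mul_I, mul_one]
      exact hw)
    calc ‖kD D φ‖ * ‖g (w * cexp (φ * I))‖ ≤ 1 * B :=
          mul_le_mul (jd_cntM_kD D φ) h5 (norm_nonneg _) zero_le_one
      _ = B := one_mul _
  refine h4.trans (le_of_eq ?_)
  rw [abs_of_nonneg (by linarith [Real.pi_pos])]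
  ring

theorem p_cntM (h1 : S_fam) (h2 : S_PH) (h3 : S_rep) (h4 : S_cD) (h5 : S_jen) : S_cntM := by
  obtain ⟨C, hC, hfam⟩ := h1
  obtain ⟨C₂, hC₂, hcD⟩ := h4
  refine ⟨7 * C₂ + 4 * C, by linarith, fun D s g K hD hK hg => ?_⟩
  have hDn : 1 ≤ D := by omega
  have hDr : (2 : ℝ) ≤ D := by exact_mod_cast hD
  have hKD : 8 ≤ K * D := by nlinarith
  obtain ⟨hdeg, hP0, hev, hreal⟩ := h2 D g hDn hg.1.ne
  set P := PgP D g with hPdef
  obtain ⟨hc1, hc2⟩ := hcD D hDn
  have hsD : 0 < Real.sqrt D := Real.sqrt_pos.2 (by linarith)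
  have hcpos : 0 < cD D := lt_of_lt_of_le (by positivity) hc1
  have hH0 : Hd D g 0 ≠ 0 := by
    rw [jd_cntM_zero]
    exact hg.1.ne
  have hg0 : 0 < ‖g 0‖ := norm_pos_iff.2 hg.1.ne
  -- the finite set
  set R := P.roots.filter fun v => 1 / K < ‖v‖ with hRdef
  have hRv : ∀ v ∈ R.toFinset, v ≠ 0 ∧ 1 / K < ‖v‖ := by
    intro v hv
    rw [Multiset.mem_toFinset, hRdef, Multiset.mem_filter] at hv
    refine ⟨fun h0 => ?_, hv.2⟩
    have h6 := hv.2
    rw [h0, norm_zero] at h6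
    have h7 : 0 < 1 / K := by positivity
    linarith
  have hinj : Set.InjOn (fun v : ℂ => (D : ℂ) / v) (R.toFinset : Set ℂ) := by
    intro u hu v hv huv
    have h6 := (hRv u hu).1
    have h7 := (hRv v hv).1
    have hD0 : (D : ℂ) ≠ 0 := by exact_mod_cast (by omega : D ≠ 0)
    have h8 : (D : ℂ) / u = D / v := huv
    rw [div_eq_div_iff h6 h7] at h8
    exact (mul_left_cancel₀ hD0 h8).symm
  have hjen := h5 (Hd D g) 0 (K * D)
    (cD D * (2 * Real.pi * (Real.exp (C * Real.sqrt (4 * (K * D)) * Real.log (4 * (K * D))) *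
      ‖g 0‖))) (jd_cntM_diff D g) (by linarith)
    (fun w hw => by
      rw [sub_zero] at hw
      exact jd_cntM_bd h3 D g hDn hg.1.diff hcpos.le (4 * (K * D)) _
        (fun w' hw' => (hfam D s g hD hg).2 (4 * (K * D)) (by nlinarith) w' hw') w hw)
    hH0 (R.toFinset.image fun v : ℂ => (D : ℂ) / v) (fun z hz => by
      obtain ⟨v, hv, rfl⟩ := Finset.mem_image.1 hz
      obtain ⟨h6, h7⟩ := hRv v hv
      rw [sub_zero, norm_div, Complex.norm_natCast, div_le_iff₀ (norm_pos_iff.2 h6)]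
      have hK0 : 0 < K := by linarith
      rw [div_lt_iff₀ hK0] at h7
      nlinarith)
  rw [Finset.sum_image hinj] at hjen
  have hsum : ∑ v ∈ R.toFinset, (analyticOrderNatAt (Hd D g) ((D : ℂ) / v) : ℝ) = (R.card : ℝ) := by
    rw [← Multiset.toFinset_sum_count_eq R]
    push_cast
    refine Finset.sum_congr rfl fun v hv => ?_
    obtain ⟨h6, h7⟩ := hRv v hv
    rw [jd_cntM_ord D g hDn P hP0 hev v h6, hRdef, Multiset.count_filter_of_pos (p := fun v : ℂ => 1 / K < ‖v‖) h7,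
      Polynomial.count_roots]
  rw [hsum] at hjen
  -- the estimate
  have hlog3 : 1 ≤ Real.log 3 := by
    rw [Real.le_log_iff_exp_le (by norm_num)]
    linarith [Real.exp_one_lt_d9]
  have hmain : (R.card : ℝ) ≤ (R.card : ℝ) * Real.log 3 :=
    le_mul_of_one_le_right (Nat.cast_nonneg _) hlog3
  refine (hmain.trans hjen).trans ?_
  have hq : cD D * (2 * Real.pi * (Real.exp (C * Real.sqrt (4 * (K * D)) *
      Real.log (4 * (K * D))) * ‖g 0‖)) / ‖Hd D g 0‖ = (cD D * (2 * Real.pi)) *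
      Real.exp (C * Real.sqrt (4 * (K * D)) * Real.log (4 * (K * D))) := by
    rw [jd_cntM_zero]
    field_simp
  rw [hq, Real.log_mul (by positivity) (Real.exp_pos _).ne', Real.log_exp]
  have hL : 1 ≤ Real.log (K * D) := by
    rw [Real.le_log_iff_exp_le (by linarith)]
    linarith [Real.exp_one_lt_d9]
  have hL4 : Real.log (4 * (K * D)) ≤ 2 * Real.log (K * D) := by
    rw [Real.log_mul (by norm_num) (by linarith)]
    have h6 : Real.log 4 ≤ Real.log (K * D) := Real.log_le_log (by norm_num) (by linarith)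
    linarith
  have hs4 : Real.sqrt (4 * (K * D)) = 2 * Real.sqrt (K * D) := by
    rw [Real.sqrt_mul (by norm_num), show (4 : ℝ) = 2 ^ 2 by norm_num,
      Real.sqrt_sq (by norm_num)]
  have hsK : 0 < Real.sqrt (K * D) := Real.sqrt_pos.2 (by linarith)
  have hA : Real.log (cD D * (2 * Real.pi)) ≤ 7 * C₂ * Real.sqrt (K * D) * Real.log (K * D) := by
    have h6 : Real.log (cD D * (2 * Real.pi)) ≤ cD D * (2 * Real.pi) :=
      (Real.log_le_sub_one_of_pos (by positivity)).trans (by linarith)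
    have h7 : cD D * (2 * Real.pi) ≤ (C₂ * Real.sqrt D) * 7 :=
      mul_le_mul hc2 (by linarith [Real.pi_lt_d2]) (by positivity) (by positivity)
    have h8 : Real.sqrt D ≤ Real.sqrt (K * D) := Real.sqrt_le_sqrt (by nlinarith)
    have h9 : 7 * C₂ * Real.sqrt D ≤ 7 * C₂ * Real.sqrt (K * D) :=
      mul_le_mul_of_nonneg_left h8 (by positivity)
    have h10 : 7 * C₂ * Real.sqrt (K * D) * 1 ≤ 7 * C₂ * Real.sqrt (K * D) * Real.log (K * D) :=
      mul_le_mul_of_nonneg_left hL (by positivity)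
    linarith
  have hB : C * Real.sqrt (4 * (K * D)) * Real.log (4 * (K * D)) ≤
      4 * C * Real.sqrt (K * D) * Real.log (K * D) := by
    rw [hs4]
    have h6 : C * (2 * Real.sqrt (K * D)) * Real.log (4 * (K * D)) ≤
        C * (2 * Real.sqrt (K * D)) * (2 * Real.log (K * D)) :=
      mul_le_mul_of_nonneg_left hL4 (by positivity)
    linarith
  linarith

end Pool.Agent.Lib.MP_cd509c_nt.JD
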