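import Pool.Agent.Lib.MP_cd509c_nt.JD.StmS

/-!
# Project JD, piece dbl: double zeros
-/

set_option autoImplicit false

namespace Pool.Agent.Lib.MP_cd509c_nt.JD

open Polynomial

theorem jd_dbl_rel (D n : ℕ) : C ((D : ℂ) + 1) * Jp D n =
    C ((D : ℂ) + 1) * Jp (D + 1) n - X * (Jp (D + 1) n).derivative := by
  ext j
  rw [coeff_sub, coeff_C_mul, coeff_C_mul, Jp_coeff, Jp_coeff]
  have h1 : (X * (Jp (D + 1) n).derivative).coeff j = j * (((D + 1).choose j : ℂ) * gam (n + j)) := by
    cases j with
    | zero => simp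
    | succ j =>
      rw [coeff_X_mul, coeff_derivative, Jp_coeff]
      push_cast
      ring
  rw [h1]
  have h2 : ((D : ℂ) + 1) * (D.choose j : ℂ) = ((D : ℂ) + 1 - j) * ((D + 1).choose j : ℂ) := by
    have h3 := Nat.choose_mul_succ_eq D j
    rcases Nat.lt_or_ge (D + 1) j with hj | hj
    · rw [Nat.choose_eq_zero_of_lt hj, Nat.choose_eq_zero_of_lt (show D < j by omega)]
      simp
    · have h4 : ((D.choose j * (D + 1) : ℕ) : ℂ) = (((D + 1).choose j * (D + 1 - j) : ℕ) : ℂ) := by
        rw [h3]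
      rw [Nat.cast_mul, Nat.cast_mul, Nat.cast_sub hj] at h4
      push_cast at h4
      linear_combination h4
  linear_combination (gam (n + j)) * h2

/-- logarithmic derivatives of a product of linear factors -/
theorem jd_dbl_log (X₀ : ℂ) (s : Multiset ℂ) : (∀ x ∈ s, x ≠ X₀) →
    ((s.map fun x => (X - C x : ℂ[X])).prod.eval X₀ ≠ 0 ∧
    (s.map fun x => (X - C x : ℂ[X])).prod.derivative.eval X₀ =
      (s.map fun x => (X - C x : ℂ[X])).prod.eval X₀ * (s.map fun x => 1 / (X₀ - x)).sum ∧
    (s.map fun x => (X - C x : ℂ[X])).prod.derivative.derivative.eval X₀ =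
      (s.map fun x => (X - C x : ℂ[X])).prod.eval X₀ * ((s.map fun x => 1 / (X₀ - x)).sum ^ 2 -
        (s.map fun x => (1 / (X₀ - x)) ^ 2).sum)) := by
  induction s using Multiset.induction_on with
  | empty => intro _; simp
  | cons a s ih =>
    intro h
    obtain ⟨h0, h1, h2⟩ := ih (fun x hx => h x (Multiset.mem_cons_of_mem hx))
    have ha : X₀ - a ≠ 0 := sub_ne_zero.2 (h a (Multiset.mem_cons_self a s)).symm
    simp only [Multiset.map_cons, Multiset.prod_cons, Multiset.sum_cons]
    set q := (s.map fun x => (X - C x : ℂ[X])).prod with hq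
    have e0 : ((X - C a) * q).eval X₀ = (X₀ - a) * q.eval X₀ := by simp
    have e1 : ((X - C a) * q).derivative.eval X₀ =
        q.eval X₀ + (X₀ - a) * q.derivative.eval X₀ := by simp
    have e2 : ((X - C a) * q).derivative.derivative.eval X₀ =
        2 * q.derivative.eval X₀ + (X₀ - a) * q.derivative.derivative.eval X₀ := by
      simp
      ring
    refine ⟨?_, ?_, ?_⟩
    · rw [e0]
      exact mul_ne_zero ha h0
    · rw [e1, e0, h1]
      field_simp
    · rw [e2, e0, h1, h2]
      field_simp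
      ring

/-- the relation between the zeros -/
theorem jd_dbl_sum (Q : ℂ[X]) (X₀ e : ℂ) (hX : X₀ ≠ 0) (hQ : Q.eval X₀ ≠ 0)
    (hcard : (Q.roots.card : ℂ) = e) (h1 : e * Q.eval X₀ - X₀ * Q.derivative.eval X₀ = 0)
    (h2 : (e - 1) * Q.derivative.eval X₀ - X₀ * Q.derivative.derivative.eval X₀ = 0) :
    (Q.roots.map fun X => (X / (X₀ - X)) ^ 2).sum = 0 := by
  have hQ0 : Q ≠ 0 := by
    rintro rfl
    simp at hQ
  have hr : ∀ x ∈ Q.roots, x ≠ X₀ := by
    rintro x hx rfl
    rw [mem_roots hQ0] at hx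
    exact hQ hx
  obtain ⟨g0, g1, g2⟩ := jd_dbl_log X₀ Q.roots hr
  have hprod := (IsAlgClosed.splits Q).eq_prod_roots
  set q := (Q.roots.map fun x => (X - C x : ℂ[X])).prod with hq
  set s₁ := (Q.roots.map fun x => 1 / (X₀ - x)).sum with hs1
  set s₂ := (Q.roots.map fun x => (1 / (X₀ - x)) ^ 2).sum with hs2
  have hl : Q.leadingCoeff ≠ 0 := leadingCoeff_ne_zero.2 hQ0
  have k0 : Q.eval X₀ = Q.leadingCoeff * q.eval X₀ := by
    conv_lhs => rw [hprod]
    simp
  have k1 : Q.derivative.eval X₀ = Q.leadingCoeff * q.derivative.eval X₀ := by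
    conv_lhs => rw [hprod]
    simp
  have k2 : Q.derivative.derivative.eval X₀ = Q.leadingCoeff * q.derivative.derivative.eval X₀ := by
    conv_lhs => rw [hprod]
    simp
  have k3 : Q.derivative.eval X₀ = Q.eval X₀ * s₁ := by rw [k1, k0, g1]; ring
  have k4 : Q.derivative.derivative.eval X₀ = Q.eval X₀ * (s₁ ^ 2 - s₂) := by
    rw [k2, k0, g2]; ring
  have m1 : X₀ * s₁ = e := by
    rw [k3] at h1
    have h3 : Q.eval X₀ * (e - X₀ * s₁) = 0 := by linear_combination h1
    have h4 := (mul_eq_zero.1 h3).resolve_left hQ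
    linear_combination -h4
  have m2 : X₀ ^ 2 * s₂ = e := by
    rw [k3, k4] at h2
    have h3 : Q.eval X₀ * ((e - 1) * s₁ - X₀ * (s₁ ^ 2 - s₂)) = 0 := by linear_combination h2
    have h4 := (mul_eq_zero.1 h3).resolve_left hQ
    have h5 : X₀ * ((e - 1) * s₁ - X₀ * (s₁ ^ 2 - s₂)) = 0 := by rw [h4, mul_zero]
    linear_combination h5 + (X₀ * s₁ + 1) * m1
  have hsum : (Q.roots.map fun X => (X / (X₀ - X)) ^ 2).sum =
      X₀ ^ 2 * s₂ - 2 * X₀ * s₁ + (Q.roots.card : ℂ) := by
    have e1 : (Q.roots.map fun X => (X / (X₀ - X)) ^ 2) =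
        Q.roots.map fun x => (X₀ ^ 2 * (1 / (X₀ - x)) ^ 2 + (-(2 * X₀)) * (1 / (X₀ - x))) + 1 := by
      apply Multiset.map_congr rfl
      intro x hx
      have hx' : X₀ - x ≠ 0 := sub_ne_zero.2 (hr x hx).symm
      field_simp
      ring
    rw [e1, Multiset.sum_map_add, Multiset.sum_map_add, Multiset.sum_map_mul_left,
      Multiset.sum_map_mul_left]
    simp only [Multiset.map_const', Multiset.sum_replicate, nsmul_eq_mul, mul_one]
    ring
  rw [hsum, m2, hcard]
  linear_combination (-2) * m1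

theorem p_dbl : S_dbl := by
  intro d n m X₀ hd hJ hJ'
  have hX : X₀ ≠ 0 := by
    rintro rfl
    rw [← Jp_eval, Jp_zero] at hJ
    exact gam_ne_zero n hJ
  induction m with
  | zero =>
    right
    have h1 : 1 < (Jp d n).rootMultiplicity X₀ := by
      rw [one_lt_rootMultiplicity_iff_isRoot (Jp_ne d n)]
      refine ⟨?_, ?_⟩
      · rw [IsRoot.def, Jp_eval]
        exact hJ
      · rw [IsRoot.def, ← Jp_deriv]
        exact hJ'
    exact h1
  | succ m ih =>
    rcases ih with ⟨k, hk1, hk2, hk3, hk4⟩ | ih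
    · left
      exact ⟨k, hk1, by omega, hk3, hk4⟩
    · have hrel := jd_dbl_rel (d + m) n
      have hidx : d + (m + 1) = d + m + 1 := by ring
      by_cases hz : Jen (d + (m + 1)) n X₀ = 0
      · right
        rw [hidx] at hz ⊢
        set Q := Jp (d + m + 1) n with hQ
        have hQ0 : Q ≠ 0 := Jp_ne _ _
        have hroot : Q.IsRoot X₀ := by rw [IsRoot.def, hQ, Jp_eval]; exact hz
        have hμ : 1 ≤ Q.rootMultiplicity X₀ := (rootMultiplicity_pos hQ0).2 hroot
        by_contra hcon
        push Not at hcon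
        have hle : Q.rootMultiplicity X₀ ≤ (Jp (d + m) n).rootMultiplicity X₀ := by omega
        have hd1 : (X - C X₀) ^ Q.rootMultiplicity X₀ ∣ Jp (d + m) n :=
          (le_rootMultiplicity_iff (Jp_ne _ _)).1 hle
        have hd2 : (X - C X₀) ^ Q.rootMultiplicity X₀ ∣ Q := pow_rootMultiplicity_dvd Q X₀
        have hd3 : (X - C X₀) ^ Q.rootMultiplicity X₀ ∣ X * Q.derivative := by
          have e : X * Q.derivative = C (((d + m : ℕ) : ℂ) + 1) * Q -
              C (((d + m : ℕ) : ℂ) + 1) * Jp (d + m) n := by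
            rw [hrel]
            ring
          rw [e]
          exact dvd_sub (hd2.mul_left _) (hd1.mul_left _)
        have hQ'0 : Q.derivative ≠ 0 := by
          intro h0
          have h1 : Q.natDegree = 0 := derivative_eq_zero.1 h0
          rw [hQ, Jp_natDegree] at h1
          omega
        have hXQ : X * Q.derivative ≠ 0 := mul_ne_zero X_ne_zero hQ'0
        have h5 := (le_rootMultiplicity_iff hXQ).2 hd3
        rw [rootMultiplicity_mul hXQ, derivative_rootMultiplicity_of_root hroot,
          rootMultiplicity_eq_zero (p := (X : ℂ[X])) (by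
            rw [IsRoot.def, eval_X]
            exact hX)] at h5
        omega
      · left
        refine ⟨m + 1, by omega, le_rfl, hz, ?_⟩
        rw [hidx] at hz ⊢
        have hP1 : 1 < (Jp (d + m) n).rootMultiplicity X₀ := by omega
        rw [one_lt_rootMultiplicity_iff_isRoot (Jp_ne _ _)] at hP1
        obtain ⟨hr1, hr2⟩ := hP1
        rw [IsRoot.def] at hr1 hr2
        apply jd_dbl_sum (Jp (d + m + 1) n) X₀ (((d + m : ℕ) : ℂ) + 1) hX
        · rw [Jp_eval]
          exact hz
        · rw [Jp_card]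
          push_cast
          ring
        · have h1 := congrArg (fun p : ℂ[X] => p.eval X₀) hrel
          simp only [eval_mul, eval_sub, eval_C, eval_X, hr1, mul_zero] at h1
          exact h1.symm
        · have h1 := congrArg (fun p : ℂ[X] => p.derivative.eval X₀) hrel
          simp only [derivative_mul, derivative_sub, derivative_C, derivative_X, eval_add, eval_mul,
            eval_sub, eval_C, eval_X, hr2, mul_zero, zero_mul, zero_add, one_mul] at h1
          linear_combination -h1

end Pool.Agent.Lib.MP_cd509c_nt.JD
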