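import Pool.Agent.Lib.MP_cd509c_nt.JD.Defs

/-!
# Number of pairs and growth of the members of the family
-/

set_option autoImplicit false

namespace Pool.Agent.Lib.MP_cd509c_nt.JD

open Complex ComplexConjugate MeasureTheory
open Pool.Agent.Lib.MP_cd509c_nt.DN

theorem jd_fam_nsq (a e : ℝ) (w : ℂ) :
    ‖(w - (a : ℂ)) ^ 2 + (e : ℂ) ^ 2‖ = ‖w - ((a : ℂ) + e * I)‖ * ‖w - ((a : ℂ) - e * I)‖ := by
  rw [← norm_mul]
  congr 1
  have h : I ^ 2 = -1 := I_sq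
  linear_combination ((e : ℂ) ^ 2) * h

theorem jd_fam_z (a e : ℝ) : ‖(a : ℂ) + e * I‖ ^ 2 = a ^ 2 + e ^ 2 := by
  rw [← Complex.normSq_eq_norm_sq, Complex.normSq_add_mul_I]

theorem jd_fam_z' (a e : ℝ) : ‖(a : ℂ) - e * I‖ ^ 2 = a ^ 2 + e ^ 2 := by
  have h := jd_fam_z a (-e)
  have h2 : ((a : ℂ) + ((-e : ℝ) : ℂ) * I) = (a : ℂ) - e * I := by
    push_cast
    ring
  rw [h2] at h
  rw [h]
  ring

theorem jd_fam_zero (a e : ℝ) : ‖((0 : ℂ) - (a : ℂ)) ^ 2 + (e : ℂ) ^ 2‖ = a ^ 2 + e ^ 2 := by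
  have h : ((0 : ℂ) - (a : ℂ)) ^ 2 + (e : ℂ) ^ 2 = ((a ^ 2 + e ^ 2 : ℝ) : ℂ) := by
    push_cast
    ring
  rw [h, Complex.norm_real, Real.norm_of_nonneg (by positivity)]

theorem jd_fam_rho {D a e ρ : ℝ} (hD : 2 ≤ D) (h1 : e ^ 2 ≤ a + 1 / 4)
    (h2 : a ^ 2 + e ^ 2 < D * e ^ 2) (hρ0 : 0 ≤ ρ) (hρ : ρ ^ 2 = a ^ 2 + e ^ 2) :
    ρ ≤ D + 1 / 4 := by
  have h3 : a ≤ ρ := by
    by_contra hlt
    push Not at hlt
    nlinarith [sq_nonneg e]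
  by_contra hlt
  push Not at hlt
  nlinarith

theorem jd_fam_factor {D a e : ℝ} (hD : 2 ≤ D) (h1 : e ^ 2 ≤ a + 1 / 4)
    (h2 : a ^ 2 + e ^ 2 < D * e ^ 2) {w : ℂ} (hw : 4 * D ≤ ‖w‖) :
    4 * ‖((0 : ℂ) - (a : ℂ)) ^ 2 + (e : ℂ) ^ 2‖ ≤ ‖(w - (a : ℂ)) ^ 2 + (e : ℂ) ^ 2‖ := by
  rw [jd_fam_zero, jd_fam_nsq]
  have e1 := jd_fam_z a e
  have e2 := jd_fam_z' a e
  have r1 : ‖(a : ℂ) + e * I‖ ≤ D + 1 / 4 := jd_fam_rho hD h1 h2 (norm_nonneg _) e1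
  have r2 : ‖(a : ℂ) - e * I‖ ≤ D + 1 / 4 := jd_fam_rho hD h1 h2 (norm_nonneg _) e2
  have t1 : ‖w‖ - ‖(a : ℂ) + e * I‖ ≤ ‖w - ((a : ℂ) + e * I)‖ := norm_sub_norm_le _ _
  have t2 : ‖w‖ - ‖(a : ℂ) - e * I‖ ≤ ‖w - ((a : ℂ) - e * I)‖ := norm_sub_norm_le _ _
  have u1 : 2 * ‖(a : ℂ) + e * I‖ ≤ ‖w - ((a : ℂ) + e * I)‖ := by linarith
  have u2 : 2 * ‖(a : ℂ) - e * I‖ ≤ ‖w - ((a : ℂ) - e * I)‖ := by linarith
  have hn : ‖(a : ℂ) - e * I‖ = ‖(a : ℂ) + e * I‖ := by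
    have h := e1.trans e2.symm
    exact ((sq_eq_sq₀ (norm_nonneg _) (norm_nonneg _)).1 h).symm
  rw [hn] at u2
  calc 4 * (a ^ 2 + e ^ 2) = (2 * ‖(a : ℂ) + e * I‖) * (2 * ‖(a : ℂ) + e * I‖) := by
        rw [← e1]
        ring
    _ ≤ ‖w - ((a : ℂ) + e * I)‖ * ‖w - ((a : ℂ) - e * I)‖ :=
        mul_le_mul u1 u2 (by positivity) (norm_nonneg _)

theorem jd_fam_qp {D : ℝ} (hD : 2 ≤ D) {w : ℂ} (hw : 4 * D ≤ ‖w‖) (s : List (ℝ × ℝ))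
    (hs : ∀ p ∈ s, 0 < p.2 ∧ p.2 ^ 2 ≤ p.1 + 1 / 4 ∧ p.1 ^ 2 + p.2 ^ 2 < D * p.2 ^ 2) :
    4 ^ s.length * ‖qp s 0‖ ≤ ‖qp s w‖ ∧ 0 < ‖qp s 0‖ := by
  induction s with
  | nil => simp [qp]
  | cons p s ih =>
    obtain ⟨hp0, hp1, hp2⟩ := hs p (by simp)
    obtain ⟨ih1, ih2⟩ := ih (fun q hq => hs q (List.mem_cons_of_mem _ hq))
    have c0 : ∀ w : ℂ, qp (p :: s) w = ((w - (p.1 : ℂ)) ^ 2 + (p.2 : ℂ) ^ 2) * qp s w := fun w => by
      simp [qp]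
    have hf := jd_fam_factor hD hp1 hp2 hw
    rw [c0, c0, norm_mul, norm_mul, List.length_cons, pow_succ]
    constructor
    · calc 4 ^ s.length * 4 * (‖((0 : ℂ) - (p.1 : ℂ)) ^ 2 + (p.2 : ℂ) ^ 2‖ * ‖qp s 0‖) =
          (4 * ‖((0 : ℂ) - (p.1 : ℂ)) ^ 2 + (p.2 : ℂ) ^ 2‖) * (4 ^ s.length * ‖qp s 0‖) := by ring
        _ ≤ ‖(w - (p.1 : ℂ)) ^ 2 + (p.2 : ℂ) ^ 2‖ * ‖qp s w‖ :=
          mul_le_mul hf ih1 (by positivity) (norm_nonneg _)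
    · refine mul_pos ?_ ih2
      rw [jd_fam_zero]
      positivity

theorem jd_fam_main {C : ℝ}
    (hC : ∀ r : ℝ, 2 ≤ r → ∀ w : ℂ, ‖w‖ ≤ r →
      ‖ff w‖ ≤ Real.exp (C * Real.sqrt r * Real.log r) * ‖ff 0‖)
    {D : ℕ} {s : List (ℝ × ℝ)} {g : ℂ → ℂ} (hD : 2 ≤ D) (hF : Fam D s g) {R : ℝ}
    (hR : 4 * (D : ℝ) ≤ R) {w : ℂ} (hw : ‖w‖ ≤ R) :
    4 ^ s.length * ‖g w‖ ≤ Real.exp (C * Real.sqrt R * Real.log R) * ‖g 0‖ := by
  obtain ⟨hRE, hs, hfac⟩ := hF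
  have hD2 : (2 : ℝ) ≤ D := by exact_mod_cast hD
  have hR0 : 0 < R := by linarith
  set M : ℝ := Real.exp (C * Real.sqrt R * Real.log R) * ‖g 0‖ with hM
  have hbd : ∀ z : ℂ, ‖z‖ = R → ‖g z‖ ≤ M / 4 ^ s.length := by
    intro z hz
    have h4 : 4 * (D : ℝ) ≤ ‖z‖ := by rw [hz]; exact hR
    obtain ⟨q1, q2⟩ := jd_fam_qp hD2 h4 s hs
    have f1 := hC R (by linarith) z hz.le
    rw [hfac z, hfac 0, norm_mul, norm_mul] at f1
    rw [le_div_iff₀ (by positivity)]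
    have f2 : (‖g z‖ * 4 ^ s.length) * ‖qp s 0‖ ≤ M * ‖qp s 0‖ := by
      calc (‖g z‖ * 4 ^ s.length) * ‖qp s 0‖ = (4 ^ s.length * ‖qp s 0‖) * ‖g z‖ := by ring
        _ ≤ ‖qp s z‖ * ‖g z‖ := mul_le_mul_of_nonneg_right q1 (norm_nonneg _)
        _ ≤ Real.exp (C * Real.sqrt R * Real.log R) * (‖qp s 0‖ * ‖g 0‖) := f1
        _ = M * ‖qp s 0‖ := by rw [hM]; ring
    exact le_of_mul_le_mul_right f2 q2
  have hall : ‖g w‖ ≤ M / 4 ^ s.length := by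
    refine Complex.norm_le_of_forall_mem_frontier_norm_le (U := Metric.ball (0 : ℂ) R)
      Metric.isBounded_ball hRE.diff.diffContOnCl ?_ ?_
    · intro z hz
      rw [frontier_ball (0 : ℂ) hR0.ne', mem_sphere_zero_iff_norm] at hz
      exact hbd z hz
    · rw [closure_ball (0 : ℂ) hR0.ne', mem_closedBall_zero_iff]
      exact hw
  rw [le_div_iff₀ (by positivity)] at hall
  linarith [mul_comm (‖g w‖) (4 ^ s.length : ℝ)]

theorem p_fam (h : S_gr) : S_fam := by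
  obtain ⟨C, hC1, hC⟩ := h
  refine ⟨6 * C, by linarith, ?_⟩
  intro D s g hD hF
  have hD2 : (2 : ℝ) ≤ D := by exact_mod_cast hD
  have hg0 : 0 < ‖g 0‖ := norm_pos_iff.2 hF.1.ne
  have hlogD : 0 < Real.log D := Real.log_pos (by linarith)
  constructor
  · have h0 := jd_fam_main hC hD hF (R := 4 * D) le_rfl (w := 0) (by
      rw [norm_zero]
      positivity)
    have h1 : (4 : ℝ) ^ s.length ≤ Real.exp (C * Real.sqrt (4 * D) * Real.log (4 * D)) :=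
      le_of_mul_le_mul_right h0 hg0
    have h2 : Real.log ((4 : ℝ) ^ s.length) ≤ C * Real.sqrt (4 * D) * Real.log (4 * D) := by
      rw [← Real.log_exp (C * Real.sqrt (4 * D) * Real.log (4 * D))]
      exact Real.log_le_log (by positivity) h1
    rw [Real.log_pow] at h2
    have h3 : (1 : ℝ) ≤ Real.log 4 := by
      rw [Real.le_log_iff_exp_le (by norm_num)]
      linarith [Real.exp_one_lt_d9]
    have h4 : Real.sqrt (4 * D) = 2 * Real.sqrt D := by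
      rw [Real.sqrt_mul (by norm_num), show (4 : ℝ) = 2 ^ 2 by norm_num,
        Real.sqrt_sq (by norm_num)]
    have h5 : Real.log (4 * D) = Real.log 4 + Real.log D :=
      Real.log_mul (by norm_num) (by positivity)
    have h6 : Real.log 4 ≤ 2 * Real.log D := by
      rw [show (4 : ℝ) = 2 ^ 2 by norm_num, Real.log_pow]
      have : Real.log 2 ≤ Real.log D := Real.log_le_log (by norm_num) hD2
      push_cast
      linarith
    rw [h4, h5] at h2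
    have hs0 : (0 : ℝ) ≤ s.length := Nat.cast_nonneg _
    calc (s.length : ℝ) = s.length * 1 := (mul_one _).symm
      _ ≤ s.length * Real.log 4 := mul_le_mul_of_nonneg_left h3 hs0
      _ ≤ C * (2 * Real.sqrt D) * (Real.log 4 + Real.log D) := h2
      _ ≤ C * (2 * Real.sqrt D) * (3 * Real.log D) := by
        refine mul_le_mul_of_nonneg_left (by linarith) ?_
        have := Real.sqrt_nonneg (D : ℝ)
        positivity
      _ = 6 * C * Real.sqrt D * Real.log D := by ring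
  · intro r hr w hw
    have h0 := jd_fam_main hC hD hF hr hw
    have hr1 : 1 ≤ r := by linarith
    have h1 : (1 : ℝ) ≤ 4 ^ s.length := one_le_pow₀ (by norm_num)
    have h2 : ‖g w‖ ≤ 4 ^ s.length * ‖g w‖ := le_mul_of_one_le_left (norm_nonneg _) h1
    have h3 : C * Real.sqrt r * Real.log r ≤ 6 * C * Real.sqrt r * Real.log r := by
      have k1 := Real.sqrt_nonneg r
      have k2 := Real.log_nonneg hr1
      have k3 : 0 ≤ C * Real.sqrt r * Real.log r := by positivity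
      linarith
    exact (h2.trans h0).trans (mul_le_mul_of_nonneg_right (Real.exp_le_exp.2 h3) (norm_nonneg _))

end Pool.Agent.Lib.MP_cd509c_nt.JD
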