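import Pool.Agent.Lib.MP_cd509c_nt.JD.Defs
import Pool.Agent.Lib.MP_cd509c_nt.JD.StmS

/-!
# Project JD, piece fin: the final statement
-/

set_option autoImplicit false

namespace Pool.Agent.Lib.MP_cd509c_nt.JD

open Complex Polynomial

/-- order of a zero after an affine change of variables -/
theorem jd_fin_order (P : ℂ[X]) (hP : P ≠ 0) (H : ℂ → ℂ) (hH : Differentiable ℂ H) (c D : ℂ)
    (hc : c ≠ 0) (hD : D ≠ 0) (h : ∀ X, P.eval X = c * H (-D * X)) (X₀ : ℂ) :
    analyticOrderNatAt H (-D * X₀) = P.rootMultiplicity X₀ := by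
  obtain ⟨R, hR⟩ := P.exists_eq_pow_rootMultiplicity_mul_and_not_dvd hP X₀
  have hR0 : R.eval X₀ ≠ 0 := by
    intro h0
    exact hR.2 (dvd_iff_isRoot.2 h0)
  set k := P.rootMultiplicity X₀ with hk
  have hval : ∀ ω, H ω = (ω - (-D * X₀)) ^ k • (c⁻¹ * (-D⁻¹) ^ k * R.eval (-D⁻¹ * ω)) := by
    intro ω
    have h1 := h (-D⁻¹ * ω)
    have h2 : -D * (-D⁻¹ * ω) = ω := by
      field_simp
    rw [h2, hR.1, eval_mul, eval_pow, eval_sub, eval_X, eval_C] at h1
    have h3 : (-D⁻¹ * ω - X₀) = -D⁻¹ * (ω - (-D * X₀)) := by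
      field_simp
      ring
    rw [h3, mul_pow] at h1
    have h4 : H ω = c⁻¹ * (c * H ω) := by field_simp
    rw [h4, ← h1, smul_eq_mul]
    ring
  have hana : AnalyticAt ℂ H (-D * X₀) := hH.analyticAt _
  have h5 : analyticOrderAt H (-D * X₀) = (k : ℕ∞) := by
    rw [hana.analyticOrderAt_eq_natCast]
    refine ⟨fun ω => c⁻¹ * (-D⁻¹) ^ k * R.eval (-D⁻¹ * ω), ?_, ?_,
      Filter.Eventually.of_forall hval⟩
    · have hd : Differentiable ℂ (fun ω => c⁻¹ * (-D⁻¹) ^ k * R.eval (-D⁻¹ * ω)) :=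
        (R.differentiable.comp (by fun_prop)).const_mul _
      exact hd.analyticAt _
    · have h6 : -D⁻¹ * (-D * X₀) = X₀ := by
        field_simp
      simp only [h6]
      exact mul_ne_zero (mul_ne_zero (inv_ne_zero hc)
        (pow_ne_zero _ (neg_ne_zero.2 (inv_ne_zero hD)))) hR0
  unfold analyticOrderNatAt
  rw [h5]
  rfl

theorem jd_fin_count (P : ℂ[X]) (hP : P ≠ 0) (H : ℂ → ℂ) (hH : Differentiable ℂ H) (c D : ℂ)
    (hc : c ≠ 0) (hD : D ≠ 0) (hDr : D.im = 0) (h : ∀ X, P.eval X = c * H (-D * X)) :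
    ∃ S : Finset ℂ, (∀ ω ∈ S, H ω = 0 ∧ (ω.im ≠ 0 ∨ deriv H ω = 0)) ∧
      ((P.roots.filter fun z => z.im ≠ 0 ∨ P.derivative.eval z = 0).card : ℝ) = ordS H S := by
  classical
  set Rt := P.roots.filter fun z => z.im ≠ 0 ∨ P.derivative.eval z = 0 with hRt
  have hinj : Function.Injective (fun X : ℂ => -D * X) := by
    intro a b hab
    exact mul_left_cancel₀ (neg_ne_zero.2 hD) hab
  have hder : ∀ X, P.derivative.eval X = c * (deriv H (-D * X) * -D) := by
    intro X
    have h1 : HasDerivAt (fun X => P.eval X) (P.derivative.eval X) X := P.hasDerivAt X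
    have h2 : HasDerivAt (fun X => c * H (-D * X)) (c * (deriv H (-D * X) * -D)) X := by
      have e1 : HasDerivAt (fun X : ℂ => -D * X) (-D * 1) X := (hasDerivAt_id X).const_mul _
      rw [mul_one] at e1
      exact ((hH (-D * X)).hasDerivAt.comp X e1).const_mul c
    have h3 : (fun X => P.eval X) = fun X => c * H (-D * X) := funext h
    rw [h3] at h1
    exact h1.unique h2
  refine ⟨Rt.toFinset.image (fun X => -D * X), ?_, ?_⟩
  · intro ω hω
    rw [Finset.mem_image] at hω
    obtain ⟨X, hX, rfl⟩ := hω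
    rw [Multiset.mem_toFinset, hRt, Multiset.mem_filter, mem_roots hP, IsRoot.def] at hX
    obtain ⟨hX0, hX1⟩ := hX
    refine ⟨?_, ?_⟩
    · rw [h X] at hX0
      exact (mul_eq_zero.1 hX0).resolve_left hc
    · rcases hX1 with hX1 | hX1
      · left
        rw [Complex.mul_im, Complex.neg_re, Complex.neg_im, hDr]
        simp only [neg_zero, zero_mul, add_zero]
        have hDre : D.re ≠ 0 := by
          intro h0
          exact hD (Complex.ext h0 hDr)
        exact mul_ne_zero (neg_ne_zero.2 hDre) hX1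
      · right
        rw [hder X] at hX1
        have h2 := (mul_eq_zero.1 hX1).resolve_left hc
        exact (mul_eq_zero.1 h2).resolve_right (neg_ne_zero.2 hD)
  · unfold ordS
    rw [Finset.sum_image (fun a _ b _ hab => hinj hab)]
    have h1 : Rt.card = ∑ X ∈ Rt.toFinset, Rt.count X := (Multiset.toFinset_sum_count_eq Rt).symm
    rw [h1]
    push_cast
    refine Finset.sum_congr rfl fun X hX => ?_
    rw [jd_fin_order P hP H hH c D hc hD h X, ← count_roots]
    rw [Multiset.mem_toFinset, hRt, Multiset.mem_filter] at hX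
    rw [hRt, Multiset.count_filter_of_pos
      (p := fun z => z.im ≠ 0 ∨ P.derivative.eval z = 0) hX.2]

/-- an elementary bound -/
theorem jd_fin_exp (c : ℝ) (hc : 0 < c) : ∃ K : ℝ, 0 < K ∧ ∀ n : ℕ,
    Real.sqrt (1 + n) * Real.exp (-(c * n)) ≤ K * Real.exp (-(c / 2 * n)) := by
  refine ⟨1 + 2 / c, by positivity, fun n => ?_⟩
  have hn : (0 : ℝ) ≤ n := Nat.cast_nonneg n
  have h1 : Real.sqrt (1 + n) ≤ 1 + n := by
    rw [Real.sqrt_le_left (by linarith)]
    nlinarith
  have h2 : (1 : ℝ) + n ≤ (1 + 2 / c) * Real.exp (c / 2 * n) := by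
    have h3 := Real.add_one_le_exp (c / 2 * n)
    have h4 : (1 : ℝ) ≤ Real.exp (c / 2 * n) := Real.one_le_exp (by positivity)
    have h5 : (n : ℝ) ≤ 2 / c * Real.exp (c / 2 * n) := by
      have h6 : 2 / c * (c / 2 * n) ≤ 2 / c * Real.exp (c / 2 * n) :=
        mul_le_mul_of_nonneg_left (by linarith) (by positivity)
      have h7 : 2 / c * (c / 2 * n) = n := by field_simp
      linarith
    linarith
  have h3 : Real.exp (-(c * n)) = Real.exp (-(c / 2 * n)) * Real.exp (-(c / 2 * n)) := by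
    rw [← Real.exp_add]
    congr 1
    ring
  have h4 : Real.exp (c / 2 * n) * Real.exp (-(c / 2 * n)) = 1 := by
    rw [← Real.exp_add, add_neg_cancel, Real.exp_zero]
  have h5 : 0 < Real.exp (-(c / 2 * n)) := Real.exp_pos _
  calc Real.sqrt (1 + n) * Real.exp (-(c * n)) ≤
      ((1 + 2 / c) * Real.exp (c / 2 * n)) * Real.exp (-(c * n)) :=
        mul_le_mul_of_nonneg_right (h1.trans h2) (Real.exp_pos _).le
    _ = (1 + 2 / c) * (Real.exp (c / 2 * n) * Real.exp (-(c / 2 * n))) *
        Real.exp (-(c / 2 * n)) := by rw [h3]; ring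
    _ = _ := by rw [h4, mul_one]

theorem p_fin (h1 : S_J) (h2 : S_link) (h3 : S_sim) : S_fin := by
  obtain ⟨Cs, hCs, hsim⟩ := h3
  obtain ⟨C, c, D₀, hC, hc, hJ⟩ := h1 (max 1 (2 * Cs)) (le_max_left _ _)
  obtain ⟨K, hK, hKn⟩ := jd_fin_exp c hc
  obtain ⟨E, hE⟩ : ∃ E : ℝ, E = max D₀ 2 := ⟨_, rfl⟩
  have hE2 : 2 ≤ E := by rw [hE]; exact le_max_right _ _
  have hED : D₀ ≤ E := by rw [hE]; exact le_max_left _ _
  have hpos1 : 0 < C * K := mul_pos hC hK
  have hpos2 : 0 < E * Real.exp (c / 2 * E) := mul_pos (by linarith) (Real.exp_pos _)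
  refine ⟨C * K + E * Real.exp (c / 2 * E), c / 2, by linarith, by linarith,
    fun d n hd P hP hPJ => ?_⟩
  have hPe : P = Jp d n := Polynomial.funext fun X => by rw [hPJ, Jp_eval]
  have hd1 : (1 : ℝ) ≤ d := by exact_mod_cast hd
  have hsd : 1 ≤ Real.sqrt d := Real.one_le_sqrt.2 hd1
  have hn0 : (0 : ℝ) ≤ n := Nat.cast_nonneg n
  have hnn : 0 ≤ (C * K + E * Real.exp (c / 2 * E)) * Real.exp (-(c / 2 * n)) * Real.sqrt d := by
    positivity
  by_cases hcase : Cs * Real.log (d + 1) ≤ n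
  · -- all roots are real and simple
    have h4 : (P.roots.filter fun z => z.im ≠ 0 ∨ P.derivative.eval z = 0) = 0 := by
      rw [Multiset.filter_eq_nil]
      intro X hX
      rw [mem_roots hP, IsRoot.def, hPJ] at hX
      obtain ⟨h5, h6⟩ := hsim d n hd hcase X hX
      rw [Jp_deriv, ← hPe] at h6
      push Not
      exact ⟨h5, h6⟩
    rw [h4]
    simpa using hnn
  · push Not at hcase
    by_cases hbig : E ≤ ((d + n : ℕ) : ℝ)
    · -- the main case
      obtain ⟨c₁, hc₁, hlink⟩ := h2 d n hd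
      have hDpos : (0 : ℝ) < ((d + n : ℕ) : ℝ) := by linarith
      have hDne : (((d + n : ℕ) : ℕ) : ℂ) ≠ 0 := by
        have : ((d + n : ℕ) : ℝ) ≠ 0 := hDpos.ne'
        exact_mod_cast this
      have hHd : Differentiable ℂ (iteratedDeriv n (Hd (d + n) ff)) := by
        have h5 : Differentiable ℂ (Hd (d + n) ff) := by
          unfold Hd
          fun_prop
        have h6 : ContDiff ℂ (⊤ : ℕ∞) (Hd (d + n) ff) := h5.contDiff
        exact h6.differentiable_iteratedDeriv n (by exact_mod_cast WithTop.coe_lt_top n)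
      obtain ⟨S, hS1, hS2⟩ := jd_fin_count P hP (iteratedDeriv n (Hd (d + n) ff)) hHd c₁
        (((d + n : ℕ) : ℕ) : ℂ) hc₁ hDne (Complex.natCast_im _)
        (fun X => by rw [hPJ, hlink])
      have hlog : (n : ℝ) ≤ max 1 (2 * Cs) * Real.log ((d + n : ℕ) : ℝ) := by
        have h7 : Real.log (d + 1) ≤ 2 * Real.log ((d + n : ℕ) : ℝ) := by
          rw [← Real.log_rpow hDpos]
          apply Real.log_le_log (by linarith)
          rw [show (2 : ℝ) = ((2 : ℕ) : ℝ) by norm_num, Real.rpow_natCast]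
          have h8 : (d : ℝ) ≤ ((d + n : ℕ) : ℝ) := by push_cast; linarith
          nlinarith
        have h9 : 0 ≤ Real.log ((d + n : ℕ) : ℝ) := Real.log_nonneg (by linarith)
        calc (n : ℝ) ≤ Cs * Real.log (d + 1) := hcase.le
          _ ≤ Cs * (2 * Real.log ((d + n : ℕ) : ℝ)) := mul_le_mul_of_nonneg_left h7 hCs.le
          _ = (2 * Cs) * Real.log ((d + n : ℕ) : ℝ) := by ring
          _ ≤ _ := mul_le_mul_of_nonneg_right (le_max_right _ _) h9
      have hmain := hJ (d + n) n (by linarith) hlog S hS1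
      rw [hS2]
      have h10 : Real.sqrt ((d + n : ℕ) : ℝ) ≤ Real.sqrt d * Real.sqrt (1 + n) := by
        rw [← Real.sqrt_mul (by linarith)]
        apply Real.sqrt_le_sqrt
        push_cast
        nlinarith
      calc ordS (iteratedDeriv n (Hd (d + n) ff)) S ≤
          C * Real.sqrt ((d + n : ℕ) : ℝ) * Real.exp (-(c * n)) := hmain
        _ ≤ C * (Real.sqrt d * Real.sqrt (1 + n)) * Real.exp (-(c * n)) :=
            mul_le_mul_of_nonneg_right (mul_le_mul_of_nonneg_left h10 hC.le) (Real.exp_pos _).le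
        _ = C * Real.sqrt d * (Real.sqrt (1 + n) * Real.exp (-(c * n))) := by ring
        _ ≤ C * Real.sqrt d * (K * Real.exp (-(c / 2 * n))) :=
            mul_le_mul_of_nonneg_left (hKn n) (by positivity)
        _ = C * K * (Real.exp (-(c / 2 * n)) * Real.sqrt d) := by ring
        _ ≤ (C * K + E * Real.exp (c / 2 * E)) * (Real.exp (-(c / 2 * n)) * Real.sqrt d) :=
            mul_le_mul_of_nonneg_right (by linarith) (by positivity)
        _ = _ := by ring
    · -- few cases
      push Not at hbig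
      have h5 : ((P.roots.filter fun z => z.im ≠ 0 ∨ P.derivative.eval z = 0).card : ℝ) ≤ d := by
        have h6 : (P.roots.filter fun z => z.im ≠ 0 ∨ P.derivative.eval z = 0).card ≤ d := by
          refine (Multiset.card_le_card (Multiset.filter_le _ _)).trans ?_
          rw [hPe, Jp_card]
        exact_mod_cast h6
      push_cast at hbig
      have h6 : Real.exp (c / 2 * n) ≤ Real.exp (c / 2 * E) := by
        apply Real.exp_le_exp.2
        apply mul_le_mul_of_nonneg_left _ (by linarith)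
        linarith
      have h7 : 1 ≤ Real.exp (c / 2 * E) * Real.exp (-(c / 2 * n)) := by
        have h8 : Real.exp (c / 2 * n) * Real.exp (-(c / 2 * n)) = 1 := by
          rw [← Real.exp_add, add_neg_cancel, Real.exp_zero]
        rw [← h8]
        exact mul_le_mul_of_nonneg_right h6 (Real.exp_pos _).le
      have h8 : (0 : ℝ) < E := by linarith
      have h9 : 0 ≤ Real.exp (-(c / 2 * n)) * Real.sqrt d := by positivity
      calc ((P.roots.filter fun z => z.im ≠ 0 ∨ P.derivative.eval z = 0).card : ℝ) ≤ d := h5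
        _ ≤ E := by linarith
        _ = E * (1 * 1) := by ring
        _ ≤ E * ((Real.exp (c / 2 * E) * Real.exp (-(c / 2 * n))) * Real.sqrt d) :=
            mul_le_mul_of_nonneg_left (mul_le_mul h7 hsd (by norm_num) (by positivity)) h8.le
        _ = (E * Real.exp (c / 2 * E)) * (Real.exp (-(c / 2 * n)) * Real.sqrt d) := by ring
        _ ≤ (C * K + E * Real.exp (c / 2 * E)) * (Real.exp (-(c / 2 * n)) * Real.sqrt d) :=
            mul_le_mul_of_nonneg_right (by linarith) h9
        _ = _ := by ring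

end Pool.Agent.Lib.MP_cd509c_nt.JD
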