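import Pool.Agent.Lib.MP_cd509c_nt.JD.StmK

/-!
# JD kr: Taylor bounds for the kernel
-/

set_option autoImplicit false

namespace Pool.Agent.Lib.MP_cd509c_nt.JD

open Complex ComplexConjugate MeasureTheory
open Pool.Agent.Lib.MP_cd509c_nt.DN

theorem kr_cos_le (x : ℝ) : Real.cos x ≤ 1 - x ^ 2 / 2 + x ^ 4 / 24 := by
  wlog hx : 0 ≤ x generalizing x with H
  · have := H (-x) (by linarith)
    rw [Real.cos_neg] at this
    nlinarith [this]
  let f (t : ℝ) : ℝ := 1 - t ^ 2 / 2 + t ^ 4 / 24 - Real.cos t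
  have hderiv (t : ℝ) : deriv f t = -t + t ^ 3 / 6 + Real.sin t := by
    have h : HasDerivAt f (-(2 * t ^ 1 * 1) / 2 + (4 * t ^ 3 * 1) / 24 - (-Real.sin t)) t := by
      have h1 : HasDerivAt (fun t : ℝ => t ^ 2 / 2) ((2 * t ^ 1 * 1) / 2) t := by
        simpa using ((hasDerivAt_id t).pow 2).div_const 2
      have h2 : HasDerivAt (fun t : ℝ => t ^ 4 / 24) ((4 * t ^ 3 * 1) / 24) t := by
        simpa using ((hasDerivAt_id t).pow 4).div_const 24
      have h3 := (((hasDerivAt_const t (1 : ℝ)).sub h1).add h2).sub (Real.hasDerivAt_cos t)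
      exact h3.congr_deriv (by ring)
    rw [h.deriv]
    ring
  have hmono : MonotoneOn f (Set.Ici 0) := by
    apply monotoneOn_of_deriv_nonneg (convex_Ici 0)
    · exact (by fun_prop : Continuous f).continuousOn
    · exact (by fun_prop : Differentiable ℝ f).differentiableOn
    · intro t ht
      rw [interior_Ici] at ht
      have := Real.sin_ge_sub_cube (le_of_lt (show 0 < t from ht))
      rw [hderiv]
      linarith
  have h0 : f 0 ≤ f x := hmono (by simp) hx hx
  have h1 : f 0 = 0 := by simp [f]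
  rw [h1] at h0
  simp only [f] at h0
  linarith

theorem kr_exp3 {z : ℂ} (hz : ‖z‖ ≤ 1) : ‖cexp z - 1 - z - z ^ 2 / 2‖ ≤ ‖z‖ ^ 3 / 2 := by
  have h := Complex.exp_bound hz (n := 3) (by norm_num)
  simp only [Finset.sum_range_succ, Finset.sum_range_zero, Nat.factorial] at h
  have e : cexp z - 1 - z - z ^ 2 / 2 =
      cexp z - (0 + z ^ 0 / ((1 : ℕ) : ℂ) + z ^ 1 / (((0 + 1) * 1 : ℕ) : ℂ) +
        z ^ 2 / (((1 + 1) * ((0 + 1) * 1) : ℕ) : ℂ)) := by
    push_cast
    ring
  rw [e]
  refine h.trans ?_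
  have : 0 ≤ ‖z‖ ^ 3 := by positivity
  norm_num
  linarith

theorem kr_bet {D : ℕ} {N x a : ℝ} (hD : 1 ≤ D) (hN : 0 < N) (ha : 0 < a) (hx : 0 < x) :
    N / bet D N x a = 4 * D * a ^ 2 / x ^ 2 := by
  have hD' : (0 : ℝ) < D := by exact_mod_cast hD
  rw [bet]
  field_simp

theorem kr_norm (D : ℕ) (q : ℝ) : ‖kD D (-(q : ℂ))‖ = Real.exp (-(D * (1 - Real.cos q))) := by
  rw [kD, Complex.norm_exp]
  congr 1
  have h1 : (-(q : ℂ)) * I = ((-q : ℝ) : ℂ) * I := by push_cast; ring
  rw [h1, Complex.exp_mul_I]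
  simp only [Complex.mul_re, Complex.sub_re, Complex.add_re, Complex.natCast_re,
    Complex.natCast_im, Complex.one_re, Complex.ofReal_re, Complex.ofReal_im, Complex.I_re,
    Complex.I_im, ← Complex.ofReal_cos, ← Complex.ofReal_sin, Real.cos_neg]
  ring

theorem p_kr : S_kr := by
  intro D N x a hD hN ha hx
  have hD' : (0 : ℝ) < D := by exact_mod_cast hD
  have hβ := kr_bet hD hN ha hx
  have hb0 : 0 < bet D N x a := by rw [bet]; positivity
  have hbc : (bet D N x a : ℂ) ≠ 0 := by exact_mod_cast hb0.ne'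
  have hxc : (x : ℂ) ≠ 0 := by exact_mod_cast hx.ne'
  have hNc : (N : ℂ) ≠ 0 := by exact_mod_cast hN.ne'
  have hβc : (N : ℂ) / bet D N x a = 4 * D * a ^ 2 / x ^ 2 := by
    have := congrArg (fun t : ℝ => (t : ℂ)) hβ
    push_cast at this
    exact this
  refine ⟨fun v hv => ⟨?_, ?_⟩, fun v hv => ⟨?_, ?_⟩⟩
  · -- the value
    set q : ℂ := 2 * a * v / x with hq
    have hqn : ‖q‖ = 2 * a * ‖v‖ / x := by
      rw [hq, norm_div, norm_mul, norm_mul, Complex.norm_real, Complex.norm_real,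
        Real.norm_of_nonneg ha.le, Real.norm_of_nonneg hx.le]
      simp
    have hq1 : ‖q‖ ≤ 1 := by
      rw [hqn, div_le_one hx]
      nlinarith [norm_nonneg v]
    refine ⟨D * (cexp (-q * I) - 1 - -q * I - (-q * I) ^ 2 / 2), ?_, ?_⟩
    · have h1 := kr_exp3 (z := -q * I) (by simpa using hq1)
      rw [norm_mul, Complex.norm_natCast]
      have h2 : ‖-q * I‖ = ‖q‖ := by simp
      rw [h2, hqn] at h1
      rw [hβ]
      calc (D : ℝ) * ‖cexp (-q * I) - 1 - -q * I - (-q * I) ^ 2 / 2‖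
          ≤ D * ((2 * a * ‖v‖ / x) ^ 3 / 2) := by gcongr
        _ = 4 * D * a ^ 2 / x ^ 2 * (a / x) * ‖v‖ ^ 3 := by
          field_simp
          ring
    · rw [kD]
      congr 1
      have h3 : (N : ℂ) * v ^ 2 / (2 * bet D N x a) = (N : ℂ) / bet D N x a * (v ^ 2 / 2) := by
        field_simp
      rw [h3, hβc]
      have h4 : (4 * D * a ^ 2 / x ^ 2 : ℂ) * (v ^ 2 / 2) = D * (q ^ 2 / 2) := by
        rw [hq]
        field_simp
        ring
      rw [h4]
      have h5 : (-q * I) ^ 2 = -q ^ 2 := by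
        rw [mul_pow, I_sq]
        ring
      rw [h5]
      ring
  · -- the derivative
    set q : ℂ := 2 * a * v / x with hq
    have hqn : ‖q‖ = 2 * a * ‖v‖ / x := by
      rw [hq, norm_div, norm_mul, norm_mul, Complex.norm_real, Complex.norm_real,
        Real.norm_of_nonneg ha.le, Real.norm_of_nonneg hx.le]
      simp
    have hq1 : ‖q‖ ≤ 1 := by
      rw [hqn, div_le_one hx]
      nlinarith [norm_nonneg v]
    refine ⟨-(D * (2 * a / x) * I * (cexp (-q * I) - 1 - -q * I)), ?_, ?_⟩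
    · have h1 := Complex.norm_exp_sub_one_sub_id_le (x := -q * I) (by simpa using hq1)
      have h2 : ‖-q * I‖ = ‖q‖ := by simp
      rw [h2, hqn] at h1
      have h3 : ‖(D : ℂ) * (2 * a / x) * I‖ = D * (2 * a / x) := by
        rw [norm_mul, norm_mul, Complex.norm_natCast, norm_div, norm_mul, Complex.norm_real,
          Complex.norm_real, Real.norm_of_nonneg ha.le, Real.norm_of_nonneg hx.le]
        simp
      rw [norm_neg, norm_mul, h3, hβ]
      calc (D : ℝ) * (2 * a / x) * ‖cexp (-q * I) - 1 - -q * I‖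
          ≤ D * (2 * a / x) * (2 * a * ‖v‖ / x) ^ 2 := by gcongr
        _ = 2 * (4 * D * a ^ 2 / x ^ 2) * (a / x) * ‖v‖ ^ 2 := by
          field_simp
          ring
    · have h1 : HasDerivAt (fun v : ℂ => -(2 * a * v / x) * I) (-(2 * a / x) * I) v := by
        have h := (((hasDerivAt_id v).const_mul (2 * a : ℂ)).div_const (x : ℂ)).neg.mul_const I
        simpa using h
      have h2 := ((h1.cexp.sub_const 1).sub h1).const_mul (D : ℂ)
      have h3 := h2.cexp
      have h4 : (-(N * v / bet D N x a) + -(D * (2 * a / x) * I * (cexp (-q * I) - 1 - -q * I))) =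
          D * (cexp (-(2 * a * v / x) * I) * (-(2 * a / x) * I) - -(2 * a / x) * I) := by
        have h5 : (N : ℂ) * v / bet D N x a = (N : ℂ) / bet D N x a * v := by ring
        rw [h5, hβc, ← hq]
        have h6 : (4 * D * a ^ 2 / x ^ 2 : ℂ) * v = D * (2 * a / x) * q := by
          rw [hq]
          field_simp
          ring
        rw [h6]
        have h7 : I * I = -1 := I_mul_I
        linear_combination (-(D * (2 * a / x) * q) : ℂ) * h7
      rw [h4]
      exact h3
  · -- first bound for real v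
    have e : (2 * a * v / x : ℂ) = ((2 * a * v / x : ℝ) : ℂ) := by push_cast; ring
    rw [e, kr_norm]
    apply Real.exp_le_exp.2
    set q : ℝ := 2 * a * v / x with hq
    have h3 : N * v ^ 2 / (5 * bet D N x a) = N / bet D N x a * (v ^ 2 / 5) := by
      field_simp
    have h4 : (4 * D * a ^ 2 / x ^ 2 : ℝ) * (v ^ 2 / 5) = D * (q ^ 2 / 5) := by
      rw [hq]
      field_simp
      ring
    rw [h3, hβ, h4]
    have hqa : |q| ≤ Real.pi := by
      rw [hq, abs_div, abs_mul, abs_mul, abs_of_pos ha, abs_of_pos hx, abs_of_pos (by norm_num : (0 : ℝ) < 2),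
        div_le_iff₀ hx]
      exact hv
    have h5 := Real.cos_le_one_sub_mul_cos_sq hqa
    have h6 : (1 : ℝ) / 5 ≤ 2 / Real.pi ^ 2 := by
      rw [div_le_div_iff₀ (by norm_num) (by positivity)]
      have := Real.pi_lt_d2
      have := Real.pi_pos
      nlinarith
    have h7 : q ^ 2 / 5 ≤ 1 - Real.cos q := by
      have : 1 / 5 * q ^ 2 ≤ 2 / Real.pi ^ 2 * q ^ 2 := by gcongr
      linarith
    have := mul_le_mul_of_nonneg_left h7 hD'.le
    linarith
  · -- second bound for real v
    have e : (2 * a * v / x : ℂ) = ((2 * a * v / x : ℝ) : ℂ) := by push_cast; ring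
    rw [e, kr_norm]
    apply Real.exp_le_exp.2
    set q : ℝ := 2 * a * v / x with hq
    have h3 : N * v ^ 2 / (2 * bet D N x a) = N / bet D N x a * (v ^ 2 / 2) := by
      field_simp
    have h4 : (4 * D * a ^ 2 / x ^ 2 : ℝ) * (v ^ 2 / 2) = D * (q ^ 2 / 2) := by
      rw [hq]
      field_simp
      ring
    rw [h3, hβ, h4]
    have h5 := kr_cos_le q
    have h7 : q ^ 2 / 2 * (1 - q ^ 2 / 12) ≤ 1 - Real.cos q := by
      nlinarith
    have := mul_le_mul_of_nonneg_left h7 hD'.le
    linarith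

end Pool.Agent.Lib.MP_cd509c_nt.JD
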