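import Pool.Agent.Lib.MP_cd509c_nt.JD.StmK

/-!
# ld: the logarithmic derivative from the Lipschitz bound
-/

set_option autoImplicit false

namespace Pool.Agent.Lib.MP_cd509c_nt.JD

open Complex ComplexConjugate MeasureTheory Filter Topology
open Pool.Agent.Lib.MP_cd509c_nt.DN

/-- a one sided bound of the norm along a ray bounds the derivative -/
theorem ld_ray (G : ℂ → ℂ) (w u L : ℂ) (c : ℝ) (hG : HasDerivAt G (L * G w) w) (h0 : G w ≠ 0)
    (hb : ∀ᶠ t : ℝ in 𝓝[>] 0, ‖G (w + t * u)‖ ≤ Real.exp (c * t) * ‖G w‖) :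
    (u * L).re ≤ c := by
  have h1 : HasDerivAt (fun t : ℝ => w + (t : ℂ) * u) u 0 := by
    have h := ((Complex.ofRealCLM.hasDerivAt (x := (0 : ℝ))).mul_const u).const_add w
    simpa using h
  have h2 : HasDerivAt (fun t : ℝ => G (w + (t : ℂ) * u)) (u * (L * G w)) 0 := by
    have h := HasDerivAt.scomp_of_eq (𝕜 := ℝ) (x := (0 : ℝ)) (y := w) hG h1 (by simp)
    simpa [Function.comp_def] using h
  have h3 : HasDerivAt (fun t : ℝ => G (w + (t : ℂ) * u) / G w) (u * L) 0 := by
    have h := h2.div_const (G w)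
    have e : u * (L * G w) / G w = u * L := by
      field_simp
    rwa [e] at h
  have h4 : HasDerivAt (fun t : ℝ => (G (w + (t : ℂ) * u) / G w).re) (u * L).re 0 := by
    have h := (Complex.reCLM.hasFDerivAt (x := (G (w + ((0 : ℝ) : ℂ) * u) / G w))).comp_hasDerivAt
      (0 : ℝ) h3
    simpa [Function.comp_def] using h
  have h5 : HasDerivAt (fun t : ℝ => Real.exp (c * t)) c 0 := by
    have h := ((hasDerivAt_id (0 : ℝ)).const_mul c).exp
    simpa using h
  have h6 := (h4.sub h5).tendsto_slope_zero_right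
  have h7 : (u * L).re - c ≤ 0 := by
    refine le_of_tendsto h6 ?_
    filter_upwards [hb, self_mem_nhdsWithin] with t ht htpos
    have htpos' : (0 : ℝ) < t := htpos
    have e0 : (G (w + ((0 : ℝ) : ℂ) * u) / G w).re - Real.exp (c * 0) = 0 := by
      simp [div_self h0]
    have hle : (G (w + ((t : ℝ) : ℂ) * u) / G w).re - Real.exp (c * t) ≤ 0 := by
      have h8 : (G (w + ((t : ℝ) : ℂ) * u) / G w).re ≤ ‖G (w + ((t : ℝ) : ℂ) * u) / G w‖ :=
        Complex.re_le_norm _
      have h9 : ‖G (w + ((t : ℝ) : ℂ) * u) / G w‖ ≤ Real.exp (c * t) := by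
        rw [norm_div, div_le_iff₀ (norm_pos_iff.mpr h0)]
        exact ht
      linarith
    show t⁻¹ • (((G (w + (((0 : ℝ) + t : ℝ) : ℂ) * u) / G w).re - Real.exp (c * ((0 : ℝ) + t))) -
      ((G (w + ((0 : ℝ) : ℂ) * u) / G w).re - Real.exp (c * 0))) ≤ 0
    rw [e0, sub_zero, zero_add, smul_eq_mul]
    exact mul_nonpos_of_nonneg_of_nonpos (inv_nonneg.mpr htpos'.le) hle
  linarith

theorem p_ld : S_ld := by
  intro C₁ ε N b Y x a g hε hN hb hreg w hw1 hw2 hw3
  set G : ℂ → ℂ := fun v => g (om x a v) with hGdef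
  have hGd : Differentiable ℂ G := by
    refine hreg.diff.comp ?_
    unfold om
    fun_prop
  have hG0 : G w ≠ 0 := hreg.ne w hw1.le hw2.le hw3.le
  show ‖deriv G w / G w - N‖ ≤ ε * N
  set q : ℂ := deriv G w / G w - N with hq
  by_cases hq0 : q = 0
  · rw [hq0, norm_zero]
    positivity
  have hqn : 0 < ‖q‖ := norm_pos_iff.mpr hq0
  set u : ℂ := conj q / ‖q‖ with hu
  have hun : ‖u‖ = 1 := by
    rw [hu, norm_div, RCLike.norm_conj, Complex.norm_real, norm_norm, div_self hqn.ne']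
  have huq : u * q = (‖q‖ : ℂ) := by
    have hqc : (‖q‖ : ℂ) ≠ 0 := by
      exact_mod_cast hqn.ne'
    rw [hu, div_mul_eq_mul_div, ← Complex.normSq_eq_conj_mul_self, Complex.normSq_eq_norm_sq]
    push_cast
    field_simp
  have hL : HasDerivAt G ((deriv G w / G w) * G w) w := by
    rw [div_mul_cancel₀ _ hG0]
    exact (hGd w).hasDerivAt
  have hcont : ContinuousAt (fun t : ℝ => w + (t : ℂ) * u) 0 := by fun_prop
  have hev : ∀ᶠ t : ℝ in 𝓝 0, 0 < (w + (t : ℂ) * u).re ∧ (w + (t : ℂ) * u).re < Y ∧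
      |(w + (t : ℂ) * u).im| < 24 * b := by
    have hre : ContinuousAt (fun t : ℝ => (w + (t : ℂ) * u).re) 0 :=
      Complex.continuous_re.continuousAt.comp hcont
    have him : ContinuousAt (fun t : ℝ => |(w + (t : ℂ) * u).im|) 0 :=
      (continuous_abs.comp Complex.continuous_im).continuousAt.comp hcont
    have h0re : (fun t : ℝ => (w + (t : ℂ) * u).re) 0 = w.re := by simp
    have h0im : (fun t : ℝ => |(w + (t : ℂ) * u).im|) 0 = |w.im| := by simp
    have e1 : ∀ᶠ t : ℝ in 𝓝 0, 0 < (w + (t : ℂ) * u).re := by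
      refine hre.eventually (lt_mem_nhds ?_)
      rw [h0re]
      linarith
    have e2 : ∀ᶠ t : ℝ in 𝓝 0, (w + (t : ℂ) * u).re < Y := by
      refine hre.eventually (gt_mem_nhds ?_)
      rw [h0re]
      exact hw2
    have e3 : ∀ᶠ t : ℝ in 𝓝 0, |(w + (t : ℂ) * u).im| < 24 * b := by
      refine him.eventually (gt_mem_nhds ?_)
      rw [h0im]
      exact hw3
    filter_upwards [e1, e2, e3] with t h1 h2 h3
    exact ⟨h1, h2, h3⟩
  have hb' : ∀ᶠ t : ℝ in 𝓝[>] 0, ‖G (w + t * u)‖ ≤ Real.exp ((N * u.re + ε * N) * t) * ‖G w‖ := by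
    filter_upwards [hev.filter_mono nhdsWithin_le_nhds, self_mem_nhdsWithin] with t ht htpos
    have htpos' : (0 : ℝ) < t := htpos
    have h := hreg.lin w (w + t * u) hw1.le hw2.le hw3.le ht.1.le ht.2.1.le ht.2.2.le
    have e1 : (w + (t : ℂ) * u).re - w.re = t * u.re := by
      simp
    have e2 : ‖w + (t : ℂ) * u - w‖ = t := by
      rw [add_sub_cancel_left, norm_mul, hun, mul_one, Complex.norm_real, Real.norm_eq_abs,
        abs_of_pos htpos']
    rw [e1, e2] at h
    rw [show (N * u.re + ε * N) * t = N * (t * u.re) + ε * N * t by ring]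
    exact h
  have key := ld_ray G w u (deriv G w / G w) (N * u.re + ε * N) hL hG0 hb'
  have e : deriv G w / G w = q + N := by rw [hq]; ring
  rw [e, mul_add, Complex.add_re, huq, Complex.ofReal_re] at key
  have e3 : (u * (N : ℂ)).re = N * u.re := by
    simp [mul_comm]
  rw [e3] at key
  linarith

end Pool.Agent.Lib.MP_cd509c_nt.JD
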