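import Pool.Agent.Lib.MP_cd509c_nt.JD.Defs

set_option autoImplicit false

/-!
Project JD (helper50): relation to the Jensen polynomials (helper49).
-/

namespace Pool.Agent.Lib.MP_cd509c_nt.JD

open Complex

theorem jd_link_hd (D n : ℕ) (g : ℂ → ℂ) (ω : ℂ) : iteratedDeriv n (Hd D g) ω =
    ∑ k ∈ Finset.range (D + 1), ((D.choose k : ℂ) * iteratedDeriv k g 0 / (D : ℂ) ^ k) *
      ((k.descFactorial n : ℂ) * ω ^ (k - n)) := by
  have e : Hd D g = fun ω => ∑ k ∈ Finset.range (D + 1),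
      ((D.choose k : ℂ) * iteratedDeriv k g 0 / (D : ℂ) ^ k) * ω ^ k := by
    funext ω
    unfold Hd
    apply Finset.sum_congr rfl
    intro k _
    rw [div_pow]
    ring
  rw [e, iteratedDeriv_fun_sum (fun k _ => by fun_prop)]
  apply Finset.sum_congr rfl
  intro k _
  rw [iteratedDeriv_const_mul_field]
  congr 1
  exact iteratedDeriv_pow k n

/-- the constant -/
noncomputable def lk (d n : ℕ) : ℂ :=
  (-1) ^ n * ((d + n : ℕ) : ℂ) ^ n * (d.factorial : ℂ) / ((d + n).factorial : ℂ)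

theorem lk_ne (d n : ℕ) (hd : 1 ≤ d) : lk d n ≠ 0 := by
  unfold lk
  have h1 : ((d + n : ℕ) : ℂ) ≠ 0 := by
    have : d + n ≠ 0 := by omega
    exact_mod_cast this
  have h2 : (d.factorial : ℂ) ≠ 0 := by exact_mod_cast d.factorial_ne_zero
  have h3 : ((d + n).factorial : ℂ) ≠ 0 := by exact_mod_cast (d + n).factorial_ne_zero
  exact div_ne_zero (mul_ne_zero (mul_ne_zero (pow_ne_zero _ (by norm_num)) (pow_ne_zero _ h1)) h2) h3

/-- the relation, with a constant independent of `X` -/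
theorem link_unif (d n : ℕ) (hd : 1 ≤ d) (X : ℂ) :
    Jen d n X = lk d n * iteratedDeriv n (Hd (d + n) ff) (-((d + n : ℕ) : ℂ) * X) := by
  set D := d + n with hD
  have hD0 : (D : ℂ) ≠ 0 := by
    have : D ≠ 0 := by omega
    exact_mod_cast this
  rw [jd_link_hd]
  have hsplit : Finset.range (D + 1) = Finset.range (n + (d + 1)) := by
    congr 1; omega
  rw [hsplit, Finset.sum_range_add]
  have hz : ∑ k ∈ Finset.range n, ((D.choose k : ℂ) * iteratedDeriv k ff 0 / (D : ℂ) ^ k) *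
      ((k.descFactorial n : ℂ) * (-(D : ℂ) * X) ^ (k - n)) = 0 := by
    apply Finset.sum_eq_zero
    intro k hk
    rw [Finset.mem_range] at hk
    rw [Nat.descFactorial_of_lt hk]
    simp
  rw [hz, zero_add, Finset.mul_sum, Jen]
  apply Finset.sum_congr rfl
  intro j hj
  rw [Finset.mem_range] at hj
  have hjd : j ≤ d := by omega
  rw [iteratedDeriv_ff_zero', show n + j - n = j by omega]
  have hdf : (((n + j).descFactorial n : ℕ) : ℂ) * (j.factorial : ℂ) = ((n + j).factorial : ℂ) := by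
    have h := Nat.factorial_mul_descFactorial (show n ≤ n + j by omega)
    rw [show n + j - n = j by omega] at h
    have : ((j.factorial * (n + j).descFactorial n : ℕ) : ℂ) = ((n + j).factorial : ℂ) := by
      exact_mod_cast h
    rw [← this]; push_cast; ring
  have hch1 : ((D.choose (n + j) : ℕ) : ℂ) * ((n + j).factorial : ℂ) * ((d - j).factorial : ℂ) =
      (D.factorial : ℂ) := by
    have h := Nat.choose_mul_factorial_mul_factorial (show n + j ≤ D by omega)
    rw [show D - (n + j) = d - j by omega] at h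
    exact_mod_cast h
  have hch2 : ((d.choose j : ℕ) : ℂ) * (j.factorial : ℂ) * ((d - j).factorial : ℂ) =
      (d.factorial : ℂ) := by
    exact_mod_cast Nat.choose_mul_factorial_mul_factorial hjd
  have f1 : (j.factorial : ℂ) ≠ 0 := by exact_mod_cast j.factorial_ne_zero
  have f2 : ((d - j).factorial : ℂ) ≠ 0 := by exact_mod_cast (d - j).factorial_ne_zero
  have f3 : (D.factorial : ℂ) ≠ 0 := by exact_mod_cast D.factorial_ne_zero
  have f4 : ((n + j).factorial : ℂ) ≠ 0 := by exact_mod_cast (n + j).factorial_ne_zero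
  have e1 : ((D.choose (n + j) : ℕ) : ℂ) = (D.factorial : ℂ) /
      (((n + j).factorial : ℂ) * ((d - j).factorial : ℂ)) := by
    rw [eq_div_iff (mul_ne_zero f4 f2), ← hch1]; ring
  have e2 : (((n + j).descFactorial n : ℕ) : ℂ) = ((n + j).factorial : ℂ) / (j.factorial : ℂ) := by
    rw [eq_div_iff f1, hdf]
  have e3 : ((d.choose j : ℕ) : ℂ) = (d.factorial : ℂ) /
      ((j.factorial : ℂ) * ((d - j).factorial : ℂ)) := by
    rw [eq_div_iff (mul_ne_zero f1 f2), ← hch2]; ring
  unfold lk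
  rw [← hD, e1, e2, e3, pow_add (-1 : ℂ) n j, pow_add (D : ℂ) n j, mul_pow, neg_pow (D : ℂ) j]
  have h1 : ((-1 : ℂ) ^ n) * ((-1 : ℂ) ^ n) = 1 := by
    rw [← mul_pow]; norm_num
  have h2 : ((-1 : ℂ) ^ j) * ((-1 : ℂ) ^ j) = 1 := by
    rw [← mul_pow]; norm_num
  field_simp
  have h3 : ((-1 : ℂ) ^ (j * 2)) = 1 := by rw [mul_comm, pow_mul]; norm_num
  have h4 : ((-1 : ℂ) ^ (n * 2)) = 1 := by rw [mul_comm, pow_mul]; norm_num
  have h5 : ((-1 : ℂ) ^ n) ^ 2 = 1 := by rw [← pow_mul]; exact h4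
  have h6 : ((-1 : ℂ) ^ j) ^ 2 = 1 := by rw [← pow_mul]; exact h3
  linear_combination (-(1 : ℂ)) * ((d.factorial : ℂ) * gam (n + j) * X ^ j) *
    (((-1 : ℂ) ^ j) ^ 2 * h5 + h6)

theorem p_link : S_link := by
  intro d n hd
  exact ⟨lk d n, lk_ne d n hd, link_unif d n hd⟩

end Pool.Agent.Lib.MP_cd509c_nt.JD
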