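import Pool.Agent.Lib.MP_cd509c_nt.JD.Defs

/-!
# Members of the family near the axis, in the annulus
-/

set_option autoImplicit false

namespace Pool.Agent.Lib.MP_cd509c_nt.JD

open Complex ComplexConjugate MeasureTheory
open Pool.Agent.Lib.MP_cd509c_nt.DN

theorem jd_nrF_root (D : ℕ) (p : ℝ × ℝ) (hD : 1 ≤ D)
    (hp : 0 < p.2 ∧ p.2 ^ 2 ≤ p.1 + 1 / 4 ∧ p.1 ^ 2 + p.2 ^ 2 < D * p.2 ^ 2) :
    ‖(p.1 : ℂ) + p.2 * I‖ ≤ 2 * D := by
  obtain ⟨h1, h2, h3⟩ := hp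
  have hD' : (1 : ℝ) ≤ D := by exact_mod_cast hD
  have h4 : ‖(p.1 : ℂ) + p.2 * I‖ ^ 2 = p.1 ^ 2 + p.2 ^ 2 := by
    rw [← Complex.normSq_eq_norm_sq, Complex.normSq_add_mul_I]
  have h5 : p.1 ≤ ‖(p.1 : ℂ) + p.2 * I‖ := by
    have := Complex.re_le_norm ((p.1 : ℂ) + p.2 * I)
    simpa using this
  by_contra hcon
  push Not at hcon
  generalize ‖(p.1 : ℂ) + p.2 * I‖ = r at h4 h5 hcon
  have h6 : r ^ 2 < D * (r + 1 / 4) := by
    rw [h4]
    refine lt_of_lt_of_le h3 (mul_le_mul_of_nonneg_left ?_ (by linarith))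
    linarith
  nlinarith

theorem jd_nrF_fac {ω₁ ω₂ ζ : ℂ} {X d : ℝ} (hX : 0 < X) (hζ : ‖ζ‖ ≤ X / 8) (hω : X / 2 ≤ ‖ω₂‖)
    (hd : ‖ω₁ - ω₂‖ ≤ d * (X / 4)) (hd0 : 0 ≤ d) :
    X / 4 ≤ ‖ω₂ - ζ‖ ∧ ‖ω₁ - ζ‖ ≤ Real.exp d * ‖ω₂ - ζ‖ := by
  have h1 : X / 4 ≤ ‖ω₂ - ζ‖ := by
    have := norm_sub_norm_le ω₂ ζ
    linarith
  refine ⟨h1, ?_⟩
  calc ‖ω₁ - ζ‖ = ‖(ω₁ - ω₂) + (ω₂ - ζ)‖ := by congr 1; ring
    _ ≤ ‖ω₁ - ω₂‖ + ‖ω₂ - ζ‖ := norm_add_le _ _
    _ ≤ d * ‖ω₂ - ζ‖ + ‖ω₂ - ζ‖ := by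
        have := mul_le_mul_of_nonneg_left h1 hd0
        linarith
    _ = (d + 1) * ‖ω₂ - ζ‖ := by ring
    _ ≤ Real.exp d * ‖ω₂ - ζ‖ :=
        mul_le_mul_of_nonneg_right (Real.add_one_le_exp d) (norm_nonneg _)

theorem jd_nrF_qp {ω₁ ω₂ : ℂ} {X d : ℝ} (hX : 0 < X) (hω : X / 2 ≤ ‖ω₂‖)
    (hd : ‖ω₁ - ω₂‖ ≤ d * (X / 4)) (hd0 : 0 ≤ d) (s : List (ℝ × ℝ))
    (hs : ∀ p ∈ s, ‖(p.1 : ℂ) + p.2 * I‖ ≤ X / 8) :
    qp s ω₂ ≠ 0 ∧ ‖qp s ω₁‖ ≤ Real.exp (2 * d * s.length) * ‖qp s ω₂‖ := by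
  induction s with
  | nil => simp [qp]
  | cons p s ih =>
    obtain ⟨i1, i2⟩ := ih (fun q hq => hs q (List.mem_cons_of_mem _ hq))
    have h1 := hs p List.mem_cons_self
    have h2 : ‖(p.1 : ℂ) - p.2 * I‖ ≤ X / 8 := by
      have e : (p.1 : ℂ) - p.2 * I = conj ((p.1 : ℂ) + p.2 * I) := by
        simp [sub_eq_add_neg]
      rw [e, Complex.norm_conj]
      exact h1
    obtain ⟨a1, a2⟩ := jd_nrF_fac hX h1 hω hd hd0
    obtain ⟨b1, b2⟩ := jd_nrF_fac hX h2 hω hd hd0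
    have e : ∀ ω : ℂ, qp (p :: s) ω =
        ((ω - ((p.1 : ℂ) + p.2 * I)) * (ω - ((p.1 : ℂ) - p.2 * I))) * qp s ω := by
      intro ω
      unfold qp
      rw [List.map_cons, List.prod_cons]
      congr 1
      have : I ^ 2 = -1 := Complex.I_sq
      linear_combination (p.2 : ℂ) ^ 2 * this
    have n1 : ω₂ - ((p.1 : ℂ) + p.2 * I) ≠ 0 := by
      intro h
      rw [h, norm_zero] at a1
      linarith
    have n2 : ω₂ - ((p.1 : ℂ) - p.2 * I) ≠ 0 := by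
      intro h
      rw [h, norm_zero] at b1
      linarith
    refine ⟨by rw [e]; exact mul_ne_zero (mul_ne_zero n1 n2) i1, ?_⟩
    rw [e, e, norm_mul, norm_mul, norm_mul, norm_mul]
    have e2 : Real.exp (2 * d * ((p :: s).length : ℕ)) =
        Real.exp d * Real.exp d * Real.exp (2 * d * s.length) := by
      rw [← Real.exp_add, ← Real.exp_add, List.length_cons]
      congr 1
      push_cast
      ring
    rw [e2]
    calc _ ≤ (Real.exp d * ‖ω₂ - ((p.1 : ℂ) + p.2 * I)‖) *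
          (Real.exp d * ‖ω₂ - ((p.1 : ℂ) - p.2 * I)‖) *
          (Real.exp (2 * d * s.length) * ‖qp s ω₂‖) := by
          refine mul_le_mul (mul_le_mul a2 b2 (norm_nonneg _) (by positivity)) i2
            (norm_nonneg _) (by positivity)
      _ = _ := by ring

theorem jd_nrF_om (x a : ℝ) (hx : 0 < x) (ha : 0 < a) (w v : ℂ) :
    ‖om x a w - om x a v‖ = (8 * a * ‖w - v‖ / x) * (x ^ 2 / 4) := by
  have e : om x a w - om x a v = ((-2 * a * x : ℝ) : ℂ) * I * (w - v) := by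
    unfold om
    push_cast
    ring
  rw [e, norm_mul, norm_mul, Complex.norm_I, Complex.norm_real, Real.norm_eq_abs]
  have : |(-2 * a * x : ℝ)| = 2 * a * x := by
    rw [abs_of_neg (by nlinarith [mul_pos ha hx])]
    ring
  rw [this]
  field_simp
  ring

/-- sizes -/
theorem jd_nrF_size {K : ℝ} (hK : 64 ≤ K) {A Y : ℝ} (hA : 1 ≤ A) (hY : 1 ≤ Y) :
    ∃ D₀ : ℝ, 2 ≤ D₀ ∧ ∀ D x a l : ℝ, D₀ ≤ D → 0 < x → K * D / 4 ≤ x ^ 2 → x ^ 2 ≤ 4 * K * D →
      l = Real.log x → a = x ^ 2 * l / (8 * D) → A ≤ a ∧ A * a ^ 2 ≤ x ∧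
        4 * a * (Y + 24) ≤ x ∧ Real.log D / 2 ≤ l ∧ Real.sqrt K * Real.sqrt D / 2 ≤ x := by
  refine ⟨max (max (4 * K) ((4 * A * K ^ 2) ^ 4)) (max 2 (Real.exp (A + 4 * (Y + 24)))),
    le_max_of_le_right (le_max_left _ _), fun D x a l hD hx h1 h2 hl ha => ?_⟩
  have d1 : 4 * K ≤ D := ((le_max_left _ _).trans (le_max_left _ _)).trans hD
  have d2 : (4 * A * K ^ 2) ^ 4 ≤ D := ((le_max_right _ _).trans (le_max_left _ _)).trans hD
  have d3 : 2 ≤ D := ((le_max_left _ _).trans (le_max_right _ _)).trans hD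
  have d4 : Real.exp (A + 4 * (Y + 24)) ≤ D :=
    ((le_max_right _ _).trans (le_max_right _ _)).trans hD
  have hD0 : 0 < D := by linarith
  have hlogD : A + 4 * (Y + 24) ≤ Real.log D := by
    rw [Real.le_log_iff_exp_le hD0]
    exact d4
  have hlD0 : 0 < Real.log D := by linarith
  have hx2 : x ^ 2 = Real.exp (2 * l) := by
    rw [hl, two_mul, Real.exp_add, Real.exp_log hx]
    ring
  -- lower bound of l
  have l1 : Real.log D / 2 ≤ l := by
    have h3 : D ≤ Real.exp (2 * l) := by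
      rw [← hx2]
      nlinarith
    have h4 : Real.log D ≤ 2 * l := by
      rw [Real.log_le_iff_le_exp hD0]
      exact h3
    linarith
  have l2 : l ≤ Real.log D := by
    have h3 : Real.exp (2 * l) ≤ D ^ 2 := by
      rw [← hx2]
      nlinarith
    have h4 : 2 * l ≤ Real.log (D ^ 2) := by
      rw [Real.le_log_iff_exp_le (by positivity)]
      exact h3
    rw [Real.log_pow] at h4
    push_cast at h4
    linarith
  have hl0 : 0 < l := by linarith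
  have a1 : Real.log D ≤ a := by
    rw [ha, le_div_iff₀ (by positivity)]
    have h3 : 16 * D ≤ x ^ 2 := by nlinarith
    nlinarith
  have a2 : a ≤ K * Real.log D / 2 := by
    rw [ha, div_le_iff₀ (by positivity)]
    have h3 : x ^ 2 * l ≤ (4 * K * D) * Real.log D :=
      mul_le_mul h2 l2 hl0.le (by positivity)
    linarith
  have x1 : Real.sqrt K * Real.sqrt D / 2 ≤ x := by
    have h3 : (Real.sqrt K * Real.sqrt D / 2) ^ 2 ≤ x ^ 2 := by
      rw [div_pow, mul_pow, Real.sq_sqrt (by linarith), Real.sq_sqrt hD0.le]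
      linarith
    exact le_of_sq_le_sq h3 hx.le
  have x2 : A * a ^ 2 ≤ x := by
    have h3 : Real.log D ≤ 8 * D ^ (1 / 8 : ℝ) := by
      have := Real.log_le_rpow_div hD0.le (show (0 : ℝ) < 1 / 8 by norm_num)
      linarith
    have h4 : D ^ (1 / 8 : ℝ) * D ^ (1 / 8 : ℝ) = D ^ (1 / 4 : ℝ) := by
      rw [← Real.rpow_add hD0]
      norm_num
    have h5 : D ^ (1 / 4 : ℝ) * D ^ (1 / 4 : ℝ) = Real.sqrt D := by
      rw [← Real.rpow_add hD0, Real.sqrt_eq_rpow]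
      norm_num
    have h6 : 4 * A * K ^ 2 ≤ D ^ (1 / 4 : ℝ) := by
      have h7 : ((4 * A * K ^ 2) ^ 4 : ℝ) ^ (1 / 4 : ℝ) = 4 * A * K ^ 2 := by
        rw [← Real.rpow_natCast, ← Real.rpow_mul (by positivity)]
        norm_num
      rw [← h7]
      exact Real.rpow_le_rpow (by positivity) d2 (by norm_num)
    have h8 : Real.log D ^ 2 ≤ 64 * D ^ (1 / 4 : ℝ) := by
      rw [← h4]
      have := mul_le_mul h3 h3 hlD0.le (by positivity)
      nlinarith
    have h9 : (8 : ℝ) ≤ Real.sqrt K := by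
      rw [show (8 : ℝ) = Real.sqrt 64 by
        rw [show (64 : ℝ) = 8 ^ 2 by norm_num, Real.sqrt_sq (by norm_num)]]
      exact Real.sqrt_le_sqrt hK
    have h10 : 4 * Real.sqrt D ≤ x := by
      have := mul_le_mul_of_nonneg_right h9 (Real.sqrt_nonneg D)
      linarith
    have ha0 : 0 ≤ a := hlD0.le.trans a1
    have h11 : a ^ 2 ≤ K ^ 2 * Real.log D ^ 2 / 4 := by
      have := mul_le_mul a2 a2 ha0 (by positivity)
      nlinarith
    have h12 : 0 < D ^ (1 / 4 : ℝ) := Real.rpow_pos_of_pos hD0 _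
    calc A * a ^ 2 ≤ A * (K ^ 2 * Real.log D ^ 2 / 4) :=
          mul_le_mul_of_nonneg_left h11 (by linarith)
      _ ≤ A * (K ^ 2 * (64 * D ^ (1 / 4 : ℝ)) / 4) := by
          have := mul_le_mul_of_nonneg_left h8 (show 0 ≤ A * K ^ 2 by positivity)
          nlinarith
      _ = 4 * ((4 * A * K ^ 2) * D ^ (1 / 4 : ℝ)) := by ring
      _ ≤ 4 * (D ^ (1 / 4 : ℝ) * D ^ (1 / 4 : ℝ)) := by
          have := mul_le_mul_of_nonneg_right h6 h12.le
          linarith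
      _ = 4 * Real.sqrt D := by rw [h5]
      _ ≤ x := h10
  have ha0 : 0 < a := hlD0.trans_le a1
  refine ⟨by linarith, x2, ?_, l1, x1⟩
  calc 4 * a * (Y + 24) = a * (4 * (Y + 24)) := by ring
    _ ≤ a * a := mul_le_mul_of_nonneg_left (by linarith) ha0.le
    _ = 1 * a ^ 2 := by ring
    _ ≤ A * a ^ 2 := mul_le_mul_of_nonneg_right hA (sq_nonneg _)
    _ ≤ x := x2

theorem p_nrF (h1 : S_fam) (h2 : S_nrT) : S_nrF := by
  obtain ⟨C, hC, hfam⟩ := h1
  obtain ⟨C₁, hC₁, hT⟩ := h2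
  refine ⟨C₁ + 1, by linarith, fun ε Y hε hY => ?_⟩
  obtain ⟨A, hA, hnr⟩ := hT (ε / 2) Y (by linarith) hY
  obtain ⟨κ, hκ⟩ : ∃ κ : ℝ, κ = min (ε / 2) 1 := ⟨_, rfl⟩
  have hκ0 : 0 < κ := by rw [hκ]; exact lt_min (by linarith) one_pos
  have hκ1 : κ ≤ 1 := by rw [hκ]; exact min_le_right _ _
  have hκ2 : κ ≤ ε / 2 := by rw [hκ]; exact min_le_left _ _
  refine ⟨max 64 ((64 * C / κ) ^ 2), le_max_of_le_left (by norm_num), fun K hK => ?_⟩
  have hK1 : 64 ≤ K := (le_max_left _ _).trans hK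
  have hK2 : 64 * C / κ ≤ Real.sqrt K :=
    Real.le_sqrt_of_sq_le ((le_max_right _ _).trans hK)
  have hK3 : 64 * C ≤ κ * Real.sqrt K := by
    rw [div_le_iff₀ hκ0] at hK2
    linarith
  obtain ⟨D₀, hD₀, hsize⟩ := jd_nrF_size hK1 hA hY
  refine ⟨D₀, fun D s g x a l hD hF hx hx1 hx2 hl ha => ?_⟩
  obtain ⟨c1, c2, c3, c4, c5⟩ := hsize D x a l hD hx hx1 hx2 hl ha
  obtain ⟨hRE, hs, hff⟩ := hF
  have hD2 : (2 : ℝ) ≤ D := hD₀.trans hD
  have hD2' : 2 ≤ D := by exact_mod_cast hD2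
  have ha0 : 0 < a := by linarith
  have hlD0 : 0 < Real.log D := Real.log_pos (by linarith)
  have hl0 : 0 < l := by linarith
  have hN := hnr x a l c1 c2 (by rw [hl]; simp)
  have hm := (hfam D s g hD2' ⟨hRE, hs, hff⟩).1
  -- the roots are small
  have hroot : ∀ p ∈ s, ‖(p.1 : ℂ) + p.2 * I‖ ≤ x ^ 2 / 8 := by
    intro p hp
    have h3 := jd_nrF_root D p (by omega) (hs p hp)
    nlinarith
  -- comparison of the products
  have hcmp : ∀ w v : ℂ, x ^ 2 / 2 ≤ ‖om x a v‖ → qp s (om x a v) ≠ 0 ∧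
      ‖qp s (om x a w)‖ ≤ Real.exp (κ * (a * l) * ‖v - w‖) * ‖qp s (om x a v)‖ := by
    intro w v hv
    obtain ⟨q1, q2⟩ := jd_nrF_qp (ω₁ := om x a w) (ω₂ := om x a v) (X := x ^ 2)
      (d := 8 * a * ‖w - v‖ / x) (by positivity) hv (jd_nrF_om x a hx ha0 w v).le
      (by positivity) s hroot
    refine ⟨q1, q2.trans (mul_le_mul_of_nonneg_right (Real.exp_le_exp.mpr ?_) (norm_nonneg _))⟩
    rw [norm_sub_rev w v]
    have h3 : 16 * (s.length : ℝ) ≤ κ * l * x := by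
      calc 16 * (s.length : ℝ) ≤ 16 * (C * Real.sqrt D * Real.log D) := by linarith
        _ = (64 * C) * (Real.sqrt D * Real.log D / 4) := by ring
        _ ≤ (κ * Real.sqrt K) * (Real.sqrt D * Real.log D / 4) :=
            mul_le_mul_of_nonneg_right hK3 (by positivity)
        _ = κ * ((Real.log D / 2) * (Real.sqrt K * Real.sqrt D / 2)) := by ring
        _ ≤ κ * (l * x) :=
            mul_le_mul_of_nonneg_left (mul_le_mul c4 c5 (by positivity) hl0.le) hκ0.le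
        _ = κ * l * x := by ring
    calc 2 * (8 * a * ‖v - w‖ / x) * (s.length : ℝ) =
          (16 * (s.length : ℝ)) * (a * ‖v - w‖ / x) := by ring
      _ ≤ (κ * l * x) * (a * ‖v - w‖ / x) := mul_le_mul_of_nonneg_right h3 (by positivity)
      _ = κ * (a * l) * ‖v - w‖ := by field_simp
  -- transfer
  have htr : ∀ w v : ℂ, x ^ 2 / 2 ≤ ‖om x a v‖ → ∀ E : ℝ,
      ‖ff (om x a v)‖ ≤ Real.exp E * ‖ff (om x a w)‖ →
      ‖g (om x a v)‖ ≤ Real.exp (E + κ * (a * l) * ‖v - w‖) * ‖g (om x a w)‖ := by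
    intro w v hv E hE
    obtain ⟨q1, q2⟩ := hcmp w v hv
    rw [hff, hff, norm_mul, norm_mul] at hE
    have q3 : 0 < ‖qp s (om x a v)‖ := norm_pos_iff.mpr q1
    refine le_of_mul_le_mul_left ?_ q3
    calc ‖qp s (om x a v)‖ * ‖g (om x a v)‖
        ≤ Real.exp E * (‖qp s (om x a w)‖ * ‖g (om x a w)‖) := hE
      _ ≤ Real.exp E * ((Real.exp (κ * (a * l) * ‖v - w‖) * ‖qp s (om x a v)‖) *
          ‖g (om x a w)‖) := by
          refine mul_le_mul_of_nonneg_left ?_ (Real.exp_pos _).le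
          exact mul_le_mul_of_nonneg_right q2 (norm_nonneg _)
      _ = _ := by
          rw [Real.exp_add]
          ring
  refine ⟨hRE.diff, hRE.real, fun w w1 w2 w3 => ?_, fun w v w1 w2 w3 v1 v2 v3 => ?_,
    fun w v w1 w2 w3 v1 v2 => ?_⟩
  · intro h
    have h3 := hN.ne w w1 w2 w3
    rw [hff, h, mul_zero] at h3
    exact h3 rfl
  · have hv : x ^ 2 / 2 ≤ ‖om x a v‖ := by
      have h3 : ‖v‖ ≤ Y + 24 := by
        have h4 := Complex.norm_le_abs_re_add_abs_im v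
        rw [abs_of_nonneg v1] at h4
        linarith
      have h5 : ‖om x a v‖ ≥ x ^ 2 - 2 * a * x * ‖v‖ := by
        have h6 : om x a v = ((x ^ 2 : ℝ) : ℂ) - ((2 * a * x : ℝ) : ℂ) * I * v := by
          unfold om
          push_cast
          ring
        have h7 := norm_sub_norm_le (((x ^ 2 : ℝ) : ℂ)) (((2 * a * x : ℝ) : ℂ) * I * v)
        rw [← h6, norm_mul, norm_mul, Complex.norm_I, Complex.norm_real, Complex.norm_real,
          Real.norm_of_nonneg (by positivity), Real.norm_of_nonneg (by positivity)] at h7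
        linarith
      have h8 : 2 * a * x * ‖v‖ ≤ x ^ 2 / 2 := by
        calc 2 * a * x * ‖v‖ ≤ 2 * a * x * (Y + 24) :=
              mul_le_mul_of_nonneg_left h3 (by positivity)
          _ = (4 * a * (Y + 24)) * x / 2 := by ring
          _ ≤ x * x / 2 := by
              have := mul_le_mul_of_nonneg_right c3 hx.le
              linarith
          _ = x ^ 2 / 2 := by ring
      linarith
    refine (htr w v hv _ (hN.lin w v w1 w2 w3 v1 v2 v3)).trans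
      (mul_le_mul_of_nonneg_right (Real.exp_le_exp.mpr ?_) (norm_nonneg _))
    have h3 : κ * (a * l) * ‖v - w‖ ≤ ε / 2 * (a * l) * ‖v - w‖ :=
      mul_le_mul_of_nonneg_right (mul_le_mul_of_nonneg_right hκ2 (by positivity)) (norm_nonneg _)
    linarith
  · refine (htr w v v2 _ (hN.glob w v w1 w2 w3 v1 v2)).trans
      (mul_le_mul_of_nonneg_right (Real.exp_le_exp.mpr ?_) (norm_nonneg _))
    have h3 : κ * (a * l) * ‖v - w‖ ≤ 1 * (a * l) * (‖v - w‖ + Y) :=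
      mul_le_mul (mul_le_mul_of_nonneg_right hκ1 (by positivity)) (by linarith)
        (norm_nonneg _) (by positivity)
    have h4 : (C₁ + 1) * (a * l) * (‖v - w‖ + Y) =
        C₁ * (a * l) * (‖v - w‖ + Y) + 1 * (a * l) * (‖v - w‖ + Y) := by ring
    linarith

end Pool.Agent.Lib.MP_cd509c_nt.JD
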