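import Pool.Agent.Lib.MP_cd509c_nt.JD.StmK

/-!
Piece nrG: regularity of `ff` near the axis at good points, assembly.
-/

set_option autoImplicit false

namespace Pool.Agent.Lib.MP_cd509c_nt.JD

open Complex ComplexConjugate
open Pool.Agent.Lib.MP_cd509c_nt.DN

theorem jd_nrG_x {L M l x : ℝ} (hL : 1 ≤ L) (hM : 1 ≤ M) (hl : 8 * L * M + 2 ≤ l) (hx : 0 < x)
    (hlog : |Real.log x - l| ≤ 1) : L * M * l ≤ x := by
  have h1 : l - 1 ≤ Real.log x := by linarith [(abs_le.1 hlog).1]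
  have h2 : Real.exp (l - 1) ≤ x := by
    have := Real.exp_le_exp.2 h1
    rwa [Real.exp_log hx] at this
  have hLM : 1 ≤ L * M := by nlinarith
  have hl10 : 10 ≤ l := by nlinarith
  have h3 := Real.quadratic_le_exp_of_nonneg (by linarith : 0 ≤ l - 1)
  have h4 : L * M * l ≤ l ^ 2 / 8 := by nlinarith
  nlinarith

theorem p_nrG (h1 : S_nrl) (h2 : S_nrg) (h3 : S_LLw) : S_nrG := by
  obtain ⟨C₁, H₀, l₁, hC₁, hH₀, hl₁, hg⟩ := h2
  obtain ⟨V₁, hV₁, hw⟩ := h3
  refine ⟨C₁, max V₁ H₀, hC₁, hV₁.trans (le_max_left _ _), ?_⟩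
  intro ε A V hε hε1 hA hV
  obtain ⟨l₂, hl₂, hn⟩ := h1 ε hε
  have hVV : V₁ ≤ V := (le_max_left _ _).trans hV
  have hHV : H₀ ≤ V := (le_max_right _ _).trans hV
  have hV1 : 1 ≤ V := hV₁.trans hVV
  obtain ⟨l₃, hl₃, hLL⟩ := hw (ε / 800) V (by positivity) hVV
  set L : ℝ := max l₁ l₂ with hLd
  set M : ℝ := (1 + 2000 * V) ^ 2 with hMd
  have hLl₁ : l₁ ≤ L := le_max_left _ _
  have hLl₂ : l₂ ≤ L := le_max_right _ _
  have hL1 : 1 ≤ L := by linarith
  have hM1 : 1 ≤ M := by rw [hMd]; nlinarith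
  have hLM : L ≤ L * M := by nlinarith
  refine ⟨8 * L * M + 2 + l₃, by nlinarith, ?_⟩
  intro l hl x hx hlog a ha haA hal i J hiJ hVJ hJV hgood
  have hLM8 : 8 * L * M + 2 ≤ l := by linarith
  have hxx := jd_nrG_x hL1 hM1 hLM8 hx hlog
  have hlL : L ≤ l := by nlinarith
  have hl1 : 1 ≤ l := by linarith
  have hYa : a * (2000 * V / a) = 2000 * V := by field_simp
  have hY0 : 0 < 2000 * V / a := by positivity
  have hb1 : (1 : ℝ) ≤ 2 ^ i := one_le_pow₀ (by norm_num)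
  have hbJ : (2 : ℝ) ^ i ≤ 2 ^ J := pow_le_pow_right₀ (by norm_num) hiJ
  have hbY : (2 : ℝ) ^ i ≤ 2000 * V / a := by
    rw [le_div_iff₀ ha]
    nlinarith
  have hlr : LReg (ε / 4) l (a * 2 ^ i / 20) (97 / 4 * (a * 2 ^ i))
      (21 / 20 * (a * (2000 * V / a))) x := by
    intro w v w1 w2 w3 v1 v2 v3
    rw [hYa] at w2 v2
    have h := hLL l (a / 4) x i J (by nlinarith) (by positivity) hiJ hVJ hJV hgood w v
      (by
        refine le_trans ?_ w1
        have : 0 < a * 2 ^ i := by positivity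
        linarith)
      (by linarith) (by linarith) v1 (by linarith) (by linarith)
    refine ⟨h.1, ?_⟩
    have e : 200 * (ε / 800) * l * ‖v - w‖ = ε / 4 * l * ‖v - w‖ := by ring
    rw [e] at h
    exact h.2
  have hctx : ∀ l₀ : ℝ, 0 ≤ l₀ → l₀ ≤ L → CtxL ε l₀ l x a (2 ^ i) (2000 * V / a) := by
    intro l₀ hl₀ h
    refine ⟨hε, h.trans hlL, hl1, hx, hlog, ha, hb1, hbY, hal, ?_, ?_, hlr⟩
    · rw [hYa, ← hMd]
      have h5 : l₀ * M ≤ L * M := mul_le_mul_of_nonneg_right h (by linarith)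
      have h6 : L * M ≤ L * M * l := le_mul_of_one_le_right (by positivity) hl1
      linarith
    · have e : l₀ * a * (2000 * V / a) ^ 2 = l₀ * ((2000 * V) ^ 2 * (1 / a)) := by
        field_simp
      have h5 : 1 / a ≤ l := by
        rw [div_le_iff₀ ha]; linarith
      have h6 : (2000 * V) ^ 2 ≤ M := by rw [hMd]; nlinarith
      have h7 : (2000 * V) ^ 2 * (1 / a) ≤ M * l := by
        apply mul_le_mul h6 h5 (by positivity) (by linarith)
      rw [e]
      calc l₀ * ((2000 * V) ^ 2 * (1 / a)) ≤ L * (M * l) :=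
            mul_le_mul h h7 (by positivity) (by linarith)
        _ = L * M * l := by ring
        _ ≤ x := hxx
        _ ≤ x * 2 ^ i := le_mul_of_one_le_right hx.le hb1
  have c1 := hn l x a (2 ^ i) (2000 * V / a) (hctx l₂ (by linarith) hLl₂)
  have c2 := hg ε l x a (2 ^ i) (2000 * V / a) hε1 (by rw [hYa]; linarith)
    (hctx l₁ (by linarith) hLl₁)
  exact ⟨ff_differentiable, ff_conj, c1.1, c1.2, c2⟩

end Pool.Agent.Lib.MP_cd509c_nt.JD
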