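import Pool.Agent.Lib.MP_cd509c_nt.JD.StmK

/-!
# JD, piece nrT: regularity of `ff` near the axis at large scales
-/

set_option autoImplicit false

namespace Pool.Agent.Lib.MP_cd509c_nt.JD

open Complex ComplexConjugate MeasureTheory
open Pool.Agent.Lib.MP_cd509c_nt.DN

theorem p_nrT (h1 : S_nrl) (h2 : S_nrg) (h3 : S_LLT) : S_nrT := by
  obtain ⟨C₁, H₀, l₂, hC₁, hH₀, hl₂, hg⟩ := h2
  refine ⟨C₁, hC₁, fun ε Y hε hY => ?_⟩
  obtain ⟨ε', hε'⟩ : ∃ ε' : ℝ, ε' = min ε 1 := ⟨_, rfl⟩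
  have he0 : 0 < ε' := by rw [hε']; exact lt_min hε one_pos
  have he1 : ε' ≤ ε := by rw [hε']; exact min_le_left _ _
  have he2 : ε' ≤ 1 := by rw [hε']; exact min_le_right _ _
  obtain ⟨l₁, hl₁, hn⟩ := h1 ε' he0
  obtain ⟨A₃, hA₃, hL⟩ := h3 (ε' / 4) (by positivity)
  obtain ⟨L, hLdef⟩ : ∃ L : ℝ, L = max l₁ l₂ := ⟨_, rfl⟩
  have hL1 : l₁ ≤ L := by rw [hLdef]; exact le_max_left _ _
  have hL2 : l₂ ≤ L := by rw [hLdef]; exact le_max_right _ _
  have hl1' : (0 : ℝ) ≤ l₁ := le_trans (by positivity) hl₁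
  have hl2' : (0 : ℝ) ≤ l₂ := le_trans (by positivity) hl₂
  have hL0 : (1 : ℝ) ≤ L := le_trans (by norm_num) (hl₁.trans hL1)
  obtain ⟨A, hA⟩ : ∃ A : ℝ, A = A₃ + H₀ + 49 + L * (1 + Y) ^ 2 + Real.exp (L + 1) := ⟨_, rfl⟩
  have hp1 : 0 ≤ L * (1 + Y) ^ 2 := by positivity
  have hp2 := Real.exp_pos (L + 1)
  refine ⟨A, by linarith, fun x a l ha hx hl => ?_⟩
  have ha1 : 1 ≤ a := by linarith
  have ha0 : 0 < a := by linarith
  have hA1 : 1 ≤ A := by linarith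
  have hxa : A * a ≤ x := by
    have : a ≤ a ^ 2 := by nlinarith
    nlinarith
  have hxA : A ≤ x := by nlinarith
  have hx0 : 0 < x := by linarith
  obtain ⟨hl1, hl2⟩ := abs_le.1 hl
  have hlog : L + 1 ≤ Real.log x := by
    rw [Real.le_log_iff_exp_le hx0]
    linarith
  have hlL : L ≤ l := by linarith
  have hl0 : 1 ≤ l := hL0.trans hlL
  have key : ∀ L' : ℝ, 0 ≤ L' → L' ≤ L → CtxL ε' L' l x a 1 Y := by
    intro L' h0 hle
    have e1 : L' * (a ^ 2 * (1 + Y) ^ 2) ≤ x := by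
      have e2 : L' * (1 + Y) ^ 2 ≤ A :=
        (mul_le_mul_of_nonneg_right hle (by positivity)).trans (by linarith)
      have e3 : L' * (1 + Y) ^ 2 * a ^ 2 ≤ A * a ^ 2 :=
        mul_le_mul_of_nonneg_right e2 (by positivity)
      calc L' * (a ^ 2 * (1 + Y) ^ 2) = L' * (1 + Y) ^ 2 * a ^ 2 := by ring
        _ ≤ x := e3.trans hx
    refine ⟨he0, hle.trans hlL, hl0, hx0, hl, ha0, le_refl 1, hY, by nlinarith, ?_, ?_, ?_⟩
    · refine le_trans (mul_le_mul_of_nonneg_left ?_ h0) e1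
      rw [← mul_pow]
      refine pow_le_pow_left₀ (by positivity) ?_ 2
      nlinarith
    · rw [mul_one, mul_assoc]
      refine le_trans (mul_le_mul_of_nonneg_left ?_ h0) e1
      refine mul_le_mul ?_ ?_ (by positivity) (by positivity)
      · nlinarith
      · exact pow_le_pow_left₀ (by linarith) (by linarith) 2
    · intro w v hw1 _ hw2 hv1 _ hv2
      have e4 : 97 / 4 * (a * 1) ≤ x / 2 := by nlinarith
      rw [mul_one] at hw1
      exact hL a x l (by linarith) (le_trans (mul_le_mul_of_nonneg_right (by linarith)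
        (by positivity)) hx) hl w v hw1 (hw2.trans e4) hv1 (hv2.trans e4)
  obtain ⟨k1, k2⟩ := hn l x a 1 Y (key l₁ hl1' hL1)
  have k3 := hg ε' l x a 1 Y he2 (by nlinarith) (key l₂ hl2' hL2)
  refine ⟨ff_differentiable, ff_conj, k1, fun w v hw1 hw2 hw3 hv1 hv2 hv3 => ?_, k3⟩
  refine (k2 w v hw1 hw2 hw3 hv1 hv2 hv3).trans ?_
  refine mul_le_mul_of_nonneg_right (Real.exp_le_exp.2 ?_) (norm_nonneg _)
  have e5 : ε' * (a * l) * ‖v - w‖ ≤ ε * (a * l) * ‖v - w‖ := by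
    refine mul_le_mul_of_nonneg_right ?_ (norm_nonneg _)
    exact mul_le_mul_of_nonneg_right he1 (by positivity)
  linarith

end Pool.Agent.Lib.MP_cd509c_nt.JD
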