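import Pool.Agent.Lib.MP_cd509c_nt.JD.StmK
import Pool.Agent.Lib.MP_cd509c_nt.DN.P.reg

/-!
Piece nrg: global bound of `ff` near the axis.
-/

set_option autoImplicit false

namespace Pool.Agent.Lib.MP_cd509c_nt.JD

open Complex ComplexConjugate MeasureTheory
open Pool.Agent.Lib.MP_cd509c_nt.DN

theorem nrg_om_im (x a : ℝ) (w : ℂ) : (om x a w).im = -(2 * a * x * w.re) := by
  unfold om
  simp [pow_two]

theorem nrg_six {s : ℂ} (hs : 0 ≤ s.re) : ‖s‖ ≤ ‖6 + s‖ := by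
  rw [Complex.norm_def, Complex.norm_def]
  apply Real.sqrt_le_sqrt
  rw [Complex.normSq_apply, Complex.normSq_apply]
  simp only [Complex.add_re, Complex.add_im]
  norm_num
  nlinarith

/-- the bound of `LL` by a power -/
theorem nrg_pow {x l p : ℝ} (hx : 9 ≤ x) (hl : Real.log x - l ≤ 1) (hp : 0 ≤ p) :
    (9 + (2 * x + 3 * p)) ^ 4 ≤ 81 * Real.exp (4 * l + 4 + 4 * p) := by
  have hx0 : 0 < x := by linarith
  have h1 : 9 + (2 * x + 3 * p) ≤ 3 * (x * (1 + p)) := by nlinarith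
  have h2 : x ≤ Real.exp (l + 1) := by
    rw [← Real.log_le_iff_le_exp hx0]
    linarith
  have h3 : 1 + p ≤ Real.exp p := by
    have := Real.add_one_le_exp p
    linarith
  calc (9 + (2 * x + 3 * p)) ^ 4 ≤ (3 * (x * (1 + p))) ^ 4 :=
        pow_le_pow_left₀ (by positivity) h1 4
    _ = 81 * (x ^ 4 * (1 + p) ^ 4) := by ring
    _ ≤ 81 * (Real.exp (l + 1) ^ 4 * Real.exp p ^ 4) := by gcongr
    _ = 81 * Real.exp (4 * l + 4 + 4 * p) := by
      rw [← Real.exp_nat_mul, ← Real.exp_nat_mul, ← Real.exp_add]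
      congr 2
      push_cast
      ring

/-- the final comparison -/
theorem nrg_final {K m D Y : ℝ} {A E Lv Ls Rv Rw : ℝ} (hK : 0 ≤ K)
    (hA : 0 ≤ A) (hLs : 0 ≤ Ls) (hE0 : 0 ≤ E)
    (hm : 0 ≤ m) (hD : 0 ≤ D) (hY : 1 ≤ m * Y)
    (hRv : Rv = A * (E * Lv)) (hRw : Rw = A * Ls)
    (hE : E ≤ Real.exp (10027 * m * D)) (hLv : Lv ≤ Real.exp (K + 4 * (m * Y) + 4 * (m * D)))
    (h1 : 1 ≤ Real.exp (2 * (m * Y)) * Ls) :
    Rv ≤ Real.exp ((10040 + K) * m * (D + Y)) * Rw := by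
  rw [hRv, hRw]
  have hmD : 0 ≤ m * D := mul_nonneg hm hD
  have e1 : E * Lv ≤ Real.exp ((10040 + K) * m * (D + Y)) * Ls := by
    calc E * Lv ≤ Real.exp (10027 * m * D) * Real.exp (K + 4 * (m * Y) + 4 * (m * D)) := by
          exact (mul_le_mul_of_nonneg_left hLv hE0).trans
            (mul_le_mul_of_nonneg_right hE (Real.exp_pos _).le)
      _ ≤ Real.exp (10027 * m * D) * Real.exp (K + 4 * (m * Y) + 4 * (m * D)) *
          (Real.exp (2 * (m * Y)) * Ls) :=
          le_mul_of_one_le_right (by positivity) h1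
      _ = Real.exp (10027 * m * D + (K + 4 * (m * Y) + 4 * (m * D)) + 2 * (m * Y)) * Ls := by
          rw [← Real.exp_add, ← mul_assoc, ← Real.exp_add]
      _ ≤ Real.exp ((10040 + K) * m * (D + Y)) * Ls := by
          apply mul_le_mul_of_nonneg_right _ hLs
          apply Real.exp_le_exp.2
          have k1 : K ≤ K * (m * Y) := le_mul_of_one_le_right hK hY
          have k2 : 0 ≤ K * (m * D) := mul_nonneg hK hmD
          nlinarith
  calc A * (E * Lv) ≤ A * (Real.exp ((10040 + K) * m * (D + Y)) * Ls) :=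
        mul_le_mul_of_nonneg_left e1 hA
    _ = _ := by ring

theorem p_nrg (h1 : S_sg) (h2 : S_sgn) (h3 : S_LLf) : S_nrg := by
  obtain ⟨sg, hsq, hff, hquad, -⟩ := h1
  obtain ⟨V₀, hV1, hV⟩ := h3 1 one_pos
  obtain ⟨CB, hCB, hLB⟩ := Lf_bound
  obtain ⟨K, hK0, hK⟩ : ∃ K : ℝ, 0 ≤ K ∧ CB * (81 * Real.exp 4) ≤ Real.exp K := by
    refine ⟨|Real.log (CB * (81 * Real.exp 4))|, abs_nonneg _, ?_⟩
    rw [← Real.log_le_iff_le_exp (by positivity)]
    exact le_abs_self _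
  refine ⟨10040 + K, max 1 V₀, 10 ^ 9, by linarith, le_max_left _ _, le_rfl, ?_⟩
  intro ε l x a b Y hε hH hc w v hw1 hw2 hw3 hv1 hv2
  obtain ⟨s1, s2, -, s4⟩ := h2 sg hsq hquad ε l x a b Y hc
  have hx0 := hc.x0
  have ha0 := hc.a0
  have hb1 := hc.b1
  have hl1 := hc.l1
  have hY1 : 1 ≤ a * Y := (le_max_left _ _).trans hH
  have hYV : V₀ ≤ a * Y := (le_max_right _ _).trans hH
  have hx9 : 10 ^ 9 * (1 + a * Y) ^ 2 ≤ x := hc.h1
  have hab : a * b ≤ a * Y := mul_le_mul_of_nonneg_left hc.bY ha0.le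
  have hab0 : 0 < a * b := mul_pos ha0 (by linarith)
  have hxb : 10 ^ 9 * (a * Y) ≤ x := by nlinarith
  have hwre : 0 ≤ w.re := le_trans (by linarith) hw1
  have q1 := s1 w hw1 hw2 hw3
  obtain ⟨q2, q3, q4, q5⟩ := s2 w hwre hw2 hw3
  obtain ⟨q6, q7⟩ := s4 w v hwre hw2 hw3 hv1
  have hvq := hquad (om x a v) (by
    rw [nrg_om_im]
    have : 0 ≤ 2 * a * x * v.re := by positivity
    linarith)
  set s := sg (om x a w) with hs
  set r := sg (om x a v) with hr
  set t := r - s with ht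
  set D := ‖v - w‖ with hD
  have hD0 : 0 ≤ D := norm_nonneg _
  have hst : s + t = r := by rw [ht]; ring
  have hst6 : (6 + s) + t = 6 + r := by rw [ht]; ring
  have hsre : 0 ≤ s.re := le_trans (by positivity) q1
  have hrn : x ^ 2 / 2 ≤ ‖r‖ ^ 2 := by
    rw [← norm_pow, hr, hsq, norm_neg]
    exact hv2
  have n1 : ‖s‖ ≤ ‖6 + s‖ := nrg_six hsre
  have n2 : ‖r‖ ≤ ‖6 + r‖ := nrg_six hvq.1
  have n3 : ‖6 + s‖ ≤ 6 + 2 * x := by
    calc ‖6 + s‖ ≤ ‖(6 : ℂ)‖ + ‖s‖ := norm_add_le _ _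
      _ ≤ 6 + 2 * x := by
        have : ‖(6 : ℂ)‖ = 6 := by norm_num
        rw [this]
        linarith
  have n4 : 6 + 2 * x ≤ 4 * ‖r‖ := by
    apply le_of_sq_le_sq _ (by positivity)
    nlinarith
  obtain ⟨g, hg, hq⟩ := Lam_quot (s := 6 + s) (v := t) (by simp; linarith)
    (by rw [hst6]; simp; linarith [hvq.1]) (by rw [hst6]; linarith)
  have hrc : ‖rc (6 + s) - l‖ ≤ 8 := by
    refine dn_reg_rc (x := x) (V := a * Y) hx0 hY1 (by linarith) hc.lx ?_ ?_
    · have k1 : (6 + s).im ≤ ‖6 + s‖ := Complex.im_le_norm _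
      have k2 : (6 + s).im = s.im := by simp
      have k3 := (abs_le.1 q3).1
      rw [k2] at k1
      linarith
    · have k1 := Complex.norm_le_abs_re_add_abs_im (6 + s)
      have k2 : (6 + s).im = s.im := by simp
      have k4 : (6 + s).re = 6 + s.re := by simp
      have k3 := abs_le.1 q3
      rw [k2, k4, abs_of_nonneg (by linarith), abs_of_nonneg (by linarith [k3.1])] at k1
      linarith [k3.2]
  have hrc2 : ‖rc (6 + s)‖ ≤ 9 * l := by
    have k1 : ‖rc (6 + s)‖ ≤ ‖rc (6 + s) - l‖ + ‖(l : ℂ)‖ := by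
      have := norm_add_le (rc (6 + s) - l) (l : ℂ)
      rwa [sub_add_cancel] at this
    have k2 : ‖(l : ℂ)‖ = l := by
      rw [Complex.norm_real, Real.norm_eq_abs, abs_of_nonneg (by linarith)]
    rw [k2] at k1
    linarith
  have hDl : a * D ≤ a * l * D := by
    have : a * D * 1 ≤ a * D * l := mul_le_mul_of_nonneg_left hl1 (by positivity)
    nlinarith
  have hg2 : ‖g‖ ≤ 10000 * (a * l) * D := by
    have k1 : x / 2 ≤ ‖6 + s‖ := q4.trans n1
    have k2 : 4 * (‖t‖ + 30 * ‖t‖ ^ 2) / ‖6 + s‖ ≤ 4 * (‖t‖ + 30 * ‖t‖ ^ 2) / (x / 2) :=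
      div_le_div_of_nonneg_left (by positivity) (by positivity) k1
    have k3 : 4 * (‖t‖ + 30 * ‖t‖ ^ 2) / (x / 2) ≤ 24 * (a * D) + 9600 * (a * D) := by
      rw [div_le_iff₀ (by positivity)]
      have k4 : ‖t‖ ≤ 3 * a * D := q6
      have k5 : ‖t‖ ^ 2 ≤ 40 * (x * a * D) := q7
      have k6 : 0 ≤ a * D := by positivity
      have k7 : 1 ≤ x := by linarith
      nlinarith [mul_le_mul_of_nonneg_left k7 k6]
    have k8 : 0 ≤ a * l * D := by positivity
    linarith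
  have hE : ‖cexp (rc (6 + s) * t + g)‖ ≤ Real.exp (10027 * (a * l) * D) := by
    rw [Complex.norm_exp]
    apply Real.exp_le_exp.2
    calc (rc (6 + s) * t + g).re ≤ ‖rc (6 + s) * t + g‖ := Complex.re_le_norm _
      _ ≤ ‖rc (6 + s) * t‖ + ‖g‖ := norm_add_le _ _
      _ ≤ 9 * l * (3 * a * D) + 10000 * (a * l) * D := by
        rw [norm_mul]
        exact add_le_add (mul_le_mul hrc2 q6 (norm_nonneg _) (by positivity)) hg2
      _ = 10027 * (a * l) * D := by ring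
  have hLv : ‖LL r‖ ≤ Real.exp (K + 4 * ((a * l) * Y) + 4 * ((a * l) * D)) := by
    have k1 := hLB (6 + r) (by simp; linarith [hvq.1])
    have k2 : (6 + r).im = r.im := by simp
    have k3 : |r.im| ≤ 2 * x + 3 * (a * D) := by
      calc |r.im| ≤ ‖r‖ := Complex.abs_im_le_norm _
        _ = ‖s + t‖ := by rw [hst]
        _ ≤ ‖s‖ + ‖t‖ := norm_add_le _ _
        _ ≤ 2 * x + 3 * (a * D) := by
          have : 3 * a * D = 3 * (a * D) := by ring
          linarith
    have k4 : (9 + |r.im|) ^ 4 ≤ 81 * Real.exp (4 * l + 4 + 4 * (a * D)) :=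
      (pow_le_pow_left₀ (by positivity) (by linarith) 4).trans
        (nrg_pow (by linarith) (abs_le.1 hc.lx).2 (by positivity))
    rw [k2] at k1
    calc ‖LL r‖ ≤ CB * (9 + |r.im|) ^ 4 := k1
      _ ≤ CB * (81 * Real.exp (4 * l + 4 + 4 * (a * D))) := mul_le_mul_of_nonneg_left k4 hCB.le
      _ = CB * (81 * Real.exp 4) * Real.exp (4 * l + 4 * (a * D)) := by
        rw [show 4 * l + 4 + 4 * (a * D) = 4 + (4 * l + 4 * (a * D)) by ring, Real.exp_add]
        ring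
      _ ≤ Real.exp K * Real.exp (4 * l + 4 * (a * D)) :=
        mul_le_mul_of_nonneg_right hK (Real.exp_pos _).le
      _ = Real.exp (K + (4 * l + 4 * (a * D))) := by rw [← Real.exp_add]
      _ ≤ _ := by
        apply Real.exp_le_exp.2
        have k5 : l ≤ a * l * Y := by
          have : l * 1 ≤ l * (a * Y) := mul_le_mul_of_nonneg_left hY1 (by linarith)
          nlinarith
        linarith
  have hLs : 1 ≤ Real.exp (2 * ((a * l) * Y)) * ‖LL s‖ := by
    set z : ℂ := ⟨a * Y, s.im⟩ with hz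
    have k1 := (hc.lr s z q1 q2 q3 (by rw [hz]; show 0 ≤ a * Y; linarith)
      (by rw [hz]; show a * Y ≤ _; linarith) (by rw [hz]; exact q3)).2
    have k2 := (hV z z (by rw [hz]; exact hYV) (by rw [hz]; exact hYV)).1
    have k3 : ‖z - s‖ ≤ 21 / 20 * (a * Y) := by
      have e1 : z - s = ((a * Y - s.re : ℝ) : ℂ) := by
        apply Complex.ext
        · simp [hz]
        · simp [hz]
      rw [e1, Complex.norm_real, Real.norm_eq_abs, abs_le]
      constructor <;> linarith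
    have k4 : Real.exp (ε / 4 * l * ‖z - s‖) ≤ Real.exp (a * l * Y) := by
      apply Real.exp_le_exp.2
      have k5 : ε / 4 * l * ‖z - s‖ ≤ 1 / 4 * l * (21 / 20 * (a * Y)) := by
        have := hc.e0
        gcongr
      have k6 : 0 ≤ l * (a * Y) := mul_nonneg (by linarith) (by linarith)
      nlinarith
    have k5 : 1 / 2 ≤ Real.exp (a * l * Y) * ‖LL s‖ :=
      k2.trans (k1.trans (mul_le_mul_of_nonneg_right k4 (norm_nonneg _)))
    have k6 : 1 ≤ a * l * Y := by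
      have : 1 * 1 ≤ l * (a * Y) := mul_le_mul hl1 hY1 zero_le_one (by linarith)
      nlinarith
    have k7 : 2 ≤ Real.exp (a * l * Y) := by
      have := Real.add_one_le_exp (a * l * Y)
      linarith
    have k8 : Real.exp (2 * (a * l * Y)) = Real.exp (a * l * Y) * Real.exp (a * l * Y) := by
      rw [← Real.exp_add]
      congr 1
      ring
    rw [k8, mul_assoc]
    nlinarith
  have eV : ‖ff (om x a v)‖ = ‖G0 (6 + s)‖ * (‖cexp (rc (6 + s) * t + g)‖ * ‖LL r‖) := by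
    rw [hff, ← hr, ← hst6, hq, norm_mul, norm_mul, mul_assoc, LL, hst6]
  have eW : ‖ff (om x a w)‖ = ‖G0 (6 + s)‖ * ‖LL s‖ := by
    rw [hff, ← hs, Lam_eq_Lf (by simp; linarith : 0 < (6 + s).re), ← norm_mul, G0, LL]
  refine nrg_final (K := K) (m := a * l) (D := D) (Y := Y) hK0 (norm_nonneg _)
    (norm_nonneg _) (norm_nonneg _) (by positivity) hD0 ?_ eV eW hE hLv hLs
  have : 1 * 1 ≤ l * (a * Y) := mul_le_mul hl1 hY1 zero_le_one (by linarith)
  nlinarith

end Pool.Agent.Lib.MP_cd509c_nt.JD
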