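import Pool.Agent.Lib.MP_cd509c_nt.JD.StmK
import Pool.Agent.Lib.MP_cd509c_nt.DN.P.reg

/-!
Piece nrl: nonvanishing and Lipschitz bound of `ff` near the axis.
-/

set_option autoImplicit false

namespace Pool.Agent.Lib.MP_cd509c_nt.JD

open Complex ComplexConjugate MeasureTheory
open Pool.Agent.Lib.MP_cd509c_nt.DN
open Pool.Agent.Lib.MP_cd509c_nt

/-- comparison of two values, abstract form -/
theorem nrl_key {s t : ℂ} {l K : ℝ} (hs : 0 ≤ s.re) (hst : 0 ≤ (s + t).re)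
    (h4 : ‖6 + s‖ ≤ 4 * ‖6 + (s + t)‖) (hrc : ‖rc (6 + s) - l‖ ≤ 8)
    (hL : ‖LL (s + t)‖ ≤ K * ‖LL s‖) :
    ‖Lam (6 + (s + t))‖ ≤ Real.exp (l * t.re + 8 * ‖t‖ +
      4 * (‖t‖ + 30 * ‖t‖ ^ 2) / ‖6 + s‖) * K * ‖Lam (6 + s)‖ := by
  have e6 : (6 + s).re = 6 + s.re := by simp
  have e6' : (6 + s + t).re = 6 + (s + t).re := by
    rw [add_assoc]
    simp
  obtain ⟨g, hg, hq⟩ := Lam_quot (s := 6 + s) (v := t) (by rw [e6]; linarith)
    (by rw [e6']; linarith) (by rw [add_assoc]; exact h4)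
  rw [add_assoc] at hq
  have e2 : Lam (6 + s) = G0 (6 + s) * Lf (6 + s) := by
    rw [Lam_eq_Lf (by rw [e6]; linarith), G0]
  rw [LL, LL] at hL
  rw [hq, e2, norm_mul, norm_mul, norm_mul]
  have h3 : ‖cexp (rc (6 + s) * t + g)‖ ≤ Real.exp (l * t.re + 8 * ‖t‖ +
      4 * (‖t‖ + 30 * ‖t‖ ^ 2) / ‖6 + s‖) := by
    rw [Complex.norm_exp]
    apply Real.exp_le_exp.2
    have e3 : (rc (6 + s) * t + g).re = l * t.re + ((rc (6 + s) - l) * t).re + g.re := by
      simp only [Complex.add_re, Complex.mul_re, Complex.sub_re, Complex.sub_im,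
        Complex.ofReal_re, Complex.ofReal_im]
      ring
    rw [e3]
    have h5 : ((rc (6 + s) - l) * t).re ≤ 8 * ‖t‖ := by
      refine (Complex.re_le_norm _).trans ?_
      rw [norm_mul]
      exact mul_le_mul_of_nonneg_right hrc (norm_nonneg _)
    have h6 : g.re ≤ 4 * (‖t‖ + 30 * ‖t‖ ^ 2) / ‖6 + s‖ := (Complex.re_le_norm _).trans hg
    linarith
  calc ‖G0 (6 + s)‖ * ‖cexp (rc (6 + s) * t + g)‖ * ‖Lf (6 + (s + t))‖
      ≤ ‖G0 (6 + s)‖ * Real.exp (l * t.re + 8 * ‖t‖ +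
          4 * (‖t‖ + 30 * ‖t‖ ^ 2) / ‖6 + s‖) * (K * ‖Lf (6 + s)‖) :=
        mul_le_mul (mul_le_mul_of_nonneg_left h3 (norm_nonneg _)) hL (norm_nonneg _)
          (mul_nonneg (norm_nonneg _) (Real.exp_pos _).le)
    _ = _ := by ring

theorem nrl_im {x a : ℝ} (hx : 0 < x) (ha : 0 < a) {w : ℂ} (hw : 0 ≤ w.re) :
    (om x a w).im ≤ 0 := by
  have e : (om x a w).im = -(2 * a * x * w.re) := by
    simp only [om, Complex.sub_im, Complex.mul_im, Complex.mul_re, Complex.I_re, Complex.I_im,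
      Complex.ofReal_re, Complex.ofReal_im, pow_two, Complex.re_ofNat, Complex.im_ofNat]
    ring
  rw [e]
  have : 0 ≤ 2 * a * x * w.re := by positivity
  linarith

theorem p_nrl (h1 : S_sg) (h2 : S_sgn) : S_nrl := by
  obtain ⟨sg, hsq, hff, hq, -⟩ := h1
  intro ε hε
  have hK : 0 < 2000 / ε := by positivity
  refine ⟨10 ^ 9 + 2000 / ε, by linarith, ?_⟩
  intro l x a b Y ctx
  have hl0 := ctx.l0
  have ha := ctx.a0
  have hx := ctx.x0
  have hb := ctx.b1
  have hbY := ctx.bY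
  have hY1 : 1 ≤ Y := hb.trans hbY
  have hY : 0 < Y := by linarith
  have haY : 0 < a * Y := mul_pos ha hY
  have hsq1 : 0 ≤ (1 + a * Y) ^ 2 := sq_nonneg _
  have hx1 : 10 ^ 9 * (1 + a * Y) ^ 2 ≤ x := by
    refine le_trans ?_ ctx.h1
    exact mul_le_mul_of_nonneg_right (by linarith) hsq1
  have hx2 : 2000 / ε * (1 + a * Y) ^ 2 ≤ x := by
    refine le_trans ?_ ctx.h1
    exact mul_le_mul_of_nonneg_right (by linarith) hsq1
  have ctx' : CtxL ε (10 ^ 9) l x a b Y :=
    { ctx with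
      l0 := by linarith
      h1 := hx1
      h2 := by
        refine le_trans ?_ ctx.h2
        have e1 : (10 : ℝ) ^ 9 * a * Y ^ 2 = 10 ^ 9 * (a * Y ^ 2) := by ring
        have e2 : (10 ^ 9 + 2000 / ε) * a * Y ^ 2 = (10 ^ 9 + 2000 / ε) * (a * Y ^ 2) := by ring
        rw [e1, e2]
        exact mul_le_mul_of_nonneg_right (by linarith) (by positivity) }
  obtain ⟨hlo, hhi, hdif, -⟩ := h2 sg hsq hq ε l x a b Y ctx'
  have hV : (1 + a * Y) ≤ (1 + a * Y) ^ 2 := by nlinarith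
  have hxV : 10 ^ 9 * (1 + a * Y) ≤ x := by
    refine le_trans ?_ hx1
    exact mul_le_mul_of_nonneg_left hV (by norm_num)
  have hxε : 2000 / ε * (a * Y) ≤ x := by
    refine le_trans ?_ hx2
    exact mul_le_mul_of_nonneg_left (by linarith) hK.le
  have hab : a * b ≤ a * Y := mul_le_mul_of_nonneg_left hbY ha.le
  have hab0 : 0 < a * b := mul_pos ha (by linarith)
  have hlε : 2000 ≤ ε * l := by
    have h3 : 2000 / ε ≤ l := by linarith
    rw [div_le_iff₀ hε] at h3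
    linarith
  have hl1 := ctx.l1
  constructor
  · intro w hw1 hw2 hw3
    have hw0 : 0 ≤ w.re := by linarith
    have s1 := hlo w hw1 hw2 hw3
    obtain ⟨s2, s3, -, -⟩ := hhi w hw0 hw2 hw3
    have s4 : 0 ≤ (sg (om x a w)).re := by linarith
    have hL := (ctx.lr (sg (om x a w)) (sg (om x a w)) s1 s2 s3 s4 s2 s3).1
    have e6 : (6 + sg (om x a w)).re = 6 + (sg (om x a w)).re := by simp
    have h6 : 0 < (6 + sg (om x a w)).re := by rw [e6]; linarith
    rw [hff, Lam_eq_Lf h6]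
    rw [LL] at hL
    exact mul_ne_zero (mul_ne_zero (two_pi_cpow_ne _) (Gamma_ne_zero_of_re_pos h6)) hL
  · intro w v hw1 hw2 hw3 hv1 hv2 hv3
    have hw0 : 0 ≤ w.re := by linarith
    have s1 := hlo w hw1 hw2 hw3
    obtain ⟨s2, s3, -, -⟩ := hhi w hw0 hw2 hw3
    obtain ⟨t2, t3, -, -⟩ := hhi v hv1 hv2 hv3
    have hd := hdif w v hw0 hw2 hw3 hv1 hv2 hv3
    have t4 : 0 ≤ (sg (om x a v)).re := (hq _ (nrl_im hx ha hv1)).1
    have hL := (ctx.lr (sg (om x a w)) (sg (om x a v)) s1 s2 s3 t4 t2 t3).2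
    rw [hff, hff]
    set s := sg (om x a w) with hs
    set t : ℂ := sg (om x a v) - s with ht
    have hst : sg (om x a v) = s + t := by rw [ht]; ring
    rw [hst] at hL t2 t3 t4 ⊢
    have s4 : 0 ≤ s.re := by linarith
    -- sizes
    have s3' := abs_le.1 s3
    have t3' := abs_le.1 t3
    have slo : x - 40 * (1 + a * Y) ≤ ‖6 + s‖ := by
      have h3 := Complex.abs_im_le_norm (6 + s)
      have e1 : (6 + s).im = s.im := by simp
      rw [e1] at h3
      have h4 := le_abs_self s.im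
      linarith [s3'.1]
    have shi : ‖6 + s‖ ≤ 6 + 140 * (1 + a * Y) + x := by
      have h3 := Complex.norm_le_abs_re_add_abs_im (6 + s)
      have e1 : (6 + s).im = s.im := by simp
      have e2 : (6 + s).re = 6 + s.re := by simp
      rw [e1, e2, abs_of_nonneg (by linarith : 0 ≤ 6 + s.re),
        abs_of_nonneg (by linarith [s3'.1] : 0 ≤ s.im)] at h3
      linarith [s3'.2]
    have tlo : x - 40 * (1 + a * Y) ≤ ‖6 + (s + t)‖ := by
      have h3 := Complex.abs_im_le_norm (6 + (s + t))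
      have e1 : (6 + (s + t)).im = (s + t).im := by simp
      rw [e1] at h3
      have h4 := le_abs_self (s + t).im
      linarith [t3'.1]
    have hrc : ‖rc (6 + s) - l‖ ≤ 8 :=
      dn_reg_rc hx (by linarith : 1 ≤ 1 + a * Y) (by linarith) ctx.lx slo shi
    have hkey := nrl_key s4 t4 (by linarith) hrc hL
    refine hkey.trans (mul_le_mul_of_nonneg_right ?_ (norm_nonneg _))
    rw [← Real.exp_add]
    apply Real.exp_le_exp.2
    -- the exponents
    obtain ⟨Δ, hΔ⟩ : ∃ Δ, Δ = ‖v - w‖ := ⟨_, rfl⟩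
    have hΔ0 : 0 ≤ Δ := by rw [hΔ]; exact norm_nonneg _
    rw [← hΔ] at hd ⊢
    have haΔ : 0 ≤ a * Δ := mul_nonneg ha.le hΔ0
    obtain ⟨e, he⟩ : ∃ e, e = ‖t - a * (v - w)‖ := ⟨_, rfl⟩
    rw [← he] at hd
    have hq1 : a * Y / x ≤ ε / 2000 := by
      rw [div_le_iff₀ hx]
      have h3 : 2000 / ε * (a * Y) * (ε / 2000) ≤ x * (ε / 2000) :=
        mul_le_mul_of_nonneg_right hxε (by positivity)
      have h4 : 2000 / ε * (a * Y) * (ε / 2000) = a * Y := by field_simp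
      linarith
    have hq2 : a * Y / x ≤ 1 / 10 ^ 9 := by
      rw [div_le_iff₀ hx]
      linarith
    have he1 : e ≤ a * Δ * (ε / 10) := by
      refine hd.trans ?_
      have h3 : 200 * a * Δ * (a * Y / x) ≤ 200 * a * Δ * (ε / 2000) :=
        mul_le_mul_of_nonneg_left hq1 (by positivity)
      linarith
    have he2 : e ≤ a * Δ * (1 / 100) := by
      refine hd.trans ?_
      have h3 : 200 * a * Δ * (a * Y / x) ≤ 200 * a * Δ * (1 / 10 ^ 9) :=
        mul_le_mul_of_nonneg_left hq2 (by positivity)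
      norm_num at h3 ⊢
      linarith
    have haN : ‖(a : ℂ) * (v - w)‖ = a * Δ := by
      rw [norm_mul, Complex.norm_real, Real.norm_of_nonneg ha.le, hΔ]
    have htn : ‖t‖ ≤ 101 / 100 * (a * Δ) := by
      have h3 : ‖t‖ ≤ ‖t - a * (v - w)‖ + ‖(a : ℂ) * (v - w)‖ := by
        have h4 := norm_add_le (t - a * (v - w)) ((a : ℂ) * (v - w))
        rwa [sub_add_cancel] at h4
      rw [← he, haN] at h3
      linarith
    have htre : t.re ≤ a * (v.re - w.re) + e := by
      have h3 : (t - a * (v - w)).re ≤ e := by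
        rw [he]
        exact Complex.re_le_norm _
      have h4 : (t - a * (v - w)).re = t.re - a * (v.re - w.re) := by
        simp
      linarith
    have hΔY : Δ ≤ 49 * Y := by
      have h3 := Complex.norm_le_abs_re_add_abs_im (v - w)
      rw [← hΔ, Complex.sub_re, Complex.sub_im] at h3
      have h4 : |v.re - w.re| ≤ Y := by
        rw [abs_le]
        constructor <;> linarith
      have h5 : |v.im - w.im| ≤ 48 * b := by
        have h6 := abs_le.1 hw3
        have h7 := abs_le.1 hv3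
        rw [abs_le]
        constructor <;> linarith [h6.1, h6.2, h7.1, h7.2]
      linarith
    have htY : ‖t‖ ≤ 50 * (a * Y) := by
      have h3 : a * Δ ≤ 49 * (a * Y) := by
        have := mul_le_mul_of_nonneg_left hΔY ha.le
        linarith
      linarith
    have hs0 : 0 < ‖6 + s‖ := by linarith
    have hg : 4 * (‖t‖ + 30 * ‖t‖ ^ 2) / ‖6 + s‖ ≤ ‖t‖ := by
      rw [div_le_iff₀ hs0]
      have h6 : 4 * (1 + 30 * ‖t‖) ≤ ‖6 + s‖ := by linarith
      calc 4 * (‖t‖ + 30 * ‖t‖ ^ 2) = ‖t‖ * (4 * (1 + 30 * ‖t‖)) := by ring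
        _ ≤ _ := mul_le_mul_of_nonneg_left h6 (norm_nonneg _)
    have hl : 0 < l := by linarith
    have k1 : l * t.re ≤ a * l * (v.re - w.re) + l * (a * Δ * (ε / 10)) := by
      have h3 : l * t.re ≤ l * (a * (v.re - w.re) + a * Δ * (ε / 10)) :=
        mul_le_mul_of_nonneg_left (by linarith) hl.le
      linarith
    have k2 : ε / 4 * l * ‖t‖ ≤ ε / 4 * l * (101 / 100 * (a * Δ)) :=
      mul_le_mul_of_nonneg_left htn (by positivity)
    have k3 : 9 * ‖t‖ ≤ 10 * (a * Δ) := by linarith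
    have k4 : 2000 * (a * Δ) ≤ ε * l * (a * Δ) := mul_le_mul_of_nonneg_right hlε haΔ
    have k5 : ε * (a * l) * Δ = ε * l * (a * Δ) := by ring
    have k6 : l * (a * Δ * (ε / 10)) = 1 / 10 * (ε * l * (a * Δ)) := by ring
    have k7 : ε / 4 * l * (101 / 100 * (a * Δ)) = 101 / 400 * (ε * l * (a * Δ)) := by ring
    rw [k5]
    linarith

end Pool.Agent.Lib.MP_cd509c_nt.JD
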