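import Pool.Agent.Lib.MP_cd509c_nt.JD.Defs

/-!
# No non-real zeros outside: induction on the removed pairs
-/

set_option autoImplicit false

namespace Pool.Agent.Lib.MP_cd509c_nt.JD

open Complex ComplexConjugate
open Pool.Agent.Lib.MP_cd509c_nt

lemma jd_out0_num (C K : ℝ) (hC : 1 ≤ C) (hK : 16 ≤ K) : ∃ D₁ : ℝ, ∀ D : ℕ, D₁ ≤ D →
    289 * (C * Real.sqrt (K / 2 * D) * Real.log (K / 2 * D)) ≤ D / 2 := by
  refine ⟨(1156 * C * K) ^ 4, ?_⟩
  intro D hD
  have hD0 : (0 : ℝ) ≤ D := Nat.cast_nonneg D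
  set x : ℝ := K / 2 * D with hx
  have hx0 : 0 ≤ x := by positivity
  have hDx : (D : ℝ) ≤ x := by
    rw [hx]
    nlinarith
  have hxb : (1156 * C * K) ^ 4 ≤ x := le_trans hD hDx
  set y : ℝ := x ^ (1 / 4 : ℝ) with hy
  have hy0 : 0 ≤ y := by positivity
  have hy4 : y ^ 4 = x := by
    rw [hy, ← Real.rpow_natCast, ← Real.rpow_mul hx0]
    norm_num
  have hs : Real.sqrt x = y ^ 2 := by
    rw [Real.sqrt_eq_iff_eq_sq hx0 (by positivity), ← hy4]
    ring
  have hl : Real.log x ≤ 4 * y := by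
    have := Real.log_le_rpow_div hx0 (by norm_num : (0 : ℝ) < 1 / 4)
    rw [← hy] at this
    linarith
  have hyb : 1156 * C * K ≤ y := by
    have h1 : 0 ≤ 1156 * C * K := by positivity
    by_contra hcon
    push Not at hcon
    have := pow_lt_pow_left₀ hcon hy0 (by norm_num : (4 : ℕ) ≠ 0)
    rw [hy4] at this
    linarith
  have h3 : C * Real.sqrt x * Real.log x ≤ C * y ^ 2 * (4 * y) := by
    rw [hs]
    exact mul_le_mul_of_nonneg_left hl (by positivity)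
  have hDe : (D : ℝ) = 2 * x / K := by
    rw [hx]
    field_simp
  have h4 : 289 * (C * y ^ 2 * (4 * y)) ≤ x / K := by
    rw [le_div_iff₀ (by linarith)]
    calc 289 * (C * y ^ 2 * (4 * y)) * K = (1156 * C * K) * y ^ 3 := by ring
      _ ≤ y * y ^ 3 := mul_le_mul_of_nonneg_right hyb (by positivity)
      _ = x := by rw [← hy4]; ring
  calc 289 * (C * Real.sqrt x * Real.log x) ≤ 289 * (C * y ^ 2 * (4 * y)) := by linarith
    _ ≤ x / K := h4
    _ = D / 2 := by rw [hDe]; ring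

lemma jd_out0_root (h3 : S_PH) {D : ℕ} (hD : 1 ≤ D) {g : ℂ → ℂ} (hg0 : g 0 ≠ 0) {ω : ℂ}
    (hω : ω ≠ 0) (h : Hd D g ω = 0) : (PgP D g).eval ((D : ℂ) / ω) = 0 := by
  obtain ⟨-, -, he, -⟩ := h3 D g hD hg0
  have hD0 : (D : ℂ) ≠ 0 := by
    have : D ≠ 0 := by omega
    exact_mod_cast this
  rw [he _ (div_ne_zero hD0 hω), div_div_cancel₀ hD0, h, mul_zero]

lemma jd_out0_im {D : ℕ} (hD : 1 ≤ D) {ω : ℂ} (h : ω.im ≠ 0) : ((D : ℂ) / ω).im ≠ 0 := by
  have hω : ω ≠ 0 := by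
    intro h0
    rw [h0] at h
    exact h rfl
  have hD0 : (D : ℝ) ≠ 0 := by
    have : D ≠ 0 := by omega
    exact_mod_cast this
  have hn : Complex.normSq ω ≠ 0 := by
    rw [Ne, Complex.normSq_eq_zero]
    exact hω
  rw [div_eq_mul_inv, ← Complex.ofReal_natCast, Complex.im_ofReal_mul, Complex.inv_im]
  exact mul_ne_zero hD0 (div_ne_zero (neg_ne_zero.2 h) hn)

/-- The numerical condition of `S_alg`. -/
lemma jd_out0_ineq {D K e a M : ℝ} (hD : 4 ≤ D) (hK : 16 ≤ K) (h1 : e ^ 2 ≤ a + 1 / 4)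
    (h2 : a ^ 2 + e ^ 2 < D * e ^ 2) (hM : 289 * M ≤ D / 2) :
    18 * (1 / K) ^ 2 * e ^ 2 + 288 * M + 1 < D - M := by
  have ha : a ≤ D + 1 / 4 := by
    by_contra hcon
    push Not at hcon
    nlinarith [sq_nonneg e]
  have he : e ^ 2 ≤ D + 1 / 2 := by linarith
  have hK2 : (1 / K) ^ 2 ≤ 1 / 256 := by
    rw [div_pow, one_pow]
    apply one_div_le_one_div_of_le (by norm_num)
    nlinarith
  have h3 : 18 * (1 / K) ^ 2 * e ^ 2 ≤ 18 * (1 / 256) * (D + 1 / 2) := by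
    have h4 : (1 / K) ^ 2 * e ^ 2 ≤ 1 / 256 * (D + 1 / 2) :=
      mul_le_mul hK2 he (sq_nonneg e) (by norm_num)
    nlinarith
  linarith

/-- One step of the induction. -/
lemma jd_out0_step (h1 : S_alg) (h2 : S_pair) (h3 : S_PH) {D : ℕ} {K M : ℝ} (hD : 4 ≤ D)
    (hK : 16 ≤ K) (hM : 289 * M ≤ (D : ℝ) / 2)
    (hcnt : ∀ (s : List (ℝ × ℝ)) (g : ℂ → ℂ), Fam D s g →
      (((PgP D g).roots.filter fun v => 1 / (K / 2) < ‖v‖).card : ℝ) ≤ M)
    (hann : ∀ (s : List (ℝ × ℝ)) (g : ℂ → ℂ) (ω : ℂ), Fam D s g → K * D / 2 ≤ ‖ω‖ →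
      ‖ω‖ ≤ K * D → Hd D g ω = 0 → ω.im = 0)
    (s : List (ℝ × ℝ)) (g : ℂ → ℂ) (hF : Fam D s g)
    (hih : ∀ (p : ℝ × ℝ) (g₁ : ℂ → ℂ), Fam D (p :: s) g₁ → ∀ ω : ℂ, Hd D g₁ ω = 0 → ω.im ≠ 0 →
      ‖ω‖ < K * D / 2) :
    ∀ ω : ℂ, Hd D g ω = 0 → ω.im ≠ 0 → ‖ω‖ < K * D / 2 := by
  intro ω hω him
  have hD1 : 1 ≤ D := by omega
  have hDr : (4 : ℝ) ≤ D := by exact_mod_cast hD
  have hDc : (D : ℂ) ≠ 0 := by
    have : D ≠ 0 := by omega
    exact_mod_cast this
  have hω0 : ω ≠ 0 := by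
    intro h0
    rw [h0] at him
    exact him rfl
  have hωn : 0 < ‖ω‖ := norm_pos_iff.2 hω0
  obtain ⟨hRE, hs, hff⟩ := id hF
  have hroot := jd_out0_root h3 hD1 hRE.ne hω0 hω
  have him' := jd_out0_im hD1 him
  by_cases hcase : ∀ w, g w = 0 → (D : ℝ) * w.im ^ 2 ≤ ‖w‖ ^ 2
  · exfalso
    obtain ⟨A, hA⟩ := hRE.gr
    refine appell_direct hRE.diff hRE.real hRE.ne hA D hcase ((D : ℂ) / ω) him' ?_
    refine Eq.trans ?_ hroot
    unfold PgP
    rw [Polynomial.eval_finsetSum]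
    refine Finset.sum_congr rfl ?_
    intro k _
    rw [Polynomial.eval_mul, Polynomial.eval_C, Polynomial.eval_pow, Polynomial.eval_X]
  · push Not at hcase
    obtain ⟨ζ₀, hζ0, hζ1⟩ := hcase
    have hζ2 : ζ₀.im ≠ 0 := by
      intro h0
      rw [h0] at hζ1
      have := sq_nonneg ‖ζ₀‖
      nlinarith
    obtain ⟨ζ, hζ, hζn, hpos⟩ : ∃ ζ : ℂ, g ζ = 0 ∧ ‖ζ‖ ^ 2 < (D : ℝ) * ζ.im ^ 2 ∧ 0 < ζ.im := by
      rcases lt_or_gt_of_ne hζ2 with h | h
      · refine ⟨conj ζ₀, ?_, ?_, ?_⟩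
        · rw [hRE.real, hζ0, map_zero]
        · rw [Complex.norm_conj, Complex.conj_im, neg_sq]
          exact hζ1
        · rw [Complex.conj_im]
          linarith
      · exact ⟨ζ₀, hζ0, hζ1, h⟩
    have hne : ζ ≠ conj ζ := by
      intro h
      have := congrArg Complex.im h
      rw [Complex.conj_im] at this
      linarith
    obtain ⟨A, hA⟩ := hRE.gr
    obtain ⟨g₁, hd₁, hs₁, hg₁0, hgr₁, hfac⟩ :=
      factor_pair hRE.diff hRE.real hRE.ne hA hζ hne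
    have hfac' : ∀ w, g w = ((w - ζ.re) ^ 2 + (ζ.im : ℂ) ^ 2) * g₁ w := by
      intro w
      rw [hfac w]
      congr 1
      have e1 : conj ζ = (ζ.re : ℂ) - (ζ.im : ℂ) * I := by
        apply Complex.ext <;> simp
      have e2 : ζ = (ζ.re : ℂ) + (ζ.im : ℂ) * I := (Complex.re_add_im ζ).symm
      calc (w - ζ) * (w - conj ζ)
          = (w - ((ζ.re : ℂ) + (ζ.im : ℂ) * I)) * (w - ((ζ.re : ℂ) - (ζ.im : ℂ) * I)) := by
            rw [e1]
            congr 2
        _ = (w - ζ.re) ^ 2 + (ζ.im : ℂ) ^ 2 := by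
            have hI : I ^ 2 = -1 := Complex.I_sq
            linear_combination (-(ζ.im : ℂ) ^ 2) * hI
    have hnsq : ‖ζ‖ ^ 2 = ζ.re ^ 2 + ζ.im ^ 2 := by
      rw [Complex.sq_norm, Complex.normSq_apply]
      ring
    have hffζ : ff ζ = 0 := by rw [hff, hζ, mul_zero]
    have he1 : ζ.im ^ 2 ≤ ζ.re + 1 / 4 := mem_Kset_half (ff_zeros_half ζ hffζ)
    have he2 : ζ.re ^ 2 + ζ.im ^ 2 < (D : ℝ) * ζ.im ^ 2 := by rw [← hnsq]; exact hζn
    have hF₁ : Fam D ((ζ.re, ζ.im) :: s) g₁ := by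
      refine ⟨⟨hd₁, hs₁, hg₁0, hgr₁⟩, ?_, ?_⟩
      · intro p hp
        rcases List.mem_cons.1 hp with h | h
        · rw [h]
          exact ⟨hpos, he1, he2⟩
        · exact hs p h
      · intro w
        rw [hff w, hfac' w]
        unfold qp
        rw [List.map_cons, List.prod_cons]
        ring
    obtain ⟨hdeg, hQ0, heval, hcoef⟩ := h3 D g₁ hD1 hg₁0
    have hcoef' := hcoef hs₁ hd₁
    have hpair : PgP D g = (PgP D g₁).derivative.derivative -
        Polynomial.C (2 * (ζ.re : ℝ) : ℂ) * (PgP D g₁).derivative +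
        Polynomial.C (((ζ.re : ℝ) : ℂ) ^ 2 + ((ζ.im : ℝ) : ℂ) ^ 2) * PgP D g₁ := by
      rw [← h2 D g₁ ζ.re ζ.im hd₁]
      congr 1
      funext w
      exact hfac' w
    have hreal : ∀ v ∈ (PgP D g₁).roots, ‖v‖ ≤ 2 * (1 / K) → v.im = 0 := by
      intro v hv hvn
      by_contra hvim
      have hv0 : v ≠ 0 := by
        intro h0
        rw [h0] at hvim
        exact hvim rfl
      have hvpos : 0 < ‖v‖ := norm_pos_iff.2 hv0
      have hev : (PgP D g₁).eval v = 0 := (Polynomial.mem_roots'.1 hv).2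
      rw [heval v hv0] at hev
      have hH : Hd D g₁ ((D : ℂ) / v) = 0 :=
        (mul_eq_zero.1 hev).resolve_left (pow_ne_zero _ hv0)
      have hlt := hih _ g₁ hF₁ ((D : ℂ) / v) hH (jd_out0_im hD1 hvim)
      rw [norm_div, Complex.norm_natCast, div_lt_iff₀ hvpos] at hlt
      have h5 : K * D / 2 * ‖v‖ ≤ K * D / 2 * (2 * (1 / K)) :=
        mul_le_mul_of_nonneg_left hvn (by positivity)
      have h6 : K * D / 2 * (2 * (1 / K)) = D := by field_simp
      linarith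
    have hMc := hcnt _ g₁ hF₁
    have hfilt : ((PgP D g₁).roots.filter fun v => 1 / (K / 2) < ‖v‖) =
        (PgP D g₁).roots.filter fun v => 2 * (1 / K) < ‖v‖ := by
      have e : 1 / (K / 2) = 2 * (1 / K) := by
        have : K ≠ 0 := by linarith
        field_simp
      rw [e]
    rw [hfilt] at hMc
    have htot : (((PgP D g₁).roots.filter fun v => 2 * (1 / K) < ‖v‖).card : ℝ) +
        (((PgP D g₁).roots.filter fun v => ‖v‖ ≤ 2 * (1 / K)).card : ℝ) = D := by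
      have h7 := Multiset.filter_add_not (fun v : ℂ => 2 * (1 / K) < ‖v‖) (PgP D g₁).roots
      have h8 := congrArg Multiset.card h7
      rw [Multiset.card_add, IsAlgClosed.card_roots_eq_natDegree, hdeg] at h8
      simp only [not_lt] at h8
      exact_mod_cast h8
    set Nb : ℝ := (((PgP D g₁).roots.filter fun v => 2 * (1 / K) < ‖v‖).card : ℝ) with hNb
    have hineq := jd_out0_ineq hDr hK he1 he2 (by linarith : 289 * Nb ≤ (D : ℝ) / 2)
    by_contra hcon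
    push Not at hcon
    rcases le_or_gt ‖ω‖ (K * D) with h9 | h9
    · exact him (hann s g ω hF hcon h9 hω)
    · have hsm : ‖(D : ℂ) / ω‖ ≤ 1 / K := by
        rw [norm_div, Complex.norm_natCast, div_le_div_iff₀ hωn (by linarith)]
        linarith
      refine h1 (PgP D g₁) ζ.re ζ.im (1 / K) hQ0 hcoef' (by positivity) hreal ?_
        ((D : ℂ) / ω) hsm him' ?_
      · rw [← hNb]
        linarith
      · rw [← hpair]
        exact hroot

theorem p_out0 (h1 : S_alg) (h2 : S_pair) (h3 : S_PH) (h4 : S_fam) (h5 : S_cntM) (h6 : S_ann) :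
    S_out0 := by
  obtain ⟨K, hK, h6'⟩ := h6
  obtain ⟨D₂, hann⟩ := h6' K le_rfl
  obtain ⟨C, hC, hcnt⟩ := h5
  obtain ⟨C', hC', hfam⟩ := h4
  obtain ⟨D₁, hnum⟩ := jd_out0_num C K hC hK
  refine ⟨K, max 4 (max D₁ D₂), by linarith, ?_⟩
  intro D hD ω hω him
  have hD4 : (4 : ℝ) ≤ D := le_trans (le_max_left _ _) hD
  have hD1 : D₁ ≤ D := le_trans (le_trans (le_max_left _ _) (le_max_right _ _)) hD
  have hD2 : D₂ ≤ D := le_trans (le_trans (le_max_right _ _) (le_max_right _ _)) hD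
  have hD4' : 4 ≤ D := by exact_mod_cast hD4
  have hstep := fun (s : List (ℝ × ℝ)) (g : ℂ → ℂ) (hF : Fam D s g) =>
    jd_out0_step (K := K) (M := C * Real.sqrt (K / 2 * D) * Real.log (K / 2 * D)) h1 h2 h3 hD4'
      hK (hnum D hD1)
      (fun s g hF => hcnt D s g (K / 2) (by omega) (by linarith) hF)
      (fun s g ω hF => hann D s g ω hD2 hF) s g hF
  have hmain : ∀ k : ℕ, ∀ (s : List (ℝ × ℝ)) (g : ℂ → ℂ), Fam D s g →
      ⌊C' * Real.sqrt D * Real.log D⌋₊ ≤ s.length + k →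
      ∀ ω : ℂ, Hd D g ω = 0 → ω.im ≠ 0 → ‖ω‖ < K * D / 2 := by
    intro k
    induction k with
    | zero =>
      intro s g hF hk
      refine hstep s g hF ?_
      intro p g₁ hF₁
      exfalso
      have h7 := (hfam D (p :: s) g₁ (by omega) hF₁).1
      have h8 : (p :: s).length ≤ ⌊C' * Real.sqrt D * Real.log D⌋₊ := Nat.le_floor h7
      rw [List.length_cons] at h8
      omega
    | succ k ih =>
      intro s g hF hk
      refine hstep s g hF ?_
      intro p g₁ hF₁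
      refine ih (p :: s) g₁ hF₁ ?_
      rw [List.length_cons]
      omega
  have hff0 : Fam D [] ff := by
    refine ⟨⟨ff_differentiable, ff_conj, ff_zero_ne, ff_growth⟩, ?_, ?_⟩
    · intro p hp
      exact absurd hp (List.not_mem_nil)
    · intro w
      unfold qp
      rw [List.map_nil, List.prod_nil, one_mul]
  have := hmain _ [] ff hff0 (Nat.le_add_left _ _) ω hω him
  have h10 : (0 : ℝ) ≤ K * D := by positivity
  linarith

end Pool.Agent.Lib.MP_cd509c_nt.JD
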