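import Pool.Agent.Lib.MP_cd509c_nt.JD.StmS

/-!
# Project JD, piece outs: multiple real zeros do not lie far out
-/

set_option autoImplicit false

namespace Pool.Agent.Lib.MP_cd509c_nt.JD

open Polynomial

/-- numerical inequality -/
theorem outs_num (A K1 Kt : ℝ) (hA : 1 ≤ A) (hK1 : 1 ≤ K1) (hKt : 0 < Kt) :
    ∃ D₀ : ℝ, 1 ≤ D₀ ∧ ∀ D n : ℝ, D₀ ≤ D → 0 ≤ n → n ≤ A * Real.log D →
      17 * (Kt * (Real.sqrt (K1 * (Real.sqrt n + 1) * D) + 2) *
        Real.log (Real.sqrt (K1 * (Real.sqrt n + 1) * D) + 2)) < D - n ∧ 2 * n ≤ D ∧ n < D := by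
  have hAK : 1 ≤ A * K1 := by nlinarith
  set P : ℝ := A * K1 with hP
  set U : ℝ := 18088 * (Kt + 1) * P ^ 2 with hU
  have hP2 : P ≤ P ^ 2 := by nlinarith
  have hAP : A ≤ P := by rw [hP]; nlinarith
  have hU1 : 18088 * P ^ 2 ≤ U := by
    rw [hU]; nlinarith [mul_pos hKt (show 0 < P ^ 2 by positivity)]
  have hUA : 32 * A ≤ U := by nlinarith
  have hU0 : 1 ≤ U := by nlinarith
  refine ⟨U ^ 16, one_le_pow₀ hU0, ?_⟩
  intro D n hD hn0 hn
  have hD1 : 1 ≤ D := le_trans (one_le_pow₀ hU0) hD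
  have hD0 : 0 < D := by linarith
  set u : ℝ := D ^ ((1 : ℝ) / 16) with hu
  have huD : u ^ 16 = D := by
    rw [hu, ← Real.rpow_natCast, ← Real.rpow_mul hD0.le]
    norm_num
  have hu0 : 0 < u := Real.rpow_pos_of_pos hD0 _
  have huU : U ≤ u := by
    have h1 : U ^ 16 ≤ u ^ 16 := by rw [huD]; exact hD
    exact le_of_pow_le_pow_left₀ (by norm_num) hu0.le h1
  have hu1 : 1 ≤ u := hU0.trans huU
  have hlu : Real.log u ≤ u := by
    have := Real.log_le_sub_one_of_pos hu0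
    linarith
  have hlD : Real.log D ≤ 16 * u := by
    rw [← huD, Real.log_pow]
    push_cast
    linarith
  have hn16 : n ≤ 16 * A * u := by
    calc n ≤ A * Real.log D := hn
      _ ≤ A * (16 * u) := mul_le_mul_of_nonneg_left hlD (by linarith)
      _ = _ := by ring
  have hsn : Real.sqrt n ≤ 16 * A * u := by
    rcases le_or_gt n 1 with h | h
    · have h1 : Real.sqrt n ≤ 1 := by
        rw [Real.sqrt_le_left (by norm_num)]
        linarith
      nlinarith
    · have h1 : Real.sqrt n ≤ n := by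
        rw [Real.sqrt_le_left (by linarith)]
        nlinarith
      linarith
  have hs : Real.sqrt n + 1 ≤ 17 * A * u := by nlinarith
  have hs0 : 0 ≤ Real.sqrt n := Real.sqrt_nonneg n
  have hX : Real.sqrt (K1 * (Real.sqrt n + 1) * D) ≤ 17 * P * u ^ 9 := by
    rw [Real.sqrt_le_left (by positivity)]
    have h1 : K1 * (Real.sqrt n + 1) * D ≤ K1 * (17 * A * u) * u ^ 16 := by
      rw [huD]
      apply mul_le_mul_of_nonneg_right _ hD0.le
      exact mul_le_mul_of_nonneg_left hs (by linarith)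
    have h2 : K1 * (17 * A * u) * u ^ 16 = 17 * P * u ^ 17 := by rw [hP]; ring
    have h3 : 17 * P * u ^ 17 ≤ (17 * P * u ^ 9) ^ 2 := by
      have e : (17 * P * u ^ 9) ^ 2 = (17 * P * u ^ 17) * (17 * P * u) := by ring
      rw [e]
      apply le_mul_of_one_le_right (by positivity)
      nlinarith
    linarith
  set T : ℝ := Real.sqrt (K1 * (Real.sqrt n + 1) * D) + 2 with hT
  have hu9 : 1 ≤ u ^ 9 := one_le_pow₀ hu1
  have hT1 : T ≤ 19 * P * u ^ 9 := by
    rw [hT]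
    nlinarith
  have hT2 : 2 ≤ T := by
    rw [hT]
    have := Real.sqrt_nonneg (K1 * (Real.sqrt n + 1) * D)
    linarith
  have hT0 : 0 < T := by linarith
  have hlT : Real.log T ≤ 28 * P * u := by
    have h1 : Real.log T ≤ Real.log (19 * P * u ^ 9) := Real.log_le_log hT0 hT1
    have h2 : Real.log (19 * P * u ^ 9) = Real.log (19 * P) + 9 * Real.log u := by
      rw [Real.log_mul (by positivity) (by positivity), Real.log_pow]
      push_cast
      ring
    have h3 : Real.log (19 * P) ≤ 19 * P := by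
      have := Real.log_le_sub_one_of_pos (show 0 < 19 * P by positivity)
      linarith
    nlinarith
  have hlT0 : 0 ≤ Real.log T := Real.log_nonneg (by linarith)
  have hmain : Kt * T * Real.log T ≤ Kt * (532 * P ^ 2 * u ^ 10) := by
    have h1 : T * Real.log T ≤ (19 * P * u ^ 9) * (28 * P * u) :=
      mul_le_mul hT1 hlT hlT0 (by positivity)
    have h2 : (19 * P * u ^ 9) * (28 * P * u) = 532 * P ^ 2 * u ^ 10 := by ring
    rw [mul_assoc]
    exact mul_le_mul_of_nonneg_left (by linarith) hKt.le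
  have hu10 : 0 < u ^ 10 := by positivity
  have hnD : 2 * n ≤ D := by
    have h1 : u ^ 2 ≤ u ^ 16 := pow_le_pow_right₀ hu1 (by norm_num)
    have h2 : 32 * A * u ≤ u ^ 2 := by nlinarith
    rw [← huD]
    linarith
  have hbig : 18088 * (Kt * P ^ 2 * u ^ 10) < D := by
    have h1 : u * u ^ 10 ≤ u ^ 16 := by
      have : u ^ 11 ≤ u ^ 16 := pow_le_pow_right₀ hu1 (by norm_num)
      calc u * u ^ 10 = u ^ 11 := by ring
        _ ≤ _ := this
    have h2 : U * u ^ 10 ≤ u * u ^ 10 := mul_le_mul_of_nonneg_right huU hu10.le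
    have h3 : 18088 * (Kt * P ^ 2 * u ^ 10) < U * u ^ 10 := by
      rw [hU]
      have : 0 < P ^ 2 * u ^ 10 := by positivity
      nlinarith
    rw [← huD]
    linarith
  refine ⟨?_, hnD, ?_⟩
  · have e : Kt * (532 * P ^ 2 * u ^ 10) * 17 = 18088 * (Kt * P ^ 2 * u ^ 10) / 2 := by ring
    nlinarith
  · linarith

/-- a large value of the parameter -/
theorem outs_large (Kt R : ℝ) (N : ℕ) (hKt : 0 < Kt) (hR : 0 ≤ R) :
    ∃ m : ℕ, Kt * (Real.sqrt (R * (m + N)) + 2) * Real.log (Real.sqrt (R * (m + N)) + 2) <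
      m + 2 := by
  set a : ℝ := Real.sqrt R + 4 with ha
  have hs := Real.sqrt_nonneg R
  have ha0 : 0 < a := by linarith
  obtain ⟨q, hq⟩ := exists_nat_ge (Kt * a ^ 2 + N + 1)
  have hN : (0 : ℝ) ≤ N := Nat.cast_nonneg N
  have hq1 : (1 : ℝ) ≤ q := by nlinarith [mul_pos hKt (show 0 < a ^ 2 by positivity)]
  have hqN : (N : ℝ) ≤ q := by nlinarith [mul_pos hKt (show 0 < a ^ 2 by positivity)]
  have hq4 : (q : ℝ) ≤ (q : ℝ) ^ 4 := by
    calc (q : ℝ) = (q : ℝ) ^ 1 := by ring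
      _ ≤ _ := pow_le_pow_right₀ hq1 (by norm_num)
  have hNq : N ≤ q ^ 4 := by
    have : (N : ℝ) ≤ ((q ^ 4 : ℕ) : ℝ) := by push_cast; linarith
    exact_mod_cast this
  refine ⟨q ^ 4 - N, ?_⟩
  rw [Nat.cast_sub hNq]
  push_cast
  have e : R * ((q : ℝ) ^ 4 - N + N) = R * ((q : ℝ) ^ 2) ^ 2 := by ring
  rw [e, Real.sqrt_mul hR, Real.sqrt_sq (by positivity)]
  set T : ℝ := Real.sqrt R * (q : ℝ) ^ 2 + 2 with hT
  have hq2 : (1 : ℝ) ≤ (q : ℝ) ^ 2 := one_le_pow₀ hq1
  have hT1 : T ≤ (Real.sqrt R + 2) * (q : ℝ) ^ 2 := by rw [hT]; nlinarith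
  have hT2 : 2 ≤ T := by rw [hT]; nlinarith [mul_nonneg hs (show (0 : ℝ) ≤ (q : ℝ) ^ 2 by positivity)]
  have hT0 : 0 < T := by linarith
  have hlT : Real.log T ≤ a * q := by
    have h1 : Real.log T ≤ Real.log ((Real.sqrt R + 2) * (q : ℝ) ^ 2) := Real.log_le_log hT0 hT1
    have h2 : Real.log ((Real.sqrt R + 2) * (q : ℝ) ^ 2) =
        Real.log (Real.sqrt R + 2) + 2 * Real.log q := by
      rw [Real.log_mul (by positivity) (by positivity), Real.log_pow]
      push_cast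
      ring
    have h3 := Real.log_le_sub_one_of_pos (show 0 < Real.sqrt R + 2 by positivity)
    have h4 := Real.log_le_sub_one_of_pos (show (0 : ℝ) < q by linarith)
    rw [ha]
    nlinarith
  have hlT0 : 0 ≤ Real.log T := Real.log_nonneg (by linarith)
  have h5 : T * Real.log T ≤ (a * (q : ℝ) ^ 2) * (a * q) := by
    apply mul_le_mul _ hlT hlT0 (by positivity)
    rw [ha]
    nlinarith
  have h6 : Kt * T * Real.log T ≤ Kt * a ^ 2 * (q : ℝ) ^ 3 := by
    rw [mul_assoc, mul_assoc]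
    apply mul_le_mul_of_nonneg_left _ hKt.le
    calc T * Real.log T ≤ (a * (q : ℝ) ^ 2) * (a * q) := h5
      _ = _ := by ring
  have hq3 : (1 : ℝ) ≤ (q : ℝ) ^ 3 := one_le_pow₀ hq1
  have h7 : (Kt * a ^ 2 + N + 1) * (q : ℝ) ^ 3 ≤ (q : ℝ) ^ 4 := by
    calc (Kt * a ^ 2 + N + 1) * (q : ℝ) ^ 3 ≤ q * (q : ℝ) ^ 3 :=
        mul_le_mul_of_nonneg_right hq (by positivity)
      _ = _ := by ring
  nlinarith

/-- lower bound for the real part of a sum over a multiset -/
theorem outs_sum (f : ℂ → ℂ) (q : ℂ → Prop) [DecidablePred q] (a b : ℝ) (s : Multiset ℂ)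
    (h1 : ∀ X ∈ s, q X → -b ≤ (f X).re) (h2 : ∀ X ∈ s, ¬ q X → a ≤ (f X).re) :
    a * (s.card : ℝ) - (a + b) * ((s.filter q).card : ℝ) ≤ ((s.map f).sum).re := by
  induction s using Multiset.induction_on with
  | empty => simp
  | cons x s ih =>
    have ih' := ih (fun X hX => h1 X (Multiset.mem_cons_of_mem hX))
      (fun X hX => h2 X (Multiset.mem_cons_of_mem hX))
    rw [Multiset.map_cons, Multiset.sum_cons, Complex.add_re, Multiset.card_cons]
    by_cases hq : q x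
    · have := h1 x (Multiset.mem_cons_self x s) hq
      rw [Multiset.filter_cons_of_pos _ hq, Multiset.card_cons]
      push_cast
      linarith
    · have := h2 x (Multiset.mem_cons_self x s) hq
      rw [Multiset.filter_cons_of_neg _ hq]
      push_cast
      linarith

/-- the terms of the sum, real roots -/
theorem outs_term_real {x x₀ ρ : ℝ} (hρ : 0 < ρ) (hx₀ : 4 * ρ < |x₀|) (hne : x ≠ x₀) :
    0 ≤ (x / (x₀ - x)) ^ 2 ∧ (ρ < |x| → (ρ / x₀) ^ 2 / 4 ≤ (x / (x₀ - x)) ^ 2) := by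
  refine ⟨sq_nonneg _, fun hx => ?_⟩
  have h0 : 0 < |x₀| := by linarith
  have h1 : 0 < |x₀ - x| := abs_pos.2 (sub_ne_zero.2 (Ne.symm hne))
  have h2 : |x₀ - x| ≤ |x₀| + |x| := abs_sub x₀ x
  have h3 : ρ / (2 * |x₀|) ≤ |x| / |x₀ - x| := by
    rw [div_le_div_iff₀ (by positivity) h1]
    nlinarith
  have h4 : (ρ / x₀) ^ 2 / 4 = (ρ / (2 * |x₀|)) ^ 2 := by
    rw [div_pow, div_pow, mul_pow, sq_abs]
    ring
  have h5 : (x / (x₀ - x)) ^ 2 = (|x| / |x₀ - x|) ^ 2 := by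
    rw [div_pow, div_pow, sq_abs, sq_abs]
  rw [h4, h5]
  exact pow_le_pow_left₀ (by positivity) h3 2

/-- the terms of the sum, roots of small modulus -/
theorem outs_term_small {X : ℂ} {x₀ ρ : ℝ} (hρ : 0 < ρ) (hx₀ : 4 * ρ < |x₀|) (hX : ‖X‖ ≤ ρ) :
    -(4 * (ρ / x₀) ^ 2) ≤ ((X / ((x₀ : ℂ) - X)) ^ 2).re := by
  have h0 : 0 < |x₀| := by linarith
  have h1 : |x₀| / 2 ≤ ‖(x₀ : ℂ) - X‖ := by
    have h2 : ‖(x₀ : ℂ)‖ - ‖X‖ ≤ ‖(x₀ : ℂ) - X‖ := norm_sub_norm_le _ _
    rw [Complex.norm_real, Real.norm_eq_abs] at h2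
    linarith
  have h2 : ‖(X / ((x₀ : ℂ) - X)) ^ 2‖ ≤ 4 * (ρ / x₀) ^ 2 := by
    rw [norm_pow, norm_div]
    have h3 : ‖X‖ / ‖(x₀ : ℂ) - X‖ ≤ 2 * (ρ / |x₀|) := by
      have h4 : ‖X‖ / ‖(x₀ : ℂ) - X‖ ≤ ρ / (|x₀| / 2) :=
        div_le_div₀ hρ.le hX (by positivity) h1
      have e : ρ / (|x₀| / 2) = 2 * (ρ / |x₀|) := by field_simp
      linarith
    calc (‖X‖ / ‖(x₀ : ℂ) - X‖) ^ 2 ≤ (2 * (ρ / |x₀|)) ^ 2 := pow_le_pow_left₀ (by positivity) h3 2
      _ = 4 * (ρ / x₀) ^ 2 := by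
        rw [mul_pow, div_pow, div_pow, sq_abs]; norm_num
  have h5 := Complex.abs_re_le_norm ((X / ((x₀ : ℂ) - X)) ^ 2)
  have h6 := neg_abs_le ((X / ((x₀ : ℂ) - X)) ^ 2).re
  linarith

theorem outs_diff (D n : ℕ) : Differentiable ℂ (iteratedDeriv n (Hd D ff)) := by
  have h : Differentiable ℂ (Hd D ff) := by
    unfold Hd
    fun_prop
  exact (h.contDiff (n := ⊤)).differentiable_iteratedDeriv n
    (by exact_mod_cast WithTop.coe_lt_top _)

/-- [JD outs] multiple real zeros do not lie far out -/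
theorem p_outs (h1 : S_out) (h2 : S_link) (h3 : S_dbl) : S_outs := by
  intro A hA
  obtain ⟨K1, D1, hK1, hout⟩ := h1
  obtain ⟨Kt, hKt, htot⟩ := Jp_total
  obtain ⟨D₂, hD₂, hnum⟩ := outs_num A K1 Kt hA hK1 hKt
  refine ⟨4 * K1, max D1 D₂, by linarith, ?_⟩
  intro D n hD hn ω hω hω'
  have hDD1 : D1 ≤ D := (le_max_left _ _).trans hD
  have hDD2 : D₂ ≤ D := (le_max_right _ _).trans hD
  have hn0 : (0 : ℝ) ≤ n := Nat.cast_nonneg n
  have hD1 : (1 : ℝ) ≤ D := hD₂.trans hDD2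
  have hD0 : (0 : ℝ) < D := by linarith
  have hs0 : 0 ≤ Real.sqrt n := Real.sqrt_nonneg n
  obtain ⟨_, h2n, hnD⟩ := hnum D n hDD2 hn0 hn
  have h2n' : 2 * n ≤ D := by exact_mod_cast h2n
  have hnD' : n < D := by exact_mod_cast hnD
  by_cases him : ω.im ≠ 0
  · have h := hout D n hDD1 h2n' ω hω him
    have h5 : 0 ≤ K1 * D * (Real.sqrt n + 1) := by positivity
    nlinarith
  rw [not_not] at him
  by_contra hcon
  rw [not_le] at hcon
  set s : ℝ := Real.sqrt n + 1 with hs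
  set ρ : ℝ := K1 * s with hρ
  have hρ0 : 0 < ρ := by positivity
  set x₀ : ℝ := -(ω.re / D) with hx₀
  have hωx : ω = -((D : ℕ) : ℂ) * (x₀ : ℂ) := by
    apply Complex.ext
    · simp [hx₀]
      field_simp
    · simp [him]
  have hx₀ρ : 4 * ρ < |x₀| := by
    have h5 : ‖ω‖ = D * |x₀| := by
      rw [hωx, norm_mul, norm_neg, Complex.norm_natCast, Complex.norm_real, Real.norm_eq_abs]
    rw [h5] at hcon
    have h6 : D * (4 * ρ) < D * |x₀| := by
      calc D * (4 * ρ) = 4 * K1 * D * s := by rw [hρ]; ring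
        _ < _ := hcon
    exact lt_of_mul_lt_mul_left h6 hD0.le
  obtain ⟨d, hd⟩ : ∃ d, D = d + n := ⟨D - n, by omega⟩
  have hd1 : 1 ≤ d := by omega
  have hJ0 : Jen d n (x₀ : ℂ) = 0 := by
    obtain ⟨c, _, hc⟩ := h2 d n hd1
    rw [hc, ← hd, ← hωx, hω, mul_zero]
  have hJ1 : deriv (Jen d n) (x₀ : ℂ) = 0 := by
    obtain ⟨c, _, hc⟩ := h2 d n hd1
    have e : Jen d n = fun X => c * iteratedDeriv n (Hd (d + n) ff) (-((d + n : ℕ) : ℂ) * X) := by
      funext X; exact hc X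
    rw [e]
    have h5 : HasDerivAt (fun X : ℂ => -((d + n : ℕ) : ℂ) * X) (-((d + n : ℕ) : ℂ) * 1) (x₀ : ℂ) :=
      (hasDerivAt_id' (x₀ : ℂ)).const_mul _
    have h6 : HasDerivAt (iteratedDeriv n (Hd (d + n) ff)) 0 (-((d + n : ℕ) : ℂ) * (x₀ : ℂ)) := by
      have h7 := (outs_diff (d + n) n (-((d + n : ℕ) : ℂ) * (x₀ : ℂ))).hasDerivAt
      rw [← hd, ← hωx] at h7 ⊢
      rw [hω'] at h7
      exact h7
    have h8 := (h6.comp (x₀ : ℂ) h5).const_mul c
    have h9 := h8.deriv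
    simp only [Function.comp_def] at h9
    rw [h9]
    simp
  -- the parameter `m`
  obtain ⟨m, hm⟩ := outs_large Kt |x₀| (d + n) hKt (abs_nonneg x₀)
  rcases h3 d n m (x₀ : ℂ) hd1 hJ0 hJ1 with ⟨k, hk1, hkm, hne, hsum⟩ | hmul
  · -- first alternative
    have hcast : ((d + k : ℕ) : ℝ) + n = D + k := by
      rw [hd]; push_cast; ring
    have hk0 : (0 : ℝ) ≤ k := Nat.cast_nonneg k
    have hD'1 : D1 ≤ ((d + k + n : ℕ) : ℝ) := by
      push_cast at hcast ⊢; linarith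
    have hDle : (D : ℝ) ≤ ((d + k + n : ℕ) : ℝ) := by
      push_cast at hcast ⊢; linarith
    have hlog : (n : ℝ) ≤ A * Real.log ((d + k + n : ℕ) : ℝ) :=
      hn.trans (mul_le_mul_of_nonneg_left (Real.log_le_log hD0 hDle) (by linarith))
    obtain ⟨hcnt, _, _⟩ := hnum ((d + k + n : ℕ) : ℝ) n (hDD2.trans hDle) hn0 hlog
    set D' : ℝ := ((d + k + n : ℕ) : ℝ) with hD'
    have hD'0 : 0 < D' := lt_of_lt_of_le hD0 hDle
    have hD'e : D' - n = ((d + k : ℕ) : ℝ) := by rw [hD']; push_cast; ring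
    -- nonreal roots are small
    have hsmall : ∀ X ∈ (Jp (d + k) n).roots, X.im ≠ 0 → ‖X‖ ≤ ρ := by
      intro X hX hXi
      have hX0 : Jen (d + k) n X = 0 := by
        rw [← Jp_eval]
        exact (mem_roots (Jp_ne (d + k) n)).1 hX
      obtain ⟨c, hc, hlink⟩ := h2 (d + k) n (by omega)
      rw [hlink] at hX0
      have h5 := (mul_eq_zero.1 hX0).resolve_left hc
      have h6 : (-((d + k + n : ℕ) : ℂ) * X).im ≠ 0 := by
        have e : (-((d + k + n : ℕ) : ℂ) * X).im = -((d + k + n : ℕ) : ℝ) * X.im := by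
          rw [Complex.mul_im]
          simp
        rw [e]
        exact mul_ne_zero (neg_ne_zero.2 hD'0.ne') hXi
      have h7 := hout (d + k + n) n hD'1 (by omega) _ h5 h6
      rw [norm_mul, norm_neg, Complex.norm_natCast] at h7
      have h8 : D' * ‖X‖ ≤ D' * ρ := by
        calc D' * ‖X‖ ≤ K1 * D' * s := h7
          _ = _ := by rw [hρ]; ring
      exact le_of_mul_le_mul_left h8 hD'0
    have hXne : ∀ X ∈ (Jp (d + k) n).roots, X ≠ (x₀ : ℂ) := by
      intro X hX h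
      apply hne
      rw [← h, ← Jp_eval]
      exact (mem_roots (Jp_ne (d + k) n)).1 hX
    classical
    have hMcard : ((((Jp (d + k) n).roots.filter fun X => ‖X‖ ≤ ρ).card : ℕ) : ℝ) ≤
        Kt * (Real.sqrt (K1 * (Real.sqrt n + 1) * D') + 2) *
        Real.log (Real.sqrt (K1 * (Real.sqrt n + 1) * D') + 2) := by
      apply htot (d + k) n _ _ _ (Multiset.filter_le _ _)
      · intro X hX
        have hXρ := (Multiset.mem_filter.1 hX).2
        have h5 : ‖X‖ * (((d + k : ℕ) : ℝ) + n) ≤ ρ * D' := by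
          have e : ((d + k : ℕ) : ℝ) + n = D' := by rw [hD']; push_cast; ring
          rw [e]
          exact mul_le_mul_of_nonneg_right hXρ hD'0.le
        have h6 : Real.sqrt (K1 * (Real.sqrt n + 1) * D') ^ 2 = ρ * D' :=
          Real.sq_sqrt (by positivity)
        have h7 := Real.sqrt_nonneg (K1 * (Real.sqrt n + 1) * D')
        nlinarith
      · have h7 := Real.sqrt_nonneg (K1 * (Real.sqrt n + 1) * D')
        linarith
    have hlow := outs_sum (fun X => (X / ((x₀ : ℂ) - X)) ^ 2) (fun X => ‖X‖ ≤ ρ)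
      ((ρ / x₀) ^ 2 / 4) (4 * (ρ / x₀) ^ 2) (Jp (d + k) n).roots
      (fun X _ hXρ => outs_term_small hρ0 hx₀ρ hXρ)
      (by
        intro X hX hXρ
        have hXi : X.im = 0 := by
          by_contra h
          exact hXρ (hsmall X hX h)
        have e : X = ((X.re : ℝ) : ℂ) := by
          apply Complex.ext
          · simp
          · simp [hXi]
        have hne' : X.re ≠ x₀ := by
          intro h
          apply hXne X hX
          rw [e, h]
        have h5 := (outs_term_real hρ0 hx₀ρ hne').2 (by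
          rw [e, Complex.norm_real, Real.norm_eq_abs] at hXρ
          exact not_le.1 hXρ)
        have h6 : ((X / ((x₀ : ℂ) - X)) ^ 2) = (((X.re / (x₀ - X.re)) ^ 2 : ℝ) : ℂ) := by
          rw [e]
          push_cast
          rfl
        rw [h6, Complex.ofReal_re]
        exact h5)
    rw [hsum, Complex.zero_re, Jp_card, ← hD'e] at hlow
    have hr0 : 0 < (ρ / x₀) ^ 2 := by
      have : x₀ ≠ 0 := by
        intro h
        rw [h, abs_zero] at hx₀ρ
        linarith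
      positivity
    set M : ℝ := ((((Jp (d + k) n).roots.filter fun X => ‖X‖ ≤ ρ).card : ℕ) : ℝ) with hM
    have h17 : 17 * M < D' - n := by linarith
    have : 0 < (ρ / x₀) ^ 2 * ((D' - n) / 4 - 17 / 4 * M) := by
      apply mul_pos hr0
      linarith
    linarith
  · -- second alternative
    have hrep : Multiset.replicate (m + 2) (x₀ : ℂ) ≤ (Jp (d + m) n).roots := by
      classical
      rw [← Multiset.le_count_iff_replicate_le, count_roots]
      exact hmul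
    have h5 := htot (d + m) n (Real.sqrt (|x₀| * (m + ((d + n : ℕ) : ℝ))) + 2) _ (by
      have h7 := Real.sqrt_nonneg (|x₀| * (m + ((d + n : ℕ) : ℝ)))
      linarith) hrep (by
      intro X hX
      rw [Multiset.eq_of_mem_replicate hX, Complex.norm_real, Real.norm_eq_abs]
      have h6 : Real.sqrt (|x₀| * (m + ((d + n : ℕ) : ℝ))) ^ 2 =
          |x₀| * (m + ((d + n : ℕ) : ℝ)) := Real.sq_sqrt (by positivity)
      have h7 := Real.sqrt_nonneg (|x₀| * (m + ((d + n : ℕ) : ℝ)))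
      have h8 : |x₀| * (((d + m : ℕ) : ℝ) + n) = |x₀| * (m + ((d + n : ℕ) : ℝ)) := by
        push_cast; ring
      rw [h8]
      nlinarith)
    rw [Multiset.card_replicate] at h5
    push_cast at h5 hm
    linarith

end Pool.Agent.Lib.MP_cd509c_nt.JD
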