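import Pool.Agent.Lib.MP_cd509c_nt.JD.Defs

/-!
Piece pair: quadratic factors act as differential operators.
-/

set_option autoImplicit false

namespace Pool.Agent.Lib.MP_cd509c_nt.JD

open Complex Polynomial

theorem jd_pair_diff {g : ℂ → ℂ} (hg : Differentiable ℂ g) (k : ℕ) :
    Differentiable ℂ (iteratedDeriv k g) :=
  (hg.contDiff (n := ⊤)).differentiable_iteratedDeriv k (by exact_mod_cast WithTop.coe_lt_top _)

theorem jd_pair_iter {g : ℂ → ℂ} (hg : Differentiable ℂ g) : ∀ k : ℕ,
    iteratedDeriv (k + 1) (fun w => w * g w) =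
      fun w => w * iteratedDeriv (k + 1) g w + ((k : ℂ) + 1) * iteratedDeriv k g w
  | 0 => by
    funext w
    rw [iteratedDeriv_one, iteratedDeriv_one, iteratedDeriv_zero]
    have h : HasDerivAt (fun w : ℂ => w * g w) (1 * g w + w * deriv g w) w :=
      (hasDerivAt_id w).mul (hg w).hasDerivAt
    rw [h.deriv]
    push_cast
    ring
  | (k + 1) => by
    funext w
    rw [iteratedDeriv_succ, jd_pair_iter hg k]
    have h1 : HasDerivAt (iteratedDeriv (k + 1) g) (iteratedDeriv (k + 2) g w) w := by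
      rw [iteratedDeriv_succ (n := k + 1)]
      exact (jd_pair_diff hg (k + 1) w).hasDerivAt
    have h2 : HasDerivAt (iteratedDeriv k g) (iteratedDeriv (k + 1) g w) w := by
      rw [iteratedDeriv_succ (n := k)]
      exact (jd_pair_diff hg k w).hasDerivAt
    have h3 : HasDerivAt (fun w : ℂ => w * iteratedDeriv (k + 1) g w +
        ((k : ℂ) + 1) * iteratedDeriv k g w)
        ((1 * iteratedDeriv (k + 1) g w + w * iteratedDeriv (k + 2) g w) +
          ((k : ℂ) + 1) * iteratedDeriv (k + 1) g w) w :=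
      ((hasDerivAt_id w).mul h1).add (h2.const_mul _)
    rw [h3.deriv]
    push_cast
    ring

theorem jd_pair_X {g : ℂ → ℂ} (hg : Differentiable ℂ g) (D : ℕ) :
    PgP D (fun w => w * g w) = (PgP D g).derivative := by
  unfold PgP
  rw [derivative_sum, Finset.sum_range_succ' _ D, Finset.sum_range_succ _ D]
  have e0 : (C ((D.choose 0 : ℂ) * iteratedDeriv 0 (fun w => w * g w) 0) * X ^ (D - 0) : ℂ[X]) = 0 := by
    rw [iteratedDeriv_zero, zero_mul, mul_zero, C_0, zero_mul]
  have e1 : derivative (C ((D.choose D : ℂ) * iteratedDeriv D g 0) * X ^ (D - D) : ℂ[X]) = 0 := by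
    rw [Nat.sub_self, pow_zero, mul_one, derivative_C]
  rw [e0, e1, add_zero, add_zero]
  apply Finset.sum_congr rfl
  intro j hj
  have hjD : j < D := Finset.mem_range.mp hj
  rw [jd_pair_iter hg j, derivative_C_mul, derivative_X_pow]
  have h1 : D - (j + 1) = D - j - 1 := by omega
  have h2 : ((D.choose (j + 1) : ℂ)) * ((j : ℂ) + 1) = (D.choose j : ℂ) * ((D - j : ℕ) : ℂ) := by
    exact_mod_cast Nat.choose_succ_right_eq D j
  rw [h1, ← mul_assoc, ← C_mul]
  congr 2
  simp only [zero_mul, zero_add]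
  rw [← mul_assoc, h2]
  ring

theorem jd_pair_add {f g : ℂ → ℂ} (hf : Differentiable ℂ f) (hg : Differentiable ℂ g) (D : ℕ) :
    PgP D (fun w => f w + g w) = PgP D f + PgP D g := by
  unfold PgP
  rw [← Finset.sum_add_distrib]
  apply Finset.sum_congr rfl
  intro k _
  have h : iteratedDeriv k (fun w => f w + g w) 0 = iteratedDeriv k f 0 + iteratedDeriv k g 0 :=
    iteratedDeriv_fun_add ((hf.contDiff (n := ⊤)).contDiffAt.of_le (by exact_mod_cast le_top))
      ((hg.contDiff (n := ⊤)).contDiffAt.of_le (by exact_mod_cast le_top))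
  rw [h, mul_add, C_add, add_mul]

theorem jd_pair_mul {g : ℂ → ℂ} (hg : Differentiable ℂ g) (c : ℂ) (D : ℕ) :
    PgP D (fun w => c * g w) = C c * PgP D g := by
  unfold PgP
  rw [Finset.mul_sum]
  apply Finset.sum_congr rfl
  intro k _
  have h : iteratedDeriv k (fun w => c * g w) 0 = c * iteratedDeriv k g 0 :=
    iteratedDeriv_const_mul_field c g
  rw [h, ← mul_assoc (C c), ← C_mul]
  congr 2
  ring

theorem p_pair : S_pair := by
  intro D g a ε hg
  have h1 : Differentiable ℂ (fun w => w * g w) := differentiable_id.mul hg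
  have h2 : Differentiable ℂ (fun w => w * (w * g w)) := differentiable_id.mul h1
  have h3 : Differentiable ℂ (fun w => (-(2 * a : ℂ)) * (w * g w)) := h1.const_mul _
  have h4 : Differentiable ℂ (fun w => ((a : ℂ) ^ 2 + (ε : ℂ) ^ 2) * g w) := hg.const_mul _
  have e : (fun w : ℂ => ((w - a) ^ 2 + (ε : ℂ) ^ 2) * g w) =
      fun w => (w * (w * g w) + (-(2 * a : ℂ)) * (w * g w)) + ((a : ℂ) ^ 2 + (ε : ℂ) ^ 2) * g w := by
    funext w; ring
  have h5 : Differentiable ℂ (fun w => w * (w * g w) + (-(2 * a : ℂ)) * (w * g w)) := h2.add h3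
  rw [e, jd_pair_add h5 h4, jd_pair_add h2 h3, jd_pair_X h1, jd_pair_X hg,
    jd_pair_mul h1, jd_pair_mul hg, jd_pair_X hg, C_neg]
  ring

end Pool.Agent.Lib.MP_cd509c_nt.JD
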