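import Pool.Agent.Lib.MP_cd509c_nt.JD.StmK

/-!
# JD: pointwise bound of the integrand, far part
-/

set_option autoImplicit false

namespace Pool.Agent.Lib.MP_cd509c_nt.JD

open Complex ComplexConjugate MeasureTheory
open Pool.Agent.Lib.MP_cd509c_nt.DN

theorem ptF_rot (x a : ℝ) (ha : a ≠ 0) (w v : ℂ) :
    om x a w * cexp (-(2 * a * v / x * I)) = om x a (Wp x a w v) := by
  unfold om Wp
  have ha' : (a : ℂ) ≠ 0 := by exact_mod_cast ha
  have h : 2 * I * (a : ℂ) * x * (I * x / (2 * a)) = -(x : ℂ) ^ 2 := by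
    have : 2 * I * (a : ℂ) * x * (I * x / (2 * a)) = (I * I) * (x : ℂ) ^ 2 := by
      field_simp
    rw [this, I_mul_I]
    ring
  generalize hE : cexp (-(2 * a * v / x * I)) = E
  have e1 : (x : ℂ) ^ 2 - 2 * I * a * x * (w * E + I * x / (2 * a) * (E - 1)) =
      (x : ℂ) ^ 2 - 2 * I * a * x * w * E -
        (2 * I * (a : ℂ) * x * (I * x / (2 * a))) * (E - 1) := by ring
  rw [e1, h]
  ring

theorem ptF_conj (x a : ℝ) (w : ℂ) : om x a (-conj w) = conj (om x a w) := by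
  unfold om
  simp only [map_sub, map_mul, map_pow, conj_ofReal, conj_I, map_ofNat]
  ring

theorem ptF_E (x a v : ℝ) :
    cexp (-(2 * a * v / x * I)) = cexp (I * ((-(2 * a * v / x) : ℝ) : ℂ)) := by
  congr 1
  push_cast
  ring

theorem ptF_E1 (x a v : ℝ) : ‖cexp (-(2 * a * (v : ℂ) / x * I))‖ = 1 := by
  rw [ptF_E, mul_comm I]
  exact Complex.norm_exp_ofReal_mul_I _

theorem ptF_Ed (x a v : ℝ) (ha : 0 < a) (hx : 0 < x) :
    ‖cexp (-(2 * a * (v : ℂ) / x * I)) - 1‖ ≤ 2 * a * |v| / x := by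
  rw [ptF_E]
  refine (Real.norm_exp_I_mul_ofReal_sub_one_le).trans ?_
  rw [Real.norm_eq_abs, abs_neg, abs_div, abs_mul, abs_mul, abs_of_pos ha, abs_of_pos hx]
  norm_num

theorem ptF_W (x a v : ℝ) (w : ℂ) (ha : 0 < a) (hx : 0 < x) (hw : 200 * a * ‖w‖ ≤ x) :
    ‖Wp x a w v‖ ≤ ‖w‖ + 101 / 100 * |v| := by
  have e : Wp x a w v = w + (w + I * x / (2 * a)) * (cexp (-(2 * a * (v : ℂ) / x * I)) - 1) := by
    unfold Wp
    ring
  rw [e]
  refine (norm_add_le _ _).trans ?_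
  rw [norm_mul]
  have h1 : ‖w + I * x / (2 * a)‖ ≤ ‖w‖ + x / (2 * a) := by
    refine (norm_add_le _ _).trans ?_
    have : ‖I * (x : ℂ) / (2 * a)‖ = x / (2 * a) := by
      rw [norm_div, norm_mul, norm_mul, Complex.norm_I, Complex.norm_real, Complex.norm_real,
        Real.norm_of_nonneg hx.le, Real.norm_of_nonneg ha.le]
      norm_num
    rw [this]
  have h2 := ptF_Ed x a v ha hx
  have h3 : ‖w + I * x / (2 * a)‖ * ‖cexp (-(2 * a * (v : ℂ) / x * I)) - 1‖ ≤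
      (‖w‖ + x / (2 * a)) * (2 * a * |v| / x) :=
    mul_le_mul h1 h2 (norm_nonneg _) (by positivity)
  have h4 : (‖w‖ + x / (2 * a)) * (2 * a * |v| / x) = (200 * a * ‖w‖) / x * (|v| / 100) + |v| := by
    field_simp
    ring
  have h5 : (200 * a * ‖w‖) / x ≤ 1 := by
    rw [div_le_one hx]
    exact hw
  have h6 : (200 * a * ‖w‖) / x * (|v| / 100) ≤ 1 * (|v| / 100) :=
    mul_le_mul_of_nonneg_right h5 (by positivity)
  linarith

theorem ptF_nrm (w : ℂ) (r s : ℝ) (h1 : |w.re| ≤ r) (h2 : |w.im| ≤ s) : ‖w‖ ≤ r + s :=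
  (Complex.norm_le_abs_re_add_abs_im w).trans (add_le_add h1 h2)

theorem p_ptF (h1 : S_kr) : S_ptF := by
  intro C₁ B hC hB
  refine ⟨2 * C₁ * B, by nlinarith, ?_⟩
  intro ε D N b Y x a g hctx w hw v₀ hv₀ v hv1 hv2
  obtain ⟨e0, e1, N1, b1, Yb, Y0, a0, x0, ax, D1, bB, reg⟩ := hctx
  obtain ⟨w1, w2, w3⟩ := hw
  obtain ⟨u1, u2, u3⟩ := hv₀
  have hY : 0 < Y := by linarith
  have hY160 : 160 ≤ Y := by linarith
  have hN : 0 < N := by linarith
  -- sizes
  have nw : ‖w‖ ≤ 39 / 100 * Y := by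
    have h := ptF_nrm w (Y / 4 + b) (21 * b) (by rw [abs_le]; constructor <;> linarith) w3
    linarith
  have nv : ‖v₀‖ ≤ 39 / 100 * Y := by
    have h := ptF_nrm v₀ (Y / 4 + b) (21 * b) (by rw [abs_le]; constructor <;> linarith) u3
    linarith
  have haY : 1000 * a * Y ≤ x := by
    have h2 : 1000 * a * Y * 160 ≤ 1000 * a * Y * Y :=
      mul_le_mul_of_nonneg_left hY160 (by positivity)
    have h3 : ε * x ≤ 1 / 100 * x := mul_le_mul_of_nonneg_right e1 x0.le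
    nlinarith
  have hav : 200 * a * ‖v₀‖ ≤ x := by
    have h2 : 200 * a * ‖v₀‖ ≤ 200 * a * (39 / 100 * Y) :=
      mul_le_mul_of_nonneg_left nv (by positivity)
    nlinarith [mul_pos a0 hY]
  have hYC : 200 * C₁ * B ≤ Y := by
    have : ε * Y ≤ 1 / 100 * Y := mul_le_mul_of_nonneg_right e1 hY.le
    linarith
  -- the rotated point
  set w' : ℂ := Wp x a v₀ v with hw'
  have hrot : om x a v₀ * cexp (-(2 * a * (v : ℂ) / x * I)) = om x a w' :=
    ptF_rot x a a0.ne' v₀ v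
  have nw' : ‖w'‖ ≤ ‖v₀‖ + 101 / 100 * |v| := ptF_W x a v v₀ a0 x0 hav
  have nom : x ^ 2 / 2 ≤ ‖om x a w'‖ := by
    rw [← hrot, norm_mul, ptF_E1, mul_one]
    have h2 : ‖(x : ℂ) ^ 2‖ - ‖2 * I * a * x * v₀‖ ≤ ‖om x a v₀‖ := norm_sub_norm_le _ _
    have h3 : ‖(x : ℂ) ^ 2‖ = x ^ 2 := by
      rw [norm_pow, Complex.norm_real, Real.norm_of_nonneg x0.le]
    have h4 : ‖2 * I * a * x * v₀‖ = 2 * a * x * ‖v₀‖ := by
      rw [norm_mul, norm_mul, norm_mul, norm_mul, Complex.norm_I, Complex.norm_real,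
        Complex.norm_real, Real.norm_of_nonneg x0.le, Real.norm_of_nonneg a0.le]
      norm_num
    rw [h3, h4] at h2
    have h5 : 200 * a * ‖v₀‖ * x ≤ x * x := mul_le_mul_of_nonneg_right hav x0.le
    nlinarith
  -- reflection
  obtain ⟨w'', hre, hnorm, hnom, hg⟩ : ∃ w'' : ℂ, 0 ≤ w''.re ∧ ‖w''‖ = ‖w'‖ ∧
      ‖om x a w''‖ = ‖om x a w'‖ ∧ ‖g (om x a w'')‖ = ‖g (om x a w')‖ := by
    by_cases h : 0 ≤ w'.re
    · exact ⟨w', h, rfl, rfl, rfl⟩
    · refine ⟨-conj w', ?_, ?_, ?_, ?_⟩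
      · simp only [neg_re, conj_re]
        linarith
      · rw [norm_neg, RCLike.norm_conj]
      · rw [ptF_conj, RCLike.norm_conj]
      · rw [ptF_conj, reg.real, RCLike.norm_conj]
  have hglob := reg.glob w w'' (by linarith) (by linarith) (by linarith) hre
    (by rw [hnom]; exact nom)
  rw [hg] at hglob
  -- the kernel
  have hD0 : (0 : ℝ) < D := by exact_mod_cast D1
  have hk := ((h1 D N x a D1 hN a0 x0).2 v hv2).1
  have hβ0 : 0 < bet D N x a := by
    unfold bet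
    positivity
  have hβB : bet D N x a ≤ B := by
    unfold bet
    rw [div_le_iff₀ (by positivity)]
    linarith
  set β := bet D N x a with hβ
  -- conclusion
  unfold FF
  rw [norm_mul, hrot]
  have hd : ‖w'' - w‖ + Y ≤ 457 / 100 * |v| := by
    have h2 : ‖w'' - w‖ ≤ ‖w''‖ + ‖w‖ := norm_sub_le _ _
    rw [hnorm] at h2
    linarith
  have hmain : C₁ * N * (‖w'' - w‖ + Y) - N * v ^ 2 / (5 * β) ≤
      N * (v₀.re - w.re) - N * v ^ 2 / (10 * β) := by
    have k1 : C₁ * N * (‖w'' - w‖ + Y) ≤ C₁ * N * (457 / 100 * |v|) :=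
      mul_le_mul_of_nonneg_left hd (by positivity)
    have k2 : -(52 / 100 * |v|) ≤ v₀.re - w.re := by linarith
    have k3 : N * (-(52 / 100 * |v|)) ≤ N * (v₀.re - w.re) :=
      mul_le_mul_of_nonneg_left k2 hN.le
    have k4 : N * v ^ 2 / (5 * β) = N * v ^ 2 / (10 * β) + N * (v ^ 2 / (10 * β)) := by
      field_simp
      ring
    have k5 : 509 / 100 * C₁ * |v| ≤ v ^ 2 / (10 * β) := by
      rw [le_div_iff₀ (by positivity)]
      have k6 : 509 / 10 * C₁ * β ≤ |v| := by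
        have : C₁ * β ≤ C₁ * B := mul_le_mul_of_nonneg_left hβB (by linarith)
        have h7 : 0 < C₁ * B := by positivity
        nlinarith
      have k7 : 509 / 10 * C₁ * β * |v| ≤ |v| * |v| :=
        mul_le_mul_of_nonneg_right k6 (abs_nonneg v)
      have k8 : |v| * |v| = v ^ 2 := by
        rw [← sq, sq_abs]
      rw [k8] at k7
      linarith
    have k6 : C₁ * N * (457 / 100 * |v|) + N * (52 / 100 * |v|) ≤ N * (v ^ 2 / (10 * β)) := by
      have k9 : 457 / 100 * C₁ * |v| + 52 / 100 * |v| ≤ v ^ 2 / (10 * β) := by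
        have : |v| ≤ C₁ * |v| := le_mul_of_one_le_left (abs_nonneg v) hC
        linarith
      have k10 := mul_le_mul_of_nonneg_left k9 hN.le
      linarith
    linarith
  calc ‖kD D (-(2 * a * (v : ℂ) / x))‖ * ‖g (om x a w')‖
      ≤ Real.exp (-(N * v ^ 2 / (5 * β))) *
        (Real.exp (C₁ * N * (‖w'' - w‖ + Y)) * ‖g (om x a w)‖) :=
        mul_le_mul hk hglob (norm_nonneg _) (Real.exp_nonneg _)
    _ = ‖g (om x a w)‖ * Real.exp (C₁ * N * (‖w'' - w‖ + Y) - N * v ^ 2 / (5 * β)) := by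
        rw [sub_eq_add_neg (C₁ * N * (‖w'' - w‖ + Y)), Real.exp_add]
        ring
    _ ≤ ‖g (om x a w)‖ * Real.exp (N * (v₀.re - w.re) - N * v ^ 2 / (10 * β)) :=
        mul_le_mul_of_nonneg_left (Real.exp_le_exp.mpr hmain) (norm_nonneg _)

end Pool.Agent.Lib.MP_cd509c_nt.JD
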