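import Pool.Agent.Lib.MP_cd509c_nt.JD.StmK

set_option autoImplicit false

/-!
Pointwise bound of the integrand, near part.
-/

namespace Pool.Agent.Lib.MP_cd509c_nt.JD

open Complex ComplexConjugate MeasureTheory
open Pool.Agent.Lib.MP_cd509c_nt.DN

lemma ptU_refl (x a : ℝ) (w : ℂ) : om x a (-conj w) = conj (om x a w) := by
  unfold om
  simp only [map_sub, map_mul, map_pow, conj_ofReal, conj_I, map_ofNat]
  ring

lemma ptU_norm (z : ℂ) (c : ℝ) (h1 : |z.re| ≤ c) (d : ℝ) (h2 : |z.im| ≤ d) : ‖z‖ ≤ c + d :=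
  (Complex.norm_le_abs_re_add_abs_im z).trans (add_le_add h1 h2)

/-- the reflected point is closer -/
lemma ptU_closer {w w' : ℂ} (hw : 0 ≤ w.re) : ‖(⟨|w'.re|, w'.im⟩ : ℂ) - w‖ ≤ ‖w' - w‖ := by
  rw [Complex.norm_def, Complex.norm_def]
  apply Real.sqrt_le_sqrt
  rw [Complex.normSq_apply, Complex.normSq_apply]
  simp only [sub_re, sub_im]
  have h1 : |(|w'.re| - w.re)| ≤ |w'.re - w.re| := by
    have := abs_abs_sub_abs_le_abs_sub w'.re w.re
    rwa [abs_of_nonneg hw] at this
  have h2 := mul_self_le_mul_self (abs_nonneg _) h1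
  rw [abs_mul_abs_self, abs_mul_abs_self] at h2
  linarith

theorem p_ptU (h1 : S_wp) (h2 : S_kr) : S_ptU := by
  intro C₁ B hC₁ hB
  refine ⟨1, le_rfl, ?_⟩
  intro ε D N b Y x a g hc w hw v₀ hv₀ v hv
  obtain ⟨hw1, hw2, hw3⟩ := hw
  obtain ⟨hv1, hv2, hv3⟩ := hv₀
  have he0 := hc.e0
  have he1 := hc.e1
  have hN1 := hc.N1
  have hb1 := hc.b1
  have hYb := hc.Yb
  have ha0 := hc.a0
  have hx0 := hc.x0
  have hax := hc.ax
  have hD1 := hc.D1
  have hY160 : 160 ≤ Y := by linarith
  have hY0 : 0 < Y := by linarith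
  have hv0 : 0 ≤ |v| := abs_nonneg v
  -- smallness of `a / x`
  have haY : a * Y ^ 2 / x ≤ ε / 1000 := by
    rw [div_le_iff₀ hx0]
    linarith
  have haYx : 1000 * (a * Y) ≤ x := by
    have h3 : 1000 * a * Y ^ 2 ≤ x := by nlinarith
    nlinarith [mul_pos ha0 hY0]
  have h8 : 8 * a * ‖(v : ℂ)‖ ≤ x := by
    rw [Complex.norm_real, Real.norm_eq_abs]
    nlinarith
  obtain ⟨hom, hWp, -, -⟩ := h1 x a v₀ v ha0 hx0 h8
  set w' : ℂ := Wp x a v₀ v with hw'
  set η : ℝ := ε / 100 with hη
  have hv₀n : ‖v₀‖ ≤ Y / 2 := by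
    have := ptU_norm v₀ (Y / 4 + b) (by rw [abs_of_nonneg hv1]; exact hv2) (21 * b) hv3
    linarith
  have hdist : ‖w' - (v₀ + v)‖ ≤ η := by
    refine hWp.trans ?_
    rw [Complex.norm_real, Real.norm_eq_abs]
    have h4 : 4 * a * |v| * (|v| + ‖v₀‖) ≤ 2 * (a * Y ^ 2) := by
      have h5 : |v| * (|v| + ‖v₀‖) ≤ Y / 2 * Y := by
        apply mul_le_mul hv (by linarith) (by positivity) (by positivity)
      nlinarith
    calc 4 * a * |v| * (|v| + ‖v₀‖) / x ≤ 2 * (a * Y ^ 2) / x := by
          apply div_le_div_of_nonneg_right h4 hx0.le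
      _ = 2 * (a * Y ^ 2 / x) := by ring
      _ ≤ 2 * (ε / 1000) := by linarith
      _ ≤ η := by rw [hη]; linarith
  have hre : |w'.re - (v₀.re + v)| ≤ η := by
    have := (Complex.abs_re_le_norm (w' - (v₀ + v))).trans hdist
    simpa using this
  have him : |w'.im - v₀.im| ≤ η := by
    have := (Complex.abs_im_le_norm (w' - (v₀ + v))).trans hdist
    simpa using this
  have hη1 : η ≤ 1 := by rw [hη]; linarith
  have hη0 : 0 < η := by rw [hη]; linarith
  have hre2 : |w'.re| ≤ v₀.re + |v| + η := by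
    have h5 := abs_le.mp hre
    have h6 := le_abs_self v
    have h7 := neg_abs_le v
    rw [abs_le]
    constructor <;> linarith
  have him2 : |w'.im| ≤ 24 * b := by
    have h5 := abs_le.mp him
    have h6 := abs_le.mp hv3
    rw [abs_le]
    constructor <;> linarith
  -- the reflected point
  set w'' : ℂ := ⟨|w'.re|, w'.im⟩ with hw''
  have hg : ‖g (om x a w'')‖ = ‖g (om x a w')‖ := by
    rcases le_total 0 w'.re with h | h
    · have : w'' = w' := by
        rw [hw'', abs_of_nonneg h]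
      rw [this]
    · have : w'' = -conj w' := by
        apply Complex.ext
        · simp [hw'', abs_of_nonpos h]
        · simp [hw'']
      rw [this, ptU_refl, hc.reg.real, RCLike.norm_conj]
  have hlin := hc.reg.lin w w'' (by linarith) (by linarith) (by linarith) (by simp [hw''])
    (by simp only [hw'']; linarith) (by simp only [hw'']; exact him2)
  rw [hg] at hlin
  have hd : ‖w'' - w‖ ≤ ‖v₀ - w‖ + |v| + η := by
    refine (ptU_closer (by linarith)).trans ?_
    have h5 : w' - w = (w' - (v₀ + v)) + ((v₀ - w) + v) := by ring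
    rw [h5]
    refine (norm_add_le _ _).trans ?_
    have h6 := norm_add_le (v₀ - w) (v : ℂ)
    rw [Complex.norm_real, Real.norm_eq_abs] at h6
    linarith
  -- the kernel
  have hβ : 0 < bet D N x a := by
    unfold bet
    have : (0 : ℝ) < D := by exact_mod_cast hD1
    positivity
  have hk := ((h2 D N x a hD1 (by linarith) ha0 hx0).2 v (by
    have := Real.pi_gt_three
    nlinarith)).2
  have hq : (2 * a * v / x) ^ 2 / 12 ≤ ε := by
    have h5 : |2 * a * v / x| ≤ ε / 160 := by
      rw [abs_div, abs_mul, abs_of_pos (show (0 : ℝ) < 2 * a by linarith), abs_of_pos hx0,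
        div_le_iff₀ hx0]
      have h6 : 1000 * a * Y * Y ≤ ε * x := by
        have : 1000 * a * Y * Y = 1000 * a * Y ^ 2 := by ring
        rw [this]; exact hax
      have h7 : 1000 * a * Y * 160 ≤ 1000 * a * Y * Y := by
        apply mul_le_mul_of_nonneg_left hY160
        positivity
      have h8 : 2 * a * |v| ≤ a * Y := by nlinarith
      have h9 : 160000 * (a * Y) ≤ ε * x := by linarith
      have h10 : 0 < ε * x := mul_pos he0 hx0
      linarith
    have h6 := abs_le.mp h5
    have h7 : (2 * a * v / x) ^ 2 ≤ (ε / 160) ^ 2 := by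
      rw [← sq_abs (2 * a * v / x)]
      exact pow_le_pow_left₀ (abs_nonneg _) h5 2
    nlinarith
  have hk2 : ‖kD D (-(2 * a * v / x))‖ ≤
      Real.exp (-(N * v ^ 2 / (2 * bet D N x a) * (1 - ε))) := by
    refine hk.trans (Real.exp_le_exp.mpr ?_)
    have h5 : 0 ≤ N * v ^ 2 / (2 * bet D N x a) := by positivity
    have h6 := mul_le_mul_of_nonneg_left (show 1 - ε ≤ 1 - (2 * a * v / x) ^ 2 / 12 by linarith) h5
    linarith
  unfold FF
  rw [hom, norm_mul]
  refine (mul_le_mul hk2 hlin (norm_nonneg _) (Real.exp_pos _).le).trans ?_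
  rw [← mul_assoc, ← Real.exp_add, mul_comm]
  apply mul_le_mul_of_nonneg_left _ (norm_nonneg _)
  apply Real.exp_le_exp.mpr
  have e1 : w''.re ≤ v₀.re + |v| + η := hre2
  have e2 : N * (w''.re - w.re) ≤ N * (v₀.re - w.re) + N * |v| + N * η := by
    have := mul_le_mul_of_nonneg_left e1 (show 0 ≤ N by linarith)
    linarith
  have e3 : ε * N * ‖w'' - w‖ ≤ ε * N * (‖v₀ - w‖ + |v| + η) := by
    apply mul_le_mul_of_nonneg_left hd
    have : 0 ≤ N := by linarith
    positivity
  have e4 : 0 ≤ ε * N * ‖v₀ - w‖ := by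
    have : 0 ≤ N := by linarith
    positivity
  have e5 : 0 ≤ ε * N * |v| := by
    have : 0 ≤ N := by linarith
    positivity
  have e6 : N * η = ε * N / 100 := by rw [hη]; ring
  have e7 : ε * N * η ≤ ε * N := by
    have : 0 ≤ ε * N := by
      have : 0 ≤ N := by linarith
      positivity
    nlinarith
  have e8 : N * v ^ 2 / (2 * bet D N x a) * (1 - ε) =
      N * ((1 - ε) * v ^ 2 / (2 * bet D N x a)) := by ring
  have e9 : 0 ≤ ε * N := by
    have : 0 ≤ N := by linarith
    positivity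
  rw [e8]
  nlinarith

end Pool.Agent.Lib.MP_cd509c_nt.JD
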