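import Pool.Agent.Lib.MP_cd509c_nt.JD.StmK
import Pool.Agent.Lib.MP_cd509c_nt.DN.P.reg1
import Pool.Agent.Lib.MP_cd509c_nt.DN.P.reg2

/-!
# Project JD, piece reg2w (helper37): chaining of the scales, wide form
-/

set_option autoImplicit false

namespace Pool.Agent.Lib.MP_cd509c_nt.JD

open Complex ComplexConjugate MeasureTheory Metric
open Pool.Agent.Lib.MP_cd509c_nt.DN

/-- local step with the radius `b / 24` -/
theorem reg2w_reg1 (ε b l x : ℝ) (hε : 0 < ε) (hb : 0 < b) (hl : 0 < l) (hG : DN.Good ε x b l)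
    (w v : ℂ) (h1 : b / 6 ≤ w.re) (h2 : w.re ≤ 399 * b) (h3 : |w.im - x| ≤ 399 * b)
    (h4 : ‖v - w‖ ≤ b / 48) : ‖LL v‖ ≤ Real.exp (96 * ε * l * ‖v - w‖) * ‖LL w‖ := by
  have hLL : Differentiable ℂ LL := by
    unfold LL
    exact Lf_differentiable.comp (differentiable_id.const_add 6)
  set R : ℝ := b / 24 with hRd
  have hR : 0 < R := by positivity
  -- the ball lies in the good box
  have hbox : ∀ z ∈ ball w R, b / 8 ≤ z.re ∧ z.re ≤ 400 * b ∧ |z.im - x| ≤ 400 * b := by
    intro z hz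
    rw [mem_ball, dist_eq_norm] at hz
    have k1 : |z.re - w.re| < R := by
      have := Complex.abs_re_le_norm (z - w)
      rw [Complex.sub_re] at this
      linarith
    have k2 : |z.im - w.im| < R := by
      have := Complex.abs_im_le_norm (z - w)
      rw [Complex.sub_im] at this
      linarith
    rw [abs_lt] at k1 k2
    rw [abs_le] at h3 ⊢
    refine ⟨by linarith, by linarith, by linarith, by linarith⟩
  have hw : w ∈ ball w R := mem_ball_self hR
  obtain ⟨w1, w2, w3⟩ := hbox w hw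
  have h0 : ∀ z ∈ ball w R, LL z ≠ 0 := by
    intro z hz
    obtain ⟨z1, z2, z3⟩ := hbox z hz
    exact (hG w z (by linarith) w2 w3 z1 z2 z3).1
  obtain ⟨g, hg0, hg, hgz⟩ := dn_reg1_log hR hLL.differentiableOn h0
  -- the real part
  have hre : ∀ z ∈ ball w R, (g z).re ≤ ε * b * l := by
    intro z hz
    obtain ⟨z1, z2, z3⟩ := hbox z hz
    have k := (hG z w (by linarith) z2 z3 w1 w2 w3).2
    rw [hgz z hz, norm_mul, Complex.norm_exp, mul_comm] at k
    have k2 := le_of_mul_le_mul_right k (norm_pos_iff.2 (h0 w hw))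
    exact Real.exp_le_exp.1 k2
  -- Borel-Caratheodory
  have hv : v ∈ ball w R := by
    rw [mem_ball, dist_eq_norm]
    have : b / 48 < R := by rw [hRd]; linarith
    linarith
  have hM : 0 < ε * b * l := by positivity
  have key := Complex.borelCaratheodory_zero (f := fun z => g (w + z)) (z := v - w) (R := R) hM
    (by
      refine hg.comp (by fun_prop) ?_
      intro z hz
      rw [mem_ball_zero_iff] at hz
      rw [mem_ball, dist_eq_norm, add_sub_cancel_left]
      exact hz)
    (by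
      intro z hz
      rw [mem_ball_zero_iff] at hz
      refine hre (w + z) ?_
      rw [mem_ball, dist_eq_norm, add_sub_cancel_left]
      exact hz) hR
    (by
      rw [mem_ball_zero_iff]
      rw [mem_ball, dist_eq_norm] at hv
      exact hv)
    (by rw [add_zero]; exact hg0)
  rw [add_sub_cancel] at key
  have k1 : ‖g v‖ ≤ 96 * ε * l * ‖v - w‖ := by
    refine key.trans ?_
    have k2 : b / 48 ≤ R - ‖v - w‖ := by rw [hRd]; linarith
    have k3 : 0 < R - ‖v - w‖ := by linarith
    rw [div_le_iff₀ k3]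
    have k4 : 96 * ε * l * ‖v - w‖ * (b / 48) ≤ 96 * ε * l * ‖v - w‖ * (R - ‖v - w‖) :=
      mul_le_mul_of_nonneg_left k2 (by positivity)
    calc 2 * (ε * b * l) * ‖v - w‖ = 96 * ε * l * ‖v - w‖ * (b / 48) := by ring
      _ ≤ _ := k4
  rw [hgz v hv, norm_mul, Complex.norm_exp, mul_comm]
  refine mul_le_mul_of_nonneg_right (Real.exp_le_exp.2 ?_) (norm_nonneg _)
  exact (Complex.re_le_norm _).trans k1

theorem p_reg2w : S_reg2w := by
  intro ε a l x i J hε ha hl hiJ hG w v hw1 hw2 hw3 hv1 hv2 hv3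
  obtain ⟨j, hij, hjJ, hj1', hj2'⟩ := dn_reg2_pick a (3 / 2 * w.re) i J hiJ (by linarith)
  have hj1 : 2 ^ j * a / 6 ≤ w.re := by linarith
  have hj2 : w.re < 2 ^ j * a / 3 ∨ j = J := by
    rcases hj2' with h | h
    · exact Or.inl (by linarith)
    · exact Or.inr h
  have hpos : ∀ k : ℕ, 0 < 2 ^ k * a := fun k => by positivity
  have hmono : ∀ k m : ℕ, k ≤ m → 2 ^ k * a ≤ 2 ^ m * a := fun k m hkm =>
    mul_le_mul_of_nonneg_right (pow_le_pow_right₀ (by norm_num) hkm) ha.le
  have hbij := hmono i j hij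
  have hbj := hpos j
  have hbi := hpos i
  -- the scale j controls w
  have hwup : w.re ≤ 200 * (2 ^ j * a) := by
    rcases hj2 with h | h
    · linarith
    · rw [h]; exact hw2
  have hwlo : 2 ^ j * a / 8 ≤ w.re := by linarith
  have hwim : |w.im - x| ≤ 97 * (2 ^ j * a) := hw3.trans (by linarith)
  have hGj := hG j hij hjJ
  have hwne : LL w ≠ 0 := (hGj w w (by linarith) (by linarith) (by linarith)
    hwlo (by linarith) (by linarith)).1
  refine ⟨hwne, ?_⟩
  by_cases hnear : ‖v - w‖ ≤ 2 ^ j * a / 48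
  · refine (reg2w_reg1 ε (2 ^ j * a) l x hε hbj hl hGj w v hj1 (by linarith) (by linarith)
      hnear).trans (mul_le_mul_of_nonneg_right (Real.exp_le_exp.mpr ?_) (norm_nonneg _))
    have h0 : 0 ≤ ε * l * ‖v - w‖ := by positivity
    nlinarith
  push Not at hnear
  have hεl : 0 < ε * l := mul_pos hε hl
  have hnn : 0 ≤ ‖LL w‖ := norm_nonneg _
  by_cases hvr : v.re ≤ 400 * (2 ^ j * a)
  · have h1 := (hGj v w hv1 hvr (hv3.trans (by linarith)) hwlo (by linarith) (by linarith)).2
    refine h1.trans (mul_le_mul_of_nonneg_right (Real.exp_le_exp.mpr ?_) hnn)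
    have h2 : ε * (2 ^ j * a) * l = ε * l * (2 ^ j * a) := by ring
    have h3 : 100 * ε * l * ‖v - w‖ = ε * l * (100 * ‖v - w‖) := by ring
    rw [h2, h3]
    exact mul_le_mul_of_nonneg_left (by linarith [norm_nonneg (v - w)]) hεl.le
  · push Not at hvr
    obtain ⟨m, hjm, hmJ, hm1, hm2⟩ := dn_reg2_pick a (v.re / 800) j J hjJ (by linarith)
    have hbm := hpos m
    have hbjm := hmono j m hjm
    have hvup : v.re ≤ 400 * (2 ^ m * a) := by
      rcases hm2 with h | h
      · linarith
      · rw [h]; have := hpos J; linarith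
    -- the chain of points b_k + i x
    have hchain : ∀ k : ℕ, j ≤ k → k ≤ J →
        ‖LL (⟨2 ^ k * a, x⟩ : ℂ)‖ ≤ Real.exp (ε * l * (2 ^ k * a)) * ‖LL w‖ := by
      intro k hk
      induction k, hk using Nat.le_induction with
      | base =>
        intro _
        have h1 := (hGj (⟨2 ^ j * a, x⟩ : ℂ) w hbj.le (by show 2 ^ j * a ≤ _; linarith)
          (by show |x - x| ≤ _; rw [sub_self, abs_zero]; linarith) hwlo (by linarith)
          (by linarith)).2
        refine h1.trans (le_of_eq ?_)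
        ring_nf
      | succ k hk ih =>
        intro hkJ
        have ih' := ih (Nat.le_of_succ_le hkJ)
        have hbk := hpos k
        have hGk := hG k (hij.trans hk) (Nat.le_of_succ_le hkJ)
        have h1 := (hGk (⟨2 ^ (k + 1) * a, x⟩ : ℂ) (⟨2 ^ k * a, x⟩ : ℂ)
          (hpos (k + 1)).le (by show 2 ^ (k + 1) * a ≤ _; rw [pow_succ]; linarith)
          (by show |x - x| ≤ _; rw [sub_self, abs_zero]; linarith)
          (by show _ ≤ 2 ^ k * a; linarith) (by show 2 ^ k * a ≤ _; linarith)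
          (by show |x - x| ≤ _; rw [sub_self, abs_zero]; linarith)).2
        calc ‖LL (⟨2 ^ (k + 1) * a, x⟩ : ℂ)‖
            ≤ Real.exp (ε * (2 ^ k * a) * l) * ‖LL (⟨2 ^ k * a, x⟩ : ℂ)‖ := h1
          _ ≤ Real.exp (ε * (2 ^ k * a) * l) * (Real.exp (ε * l * (2 ^ k * a)) * ‖LL w‖) :=
              mul_le_mul_of_nonneg_left ih' (Real.exp_pos _).le
          _ = Real.exp (ε * l * (2 ^ (k + 1) * a)) * ‖LL w‖ := by
              rw [← mul_assoc, ← Real.exp_add, pow_succ]
              congr 2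
              ring
    have hc := hchain m hjm hmJ
    have hGm := hG m (hij.trans hjm) hmJ
    have h1 := (hGm v (⟨2 ^ m * a, x⟩ : ℂ) hv1 hvup (hv3.trans (by linarith))
      (by show _ ≤ 2 ^ m * a; linarith) (by show 2 ^ m * a ≤ _; linarith)
      (by show |x - x| ≤ _; rw [sub_self, abs_zero]; linarith)).2
    have hdist : 2 ^ m * a ≤ ‖v - w‖ := by
      have h2 : |(v - w).re| ≤ ‖v - w‖ := Complex.abs_re_le_norm _
      have h3 : (v - w).re ≤ |(v - w).re| := le_abs_self _
      rw [Complex.sub_re] at h2 h3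
      rcases hj2 with h | h
      · linarith
      · exfalso
        rw [h] at hvr
        have := hpos J
        linarith
    calc ‖LL v‖ ≤ Real.exp (ε * (2 ^ m * a) * l) * ‖LL (⟨2 ^ m * a, x⟩ : ℂ)‖ := h1
      _ ≤ Real.exp (ε * (2 ^ m * a) * l) * (Real.exp (ε * l * (2 ^ m * a)) * ‖LL w‖) :=
          mul_le_mul_of_nonneg_left hc (Real.exp_pos _).le
      _ = Real.exp (ε * l * (2 * (2 ^ m * a))) * ‖LL w‖ := by
          rw [← mul_assoc, ← Real.exp_add]
          congr 2
          ring
      _ ≤ Real.exp (100 * ε * l * ‖v - w‖) * ‖LL w‖ := by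
          refine mul_le_mul_of_nonneg_right (Real.exp_le_exp.mpr ?_) hnn
          have h3 : 100 * ε * l * ‖v - w‖ = ε * l * (100 * ‖v - w‖) := by ring
          rw [h3]
          exact mul_le_mul_of_nonneg_left (by linarith) hεl.le

end Pool.Agent.Lib.MP_cd509c_nt.JD
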