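import Pool.Agent.Lib.MP_cd509c_nt.JD.Defs

/-!
# rep: integral representation of the Jensen transform

The integral is the coefficient of `ζ^D` in `g(ω ζ) e^{D ζ}` (Cauchy), computed with the Leibniz rule.
-/

set_option autoImplicit false

namespace Pool.Agent.Lib.MP_cd509c_nt.JD

open Complex ComplexConjugate MeasureTheory
open Pool.Agent.Lib.MP_cd509c_nt.DN

theorem jd_rep_leibniz (D : ℕ) (g : ℂ → ℂ) (ω : ℂ) (hg : Differentiable ℂ g) :
    iteratedDeriv D (fun ζ : ℂ => g (ω * ζ) * cexp ((D : ℂ) * ζ)) 0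
      = ∑ k ∈ Finset.range (D + 1),
          (D.choose k : ℂ) * (ω ^ k * iteratedDeriv k g 0) * (D : ℂ) ^ (D - k) := by
  have hgc : ∀ n : ℕ, ContDiff ℂ n g := fun n => hg.contDiff
  have h1 : ContDiffAt ℂ D (fun ζ : ℂ => g (ω * ζ)) 0 :=
    ((hgc D).comp (contDiff_const.mul contDiff_id)).contDiffAt
  have h2 : ContDiffAt ℂ D (fun ζ : ℂ => cexp ((D : ℂ) * ζ)) 0 :=
    (Complex.contDiff_exp.comp (contDiff_const.mul contDiff_id)).contDiffAt
  rw [iteratedDeriv_fun_mul h1 h2]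
  refine Finset.sum_congr rfl fun k _ => ?_
  rw [iteratedDeriv_comp_const_mul (hgc k) ω, iteratedDeriv_cexp_const_mul]
  simp

theorem jd_rep_circle (D : ℕ) (G : ℂ → ℂ) (hG : Differentiable ℂ G) :
    ∫ φ in (-Real.pi)..Real.pi, cexp (-((D : ℂ) * (φ * I))) * G (cexp (φ * I))
      = (2 * Real.pi / (D.factorial : ℂ)) * iteratedDeriv D G 0 := by
  have hper : Function.Periodic
      (fun φ : ℝ => cexp (-((D : ℂ) * (φ * I))) * G (cexp (φ * I))) (2 * Real.pi) := by
    intro φ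
    have e1 : cexp (((φ + 2 * Real.pi : ℝ) : ℂ) * I) = cexp (φ * I) := by
      push_cast
      rw [add_mul]
      exact Complex.exp_periodic (φ * I)
    have e2 : cexp (-((D : ℂ) * (((φ + 2 * Real.pi : ℝ) : ℂ) * I)))
        = cexp (-((D : ℂ) * (φ * I))) := by
      rw [Complex.exp_neg, Complex.exp_neg, Complex.exp_nat_mul, Complex.exp_nat_mul, e1]
    show cexp (-((D : ℂ) * (((φ + 2 * Real.pi : ℝ) : ℂ) * I))) *
      G (cexp (((φ + 2 * Real.pi : ℝ) : ℂ) * I)) = cexp (-((D : ℂ) * (φ * I))) * G (cexp (φ * I))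
    rw [e1, e2]
  have h1 := hper.intervalIntegral_add_eq (-Real.pi) 0
  rw [show -Real.pi + 2 * Real.pi = Real.pi by ring, zero_add] at h1
  rw [h1]
  have h2 := (hG.differentiableOn (s := Metric.closedBall (0 : ℂ) 1)
    ).circleIntegral_one_div_sub_center_pow_smul one_pos D
  rw [circleIntegral] at h2
  have h3 : (fun θ : ℝ => deriv (circleMap 0 1) θ •
      ((1 / (circleMap 0 1 θ - 0) ^ (D + 1)) • G (circleMap 0 1 θ)))
      = fun θ : ℝ => I * (cexp (-((D : ℂ) * (θ * I))) * G (cexp (θ * I))) := by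
    funext θ
    have hc : circleMap 0 1 θ = cexp (θ * I) := by
      simp [circleMap]
    have hne : cexp (θ * I) ≠ 0 := Complex.exp_ne_zero _
    rw [deriv_circleMap, hc, sub_zero, Complex.exp_neg, Complex.exp_nat_mul, smul_eq_mul,
      smul_eq_mul]
    field_simp
    ring
  rw [h3, intervalIntegral.integral_const_mul] at h2
  have hI : (I : ℂ) ≠ 0 := Complex.I_ne_zero
  refine mul_left_cancel₀ hI ?_
  rw [h2, smul_eq_mul]
  ring

theorem p_rep : S_rep := by
  intro D g ω hD hg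
  have hD0 : (D : ℂ) ≠ 0 := Nat.cast_ne_zero.mpr (by omega)
  have hG : Differentiable ℂ (fun ζ : ℂ => g (ω * ζ) * cexp ((D : ℂ) * ζ)) :=
    (hg.comp ((differentiable_const ω).mul differentiable_id)).mul
      (Complex.differentiable_exp.comp ((differentiable_const (D : ℂ)).mul differentiable_id))
  have hint : (∫ φ in (-Real.pi)..Real.pi, kD D φ * g (ω * cexp (φ * I)))
      = cexp (-(D : ℂ)) * ((2 * Real.pi / (D.factorial : ℂ)) *
        iteratedDeriv D (fun ζ : ℂ => g (ω * ζ) * cexp ((D : ℂ) * ζ)) 0) := by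
    rw [← jd_rep_circle D _ hG, ← intervalIntegral.integral_const_mul]
    refine intervalIntegral.integral_congr fun φ _ => ?_
    show kD D φ * g (ω * cexp (φ * I)) = cexp (-(D : ℂ)) * (cexp (-((D : ℂ) * (φ * I))) *
      (g (ω * cexp (φ * I)) * cexp ((D : ℂ) * cexp (φ * I))))
    have e : kD D φ = cexp (-(D : ℂ)) * cexp (-((D : ℂ) * (φ * I))) *
        cexp ((D : ℂ) * cexp (φ * I)) := by
      rw [kD, ← Complex.exp_add, ← Complex.exp_add]
      congr 1
      ring
    rw [e]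
    ring
  rw [hint, jd_rep_leibniz D g ω hg, Hd, Finset.mul_sum, Finset.mul_sum, Finset.mul_sum]
  refine Finset.sum_congr rfl fun k hk => ?_
  have hk' : k ≤ D := Nat.lt_succ_iff.mp (Finset.mem_range.mp hk)
  have hpi : (Real.pi : ℂ) ≠ 0 := by
    exact_mod_cast Real.pi_ne_zero
  have hfac : ((D.factorial : ℕ) : ℂ) ≠ 0 := Nat.cast_ne_zero.mpr D.factorial_ne_zero
  have hexp : cexp (D : ℂ) ≠ 0 := Complex.exp_ne_zero _
  have hc : (cD D : ℂ) = (D.factorial : ℂ) * cexp (D : ℂ) / (2 * Real.pi * (D : ℂ) ^ D) := by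
    rw [cD]
    push_cast
    rfl
  have hpow : (D : ℂ) ^ D = (D : ℂ) ^ k * (D : ℂ) ^ (D - k) := by
    rw [← pow_add, Nat.add_sub_cancel' hk']
  rw [hc, hpow, Complex.exp_neg, div_pow]
  field_simp

end Pool.Agent.Lib.MP_cd509c_nt.JD
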