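import Pool.Agent.Lib.MP_cd509c_nt.JD.Defs

/-!
# repB: the Jensen transform as a sum of two conjugate half circle integrals

The integral over the circle of radius `r` is the coefficient of `u^D` in `g(u) e^{D u / ω}`.
-/

set_option autoImplicit false

namespace Pool.Agent.Lib.MP_cd509c_nt.JD

open Complex ComplexConjugate MeasureTheory
open Pool.Agent.Lib.MP_cd509c_nt.DN

theorem jd_repB_leibniz (D : ℕ) (g : ℂ → ℂ) (s : ℂ) (hg : Differentiable ℂ g) :
    iteratedDeriv D (fun u : ℂ => g u * cexp (s * u)) 0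
      = ∑ k ∈ Finset.range (D + 1),
          (D.choose k : ℂ) * iteratedDeriv k g 0 * s ^ (D - k) := by
  have h1 : ContDiffAt ℂ D g 0 := (hg.contDiff (n := D)).contDiffAt
  have h2 : ContDiffAt ℂ D (fun u : ℂ => cexp (s * u)) 0 :=
    (Complex.contDiff_exp.comp (contDiff_const.mul contDiff_id)).contDiffAt
  rw [iteratedDeriv_fun_mul h1 h2]
  refine Finset.sum_congr rfl fun k _ => ?_
  rw [iteratedDeriv_cexp_const_mul]
  simp

theorem jd_repB_circle (D : ℕ) (G : ℂ → ℂ) (hG : Differentiable ℂ G) (r : ℝ) (hr : 0 < r) :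
    ∫ φ in (-Real.pi)..Real.pi, cexp (-((D : ℂ) * (φ * I))) * G (r * cexp (φ * I))
      = (2 * Real.pi * (r : ℂ) ^ D / (D.factorial : ℂ)) * iteratedDeriv D G 0 := by
  have hper : Function.Periodic
      (fun φ : ℝ => cexp (-((D : ℂ) * (φ * I))) * G (r * cexp (φ * I))) (2 * Real.pi) := by
    intro φ
    have e1 : cexp (((φ + 2 * Real.pi : ℝ) : ℂ) * I) = cexp (φ * I) := by
      push_cast
      rw [add_mul]
      exact Complex.exp_periodic (φ * I)
    have e2 : cexp (-((D : ℂ) * (((φ + 2 * Real.pi : ℝ) : ℂ) * I)))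
        = cexp (-((D : ℂ) * (φ * I))) := by
      rw [Complex.exp_neg, Complex.exp_neg, Complex.exp_nat_mul, Complex.exp_nat_mul, e1]
    show cexp (-((D : ℂ) * (((φ + 2 * Real.pi : ℝ) : ℂ) * I))) *
      G (r * cexp (((φ + 2 * Real.pi : ℝ) : ℂ) * I))
        = cexp (-((D : ℂ) * (φ * I))) * G (r * cexp (φ * I))
    rw [e1, e2]
  have h1 := hper.intervalIntegral_add_eq (-Real.pi) 0
  rw [show -Real.pi + 2 * Real.pi = Real.pi by ring, zero_add] at h1
  rw [h1]
  have h2 := (hG.differentiableOn (s := Metric.closedBall (0 : ℂ) r)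
    ).circleIntegral_one_div_sub_center_pow_smul hr D
  rw [circleIntegral] at h2
  have hr0 : (r : ℂ) ≠ 0 := by exact_mod_cast hr.ne'
  have h3 : (fun θ : ℝ => deriv (circleMap 0 r) θ •
      ((1 / (circleMap 0 r θ - 0) ^ (D + 1)) • G (circleMap 0 r θ)))
      = fun θ : ℝ => (I / (r : ℂ) ^ D) * (cexp (-((D : ℂ) * (θ * I))) * G (r * cexp (θ * I))) := by
    funext θ
    have hc : circleMap 0 r θ = r * cexp (θ * I) := by
      simp [circleMap]
    have hne : cexp (θ * I) ≠ 0 := Complex.exp_ne_zero _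
    rw [deriv_circleMap, hc, sub_zero, Complex.exp_neg, Complex.exp_nat_mul, smul_eq_mul,
      smul_eq_mul]
    field_simp
    ring
  rw [h3, intervalIntegral.integral_const_mul] at h2
  have hI : (I : ℂ) / (r : ℂ) ^ D ≠ 0 := div_ne_zero Complex.I_ne_zero (pow_ne_zero _ hr0)
  refine mul_left_cancel₀ hI ?_
  rw [h2, smul_eq_mul]
  field_simp

theorem jd_repB_K (p h : ℝ → ℂ) (hp : Continuous p) (hh : Continuous h) (a b : ℝ) :
    Differentiable ℂ (fun s : ℂ => ∫ ψ in a..b, cexp (s * p ψ) * h ψ) := by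
  intro s₀
  have hcF : ∀ s : ℂ, Continuous (fun ψ : ℝ => cexp (s * p ψ) * h ψ) := fun s =>
    (Complex.continuous_exp.comp (continuous_const.mul hp)).mul hh
  have hcF' : ∀ s : ℂ, Continuous (fun ψ : ℝ => (cexp (s * p ψ) * p ψ) * h ψ) := fun s =>
    ((Complex.continuous_exp.comp (continuous_const.mul hp)).mul hp).mul hh
  have hb : Continuous (fun ψ : ℝ => Real.exp ((‖s₀‖ + 1) * ‖p ψ‖) * ‖p ψ‖ * ‖h ψ‖) :=
    ((Real.continuous_exp.comp (continuous_const.mul hp.norm)).mul hp.norm).mul hh.norm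
  have key := intervalIntegral.hasDerivAt_integral_of_dominated_loc_of_deriv_le
    (μ := volume) (a := a) (b := b)
    (F := fun (s : ℂ) (ψ : ℝ) => cexp (s * p ψ) * h ψ)
    (F' := fun (s : ℂ) (ψ : ℝ) => (cexp (s * p ψ) * p ψ) * h ψ) (x₀ := s₀)
    (s := Metric.ball s₀ 1)
    (bound := fun ψ : ℝ => Real.exp ((‖s₀‖ + 1) * ‖p ψ‖) * ‖p ψ‖ * ‖h ψ‖)
    (Metric.ball_mem_nhds s₀ one_pos)
    (Filter.Eventually.of_forall fun s => (hcF s).aestronglyMeasurable)
    ((hcF s₀).intervalIntegrable a b)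
    ((hcF' s₀).aestronglyMeasurable)
    (Filter.Eventually.of_forall fun ψ _ s hs => ?_)
    (hb.intervalIntegrable a b)
    (Filter.Eventually.of_forall fun ψ _ s _ => ?_)
  · exact key.2.differentiableAt
  · have hs1 : ‖s‖ ≤ ‖s₀‖ + 1 := by
      have h1 : ‖s - s₀‖ < 1 := by
        rw [← dist_eq_norm]
        exact Metric.mem_ball.mp hs
      have h2 : ‖s‖ ≤ ‖s - s₀‖ + ‖s₀‖ := by
        have := norm_add_le (s - s₀) s₀
        rwa [sub_add_cancel] at this
      linarith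
    have h3 : ‖cexp (s * p ψ)‖ ≤ Real.exp ((‖s₀‖ + 1) * ‖p ψ‖) := by
      rw [Complex.norm_exp]
      refine Real.exp_le_exp.mpr ?_
      calc (s * p ψ).re ≤ ‖s * p ψ‖ := Complex.re_le_norm _
        _ = ‖s‖ * ‖p ψ‖ := norm_mul _ _
        _ ≤ (‖s₀‖ + 1) * ‖p ψ‖ := mul_le_mul_of_nonneg_right hs1 (norm_nonneg _)
    show ‖(cexp (s * p ψ) * p ψ) * h ψ‖ ≤ Real.exp ((‖s₀‖ + 1) * ‖p ψ‖) * ‖p ψ‖ * ‖h ψ‖
    rw [norm_mul, norm_mul]
    exact mul_le_mul_of_nonneg_right (mul_le_mul_of_nonneg_right h3 (norm_nonneg _))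
      (norm_nonneg _)
  · have h1 : HasDerivAt (fun s : ℂ => s * p ψ) (p ψ) s := by
      simpa using (hasDerivAt_id s).mul_const (p ψ)
    have h2 := (h1.cexp).mul_const (h ψ)
    exact h2

/-- the integrand on the circle of radius `r` -/
theorem jd_repB_full (D : ℕ) (g : ℂ → ℂ) (r : ℝ) (hD : 1 ≤ D) (hg : Differentiable ℂ g)
    (hr : 0 < r) (ω : ℂ) (hω : ω ≠ 0) :
    Hd D g ω = (cD D : ℂ) * ∫ φ in (-Real.pi)..Real.pi,
      cexp (D * (r * cexp (φ * I) / ω - 1)) * (ω / r) ^ D * cexp (-(D * φ * I)) *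
        g (r * cexp (φ * I)) := by
  have hD0 : (D : ℂ) ≠ 0 := Nat.cast_ne_zero.mpr (by omega)
  have hr0 : (r : ℂ) ≠ 0 := by exact_mod_cast hr.ne'
  have hG : Differentiable ℂ (fun u : ℂ => g u * cexp (((D : ℂ) / ω) * u)) :=
    hg.mul (Complex.differentiable_exp.comp ((differentiable_const _).mul differentiable_id))
  have hint : (∫ φ in (-Real.pi)..Real.pi,
      cexp (D * (r * cexp (φ * I) / ω - 1)) * (ω / r) ^ D * cexp (-(D * φ * I)) *
        g (r * cexp (φ * I)))
      = (cexp (-(D : ℂ)) * (ω / r) ^ D) * ((2 * Real.pi * (r : ℂ) ^ D / (D.factorial : ℂ)) *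
        iteratedDeriv D (fun u : ℂ => g u * cexp (((D : ℂ) / ω) * u)) 0) := by
    rw [← jd_repB_circle D _ hG r hr, ← intervalIntegral.integral_const_mul]
    refine intervalIntegral.integral_congr fun φ _ => ?_
    show cexp (D * (r * cexp (φ * I) / ω - 1)) * (ω / r) ^ D * cexp (-(D * φ * I)) *
        g (r * cexp (φ * I)) = (cexp (-(D : ℂ)) * (ω / r) ^ D) * (cexp (-((D : ℂ) * (φ * I))) *
      (g (r * cexp (φ * I)) * cexp (((D : ℂ) / ω) * (r * cexp (φ * I)))))
    have e : cexp (D * (r * cexp (φ * I) / ω - 1))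
        = cexp (-(D : ℂ)) * cexp (((D : ℂ) / ω) * (r * cexp (φ * I))) := by
      rw [← Complex.exp_add]
      congr 1
      ring
    rw [e, show (D : ℂ) * φ * I = (D : ℂ) * (φ * I) by ring]
    ring
  rw [hint, jd_repB_leibniz D g _ hg, Hd, Finset.mul_sum, Finset.mul_sum, Finset.mul_sum]
  refine Finset.sum_congr rfl fun k hk => ?_
  have hk' : k ≤ D := Nat.lt_succ_iff.mp (Finset.mem_range.mp hk)
  have hpi : (Real.pi : ℂ) ≠ 0 := by
    exact_mod_cast Real.pi_ne_zero
  have hfac : ((D.factorial : ℕ) : ℂ) ≠ 0 := Nat.cast_ne_zero.mpr D.factorial_ne_zero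
  have hexp : cexp (D : ℂ) ≠ 0 := Complex.exp_ne_zero _
  have hc : (cD D : ℂ) = (D.factorial : ℂ) * cexp (D : ℂ) / (2 * Real.pi * (D : ℂ) ^ D) := by
    rw [cD]
    push_cast
    rfl
  have hpow : (D : ℂ) ^ D = (D : ℂ) ^ k * (D : ℂ) ^ (D - k) := by
    rw [← pow_add, Nat.add_sub_cancel' hk']
  have hpowω : ω ^ D = ω ^ k * ω ^ (D - k) := by
    rw [← pow_add, Nat.add_sub_cancel' hk']
  rw [hc, hpow, Complex.exp_neg, div_pow, div_pow, div_pow, hpowω]
  field_simp

theorem p_repB : S_repB := by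
  intro D g r hD hg hr hreal
  have hgc : Continuous g := hg.continuous
  have hr0 : (r : ℂ) ≠ 0 := by exact_mod_cast hr.ne'
  refine ⟨?_, ?_, ?_⟩
  · intro ω hω
    rw [jd_repB_full D g r hD hg hr ω hω]
    have hcont : Continuous (fun φ : ℝ => cexp (D * (r * cexp (φ * I) / ω - 1)) * (ω / r) ^ D *
        cexp (-(D * φ * I)) * g (r * cexp (φ * I))) := by
      have h1 : Continuous (fun φ : ℝ => cexp (φ * I)) := by fun_prop
      have h2 : Continuous (fun φ : ℝ => cexp (-(D * φ * I))) := by fun_prop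
      have h3 : Continuous (fun φ : ℝ => cexp (D * (r * cexp (φ * I) / ω - 1))) := by fun_prop
      exact ((h3.mul continuous_const).mul h2).mul (hgc.comp (continuous_const.mul h1))
    rw [← intervalIntegral.integral_add_adjacent_intervals
      (hcont.intervalIntegrable (-Real.pi) 0) (hcont.intervalIntegrable 0 Real.pi), mul_add]
    have e1 : (cD D : ℂ) * (∫ φ in (-Real.pi)..(0 : ℝ),
        cexp (D * (r * cexp (φ * I) / ω - 1)) * (ω / r) ^ D *
        cexp (-(D * φ * I)) * g (r * cexp (φ * I))) = BJ D g r ω := by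
      rw [BJ]
      congr 1
      have h := intervalIntegral.integral_comp_neg (a := 0) (b := Real.pi)
        (fun φ : ℝ => cexp (D * (r * cexp (φ * I) / ω - 1)) * (ω / r) ^ D *
        cexp (-(D * φ * I)) * g (r * cexp (φ * I)))
      rw [neg_zero] at h
      rw [← h]
      refine intervalIntegral.integral_congr fun ψ _ => ?_
      show cexp (D * (r * cexp (((-ψ : ℝ) : ℂ) * I) / ω - 1)) * (ω / r) ^ D *
        cexp (-(D * ((-ψ : ℝ) : ℂ) * I)) * g (r * cexp (((-ψ : ℝ) : ℂ) * I)) =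
        cexp (D * (r * cexp (-(ψ * I)) / ω - 1)) * (ω / r) ^ D *
        cexp (D * ψ * I) * g (r * cexp (-(ψ * I)))
      rw [show ((-ψ : ℝ) : ℂ) * I = -(ψ * I) by push_cast; ring,
        show -((D : ℂ) * ((-ψ : ℝ) : ℂ) * I) = D * ψ * I by push_cast; ring]
    have e2 : (cD D : ℂ) * (∫ φ in (0 : ℝ)..Real.pi,
        cexp (D * (r * cexp (φ * I) / ω - 1)) * (ω / r) ^ D *
        cexp (-(D * φ * I)) * g (r * cexp (φ * I))) = conj (BJ D g r (conj ω)) := by
      rw [BJ, map_mul, Complex.conj_ofReal]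
      congr 1
      rw [intervalIntegral.integral_of_le Real.pi_pos.le,
        intervalIntegral.integral_of_le Real.pi_pos.le, ← integral_conj]
      refine integral_congr_ae (Filter.Eventually.of_forall fun φ => ?_)
      show cexp (D * (r * cexp (φ * I) / ω - 1)) * (ω / r) ^ D *
        cexp (-(D * φ * I)) * g (r * cexp (φ * I)) =
        conj (cexp (D * (r * cexp (-(φ * I)) / conj ω - 1)) * (conj ω / r) ^ D *
        cexp (D * φ * I) * g (r * cexp (-(φ * I))))
      simp only [map_mul, map_pow, map_div₀, ← Complex.exp_conj, map_sub, map_one, map_natCast,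
        Complex.conj_ofReal, Complex.conj_conj, map_neg, Complex.conj_I, ← hreal]
      simp only [mul_neg, neg_neg]
    rw [e1, e2]
  · unfold Hd
    fun_prop
  · have hK := jd_repB_K (fun ψ : ℝ => (D : ℂ) * (r * cexp (-(ψ * I))))
      (fun ψ : ℝ => cexp (D * ψ * I) * g (r * cexp (-(ψ * I)))) (by fun_prop)
      (by
        have h1 : Continuous (fun ψ : ℝ => cexp (-(ψ * I))) := by fun_prop
        have h2 : Continuous (fun ψ : ℝ => cexp (D * ψ * I)) := by fun_prop
        exact h2.mul (hgc.comp (continuous_const.mul h1))) 0 Real.pi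
    have hB : ∀ ω : ℂ, ω ≠ 0 → BJ D g r ω = (cD D : ℂ) * ((cexp (-(D : ℂ)) * (ω / r) ^ D) *
        ∫ ψ in (0 : ℝ)..Real.pi, cexp (ω⁻¹ * ((D : ℂ) * (r * cexp (-(ψ * I))))) *
          (cexp (D * ψ * I) * g (r * cexp (-(ψ * I))))) := by
      intro ω _
      rw [BJ]
      congr 1
      rw [← intervalIntegral.integral_const_mul]
      refine intervalIntegral.integral_congr fun ψ _ => ?_
      show cexp (D * (r * cexp (-(ψ * I)) / ω - 1)) * (ω / r) ^ D *
        cexp (D * ψ * I) * g (r * cexp (-(ψ * I))) =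
        (cexp (-(D : ℂ)) * (ω / r) ^ D) * (cexp (ω⁻¹ * ((D : ℂ) * (r * cexp (-(ψ * I))))) *
          (cexp (D * ψ * I) * g (r * cexp (-(ψ * I)))))
      have e : cexp (D * (r * cexp (-(ψ * I)) / ω - 1))
          = cexp (-(D : ℂ)) * cexp (ω⁻¹ * ((D : ℂ) * (r * cexp (-(ψ * I))))) := by
        rw [← Complex.exp_add]
        congr 1
        ring
      rw [e]
      ring
    intro ω hω
    have hω0 : ω ≠ 0 := hω
    have hd : DifferentiableAt ℂ (fun ω : ℂ => (cD D : ℂ) * ((cexp (-(D : ℂ)) * (ω / r) ^ D) *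
        ∫ ψ in (0 : ℝ)..Real.pi, cexp (ω⁻¹ * ((D : ℂ) * (r * cexp (-(ψ * I))))) *
          (cexp (D * ψ * I) * g (r * cexp (-(ψ * I)))))) ω := by
      refine (differentiableAt_const _).mul (DifferentiableAt.mul (by fun_prop) ?_)
      exact (hK ω⁻¹).comp ω (differentiableAt_inv hω0)
    have hev : BJ D g r =ᶠ[nhds ω] fun ω : ℂ => (cD D : ℂ) * ((cexp (-(D : ℂ)) * (ω / r) ^ D) *
        ∫ ψ in (0 : ℝ)..Real.pi, cexp (ω⁻¹ * ((D : ℂ) * (r * cexp (-(ψ * I))))) *
          (cexp (D * ψ * I) * g (r * cexp (-(ψ * I))))) := by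
      filter_upwards [isOpen_ne.mem_nhds hω0] with w hw
      exact hB w hw
    exact (hd.congr_of_eventuallyEq hev).differentiableWithinAt

end Pool.Agent.Lib.MP_cd509c_nt.JD
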