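import Pool.Agent.Lib.MP_cd509c_nt.JD.StmK

/-!
Piece rt2: local square root.
-/

set_option autoImplicit false

namespace Pool.Agent.Lib.MP_cd509c_nt.JD

open Complex ComplexConjugate

theorem jd_rt2_exists (z ω : ℂ) : ∃ z' : ℂ, z' ^ 2 = ω ∧ 0 ≤ (z' * conj z).re := by
  obtain ⟨y, hy⟩ := IsSquare.exists_sq (a := ω) (Complex.isSquare ω)
  rcases le_total 0 (y * conj z).re with h | h
  · exact ⟨y, hy.symm, h⟩
  · refine ⟨-y, by rw [hy]; ring, ?_⟩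
    rw [neg_mul, Complex.neg_re]
    linarith

theorem p_rt2 : S_rt2 := by
  intro z ω hz hδ
  obtain ⟨z', hz', hre⟩ := jd_rt2_exists z ω
  set δ := ‖ω - z ^ 2‖ with hδd
  have hzn : 0 < ‖z‖ := norm_pos_iff.mpr hz
  have hδ0 : 0 ≤ δ := norm_nonneg _
  have hprod : (z' - z) * (z' + z) = ω - z ^ 2 := by rw [← hz']; ring
  have hpn : ‖z' - z‖ * ‖z' + z‖ = δ := by rw [← norm_mul, hprod]
  have h1 : ‖z‖ ≤ ‖z' + z‖ := by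
    have h2 : ‖z' + z‖ ^ 2 = ‖z'‖ ^ 2 + ‖z‖ ^ 2 + 2 * (z' * conj z).re := by
      rw [← Complex.normSq_eq_norm_sq, ← Complex.normSq_eq_norm_sq, ← Complex.normSq_eq_norm_sq,
        Complex.normSq_add]
    have h3 : ‖z‖ ^ 2 ≤ ‖z' + z‖ ^ 2 := by nlinarith [sq_nonneg ‖z'‖]
    exact (pow_le_pow_iff_left₀ (norm_nonneg _) (norm_nonneg _) two_ne_zero).mp h3
  have h4 : ‖z' - z‖ ≤ ‖z‖ / 4 := by
    have h5 : ‖z' - z‖ * ‖z‖ ≤ ‖z‖ / 4 * ‖z‖ := by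
      calc ‖z' - z‖ * ‖z‖ ≤ ‖z' - z‖ * ‖z' + z‖ := mul_le_mul_of_nonneg_left h1 (norm_nonneg _)
        _ = δ := hpn
        _ ≤ ‖z‖ ^ 2 / 4 := hδ
        _ = ‖z‖ / 4 * ‖z‖ := by ring
    exact le_of_mul_le_mul_right h5 hzn
  have h6 : 7 / 4 * ‖z‖ ≤ ‖z' + z‖ := by
    have h7 : (2 : ℂ) * z = (z' + z) - (z' - z) := by ring
    have h8 : ‖(2 : ℂ) * z‖ ≤ ‖z' + z‖ + ‖z' - z‖ := by rw [h7]; exact norm_sub_le _ _
    rw [norm_mul, Complex.norm_ofNat] at h8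
    linarith
  have h9 : ‖z' - z‖ ≤ 4 / 7 * (δ / ‖z‖) := by
    have h10 : ‖z' - z‖ * (7 / 4 * ‖z‖) ≤ δ := by
      rw [← hpn]; exact mul_le_mul_of_nonneg_left h6 (norm_nonneg _)
    have h11 : ‖z' - z‖ * ‖z‖ ≤ 4 / 7 * δ := by linarith
    calc ‖z' - z‖ = ‖z' - z‖ * ‖z‖ / ‖z‖ := by field_simp
      _ ≤ 4 / 7 * δ / ‖z‖ := div_le_div_of_nonneg_right h11 hzn.le
      _ = 4 / 7 * (δ / ‖z‖) := by ring
  refine ⟨z', hz', h9, ?_⟩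
  have hs : z' + z ≠ 0 := by
    rw [← norm_pos_iff]; linarith
  have e : z' - z - (ω - z ^ 2) / (2 * z) = -((ω - z ^ 2) * (z' - z)) / (2 * z * (z' + z)) := by
    rw [← hprod]
    field_simp
    ring
  rw [e, norm_div, norm_neg, norm_mul, norm_mul, norm_mul, Complex.norm_ofNat, ← hδd]
  have h12 : δ * ‖z' - z‖ ≤ δ * (4 / 7 * (δ / ‖z‖)) := mul_le_mul_of_nonneg_left h9 hδ0
  have h13 : 2 * ‖z‖ * (7 / 4 * ‖z‖) ≤ 2 * ‖z‖ * ‖z' + z‖ :=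
    mul_le_mul_of_nonneg_left h6 (by positivity)
  calc δ * ‖z' - z‖ / (2 * ‖z‖ * ‖z' + z‖)
      ≤ δ * (4 / 7 * (δ / ‖z‖)) / (2 * ‖z‖ * (7 / 4 * ‖z‖)) :=
        div_le_div₀ (by positivity) h12 (by positivity) h13
    _ = 8 / 49 * (δ ^ 2 / ‖z‖ ^ 3) := by field_simp; ring
    _ ≤ 1 / 4 * (δ ^ 2 / ‖z‖ ^ 3) := by
        apply mul_le_mul_of_nonneg_right (by norm_num) (by positivity)
    _ = δ ^ 2 / (4 * ‖z‖ ^ 3) := by ring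

end Pool.Agent.Lib.MP_cd509c_nt.JD
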