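import Pool.Agent.Lib.MP_cd509c_nt.JD.StmK

/-!
# JD, piece sg: the branch `i√ω`
-/

set_option autoImplicit false

namespace Pool.Agent.Lib.MP_cd509c_nt.JD

open Complex ComplexConjugate MeasureTheory
open Pool.Agent.Lib.MP_cd509c_nt.DN

private lemma sg_exists (ω : ℂ) : ∃ S : ℂ, S ^ 2 = -ω ∧ (ω.im ≤ 0 → 0 ≤ S.re ∧ 0 ≤ S.im) := by
  obtain ⟨S, hS⟩ := IsAlgClosed.exists_pow_nat_eq (-ω) (n := 2) (by norm_num)
  have him : 2 * (S.re * S.im) = -ω.im := by
    have h := congrArg Complex.im hS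
    rw [sq, Complex.mul_im, Complex.neg_im] at h
    linarith
  rcases lt_trichotomy S.re 0 with h | h | h
  · refine ⟨-S, by rw [neg_sq, hS], fun hω => ?_⟩
    rw [Complex.neg_re, Complex.neg_im]
    refine ⟨by linarith, ?_⟩
    by_contra hc
    push Not at hc
    have h1 : 0 < S.im := by linarith
    have h2 : S.re * S.im < 0 := mul_neg_of_neg_of_pos h h1
    linarith
  · rcases le_total 0 S.im with h1 | h1
    · exact ⟨S, hS, fun _ => ⟨h.ge, h1⟩⟩
    · refine ⟨-S, by rw [neg_sq, hS], fun _ => ?_⟩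
      rw [Complex.neg_re, Complex.neg_im]
      exact ⟨by linarith, by linarith⟩
  · refine ⟨S, hS, fun hω => ⟨h.le, ?_⟩⟩
    by_contra hc
    push Not at hc
    have h2 : S.re * S.im < 0 := mul_neg_of_pos_of_neg h hc
    linarith

theorem p_sg : S_sg := by
  choose sg h1 h2 using sg_exists
  refine ⟨sg, h1, fun ω => ?_, h2, fun ω ω' hω hω' => ?_⟩
  · have h3 := ff_sq (-I * sg ω)
    have h4 : (-I * sg ω) ^ 2 = ω := by
      rw [mul_pow, h1 ω, neg_sq, Complex.I_sq]
      ring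
    have h5 : I * (-I * sg ω) = sg ω := by
      rw [← mul_assoc, mul_neg, Complex.I_mul_I]
      ring
    rw [h4, h5] at h3
    exact h3
  · obtain ⟨a1, a2⟩ := h2 ω hω
    obtain ⟨b1, b2⟩ := h2 ω' hω'
    have hn : ‖ω‖ = ‖sg ω‖ ^ 2 := by rw [← norm_pow, h1 ω, norm_neg]
    have hn' : ‖ω'‖ = ‖sg ω'‖ ^ 2 := by rw [← norm_pow, h1 ω', norm_neg]
    have h3 : Real.sqrt (‖ω‖ + ‖ω'‖) ≤ ‖sg ω + sg ω'‖ := by
      rw [Real.sqrt_le_left (norm_nonneg _), hn, hn', Complex.sq_norm, Complex.sq_norm,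
        Complex.sq_norm, Complex.normSq_apply, Complex.normSq_apply, Complex.normSq_apply,
        Complex.add_re, Complex.add_im]
      nlinarith [mul_nonneg a1 b1, mul_nonneg a2 b2]
    refine (mul_le_mul_of_nonneg_left h3 (norm_nonneg _)).trans (le_of_eq ?_)
    rw [← norm_mul]
    have h4 : (sg ω - sg ω') * (sg ω + sg ω') = ω' - ω := by
      have e1 := h1 ω
      have e2 := h1 ω'
      linear_combination e1 - e2
    rw [h4, norm_sub_rev]

end Pool.Agent.Lib.MP_cd509c_nt.JD
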