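import Pool.Agent.Lib.MP_cd509c_nt.JD.StmK

/-!
# JD sgn: the points `s = sg (om x a w)`
-/

set_option autoImplicit false

namespace Pool.Agent.Lib.MP_cd509c_nt.JD

open Complex ComplexConjugate MeasureTheory
open Pool.Agent.Lib.MP_cd509c_nt.DN

theorem sgn_om_im (x a : ℝ) (w : ℂ) : (om x a w).im = -(2 * a * x * w.re) := by
  have h : om x a w = ((x ^ 2 : ℝ) : ℂ) - ((2 * a * x : ℝ) : ℂ) * (I * w) := by
    unfold om; push_cast; ring
  rw [h, Complex.sub_im, Complex.ofReal_im, Complex.im_ofReal_mul]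
  simp

theorem sgn_norm_sq (w : ℂ) : ‖w‖ ^ 2 = w.re ^ 2 + w.im ^ 2 := by
  rw [← Complex.normSq_eq_norm_sq, Complex.normSq_apply]; ring

/-- both in the first quadrant -/
theorem sgn_quad (s t : ℂ) (h1 : 0 ≤ s.re) (h2 : 0 ≤ s.im) (h3 : 0 ≤ t.re) (h4 : 0 ≤ t.im) :
    ‖s - t‖ ≤ ‖s + t‖ := by
  have h : ‖s - t‖ ^ 2 ≤ ‖s + t‖ ^ 2 := by
    rw [sgn_norm_sq, sgn_norm_sq]
    simp only [Complex.sub_re, Complex.sub_im, Complex.add_re, Complex.add_im]
    nlinarith [mul_nonneg h1 h3, mul_nonneg h2 h4]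
  exact le_of_sq_le_sq h (norm_nonneg _) 

theorem sgn_ctx {x a b Y : ℝ} (x0 : 0 < x) (a0 : 0 < a) (b1 : 1 ≤ b) (bY : b ≤ Y)
    (h1 : (10 ^ 9 : ℝ) * (1 + a * Y) ^ 2 ≤ x) (h2 : (10 ^ 9 : ℝ) * a * Y ^ 2 ≤ x * b) :
    10 ^ 9 * (a * Y) ≤ x ∧ 10 ^ 9 * (a * b) ≤ x ∧ 10 ^ 9 * (a ^ 2 * Y ^ 2 / x) ≤ a * b := by
  have hY : 0 < Y := by linarith
  have haY : 0 < a * Y := mul_pos a0 hY
  have hab : a * b ≤ a * Y := mul_le_mul_of_nonneg_left bY a0.le
  refine ⟨?_, ?_, ?_⟩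
  · nlinarith
  · nlinarith
  · rw [← mul_div_assoc, div_le_iff₀ x0]
    nlinarith [mul_le_mul_of_nonneg_left h2 a0.le]

/-- main estimate -/
theorem sgn_main {x a b Y : ℝ} (x0 : 0 < x) (a0 : 0 < a) (b1 : 1 ≤ b) (bY : b ≤ Y)
    (h1 : (10 ^ 9 : ℝ) * (1 + a * Y) ^ 2 ≤ x) (h2 : (10 ^ 9 : ℝ) * a * Y ^ 2 ≤ x * b)
    {s w : ℂ} (hs : s ^ 2 = -om x a w) (hi : 0 ≤ s.im)
    (w0 : 0 ≤ w.re) (wY : w.re ≤ Y) (wi : |w.im| ≤ 24 * b) :
    ‖w‖ ^ 2 ≤ 577 * Y ^ 2 ∧ ‖s - (I * x + a * w)‖ ≤ a * b / 800000 := by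
  obtain ⟨c1, c2, c3⟩ := sgn_ctx x0 a0 b1 bY h1 h2
  have hY : 0 < Y := by linarith
  have hw : ‖w‖ ^ 2 ≤ 577 * Y ^ 2 := by
    rw [sgn_norm_sq]
    have e1 : w.re ^ 2 ≤ Y ^ 2 := by nlinarith
    have e2 : w.im ^ 2 ≤ (24 * b) ^ 2 := by
      rw [← sq_abs w.im]; exact pow_le_pow_left₀ (abs_nonneg _) wi 2
    have e3 : b ^ 2 ≤ Y ^ 2 := by nlinarith
    nlinarith
  refine ⟨hw, ?_⟩
  have hprod : (s - (I * x + a * w)) * (s + (I * x + a * w)) = -((a : ℂ) ^ 2 * w ^ 2) := by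
    have : s ^ 2 = -((x : ℂ) ^ 2 - 2 * I * a * x * w) := by rw [hs]; rfl
    linear_combination this - (x : ℂ) ^ 2 * Complex.I_sq
  have hT : x / 2 ≤ ‖s + (I * x + a * w)‖ := by
    have e1 : (s + (I * x + a * w)).im = s.im + x + a * w.im := by
      simp; ring
    have e2 : -(a * (24 * b)) ≤ a * w.im := by
      have := (abs_le.1 wi).1
      nlinarith
    have e3 : x / 2 ≤ (s + (I * x + a * w)).im := by
      rw [e1]; nlinarith
    exact e3.trans ((le_abs_self _).trans (Complex.abs_im_le_norm _))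
  have hn : ‖s - (I * x + a * w)‖ * ‖s + (I * x + a * w)‖ = a ^ 2 * ‖w‖ ^ 2 := by
    rw [← norm_mul, hprod, norm_neg, norm_mul, norm_pow, norm_pow, Complex.norm_real,
      Real.norm_eq_abs, sq_abs]
  have hle : ‖s - (I * x + a * w)‖ * (x / 2) ≤ a ^ 2 * (577 * Y ^ 2) := by
    calc ‖s - (I * x + a * w)‖ * (x / 2) ≤ ‖s - (I * x + a * w)‖ * ‖s + (I * x + a * w)‖ :=
          mul_le_mul_of_nonneg_left hT (norm_nonneg _)
      _ = a ^ 2 * ‖w‖ ^ 2 := hn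
      _ ≤ a ^ 2 * (577 * Y ^ 2) := mul_le_mul_of_nonneg_left hw (sq_nonneg _)
  have h5 : ‖s - (I * x + a * w)‖ ≤ 1154 * (a ^ 2 * Y ^ 2 / x) := by
    rw [← mul_div_assoc, le_div_iff₀ x0]
    nlinarith
  nlinarith [mul_pos a0 (lt_of_lt_of_le one_pos b1)]

theorem sgn_first {x a b Y : ℝ} (x0 : 0 < x) (a0 : 0 < a) (b1 : 1 ≤ b) (bY : b ≤ Y)
    (h1 : (10 ^ 9 : ℝ) * (1 + a * Y) ^ 2 ≤ x) (h2 : (10 ^ 9 : ℝ) * a * Y ^ 2 ≤ x * b)
    {s w : ℂ} (hs : s ^ 2 = -om x a w) (hi : 0 ≤ s.im)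
    (w0 : 0 ≤ w.re) (wY : w.re ≤ Y) (wi : |w.im| ≤ 24 * b) :
    |s.re - a * w.re| ≤ a * b / 800000 ∧ |s.im - x| ≤ 97 / 4 * (a * b) := by
  obtain ⟨-, h⟩ := sgn_main x0 a0 b1 bY h1 h2 hs hi w0 wY wi
  have e1 : (s - (I * x + a * w)).re = s.re - a * w.re := by simp
  have e2 : (s - (I * x + a * w)).im = s.im - x - a * w.im := by simp; ring
  have f1 : |s.re - a * w.re| ≤ a * b / 800000 := by
    rw [← e1]; exact (Complex.abs_re_le_norm _).trans h
  have f2 : |s.im - x - a * w.im| ≤ a * b / 800000 := by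
    rw [← e2]; exact (Complex.abs_im_le_norm _).trans h
  refine ⟨f1, ?_⟩
  have hb : 0 < a * b := mul_pos a0 (lt_of_lt_of_le one_pos b1)
  have g1 := abs_le.1 f2
  have g2 := abs_le.1 wi
  have g3 : a * w.im ≤ a * (24 * b) := mul_le_mul_of_nonneg_left g2.2 a0.le
  have g4 : a * (-(24 * b)) ≤ a * w.im := mul_le_mul_of_nonneg_left g2.1 a0.le
  rw [abs_le]
  constructor <;> nlinarith [g1.1, g1.2]

theorem p_sgn : S_sgn := by
  intro sg hsq hquad ε l x a b Y ctx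
  have x0 := ctx.x0
  have a0 := ctx.a0
  have b1 := ctx.b1
  have bY := ctx.bY
  have h1 := ctx.h1
  have h2 := ctx.h2
  obtain ⟨c1, c2, c3⟩ := sgn_ctx x0 a0 b1 bY h1 h2
  have b0 : 0 < b := lt_of_lt_of_le one_pos b1
  have Y0 : 0 < Y := lt_of_lt_of_le b0 bY
  have hab : 0 < a * b := mul_pos a0 b0
  have haY : 0 < a * Y := mul_pos a0 Y0
  have habY : a * b ≤ a * Y := mul_le_mul_of_nonneg_left bY a0.le
  have him : ∀ w : ℂ, 0 ≤ w.re → (om x a w).im ≤ 0 := by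
    intro w hw
    rw [sgn_om_im]
    have : 0 ≤ 2 * a * x * w.re := by positivity
    linarith
  have hq : ∀ w : ℂ, 0 ≤ w.re → 0 ≤ (sg (om x a w)).re ∧ 0 ≤ (sg (om x a w)).im :=
    fun w hw => hquad _ (him w hw)
  have hF : ∀ w : ℂ, 0 ≤ w.re → w.re ≤ Y → |w.im| ≤ 24 * b →
      |(sg (om x a w)).re - a * w.re| ≤ a * b / 800000 ∧
        |(sg (om x a w)).im - x| ≤ 97 / 4 * (a * b) := fun w w0 wY wi =>
    sgn_first x0 a0 b1 bY h1 h2 (hsq _) (hq w w0).2 w0 wY wi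
  have hM : ∀ w : ℂ, 0 ≤ w.re → w.re ≤ Y → |w.im| ≤ 24 * b →
      ‖w‖ ≤ 25 * Y ∧ ‖sg (om x a w) - (I * x + a * w)‖ ≤ a * b / 800000 := fun w w0 wY wi => by
    obtain ⟨i1, i2⟩ := sgn_main x0 a0 b1 bY h1 h2 (hsq _) (hq w w0).2 w0 wY wi
    refine ⟨?_, i2⟩
    have : ‖w‖ ^ 2 ≤ (25 * Y) ^ 2 := by nlinarith
    exact le_of_sq_le_sq this (by positivity)
  have hprod : ∀ w v : ℂ, (sg (om x a v) - sg (om x a w)) * (sg (om x a v) + sg (om x a w)) =
      2 * I * a * x * (v - w) := by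
    intro w v
    have e1 : sg (om x a v) ^ 2 = -((x : ℂ) ^ 2 - 2 * I * a * x * v) := hsq _
    have e2 : sg (om x a w) ^ 2 = -((x : ℂ) ^ 2 - 2 * I * a * x * w) := hsq _
    linear_combination e1 - e2
  have hnprod : ∀ w v : ℂ, ‖sg (om x a v) - sg (om x a w)‖ * ‖sg (om x a v) + sg (om x a w)‖ =
      2 * a * x * ‖v - w‖ := by
    intro w v
    rw [← norm_mul, hprod]
    simp [abs_of_pos a0, abs_of_pos x0]
  refine ⟨?_, ?_, ?_, ?_⟩
  · intro w wb wY wi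
    have w0 : 0 ≤ w.re := by linarith
    have g1 := abs_le.1 (hF w w0 wY wi).1
    have g2 : a * (b / 16) ≤ a * w.re := mul_le_mul_of_nonneg_left wb a0.le
    nlinarith [g1.1]
  · intro w w0 wY wi
    obtain ⟨i1, i2⟩ := hF w w0 wY wi
    obtain ⟨i3, i4⟩ := hM w w0 wY wi
    have g1 := abs_le.1 i1
    have g2 := abs_le.1 i2
    refine ⟨?_, i2, ?_, ?_⟩
    · have g3 : a * w.re ≤ a * Y := mul_le_mul_of_nonneg_left wY a0.le
      nlinarith [g1.2]
    · have g4 : x / 2 ≤ (sg (om x a w)).im := by nlinarith [g2.1]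
      exact g4.trans ((le_abs_self _).trans (Complex.abs_im_le_norm _))
    · have g5 : ‖(I * x + a * w : ℂ)‖ ≤ x + a * ‖w‖ := by
        refine (norm_add_le _ _).trans ?_
        simp [abs_of_pos a0, abs_of_pos x0]
      have g6 : ‖sg (om x a w)‖ ≤ ‖sg (om x a w) - (I * x + a * w)‖ + ‖(I * x + a * w : ℂ)‖ := by
        have := norm_add_le (sg (om x a w) - (I * x + a * w)) (I * x + a * w)
        rwa [sub_add_cancel] at this
      have g7 : a * ‖w‖ ≤ a * (25 * Y) := mul_le_mul_of_nonneg_left i3 a0.le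
      nlinarith
  · intro w v w0 wY wi v0 vY vi
    obtain ⟨w1, w2⟩ := hM w w0 wY wi
    obtain ⟨v1, v2⟩ := hM v v0 vY vi
    have gw := abs_le.1 (hF w w0 wY wi).2
    have gv := abs_le.1 (hF v v0 vY vi).2
    set s := sg (om x a w) with hs
    set t := sg (om x a v) with ht
    have hT : x ≤ ‖t + s‖ := by
      have g4 : x ≤ (t + s).im := by
        rw [Complex.add_im]; nlinarith [gw.1, gv.1]
      exact g4.trans ((le_abs_self _).trans (Complex.abs_im_le_norm _))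
    have hp : (t - s) * (t + s) = 2 * I * a * x * (v - w) := hprod w v
    have hid : (t - s - a * (v - w)) * (t + s) =
        -(a * (v - w) * (a * (v + w) + ((t - (I * x + a * v)) + (s - (I * x + a * w))))) := by
      linear_combination hp
    have hE : ‖(a * (v + w) + ((t - (I * x + a * v)) + (s - (I * x + a * w))) : ℂ)‖ ≤
        51 * (a * Y) := by
      have f1 : ‖(a * (v + w) : ℂ)‖ ≤ 50 * (a * Y) := by
        rw [norm_mul, Complex.norm_real, Real.norm_eq_abs, abs_of_pos a0]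
        have : ‖v + w‖ ≤ 50 * Y := (norm_add_le _ _).trans (by linarith)
        nlinarith [mul_le_mul_of_nonneg_left this a0.le]
      have f2 : ‖(t - (I * x + a * v)) + (s - (I * x + a * w))‖ ≤
          a * b / 800000 + a * b / 800000 := (norm_add_le _ _).trans (add_le_add v2 w2)
      refine (norm_add_le _ _).trans ?_
      linarith
    have hn : ‖t - s - a * (v - w)‖ * x ≤ a * ‖v - w‖ * (51 * (a * Y)) := by
      calc ‖t - s - a * (v - w)‖ * x ≤ ‖t - s - a * (v - w)‖ * ‖t + s‖ :=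
            mul_le_mul_of_nonneg_left hT (norm_nonneg _)
        _ = ‖(a * (v - w) * (a * (v + w) + ((t - (I * x + a * v)) + (s - (I * x + a * w)))) : ℂ)‖ := by
            rw [← norm_mul, hid, norm_neg]
        _ = a * ‖v - w‖ *
            ‖(a * (v + w) + ((t - (I * x + a * v)) + (s - (I * x + a * w))) : ℂ)‖ := by
            rw [norm_mul, norm_mul, Complex.norm_real, Real.norm_eq_abs, abs_of_pos a0]
        _ ≤ a * ‖v - w‖ * (51 * (a * Y)) := mul_le_mul_of_nonneg_left hE (by positivity)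
    have hfin : 200 * a * ‖v - w‖ * (a * Y / x) = (200 * a * ‖v - w‖ * (a * Y)) / x := by ring
    rw [hfin, le_div_iff₀ x0]
    have : 0 ≤ a * ‖v - w‖ * (a * Y) := by positivity
    nlinarith
  · intro w v w0 wY wi v0
    obtain ⟨w1, w2⟩ := hM w w0 wY wi
    have gw := abs_le.1 (hF w w0 wY wi).2
    have qv := hq v v0
    have qw := hq w w0
    have hnp := hnprod w v
    set s := sg (om x a w) with hs
    set t := sg (om x a v) with ht
    have hT : 2 / 3 * x ≤ ‖t + s‖ := by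
      have g4 : 2 / 3 * x ≤ (t + s).im := by
        rw [Complex.add_im]; nlinarith [gw.1, qv.2]
      exact g4.trans ((le_abs_self _).trans (Complex.abs_im_le_norm _))
    constructor
    · have h3 : ‖t - s‖ * (2 / 3 * x) ≤ 2 * a * x * ‖v - w‖ := by
        rw [← hnp]; exact mul_le_mul_of_nonneg_left hT (norm_nonneg _)
      have h4 : ‖t - s‖ * x ≤ (3 * a * ‖v - w‖) * x := by nlinarith
      exact le_of_mul_le_mul_right h4 x0
    · have h5 : ‖t - s‖ ≤ ‖t + s‖ := sgn_quad t s qv.1 qv.2 qw.1 qw.2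
      have h6 : ‖t - s‖ ^ 2 ≤ 2 * a * x * ‖v - w‖ := by
        rw [← hnp, sq]; exact mul_le_mul_of_nonneg_left h5 (norm_nonneg _)
      have : 0 ≤ x * a * ‖v - w‖ := by positivity
      nlinarith

end Pool.Agent.Lib.MP_cd509c_nt.JD
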