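import Pool.Agent.Lib.MP_cd509c_nt.JD.StmS

set_option autoImplicit false

/-! Piece [JD sim]. -/

namespace Pool.Agent.Lib.MP_cd509c_nt.JD

open MeasureTheory Filter Polynomial
open scoped Nat

/-- lower bound for the moments -/
theorem sim_low : ∃ c : ℝ, 0 < c ∧ ∀ k : ℕ, c ≤ MA k := by
  have hc : 0 < ∫ u in Set.Ioc (1 : ℝ) 2, Phi u := by
    rw [← intervalIntegral.integral_of_le (by norm_num)]
    exact intervalIntegral.intervalIntegral_pos_of_pos
      (Phi_continuous.intervalIntegrable _ _) Phi_pos (by norm_num)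
  refine ⟨_, hc, fun k => ?_⟩
  unfold MA
  calc ∫ u in Set.Ioc (1 : ℝ) 2, Phi u ≤ ∫ u in Set.Ioc (1 : ℝ) 2, Phi u * |u| ^ k := by
        apply setIntegral_mono_on
        · exact (Phi_continuous.integrableOn_Icc (a := 1) (b := 2)).mono_set Set.Ioc_subset_Icc_self
        · exact (integrable_abs_pow k).integrableOn
        · exact measurableSet_Ioc
        · intro u hu
          have h1 : (1 : ℝ) ≤ |u| ^ k := one_le_pow₀ (by rw [abs_of_pos] <;> linarith [hu.1])
          have := (Phi_pos u).le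
          nlinarith
    _ ≤ ∫ u, Phi u * |u| ^ k := by
        apply setIntegral_le_integral (integrable_abs_pow k)
        refine Eventually.of_forall fun u => ?_
        have := (Phi_pos u).le
        simp only [Pi.zero_apply]
        positivity

/-- the moments do not decrease fast -/
theorem sim_mom : ∃ C : ℝ, 1 ≤ C ∧ ∀ k : ℕ, MA k ≤ C * MA (k + 2) := by
  obtain ⟨c, hc, hcl⟩ := sim_low
  have hA0 : 0 < MA 0 := MA_pos 0
  refine ⟨1 + MA 0 / c, by have := div_pos hA0 hc; linarith, fun k => ?_⟩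
  have h1 : MA k ≤ MA (k + 2) + MA 0 := by
    unfold MA
    rw [← integral_add (integrable_abs_pow (k + 2)) (integrable_abs_pow 0)]
    refine integral_mono (integrable_abs_pow k)
      ((integrable_abs_pow (k + 2)).add (integrable_abs_pow 0)) ?_
    intro u
    have hP := (Phi_pos u).le
    have h2 : |u| ^ k ≤ |u| ^ (k + 2) + 1 := by
      rcases le_total 1 |u| with h | h
      · have := pow_le_pow_right₀ h (show k ≤ k + 2 by omega)
        linarith
      · have h3 : |u| ^ k ≤ 1 := pow_le_one₀ (abs_nonneg u) h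
        have h4 : 0 ≤ |u| ^ (k + 2) := by positivity
        linarith
    have h5 := mul_le_mul_of_nonneg_left h2 hP
    simp only [pow_zero]
    linarith
  have h2 : MA 0 ≤ MA 0 / c * MA (k + 2) := by
    rw [div_mul_eq_mul_div, le_div_iff₀ hc]
    exact mul_le_mul_of_nonneg_left (hcl (k + 2)) hA0.le
  linarith

/-- ratio of consecutive coefficients, lower bound -/
theorem sim_ratio {C : ℝ} (h : ∀ k : ℕ, MA k ≤ C * MA (k + 2)) (k : ℕ) :
    gr k ≤ C * (4 * k + 2) * gr (k + 1) := by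
  have h1 := h (2 * k)
  have hf : ((2 * (k + 1))! : ℝ) = (2 * k + 2) * ((2 * k + 1) * ((2 * k)! : ℝ)) := by
    rw [show 2 * (k + 1) = (2 * k + 1) + 1 by ring, Nat.factorial_succ, Nat.factorial_succ]
    push_cast; ring
  have hf2 : ((k + 1)! : ℝ) = (k + 1) * (k ! : ℝ) := by
    rw [Nat.factorial_succ]; push_cast; ring
  unfold gr
  rw [hf, hf2, show 2 * (k + 1) = 2 * k + 2 by ring]
  have hp : (0 : ℝ) < (k ! : ℝ) := by positivity
  have hq : (0 : ℝ) < ((2 * k)! : ℝ) := by positivity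
  calc (k ! : ℝ) / ((2 * k)! : ℝ) * MA (2 * k)
      ≤ (k ! : ℝ) / ((2 * k)! : ℝ) * (C * MA (2 * k + 2)) :=
        mul_le_mul_of_nonneg_left h1 (by positivity)
    _ = C * (4 * k + 2) * ((k + 1) * (k ! : ℝ) / ((2 * k + 2) * ((2 * k + 1) * ((2 * k)! : ℝ))) *
        MA (2 * k + 2)) := by
        field_simp
        ring

/-- polynomials whose coefficients do not grow too much at the end have no large zeros -/
theorem sim_bound (a : ℕ → ℝ) (R : ℝ) (d : ℕ) (z : ℂ) (ha : ∀ j ≤ d, 0 < a j)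
    (hr : ∀ j < d, a j ≤ R * a (j + 1)) (hz : 2 * R ≤ ‖z‖) :
    ∑ j ∈ Finset.range (d + 1), (a j : ℂ) * z ^ j ≠ 0 := by
  rcases Nat.eq_zero_or_pos d with hd | hd
  · subst hd
    have := (ha 0 le_rfl).ne'
    simpa using this
  have hR : 0 < R := by
    have h1 := hr 0 hd
    have h2 := ha 0 (Nat.zero_le _)
    have h3 := ha 1 hd
    by_contra hn
    push Not at hn
    have : R * a (0 + 1) ≤ 0 := mul_nonpos_of_nonpos_of_nonneg hn h3.le
    linarith
  have hz0 : 0 < ‖z‖ := by linarith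
  have key : ∀ m ≤ d, ‖∑ j ∈ Finset.range m, (a j : ℂ) * z ^ j‖ < a m * ‖z‖ ^ m := by
    intro m
    induction m with
    | zero =>
      intro _
      have := ha 0 (Nat.zero_le _)
      simpa using this
    | succ m ih =>
      intro hm
      have h1 := ih (by omega)
      have h2 : ‖(a m : ℂ) * z ^ m‖ = a m * ‖z‖ ^ m := by
        rw [norm_mul, norm_pow, Complex.norm_real, Real.norm_of_nonneg (ha m (by omega)).le]
      rw [Finset.sum_range_succ]
      have h3 : a m ≤ R * a (m + 1) := hr m (by omega)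
      have h4 : 0 < ‖z‖ ^ m := by positivity
      calc ‖∑ j ∈ Finset.range m, (a j : ℂ) * z ^ j + (a m : ℂ) * z ^ m‖
          ≤ ‖∑ j ∈ Finset.range m, (a j : ℂ) * z ^ j‖ + ‖(a m : ℂ) * z ^ m‖ := norm_add_le _ _
        _ < a m * ‖z‖ ^ m + a m * ‖z‖ ^ m := by rw [h2]; linarith
        _ = 2 * a m * ‖z‖ ^ m := by ring
        _ ≤ 2 * (R * a (m + 1)) * ‖z‖ ^ m := by
            apply mul_le_mul_of_nonneg_right _ h4.le
            linarith
        _ = a (m + 1) * ‖z‖ ^ m * (2 * R) := by ring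
        _ ≤ a (m + 1) * ‖z‖ ^ m * ‖z‖ := by
            apply mul_le_mul_of_nonneg_left hz
            have := ha (m + 1) hm
            positivity
        _ = a (m + 1) * ‖z‖ ^ (m + 1) := by rw [pow_succ]; ring
  intro h0
  rw [Finset.sum_range_succ] at h0
  have h1 := key d le_rfl
  have h2 : (a d : ℂ) * z ^ d = -∑ j ∈ Finset.range d, (a j : ℂ) * z ^ j := by
    linear_combination h0
  have h3 : ‖(a d : ℂ) * z ^ d‖ = a d * ‖z‖ ^ d := by
    rw [norm_mul, norm_pow, Complex.norm_real, Real.norm_of_nonneg (ha d le_rfl).le]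
  rw [h2, norm_neg] at h3
  linarith

/-- size of the zeros -/
theorem sim_size {C : ℝ} (hC : 1 ≤ C) (h : ∀ k : ℕ, MA k ≤ C * MA (k + 2)) (d n : ℕ) (hd : 1 ≤ d)
    (z : ℂ) (hz : Jen d n z = 0) : ‖z‖ ≤ 8 * C * ((n + d : ℕ) : ℝ) ^ 2 := by
  by_contra hn
  push Not at hn
  refine sim_bound (fun j => (d.choose j : ℝ) * gr (n + j)) (4 * C * ((n + d : ℕ) : ℝ) ^ 2) d z
    ?_ ?_ (by linarith) ?_
  · intro j hj
    have h1 : 0 < d.choose j := Nat.choose_pos hj
    have h2 := gr_pos (n + j)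
    positivity
  · intro j hj
    have h1 := sim_ratio h (n + j)
    have h2 := gr_pos (n + j + 1)
    have h3 : (d.choose j : ℝ) ≤ d * (d.choose (j + 1) : ℝ) := by
      have h4 : d.choose (j + 1) * (j + 1) = d.choose j * (d - j) := Nat.choose_succ_right_eq d j
      have h5 : d.choose j ≤ d * d.choose (j + 1) := by
        calc d.choose j ≤ d.choose j * (d - j) := Nat.le_mul_of_pos_right _ (by omega)
          _ = d.choose (j + 1) * (j + 1) := h4.symm
          _ ≤ d.choose (j + 1) * d := Nat.mul_le_mul_left _ (by omega)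
          _ = d * d.choose (j + 1) := Nat.mul_comm _ _
      exact_mod_cast h5
    have h6 : (4 * ((n + j : ℕ) : ℝ) + 2) ≤ 4 * ((n + d : ℕ) : ℝ) := by
      have : ((j : ℕ) : ℝ) + 1 ≤ d := by exact_mod_cast hj
      push_cast
      linarith
    have hd' : (d : ℝ) ≤ ((n + d : ℕ) : ℝ) := by
      push_cast
      have : (0 : ℝ) ≤ n := Nat.cast_nonneg n
      linarith
    have hg1 : gr (n + j) ≤ C * (4 * ((n + d : ℕ) : ℝ)) * gr (n + j + 1) :=
      h1.trans (mul_le_mul_of_nonneg_right (mul_le_mul_of_nonneg_left h6 (by linarith)) h2.le)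
    have hg0 := (gr_pos (n + j)).le
    have hch : (0 : ℝ) ≤ (d.choose (j + 1) : ℝ) := Nat.cast_nonneg _
    have hdd : (0 : ℝ) ≤ d := Nat.cast_nonneg _
    show (d.choose j : ℝ) * gr (n + j) ≤ 4 * C * ((n + d : ℕ) : ℝ) ^ 2 *
      ((d.choose (j + 1) : ℝ) * gr (n + (j + 1)))
    calc (d.choose j : ℝ) * gr (n + j) ≤ (d * (d.choose (j + 1) : ℝ)) * gr (n + j) :=
          mul_le_mul_of_nonneg_right h3 hg0
      _ ≤ (d * (d.choose (j + 1) : ℝ)) * (C * (4 * ((n + d : ℕ) : ℝ)) * gr (n + j + 1)) :=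
          mul_le_mul_of_nonneg_left hg1 (by positivity)
      _ = d * ((d.choose (j + 1) : ℝ) * (C * (4 * ((n + d : ℕ) : ℝ)) * gr (n + j + 1))) := by ring
      _ ≤ ((n + d : ℕ) : ℝ) * ((d.choose (j + 1) : ℝ) *
          (C * (4 * ((n + d : ℕ) : ℝ)) * gr (n + j + 1))) := by
          apply mul_le_mul_of_nonneg_right hd'
          have : (0 : ℝ) ≤ ((n + d : ℕ) : ℝ) := Nat.cast_nonneg _
          positivity
      _ = _ := by rw [← Nat.add_assoc]; ring
  · unfold Jen at hz
    rw [← hz]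
    apply Finset.sum_congr rfl
    intro j _
    rw [gam_gr]
    push_cast
    ring

/-- a sum of positive numbers -/
theorem sim_sum (f : ℂ → ℂ) (s : Multiset ℂ) (h : ∀ X ∈ s, 0 < (f X).re) :
    0 ≤ (s.map f).sum.re ∧ (s ≠ 0 → 0 < (s.map f).sum.re) := by
  induction s using Multiset.induction_on with
  | empty => simp
  | cons X s ih =>
    have h1 := ih (fun Y hY => h Y (Multiset.mem_cons_of_mem hY))
    have h2 := h X (Multiset.mem_cons_self X s)
    rw [Multiset.map_cons, Multiset.sum_cons, Complex.add_re]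
    exact ⟨by linarith [h1.1], fun _ => by linarith [h1.1]⟩

/-- the terms are positive -/
theorem sim_pos (X X₀ : ℂ) (h1 : X.im = 0) (h2 : X₀.im = 0) (h3 : X ≠ 0) (h4 : X ≠ X₀) :
    0 < ((X / (X₀ - X)) ^ 2).re := by
  have e1 : X = ((X.re : ℝ) : ℂ) := Complex.ext rfl (by simp [h1])
  have e2 : X₀ = ((X₀.re : ℝ) : ℂ) := Complex.ext rfl (by simp [h2])
  have hx : X.re ≠ 0 := by
    intro h
    rw [h] at e1
    exact h3 (by simpa using e1)
  have hxx : X₀.re - X.re ≠ 0 := by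
    intro h
    apply h4
    rw [e1, e2, sub_eq_zero.1 h]
  rw [e1, e2]
  have : (((X.re : ℝ) : ℂ) / (((X₀.re : ℝ) : ℂ) - ((X.re : ℝ) : ℂ))) ^ 2 =
      (((X.re / (X₀.re - X.re)) ^ 2 : ℝ) : ℂ) := by push_cast; ring
  rw [this, Complex.ofReal_re]
  have := div_ne_zero hx hxx
  positivity

theorem sim_log_le {x : ℝ} (hx : 0 < x) : Real.log x ≤ 2 * Real.sqrt x := by
  have h1 : Real.log x = 2 * Real.log (Real.sqrt x) := by
    rw [Real.log_sqrt hx.le]; ring
  have h2 := Real.log_le_sub_one_of_pos (Real.sqrt_pos.2 hx)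
  rw [h1]
  linarith

theorem p_sim (h : S_dbl) : S_sim := by
  obtain ⟨C₁, hC₁, hreal⟩ := jensen_log
  obtain ⟨K, hK, htot⟩ := Jp_total
  obtain ⟨C₂, hC₂, hmom⟩ := sim_mom
  set C₃ : ℝ := 2 + 16 * C₂ with hC₃
  set Q : ℝ := K * C₃ * (C₃ + 6) with hQ
  have hC₃0 : 0 < C₃ := by rw [hC₃]; linarith
  have hQ0 : 0 < Q := by rw [hQ]; positivity
  refine ⟨10 * C₁ + 800 * C₁ ^ 2 + 2 * Q ^ 2 + 2, by positivity, fun d n hd hdn => ?_⟩
  set C : ℝ := 10 * C₁ + 800 * C₁ ^ 2 + 2 * Q ^ 2 + 2 with hC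
  have hC0 : 0 < C := by positivity
  have hd1 : (1 : ℝ) ≤ d := by exact_mod_cast hd
  have hl2 := Real.log_two_gt_d9
  have hlog2 : Real.log 2 ≤ Real.log ((d : ℝ) + 1) := Real.log_le_log (by norm_num) (by linarith)
  have hlogd : 1 / 2 ≤ Real.log ((d : ℝ) + 1) := by linarith
  have hn1 : C / 2 ≤ n := by
    calc C / 2 = C * (1 / 2) := by ring
      _ ≤ C * Real.log ((d : ℝ) + 1) := mul_le_mul_of_nonneg_left hlogd hC0.le
      _ ≤ n := hdn
  have hnQ : Q ^ 2 + 1 ≤ n := by
    have : 0 ≤ 10 * C₁ + 800 * C₁ ^ 2 := by positivity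
    rw [hC] at hn1
    linarith
  have hnC : 400 * C₁ ^ 2 ≤ n := by
    have : 0 ≤ 10 * C₁ + 2 * Q ^ 2 + 2 := by positivity
    rw [hC] at hn1
    linarith
  have hnC1 : 5 * C₁ ≤ n := by
    have : 0 ≤ 800 * C₁ ^ 2 + 2 * Q ^ 2 + 2 := by positivity
    rw [hC] at hn1
    linarith
  have hnge : (1 : ℝ) ≤ n := by nlinarith [sq_nonneg Q]
  have hnN : 1 ≤ n := by exact_mod_cast hnge
  set e : ℕ := n + d with he
  have he1 : 1 ≤ e := by omega
  have heR : (1 : ℝ) ≤ (e : ℝ) := by exact_mod_cast he1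
  have hen : (n : ℝ) ≤ e := by rw [he]; push_cast; linarith
  -- the logarithm of `e`
  have hsn : Real.sqrt n * Real.sqrt n = n := Real.mul_self_sqrt (by linarith)
  have hsn20 : 20 * C₁ ≤ Real.sqrt n := by
    apply Real.le_sqrt_of_sq_le
    nlinarith
  have hloge : Real.log e ≤ Real.log n + Real.log ((d : ℝ) + 1) := by
    rw [← Real.log_mul (by linarith) (by linarith)]
    apply Real.log_le_log (by linarith)
    rw [he]; push_cast
    nlinarith
  have hlogd' : 10 * C₁ * Real.log ((d : ℝ) + 1) ≤ n := by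
    refine le_trans ?_ hdn
    apply mul_le_mul_of_nonneg_right _ (by linarith)
    rw [hC]
    have : 0 ≤ 800 * C₁ ^ 2 + 2 * Q ^ 2 + 2 := by positivity
    linarith
  have hlogn := sim_log_le (show (0 : ℝ) < n by linarith)
  have hl3 : Real.log 3 ≤ 2 := by
    have := Real.log_le_sub_one_of_pos (show (0 : ℝ) < 3 by norm_num)
    linarith
  have hC₁e : C₁ * (2 + 4 * Real.log e) ≤ n := by
    have a1 : C₁ * Real.log n ≤ C₁ * (2 * Real.sqrt n) := mul_le_mul_of_nonneg_left hlogn hC₁.le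
    have a2 : 20 * C₁ * Real.sqrt n ≤ n := by
      calc 20 * C₁ * Real.sqrt n ≤ Real.sqrt n * Real.sqrt n :=
            mul_le_mul_of_nonneg_right hsn20 (Real.sqrt_nonneg _)
        _ = n := hsn
    have a3 : C₁ * Real.log e ≤ C₁ * (Real.log n + Real.log ((d : ℝ) + 1)) :=
      mul_le_mul_of_nonneg_left hloge hC₁.le
    nlinarith
  have hreal' : ∀ k : ℕ, k ≤ e ^ 4 → ∀ z : ℂ, Jen (d + k) n z = 0 → z.im = 0 := by
    intro k hk z hz
    refine hreal (d + k) n (by omega) ?_ z hz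
    have b1 : ((d + k : ℕ) : ℝ) + 1 ≤ 3 * (e : ℝ) ^ 4 := by
      have b2 : d + k + 1 ≤ 3 * e ^ 4 := by
        have b3 : e ≤ e ^ 4 := Nat.le_self_pow (by norm_num) e
        have b4 : d ≤ e := by omega
        have b5 : 1 ≤ e ^ 4 := Nat.one_le_pow _ _ he1
        omega
      exact_mod_cast b2
    have b6 : Real.log (((d + k : ℕ) : ℝ) + 1) ≤ 2 + 4 * Real.log e := by
      have b7 : (0 : ℝ) ≤ ((d + k : ℕ) : ℝ) := Nat.cast_nonneg _
      calc Real.log (((d + k : ℕ) : ℝ) + 1) ≤ Real.log (3 * (e : ℝ) ^ 4) :=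
            Real.log_le_log (by linarith) b1
        _ = Real.log 3 + 4 * Real.log e := by
            rw [Real.log_mul (by norm_num) (by positivity), Real.log_pow]
            push_cast; ring
        _ ≤ 2 + 4 * Real.log e := by linarith
    exact (mul_le_mul_of_nonneg_left b6 hC₁.le).trans hC₁e
  intro X hX
  have hXim : X.im = 0 := by
    have := hreal' 0 (Nat.zero_le _) X (by rw [Nat.add_zero]; exact hX)
    exact this
  refine ⟨hXim, fun hder => ?_⟩
  rcases h d n (e ^ 4) X hd hX hder with ⟨k, hk1, hkm, hne, hsum⟩ | hmult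
  · -- a sum of positive numbers
    have hpos := (sim_sum (fun Y => (Y / (X - Y)) ^ 2) (Jp (d + k) n).roots (fun Y hY => by
      have hY0 : (Jp (d + k) n).eval Y = 0 := (mem_roots (Jp_ne (d + k) n)).1 hY
      have hYJ : Jen (d + k) n Y = 0 := by rw [← Jp_eval]; exact hY0
      refine sim_pos Y X (hreal' k hkm Y hYJ) hXim ?_ ?_
      · rintro rfl
        rw [Jp_zero] at hY0
        exact gam_ne_zero n hY0
      · rintro rfl
        exact hne hYJ)).2 (by
      intro h0
      have := Jp_card (d + k) n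
      rw [h0, Multiset.card_zero] at this
      omega)
    rw [hsum] at hpos
    simp at hpos
  · -- a zero of very large multiplicity
    have hsz := sim_size hC₂ hmom d n hd X hX
    have hle : Multiset.replicate (e ^ 4 + 2) X ≤ (Jp (d + e ^ 4) n).roots := by
      rw [← Multiset.le_count_iff_replicate_le, count_roots]
      exact hmult
    have hT2 : 2 ≤ C₃ * (e : ℝ) ^ 3 := by
      have : 1 ≤ (e : ℝ) ^ 3 := one_le_pow₀ heR
      nlinarith
    have hbd : ∀ Y ∈ Multiset.replicate (e ^ 4 + 2) X,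
        ‖Y‖ * (((d + e ^ 4 : ℕ) : ℝ) + n) ≤ (C₃ * (e : ℝ) ^ 3) ^ 2 := by
      intro Y hY
      rw [Multiset.eq_of_mem_replicate hY]
      have c1 : ((d + e ^ 4 : ℕ) : ℝ) + n ≤ 2 * (e : ℝ) ^ 4 := by
        have c2 : d + e ^ 4 + n ≤ 2 * e ^ 4 := by
          have b3 : e ≤ e ^ 4 := Nat.le_self_pow (by norm_num) e
          omega
        exact_mod_cast c2
      calc ‖X‖ * (((d + e ^ 4 : ℕ) : ℝ) + n) ≤ (8 * C₂ * (e : ℝ) ^ 2) * (2 * (e : ℝ) ^ 4) := by
            apply mul_le_mul hsz c1 (by positivity) (by positivity)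
        _ = (16 * C₂) * (e : ℝ) ^ 6 := by ring
        _ ≤ C₃ ^ 2 * (e : ℝ) ^ 6 := by
            apply mul_le_mul_of_nonneg_right _ (by positivity)
            rw [hC₃]
            nlinarith
        _ = _ := by ring
    have hcard := htot (d + e ^ 4) n (C₃ * (e : ℝ) ^ 3) _ hT2 hle hbd
    rw [Multiset.card_replicate] at hcard
    have hlogT : Real.log (C₃ * (e : ℝ) ^ 3) ≤ C₃ + 6 * Real.sqrt e := by
      rw [Real.log_mul hC₃0.ne' (by positivity), Real.log_pow]
      have d1 := Real.log_le_sub_one_of_pos hC₃0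
      have d2 := sim_log_le (show (0 : ℝ) < e by linarith)
      push_cast
      linarith
    have hse1 : 1 ≤ Real.sqrt e := Real.one_le_sqrt.2 heR
    have hse2 : Real.sqrt e * Real.sqrt e = e := Real.mul_self_sqrt (by linarith)
    have h1 : (e : ℝ) ^ 4 ≤ Q * (e : ℝ) ^ 3 * Real.sqrt e := by
      have e1 : ((e ^ 4 + 2 : ℕ) : ℝ) = (e : ℝ) ^ 4 + 2 := by push_cast; ring
      rw [e1] at hcard
      calc (e : ℝ) ^ 4 ≤ K * (C₃ * (e : ℝ) ^ 3) * Real.log (C₃ * (e : ℝ) ^ 3) := by linarith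
        _ ≤ K * (C₃ * (e : ℝ) ^ 3) * (C₃ + 6 * Real.sqrt e) :=
            mul_le_mul_of_nonneg_left hlogT (by positivity)
        _ ≤ K * (C₃ * (e : ℝ) ^ 3) * ((C₃ + 6) * Real.sqrt e) := by
            apply mul_le_mul_of_nonneg_left _ (by positivity)
            nlinarith
        _ = _ := by rw [hQ]; ring
    have h2 : (e : ℝ) ≤ Q * Real.sqrt e := by
      have e3 : 0 < (e : ℝ) ^ 3 := by positivity
      have e4 : (e : ℝ) ^ 3 * e ≤ (e : ℝ) ^ 3 * (Q * Real.sqrt e) := by
        calc (e : ℝ) ^ 3 * e = (e : ℝ) ^ 4 := by ring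
          _ ≤ _ := h1
          _ = _ := by ring
      exact le_of_mul_le_mul_left e4 e3
    have h3 : Real.sqrt e ≤ Q := by
      have e5 : Real.sqrt e * Real.sqrt e ≤ Q * Real.sqrt e := by rw [hse2]; exact h2
      exact le_of_mul_le_mul_right e5 (by linarith)
    have h4 : (e : ℝ) ≤ Q ^ 2 := by
      rw [← hse2]
      nlinarith
    linarith

end Pool.Agent.Lib.MP_cd509c_nt.JD
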