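import Pool.Agent.Lib.MP_cd509c_nt.JD.Defs

/-!
# Project JENSEN DENSITY, piece up: a Lipschitz bound of the logarithm from a crude comparison
-/

set_option autoImplicit false

namespace Pool.Agent.Lib.MP_cd509c_nt.JD

open Complex Metric

/-- a nonvanishing holomorphic function on a ball has a logarithm -/
theorem jd_up_log {f : ℂ → ℂ} {c : ℂ} {R : ℝ} (hR : 0 < R) (hf : DifferentiableOn ℂ f (ball c R))
    (h0 : ∀ z ∈ ball c R, f z ≠ 0) : ∃ g : ℂ → ℂ, g c = 0 ∧ DifferentiableOn ℂ g (ball c R) ∧
      ∀ z ∈ ball c R, f z = f c * cexp (g z) := by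
  have hd : DifferentiableOn ℂ (fun z => deriv f z / f z) (ball c R) :=
    (hf.deriv isOpen_ball).div hf h0
  obtain ⟨g, hg0, hg⟩ := hd.isExactOn_ball.with_val_at c 0
  refine ⟨g, hg0, fun z hz => (hg z hz).differentiableAt.differentiableWithinAt, fun z hz => ?_⟩
  have hk : ∀ z ∈ ball c R, HasDerivAt (fun z => f z * cexp (-g z)) 0 z := by
    intro z hz
    have h1 : HasDerivAt f (deriv f z) z :=
      (hf.differentiableAt (isOpen_ball.mem_nhds hz)).hasDerivAt
    have h2 := h1.mul ((hg z hz).neg.cexp)
    refine h2.congr_deriv ?_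
    have h4 : f z * (deriv f z / f z) = deriv f z := mul_div_cancel₀ _ (h0 z hz)
    linear_combination -cexp (-g z) * h4
  have h3 : f z * cexp (-g z) = f c * cexp (-g c) := by
    refine IsOpen.is_const_of_deriv_eq_zero isOpen_ball (convex_ball c R).isPreconnected
      (fun z hz => (hk z hz).differentiableAt.differentiableWithinAt)
      (fun z hz => (hk z hz).deriv) hz (mem_ball_self hR)
  rw [hg0, neg_zero, Complex.exp_zero, mul_one] at h3
  rw [← h3, mul_assoc, ← Complex.exp_add, neg_add_cancel, Complex.exp_zero, mul_one]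

theorem p_up : S_up := by
  intro ε N b Y G hε hN hb hY hG H w v h1 h2 h3 h4 h5 h6
  have hb0 : 0 < b := by linarith
  rcases le_or_gt (b / 64) ‖v - w‖ with hd | hd
  · -- far away
    refine (H w v (by linarith) (by linarith) (by linarith) h4 (by linarith) (by linarith)).2.trans ?_
    refine mul_le_mul_of_nonneg_right (Real.exp_le_exp.2 ?_) (norm_nonneg _)
    have k : ‖v - w‖ + b ≤ 100 * ‖v - w‖ := by linarith
    calc ε * N * (‖v - w‖ + b) ≤ ε * N * (100 * ‖v - w‖) :=
          mul_le_mul_of_nonneg_left k (by positivity)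
      _ = 100 * ε * N * ‖v - w‖ := by ring
  · set R : ℝ := b / 16 with hRd
    have hR : 0 < R := by positivity
    have hbox : ∀ z ∈ ball w R, 3 * b / 16 ≤ z.re ∧ z.re ≤ Y + b ∧ |z.im| ≤ 21 * b := by
      intro z hz
      rw [mem_ball, dist_eq_norm] at hz
      have k1 : |z.re - w.re| < R := by
        have := Complex.abs_re_le_norm (z - w)
        rw [Complex.sub_re] at this
        linarith
      have k2 : |z.im - w.im| < R := by
        have := Complex.abs_im_le_norm (z - w)
        rw [Complex.sub_im] at this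
        linarith
      rw [abs_lt] at k1 k2
      rw [abs_le] at h3 ⊢
      refine ⟨by linarith, by linarith, by linarith, by linarith⟩
    have hw : w ∈ ball w R := mem_ball_self hR
    obtain ⟨w1, w2, w3⟩ := hbox w hw
    have h0 : ∀ z ∈ ball w R, G z ≠ 0 := by
      intro z hz
      obtain ⟨z1, z2, z3⟩ := hbox z hz
      exact (H z w z1 z2 z3 (by linarith) w2 w3).1
    obtain ⟨g, hg0, hg, hgz⟩ := jd_up_log hR hG.differentiableOn h0
    -- the real part
    have hre : ∀ z ∈ ball w R, (g z).re ≤ 17 / 16 * (ε * N * b) := by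
      intro z hz
      obtain ⟨z1, z2, z3⟩ := hbox z hz
      have k := (H w z w1 w2 w3 (by linarith) z2 z3).2
      rw [hgz z hz, norm_mul, Complex.norm_exp, mul_comm] at k
      have k2 := le_of_mul_le_mul_right k (norm_pos_iff.2 (h0 w hw))
      have k3 := Real.exp_le_exp.1 k2
      refine k3.trans ?_
      rw [mem_ball, dist_eq_norm] at hz
      have k4 : ‖z - w‖ + b ≤ 17 / 16 * b := by linarith
      calc ε * N * (‖z - w‖ + b) ≤ ε * N * (17 / 16 * b) :=
            mul_le_mul_of_nonneg_left k4 (by positivity)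
        _ = _ := by ring
    have hv : v ∈ ball w R := by
      rw [mem_ball, dist_eq_norm]
      have : b / 64 < R := by rw [hRd]; linarith
      linarith
    have hM : 0 < 17 / 16 * (ε * N * b) := by positivity
    have key := Complex.borelCaratheodory_zero (f := fun z => g (w + z)) (z := v - w) (R := R) hM
      (by
        refine hg.comp (by fun_prop) ?_
        intro z hz
        rw [mem_ball_zero_iff] at hz
        rw [mem_ball, dist_eq_norm, add_sub_cancel_left]
        exact hz)
      (by
        intro z hz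
        rw [mem_ball_zero_iff] at hz
        refine hre (w + z) ?_
        rw [mem_ball, dist_eq_norm, add_sub_cancel_left]
        exact hz) hR
      (by
        rw [mem_ball_zero_iff]
        rw [mem_ball, dist_eq_norm] at hv
        exact hv)
      (by rw [add_zero]; exact hg0)
    rw [add_sub_cancel] at key
    have k1 : ‖g v‖ ≤ 100 * ε * N * ‖v - w‖ := by
      refine key.trans ?_
      have k2 : 3 * b / 64 ≤ R - ‖v - w‖ := by rw [hRd]; linarith
      have k3 : 0 < R - ‖v - w‖ := by linarith
      rw [div_le_iff₀ k3]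
      have k4 : 100 * ε * N * ‖v - w‖ * (3 * b / 64) ≤ 100 * ε * N * ‖v - w‖ * (R - ‖v - w‖) :=
        mul_le_mul_of_nonneg_left k2 (by positivity)
      have k5 : 0 ≤ ε * N * b * ‖v - w‖ := by positivity
      calc 2 * (17 / 16 * (ε * N * b)) * ‖v - w‖ ≤ 100 * ε * N * ‖v - w‖ * (3 * b / 64) := by
            nlinarith
        _ ≤ _ := k4
    rw [hgz v hv, norm_mul, Complex.norm_exp, mul_comm]
    refine mul_le_mul_of_nonneg_right (Real.exp_le_exp.2 ?_) (norm_nonneg _)
    exact (Complex.re_le_norm _).trans k1

end Pool.Agent.Lib.MP_cd509c_nt.JD
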