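import Pool.Agent.Lib.MP_cd509c_nt.JD.StmK

/-!
# The rotation in the local coordinate
-/

set_option autoImplicit false

namespace Pool.Agent.Lib.MP_cd509c_nt.JD

open Complex ComplexConjugate MeasureTheory
open Pool.Agent.Lib.MP_cd509c_nt.DN

theorem wp_E {x a : ℝ} {v : ℂ} (ha : 0 < a) (hx : 0 < x) (hv : 8 * a * ‖v‖ ≤ x) :
    ‖cexp (-(2 * a * v / x * I)) - 1‖ ≤ 4 * a * ‖v‖ / x ∧
    ‖cexp (-(2 * a * v / x * I)) - 1 + 2 * a * v / x * I‖ ≤ (2 * a * ‖v‖ / x) ^ 2 ∧
    ‖cexp (-(2 * a * v / x * I))‖ ≤ 2 := by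
  have hq : ‖-(2 * (a : ℂ) * v / x * I)‖ = 2 * a * ‖v‖ / x := by
    rw [norm_neg, norm_mul, norm_div, norm_mul, norm_mul, Complex.norm_I, Complex.norm_real,
      Complex.norm_real, Real.norm_of_nonneg ha.le, Real.norm_of_nonneg hx.le]
    norm_num
  have hq1 : 2 * a * ‖v‖ / x ≤ 1 / 4 := by
    rw [div_le_iff₀ hx]
    linarith
  have h1 := Complex.norm_exp_sub_one_le (x := -(2 * (a : ℂ) * v / x * I)) (by rw [hq]; linarith)
  have h2 := Complex.norm_exp_sub_one_sub_id_le (x := -(2 * (a : ℂ) * v / x * I))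
    (by rw [hq]; linarith)
  rw [hq] at h1 h2
  refine ⟨?_, ?_, ?_⟩
  · refine h1.trans (le_of_eq ?_)
    ring
  · rw [sub_neg_eq_add] at h2
    exact h2
  · have h3 : cexp (-(2 * a * v / x * I)) = (cexp (-(2 * a * v / x * I)) - 1) + 1 := by ring
    rw [h3]
    refine (norm_add_le _ _).trans ?_
    rw [norm_one]
    linarith

theorem p_wp : S_wp := by
  intro x a w v ha hx hv
  obtain ⟨h1, h2, h3⟩ := wp_E ha hx hv
  have ha' : (a : ℂ) ≠ 0 := by exact_mod_cast ha.ne'
  have hx' : (x : ℂ) ≠ 0 := by exact_mod_cast hx.ne'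
  have hI : I * I = -1 := Complex.I_mul_I
  have hd : HasDerivAt (fun v : ℂ => cexp (-(2 * a * v / x * I)))
      (cexp (-(2 * a * v / x * I)) * (-(2 * a / x * I))) v := by
    have e : HasDerivAt (fun v : ℂ => -(2 * (a : ℂ) * v / x * I)) (-(2 * a / x * I)) v := by
      have e1 := ((((hasDerivAt_id v).const_mul (2 * (a : ℂ))).div_const (x : ℂ)).mul_const I).neg
      refine (e1.congr_deriv (by rw [mul_one])).congr_of_eventuallyEq ?_
      exact Filter.Eventually.of_forall (fun u => rfl)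
    exact e.cexp
  refine ⟨?_, ?_, ?_, ?_⟩
  · unfold om Wp
    generalize cexp (-(2 * a * v / x * I)) = E
    field_simp
    linear_combination ((x : ℂ) * (E - 1)) * hI
  · have e : Wp x a w v - (w + v) = w * (cexp (-(2 * a * v / x * I)) - 1) +
        I * x / (2 * a) * (cexp (-(2 * a * v / x * I)) - 1 + 2 * a * v / x * I) := by
      unfold Wp
      generalize cexp (-(2 * a * v / x * I)) = E
      field_simp
      linear_combination (-(2 * (a : ℂ) * v)) * hI
    rw [e]
    have h4 : ‖I * (x : ℂ) / (2 * a)‖ = x / (2 * a) := by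
      rw [norm_div, norm_mul, norm_mul, Complex.norm_I, Complex.norm_real, Complex.norm_real,
        Real.norm_of_nonneg ha.le, Real.norm_of_nonneg hx.le]
      norm_num
    calc _ ≤ ‖w‖ * (4 * a * ‖v‖ / x) + x / (2 * a) * (2 * a * ‖v‖ / x) ^ 2 := by
          refine (norm_add_le _ _).trans ?_
          rw [norm_mul, norm_mul, h4]
          exact add_le_add (mul_le_mul_of_nonneg_left h1 (norm_nonneg _))
            (mul_le_mul_of_nonneg_left h2 (by positivity))
      _ = 4 * a * ‖v‖ * ‖w‖ / x + 2 * a * ‖v‖ ^ 2 / x := by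
          field_simp
      _ ≤ 4 * a * ‖v‖ * (‖v‖ + ‖w‖) / x := by
          rw [← add_div]
          refine div_le_div_of_nonneg_right ?_ hx.le
          have : 0 ≤ a * ‖v‖ ^ 2 := by positivity
          nlinarith
  · have e := (hd.const_mul w).add ((hd.sub_const 1).const_mul (I * x / (2 * a)))
    refine (e.congr_deriv ?_).congr_of_eventuallyEq ?_
    · generalize cexp (-(2 * a * v / x * I)) = E
      field_simp
      linear_combination (-(x : ℂ) * E) * hI
    · exact Filter.Eventually.of_forall (fun u => rfl)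
  · have e : cexp (-(2 * a * v / x * I)) * (1 - 2 * I * a * w / x) - 1 =
        (cexp (-(2 * a * v / x * I)) - 1) - cexp (-(2 * a * v / x * I)) * (2 * I * a * w / x) := by
      ring
    have h4 : ‖2 * I * (a : ℂ) * w / x‖ = 2 * a * ‖w‖ / x := by
      rw [norm_div, norm_mul, norm_mul, norm_mul, Complex.norm_I, Complex.norm_real,
        Complex.norm_real, Real.norm_of_nonneg ha.le, Real.norm_of_nonneg hx.le]
      norm_num
    rw [e]
    calc _ ≤ 4 * a * ‖v‖ / x + 2 * (2 * a * ‖w‖ / x) := by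
          refine (norm_sub_le _ _).trans ?_
          rw [norm_mul, h4]
          exact add_le_add h1 (mul_le_mul_of_nonneg_right h3 (by positivity))
      _ = 4 * a * (‖v‖ + ‖w‖) / x := by ring

end Pool.Agent.Lib.MP_cd509c_nt.JD
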