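import Pool.Agent.Lib.MP_cd509c_nt.JD.StmK

/-!
# JD, piece LLT: the L-function at large scales
-/

set_option autoImplicit false

namespace Pool.Agent.Lib.MP_cd509c_nt.JD

open Complex ComplexConjugate MeasureTheory
open Pool.Agent.Lib.MP_cd509c_nt.DN

theorem p_LLT (h : S_LLf) : S_LLT := by
  intro ε hε
  obtain ⟨V₀, hV₀, hV⟩ := h ε hε
  obtain ⟨C, hC0, hC⟩ := Lf_bound
  obtain ⟨K, hK⟩ : ∃ K : ℝ, K = max 0 (Real.log (29282 * C * Real.exp 4)) := ⟨_, rfl⟩
  have hK0 : 0 ≤ K := by rw [hK]; exact le_max_left _ _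
  have hKe : 29282 * C * Real.exp 4 ≤ Real.exp K := by
    have h1 : 0 < 29282 * C * Real.exp 4 := by positivity
    rw [← Real.exp_log h1, hK]
    exact Real.exp_le_exp.2 (le_max_right _ _)
  obtain ⟨A, hA⟩ : ∃ A : ℝ, A = max (Real.exp 2) (max (40 * V₀) (40 * (4 + K) / ε)) := ⟨_, rfl⟩
  have hA1 : Real.exp 2 ≤ A := by rw [hA]; exact le_max_left _ _
  have hA2 : 40 * V₀ ≤ A := by rw [hA]; exact (le_max_left _ _).trans (le_max_right _ _)
  have hA3 : 40 * (4 + K) / ε ≤ A := by rw [hA]; exact (le_max_right _ _).trans (le_max_right _ _)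
  have hA0 : 1 ≤ A := le_trans (Real.one_le_exp (by norm_num)) hA1
  refine ⟨A, hA0, fun a x l ha hx hl w v hw1 hw2 hv1 hv2 => ?_⟩
  have ha1 : 1 ≤ a := hA0.trans ha
  have hxA : A ≤ x := by
    have h1 : 1 ≤ a ^ 2 := one_le_pow₀ ha1
    nlinarith
  have hx1 : 1 ≤ x := hA0.trans hxA
  have hlog : 2 ≤ Real.log x := by
    rw [Real.le_log_iff_exp_le (by linarith)]
    exact hA1.trans hxA
  obtain ⟨hl1, hl2⟩ := abs_le.1 hl
  have hl3 : 1 ≤ l := by linarith
  have hwV : V₀ ≤ w.re := by linarith
  by_cases hva : a / 40 ≤ v.re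
  · obtain ⟨h1, h2, h3⟩ := hV w v hwV (by linarith)
    refine ⟨fun h0 => ?_, h3.trans ?_⟩
    · rw [h0, norm_zero] at h1
      linarith
    · refine mul_le_mul_of_nonneg_right (Real.exp_le_exp.2 ?_) (norm_nonneg _)
      refine mul_le_mul_of_nonneg_right ?_ (norm_nonneg _)
      nlinarith
  · push Not at hva
    obtain ⟨h1, h2, -⟩ := hV w w hwV hwV
    refine ⟨fun h0 => ?_, ?_⟩
    · rw [h0, norm_zero] at h1
      linarith
    · have hd : a / 40 ≤ ‖v - w‖ := by
        have h4 := Complex.abs_re_le_norm (v - w)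
        rw [Complex.sub_re] at h4
        have h5 := neg_abs_le (v.re - w.re)
        linarith
      have h6 : ‖LL v‖ ≤ C * (9 + |v.im|) ^ 4 := by
        have h7 := hC (6 + v) (by
          rw [Complex.add_re]
          have : (6 : ℂ).re = 6 := rfl
          rw [this]
          linarith)
        have h8 : (6 + v).im = v.im := by
          rw [Complex.add_im]
          have : (6 : ℂ).im = 0 := rfl
          rw [this, zero_add]
        rw [h8] at h7
        exact h7
      have h9 : 9 + |v.im| ≤ 11 * x := by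
        have h10 : |v.im| ≤ |v.im - x| + |x| := by
          have := abs_add_le (v.im - x) x
          rwa [sub_add_cancel] at this
        rw [abs_of_nonneg (by linarith : (0 : ℝ) ≤ x)] at h10
        linarith
      have hxe : x ≤ Real.exp (l + 1) := by
        rw [← Real.log_le_iff_le_exp (by linarith)]
        linarith
      have h11 : ‖LL v‖ ≤ C * (11 * Real.exp (l + 1)) ^ 4 := by
        refine h6.trans (mul_le_mul_of_nonneg_left ?_ hC0.le)
        exact pow_le_pow_left₀ (by positivity) (h9.trans (by linarith)) 4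
      have h12 : C * (11 * Real.exp (l + 1)) ^ 4 =
          (29282 * C * Real.exp 4) * Real.exp (4 * l) * (1 / 2) := by
        have : Real.exp (l + 1) ^ 4 = Real.exp (4 * l) * Real.exp 4 := by
          rw [← Real.exp_nat_mul, ← Real.exp_add]
          congr 1
          push_cast
          ring
        rw [mul_pow, this]
        ring
      have h13 : 4 * l + K ≤ ε * l * ‖v - w‖ := by
        have h14 : 4 + K ≤ ε * (a / 40) := by
          have := hA3.trans ha
          rw [div_le_iff₀ hε] at this
          linarith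
        have h15 : ε * (a / 40) ≤ ε * ‖v - w‖ := mul_le_mul_of_nonneg_left hd hε.le
        have h16 : (4 + K) * l ≤ ε * ‖v - w‖ * l :=
          mul_le_mul_of_nonneg_right (h14.trans h15) (by linarith)
        nlinarith
      calc ‖LL v‖ ≤ (29282 * C * Real.exp 4) * Real.exp (4 * l) * (1 / 2) := by
            rw [← h12]; exact h11
        _ ≤ Real.exp K * Real.exp (4 * l) * ‖LL w‖ := by
            refine mul_le_mul (mul_le_mul_of_nonneg_right hKe (Real.exp_pos _).le) h1
              (by norm_num) (by positivity)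
        _ ≤ Real.exp (ε * l * ‖v - w‖) * ‖LL w‖ := by
            refine mul_le_mul_of_nonneg_right ?_ (norm_nonneg _)
            rw [← Real.exp_add]
            exact Real.exp_le_exp.2 (by linarith)

end Pool.Agent.Lib.MP_cd509c_nt.JD
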