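import Pool.Agent.Lib.MP_cd509c_nt.JD.P.low
import Pool.Agent.Lib.MP_cd509c_nt.JD.P.asmW
import Pool.Agent.Lib.MP_cd509c_nt.DN.P.blockDs

set_option autoImplicit false

/-!
Project JD (helper50): common part of the two block theorems (helper49).
-/

namespace Pool.Agent.Lib.MP_cd509c_nt.JD

open Complex ComplexConjugate Pool.Agent.Lib.MP_cd509c_nt.DN

/-- the point `x² + 2ixy` -/
noncomputable def pz (z : ℂ) : ℂ := ⟨z.re ^ 2, 2 * z.re * z.im⟩

/-- its inverse on the right half plane -/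
noncomputable def zq (ω : ℂ) : ℂ := ⟨Real.sqrt ω.re, ω.im / (2 * Real.sqrt ω.re)⟩

theorem pz_zq {ω : ℂ} (h : 0 < ω.re) : pz (zq ω) = ω := by
  have h1 : 0 < Real.sqrt ω.re := Real.sqrt_pos.2 h
  apply Complex.ext
  · exact Real.sq_sqrt h.le
  · show 2 * Real.sqrt ω.re * (ω.im / (2 * Real.sqrt ω.re)) = ω.im
    field_simp

theorem pz_inj {z z' : ℂ} (h : 0 < z.re) (h' : 0 < z'.re) (e : pz z = pz z') : z = z' := by
  have h1 : z.re ^ 2 = z'.re ^ 2 := congrArg Complex.re e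
  have h2 : 2 * z.re * z.im = 2 * z'.re * z'.im := congrArg Complex.im e
  have h3 : z.re = z'.re := by
    have := abs_eq_abs.mpr (sq_eq_sq_iff_eq_or_eq_neg.mp h1)
    rwa [abs_of_pos h, abs_of_pos h'] at this
  apply Complex.ext h3
  rw [h3] at h2
  have h4 : (2 * z'.re) ≠ 0 := by positivity
  exact mul_left_cancel₀ h4 h2

theorem om_pz {x a : ℝ} (hx : 0 < x) (ha : 0 < a) {z : ℂ} (hz : z.re = x) :
    om x a ((-(z.im / a) : ℝ) : ℂ) = pz z := by
  apply Complex.ext
  · simp [om, pz, hz, pow_two]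
  · simp only [om, pz, hz]
    simp [pow_two]
    field_simp

theorem om_conj (x a y : ℝ) : om x a ((-y : ℝ) : ℂ) = conj (om x a (y : ℂ)) := by
  unfold om
  simp [map_ofNat]

theorem hd_conj (D n : ℕ) (w : ℂ) :
    iteratedDeriv n (Hd D ff) (conj w) = conj (iteratedDeriv n (Hd D ff) w) := by
  apply iteratedDeriv_conj'
  intro w
  unfold Hd
  rw [map_sum]
  apply Finset.sum_congr rfl
  intro k _
  have h1 : conj (iteratedDeriv k ff 0) = iteratedDeriv k ff 0 := by
    have h2 := iteratedDeriv_conj' ff_conj k 0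
    rw [map_zero] at h2
    exact h2.symm
  simp [map_mul, map_pow, map_div₀, h1]

/-- a zero gives a zero on the positive side -/
theorem hd_lev {D n : ℕ} {x a : ℝ} (hx : 0 < x) (ha : 0 < a) {z : ℂ} (hz : z.re = x)
    (h0 : iteratedDeriv n (Hd D ff) (pz z) = 0) :
    iteratedDeriv n (Hd D ff) (om x a ((|z.im| / a : ℝ) : ℂ)) = 0 := by
  have h1 := om_pz hx ha hz
  rcases le_total z.im 0 with h | h
  · rw [abs_of_nonpos h, neg_div, h1, h0]
  · rw [abs_of_nonneg h]
    have h2 := om_conj x a (z.im / a)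
    rw [h1] at h2
    have h3 : om x a ((z.im / a : ℝ) : ℂ) = conj (pz z) := by
      rw [h2, Complex.conj_conj]
    rw [h3, hd_conj, h0, map_zero]

/-- Far from the axis there are no zeros. -/
theorem jd_far (hFZ : S_FZ) (A : ℝ) (hA : 1 ≤ A) : ∃ W T₁ : ℝ, 1 ≤ W ∧ 2 ≤ T₁ ∧
    ∀ (D n : ℕ) (T : ℝ) (ω : ℂ), T₁ ≤ T → (n : ℝ) ≤ A * Real.log T → T ^ 2 ≤ ω.re →
      ω.re ≤ 4 * T ^ 2 → ‖ω‖ ≤ D * Real.log D ^ 2 → iteratedDeriv n (Hd D ff) ω = 0 →
      |ω.im| ≤ W * T * (1 + T ^ 2 * Real.log T / D) := by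
  obtain ⟨V, T₀, hV, hT₀, h⟩ := hFZ A hA
  -- large `D`
  have hev : ∃ D₁ : ℝ, 2 ≤ D₁ ∧ ∀ D : ℝ, D₁ ≤ D →
      10 * V * Real.log D ^ 2 ≤ Real.sqrt D ∧ Real.log D ^ 2 ≤ D := by
    have h1 := (isLittleO_log_rpow_atTop (show (0 : ℝ) < 1 / 4 by norm_num)).bound
      (show (0 : ℝ) < 1 / (10 * V) by positivity)
    rw [Filter.eventually_atTop] at h1
    obtain ⟨D₁, hD₁⟩ := h1
    refine ⟨max D₁ 2, le_max_right _ _, fun D hD => ?_⟩
    have hD2 : 2 ≤ D := (le_max_right _ _).trans hD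
    have hD0 : 0 < D := by linarith
    have h2 := hD₁ D ((le_max_left _ _).trans hD)
    have hl := Real.log_nonneg (show 1 ≤ D by linarith)
    rw [Real.norm_of_nonneg hl, Real.norm_of_nonneg (by positivity)] at h2
    have hq : (D ^ (1 / 4 : ℝ)) ^ 2 = Real.sqrt D := by
      rw [Real.sqrt_eq_rpow, ← Real.rpow_natCast, ← Real.rpow_mul hD0.le]
      norm_num
    have h3 : 10 * V * Real.log D ≤ D ^ (1 / 4 : ℝ) := by
      calc 10 * V * Real.log D ≤ 10 * V * (1 / (10 * V) * D ^ (1 / 4 : ℝ)) :=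
            mul_le_mul_of_nonneg_left h2 (by positivity)
        _ = _ := by field_simp
    have h4 : (10 * V * Real.log D) ^ 2 ≤ Real.sqrt D := by
      rw [← hq]
      exact pow_le_pow_left₀ (by positivity) h3 2
    have hs : Real.sqrt D ≤ D := by
      rw [Real.sqrt_le_left hD0.le]; nlinarith
    have h5 : 10 * V * Real.log D ^ 2 ≤ (10 * V * Real.log D) ^ 2 := by
      have : 1 ≤ 10 * V := by linarith
      nlinarith [mul_nonneg hl hl, mul_nonneg (mul_nonneg hl hl) (show 0 ≤ 10 * V by linarith)]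
    have h6 : Real.log D ^ 2 ≤ 10 * V * Real.log D ^ 2 := by
      nlinarith [sq_nonneg (Real.log D)]
    exact ⟨h5.trans h4, h6.trans (h5.trans (h4.trans hs))⟩
  obtain ⟨D₁, hD₁2, hD₁⟩ := hev
  refine ⟨140 * V, max T₀ (max (4 * V) (D₁ ^ 2)), by linarith,
    hT₀.trans (le_max_left _ _), ?_⟩
  intro D n T ω hT hn h1 h2 h3 h0
  have hTT₀ : T₀ ≤ T := (le_max_left _ _).trans hT
  have hT4V : 4 * V ≤ T := ((le_max_left _ _).trans (le_max_right _ _)).trans hT
  have hTD₁ : D₁ ^ 2 ≤ T := ((le_max_right _ _).trans (le_max_right _ _)).trans hT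
  have hT2 : 2 ≤ T := hT₀.trans hTT₀
  have hT0 : 0 < T := by linarith
  have hlT : 0 < Real.log T := Real.log_pos (by linarith)
  have hωre : ω.re ≤ ‖ω‖ := Complex.re_le_norm ω
  -- `D` is large
  have hD0 : (0 : ℝ) ≤ D := Nat.cast_nonneg D
  have hDpos : 0 < (D : ℝ) := by
    rcases hD0.eq_or_lt with hd | hd
    · rw [← hd] at h3
      simp only [zero_mul] at h3
      have : 0 < T ^ 2 := by positivity
      linarith
    · exact hd
  have hD1 : (1 : ℝ) ≤ D := by
    have : 1 ≤ D := by exact_mod_cast (by exact_mod_cast hDpos : 0 < D)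
    exact_mod_cast this
  have hlD0 : 0 ≤ Real.log D := Real.log_nonneg hD1
  have hlDD : Real.log D ≤ D := (Real.log_le_sub_one_of_pos hDpos).trans (by linarith)
  have hDD₁ : D₁ ≤ D := by
    by_contra hcon
    rw [not_le] at hcon
    have e1 : (D : ℝ) * Real.log D ^ 2 ≤ D₁ ^ 3 := by
      calc (D : ℝ) * Real.log D ^ 2 ≤ D₁ * D₁ ^ 2 := by
            apply mul_le_mul hcon.le _ (by positivity) (by linarith)
            exact pow_le_pow_left₀ hlD0 (hlDD.trans hcon.le) 2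
        _ = D₁ ^ 3 := by ring
    have e2 : D₁ ^ 4 ≤ T ^ 2 := by
      calc D₁ ^ 4 = (D₁ ^ 2) ^ 2 := by ring
        _ ≤ T ^ 2 := pow_le_pow_left₀ (by positivity) hTD₁ 2
    have e3 : D₁ ^ 3 < D₁ ^ 4 := by
      have : 0 < D₁ ^ 3 := by positivity
      nlinarith
    linarith
  obtain ⟨hV1, hl2⟩ := hD₁ D hDD₁
  -- the square root
  set z : ℂ := ω ^ (1 / 2 : ℂ) with hz
  have hω0 : ω ≠ 0 := by
    rintro rfl
    simp at h1
    have : 0 < T ^ 2 := by positivity
    linarith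
  have hz2 : z ^ 2 = ω := by
    rw [hz, ← Complex.cpow_nat_mul]
    norm_num
  have hzn : ‖z‖ ^ 2 = ‖ω‖ := by rw [← norm_pow, hz2]
  have hre : z.re ^ 2 - z.im ^ 2 = ω.re := by
    rw [← hz2, pow_two z, Complex.mul_re]; ring
  have him : 2 * z.re * z.im = ω.im := by
    rw [← hz2, pow_two z, Complex.mul_im]; ring
  have hsum : z.re ^ 2 + z.im ^ 2 = ‖z‖ ^ 2 := by
    rw [← Complex.normSq_eq_norm_sq, Complex.normSq_apply]; ring
  have hTz : T ≤ ‖z‖ := by
    apply le_of_sq_le_sq _ (norm_nonneg z)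
    rw [hzn]; linarith
  have hzD2 : ‖z‖ ^ 2 ≤ D * Real.log D ^ 2 := by rw [hzn]; exact h3
  have hsD : Real.sqrt D ^ 2 = D := Real.sq_sqrt hD0
  have hsD0 : 0 ≤ Real.sqrt D := Real.sqrt_nonneg _
  have hzD : ‖z‖ ≤ Real.sqrt D * Real.log D := by
    apply le_of_sq_le_sq _ (by positivity)
    rw [mul_pow, hsD]; exact hzD2
  have hzD' : ‖z‖ ≤ D := by
    apply le_of_sq_le_sq _ hD0
    calc ‖z‖ ^ 2 ≤ D * Real.log D ^ 2 := hzD2
      _ ≤ D * D := mul_le_mul_of_nonneg_left hl2 hD0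
      _ = (D : ℝ) ^ 2 := by ring
  have hlz0 : 0 ≤ Real.log ‖z‖ := Real.log_nonneg (by linarith)
  have hlzD : Real.log ‖z‖ ≤ Real.log D := Real.log_le_log (by linarith) hzD'
  by_contra hcon
  rw [not_le] at hcon
  refine h D n z (hTT₀.trans hTz) ?_ hzD' ?_ (by rw [hz2]; exact h0)
  · exact hn.trans (mul_le_mul_of_nonneg_left (Real.log_le_log hT0 hTz) (by linarith))
  set m : ℝ := T ^ 2 * Real.log T / D with hm
  have hm0 : 0 ≤ m := by positivity
  have hzre0 : 0 ≤ z.re ^ 2 := sq_nonneg _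
  rcases le_or_gt (|z.im|) (|z.re| / 2) with hc | hc
  · -- the point is near the axis
    have hc2 : z.im ^ 2 ≤ z.re ^ 2 / 4 := by
      have := pow_le_pow_left₀ (abs_nonneg _) hc 2
      rw [div_pow, sq_abs, sq_abs] at this
      linarith
    have hx2 : z.re ^ 2 ≤ 16 / 3 * T ^ 2 := by linarith
    have hxT : |z.re| ≤ 5 / 2 * T := by
      apply abs_le_of_sq_le_sq _ (by positivity) 
      nlinarith
    have hzT : ‖z‖ ^ 2 ≤ 7 * T ^ 2 := by linarith
    have hlz : Real.log ‖z‖ ≤ 4 * Real.log T := by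
      have e1 : ‖z‖ ≤ T ^ 4 := by
        apply le_of_sq_le_sq _ (by positivity)
        have e2 : 8 * T ^ 2 ≤ (T ^ 4) ^ 2 := by
          have : (T ^ 4) ^ 2 = T ^ 6 * T ^ 2 := by ring
          rw [this]
          apply mul_le_mul_of_nonneg_right _ (by positivity)
          calc (8 : ℝ) ≤ 2 ^ 6 := by norm_num
            _ ≤ T ^ 6 := pow_le_pow_left₀ (by norm_num) hT2 6
        nlinarith
      have := Real.log_le_log (by linarith) e1
      rwa [Real.log_pow] at this
    have hb : ‖z‖ ^ 2 * Real.log ‖z‖ / D ≤ 28 * m := by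
      rw [hm, ← mul_div_assoc]
      apply div_le_div_of_nonneg_right _ hD0
      calc ‖z‖ ^ 2 * Real.log ‖z‖ ≤ 7 * T ^ 2 * (4 * Real.log T) :=
            mul_le_mul hzT hlz hlz0 (by positivity)
        _ = _ := by ring
    have hi : 140 * V * T * (1 + m) < 5 * T * |z.im| := by
      calc 140 * V * T * (1 + m) < |ω.im| := hcon
        _ = 2 * |z.re| * |z.im| := by rw [← him, abs_mul, abs_mul, abs_two]
        _ ≤ 2 * (5 / 2 * T) * |z.im| := by
            apply mul_le_mul_of_nonneg_right _ (abs_nonneg _)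
            linarith
        _ = _ := by ring
    have hi2 : 28 * V * (1 + m) < |z.im| :=
      lt_of_mul_lt_mul_left (a := 5 * T) (by linarith [hi]) (by positivity)
    calc V * (1 + ‖z‖ ^ 2 * Real.log ‖z‖ / D) ≤ V * (1 + 28 * m) := by
          apply mul_le_mul_of_nonneg_left _ (by linarith)
          linarith
      _ ≤ V * (28 * (1 + m)) := by
          apply mul_le_mul_of_nonneg_left _ (by linarith)
          linarith
      _ = 28 * V * (1 + m) := by ring
      _ ≤ |z.im| := hi2.le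
  · -- large imaginary part
    have hc2 : z.re ^ 2 ≤ 4 * z.im ^ 2 := by
      have := pow_le_pow_left₀ (by positivity) hc.le 2
      rw [div_pow, sq_abs, sq_abs] at this
      linarith
    have hzi : ‖z‖ ^ 2 ≤ 5 * z.im ^ 2 := by linarith
    have hxT : T ≤ |z.re| := by
      apply le_of_sq_le_sq _ (abs_nonneg _)
      rw [sq_abs]
      nlinarith [sq_nonneg z.im]
    have hyz : |z.im| ≤ ‖z‖ := Complex.abs_im_le_norm z
    have hy0 : 0 ≤ |z.im| := abs_nonneg _
    have hb : ‖z‖ ^ 2 * Real.log ‖z‖ / D ≤ 5 * Real.log D ^ 2 / Real.sqrt D * |z.im| := by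
      have hs0 : 0 < Real.sqrt D := Real.sqrt_pos.2 hDpos
      rw [div_le_iff₀ hDpos]
      have e : 5 * Real.log D ^ 2 / Real.sqrt D * |z.im| * D =
          5 * |z.im| * (Real.sqrt D * Real.log D) * Real.log D := by
        calc 5 * Real.log D ^ 2 / Real.sqrt D * |z.im| * D =
            5 * Real.log D ^ 2 * |z.im| * ((D : ℝ) / Real.sqrt D) := by ring
          _ = _ := by rw [Real.div_sqrt]; ring
      rw [e]
      have h5 : ‖z‖ ^ 2 ≤ 5 * |z.im| * (Real.sqrt D * Real.log D) := by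
        calc ‖z‖ ^ 2 ≤ 5 * z.im ^ 2 := hzi
          _ = 5 * |z.im| * |z.im| := by rw [← sq_abs]; ring
          _ ≤ _ := mul_le_mul_of_nonneg_left (hyz.trans hzD) (by positivity)
      exact mul_le_mul h5 hlzD hlz0 (by positivity)
    have hb2 : V * (5 * Real.log D ^ 2 / Real.sqrt D * |z.im|) ≤ |z.im| / 2 := by
      have hs0 : 0 < Real.sqrt D := Real.sqrt_pos.2 hDpos
      have e : V * (5 * Real.log D ^ 2 / Real.sqrt D * |z.im|) =
          (10 * V * Real.log D ^ 2) / Real.sqrt D * (|z.im| / 2) := by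
        field_simp
        ring
      rw [e]
      have : (10 * V * Real.log D ^ 2) / Real.sqrt D ≤ 1 := by
        rw [div_le_one hs0]; exact hV1
      nlinarith
    calc V * (1 + ‖z‖ ^ 2 * Real.log ‖z‖ / D)
        ≤ V * (1 + 5 * Real.log D ^ 2 / Real.sqrt D * |z.im|) := by
          apply mul_le_mul_of_nonneg_left _ (by linarith)
          linarith
      _ = V + V * (5 * Real.log D ^ 2 / Real.sqrt D * |z.im|) := by ring
      _ ≤ V + |z.im| / 2 := by linarith
      _ ≤ |z.im| := by linarith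

end Pool.Agent.Lib.MP_cd509c_nt.JD
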