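import Pool.Agent.Lib.MP_cd509c_nt.JD.P.blk0

set_option autoImplicit false

/-!
Project JD (helper50): the core of the two block theorems (helper49).
-/

namespace Pool.Agent.Lib.MP_cd509c_nt.JD

open Complex ComplexConjugate Pool.Agent.Lib.MP_cd509c_nt.DN

theorem om_ord {H : ℂ → ℂ} (hH : Differentiable ℂ H) {x a : ℝ} (hx : 0 < x) (ha : 0 < a)
    (w : ℂ) : analyticOrderNatAt H (om x a w) =
      analyticOrderNatAt (fun w => H (om x a w)) w := by
  have hgd : ∀ w, HasDerivAt (om x a) (-(2 * I * a * x)) w := by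
    intro w
    have h1 : HasDerivAt (fun w : ℂ => 2 * I * (a : ℂ) * x * w) (2 * I * (a : ℂ) * x * 1) w :=
      (hasDerivAt_id w).const_mul _
    have h2 := h1.const_sub ((x : ℂ) ^ 2)
    rw [mul_one] at h2
    exact h2
  have hga : AnalyticAt ℂ (om x a) w := by
    have : Differentiable ℂ (om x a) := fun w => (hgd w).differentiableAt
    exact this.analyticAt w
  have ha' : (a : ℂ) ≠ 0 := by exact_mod_cast ha.ne'
  have hx' : (x : ℂ) ≠ 0 := by exact_mod_cast hx.ne'
  have h1 : analyticOrderAt (H ∘ om x a) w = analyticOrderAt H (om x a w) := by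
    apply analyticOrderAt_comp_of_deriv_ne_zero hga
    rw [(hgd w).deriv]
    exact neg_ne_zero.mpr (mul_ne_zero (mul_ne_zero (mul_ne_zero two_ne_zero I_ne_zero) ha') hx')
  unfold analyticOrderNatAt
  rw [← h1]
  rfl

/-- local count -/
theorem blk_sum {H : ℂ → ℂ} (hH : Differentiable ℂ H) {C N b Y x a : ℝ} (hC : 0 < C)
    (hN : 0 < N) (hb : 1 ≤ b) (ha : 0 < a) (hx : 0 < x) (hbx : 10 * (b * a) ≤ x)
    (hne : H (om x a ((2 * b : ℝ) : ℂ)) ≠ 0)
    (hgr : ∀ w : ℂ, ‖w - ((2 * b : ℝ) : ℂ)‖ ≤ 16 * b →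
      ‖H (om x a w)‖ ≤ Real.exp (C * N * b) * ‖H (om x a ((2 * b : ℝ) : ℂ))‖)
    (S : Finset ℂ) (hS : ∀ z ∈ S, |z.re - x| ≤ b * a ∧ |z.im| ≤ b * a) :
    ∑ z ∈ S, (analyticOrderNatAt H (pz z) : ℝ) ≤ C * b * N := by
  classical
  have hb0 : 0 < b := by linarith
  have ha' : (a : ℂ) ≠ 0 := by exact_mod_cast ha.ne'
  have hx' : (x : ℂ) ≠ 0 := by exact_mod_cast hx.ne'
  set φ : ℂ → ℂ := fun z => ⟨-(z.re * z.im) / (a * x), (z.re ^ 2 - x ^ 2) / (2 * a * x)⟩ with hφ
  have hinv : ∀ z, om x a (φ z) = pz z := by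
    intro z
    apply Complex.ext
    · simp [om, pz, hφ, pow_two]
      field_simp
      ring
    · simp [om, pz, hφ, pow_two]
      field_simp
  have hpos : ∀ z ∈ S, 0 < z.re := by
    intro z hz
    have h1 := (abs_le.mp (hS z hz).1).1
    linarith
  have hinj : Set.InjOn φ S := by
    intro z hz z' hz' h
    apply pz_inj (hpos z hz) (hpos z' hz')
    rw [← hinv z, h, hinv z']
  have hcomp : Differentiable ℂ (fun w => H (om x a w)) := by
    apply hH.comp
    unfold om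
    fun_prop
  have hJ := p_jen (fun w => H (om x a w)) ((2 * b : ℝ) : ℂ) (4 * b)
    (Real.exp (C * N * b) * ‖H (om x a ((2 * b : ℝ) : ℂ))‖)
    hcomp (by linarith) (by
      intro w hw
      apply hgr w
      linarith) hne (S.image φ) (by
      intro w hw
      rw [Finset.mem_image] at hw
      obtain ⟨z, hz, rfl⟩ := hw
      obtain ⟨hz1, hz2⟩ := hS z hz
      have hzx := abs_le.mp hz1
      have hzp := hpos z hz
      have hre : |(φ z).re| ≤ 11 / 10 * b := by
        show |-(z.re * z.im) / (a * x)| ≤ 11 / 10 * b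
        rw [abs_div, abs_neg, abs_mul, abs_of_pos hzp, abs_of_pos (show 0 < a * x by positivity),
          div_le_iff₀ (by positivity)]
        have h1 : z.re ≤ 11 / 10 * x := by linarith
        calc z.re * |z.im| ≤ 11 / 10 * x * (b * a) :=
              mul_le_mul h1 hz2 (abs_nonneg _) (by positivity)
          _ = _ := by ring
      have him : |(φ z).im| ≤ 11 / 10 * b := by
        show |(z.re ^ 2 - x ^ 2) / (2 * a * x)| ≤ 11 / 10 * b
        rw [abs_div, abs_of_pos (show 0 < 2 * a * x by positivity), div_le_iff₀ (by positivity)]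
        have e : z.re ^ 2 - x ^ 2 = (z.re - x) * (z.re + x) := by ring
        rw [e, abs_mul, abs_of_pos (show 0 < z.re + x by linarith)]
        calc |z.re - x| * (z.re + x) ≤ b * a * (22 / 10 * x) := by
              apply mul_le_mul hz1 (by linarith) (by linarith) (by positivity)
          _ = _ := by ring
      have hsq : ‖φ z - ((2 * b : ℝ) : ℂ)‖ ^ 2 ≤ (4 * b) ^ 2 := by
        rw [← Complex.normSq_eq_norm_sq, Complex.normSq_apply]
        have e1 : (φ z - ((2 * b : ℝ) : ℂ)).re = (φ z).re - 2 * b := by simp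
        have e2 : (φ z - ((2 * b : ℝ) : ℂ)).im = (φ z).im := by simp
        rw [e1, e2]
        obtain ⟨r1, r2⟩ := abs_le.mp hre
        obtain ⟨i1, i2⟩ := abs_le.mp him
        nlinarith
      exact le_of_sq_le_sq hsq (by positivity))
  rw [Finset.sum_image (fun z hz z' hz' h => hinj hz hz' h)] at hJ
  have e1 : ∀ z ∈ S, (analyticOrderNatAt (fun w => H (om x a w)) (φ z) : ℝ) =
      (analyticOrderNatAt H (pz z) : ℝ) := by
    intro z _
    rw [← om_ord hH hx ha, hinv]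
  rw [Finset.sum_congr rfl e1] at hJ
  have hn0 : 0 < ‖H (om x a ((2 * b : ℝ) : ℂ))‖ := norm_pos_iff.mpr hne
  rw [mul_div_cancel_right₀ _ hn0.ne', Real.log_exp] at hJ
  have hl3 : 1 ≤ Real.log 3 := by
    rw [Real.le_log_iff_exp_le (by norm_num)]
    have := Real.exp_one_lt_d9
    linarith
  have h0 : 0 ≤ ∑ z ∈ S, (analyticOrderNatAt H (pz z) : ℝ) :=
    Finset.sum_nonneg fun _ _ => Nat.cast_nonneg _
  nlinarith

/-- bad intervals for the scale `4 b` -/
theorem blk_bad {C c T₀ ε V : ℝ}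
    (h : ∀ T : ℝ, T₀ ≤ T → ∀ b : ℝ, 0 < b → b ≤ V → ∀ S : Finset ℤ,
      (∀ k ∈ S, T ≤ (k + 1) * b ∧ k * b ≤ 2 * T ∧
        ∃ x ∈ Set.Icc (k * b) ((k + 1) * b), ¬ DN.Good ε x b (Real.log T)) →
      (S.card : ℝ) ≤ C * 1 * (T / b) * Real.exp (-(c * b * Real.log T)))
    {T b : ℝ} (hT : T₀ ≤ T) (hb : 0 < b) (hbV : b ≤ V) (S : Finset ℤ)
    (hS : ∀ k ∈ S, ∃ x ∈ Set.Icc (k * (4 * b)) ((k + 1) * (4 * b)), T ≤ x ∧ x ≤ 2 * T ∧
      ¬ DN.Good ε x b (Real.log T)) :
    (S.card : ℝ) ≤ 4 * C * (T / (4 * b)) * Real.exp (-(c / 4 * (4 * b) * Real.log T)) := by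
  classical
  have hex : ∀ k : ℤ, ∃ x : ℝ, k ∈ S → (x ∈ Set.Icc (k * (4 * b)) ((k + 1) * (4 * b)) ∧ T ≤ x ∧
      x ≤ 2 * T ∧ ¬ DN.Good ε x b (Real.log T)) := by
    intro k
    by_cases hk : k ∈ S
    · obtain ⟨x, hx1, hx2⟩ := hS k hk
      exact ⟨x, fun _ => ⟨hx1, hx2⟩⟩
    · exact ⟨0, fun h => absurd h hk⟩
  choose X hX using hex
  set g : ℤ → ℤ := fun k => min ⌊X k / b⌋ (4 * k + 3) with hg
  have hgk : ∀ k ∈ S, 4 * k ≤ g k ∧ g k ≤ 4 * k + 3 := by
    intro k hk
    obtain ⟨⟨h1, h2⟩, -⟩ := hX k hk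
    refine ⟨le_min ?_ (by omega), min_le_right _ _⟩
    rw [Int.le_floor, le_div_iff₀ hb]
    push_cast
    linarith
  have hinj : Set.InjOn g S := by
    intro k hk k' hk' e
    have h1 := hgk k hk
    have h2 := hgk k' hk'
    rw [e] at h1
    omega
  have hcard : (S.image g).card = S.card := Finset.card_image_of_injOn hinj
  have key := h T hT b hb hbV (S.image g) (by
    intro j hj
    rw [Finset.mem_image] at hj
    obtain ⟨k, hk, rfl⟩ := hj
    obtain ⟨⟨h1, h2⟩, h3, h4, h5⟩ := hX k hk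
    have e1 : ((g k : ℤ) : ℝ) * b ≤ X k := by
      have : (g k : ℤ) ≤ ⌊X k / b⌋ := min_le_left _ _
      have h6 : ((g k : ℤ) : ℝ) ≤ ((⌊X k / b⌋ : ℤ) : ℝ) := by exact_mod_cast this
      have h7 := Int.floor_le (X k / b)
      rw [← le_div_iff₀ hb]
      linarith
    have e2 : X k ≤ (((g k : ℤ) : ℝ) + 1) * b := by
      rcases min_choice ⌊X k / b⌋ (4 * k + 3) with hm | hm
      · have h7 := (Int.lt_floor_add_one (X k / b)).le
        rw [div_le_iff₀ hb] at h7
        rw [hg]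
        simp only
        rw [hm]
        exact h7
      · rw [hg]
        simp only
        rw [hm]
        push_cast
        linarith
    exact ⟨h3.trans e2, e1.trans h4, X k, ⟨e1, e2⟩, h5⟩)
  rw [hcard] at key
  refine key.trans (le_of_eq ?_)
  have e3 : c / 4 * (4 * b) * Real.log T = c * b * Real.log T := by ring
  rw [e3]
  field_simp

end Pool.Agent.Lib.MP_cd509c_nt.JD
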