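import Pool.Agent.Lib.MP_cd509c_nt.JD.P.blk1

set_option autoImplicit false

/-!
Project JD (helper50): the core of the two block theorems, assembly (helper49).
-/

namespace Pool.Agent.Lib.MP_cd509c_nt.JD

open Complex ComplexConjugate Pool.Agent.Lib.MP_cd509c_nt.DN

theorem blk_core (hmb : S_mb (fun _ => 1)) (ε V C : ℝ) (hε : 0 < ε) (hV : 1 ≤ V) (hC : 0 < C) :
    ∃ C₃ c T₀ : ℝ, 0 < C₃ ∧ 0 < c ∧ 2 ≤ T₀ ∧ ∀ (D n J : ℕ) (T a N Y : ℝ), T₀ ≤ T → 0 < a →
      N = a * Real.log T → 1 ≤ N → V ≤ 2 ^ J * (a / 4) → 2 ^ J * (a / 4) ≤ 2 * V →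
      (∀ j < J, (2 : ℝ) ^ j * (a / 4) < V) →
      (∀ x : ℝ, T ≤ x → x ≤ 2 * T → ∀ i ≤ J,
        (∀ j, i ≤ j → j ≤ J → DN.Good ε x (2 ^ j * (a / 4)) (Real.log T)) →
        NearC C N (2 ^ i) Y x a (iteratedDeriv n (Hd D ff))) →
      (∀ z : ℂ, T ≤ z.re → z.re ≤ 2 * T → iteratedDeriv n (Hd D ff) (pz z) = 0 →
        ‖pz z‖ ≤ D * Real.log D ^ 2 → |z.im| / a ≤ Y / 10) →
      (∀ x : ℝ, T ≤ x → x ≤ 2 * T → DN.Good ε x (2 ^ J * (a / 4)) (Real.log T)) →
      ∀ S : Finset ℂ, (∀ ω ∈ S, iteratedDeriv n (Hd D ff) ω = 0 ∧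
        (ω.im ≠ 0 ∨ deriv (iteratedDeriv n (Hd D ff)) ω = 0) ∧ T ^ 2 ≤ ω.re ∧ ω.re ≤ 4 * T ^ 2 ∧
        ‖ω‖ ≤ D * Real.log D ^ 2) →
      ordS (iteratedDeriv n (Hd D ff)) S ≤ C₃ * T * Real.log T * Real.exp (-(c * N)) := by
  classical
  obtain ⟨C₂, c, T₁, hC₂, hc, hT₁, hmb'⟩ := hmb ε V hε hV
  obtain ⟨C₃, hC₃, hasm⟩ := p_asmW C (4 * C₂) (c / 4) hC (by linarith) (by linarith)
  refine ⟨C₃, c / 4, max T₁ (80 * V), hC₃, by linarith, hT₁.trans (le_max_left _ _), ?_⟩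
  intro D n J T a N Y hT ha hN hN1 hJ1 hJ2 hJ3 hnear hfar htop S hS
  have hTT₁ : T₁ ≤ T := (le_max_left _ _).trans hT
  have hT80 : 80 * V ≤ T := (le_max_right _ _).trans hT
  have hT2 : 2 ≤ T := hT₁.trans hTT₁
  have hT0 : 0 < T := by linarith
  have hl0 : 0 < Real.log T := Real.log_pos (by linarith)
  set H := iteratedDeriv n (Hd D ff) with hH
  have hHd : Differentiable ℂ H := jd_low_diff D n ff
  have hpow : ∀ j : ℕ, (1 : ℝ) ≤ 2 ^ j := fun j => one_le_pow₀ (by norm_num)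
  have hja : ∀ j ≤ J, 10 * ((2 : ℝ) ^ j * a) ≤ T := by
    intro j hj
    have h1 : (2 : ℝ) ^ j ≤ 2 ^ J := pow_le_pow_right₀ (by norm_num) hj
    have h2 : (2 : ℝ) ^ j * a ≤ 2 ^ J * a := mul_le_mul_of_nonneg_right h1 ha.le
    linarith
  have key := hasm (fun z => H (pz z) = 0 ∧ ‖pz z‖ ≤ D * Real.log D ^ 2)
    (fun z => z.im ≠ 0 ∨ deriv H (pz z) = 0)
    (fun z => (analyticOrderNatAt H (pz z) : ℝ)) T (Real.log T) a N J
    (fun x j => DN.Good ε x (2 ^ j * (a / 4)) (Real.log T)) hN1 ha hl0 hN (by linarith)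
    (fun z => Nat.cast_nonneg _)
    (by
      intro x hx1 hx2 hg z hz hre hP
      obtain ⟨h1, h2, -⟩ := hnear x hx1 hx2 0 (Nat.zero_le _) (fun j _ hj => hg j hj)
      have hx0 : 0 < x := by linarith
      have hlev := hd_lev hx0 ha hre hz.1
      have him : z.im = 0 := by
        by_contra him
        exact h1 (by norm_num) (|z.im| / a) (div_pos (abs_pos.mpr him) ha)
          (hfar z (by rw [hre]; exact hx1) (by rw [hre]; exact hx2) hz.1 hz.2) hlev
      have hpz : pz z = ((x ^ 2 : ℝ) : ℂ) := by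
        apply Complex.ext
        · show z.re ^ 2 = x ^ 2
          rw [hre]
        · show 2 * z.re * z.im = 0
          rw [him, mul_zero]
      rw [Complex.ofReal_pow] at hpz
      rcases hP with h | h
      · exact h him
      · rw [hpz] at h
        exact h2 (by norm_num) (by rw [← hpz]; exact hz.1) h)
    (by
      intro x hx1 hx2 j hj hj1 hg z hz hre
      by_contra him
      rw [not_le] at him
      obtain ⟨-, -, h3, -⟩ := hnear x hx1 hx2 j hj hg
      have hb2 : (2 : ℝ) ≤ 2 ^ j := by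
        calc (2 : ℝ) = 2 ^ 1 := by norm_num
          _ ≤ 2 ^ j := pow_le_pow_right₀ (by norm_num) hj1
      exact h3 hb2 (|z.im| / a) (by rw [le_div_iff₀ ha]; exact him.le)
        (hfar z (by rw [hre]; exact hx1) (by rw [hre]; exact hx2) hz.1 hz.2)
        (hd_lev (by linarith) ha hre hz.1))
    (by
      intro x hx1 hx2 j hj hj1 hg S' hS'
      obtain ⟨-, -, -, h4, h5⟩ := hnear x hx1 hx2 j hj hg
      exact blk_sum (Y := Y) hHd hC (by linarith) (hpow j) ha (by linarith)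
        ((hja j hj).trans hx1) h4 h5 S' (fun z hz => (hS' z hz).2))
    htop
    (by
      intro j hj S' hS'
      have h1 := blk_bad (C := C₂) (c := c) (T₀ := T₁) (ε := ε) (V := V) (fun T hT b hb hbV S h =>
        hmb' T hT b hb hbV S h) hTT₁ (b := 2 ^ j * (a / 4)) (by positivity) (hJ3 j hj).le S' (by
          intro k hk
          obtain ⟨-, -, x, hx, hx1, hx2, hx3⟩ := hS' k hk
          have e : (4 : ℝ) * (2 ^ j * (a / 4)) = 2 ^ j * a := by ring
          rw [e]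
          exact ⟨x, hx, hx1, hx2, hx3⟩)
      have e : (4 : ℝ) * (2 ^ j * (a / 4)) = 2 ^ j * a := by ring
      rw [e] at h1
      have e2 : c / 4 * (2 ^ j * a) * Real.log T = c / 4 * 2 ^ j * N := by rw [hN]; ring
      rw [e2] at h1
      exact h1)
    (S.image zq)
    (by
      intro z hz
      rw [Finset.mem_image] at hz
      obtain ⟨ω, hω, rfl⟩ := hz
      obtain ⟨h1, h2, h3, h4, h5⟩ := hS ω hω
      have hre : 0 < ω.re := lt_of_lt_of_le (by positivity) h3
      have hs := Real.sqrt_pos.2 hre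
      simp only [pz_zq hre]
      refine ⟨⟨h1, h5⟩, ?_, ?_, ?_⟩
      · rcases h2 with h2 | h2
        · left
          show ω.im / (2 * Real.sqrt ω.re) ≠ 0
          exact div_ne_zero h2 (by positivity)
        · right; exact h2
      · show T ≤ Real.sqrt ω.re
        exact Real.le_sqrt_of_sq_le h3
      · show Real.sqrt ω.re ≤ 2 * T
        rw [Real.sqrt_le_left (by linarith)]
        linarith)
  rw [Finset.sum_image (by
    intro ω hω ω' hω' h
    have h1 : 0 < ω.re := lt_of_lt_of_le (by positivity) (hS ω hω).2.2.1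
    have h2 : 0 < ω'.re := lt_of_lt_of_le (by positivity) (hS ω' hω').2.2.1
    rw [← pz_zq h1, h, pz_zq h2])] at key
  have e : ordS H S = ∑ ω ∈ S, (analyticOrderNatAt H (pz (zq ω)) : ℝ) := by
    unfold ordS
    apply Finset.sum_congr rfl
    intro ω hω
    rw [pz_zq (lt_of_lt_of_le (by positivity) (hS ω hω).2.2.1)]
  rw [e]
  exact key

/-- `log T` is small compared with `T` -/
theorem blk_ev (K : ℝ) : ∃ T₀ : ℝ, 2 ≤ T₀ ∧ ∀ T : ℝ, T₀ ≤ T →
    K * Real.log T ^ 6 ≤ T ∧ K ≤ Real.log T := by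
  set K' := max K 1 with hK'
  have hK1 : 1 ≤ K' := le_max_right _ _
  have h1 := (isLittleO_log_rpow_atTop (show (0 : ℝ) < 1 / 6 by norm_num)).bound
    (show (0 : ℝ) < 1 / K' by positivity)
  rw [Filter.eventually_atTop] at h1
  obtain ⟨D₁, hD₁⟩ := h1
  refine ⟨max D₁ (max 2 (Real.exp K)), (le_max_left _ _).trans (le_max_right _ _),
    fun T hT => ?_⟩
  have hT2 : 2 ≤ T := ((le_max_left _ _).trans (le_max_right _ _)).trans hT
  have hTe : Real.exp K ≤ T := ((le_max_right _ _).trans (le_max_right _ _)).trans hT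
  have hT0 : 0 < T := by linarith
  have h2 := hD₁ T ((le_max_left _ _).trans hT)
  have hl := Real.log_nonneg (show 1 ≤ T by linarith)
  rw [Real.norm_of_nonneg hl, Real.norm_of_nonneg (by positivity)] at h2
  have hq : (T ^ (1 / 6 : ℝ)) ^ 6 = T := by
    rw [← Real.rpow_natCast, ← Real.rpow_mul hT0.le]
    norm_num
  refine ⟨?_, by rwa [Real.le_log_iff_exp_le hT0]⟩
  have h3 : K' * Real.log T ≤ T ^ (1 / 6 : ℝ) := by
    calc K' * Real.log T ≤ K' * (1 / K' * T ^ (1 / 6 : ℝ)) :=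
          mul_le_mul_of_nonneg_left h2 (by positivity)
      _ = _ := by field_simp
  calc K * Real.log T ^ 6 ≤ K' ^ 6 * Real.log T ^ 6 := by
        apply mul_le_mul_of_nonneg_right _ (by positivity)
        calc K ≤ K' := le_max_left _ _
          _ ≤ K' ^ 6 := le_self_pow₀ hK1 (by norm_num)
    _ = (K' * Real.log T) ^ 6 := by ring
    _ ≤ (T ^ (1 / 6 : ℝ)) ^ 6 := pow_le_pow_left₀ (by positivity) h3 6
    _ = T := hq

end Pool.Agent.Lib.MP_cd509c_nt.JD
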