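import Pool.Agent.Lib.MP_cd509c_nt.JD.Defs

/-!
Piece gr: growth of `ff`.
-/

set_option autoImplicit false

namespace Pool.Agent.Lib.MP_cd509c_nt.JD

open Complex ComplexConjugate MeasureTheory Filter
open Pool.Agent.Lib.MP_cd509c_nt.DN
open Pool.Agent.Lib.MP_cd509c_nt

/-- Fenchel: `s t ≤ exp t + s log s - s`. -/
private lemma jd_gr_fenchel (s t : ℝ) (hs : 0 < s) : s * t ≤ Real.exp t + s * Real.log s - s := by
  have h1 := Real.add_one_le_exp (t - Real.log s)
  have h2 : Real.exp (t - Real.log s) = Real.exp t / s := by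
    rw [Real.exp_sub, Real.exp_log hs]
  rw [h2, le_div_iff₀ hs] at h1
  nlinarith

private lemma jd_gr_pt (u : ℝ) :
    Phi u * Real.exp (Real.exp |u|) ≤ Real.exp 1 * Real.exp (-1 * u ^ 2) := by
  have h := Phi_le u
  have hv : 0 ≤ |u| := abs_nonneg u
  have hs := Real.sum_le_exp_of_nonneg hv 4
  simp only [Finset.sum_range_succ, Finset.sum_range_zero, Nat.factorial] at hs
  norm_num at hs
  have hpi := Real.pi_gt_three
  have hE := Real.exp_pos |u|
  calc Phi u * Real.exp (Real.exp |u|)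
      ≤ Real.exp (6 * |u| - 2 * Real.pi * Real.exp |u|) * Real.exp (Real.exp |u|) :=
        mul_le_mul_of_nonneg_right h (Real.exp_pos _).le
    _ = Real.exp (6 * |u| - 2 * Real.pi * Real.exp |u| + Real.exp |u|) := by
        rw [← Real.exp_add]
    _ ≤ Real.exp (1 + -1 * u ^ 2) := by
        apply Real.exp_le_exp.mpr
        have h2 : 5 * Real.exp |u| ≤ 2 * Real.pi * Real.exp |u| - Real.exp |u| := by nlinarith
        have h3 : 5 * (1 + |u| + |u| ^ 2 / 2 + |u| ^ 3 / 6) ≤ 5 * Real.exp |u| := by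
          have := hs
          rw [sq_abs] at *
          linarith
        rw [← sq_abs u]
        have h4 : 0 ≤ |u| ^ 3 := by positivity
        nlinarith [sq_nonneg (|u| - 1)]
    _ = _ := by rw [Real.exp_add]

private lemma jd_gr_int : Integrable (fun u : ℝ => Phi u * Real.exp (Real.exp |u|)) := by
  have hg := (integrable_exp_neg_mul_sq (b := 1) (by norm_num)).const_mul (Real.exp 1)
  refine hg.mono' ?_ (Eventually.of_forall fun u => ?_)
  · exact (Phi_continuous.mul (by fun_prop)).aestronglyMeasurable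
  · have hpos := (Phi_pos u).le
    rw [Real.norm_of_nonneg (by positivity)]
    exact jd_gr_pt u

private lemma jd_gr_ff (r : ℝ) (hr : 2 ≤ r) (w : ℂ) (hw : ‖w‖ ≤ r) :
    ‖ff w‖ ≤ (∫ u : ℝ, Phi u * Real.exp (Real.exp |u|)) *
      Real.exp (Real.sqrt r * Real.log r) := by
  have hs0 : 0 < Real.sqrt r := Real.sqrt_pos.mpr (by linarith)
  have h1 : ‖ff w‖ ≤ ∫ u : ℝ, (Phi u * Real.exp (Real.exp |u|)) *
      Real.exp (Real.sqrt r * Real.log r) := by
    rw [ff_eq]
    apply norm_integral_le_of_norm_le (jd_gr_int.mul_const _)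
    apply Eventually.of_forall
    intro u
    rw [norm_mul, Complex.norm_real, Real.norm_of_nonneg (Phi_pos u).le, mul_assoc,
      ← Real.exp_add]
    apply mul_le_mul_of_nonneg_left _ (Phi_pos u).le
    refine (EE_norm_le 0 _).trans ?_
    have he : er 0 0 = 1 := by simp [er]
    rw [he, one_mul]
    apply Real.exp_le_exp.mpr
    rw [norm_mul, Complex.norm_real, Real.norm_of_nonneg (sq_nonneg u),
      Real.sqrt_mul (sq_nonneg u), Real.sqrt_sq_eq_abs]
    have h2 : |u| * Real.sqrt ‖w‖ ≤ Real.sqrt r * |u| := by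
      rw [mul_comm]
      exact mul_le_mul_of_nonneg_right (Real.sqrt_le_sqrt hw) (abs_nonneg u)
    have h3 := jd_gr_fenchel (Real.sqrt r) |u| hs0
    have h4 : Real.log (Real.sqrt r) = Real.log r / 2 := Real.log_sqrt (by linarith)
    have h5 : 0 ≤ Real.log r := Real.log_nonneg (by linarith)
    rw [h4] at h3
    have h6 : 0 ≤ Real.sqrt r * Real.log r := mul_nonneg hs0.le h5
    nlinarith
  rw [integral_mul_const] at h1
  exact h1

theorem p_gr : S_gr := by
  obtain ⟨K, hK⟩ : ∃ K : ℝ, K = ∫ u : ℝ, Phi u * Real.exp (Real.exp |u|) := ⟨_, rfl⟩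
  have hK0 : 0 ≤ K := by
    rw [hK]
    apply integral_nonneg
    intro u
    have := (Phi_pos u).le
    simp only [Pi.zero_apply]
    positivity
  have hf : 0 < ‖ff 0‖ := norm_pos_iff.mpr ff_zero_ne
  have hm : 0 < Real.sqrt 2 * Real.log 2 :=
    mul_pos (Real.sqrt_pos.mpr (by norm_num)) (Real.log_pos (by norm_num))
  obtain ⟨Q, hQ⟩ : ∃ Q : ℝ, Q = K / ‖ff 0‖ / (Real.sqrt 2 * Real.log 2) := ⟨_, rfl⟩
  have hQ0 : 0 ≤ Q := by rw [hQ]; positivity
  refine ⟨1 + Q, by linarith, fun r hr w hw => ?_⟩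
  have h1 := jd_gr_ff r hr w hw
  rw [← hK] at h1
  have h2 : Real.sqrt 2 * Real.log 2 ≤ Real.sqrt r * Real.log r := by
    apply mul_le_mul (Real.sqrt_le_sqrt hr) (Real.log_le_log (by norm_num) hr)
      (Real.log_nonneg (by norm_num)) (Real.sqrt_nonneg _)
  have h3 : K / ‖ff 0‖ ≤ Real.exp (Q * (Real.sqrt r * Real.log r)) := by
    have h4 : K / ‖ff 0‖ = Q * (Real.sqrt 2 * Real.log 2) := by
      rw [hQ, div_mul_cancel₀ _ hm.ne']
    have h5 : Q * (Real.sqrt 2 * Real.log 2) ≤ Q * (Real.sqrt r * Real.log r) :=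
      mul_le_mul_of_nonneg_left h2 hQ0
    have h6 := Real.add_one_le_exp (Q * (Real.sqrt r * Real.log r))
    linarith
  have h7 : K ≤ Real.exp (Q * (Real.sqrt r * Real.log r)) * ‖ff 0‖ := by
    rwa [div_le_iff₀ hf] at h3
  have h8 : Real.exp ((1 + Q) * Real.sqrt r * Real.log r) =
      Real.exp (Q * (Real.sqrt r * Real.log r)) * Real.exp (Real.sqrt r * Real.log r) := by
    rw [← Real.exp_add]
    congr 1
    ring
  calc ‖ff w‖ ≤ K * Real.exp (Real.sqrt r * Real.log r) := h1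
    _ ≤ (Real.exp (Q * (Real.sqrt r * Real.log r)) * ‖ff 0‖) *
        Real.exp (Real.sqrt r * Real.log r) :=
        mul_le_mul_of_nonneg_right h7 (Real.exp_pos _).le
    _ = _ := by rw [h8]; ring

end Pool.Agent.Lib.MP_cd509c_nt.JD
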