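import Pool.Agent.Lib.MP_cd509c_nt.JD.P.link
import Pool.Agent.Lib.MP_cd509c_nt.JD.Tot
import Pool.Agent.Lib.MP_cd509c_nt.DN.P.jen

set_option autoImplicit false

/-!
Project JD (helper50): small zeros (helper49).
-/

namespace Pool.Agent.Lib.MP_cd509c_nt.JD

open Complex Pool.Agent.Lib.MP_cd509c_nt.DN

theorem jd_low_diff (D n : ℕ) (g : ℂ → ℂ) : Differentiable ℂ (iteratedDeriv n (Hd D g)) := by
  have h : Differentiable ℂ (Hd D g) := by
    unfold Hd
    fun_prop
  exact (h.contDiff (n := ⊤)).differentiable_iteratedDeriv n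
    (by exact_mod_cast WithTop.coe_lt_top _)

/-- growth of the derivatives of the Jensen transform, uniform in all parameters -/
theorem hd_growth : ∃ K : ℝ, 0 < K ∧ ∀ (d n : ℕ) (T : ℝ) (w : ℂ), 1 ≤ d → 2 ≤ T →
    ‖w‖ ≤ 4 * T ^ 2 → ‖iteratedDeriv n (Hd (d + n) ff) w‖ ≤
      ‖iteratedDeriv n (Hd (d + n) ff) 0‖ * Real.exp (K * T * Real.log T) := by
  obtain ⟨K, hK, h⟩ := Jen_growth
  refine ⟨K, hK, ?_⟩
  intro d n T w hd hT hw
  have hN : (0 : ℝ) < (d : ℝ) + n := by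
    have : (1 : ℝ) ≤ d := by exact_mod_cast hd
    have : (0 : ℝ) ≤ n := Nat.cast_nonneg n
    linarith
  have hNc : ((d + n : ℕ) : ℂ) ≠ 0 := by
    have : d + n ≠ 0 := by omega
    exact_mod_cast this
  have hl := lk_ne d n hd
  have hl' : 0 < ‖lk d n‖ := norm_pos_iff.mpr hl
  have h1 := link_unif d n hd (-(w / ((d + n : ℕ) : ℂ)))
  have e1 : -((d + n : ℕ) : ℂ) * -(w / ((d + n : ℕ) : ℂ)) = w := by field_simp
  rw [e1] at h1
  have h2 := link_unif d n hd 0
  rw [mul_zero, ← Jp_eval, Jp_zero] at h2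
  have h3 := h d n T (-(w / ((d + n : ℕ) : ℂ))) hT (by
    rw [norm_neg, norm_div, norm_natCast]
    push_cast
    rw [div_mul_cancel₀ _ hN.ne']
    exact hw)
  rw [h1, h2, norm_mul, norm_mul, mul_assoc] at h3
  exact le_of_mul_le_mul_left h3 hl'

theorem hd_zero_ne (d n : ℕ) (hd : 1 ≤ d) : iteratedDeriv n (Hd (d + n) ff) 0 ≠ 0 := by
  have h2 := link_unif d n hd 0
  rw [mul_zero, ← Jp_eval, Jp_zero] at h2
  intro h
  rw [h, mul_zero] at h2
  exact gam_ne_zero n h2

/-- number of zeros in a disc, uniform in all parameters -/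
theorem hd_count : ∃ K : ℝ, 0 < K ∧ ∀ (d n : ℕ) (T : ℝ) (S : Finset ℂ), 1 ≤ d → 2 ≤ T →
    (∀ ω ∈ S, ‖ω‖ ≤ T ^ 2) → ordS (iteratedDeriv n (Hd (d + n) ff)) S ≤ K * T * Real.log T := by
  obtain ⟨K, hK, h⟩ := hd_growth
  refine ⟨K, hK, ?_⟩
  intro d n T S hd hT hS
  have hlT : 0 < Real.log T := Real.log_pos (by linarith)
  have hne := hd_zero_ne d n hd
  have h1 := p_jen (iteratedDeriv n (Hd (d + n) ff)) 0 (T ^ 2)
    (‖iteratedDeriv n (Hd (d + n) ff) 0‖ * Real.exp (K * T * Real.log T))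
    (jd_low_diff _ _ _) (by positivity) (by
      intro w hw
      rw [sub_zero] at hw
      exact h d n T w hd hT hw) hne S (by
      intro z hz
      rw [sub_zero]
      exact hS z hz)
  have hn0 : 0 < ‖iteratedDeriv n (Hd (d + n) ff) 0‖ := norm_pos_iff.mpr hne
  rw [mul_div_cancel_left₀ _ hn0.ne', Real.log_exp] at h1
  have hl3 : 1 ≤ Real.log 3 := by
    rw [Real.le_log_iff_exp_le (by norm_num)]
    have := Real.exp_one_lt_d9
    linarith
  have h0 : 0 ≤ ordS (iteratedDeriv n (Hd (d + n) ff)) S :=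
    Finset.sum_nonneg fun _ _ => Nat.cast_nonneg _
  unfold ordS at h0 ⊢
  nlinarith

theorem p_low : S_low := by
  intro A hA
  obtain ⟨K, hK, h⟩ := hd_count
  -- `A log D < D` for large `D`
  have hev : ∃ D₀ : ℝ, ∀ D : ℝ, D₀ ≤ D → A * Real.log D + 1 ≤ D := by
    have h1 := Real.isLittleO_log_id_atTop.bound (show (0 : ℝ) < 1 / (2 * A) by positivity)
    rw [Filter.eventually_atTop] at h1
    obtain ⟨D₁, hD₁⟩ := h1
    refine ⟨max D₁ 2, fun D hD => ?_⟩
    have h2 := hD₁ D ((le_max_left _ _).trans hD)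
    have hD2 : 2 ≤ D := (le_max_right _ _).trans hD
    rw [id, Real.norm_of_nonneg (Real.log_nonneg (by linarith)),
      Real.norm_of_nonneg (by linarith)] at h2
    have h3 : A * Real.log D ≤ D / 2 := by
      calc A * Real.log D ≤ A * (1 / (2 * A) * D) := mul_le_mul_of_nonneg_left h2 (by linarith)
        _ = D / 2 := by field_simp
    linarith
  obtain ⟨D₀, hD₀⟩ := hev
  refine ⟨4 * K + 1, D₀, by linarith, ?_⟩
  intro D n r hD hn hr S hS
  have h1 := hD₀ D hD
  have hnD : n + 1 ≤ D := by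
    have : (n : ℝ) + 1 ≤ D := by linarith
    exact_mod_cast this
  obtain ⟨d, rfl⟩ : ∃ d, D = d + n := ⟨D - n, by omega⟩
  have hd : 1 ≤ d := by omega
  set T : ℝ := 2 * Real.sqrt r with hT
  have hr0 : 0 ≤ r := by linarith
  have hs := Real.sq_sqrt hr0
  have hs1 : 1 ≤ Real.sqrt r := by rw [Real.one_le_sqrt]; linarith
  have hT2 : 2 ≤ T := by rw [hT]; linarith
  have h2 := h d n T S hd hT2 (by
    intro ω hω
    have := (hS ω hω).2
    rw [hT, mul_pow, hs]
    linarith)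
  have hlr : 0 < Real.log r := Real.log_pos (by linarith)
  have hl2 : Real.log 2 ≤ Real.log r := Real.log_le_log (by norm_num) hr
  have hlT : Real.log T ≤ 2 * Real.log r := by
    rw [hT, Real.log_mul (by norm_num) (by positivity), Real.log_sqrt hr0]
    linarith
  have hD2 : 0 ≤ Real.log ((d + n : ℕ) : ℝ) ^ 2 := by positivity
  have hsl : 0 ≤ Real.sqrt r * Real.log r := by positivity
  calc ordS (iteratedDeriv n (Hd (d + n) ff)) S ≤ K * T * Real.log T := h2
    _ ≤ K * T * (2 * Real.log r) := mul_le_mul_of_nonneg_left hlT (by positivity)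
    _ = 4 * K * (Real.sqrt r * Real.log r) := by rw [hT]; ring
    _ ≤ (4 * K + 1) * (Real.sqrt r * Real.log r + Real.log ((d + n : ℕ) : ℝ) ^ 2) := by
        nlinarith

end Pool.Agent.Lib.MP_cd509c_nt.JD
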