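import Pool.Agent.Lib.MP_cd509c_nt.JD.Defs

/-!
# Derivatives of the Jensen transform: no non-real zeros far out
-/

set_option autoImplicit false

namespace Pool.Agent.Lib.MP_cd509c_nt.JD

open Complex ComplexConjugate

/-- the coefficients -/
private noncomputable def jd_out_c (D k : ℕ) : ℂ :=
  (D.choose k : ℂ) * iteratedDeriv k ff 0 / (D : ℂ) ^ k

private theorem jd_out_eq (D : ℕ) :
    Hd D ff = fun w => ∑ k ∈ Finset.range (D + 1), jd_out_c D k * w ^ k := by
  funext w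
  unfold Hd jd_out_c
  refine Finset.sum_congr rfl fun k _ => ?_
  rw [div_pow]
  ring

private theorem jd_out_diff (D : ℕ) : Differentiable ℂ (Hd D ff) := by
  rw [jd_out_eq]
  fun_prop

private theorem jd_out_creal (D k : ℕ) : conj (jd_out_c D k) = jd_out_c D k := by
  unfold jd_out_c
  rw [iteratedDeriv_ff_zero', gam_eq]
  simp only [map_div₀, map_mul, map_pow, map_natCast, map_neg, map_one, conj_ofReal]

private theorem jd_out_real (D : ℕ) (w : ℂ) : Hd D ff (conj w) = conj (Hd D ff w) := by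
  rw [jd_out_eq]
  show (∑ k ∈ Finset.range (D + 1), jd_out_c D k * (conj w) ^ k) =
    conj (∑ k ∈ Finset.range (D + 1), jd_out_c D k * w ^ k)
  rw [map_sum]
  refine Finset.sum_congr rfl fun k _ => ?_
  rw [map_mul, map_pow, jd_out_creal]

private theorem jd_out_deriv (D n : ℕ) (hn : n ≤ D) :
    iteratedDeriv n (Hd D ff) 0 = jd_out_c D n * n.factorial := by
  rw [jd_out_eq, iteratedDeriv_fun_sum (fun k _ => by fun_prop)]
  rw [Finset.sum_eq_single n]
  · rw [iteratedDeriv_const_mul_field, iteratedDeriv_fun_pow_zero, if_pos rfl]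
  · intro k _ hk
    rw [iteratedDeriv_const_mul_field, iteratedDeriv_fun_pow_zero, if_neg (Ne.symm hk),
      Nat.cast_zero, mul_zero]
  · intro h
    exact absurd (Finset.mem_range.2 (by omega)) h

private theorem jd_out_cne (D n : ℕ) (hD : 1 ≤ D) (hn : n ≤ D) : jd_out_c D n ≠ 0 := by
  unfold jd_out_c
  rw [iteratedDeriv_ff_zero']
  have h1 : (D.choose n : ℂ) ≠ 0 := by exact_mod_cast (Nat.choose_pos hn).ne'
  have h2 : (D : ℂ) ≠ 0 := by exact_mod_cast (show D ≠ 0 by omega)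
  exact div_ne_zero (mul_ne_zero h1 (mul_ne_zero (pow_ne_zero _ (by norm_num)) (gam_ne_zero n)))
    (pow_ne_zero _ h2)

private theorem jd_out_pow (t : ℝ) (ht : 0 ≤ t) (k D : ℕ) (hk : k ≤ D) :
    t ^ k ≤ Real.exp (2 * D * t ^ (3 / 4 : ℝ)) := by
  set s : ℝ := t ^ (1 / 4 : ℝ) with hs
  have hs0 : 0 ≤ s := Real.rpow_nonneg ht _
  have h3 : t ^ (3 / 4 : ℝ) = s ^ 3 := by
    rw [hs, ← Real.rpow_natCast, ← Real.rpow_mul ht]; norm_num
  have h4 : t = s ^ 4 := by
    rw [hs, ← Real.rpow_natCast, ← Real.rpow_mul ht]; norm_num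
  have h5 : 1 + t ≤ (1 + s ^ 3) ^ 2 := by
    rw [h4]
    rcases le_total s 1 with h | h
    · have h6 : s ^ 4 ≤ s ^ 3 := pow_le_pow_of_le_one hs0 h (by norm_num)
      nlinarith [pow_nonneg hs0 3]
    · have h6 : s ^ 4 ≤ s ^ 6 := pow_le_pow_right₀ h (by norm_num)
      nlinarith [pow_nonneg hs0 3]
  have h7 : 1 + s ^ 3 ≤ Real.exp (s ^ 3) := by
    have := Real.add_one_le_exp (s ^ 3)
    linarith
  have h8 : 1 + t ≤ Real.exp (2 * s ^ 3) := by
    refine h5.trans ?_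
    rw [show 2 * s ^ 3 = s ^ 3 + s ^ 3 by ring, Real.exp_add, sq]
    have h9 : 0 ≤ 1 + s ^ 3 := by positivity
    exact mul_le_mul h7 h7 h9 (Real.exp_pos _).le
  calc t ^ k ≤ (1 + t) ^ k := pow_le_pow_left₀ ht (by linarith) k
    _ ≤ (1 + t) ^ D := pow_le_pow_right₀ (by linarith) hk
    _ ≤ (Real.exp (2 * s ^ 3)) ^ D := pow_le_pow_left₀ (by linarith) h8 D
    _ = Real.exp (2 * D * t ^ (3 / 4 : ℝ)) := by
        rw [← Real.exp_nat_mul, h3]
        congr 1
        ring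

private theorem jd_out_gr (D : ℕ) : ∃ A : ℝ, ∀ w, ‖Hd D ff w‖ ≤
    A * Real.exp (A * ‖w‖ ^ (3 / 4 : ℝ)) := by
  set S : ℝ := ∑ k ∈ Finset.range (D + 1), ‖jd_out_c D k‖ with hS
  have hS0 : 0 ≤ S := Finset.sum_nonneg fun _ _ => norm_nonneg _
  refine ⟨S + 2 * D, fun w => ?_⟩
  have hw : 0 ≤ ‖w‖ ^ (3 / 4 : ℝ) := Real.rpow_nonneg (norm_nonneg _) _
  have h1 : ‖Hd D ff w‖ ≤ S * Real.exp (2 * D * ‖w‖ ^ (3 / 4 : ℝ)) := by
    rw [jd_out_eq, hS, Finset.sum_mul]
    refine (norm_sum_le _ _).trans (Finset.sum_le_sum fun k hk => ?_)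
    rw [norm_mul, norm_pow]
    exact mul_le_mul_of_nonneg_left
      (jd_out_pow _ (norm_nonneg _) k D (by rw [Finset.mem_range] at hk; omega)) (norm_nonneg _)
  refine h1.trans (mul_le_mul (by linarith [Nat.cast_nonneg (α := ℝ) D]) ?_
    (Real.exp_pos _).le (by positivity))
  rw [Real.exp_le_exp]
  exact mul_le_mul_of_nonneg_right (by linarith) hw

theorem p_out (h : S_out0) : S_out := by
  obtain ⟨K, D₀, hK, h⟩ := h
  refine ⟨3 * K, max D₀ 1, by linarith, fun D n hD hn ω hω him => ?_⟩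
  have hD0 : D₀ ≤ D := (le_max_left _ _).trans hD
  have hD1 : (1 : ℝ) ≤ D := (le_max_right _ _).trans hD
  have hDn : 1 ≤ D := by exact_mod_cast hD1
  have hne : iteratedDeriv n (Hd D ff) 0 ≠ 0 := by
    rw [jd_out_deriv D n (by omega)]
    exact mul_ne_zero (jd_out_cne D n hDn (by omega))
      (by exact_mod_cast Nat.factorial_ne_zero n)
  have h0 : Hd D ff 0 ≠ 0 := by
    have h1 := jd_out_deriv D 0 (by omega)
    rw [iteratedDeriv_zero] at h1
    rw [h1]
    exact mul_ne_zero (jd_out_cne D 0 hDn (by omega))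
      (by exact_mod_cast Nat.factorial_ne_zero 0)
  obtain ⟨A, hA⟩ := jd_out_gr D
  have hKD : 0 ≤ K * D := by positivity
  obtain ⟨ζ, hζ, hζim, hre⟩ := jensen_entire (jd_out_diff D) (jd_out_real D) h0 hA n hne ω hω him
  have hζn := h D hD0 ζ hζ hζim
  have hmem : ω ∈ {z : ℂ | |z.im| ≤ K * D} := by
    refine deriv_zeros_mem (jd_out_diff D) (jd_out_real D) h0 hA ?_ ?_ ?_ n hne ω hω
    · have e : {z : ℂ | |z.im| ≤ K * D} = Complex.imCLM ⁻¹' (Set.Icc (-(K * D)) (K * D)) := by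
        ext z
        show |z.im| ≤ K * D ↔ z.im ∈ Set.Icc (-(K * D)) (K * D)
        rw [abs_le, Set.mem_Icc]
      rw [e]
      exact (convex_Icc _ _).linear_preimage Complex.imCLM.toLinearMap
    · exact isClosed_le (continuous_abs.comp Complex.continuous_im) continuous_const
    · intro z hz
      show |z.im| ≤ K * D
      by_cases hzi : z.im = 0
      · rw [hzi, abs_zero]
        exact hKD
      · exact (Complex.abs_im_le_norm z).trans (h D hD0 z hz hzi)
  have him2 : |ω.im| ≤ K * D := hmem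
  have h1 : |ζ.re| ≤ K * D := (Complex.abs_re_le_norm ζ).trans hζn
  have h2 : |ζ.im| ≤ K * D := (Complex.abs_im_le_norm ζ).trans hζn
  have h3 : |ω.re| ≤ |ω.re - ζ.re| + |ζ.re| := by
    have := abs_add_le (ω.re - ζ.re) ζ.re
    rwa [sub_add_cancel] at this
  have h4 : Real.sqrt n * |ζ.im| ≤ Real.sqrt n * (K * D) :=
    mul_le_mul_of_nonneg_left h2 (Real.sqrt_nonneg _)
  have h5 := Complex.norm_le_abs_re_add_abs_im ω
  have h6 : 1 ≤ K * D := by nlinarith
  have h7 := Real.sqrt_nonneg (n : ℝ)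
  have h8 : 0 ≤ Real.sqrt n * (K * D) := mul_nonneg h7 hKD
  nlinarith

end Pool.Agent.Lib.MP_cd509c_nt.JD
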