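import Pool.Agent.Lib.MP_cd509c_nt.JD.StmK

/-!
# JD: pointwise bound, left part
-/

set_option autoImplicit false

namespace Pool.Agent.Lib.MP_cd509c_nt.JD

open Complex ComplexConjugate MeasureTheory
open Pool.Agent.Lib.MP_cd509c_nt.DN

lemma ptL_refl {C₁ ε N b Y x a : ℝ} {g : ℂ → ℂ} (h : NearReg C₁ ε N b Y x a g) (w : ℂ) :
    ‖g (om x a ⟨|w.re|, w.im⟩)‖ = ‖g (om x a w)‖ := by
  rcases le_or_gt 0 w.re with hw | hw
  · rw [abs_of_nonneg hw]
  · rw [abs_of_neg hw]
    have h1 : om x a ⟨-w.re, w.im⟩ = conj (om x a w) := by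
      unfold om
      apply Complex.ext <;> simp [← Complex.ofReal_pow]
    rw [h1, h.real, Complex.norm_conj]

theorem p_ptL (h1 : S_wp) (h2 : S_kr) : S_ptL := by
  intro C₁ B hC₁ hB
  refine ⟨1, le_rfl, ?_⟩
  intro ε D N b Y x a g hctx w hw v hv1 hv2
  obtain ⟨hw1, hw2, hw3⟩ := hw
  have hε0 := hctx.e0
  have hε1 := hctx.e1
  have hN := hctx.N1
  have hb := hctx.b1
  have hYb := hctx.Yb
  have ha := hctx.a0
  have hx := hctx.x0
  have hax := hctx.ax
  have hD := hctx.D1
  have hY : 160 ≤ Y := by linarith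
  have hvabs : |v| = -v := abs_of_neg (by linarith)
  have hnv : ‖(v : ℂ)‖ = -v := by rw [Complex.norm_real, Real.norm_eq_abs, hvabs]
  have haY : a * Y ≤ a * Y ^ 2 := by
    have : Y ≤ Y ^ 2 := by nlinarith
    exact mul_le_mul_of_nonneg_left this ha.le
  have haY1 : 1000 * (a * Y) ≤ ε * x := by linarith
  have hεx : ε * x ≤ x / 100 := by nlinarith
  have h8 : 8 * a * ‖(v : ℂ)‖ ≤ x := by
    rw [hnv]
    have : a * (-v) ≤ a * (Y / 2) := mul_le_mul_of_nonneg_left (by linarith) ha.le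
    nlinarith
  obtain ⟨e1, e2, -, -⟩ := h1 x a w v ha hx h8
  set w' := Wp x a w v with hw'
  -- the distance
  have hnw : ‖w‖ ≤ 31 / 80 * Y := by
    have h3 := Complex.norm_le_abs_re_add_abs_im w
    have h4 : |w.re| = w.re := abs_of_nonneg (by linarith)
    rw [h4] at h3
    linarith
  have hdist : ‖w' - (w + v)‖ ≤ ε / 100 := by
    refine e2.trans ?_
    rw [hnv, div_le_iff₀ hx]
    have h3 : (-v) * (-v + ‖w‖) ≤ Y ^ 2 := by
      have h5 : -v + ‖w‖ ≤ Y := by linarith
      have h6 : 0 ≤ -v + ‖w‖ := by linarith [norm_nonneg w]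
      nlinarith
    have h4 : a * ((-v) * (-v + ‖w‖)) ≤ a * Y ^ 2 := mul_le_mul_of_nonneg_left h3 ha.le
    nlinarith
  have hre : |w'.re - (w.re + v)| ≤ ε / 100 := by
    have h3 := (Complex.abs_re_le_norm (w' - (w + v))).trans hdist
    simpa using h3
  have him : |w'.im - w.im| ≤ ε / 100 := by
    have h3 := (Complex.abs_im_le_norm (w' - (w + v))).trans hdist
    simpa using h3
  obtain ⟨hre1, hre2⟩ := abs_le.mp hre
  obtain ⟨him1, him2⟩ := abs_le.mp him
  obtain ⟨hwi1, hwi2⟩ := abs_le.mp hw3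
  -- the reflected point
  set w'' : ℂ := ⟨|w'.re|, w'.im⟩ with hw''
  have hg : ‖g (om x a w'')‖ = ‖g (om x a w')‖ := ptL_refl hctx.reg w'
  have hlin := hctx.reg.lin w w'' (by linarith) (by linarith) (by linarith)
    (abs_nonneg _) (by
      show |w'.re| ≤ Y
      rw [abs_le]
      constructor <;> linarith) (by
      show |w'.im| ≤ 24 * b
      rw [abs_le]
      constructor <;> linarith)
  have hA : |w'.re| - w.re ≤ -v - 1 / 5 + ε / 100 := by
    rcases le_or_gt 0 w'.re with h3 | h3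
    · rw [abs_of_nonneg h3]
      linarith
    · rw [abs_of_neg h3]
      linarith
  have hB' : ‖w'' - w‖ ≤ -v + ε / 50 := by
    have h3 := Complex.norm_le_abs_re_add_abs_im (w'' - w)
    have h4 : |(w'' - w).re| ≤ -v + ε / 100 := by
      have h5 : (w'' - w).re = |w'.re| - |w.re| := by
        have : |w.re| = w.re := abs_of_nonneg (by linarith)
        rw [this]
        rfl
      rw [h5]
      refine (abs_abs_sub_abs_le _ _).trans ?_
      rw [abs_le]
      constructor <;> linarith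
    have h6 : |(w'' - w).im| ≤ ε / 100 := him
    linarith
  have hlin2 : ‖g (om x a w')‖ ≤ Real.exp (N * (-v - 1 / 5 + ε / 100) +
      ε * N * (-v + ε / 50)) * ‖g (om x a w)‖ := by
    rw [← hg]
    refine hlin.trans (mul_le_mul_of_nonneg_right (Real.exp_le_exp.mpr ?_) (norm_nonneg _))
    have h3 : N * (w''.re - w.re) ≤ N * (-v - 1 / 5 + ε / 100) :=
      mul_le_mul_of_nonneg_left hA (by linarith)
    have h4 : ε * N * ‖w'' - w‖ ≤ ε * N * (-v + ε / 50) :=
      mul_le_mul_of_nonneg_left hB' (by positivity)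
    linarith
  -- the kernel
  have hβ : 0 < bet D N x a := by
    unfold bet
    have : (0 : ℝ) < D := by exact_mod_cast hD
    positivity
  have hq : |2 * a * v / x| ≤ ε := by
    rw [abs_div, abs_of_pos hx, div_le_iff₀ hx, abs_mul, hvabs, abs_of_pos (by positivity)]
    have : a * (-v) ≤ a * (Y / 2) := mul_le_mul_of_nonneg_left (by linarith) ha.le
    nlinarith
  have hker := ((h2 D N x a hD (by linarith) ha hx).2 v (by
    rw [hvabs]
    have : a * (-v) ≤ a * (Y / 2) := mul_le_mul_of_nonneg_left (by linarith) ha.le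
    have hpi := Real.pi_gt_three
    nlinarith)).2
  have hker2 : ‖kD D (-(2 * a * v / x))‖ ≤
      Real.exp (-((1 - ε) * (N * v ^ 2 / (2 * bet D N x a)))) := by
    refine hker.trans (Real.exp_le_exp.mpr ?_)
    have h3 : (2 * a * v / x) ^ 2 / 12 ≤ ε := by
      have h4 : (2 * a * v / x) ^ 2 ≤ ε ^ 2 := by
        rw [← sq_abs]
        exact pow_le_pow_left₀ (abs_nonneg _) hq 2
      nlinarith
    have h5 : 0 ≤ N * v ^ 2 / (2 * bet D N x a) := by positivity
    nlinarith
  -- conclusion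
  unfold FF
  rw [e1, norm_mul]
  refine (mul_le_mul hker2 hlin2 (norm_nonneg _) (Real.exp_pos _).le).trans ?_
  rw [← mul_assoc, ← Real.exp_add, mul_comm]
  refine mul_le_mul_of_nonneg_left (Real.exp_le_exp.mpr ?_) (norm_nonneg _)
  rw [hvabs]
  have h3 : N * ((1 - ε) * v ^ 2 / (2 * bet D N x a)) =
      (1 - ε) * (N * v ^ 2 / (2 * bet D N x a)) := by ring
  have h4 : N * ((1 + 2 * ε) * -v - (1 - ε) * v ^ 2 / (2 * bet D N x a)) =
      N * ((1 + 2 * ε) * -v) - (1 - ε) * (N * v ^ 2 / (2 * bet D N x a)) := by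
    rw [mul_sub, h3]
  rw [h4]
  have h5 : 0 ≤ N * ε * (-v) := mul_nonneg (by positivity) (by linarith)
  have h6 : N * ε * ε ≤ N * ε * 1 := mul_le_mul_of_nonneg_left (by linarith) (by positivity)
  have h7 : 0 ≤ N * ε := by positivity
  nlinarith

end Pool.Agent.Lib.MP_cd509c_nt.JD
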